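import Pool.Agent.H13.RF.A1a

/-! Module A1b: growth functions and iterates. -/

namespace RFT

namespace Ker

variable {S : Type} (k : Ker S)

theorem V_pos (p : ℕ) (x : S) : 0 < k.V p x := by
  unfold V
  exact_mod_cast Nat.ascFactorial_pos _ _

theorem one_le_V (p : ℕ) (x : S) : 1 ≤ k.V p x := by
  unfold V
  exact_mod_cast Nat.ascFactorial_pos _ _

theorem A1b_succ (p : ℕ) (x : S) : k.V (p + 1) x = (k.lev x + k.c + 1 + p) * k.V p x := by
  unfold V
  rw [Nat.ascFactorial_succ]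
  push_cast
  ring

theorem V_mono {p q : ℕ} (h : p ≤ q) (x : S) : k.V p x ≤ k.V q x := by
  induction q, h using Nat.le_induction with
  | base => exact le_rfl
  | succ q _ ih =>
    refine ih.trans ?_
    rw [A1b_succ]
    have h1 := k.V_pos q x
    have h2 : (0 : ℝ) ≤ k.lev x + k.c + q := by positivity
    nlinarith

theorem V_one (x : S) : k.V 1 x = k.lev x + k.c + 1 := by
  have h := k.A1b_succ 0 x
  have h0 : k.V 0 x = 1 := by
    unfold V
    simp
  rw [h0] at h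
  simpa using h

/-- `lev x * V p x ≤ V (p+1) x` -/
theorem lev_mul_V_le (p : ℕ) (x : S) : (k.lev x : ℝ) * k.V p x ≤ k.V (p + 1) x := by
  rw [A1b_succ]
  refine mul_le_mul_of_nonneg_right ?_ (k.V_pos p x).le
  have h1 : (0 : ℝ) ≤ k.c := Nat.cast_nonneg _
  have h2 : (0 : ℝ) ≤ p := Nat.cast_nonneg _
  linarith

/-- `P (V p) ≤ V (p+1)`: the total mass is at most `lev x + c`, and `V p y` for `lev y = lev x + 1` is
`(a+2)⋯(a+p+1)` with `a = lev x + c`. -/
theorem P_V_le (p : ℕ) (x : S) : k.P (k.V p) x ≤ k.V (p + 1) x := by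
  have h1 : k.P (k.V p) x = k.P (fun _ => ((k.lev x + k.c + 2).ascFactorial p : ℕ) * (1 : ℝ)) x := by
    apply k.P_congr
    intro y hy
    unfold V
    rw [hy, mul_one]
    congr 2
    ring
  rw [h1, k.P_smul]
  have h2 := k.tot x
  have h3 : k.V (p + 1) x
      = ((k.lev x : ℝ) + k.c + 1) * ((k.lev x + k.c + 2).ascFactorial p : ℕ) := by
    unfold V
    have h4 := Nat.succ_ascFactorial (k.lev x + k.c + 1) p
    have h5 : (k.lev x + k.c + 1).succ = k.lev x + k.c + 2 := rfl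
    rw [h5] at h4
    rw [Nat.ascFactorial_succ, ← h4]
    push_cast
    ring
  rw [h3, mul_comm]
  refine mul_le_mul_of_nonneg_right ?_ (Nat.cast_nonneg _)
  linarith

theorem A1b_nonneg {f : S → ℝ} {C : ℝ} {p : ℕ} (hf : ∀ x, |f x| ≤ C * k.V p x) (x : S) :
    0 ≤ C := by
  have h1 := (abs_nonneg (f x)).trans (hf x)
  exact nonneg_of_mul_nonneg_left h1 (k.V_pos p x)

theorem abs_iter_le {f : S → ℝ} {C : ℝ} {p : ℕ} (hf : ∀ x, |f x| ≤ C * k.V p x) (j : ℕ) (x : S) :
    |(k.P^[j] f) x| ≤ C * k.V (p + j) x := by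
  induction j generalizing x with
  | zero => exact hf x
  | succ j ih =>
    rw [Function.iterate_succ_apply']
    have hC := k.A1b_nonneg hf x
    calc |k.P (k.P^[j] f) x| ≤ k.P (fun y => C * k.V (p + j) y) x :=
          k.abs_P_le fun y _ => ih y
      _ = C * k.P (k.V (p + j)) x := k.P_smul _ _ _
      _ ≤ C * k.V (p + (j + 1)) x := mul_le_mul_of_nonneg_left (k.P_V_le (p + j) x) hC

theorem iter_nonneg_on {D : Set S} (hD : k.Closed D) {f : S → ℝ} (h : ∀ y ∈ D, 0 ≤ f y) (j : ℕ)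
    {x : S} (hx : x ∈ D) : 0 ≤ (k.P^[j] f) x := by
  induction j generalizing x with
  | zero => exact h x hx
  | succ j ih =>
    rw [Function.iterate_succ_apply']
    exact hD x hx _ fun y hy => ih hy

theorem iter_add (f g : S → ℝ) (j : ℕ) (x : S) :
    (k.P^[j] (fun y => f y + g y)) x = (k.P^[j] f) x + (k.P^[j] g) x := by
  induction j generalizing x with
  | zero => rfl
  | succ j ih =>
    rw [Function.iterate_succ_apply', Function.iterate_succ_apply', Function.iterate_succ_apply',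
      ← k.P_add]
    congr 1
    funext y
    exact ih y

theorem iter_smul (r : ℝ) (f : S → ℝ) (j : ℕ) (x : S) :
    (k.P^[j] (fun y => r * f y)) x = r * (k.P^[j] f) x := by
  induction j generalizing x with
  | zero => rfl
  | succ j ih =>
    rw [Function.iterate_succ_apply', Function.iterate_succ_apply', ← k.P_smul]
    congr 1
    funext y
    exact ih y

/-- `Gr` is a vector space -/
theorem Gr.add {f g : S → ℝ} (hf : k.Gr f) (hg : k.Gr g) : k.Gr (fun x => f x + g x) := by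
  obtain ⟨C, p, hC⟩ := hf
  obtain ⟨C', p', hC'⟩ := hg
  refine ⟨C + C', max p p', fun x => ?_⟩
  have h1 := k.A1b_nonneg hC x
  have h2 := k.A1b_nonneg hC' x
  calc |f x + g x| ≤ |f x| + |g x| := abs_add_le _ _
    _ ≤ C * k.V p x + C' * k.V p' x := add_le_add (hC x) (hC' x)
    _ ≤ C * k.V (max p p') x + C' * k.V (max p p') x :=
        add_le_add (mul_le_mul_of_nonneg_left (k.V_mono (le_max_left _ _) x) h1)
          (mul_le_mul_of_nonneg_left (k.V_mono (le_max_right _ _) x) h2)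
    _ = (C + C') * k.V (max p p') x := by ring

theorem Gr.smul {f : S → ℝ} (hf : k.Gr f) (r : ℝ) : k.Gr (fun x => r * f x) := by
  obtain ⟨C, p, hC⟩ := hf
  refine ⟨|r| * C, p, fun x => ?_⟩
  rw [abs_mul, mul_assoc]
  exact mul_le_mul_of_nonneg_left (hC x) (abs_nonneg r)

theorem Gr.sub {f g : S → ℝ} (hf : k.Gr f) (hg : k.Gr g) : k.Gr (fun x => f x - g x) := by
  have h1 := Gr.add k hf (Gr.smul k hg (-1))
  have h2 : (fun x => f x - g x) = fun x => f x + (-1) * g x := by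
    funext x
    ring
  rw [h2]
  exact h1

theorem Gr.of_abs_le {f g : S → ℝ} (hg : k.Gr g) (h : ∀ x, |f x| ≤ g x) : k.Gr f := by
  obtain ⟨C, p, hC⟩ := hg
  exact ⟨C, p, fun x => ((h x).trans (le_abs_self _)).trans (hC x)⟩

theorem Gr.const (r : ℝ) : k.Gr (fun _ => r) := by
  refine ⟨|r|, 0, fun x => ?_⟩
  have h := k.one_le_V 0 x
  nlinarith [abs_nonneg r]

theorem Gr.of_bdd {f : S → ℝ} {M : ℝ} (h : ∀ x, |f x| ≤ M) : k.Gr f :=
  Gr.of_abs_le k (Gr.const k M) h

/-- linear growth -/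
theorem Gr.of_lin {f : S → ℝ} {M : ℝ} (h : ∀ x, |f x| ≤ M * (k.lev x + 1)) : k.Gr f := by
  refine ⟨M, 1, fun x => (h x).trans ?_⟩
  have hM : 0 ≤ M := by
    have h1 := (abs_nonneg (f x)).trans (h x)
    exact nonneg_of_mul_nonneg_left h1 (by positivity)
  rw [V_one]
  refine mul_le_mul_of_nonneg_left ?_ hM
  have h1 : (0 : ℝ) ≤ k.c := Nat.cast_nonneg _
  linarith

/-- the square of a function of linear growth -/
theorem Gr.of_sq {f : S → ℝ} {M : ℝ} (h : ∀ x, |f x| ≤ M * (k.lev x + 1)) :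
    k.Gr (fun x => f x ^ 2) := by
  refine ⟨M ^ 2, 2, fun x => ?_⟩
  have h1 := h x
  have h2 : |f x ^ 2| = |f x| ^ 2 := by rw [abs_pow]
  rw [h2]
  have h3 : |f x| ^ 2 ≤ (M * (k.lev x + 1)) ^ 2 := pow_le_pow_left₀ (abs_nonneg _) h1 2
  refine h3.trans ?_
  have h4 : k.V 2 x = (k.lev x + k.c + 1 + 1) * (k.lev x + k.c + 1) := by
    have h5 := k.A1b_succ 1 x
    rw [V_one] at h5
    simpa using h5
  rw [h4, mul_pow]
  refine mul_le_mul_of_nonneg_left ?_ (sq_nonneg M)
  have h1 : (0 : ℝ) ≤ k.c := Nat.cast_nonneg _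
  have h2 : (0 : ℝ) ≤ k.lev x := Nat.cast_nonneg _
  nlinarith

theorem Gr.P {f : S → ℝ} (hf : k.Gr f) : k.Gr (k.P f) := by
  obtain ⟨C, p, hC⟩ := hf
  exact ⟨C, p + 1, fun x => k.abs_iter_le hC 1 x⟩

theorem Gr.L {f : S → ℝ} (hf : k.Gr f) : k.Gr (k.L f) := by
  have h1 : k.Gr (fun x => (k.lev x : ℝ) * f x) := by
    obtain ⟨C, p, hC⟩ := hf
    refine ⟨C, p + 1, fun x => ?_⟩
    have h2 := k.A1b_nonneg hC x
    rw [abs_mul, Nat.abs_cast]
    calc (k.lev x : ℝ) * |f x| ≤ k.lev x * (C * k.V p x) :=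
          mul_le_mul_of_nonneg_left (hC x) (Nat.cast_nonneg _)
      _ = C * (k.lev x * k.V p x) := by ring
      _ ≤ C * k.V (p + 1) x := mul_le_mul_of_nonneg_left (k.lev_mul_V_le p x) h2
  exact Gr.sub k (Gr.P k hf) h1

end Ker

end RFT
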