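import Pool.Agent.H13.RF.Ker

/-! Module A1a: elementary properties of the operator P. -/

namespace RFT

namespace Ker

variable {S : Type} (k : Ker S)

theorem P_add (u v : S → ℝ) (x : S) : k.P (fun y => u y + v y) x = k.P u x + k.P v x := by
  obtain ⟨l, -, hu⟩ := k.rep x
  rw [hu, hu, hu, ← List.sum_map_add]
  congr 1
  apply List.map_congr_left
  intro p _
  ring

theorem P_smul (r : ℝ) (u : S → ℝ) (x : S) : k.P (fun y => r * u y) x = r * k.P u x := by
  obtain ⟨l, -, hu⟩ := k.rep x
  rw [hu, hu, ← List.sum_map_mul_left]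
  congr 1
  apply List.map_congr_left
  intro p _
  ring

theorem P_sub (u v : S → ℝ) (x : S) : k.P (fun y => u y - v y) x = k.P u x - k.P v x := by
  have h1 := k.P_add u (fun y => (-1) * v y) x
  rw [k.P_smul] at h1
  have h2 : (fun y => u y - v y) = fun y => u y + (-1) * v y := by
    funext y
    ring
  rw [h2, h1]
  ring

theorem P_neg (u : S → ℝ) (x : S) : k.P (fun y => - u y) x = - k.P u x := by
  have h1 := k.P_smul (-1) u x
  have h2 : (fun y => - u y) = fun y => (-1) * u y := by
    funext y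
    ring
  rw [h2, h1]
  ring

theorem P_zero (x : S) : k.P (fun _ => 0) x = 0 := by
  have h1 := k.P_smul 0 (fun _ => 0) x
  simpa using h1

theorem P_sum {ι : Type} (s : Finset ι) (u : ι → S → ℝ) (x : S) :
    k.P (fun y => ∑ i ∈ s, u i y) x = ∑ i ∈ s, k.P (u i) x := by
  classical
  induction s using Finset.induction_on with
  | empty => simpa using k.P_zero x
  | insert a s ha ih =>
    rw [Finset.sum_insert ha, ← ih, ← k.P_add]
    simp only [Finset.sum_insert ha]

/-- only the values at level `lev x + 1` are read -/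
theorem P_congr {u v : S → ℝ} {x : S} (h : ∀ y, k.lev y = k.lev x + 1 → u y = v y) :
    k.P u x = k.P v x := by
  obtain ⟨l, hl, hu⟩ := k.rep x
  rw [hu, hu]
  congr 1
  apply List.map_congr_left
  intro p hp
  rw [h p.2 (hl p hp).2]

theorem P_mono {u v : S → ℝ} {x : S} (h : ∀ y, k.lev y = k.lev x + 1 → u y ≤ v y) :
    k.P u x ≤ k.P v x := by
  obtain ⟨l, hl, hu⟩ := k.rep x
  rw [hu, hu]
  apply List.sum_le_sum
  intro p hp
  exact mul_le_mul_of_nonneg_left (h p.2 (hl p hp).2) (hl p hp).1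

theorem P_nonneg {u : S → ℝ} {x : S} (h : ∀ y, k.lev y = k.lev x + 1 → 0 ≤ u y) :
    0 ≤ k.P u x := by
  have h1 := k.P_mono (u := fun _ => 0) (v := u) (x := x) h
  rwa [k.P_zero] at h1

theorem abs_P_le {u v : S → ℝ} {x : S} (h : ∀ y, k.lev y = k.lev x + 1 → |u y| ≤ v y) :
    |k.P u x| ≤ k.P v x := by
  rw [abs_le]
  constructor
  · rw [← k.P_neg]
    exact k.P_mono fun y hy => (abs_le.1 (h y hy)).1
  · exact k.P_mono fun y hy => (abs_le.1 (h y hy)).2

theorem P_mono_on {D : Set S} (hD : k.Closed D) {u v : S → ℝ} (h : ∀ y ∈ D, u y ≤ v y) {x : S}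
    (hx : x ∈ D) : k.P u x ≤ k.P v x := by
  have h1 := hD x hx (fun y => v y - u y) fun y hy => sub_nonneg.2 (h y hy)
  rw [k.P_sub] at h1
  linarith

theorem P_congr_on {D : Set S} (hD : k.Closed D) {u v : S → ℝ} (h : ∀ y ∈ D, u y = v y) {x : S}
    (hx : x ∈ D) : k.P u x = k.P v x :=
  le_antisymm (k.P_mono_on hD (fun y hy => (h y hy).le) hx)
    (k.P_mono_on hD (fun y hy => (h y hy).ge) hx)

theorem A1a_deriv {w : ℝ → S → ℝ} {w' : S → ℝ} {t : ℝ} (l : List (ℝ × S))
    (h : ∀ p ∈ l, HasDerivAt (fun s => w s p.2) (w' p.2) t) :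
    HasDerivAt (fun s => (l.map (fun p => p.1 * w s p.2)).sum)
      ((l.map (fun p => p.1 * w' p.2)).sum) t := by
  induction l with
  | nil => simpa using hasDerivAt_const t (0 : ℝ)
  | cons a l ih =>
    simp only [List.map_cons, List.sum_cons]
    exact ((h a List.mem_cons_self).const_mul a.1).add
      (ih fun p hp => h p (List.mem_cons_of_mem _ hp))

/-- `P` commutes with derivatives -/
theorem P_hasDerivAt {w : ℝ → S → ℝ} {w' : S → ℝ} {t : ℝ} {x : S}
    (h : ∀ y, k.lev y = k.lev x + 1 → HasDerivAt (fun s => w s y) (w' y) t) :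
    HasDerivAt (fun s => k.P (w s) x) (k.P w' x) t := by
  obtain ⟨l, hl, hu⟩ := k.rep x
  simp only [hu]
  exact A1a_deriv l fun p hp => h p.2 (hl p hp).2

theorem A1a_cont {w : ℝ → S → ℝ} {s : Set ℝ} (l : List (ℝ × S))
    (h : ∀ p ∈ l, ContinuousOn (fun t => w t p.2) s) :
    ContinuousOn (fun t => (l.map (fun p => p.1 * w t p.2)).sum) s := by
  induction l with
  | nil => simpa using continuousOn_const
  | cons a l ih =>
    simp only [List.map_cons, List.sum_cons]
    exact ((continuousOn_const).mul (h a List.mem_cons_self)).add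
      (ih fun p hp => h p (List.mem_cons_of_mem _ hp))

theorem P_continuousOn {w : ℝ → S → ℝ} {s : Set ℝ} {x : S}
    (h : ∀ y, k.lev y = k.lev x + 1 → ContinuousOn (fun t => w t y) s) :
    ContinuousOn (fun t => k.P (w t) x) s := by
  obtain ⟨l, hl, hu⟩ := k.rep x
  simp only [hu]
  exact A1a_cont l fun p hp => h p.2 (hl p hp).2

theorem A1a_sum {w : ℕ → S → ℝ} {u : S → ℝ} (l : List (ℝ × S))
    (h : ∀ p ∈ l, HasSum (fun j => w j p.2) (u p.2)) :
    HasSum (fun j => (l.map (fun p => p.1 * w j p.2)).sum)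
      ((l.map (fun p => p.1 * u p.2)).sum) := by
  induction l with
  | nil => simp
  | cons a l ih =>
    simp only [List.map_cons, List.sum_cons]
    exact ((h a List.mem_cons_self).mul_left a.1).add
      (ih fun p hp => h p (List.mem_cons_of_mem _ hp))

/-- `P` commutes with infinite sums -/
theorem P_hasSum {w : ℕ → S → ℝ} {u : S → ℝ} {x : S}
    (h : ∀ y, k.lev y = k.lev x + 1 → HasSum (fun j => w j y) (u y)) :
    HasSum (fun j => k.P (w j) x) (k.P u x) := by
  obtain ⟨l, hl, hu⟩ := k.rep x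
  simp only [hu]
  exact A1a_sum l fun p hp => h p.2 (hl p hp).2

end Ker

end RFT
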