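import Pool.Agent.H13.RF.A1a
import Pool.Agent.H13.RF.A1b
import Pool.Agent.H13.RF.A1

/-! Module A2: the series of the semigroup. -/

namespace RFT
namespace Ker

variable {S : Type} (k : Ker S)

/-- negative binomial series with rising factorials -/
theorem A2_sum (m : ℕ) {z : ℝ} (h1 : |z| < 1) :
    HasSum (fun j : ℕ => z ^ j / (j.factorial : ℝ) * (((m + 1).ascFactorial j : ℕ) : ℝ))
      (1 / (1 - z) ^ (m + 1)) := by
  have h2 := hasSum_choose_mul_geometric_of_norm_lt_one (𝕜 := ℝ) m (r := z)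
    (by rwa [Real.norm_eq_abs])
  have h3 : (fun j : ℕ => z ^ j / (j.factorial : ℝ) * (((m + 1).ascFactorial j : ℕ) : ℝ))
      = fun j : ℕ => ((j + m).choose m : ℝ) * z ^ j := by
    funext j
    rw [Nat.ascFactorial_eq_factorial_mul_choose, add_comm m j,
      ← Nat.choose_symm_add (a := j) (b := m)]
    have h4 : (j.factorial : ℝ) ≠ 0 := by exact_mod_cast j.factorial_ne_zero
    push_cast
    field_simp
  rw [h3]
  exact h2

/-- With `a = lev x + c`: `∑ z^j/j! V (p+j) x = V p x (1-z)^{-(a+1+p)}`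
(use `Nat.ascFactorial` additivity, `(b).ascFactorial j = j! * (b+j-1).choose j`, and
`tsum_choose_mul_geometric_of_norm_lt_one`). -/
theorem hasSum_V (p : ℕ) (x : S) {z : ℝ} (h0 : 0 ≤ z) (h1 : z < 1) :
    HasSum (fun j : ℕ => z ^ j / (j.factorial : ℝ) * k.V (p + j) x)
      (k.V p x * (1 / (1 - z) ^ (k.lev x + k.c + 1 + p))) := by
  have h2 := (A2_sum (k.lev x + k.c + p) (z := z) (by rw [abs_of_nonneg h0]; exact h1)).mul_left
    (k.V p x)
  have e1 : k.lev x + k.c + p + 1 = k.lev x + k.c + 1 + p := by ring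
  rw [e1] at h2
  have h3 : (fun j : ℕ => z ^ j / (j.factorial : ℝ) * k.V (p + j) x)
      = fun j : ℕ => k.V p x *
        (z ^ j / (j.factorial : ℝ) * (((k.lev x + k.c + 1 + p).ascFactorial j : ℕ) : ℝ)) := by
    funext j
    unfold V
    rw [← Nat.ascFactorial_mul_ascFactorial]
    push_cast
    ring
  rw [h3]
  exact h2

theorem A2_term {f : S → ℝ} {C : ℝ} {p : ℕ} (hf : ∀ x, |f x| ≤ C * k.V p x) (x : S) (z : ℝ)
    (j : ℕ) : |z ^ j / (j.factorial : ℝ) * (k.P^[j] f) x|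
      ≤ C * (|z| ^ j / (j.factorial : ℝ) * k.V (p + j) x) := by
  rw [abs_mul, abs_div, abs_pow, Nat.abs_cast]
  have h1 := k.abs_iter_le hf j x
  have h2 : 0 ≤ |z| ^ j / (j.factorial : ℝ) := by positivity
  calc |z| ^ j / (j.factorial : ℝ) * |(k.P^[j] f) x|
      ≤ |z| ^ j / (j.factorial : ℝ) * (C * k.V (p + j) x) := mul_le_mul_of_nonneg_left h1 h2
    _ = C * (|z| ^ j / (j.factorial : ℝ) * k.V (p + j) x) := by ring

theorem summable_of_abs_lt {f : S → ℝ} (hf : k.Gr f) (x : S) {z : ℝ} (h1 : |z| < 1) :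
    Summable (fun j : ℕ => z ^ j / (j.factorial : ℝ) * (k.P^[j] f) x) := by
  obtain ⟨C, p, hC⟩ := hf
  refine Summable.of_norm_bounded
    (g := fun j : ℕ => C * (|z| ^ j / (j.factorial : ℝ) * k.V (p + j) x))
    ((k.hasSum_V p x (abs_nonneg z) h1).summable.mul_left C) fun j => ?_
  rw [Real.norm_eq_abs]
  exact k.A2_term hC x z j

theorem one_sub_exp_nonneg {t : ℝ} (ht : 0 ≤ t) : 0 ≤ 1 - Real.exp (-t) := by
  have : Real.exp (-t) ≤ 1 := Real.exp_le_one_iff.2 (by linarith)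
  linarith

theorem one_sub_exp_lt_one (t : ℝ) : 1 - Real.exp (-t) < 1 := by
  have := Real.exp_pos (-t)
  linarith

theorem A2_abs {t : ℝ} (ht : 0 ≤ t) : |1 - Real.exp (-t)| < 1 := by
  rw [abs_of_nonneg (one_sub_exp_nonneg ht)]
  exact one_sub_exp_lt_one t

theorem summable_sg {f : S → ℝ} (hf : k.Gr f) (x : S) {t : ℝ} (ht : 0 ≤ t) :
    Summable (fun j : ℕ => (1 - Real.exp (-t)) ^ j / (j.factorial : ℝ) * (k.P^[j] f) x) :=
  k.summable_of_abs_lt hf x (A2_abs ht)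

theorem abs_sg_le {f : S → ℝ} {C : ℝ} {p : ℕ} (hf : ∀ x, |f x| ≤ C * k.V p x) {t : ℝ}
    (ht : 0 ≤ t) (x : S) :
    |k.sg t f x| ≤ C * Real.exp (((k.c : ℝ) + 1 + p) * t) * k.V p x := by
  have h0 := one_sub_exp_nonneg ht
  have h1 := one_sub_exp_lt_one t
  have h2 := (k.hasSum_V p x h0 h1).mul_left C
  have h3 : |∑' j : ℕ, (1 - Real.exp (-t)) ^ j / (j.factorial : ℝ) * (k.P^[j] f) x|
      ≤ C * (k.V p x * (1 / (1 - (1 - Real.exp (-t))) ^ (k.lev x + k.c + 1 + p))) := by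
    rw [← Real.norm_eq_abs]
    refine tsum_of_norm_bounded h2 fun j => ?_
    rw [Real.norm_eq_abs]
    have := k.A2_term hf x (1 - Real.exp (-t)) j
    rwa [abs_of_nonneg h0] at this
  unfold sg
  rw [abs_mul, abs_of_pos (Real.exp_pos _)]
  refine (mul_le_mul_of_nonneg_left h3 (Real.exp_pos _).le).trans (le_of_eq ?_)
  have h4 : 1 - (1 - Real.exp (-t)) = Real.exp (-t) := by ring
  rw [h4, ← Real.exp_nat_mul, one_div, ← Real.exp_neg]
  have h5 : Real.exp (-(k.lev x * t)) * Real.exp (-(((k.lev x + k.c + 1 + p : ℕ) : ℝ) * -t))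
      = Real.exp (((k.c : ℝ) + 1 + p) * t) := by
    rw [← Real.exp_add]
    congr 1
    push_cast
    ring
  calc Real.exp (-(k.lev x * t)) *
        (C * (k.V p x * Real.exp (-(((k.lev x + k.c + 1 + p : ℕ) : ℝ) * -t))))
      = C * (Real.exp (-(k.lev x * t)) *
        Real.exp (-(((k.lev x + k.c + 1 + p : ℕ) : ℝ) * -t))) * k.V p x := by ring
    _ = C * Real.exp (((k.c : ℝ) + 1 + p) * t) * k.V p x := by rw [h5]

theorem Gr.sg {f : S → ℝ} (hf : k.Gr f) {t : ℝ} (ht : 0 ≤ t) : k.Gr (k.sg t f) := by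
  obtain ⟨C, p, hC⟩ := hf
  exact ⟨_, p, fun x => k.abs_sg_le hC ht x⟩

@[simp] theorem sg_zero (f : S → ℝ) (x : S) : k.sg 0 f x = f x := by
  unfold sg
  rw [tsum_eq_single 0]
  · simp
  · intro j hj
    have : (1 - Real.exp (-0)) = 0 := by simp
    rw [this, zero_pow hj]
    simp

theorem sg_add_fun {f g : S → ℝ} (hf : k.Gr f) (hg : k.Gr g) {t : ℝ} (ht : 0 ≤ t) (x : S) :
    k.sg t (fun y => f y + g y) x = k.sg t f x + k.sg t g x := by
  unfold sg
  rw [← mul_add, ← (k.summable_sg hf x ht).tsum_add (k.summable_sg hg x ht)]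
  congr 1
  refine tsum_congr fun j => ?_
  rw [k.iter_add]
  ring

theorem sg_smul (f : S → ℝ) (r : ℝ) (t : ℝ) (x : S) :
    k.sg t (fun y => r * f y) x = r * k.sg t f x := by
  unfold sg
  have h : (fun j : ℕ => (1 - Real.exp (-t)) ^ j / (j.factorial : ℝ) *
      (k.P^[j] (fun y => r * f y)) x)
      = fun j : ℕ => r * ((1 - Real.exp (-t)) ^ j / (j.factorial : ℝ) * (k.P^[j] f) x) := by
    funext j
    rw [k.iter_smul]
    ring
  rw [h, tsum_mul_left]
  ring

theorem sg_sub_fun {f g : S → ℝ} (hf : k.Gr f) (hg : k.Gr g) {t : ℝ} (ht : 0 ≤ t) (x : S) :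
    k.sg t (fun y => f y - g y) x = k.sg t f x - k.sg t g x := by
  have h1 := k.sg_add_fun hf (Gr.smul k hg (-1)) ht x
  rw [k.sg_smul] at h1
  have h2 : (fun y => f y - g y) = fun y => f y + (-1) * g y := by
    funext y
    ring
  rw [h2, h1]
  ring

theorem sg_nonneg {D : Set S} (hD : k.Closed D) {f : S → ℝ} (h : ∀ y ∈ D, 0 ≤ f y)
    {t : ℝ} (ht : 0 ≤ t) {x : S} (hx : x ∈ D) : 0 ≤ k.sg t f x := by
  unfold sg
  refine mul_nonneg (Real.exp_pos _).le (tsum_nonneg fun j => mul_nonneg ?_ ?_)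
  · have := one_sub_exp_nonneg ht
    positivity
  · exact k.iter_nonneg_on hD h j hx

theorem sg_mono {D : Set S} (hD : k.Closed D) {f g : S → ℝ} (hf : k.Gr f) (hg : k.Gr g)
    (h : ∀ y ∈ D, f y ≤ g y) {t : ℝ} (ht : 0 ≤ t) {x : S} (hx : x ∈ D) :
    k.sg t f x ≤ k.sg t g x := by
  have h1 := k.sg_nonneg hD (f := fun y => g y - f y) (fun y hy => sub_nonneg.2 (h y hy)) ht hx
  rw [k.sg_sub_fun hg hf ht] at h1
  linarith

theorem A2_iter_congr {D : Set S} (hD : k.Closed D) {f g : S → ℝ} (h : ∀ y ∈ D, f y = g y)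
    (j : ℕ) : ∀ x ∈ D, (k.P^[j] f) x = (k.P^[j] g) x := by
  induction j with
  | zero => exact h
  | succ j ih =>
    intro x hx
    rw [Function.iterate_succ_apply', Function.iterate_succ_apply']
    exact k.P_congr_on hD ih hx

theorem sg_congr {D : Set S} (hD : k.Closed D) {f g : S → ℝ}
    (h : ∀ y ∈ D, f y = g y) (t : ℝ) {x : S} (hx : x ∈ D) :
    k.sg t f x = k.sg t g x := by
  unfold sg
  congr 1
  exact tsum_congr fun j => by rw [k.A2_iter_congr hD h j x hx]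

/-- one term of the series is a lower bound for nonnegative functions -/
theorem le_sg_term {f : S → ℝ} (hf : k.Gr f) (h : ∀ y, 0 ≤ f y) {t : ℝ} (ht : 0 ≤ t) (x : S)
    (j : ℕ) : Real.exp (-((k.lev x : ℝ) * t)) *
      ((1 - Real.exp (-t)) ^ j / (j.factorial : ℝ) * (k.P^[j] f) x) ≤ k.sg t f x := by
  have hD : k.Closed Set.univ := fun x _ u hu => k.P_nonneg fun y _ => hu y (Set.mem_univ y)
  unfold sg
  refine mul_le_mul_of_nonneg_left ?_ (Real.exp_pos _).le
  refine (k.summable_sg hf x ht).le_tsum j fun i _ => mul_nonneg ?_ ?_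
  · have := one_sub_exp_nonneg ht
    positivity
  · exact k.iter_nonneg_on hD (fun y _ => h y) i (Set.mem_univ x)

theorem A2_iter_const (hc : ∀ x, k.P (fun _ => 1) x = k.lev x) (r : ℝ) (j : ℕ) : ∀ x,
    (k.P^[j] (fun _ => r)) x = r * (((k.lev x).ascFactorial j : ℕ) : ℝ) := by
  induction j with
  | zero =>
    intro x
    simp
  | succ j ih =>
    intro x
    rw [Function.iterate_succ_apply']
    have h1 : k.P (k.P^[j] fun _ => r) x
        = k.P (fun _ => (r * (((k.lev x + 1).ascFactorial j : ℕ) : ℝ)) * (1 : ℝ)) x := by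
      apply k.P_congr
      intro y hy
      rw [ih y, hy, mul_one]
    rw [h1, k.P_smul, hc]
    have h2 := Nat.succ_ascFactorial (k.lev x) j
    rw [Nat.ascFactorial_succ, ← h2]
    push_cast
    ring

/-- If the total rate is exactly the level, constants are preserved (`∑ z^j/j! s(s+1)⋯(s+j-1) = (1-z)^{-s}`). -/
theorem sg_const (hc : ∀ x, k.P (fun _ => 1) x = k.lev x) (hpos : ∀ x, 1 ≤ k.lev x) (r : ℝ) {t : ℝ}
    (ht : 0 ≤ t) (x : S) : k.sg t (fun _ => r) x = r := by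
  obtain ⟨m, hm⟩ : ∃ m, k.lev x = m + 1 := ⟨k.lev x - 1, by have := hpos x; omega⟩
  have h1 := (A2_sum m (A2_abs ht)).mul_left r
  have h2 : (∑' j : ℕ, (1 - Real.exp (-t)) ^ j / (j.factorial : ℝ) * (k.P^[j] (fun _ => r)) x)
      = r * (1 / (1 - (1 - Real.exp (-t))) ^ (m + 1)) := by
    rw [← h1.tsum_eq]
    refine tsum_congr fun j => ?_
    rw [k.A2_iter_const hc r j x, hm]
    ring
  unfold sg
  rw [h2, hm]
  have h4 : 1 - (1 - Real.exp (-t)) = Real.exp (-t) := by ring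
  rw [h4, ← Real.exp_nat_mul, one_div, ← Real.exp_neg]
  have h5 : Real.exp (-(((m + 1 : ℕ) : ℝ) * t)) * Real.exp (-(((m + 1 : ℕ) : ℝ) * -t)) = 1 := by
    rw [← Real.exp_add]
    have : -(((m + 1 : ℕ) : ℝ) * t) + -(((m + 1 : ℕ) : ℝ) * -t) = 0 := by ring
    rw [this, Real.exp_zero]
  calc Real.exp (-(((m + 1 : ℕ) : ℝ) * t)) * (r * Real.exp (-(((m + 1 : ℕ) : ℝ) * -t)))
      = r * (Real.exp (-(((m + 1 : ℕ) : ℝ) * t)) * Real.exp (-(((m + 1 : ℕ) : ℝ) * -t))) := by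
        ring
    _ = r := by rw [h5, mul_one]

end Ker
end RFT
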