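import Pool.Agent.H13.RF.A2

/-! Module A3: the semigroup solves the backward equation. -/

namespace RFT
namespace Ker

variable {S : Type} (k : Ker S)

/-- `P` commutes with the series -/
theorem P_sg {f : S → ℝ} (hf : k.Gr f) (x : S) {t : ℝ} (ht : 0 ≤ t) :
    k.P (k.sg t f) x = Real.exp (-(((k.lev x : ℝ) + 1) * t)) *
      ∑' j : ℕ, (1 - Real.exp (-t)) ^ j / (j.factorial : ℝ) * (k.P^[j + 1] f) x := by
  have h1 : k.P (k.sg t f) x = k.P (fun y => Real.exp (-(((k.lev x : ℝ) + 1) * t)) *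
      ∑' j : ℕ, (1 - Real.exp (-t)) ^ j / (j.factorial : ℝ) * (k.P^[j] f) y) x := by
    apply k.P_congr
    intro y hy
    unfold sg
    rw [hy]
    push_cast
    rfl
  rw [h1, k.P_smul]
  congr 1
  have h2 := k.P_hasSum (x := x)
    (w := fun j y => (1 - Real.exp (-t)) ^ j / (j.factorial : ℝ) * (k.P^[j] f) y)
    (u := fun y => ∑' j : ℕ, (1 - Real.exp (-t)) ^ j / (j.factorial : ℝ) * (k.P^[j] f) y)
    (fun y _ => (k.summable_sg hf y ht).hasSum)
  rw [← h2.tsum_eq]
  refine tsum_congr fun j => ?_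
  rw [k.P_smul, Function.iterate_succ_apply']

/-- the power series is differentiable -/
theorem A3_series {f : S → ℝ} (hf : k.Gr f) (x : S) {z : ℝ} (hz : |z| < 1) :
    HasDerivAt (fun s : ℝ => ∑' j : ℕ, s ^ j / (j.factorial : ℝ) * (k.P^[j] f) x)
      (∑' j : ℕ, z ^ j / (j.factorial : ℝ) * (k.P^[j + 1] f) x) z := by
  obtain ⟨r, hr1, hr2⟩ := exists_between hz
  have hr0 : 0 ≤ r := (abs_nonneg z).trans hr1.le
  set g : ℕ → ℝ → ℝ := fun n s => s ^ n / (n.factorial : ℝ) * (k.P^[n] f) x with hg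
  set g' : ℕ → ℝ → ℝ := fun n s => (n * s ^ (n - 1)) / (n.factorial : ℝ) * (k.P^[n] f) x with hg'
  have hsucc : ∀ (m : ℕ) (s : ℝ), g' (m + 1) s = s ^ m / (m.factorial : ℝ) *
      (k.P^[m] (k.P f)) x := by
    intro m s
    simp only [hg', Nat.add_sub_cancel, Function.iterate_succ_apply]
    rw [Nat.factorial_succ]
    have h1 : (m.factorial : ℝ) ≠ 0 := by exact_mod_cast m.factorial_ne_zero
    have h2 : ((m : ℝ) + 1) ≠ 0 := by positivity
    push_cast
    field_simp
  have hPf : k.Gr (k.P f) := Gr.P k hf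
  have hsum : ∀ s : ℝ, |s| < 1 → Summable fun m : ℕ => g' (m + 1) s := by
    intro s hs
    simp only [hsucc]
    exact k.summable_of_abs_lt hPf x hs
  set u : ℕ → ℝ := fun n => |g' n r| with hu
  have hus : Summable u := by
    rw [← summable_nat_add_iff 1]
    exact (hsum r (by rw [abs_of_nonneg hr0]; exact hr2)).abs
  have hd := hasDerivAt_tsum_of_isPreconnected (u := u) (g := g) (g' := g')
    (t := Set.Ioo (-r) r) hus isOpen_Ioo isPreconnected_Ioo
    (fun n y _ => by
      simp only [hg, hg']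
      exact ((hasDerivAt_pow n y).div_const _).mul_const _)
    (fun n y hy => by
      simp only [hu, hg', Real.norm_eq_abs]
      rw [abs_mul, abs_mul, abs_div, abs_div, abs_mul, abs_mul, abs_pow, abs_pow]
      have hyr : |y| ≤ |r| := by
        rw [abs_of_nonneg hr0]
        exact abs_le.2 ⟨hy.1.le, hy.2.le⟩
      gcongr)
    (y₀ := z) (abs_lt.1 hr1) (k.summable_of_abs_lt hf x hz) (y := z) (abs_lt.1 hr1)
  have h3 : (∑' n, g' n z) = ∑' j : ℕ, z ^ j / (j.factorial : ℝ) * (k.P^[j + 1] f) x := by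
    have h4 : Summable fun n => g' n z := (summable_nat_add_iff 1).1 (hsum z hz)
    rw [h4.tsum_eq_zero_add]
    have h5 : g' 0 z = 0 := by simp [hg']
    rw [h5, zero_add]
    refine tsum_congr fun j => ?_
    rw [hsucc, Function.iterate_succ_apply]
  rw [← h3]
  exact hd

theorem A3_deriv {f : S → ℝ} (hf : k.Gr f) (x : S) {t : ℝ} (ht : |1 - Real.exp (-t)| < 1) :
    HasDerivAt (fun s => k.sg s f x)
      (-(k.lev x : ℝ) * k.sg t f x + Real.exp (-(((k.lev x : ℝ) + 1) * t)) *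
      ∑' j : ℕ, (1 - Real.exp (-t)) ^ j / (j.factorial : ℝ) * (k.P^[j + 1] f) x) t := by
  have h1 : HasDerivAt (fun s : ℝ => 1 - Real.exp (-s)) (Real.exp (-t)) t := by
    have h2 : HasDerivAt (fun s : ℝ => Real.exp (-s)) (Real.exp (-t) * (-1)) t :=
      (hasDerivAt_neg t).exp
    exact (h2.const_sub 1).congr_deriv (by ring)
  have h4 := (k.A3_series hf x ht).comp t h1
  have h5 : HasDerivAt (fun s : ℝ => Real.exp (-((k.lev x : ℝ) * s)))
      (Real.exp (-((k.lev x : ℝ) * t)) * (-(k.lev x : ℝ))) t := by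
    have h6 : HasDerivAt (fun s : ℝ => -((k.lev x : ℝ) * s)) (-((k.lev x : ℝ) * 1)) t :=
      ((hasDerivAt_id t).const_mul (k.lev x : ℝ)).neg
    rw [mul_one] at h6
    exact h6.exp
  have h7 := h5.mul h4
  refine HasDerivAt.congr_deriv (f := fun s => k.sg s f x) h7 ?_
  have h9 : Real.exp (-(((k.lev x : ℝ) + 1) * t))
      = Real.exp (-((k.lev x : ℝ) * t)) * Real.exp (-t) := by
    rw [← Real.exp_add]
    congr 1
    ring
  rw [h9]
  unfold sg
  simp only [Function.comp]
  ring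

/-- The backward equation, for `t > 0`.  The function `z ↦ ∑ z^j/j! (P^j f)(x)` is a power series with radius of
convergence at least one; its derivative is `∑ z^j/j! (P^{j+1} f)(x)`; `z = 1 - exp(-t)`,
`dz/dt = exp(-t)`. -/
theorem hasDerivAt_sg {f : S → ℝ} (hf : k.Gr f) (x : S) {t : ℝ} (ht : 0 < t) :
    HasDerivAt (fun s => k.sg s f x) (k.L (k.sg t f) x) t := by
  have h1 := k.A3_deriv hf x (A2_abs ht.le)
  rw [← k.P_sg hf x ht.le] at h1
  refine h1.congr_deriv ?_
  unfold L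
  ring

theorem continuousOn_sg {f : S → ℝ} (hf : k.Gr f) (x : S) :
    ContinuousOn (fun s => k.sg s f x) (Set.Ici 0) := fun _ ht =>
  (k.A3_deriv hf x (A2_abs ht)).continuousAt.continuousWithinAt

end Ker
end RFT
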