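import Pool.Agent.H13.RF.A2

/-! Module A4: comparison principle on a short time interval, then on all times. -/

namespace RFT
namespace Ker

variable {S : Type} (k : Ker S)

/-- lower bound for `P w` from a lower bound for `w` -/
theorem A4_P_lower {D : Set S} (hD : k.Closed D) {w : S → ℝ} {T C t Z : ℝ} {p n : ℕ}
    (hC : 0 ≤ C) (hZ : 0 ≤ Z)
    (hn : ∀ x ∈ D, - (C * Real.exp (((k.lev x : ℝ) + n) * T) * k.V (p + n) x * Z) ≤
      Real.exp ((k.lev x : ℝ) * t) * w x) {x : S} (hx : x ∈ D) :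
    - (C * Real.exp (((k.lev x : ℝ) + (n + 1 : ℕ)) * T) * k.V (p + (n + 1)) x * Z) *
      Real.exp (-t) ≤ Real.exp ((k.lev x : ℝ) * t) * k.P w x := by
  have h1 : ∀ y ∈ D, - (C * Real.exp (((k.lev y : ℝ) + n) * T) * k.V (p + n) y * Z) *
      Real.exp (-((k.lev y : ℝ) * t)) ≤ w y := by
    intro y hy
    have h2 := mul_le_mul_of_nonneg_right (hn y hy) (Real.exp_pos (-((k.lev y : ℝ) * t))).le
    have h3 : Real.exp ((k.lev y : ℝ) * t) * w y * Real.exp (-((k.lev y : ℝ) * t)) = w y := by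
      rw [mul_comm (Real.exp ((k.lev y : ℝ) * t)) (w y), mul_assoc, ← Real.exp_add, add_neg_cancel,
        Real.exp_zero, mul_one]
    rwa [h3] at h2
  have h4 := k.P_mono_on hD h1 hx
  set c0 : ℝ := C * Real.exp (((k.lev x : ℝ) + (n + 1 : ℕ)) * T) * Z *
    Real.exp (-(((k.lev x : ℝ) + 1) * t)) with hc0
  have hc0nn : 0 ≤ c0 := by rw [hc0]; positivity
  have h5 : k.P (fun y => - (C * Real.exp (((k.lev y : ℝ) + n) * T) * k.V (p + n) y * Z) *
      Real.exp (-((k.lev y : ℝ) * t))) x = k.P (fun y => (-c0) * k.V (p + n) y) x := by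
    apply k.P_congr
    intro y hy
    have h6 : (k.lev y : ℝ) = (k.lev x : ℝ) + 1 := by rw [hy]; push_cast; ring
    rw [h6, hc0]
    have h7 : ((k.lev x : ℝ) + 1 + n) * T = ((k.lev x : ℝ) + (n + 1 : ℕ)) * T := by
      push_cast; ring
    rw [h7]
    ring
  rw [h5, k.P_smul] at h4
  have h6 : -c0 * k.V (p + (n + 1)) x ≤ -c0 * k.P (k.V (p + n)) x := by
    have h7 := k.P_V_le (p + n) x
    have h8 : p + (n + 1) = p + n + 1 := rfl
    rw [h8]
    nlinarith
  have h9 := mul_le_mul_of_nonneg_left (h6.trans h4) (Real.exp_pos ((k.lev x : ℝ) * t)).le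
  refine le_trans (le_of_eq ?_) h9
  rw [hc0]
  have h10 : Real.exp (-t) = Real.exp ((k.lev x : ℝ) * t) *
      Real.exp (-(((k.lev x : ℝ) + 1) * t)) := by
    rw [← Real.exp_add]; congr 1; ring
  rw [h10]
  ring

/-- The iteration step.  If `w t x ≥ - C' exp(-lev x t) z(t)^n/n! V (p+n) x` on `[0,T]` for all states in `D`, where
`C' = C exp((s+n)T)` for a state of level `s`, then the same with `n + 1`: the derivative of
`exp(s t) w t x + C exp((s+n+1)T) V (p+n+1) x z(t)^(n+1)/(n+1)!` is nonnegative. -/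
theorem step {D : Set S} (hD : k.Closed D) {w w' : ℝ → S → ℝ} {T C : ℝ} {p : ℕ} (hC : 0 ≤ C)
    (h0 : ∀ x ∈ D, 0 ≤ w 0 x)
    (hc : ∀ x ∈ D, ContinuousOn (fun t => w t x) (Set.Icc 0 T))
    (hd : ∀ x ∈ D, ∀ t ∈ Set.Ioo 0 T, HasDerivAt (fun s => w s x) (w' t x) t)
    (hs : ∀ x ∈ D, ∀ t ∈ Set.Ioo 0 T, k.L (w t) x ≤ w' t x)
    (n : ℕ)
    (hn : ∀ x ∈ D, ∀ t ∈ Set.Icc 0 T, - (C * Real.exp (((k.lev x : ℝ) + n) * T) *
      k.V (p + n) x * ((1 - Real.exp (-t)) ^ n / (n.factorial : ℝ))) ≤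
      Real.exp ((k.lev x : ℝ) * t) * w t x) :
    ∀ x ∈ D, ∀ t ∈ Set.Icc 0 T, - (C * Real.exp (((k.lev x : ℝ) + (n + 1 : ℕ)) * T) *
      k.V (p + (n + 1)) x * ((1 - Real.exp (-t)) ^ (n + 1) / ((n + 1).factorial : ℝ))) ≤
      Real.exp ((k.lev x : ℝ) * t) * w t x := by
  intro x hx t ht
  set s : ℝ := (k.lev x : ℝ) with hsdef
  set A : ℝ := C * Real.exp ((s + (n + 1 : ℕ)) * T) * k.V (p + (n + 1)) x with hA
  let F : ℝ → ℝ := fun t => Real.exp (s * t) * w t x +
    A * ((1 - Real.exp (-t)) ^ (n + 1) / ((n + 1).factorial : ℝ))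
  have hcont : ContinuousOn F (Set.Icc 0 T) := by
    apply ContinuousOn.add
    · exact (Continuous.continuousOn (by fun_prop)).mul (hc x hx)
    · exact Continuous.continuousOn (by fun_prop)
  have hder : ∀ t ∈ Set.Ioo 0 T, HasDerivAt F (Real.exp (s * t) * s * w t x +
      Real.exp (s * t) * w' t x +
      A * ((1 - Real.exp (-t)) ^ n / (n.factorial : ℝ)) * Real.exp (-t)) t := by
    intro t ht
    have h1 : HasDerivAt (fun t : ℝ => Real.exp (s * t)) (Real.exp (s * t) * s) t := by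
      have := ((hasDerivAt_id t).const_mul s).exp
      simpa using this
    have h2 := h1.mul (hd x hx t ht)
    have h3 : HasDerivAt (fun t : ℝ => 1 - Real.exp (-t)) (Real.exp (-t)) t := by
      have h4 : HasDerivAt (fun t : ℝ => Real.exp (-t)) (Real.exp (-t) * (-1)) t := by
        have := (hasDerivAt_neg t).exp
        simpa using this
      have h5 := h4.const_sub 1
      simpa using h5
    have h6 := (((h3.pow (n + 1)).div_const ((n + 1).factorial : ℝ)).const_mul A)
    have h7 := h2.add h6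
    refine h7.congr_deriv ?_
    have h8 : ((n + 1).factorial : ℝ) = ((n : ℝ) + 1) * (n.factorial : ℝ) := by
      rw [Nat.factorial_succ]; push_cast; ring
    have h9 : (n.factorial : ℝ) ≠ 0 := by positivity
    have h10 : ((n : ℝ) + 1) ≠ 0 := by positivity
    rw [h8]
    simp only [Nat.add_sub_cancel, Nat.cast_add, Nat.cast_one]
    field_simp
  have hmono : MonotoneOn F (Set.Icc 0 T) := by
    apply monotoneOn_of_deriv_nonneg (convex_Icc 0 T) hcont
    · intro t ht
      rw [interior_Icc] at ht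
      exact (hder t ht).differentiableAt.differentiableWithinAt
    · intro t ht
      rw [interior_Icc] at ht
      rw [(hder t ht).deriv]
      have ht' : t ∈ Set.Icc 0 T := ⟨ht.1.le, ht.2.le⟩
      have hz : 0 ≤ 1 - Real.exp (-t) := one_sub_exp_nonneg ht.1.le
      have h1 := k.A4_P_lower hD (w := w t) (T := T) (t := t) (p := p) (n := n)
        (Z := (1 - Real.exp (-t)) ^ n / (n.factorial : ℝ)) hC (by positivity)
        (fun y hy => hn y hy t ht') hx
      have h2 := hs x hx t ht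
      rw [Ker.L] at h2
      have h3 := mul_le_mul_of_nonneg_left h2 (Real.exp_pos (s * t)).le
      rw [← hsdef, ← hA] at h1
      rw [← hsdef] at h3
      nlinarith
  have hT : (0 : ℝ) ≤ T := ht.1.trans ht.2
  have h1 := hmono ⟨le_refl 0, hT⟩ ht ht.1
  have h2 : 0 ≤ F 0 := by
    show 0 ≤ Real.exp (s * 0) * w 0 x + A * ((1 - Real.exp (-0)) ^ (n + 1) / ((n + 1).factorial : ℝ))
    rw [neg_zero, Real.exp_zero, sub_self, mul_zero, Real.exp_zero, zero_pow (Nat.succ_ne_zero n)]
    simp only [one_mul, zero_div, mul_zero, add_zero]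
    exact h0 x hx
  have h3 : 0 ≤ F t := h2.trans h1
  have h4 : F t = Real.exp (s * t) * w t x +
    A * ((1 - Real.exp (-t)) ^ (n + 1) / ((n + 1).factorial : ℝ)) := rfl
  rw [h4] at h3
  linarith

/-- For `T ≤ 1/2` the bound tends to zero, since `exp(T) (1 - exp(-T)) = exp(T) - 1 < 1`
and `V (p+n) x / n!` grows polynomially in `n`. -/
theorem short {D : Set S} (hD : k.Closed D) {w w' : ℝ → S → ℝ} {T : ℝ} (hT : 0 ≤ T)
    (hT1 : T ≤ 1 / 2)
    (h0 : ∀ x ∈ D, 0 ≤ w 0 x)
    (hc : ∀ x ∈ D, ContinuousOn (fun t => w t x) (Set.Icc 0 T))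
    (hd : ∀ x ∈ D, ∀ t ∈ Set.Ioo 0 T, HasDerivAt (fun s => w s x) (w' t x) t)
    (hs : ∀ x ∈ D, ∀ t ∈ Set.Ioo 0 T, k.L (w t) x ≤ w' t x)
    (hb : ∃ (C : ℝ) (p : ℕ), ∀ x ∈ D, ∀ t ∈ Set.Icc 0 T, |w t x| ≤ C * k.V p x) :
    ∀ x ∈ D, ∀ t ∈ Set.Icc 0 T, 0 ≤ w t x := by
  obtain ⟨C0, p, hb⟩ := hb
  set C : ℝ := max C0 0 with hCdef
  have hC : 0 ≤ C := le_max_right _ _
  have hall : ∀ n : ℕ, ∀ x ∈ D, ∀ t ∈ Set.Icc 0 T,
      - (C * Real.exp (((k.lev x : ℝ) + (n : ℕ)) * T) *
      k.V (p + n) x * ((1 - Real.exp (-t)) ^ n / (n.factorial : ℝ))) ≤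
      Real.exp ((k.lev x : ℝ) * t) * w t x := by
    intro n
    induction n with
    | zero =>
      intro x hx t ht
      have hV := (k.V_pos p x).le
      have h1 : |w t x| ≤ C * k.V p x :=
        (hb x hx t ht).trans (mul_le_mul_of_nonneg_right (le_max_left _ _) hV)
      have h2 : -(C * k.V p x) ≤ w t x := (abs_le.1 h1).1
      have h3 : Real.exp ((k.lev x : ℝ) * t) ≤ Real.exp ((k.lev x : ℝ) * T) :=
        Real.exp_le_exp.2 (mul_le_mul_of_nonneg_left ht.2 (Nat.cast_nonneg _))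
      have h4 : 0 ≤ C * k.V p x := mul_nonneg hC hV
      have h5 := mul_le_mul_of_nonneg_left h2 (Real.exp_pos ((k.lev x : ℝ) * t)).le
      have h6 := mul_le_mul_of_nonneg_right h3 h4
      simp only [Nat.cast_zero, add_zero, pow_zero, Nat.factorial_zero, Nat.cast_one, div_one,
        mul_one]
      nlinarith
    | succ n ih => exact k.step hD hC h0 hc hd hs n ih
  intro x hx t ht
  have hz0 : 0 ≤ 1 - Real.exp (-t) := one_sub_exp_nonneg ht.1
  set r : ℝ := Real.exp T * (1 - Real.exp (-t)) with hr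
  have hr0 : 0 ≤ r := mul_nonneg (Real.exp_pos T).le hz0
  have hr1 : r < 1 := by
    have h1 : Real.exp T * Real.exp (-t) ≥ 1 := by
      rw [← Real.exp_add]
      exact Real.one_le_exp (by linarith [ht.2])
    have h2 : Real.exp T < 2 := by
      have h3 : Real.exp T ≤ Real.exp (1 / 2) := Real.exp_le_exp.2 hT1
      have h4 : Real.exp (1 / 2) < 2 := by
        have h5 : Real.exp (1 / 2) ^ 2 = Real.exp 1 := by
          rw [← Real.exp_nat_mul]; norm_num
        have h6 := Real.exp_one_lt_d9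
        have h7 : Real.exp (1 / 2) ^ 2 < 2 ^ 2 := by rw [h5]; linarith
        exact lt_of_pow_lt_pow_left₀ 2 (by norm_num) h7
      linarith
    rw [hr]
    nlinarith
  have hsum := (k.hasSum_V p x hr0 hr1).summable.tendsto_atTop_zero
  have hlim := (hsum.const_mul (C * Real.exp ((k.lev x : ℝ) * T))).neg
  rw [mul_zero, neg_zero] at hlim
  have hle : ∀ n : ℕ, -(C * Real.exp ((k.lev x : ℝ) * T) * (r ^ n / (n.factorial : ℝ) *
      k.V (p + n) x)) ≤ Real.exp ((k.lev x : ℝ) * t) * w t x := by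
    intro n
    refine le_trans (le_of_eq ?_) (hall n x hx t ht)
    have h1 : Real.exp (((k.lev x : ℝ) + n) * T) = Real.exp ((k.lev x : ℝ) * T) *
        Real.exp T ^ n := by
      rw [← Real.exp_nat_mul, ← Real.exp_add]
      congr 1
      ring
    rw [h1, hr, mul_pow]
    ring
  have h1 : 0 ≤ Real.exp ((k.lev x : ℝ) * t) * w t x := le_of_tendsto' hlim hle
  exact nonneg_of_mul_nonneg_right h1 (Real.exp_pos _)

/-- Comparison principle: a supersolution with polynomial growth which is nonnegative at time zero is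
nonnegative. -/
theorem comparison {D : Set S} (hD : k.Closed D) {w w' : ℝ → S → ℝ} {T : ℝ}
    (h0 : ∀ x ∈ D, 0 ≤ w 0 x)
    (hc : ∀ x ∈ D, ContinuousOn (fun t => w t x) (Set.Icc 0 T))
    (hd : ∀ x ∈ D, ∀ t ∈ Set.Ioo 0 T, HasDerivAt (fun s => w s x) (w' t x) t)
    (hs : ∀ x ∈ D, ∀ t ∈ Set.Ioo 0 T, k.L (w t) x ≤ w' t x)
    (hb : ∃ (C : ℝ) (p : ℕ), ∀ x ∈ D, ∀ t ∈ Set.Icc 0 T, |w t x| ≤ C * k.V p x) :
    ∀ x ∈ D, ∀ t ∈ Set.Icc 0 T, 0 ≤ w t x := by
  have key : ∀ m : ℕ, ∀ x ∈ D, ∀ t ∈ Set.Icc 0 T, t ≤ (m : ℝ) / 2 → 0 ≤ w t x := by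
    intro m
    induction m with
    | zero =>
      intro x hx t ht htm
      have h1 : t = 0 := le_antisymm (by simpa using htm) ht.1
      rw [h1]
      exact h0 x hx
    | succ m ih =>
      intro x hx t ht htm
      by_cases hle : t ≤ (m : ℝ) / 2
      · exact ih x hx t ht hle
      · push Not at hle
        set a : ℝ := (m : ℝ) / 2 with ha
        have ha0 : 0 ≤ a := by positivity
        have haT : a ≤ T := hle.le.trans ht.2
        set T' : ℝ := t - a with hT'
        have hT'0 : 0 ≤ T' := by rw [hT']; linarith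
        have hT'1 : T' ≤ 1 / 2 := by
          rw [hT', ha]
          push_cast at htm
          linarith
        have hsub : ∀ u ∈ Set.Icc 0 T', a + u ∈ Set.Icc 0 T := by
          intro u hu
          refine ⟨by linarith [hu.1], ?_⟩
          have := hu.2
          rw [hT'] at this
          linarith [ht.2]
        have hsub' : ∀ u ∈ Set.Ioo 0 T', a + u ∈ Set.Ioo 0 T := by
          intro u hu
          refine ⟨by linarith [hu.1], ?_⟩
          have := hu.2
          rw [hT'] at this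
          linarith [ht.2]
        have hfin := k.short hD (w := fun u => w (a + u)) (w' := fun u => w' (a + u)) hT'0 hT'1
          (fun y hy => by
            have := ih y hy a ⟨ha0, haT⟩ (le_of_eq ha)
            simpa using this)
          (fun y hy => by
            refine (hc y hy).comp (Continuous.continuousOn (by fun_prop)) ?_
            exact fun u hu => hsub u hu)
          (fun y hy u hu => by
            have h1 := hd y hy (a + u) (hsub' u hu)
            exact h1.comp_const_add a u)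
          (fun y hy u hu => hs y hy (a + u) (hsub' u hu))
          (by
            obtain ⟨C, p, hb⟩ := hb
            exact ⟨C, p, fun y hy u hu => hb y hy (a + u) (hsub u hu)⟩)
          x hx T' ⟨hT'0, le_refl _⟩
        have h2 : a + T' = t := by rw [hT']; ring
        simpa [h2] using hfin
  intro x hx t ht
  obtain ⟨m, hm⟩ := exists_nat_ge (2 * t)
  exact key m x hx t ht (by linarith)

end Ker
end RFT
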