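import Pool.Agent.H13.RF.A5a

/-! Module A5b: semigroup property and consequences. -/

namespace RFT

namespace Ker

variable {S : Type} (k : Ker S)

theorem A5b_sg_zero (f : S → ℝ) : k.sg 0 f = f := funext fun x => k.sg_zero f x

/-- semigroup property -/
theorem sg_add {f : S → ℝ} (hf : k.Gr f) {t s : ℝ} (ht : 0 ≤ t) (hs : 0 ≤ s) (x : S) :
    k.sg (t + s) f x = k.sg t (k.sg s f) x := by
  refine k.eq_sg k.closed_univ (f := k.sg s f) (Gr.sg k hf hs) (b := fun t x => k.sg (t + s) f x)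
    ?_ ?_ ?_ ?_ x (Set.mem_univ x) t ht
  · intro y _
    show k.sg (0 + s) f y = k.sg s f y
    rw [zero_add]
  · intro y _
    refine (k.continuousOn_sg hf y).comp (Continuous.continuousOn (by fun_prop)) ?_
    intro u hu
    exact add_nonneg hu hs
  · intro y _ u hu
    exact (k.hasDerivAt_sg hf y (by linarith : 0 < u + s)).comp_add_const u s
  · intro T hT
    obtain ⟨C, p, h⟩ := TGr.sg k hf Set.univ (T + s) (by linarith)
    exact ⟨C, p, fun y hy u hu => h y hy (u + s) ⟨by linarith [hu.1], by linarith [hu.2]⟩⟩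

theorem A5b_tgr_L {f : S → ℝ} (hf : k.Gr f) : k.TGr Set.univ (fun t => k.L (k.sg t f)) := by
  intro T hT
  obtain ⟨C, p, h⟩ := TGr.sg k hf Set.univ T hT
  refine ⟨2 * max C 0, p + 1, ?_⟩
  intro x _ t ht
  have h1 : ∀ y, |k.sg t f y| ≤ max C 0 * k.V p y := fun y =>
    (h y (Set.mem_univ y) t ht).trans
      (mul_le_mul_of_nonneg_right (le_max_left _ _) (k.V_pos p y).le)
  have h2 : |k.P (k.sg t f) x| ≤ max C 0 * k.V (p + 1) x := by
    refine (k.abs_P_le (v := fun y => max C 0 * k.V p y) fun y _ => h1 y).trans ?_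
    rw [k.P_smul]
    exact mul_le_mul_of_nonneg_left (k.P_V_le p x) (le_max_right _ _)
  have h3 : |(k.lev x : ℝ) * k.sg t f x| ≤ max C 0 * k.V (p + 1) x := by
    rw [abs_mul, abs_of_nonneg (Nat.cast_nonneg (k.lev x))]
    calc (k.lev x : ℝ) * |k.sg t f x| ≤ (k.lev x : ℝ) * (max C 0 * k.V p x) :=
          mul_le_mul_of_nonneg_left (h1 x) (Nat.cast_nonneg _)
      _ = max C 0 * ((k.lev x : ℝ) * k.V p x) := by ring
      _ ≤ max C 0 * k.V (p + 1) x :=
          mul_le_mul_of_nonneg_left (k.lev_mul_V_le p x) (le_max_right _ _)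
  show |k.P (k.sg t f) x - (k.lev x : ℝ) * k.sg t f x| ≤ 2 * max C 0 * k.V (p + 1) x
  have h4 := abs_sub (k.P (k.sg t f) x) ((k.lev x : ℝ) * k.sg t f x)
  linarith

/-- The generator commutes with the semigroup: immediate for `P^[j]`, termwise
(`sg t (L f) = L (sg t f)`); both are the derivative of `sg t f x`. -/
theorem sg_L {f : S → ℝ} (hf : k.Gr f) {t : ℝ} (ht : 0 ≤ t) (x : S) :
    k.sg t (k.L f) x = k.L (k.sg t f) x := by
  refine (k.eq_sg k.closed_univ (f := k.L f) (Gr.L k hf) (b := fun t x => k.L (k.sg t f) x)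
    ?_ ?_ ?_ (k.A5b_tgr_L hf) x (Set.mem_univ x) t ht).symm
  · intro y _
    show k.L (k.sg 0 f) y = k.L f y
    rw [A5b_sg_zero]
  · intro y _
    show ContinuousOn (fun t => k.P (k.sg t f) y - (k.lev y : ℝ) * k.sg t f y) (Set.Ici 0)
    exact (k.P_continuousOn fun z _ => k.continuousOn_sg hf z).sub
      (continuousOn_const.mul (k.continuousOn_sg hf y))
  · intro y _ u hu
    show HasDerivAt (fun t => k.P (k.sg t f) y - (k.lev y : ℝ) * k.sg t f y)
      (k.P (fun z => k.L (k.sg u f) z) y - (k.lev y : ℝ) * k.L (k.sg u f) y) u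
    exact (k.P_hasDerivAt fun z _ => k.hasDerivAt_sg hf z hu).sub
      ((k.hasDerivAt_sg hf y hu).const_mul _)

theorem hasDerivAt_sg' {f : S → ℝ} (hf : k.Gr f) (x : S) {t : ℝ} (ht : 0 < t) :
    HasDerivAt (fun s => k.sg s f x) (k.sg t (k.L f) x) t := by
  rw [k.sg_L hf ht.le]
  exact k.hasDerivAt_sg hf x ht

theorem A5b_L_smul (r : ℝ) (u : S → ℝ) (x : S) : k.L (fun y => r * u y) x = r * k.L u x := by
  unfold Ker.L
  rw [k.P_smul]
  ring

theorem A5b_exp_deriv (a : ℝ) (c : ℝ) (t : ℝ) :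
    HasDerivAt (fun s => Real.exp (a * s) * c) (Real.exp (a * t) * (a * c)) t := by
  have h1 : HasDerivAt (fun s : ℝ => Real.exp (a * s)) (Real.exp (a * t) * a) t := by
    have := ((hasDerivAt_id t).const_mul a).exp
    simpa using this
  have h2 := h1.mul_const c
  refine h2.congr_deriv ?_
  ring

/-- If `L f ≥ a f` on `D` then `sg t f ≥ exp (a t) f` on `D`. -/
theorem exp_le_sg {D : Set S} (hD : k.Closed D) {f : S → ℝ} (hf : k.Gr f) {a : ℝ}
    (h : ∀ x ∈ D, a * f x ≤ k.L f x) {t : ℝ} (ht : 0 ≤ t) {x : S} (hx : x ∈ D) :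
    Real.exp (a * t) * f x ≤ k.sg t f x := by
  refine k.sub_le_sg hD hf (b := fun t x => Real.exp (a * t) * f x)
    (b' := fun t x => Real.exp (a * t) * (a * f x)) ?_ ?_ ?_ ?_ ?_ x hx t ht
  · intro y _
    show Real.exp (a * 0) * f y ≤ f y
    rw [mul_zero, Real.exp_zero, one_mul]
  · intro y _
    exact Continuous.continuousOn (by fun_prop)
  · intro y _ u _
    exact A5b_exp_deriv a (f y) u
  · intro y hy u _
    show Real.exp (a * u) * (a * f y) ≤ k.L (fun z => Real.exp (a * u) * f z) y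
    rw [A5b_L_smul]
    exact mul_le_mul_of_nonneg_left (h y hy) (Real.exp_pos _).le
  · exact TGr.mul k hf (a := fun t => Real.exp (a * t)) (Continuous.continuousOn (by fun_prop))

/-- If `L f ≤ a f` on `D` then `sg t f ≤ exp (a t) f` on `D`. -/
theorem sg_le_exp {D : Set S} (hD : k.Closed D) {f : S → ℝ} (hf : k.Gr f) {a : ℝ}
    (h : ∀ x ∈ D, k.L f x ≤ a * f x) {t : ℝ} (ht : 0 ≤ t) {x : S} (hx : x ∈ D) :
    k.sg t f x ≤ Real.exp (a * t) * f x := by
  refine k.sg_le_super hD hf (b := fun t x => Real.exp (a * t) * f x)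
    (b' := fun t x => Real.exp (a * t) * (a * f x)) ?_ ?_ ?_ ?_ ?_ x hx t ht
  · intro y _
    show f y ≤ Real.exp (a * 0) * f y
    rw [mul_zero, Real.exp_zero, one_mul]
  · intro y _
    exact Continuous.continuousOn (by fun_prop)
  · intro y _ u _
    exact A5b_exp_deriv a (f y) u
  · intro y hy u _
    show k.L (fun z => Real.exp (a * u) * f z) y ≤ Real.exp (a * u) * (a * f y)
    rw [A5b_L_smul]
    exact mul_le_mul_of_nonneg_left (h y hy) (Real.exp_pos _).le
  · exact TGr.mul k hf (a := fun t => Real.exp (a * t)) (Continuous.continuousOn (by fun_prop))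

end Ker

end RFT
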