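import Pool.Agent.H13.RF.A3
import Pool.Agent.H13.RF.A4

/-! Module A5a: comparison, sub- and supersolutions, uniqueness. -/

namespace RFT

namespace Ker

variable {S : Type} (k : Ker S)

/-- locally bounded in time with polynomial growth, on `D` -/
def TGr (D : Set S) (b : ℝ → S → ℝ) : Prop :=
  ∀ T : ℝ, 0 ≤ T → ∃ (C : ℝ) (p : ℕ), ∀ x ∈ D, ∀ t ∈ Set.Icc 0 T, |b t x| ≤ C * k.V p x

theorem A5a_L_sub (u v : S → ℝ) (x : S) : k.L (fun y => u y - v y) x = k.L u x - k.L v x := by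
  unfold Ker.L
  rw [k.P_sub]
  ring

theorem A5a_L_neg (u : S → ℝ) (x : S) : k.L (fun y => - u y) x = - k.L u x := by
  unfold Ker.L
  rw [k.P_neg]
  ring

theorem TGr.sg {f : S → ℝ} (hf : k.Gr f) (D : Set S) : k.TGr D (fun t => k.sg t f) := by
  obtain ⟨C, p, hC⟩ := hf
  intro T hT
  refine ⟨max C 0 * Real.exp (((k.c : ℝ) + 1 + p) * T), p, ?_⟩
  intro x _ t ht
  have hV := k.V_pos p
  have h1 : ∀ x, |f x| ≤ max C 0 * k.V p x := fun x =>
    (hC x).trans (mul_le_mul_of_nonneg_right (le_max_left _ _) (hV x).le)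
  refine (k.abs_sg_le h1 ht.1 x).trans ?_
  apply mul_le_mul_of_nonneg_right _ (hV x).le
  apply mul_le_mul_of_nonneg_left _ (le_max_right _ _)
  exact Real.exp_le_exp.2 (mul_le_mul_of_nonneg_left ht.2 (by positivity))

/-- A product of a function of time, bounded on compact intervals, and a function of polynomial growth. -/
theorem TGr.mul {D : Set S} {f : S → ℝ} (hf : k.Gr f) {a : ℝ → ℝ}
    (ha : ContinuousOn a (Set.Ici 0)) : k.TGr D (fun t x => a t * f x) := by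
  obtain ⟨C, p, hC⟩ := hf
  intro T _
  obtain ⟨M, hM⟩ := (isCompact_Icc (a := (0 : ℝ)) (b := T)).exists_bound_of_continuousOn
    (ha.mono Set.Icc_subset_Ici_self)
  refine ⟨max M 0 * max C 0, p, ?_⟩
  intro x _ t ht
  have hV := (k.V_pos p x).le
  have h1 : |a t| ≤ max M 0 := ((Real.norm_eq_abs _) ▸ (hM t ht)).trans (le_max_left _ _)
  have h2 : |f x| ≤ max C 0 * k.V p x :=
    (hC x).trans (mul_le_mul_of_nonneg_right (le_max_left _ _) hV)
  rw [abs_mul, mul_assoc]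
  exact mul_le_mul h1 h2 (abs_nonneg _) (le_max_right _ _)

theorem TGr.add {D : Set S} {a b : ℝ → S → ℝ} (ha : k.TGr D a) (hb : k.TGr D b) :
    k.TGr D (fun t x => a t x + b t x) := by
  intro T hT
  obtain ⟨C1, p1, h1⟩ := ha T hT
  obtain ⟨C2, p2, h2⟩ := hb T hT
  refine ⟨max C1 0 + max C2 0, max p1 p2, ?_⟩
  intro x hx t ht
  have hV1 := (k.V_pos p1 x).le
  have hV2 := (k.V_pos p2 x).le
  have e1 : |a t x| ≤ max C1 0 * k.V (max p1 p2) x :=
    (h1 x hx t ht).trans ((mul_le_mul_of_nonneg_right (le_max_left _ _) hV1).trans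
      (mul_le_mul_of_nonneg_left (k.V_mono (le_max_left p1 p2) x) (le_max_right _ _)))
  have e2 : |b t x| ≤ max C2 0 * k.V (max p1 p2) x :=
    (h2 x hx t ht).trans ((mul_le_mul_of_nonneg_right (le_max_left _ _) hV2).trans
      (mul_le_mul_of_nonneg_left (k.V_mono (le_max_right p1 p2) x) (le_max_right _ _)))
  calc |a t x + b t x| ≤ |a t x| + |b t x| := abs_add_le _ _
    _ ≤ (max C1 0 + max C2 0) * k.V (max p1 p2) x := by rw [add_mul]; exact add_le_add e1 e2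

theorem TGr.sub {D : Set S} {a b : ℝ → S → ℝ} (ha : k.TGr D a) (hb : k.TGr D b) :
    k.TGr D (fun t x => a t x - b t x) := by
  have hb' : k.TGr D (fun t x => - b t x) := by
    intro T hT
    obtain ⟨C, p, h⟩ := hb T hT
    exact ⟨C, p, fun x hx t ht => by rw [abs_neg]; exact h x hx t ht⟩
  have h := TGr.add k ha hb'
  simpa only [sub_eq_add_neg] using h

theorem TGr.of_abs_le {D : Set S} {a b : ℝ → S → ℝ} (hb : k.TGr D b)
    (h : ∀ t, 0 ≤ t → ∀ x ∈ D, |a t x| ≤ b t x) : k.TGr D a := by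
  intro T hT
  obtain ⟨C, p, hC⟩ := hb T hT
  exact ⟨C, p, fun x hx t ht => (h t ht.1 x hx).trans ((le_abs_self _).trans (hC x hx t ht))⟩

/-- Comparison on `[0, ∞)`. -/
theorem comparison' {D : Set S} (hD : k.Closed D) {w w' : ℝ → S → ℝ}
    (h0 : ∀ x ∈ D, 0 ≤ w 0 x)
    (hc : ∀ x ∈ D, ContinuousOn (fun t => w t x) (Set.Ici 0))
    (hd : ∀ x ∈ D, ∀ t, 0 < t → HasDerivAt (fun s => w s x) (w' t x) t)
    (hs : ∀ x ∈ D, ∀ t, 0 < t → k.L (w t) x ≤ w' t x)
    (hb : k.TGr D w) :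
    ∀ x ∈ D, ∀ t, 0 ≤ t → 0 ≤ w t x := by
  intro x hx t ht
  exact k.comparison hD (T := t) h0 (fun y hy => (hc y hy).mono Set.Icc_subset_Ici_self)
    (fun y hy u hu => hd y hy u hu.1) (fun y hy u hu => hs y hy u hu.1) (hb t ht) x hx t
    ⟨ht, le_refl t⟩

/-- subsolutions are below the semigroup -/
theorem sub_le_sg {D : Set S} (hD : k.Closed D) {f : S → ℝ} (hf : k.Gr f) {b b' : ℝ → S → ℝ}
    (h0 : ∀ x ∈ D, b 0 x ≤ f x)
    (hc : ∀ x ∈ D, ContinuousOn (fun t => b t x) (Set.Ici 0))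
    (hd : ∀ x ∈ D, ∀ t, 0 < t → HasDerivAt (fun s => b s x) (b' t x) t)
    (hs : ∀ x ∈ D, ∀ t, 0 < t → b' t x ≤ k.L (b t) x)
    (hb : k.TGr D b) :
    ∀ x ∈ D, ∀ t, 0 ≤ t → b t x ≤ k.sg t f x := by
  intro x hx t ht
  have h := k.comparison' hD (w := fun t x => k.sg t f x - b t x)
    (w' := fun t x => k.L (k.sg t f) x - b' t x)
    (fun y hy => by
      show 0 ≤ k.sg 0 f y - b 0 y
      rw [k.sg_zero]
      linarith [h0 y hy])
    (fun y hy => (k.continuousOn_sg hf y).sub (hc y hy))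
    (fun y hy u hu => (k.hasDerivAt_sg hf y hu).sub (hd y hy u hu))
    (fun y hy u hu => by
      show k.L (fun z => k.sg u f z - b u z) y ≤ k.L (k.sg u f) y - b' u y
      rw [k.A5a_L_sub]
      linarith [hs y hy u hu])
    (TGr.sub k (TGr.sg k hf D) hb) x hx t ht
  linarith

/-- supersolutions are above the semigroup -/
theorem sg_le_super {D : Set S} (hD : k.Closed D) {f : S → ℝ} (hf : k.Gr f) {b b' : ℝ → S → ℝ}
    (h0 : ∀ x ∈ D, f x ≤ b 0 x)
    (hc : ∀ x ∈ D, ContinuousOn (fun t => b t x) (Set.Ici 0))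
    (hd : ∀ x ∈ D, ∀ t, 0 < t → HasDerivAt (fun s => b s x) (b' t x) t)
    (hs : ∀ x ∈ D, ∀ t, 0 < t → k.L (b t) x ≤ b' t x)
    (hb : k.TGr D b) :
    ∀ x ∈ D, ∀ t, 0 ≤ t → k.sg t f x ≤ b t x := by
  intro x hx t ht
  have h := k.comparison' hD (w := fun t x => b t x - k.sg t f x)
    (w' := fun t x => b' t x - k.L (k.sg t f) x)
    (fun y hy => by
      show 0 ≤ b 0 y - k.sg 0 f y
      rw [k.sg_zero]
      linarith [h0 y hy])
    (fun y hy => (hc y hy).sub (k.continuousOn_sg hf y))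
    (fun y hy u hu => (hd y hy u hu).sub (k.hasDerivAt_sg hf y hu))
    (fun y hy u hu => by
      show k.L (fun z => b u z - k.sg u f z) y ≤ b' u y - k.L (k.sg u f) y
      rw [k.A5a_L_sub]
      linarith [hs y hy u hu])
    (TGr.sub k hb (TGr.sg k hf D)) x hx t ht
  linarith

/-- uniqueness -/
theorem eq_sg {D : Set S} (hD : k.Closed D) {f : S → ℝ} (hf : k.Gr f) {b : ℝ → S → ℝ}
    (h0 : ∀ x ∈ D, b 0 x = f x)
    (hc : ∀ x ∈ D, ContinuousOn (fun t => b t x) (Set.Ici 0))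
    (hd : ∀ x ∈ D, ∀ t, 0 < t → HasDerivAt (fun s => b s x) (k.L (b t) x) t)
    (hb : k.TGr D b) :
    ∀ x ∈ D, ∀ t, 0 ≤ t → b t x = k.sg t f x := by
  intro x hx t ht
  apply le_antisymm
  · exact k.sub_le_sg hD hf (b' := fun t x => k.L (b t) x) (fun y hy => (h0 y hy).le) hc hd
      (fun y hy u hu => le_refl _) hb x hx t ht
  · exact k.sg_le_super hD hf (b' := fun t x => k.L (b t) x) (fun y hy => (h0 y hy).ge) hc hd
      (fun y hy u hu => le_refl _) hb x hx t ht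

/-- the whole space is closed -/
theorem closed_univ : k.Closed Set.univ := by
  intro x _ u hu
  exact k.P_nonneg fun y _ => hu y (Set.mem_univ y)

end Ker

end RFT
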