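import Pool.Agent.H13.RF.Kernels

/-! Module B0: the generator of a half-tree. -/

namespace RFT

open Finset RT

/-- The generator of a half-tree which receives nothing from its parent (its own messages to the parent are lost). -/
noncomputable def RT.gen {α : Type} [Rule α] (F : RT α → ℝ) (B : RT α) : ℝ :=
  Q B F - ((B.size : ℝ) - B.upr) * F B

section map

variable {α β : Type}

@[simp] theorem nk_map (h : α → β) (B : RT α) : (map h B).nk = B.nk := by
  cases B; rfl

end map

end RFT
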