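import Pool.Agent.H13.RF.B0

/-! Module B1b: elementary lemmas on half-trees. -/

namespace RFT

open Finset RT

section elem

variable {α : Type}

theorem nl_le_nk (B : RT α) : B.nl ≤ B.nk := by
  cases B with
  | node a n K =>
    simp only [nl, nk_node]
    calc ∑ i : Fin n, (if (K i).nk = 0 then 1 else 0) ≤ ∑ _i : Fin n, 1 := by
          apply Finset.sum_le_sum
          intro i _
          split <;> simp
      _ = n := by simp

theorem asum_of_nk_zero (g : ℕ → ℕ → ℝ) {B : RT α} (h : B.nk = 0) : asum g B = 0 := by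
  cases B with
  | node a n K =>
    simp only [nk_node] at h
    simp [asum, h]

theorem asum_node (g : ℕ → ℕ → ℝ) (a : α) (n : ℕ) (K : Fin n → RT α) (h : n ≠ 0) :
    asum g (node a n K) = g (nl (node a n K)) (n + 1) + ∑ i, asum g (K i) := by
  simp only [asum, h, if_false]

theorem asum_mono {g h : ℕ → ℕ → ℝ} (hgh : ∀ l d, l + 1 ≤ d → 2 ≤ d → g l d ≤ h l d)
    (B : RT α) : asum g B ≤ asum h B := by
  induction B with
  | node a n K ih =>
    by_cases hn : n = 0
    · simp [asum, hn]
    · rw [asum_node g a n K hn, asum_node h a n K hn]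
      have h1 := nl_le_nk (node a n K)
      rw [nk_node] at h1
      exact add_le_add (hgh _ _ (by omega) (by omega)) (Finset.sum_le_sum fun i _ => ih i)

theorem asum_add_fun (g h : ℕ → ℕ → ℝ) (B : RT α) :
    asum (fun l d => g l d + h l d) B = asum g B + asum h B := by
  induction B with
  | node a n K ih =>
    by_cases hn : n = 0
    · simp [asum, hn]
    · rw [asum_node _ a n K hn, asum_node g a n K hn, asum_node h a n K hn,
        Finset.sum_congr rfl (fun i _ => ih i), Finset.sum_add_distrib]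
      ring

theorem asum_smul (r : ℝ) (g : ℕ → ℕ → ℝ) (B : RT α) :
    asum (fun l d => r * g l d) B = r * asum g B := by
  induction B with
  | node a n K ih =>
    by_cases hn : n = 0
    · simp [asum, hn]
    · rw [asum_node _ a n K hn, asum_node g a n K hn,
        Finset.sum_congr rfl (fun i _ => ih i), ← Finset.mul_sum]
      ring

theorem pop_nonneg (B : RT α) : 0 ≤ pop B := by
  unfold pop
  induction B with
  | node a n K ih =>
    by_cases hn : n = 0
    · simp [asum, hn]
    · rw [asum_node _ a n K hn]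
      have := Finset.sum_nonneg (fun i (_ : i ∈ Finset.univ) => ih i)
      linarith

theorem one_le_pop {B : RT α} (h : B.nk ≠ 0) : 1 ≤ pop B := by
  cases B with
  | node a n K =>
    rw [nk_node] at h
    unfold pop
    rw [asum_node _ a n K h]
    have := Finset.sum_nonneg (fun i (_ : i ∈ Finset.univ) => pop_nonneg (K i))
    unfold pop at this
    linarith

theorem pop_le_size (B : RT α) : pop B ≤ B.size := by
  unfold pop
  induction B with
  | node a n K ih =>
    by_cases hn : n = 0
    · simp only [asum, hn, if_true]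
      positivity
    · rw [asum_node _ a n K hn, size_node]
      push_cast
      have := Finset.sum_le_sum (fun i (_ : i ∈ Finset.univ) => ih i)
      linarith

theorem abs_asum_le {g : ℕ → ℕ → ℝ} {M : ℝ} (h : ∀ l d, l + 1 ≤ d → |g l d| ≤ M) (B : RT α) :
    |asum g B| ≤ M * pop B := by
  unfold pop
  induction B with
  | node a n K ih =>
    by_cases hn : n = 0
    · simp [asum, hn]
    · rw [asum_node _ a n K hn, asum_node _ a n K hn]
      have h1 := nl_le_nk (node a n K)
      rw [nk_node] at h1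
      have h2 := h (nl (node a n K)) (n + 1) (by omega)
      have h3 : |∑ i, asum g (K i)| ≤ ∑ i, M * asum (fun _ _ => 1) (K i) :=
        (Finset.abs_sum_le_sum_abs _ _).trans (Finset.sum_le_sum fun i _ => ih i)
      rw [← Finset.mul_sum] at h3
      calc |g (nl (node a n K)) (n + 1) + ∑ i, asum g (K i)|
          ≤ |g (nl (node a n K)) (n + 1)| + |∑ i, asum g (K i)| := abs_add_le _ _
        _ ≤ M + M * ∑ i, asum (fun _ _ => 1) (K i) := add_le_add h2 h3
        _ = _ := by ring

variable [Rule α]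

theorem nl_add (B : RT α) : (add B).nl = B.nl + 1 := by
  cases B with
  | node a n K =>
    simp only [add, nl]
    rw [Fin.sum_univ_castSucc]
    simp

theorem nl_msg (B : RT α) : (msg B).nl = B.nl + 1 := by
  cases B with
  | node a n K =>
    simp only [msg, nl]
    rw [Fin.sum_univ_castSucc]
    simp

@[simp] theorem nl_fresh : (fresh : RT α).nl = 1 := by
  unfold fresh
  rw [nl_msg]
  simp [leaf, nl]

theorem asum_add (g : ℕ → ℕ → ℝ) {B : RT α} (h : B.nk ≠ 0) :
    asum g (add B) = asum g B + (g (B.nl + 1) (B.nk + 2) - g B.nl (B.nk + 1)) := by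
  have h1 := nl_add B
  cases B with
  | node a n K =>
    rw [nk_node] at h ⊢
    simp only [add] at h1 ⊢
    rw [asum_node _ _ _ _ (Nat.succ_ne_zero n), h1, asum_node _ _ _ _ h, Fin.sum_univ_castSucc]
    simp only [Fin.snoc_castSucc, Fin.snoc_last]
    rw [asum_of_nk_zero g nk_leaf]
    ring

theorem asum_msg (g : ℕ → ℕ → ℝ) {B : RT α} (h : B.nk ≠ 0) :
    asum g (msg B) = asum g B + (g (B.nl + 1) (B.nk + 2) - g B.nl (B.nk + 1)) := by
  have h1 := nl_msg B
  cases B with
  | node a n K =>
    rw [nk_node] at h ⊢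
    simp only [msg] at h1 ⊢
    rw [asum_node _ _ _ _ (Nat.succ_ne_zero n), h1, asum_node _ _ _ _ h, Fin.sum_univ_castSucc]
    simp only [Fin.snoc_castSucc, Fin.snoc_last]
    rw [asum_of_nk_zero g nk_leaf]
    ring

theorem asum_fresh (g : ℕ → ℕ → ℝ) : asum g (fresh : RT α) = g 1 2 := by
  have h1 : (fresh : RT α).nl = 1 := nl_fresh
  unfold fresh leaf at h1 ⊢
  simp only [msg] at h1 ⊢
  rw [asum_node _ _ _ _ (Nat.succ_ne_zero 0), h1, Fin.sum_univ_castSucc]
  simp only [Fin.snoc_last, Finset.univ_eq_empty, Finset.sum_empty, zero_add]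
  rw [asum_of_nk_zero g nk_leaf, add_zero]

private theorem B1b_Q_mono {B : RT α} {u v : RT α → ℝ} (h : ∀ c, u c ≤ v c) : Q B u ≤ Q B v := by
  obtain ⟨l, hl, hu⟩ := Q_rep B
  have h1 : Q B u = (l.map (fun p => p.1 * u p.2)).sum := hu u
  have h2 : Q B v = (l.map (fun p => p.1 * v p.2)).sum := hu v
  rw [h1, h2]
  apply List.sum_le_sum
  intro p hp
  exact mul_le_mul_of_nonneg_left (h _) (hl p hp).1

theorem Q_mono_nk {B : RT α} {u v : RT α → ℝ} (h : ∀ c, B.nk ≤ c.nk → u c ≤ v c) :
    Q B u ≤ Q B v := by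
  cases B with
  | node a n K =>
    rw [nk_node] at h
    simp only [Q]
    apply Finset.sum_le_sum
    intro i _
    refine add_le_add (add_le_add ?_ ?_) ?_
    · exact mul_le_mul_of_nonneg_left (h _ (by simp [rep])) (by positivity)
    · exact B1b_Q_mono fun c => h _ (by simp [rep])
    · exact mul_le_mul_of_nonneg_left (h _ (by simp)) (upr_nonneg _)

/-- the non-leaf half-trees are closed under the dynamics with any environment -/
theorem closed_nk {E : Type} (𝓔 : Env E) :
    (𝓔.ker α).Closed {x | x.1.nk ≠ 0} := by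
  rintro ⟨B, e⟩ hB u hu
  have hB' : B.nk ≠ 0 := hB
  have hu' : ∀ (c : RT α) (e' : E), c.nk ≠ 0 → 0 ≤ u (c, e') := fun c e' hc => hu (c, e') hc
  have h1 : 0 ≤ Q B (fun c => u (c, e)) := by
    have h0 : Q B (fun _ => (0 : ℝ)) ≤ Q B (fun c => u (c, e)) :=
      Q_mono_nk fun c hc => hu' c e (by omega)
    have h00 : Q B (fun _ => (0 : ℝ)) = 0 := by
      obtain ⟨l, _, hl⟩ := Q_rep B
      have := hl (fun _ => (0 : ℝ))
      simpa using this
    rw [h00] at h0
    exact h0
  have h2 : 0 ≤ 𝓔.P (fun e' => u (B, e')) e := by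
    obtain ⟨l, hl, hl'⟩ := 𝓔.rep e
    rw [hl']
    apply List.sum_nonneg
    intro z hz
    obtain ⟨p, hp, rfl⟩ := List.mem_map.1 hz
    exact mul_nonneg (hl p hp).1 (hu' _ _ hB')
  have h3 : 0 ≤ upr B * u (B, 𝓔.rcv e) := mul_nonneg (upr_nonneg _) (hu' _ _ hB')
  have h4 : 0 ≤ 𝓔.snd e * u (msg B, e) :=
    mul_nonneg (𝓔.snd_nonneg _) (hu' _ _ (by simp))
  show 0 ≤ 𝓔.pairP u (B, e)
  unfold Env.pairP
  positivity

/-- transitions inside a half-tree do not decrease the number of kids of the root -/
theorem Q_congr_nk {B : RT α} {u v : RT α → ℝ} (h : ∀ c, B.nk ≤ c.nk → u c = v c) :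
    Q B u = Q B v :=
  le_antisymm (Q_mono_nk fun c hc => (h c hc).le) (Q_mono_nk fun c hc => (h c hc).ge)

theorem Q_nk_zero {B : RT α} (h : B.nk = 0) (u : RT α → ℝ) : Q B u = 0 := by
  cases B with
  | node a n K =>
    rw [nk_node] at h
    subst h
    simp [Q]

end elem

end RFT
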