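import Pool.Agent.H13.RF.B0

/-! Module B1a: relabelling. -/

namespace RFT

open Finset RT

section map

variable {α β : Type}

@[simp] theorem nk_fg (B : RT α) : (fg B).nk = B.nk := nk_map _ B

@[simp] theorem size_map (h : α → β) (B : RT α) : (map h B).size = B.size := by
  induction B with
  | node a n K ih =>
    simp only [RT.map, size]
    rw [Finset.sum_congr rfl (fun i _ => ih i)]

@[simp] theorem size_fg (B : RT α) : (fg B).size = B.size := size_map _ B

@[simp] theorem upr_fg (B : RT α) : (fg B).upr = B.upr := by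
  unfold upr
  rw [nk_fg]

@[simp] theorem nl_map (h : α → β) (B : RT α) : (map h B).nl = B.nl := by
  cases B with
  | node a n K => simp only [RT.map, nl, nk_map]

@[simp] theorem nl_fg (B : RT α) : (fg B).nl = B.nl := nl_map _ B

@[simp] theorem asum_map (g : ℕ → ℕ → ℝ) (h : α → β) (B : RT α) :
    asum g (map h B) = asum g B := by
  induction B with
  | node a n K ih =>
    have e : (node (h a) n (fun i => map h (K i))).nl = (node a n K).nl := nl_map h (node a n K)
    simp only [RT.map, asum]
    rw [Finset.sum_congr rfl (fun i _ => ih i), e]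

@[simp] theorem asum_fg (g : ℕ → ℕ → ℝ) (B : RT α) : asum g (fg B) = asum g B := asum_map g _ B

@[simp] theorem fg_unit (B : RT Unit) : fg B = B := by
  induction B with
  | node a n K ih =>
    show node () n (fun i => fg (K i)) = node a n K
    rw [funext ih]

@[simp] theorem fg_lift (b : α) (B : RT Unit) : fg (lift b B) = B := by
  induction B with
  | node a n K ih =>
    show node () n (fun i => fg (lift b (K i))) = node a n K
    rw [funext ih]

theorem B1a_fg_node (a : α) (n : ℕ) (K : Fin n → RT α) :
    fg (node a n K) = node () n (fun i => fg (K i)) := rfl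

variable [Rule α]

@[simp] theorem fg_leaf : fg (leaf : RT α) = leaf := by
  show node () 0 (fun i => fg (Fin.elim0 (α := RT α) i)) = node () 0 Fin.elim0
  congr 1
  funext i
  exact i.elim0

theorem B1a_fg_snoc (n : ℕ) (K : Fin n → RT α) :
    (fun i => fg ((Fin.snoc (α := fun _ => RT α) K leaf : Fin (n + 1) → RT α) i)) =
      Fin.snoc (α := fun _ => RT Unit) (fun i => fg (K i)) leaf := by
  funext i
  refine Fin.lastCases ?_ (fun j => ?_) i
  · simp
  · simp

@[simp] theorem fg_add (B : RT α) : fg (add B) = add (fg B) := by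
  cases B with
  | node a n K =>
    show node () (n + 1) (fun i => fg ((Fin.snoc (α := fun _ => RT α) K leaf : Fin (n + 1) → RT α) i)) =
      node () (n + 1) (Fin.snoc (α := fun _ => RT Unit) (fun i => fg (K i)) leaf)
    rw [B1a_fg_snoc]

@[simp] theorem fg_msg (B : RT α) : fg (msg B) = msg (fg B) := by
  cases B with
  | node a n K =>
    show node () (n + 1) (fun i => fg ((Fin.snoc (α := fun _ => RT α) K leaf : Fin (n + 1) → RT α) i)) =
      node () (n + 1) (Fin.snoc (α := fun _ => RT Unit) (fun i => fg (K i)) leaf)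
    rw [B1a_fg_snoc]

omit [Rule α] in
theorem B1a_fg_rep (n : ℕ) (a : α) (K : Fin n → RT α) (i : Fin n) (c : RT α) :
    fg (rep n a K i c) = rep n () (fun j => fg (K j)) i (fg c) := by
  show node () n (fun j => fg (Function.update K i c j)) =
    node () n (Function.update (fun j => fg (K j)) i (fg c))
  congr 1
  funext j
  by_cases hj : j = i
  · subst hj; simp
  · simp [Function.update_of_ne hj]

/-- forgetting the labels commutes with the dynamics (induction on `B`; `map` commutes with `Function.update` and
`Fin.snoc`) -/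
theorem Q_fg (B : RT α) (u : RT Unit → ℝ) : Q (fg B) u = Q B (fun c => u (fg c)) := by
  induction B generalizing u with
  | node a n K ih =>
    rw [B1a_fg_node]
    simp only [Q]
    apply Finset.sum_congr rfl
    intro i _
    rw [ih i, fg_add, B1a_fg_node, B1a_fg_rep, fg_msg, upr_fg]
    simp only [B1a_fg_rep]

theorem pairP_fg {E : Type} (𝓔 : Env E) (u : RT Unit × E → ℝ) (x : RT α × E) :
    𝓔.pairP u (fg x.1, x.2) = 𝓔.pairP (fun y : RT α × E => u (fg y.1, y.2)) x := by
  unfold Env.pairP
  simp only [Q_fg, upr_fg, fg_msg]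

theorem gen_fg (F : RT Unit → ℝ) (B : RT α) :
    gen (fun c : RT α => F (fg c)) B = gen F (fg B) := by
  unfold gen
  rw [Q_fg, size_fg, upr_fg]

end map

/-- The generator of (half-tree, environment) applied to a function of the half-tree. -/
theorem pairL_fst {E α : Type} [Rule α] (𝓔 : Env E) (F : RT α → ℝ) (x : RT α × E) :
    (𝓔.ker α).L (fun y => F y.1) x = gen F x.1 + 𝓔.snd x.2 * (F (msg x.1) - F x.1) := by
  have h1 := 𝓔.tot x.2
  have h2 : 𝓔.P (fun _ => F x.1) x.2 = F x.1 * 𝓔.P (fun _ => 1) x.2 := by
    obtain ⟨l, _, h⟩ := 𝓔.rep x.2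
    rw [h, h, ← List.sum_map_mul_left]
    congr 1
    apply List.map_congr_left
    intro p _
    ring
  have h3 : 𝓔.P (fun _ => 1) x.2 = 𝓔.lev x.2 - 𝓔.snd x.2 := by linarith
  show 𝓔.pairP (fun y => F y.1) x - ((x.1.size + 𝓔.lev x.2 : ℕ) : ℝ) * F x.1 = _
  unfold Env.pairP gen
  simp only
  rw [h2, h3]
  push_cast
  ring

end RFT
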