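import Pool.Agent.H13.RF.B1

/-! Module B2: the generator on functions of the form `G l d + ∑ H l (kid)`. -/

namespace RFT

open Finset RT

theorem B2_nk_rep {α : Type} (n : ℕ) (a : α) (K : Fin n → RT α) (i : Fin n) (c : RT α) :
    (rep n a K i c).nk = n := rfl

theorem B2_lab_rep {α : Type} (n : ℕ) (a : α) (K : Fin n → RT α) (i : Fin n) (c : RT α) :
    (rep n a K i c).lab = a := rfl

/-- transitions inside a half-tree keep the label of the root and do not decrease the number of its kids -/
theorem Q_congr_lab {α : Type} [Rule α] {B : RT α} {u v : RT α → ℝ}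
    (h : ∀ c, B.nk ≤ c.nk → c.lab = B.lab → u c = v c) : Q B u = Q B v := by
  cases B with
  | node a n K =>
    simp only [Q]
    apply Finset.sum_congr rfl
    intro i _
    have h1 : ∀ c, u (rep n a K i c) = v (rep n a K i c) := fun c => h _ le_rfl rfl
    have h2 : u (add (node a n K)) = v (add (node a n K)) := h _ (by simp) rfl
    have h3 : (fun c => u (rep n a K i c)) = (fun c => v (rep n a K i c)) := funext h1
    rw [h1, h2, h3]

theorem B2_sum_update {α β : Type} [AddCommMonoid β] (n : ℕ) (K : Fin n → α) (i : Fin n) (c : α)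
    (f : α → β) :
    (∑ j, f (Function.update K i c j)) + f (K i) = (∑ j, f (K j)) + f c := by
  have h1 : ∀ j, f (Function.update K i c j) = Function.update (fun j => f (K j)) i (f c) j := by
    intro j
    by_cases hj : j = i
    · subst hj; simp
    · simp [Function.update_of_ne hj]
  rw [Finset.sum_congr rfl (fun j _ => h1 j), Finset.sum_update_of_mem (Finset.mem_univ i),
    Finset.sdiff_singleton_eq_erase, ← Finset.add_sum_erase _ (fun j => f (K j)) (Finset.mem_univ i)]
  abel

/-- `nl` after replacing the `i`-th kid -/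
theorem nl_rep {α : Type} (n : ℕ) (a : α) (K : Fin n → RT α) (i : Fin n) (c : RT α) :
    (rep n a K i c).nl + (if (K i).nk = 0 then 1 else 0) =
      (node a n K).nl + (if c.nk = 0 then 1 else 0) := by
  unfold rep
  simp only [nl]
  exact B2_sum_update n K i c (fun x => if x.nk = 0 then 1 else 0)

theorem sum_rep {α : Type} (n : ℕ) (K : Fin n → RT α) (i : Fin n) (c : RT α) (H : RT α → ℝ) :
    ∑ j, H (Function.update K i c j) = ∑ j, H (K j) - H (K i) + H c := by
  have := B2_sum_update n K i c H
  linarith

/-- `Q` is linear -/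
theorem B2_Q_lin {α : Type} [Rule α] (B : RT α) (r : ℝ) (u : RT α → ℝ) :
    Q B (fun c => r + u c) = r * ((B.size : ℝ) - B.upr) + Q B u := by
  have h1 := Q_one B
  obtain ⟨l, _, h⟩ := Q_rep B
  have e1 : Q B (fun c => r + u c) = (l.map (fun p => p.1 * (r + u p.2))).sum := h _
  have e2 : Q B u = (l.map (fun p => p.1 * u p.2)).sum := h _
  have e3 : Q B (fun _ => 1) = (l.map (fun p => p.1 * (1 : ℝ))).sum := h _
  rw [e1, e2, ← h1, e3, ← List.sum_map_mul_left, ← List.sum_map_add]
  congr 1
  apply List.map_congr_left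
  intro p _
  ring

/-- The generator formula.  Write `Q` of the node as a sum over the kids and subtract
`size - upr = ∑ (1/(n+1) + (size (K i) - upr (K i)) + upr (K i))` (`Q_one`); for a leaf kid `Q (K i) _ = 0`,
`size = upr = 1`, and `msg (K i)` is a non-leaf, so `nl` drops by one; for a non-leaf kid `nl` is unchanged by the
inner transitions (`Q_congr_nk`). -/
theorem gen_node {α : Type} [Rule α] (G : ℕ → ℕ → ℝ) (H : ℕ → RT α → ℝ)
    (hH : ∀ l c, c.nk = 0 → H l c = 0) (F : RT α → ℝ)
    (hF : ∀ a n K, F (node a n K) = G (nl (node a n K)) (n + 1) + ∑ i, H (nl (node a n K)) (K i))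
    (a : α) (n : ℕ) (K : Fin n → RT α) (l : ℕ) (hl : l = nl (node a n K)) :
    gen F (node a n K) = ∑ i, (if (K i).nk = 0 then
        1 / ((n : ℝ) + 1) * (G (l - 1) (n + 1) - G l (n + 1) +
          ∑ j, (H (l - 1) (K j) - H l (K j)) + H (l - 1) (msg (K i))) +
        (G (l + 1) (n + 2) - G l (n + 1) + ∑ j, (H (l + 1) (K j) - H l (K j)))
      else
        1 / ((n : ℝ) + 1) * (H l (msg (K i)) - H l (K i)) + gen (H l) (K i) +
        upr (K i) * (G (l + 1) (n + 2) - G l (n + 1) + ∑ j, (H (l + 1) (K j) - H l (K j)))) := by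
  have hsize : (((node a n K).size : ℝ) - (node a n K).upr) * F (node a n K) =
      ∑ i, (1 / ((n : ℝ) + 1) * F (node a n K) +
        (((K i).size : ℝ) - upr (K i)) * F (node a n K) + upr (K i) * F (node a n K)) := by
    have e : ∀ i, (1 / ((n : ℝ) + 1) * F (node a n K) +
        (((K i).size : ℝ) - upr (K i)) * F (node a n K) + upr (K i) * F (node a n K)) =
        (1 / ((n : ℝ) + 1) + ((K i).size : ℝ)) * F (node a n K) := by
      intro i; ring
    rw [Finset.sum_congr rfl (fun i _ => e i), ← Finset.sum_mul, Finset.sum_add_distrib]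
    congr 1
    simp only [upr, nk_node, size]
    push_cast
    simp
    field_simp
    ring
  have hadd : F (add (node a n K)) = G (l + 1) (n + 2) + ∑ j, H (l + 1) (K j) := by
    have h1 : nl (add (node a n K)) = l + 1 := by rw [nl_add, hl]
    have h2 : F (add (node a n K)) = G (nl (add (node a n K))) (n + 1 + 1) +
        ∑ i, H (nl (add (node a n K))) ((Fin.snoc (α := fun _ => RT α) K leaf : Fin (n + 1) → RT α) i) := hF _ _ _
    rw [h2, h1, Fin.sum_univ_castSucc]
    simp only [Fin.snoc_castSucc, Fin.snoc_last]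
    rw [hH (l + 1) leaf rfl, add_zero]
  have hnode : F (node a n K) = G l (n + 1) + ∑ j, H l (K j) := by
    rw [hF, ← hl]
  unfold gen
  rw [hsize]
  simp only [Q]
  rw [← Finset.sum_sub_distrib]
  apply Finset.sum_congr rfl
  intro i _
  have hrep : ∀ c, F (rep n a K i c) = G (nl (rep n a K i c)) (n + 1) +
      (∑ j, H (nl (rep n a K i c)) (K j) - H (nl (rep n a K i c)) (K i) + H (nl (rep n a K i c)) c) := by
    intro c
    have : F (rep n a K i c) = G (nl (rep n a K i c)) (n + 1) +
      ∑ j, H (nl (rep n a K i c)) (Function.update K i c j) := hF _ _ _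
    rw [this, sum_rep]
  by_cases h0 : (K i).nk = 0
  · rw [if_pos h0]
    have hQ : Q (K i) (fun c => F (rep n a K i c)) = 0 := Q_nk_zero h0 _
    have hsz : ((K i).size : ℝ) = 1 := by rw [size_eq_one_of_nk h0]; simp
    have hup : upr (K i) = 1 := by simp [upr, h0]
    have hnl := nl_rep n a K i (msg (K i))
    rw [if_pos h0, if_neg (by simp), ← hl] at hnl
    have hnl' : (rep n a K i (msg (K i))).nl = l - 1 := by omega
    rw [hQ, hsz, hup, hadd, hrep, hnl', hnode, hH (l - 1) _ h0, Finset.sum_sub_distrib,
      Finset.sum_sub_distrib]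
    ring
  · rw [if_neg h0]
    have hnl : ∀ c : RT α, c.nk ≠ 0 → (rep n a K i c).nl = l := by
      intro c hc
      have := nl_rep n a K i c
      rw [if_neg h0, if_neg hc, ← hl] at this
      simpa using this
    have hQ : Q (K i) (fun c => F (rep n a K i c)) =
        (G l (n + 1) + (∑ j, H l (K j) - H l (K i))) * (((K i).size : ℝ) - (K i).upr) +
          Q (K i) (H l) := by
      rw [← B2_Q_lin]
      apply Q_congr_nk
      intro c hc
      rw [hrep, hnl c (by omega)]
      ring
    rw [hQ, hadd, hrep, hnl _ (by simp), hnode, Finset.sum_sub_distrib]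
    ring

end RFT
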