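import Pool.Agent.H13.RF.B2

/-! Module B3b: other properties of the flagged functional. -/

namespace RFT

open Finset RT

theorem B3b_fl_node (G : ℕ → ℕ → ℝ) (a b : ℕ → ℝ) (g : RT Unit → ℝ) (c : Bool) (n : ℕ)
    (K : Fin n → RT Bool) :
    fl G a b g (node c n K) = G (nl (node c n K)) (n + 1) + ∑ i, if (K i).nk = 0 then 0 else
      if (K i).lab = true then fl G a b g (K i) else
        a (nl (node c n K)) * g (fg (K i)) + b (nl (node c n K)) * fl G a b g (K i) :=
  rfl

theorem B3b_nl_node {α : Type} (c : α) (n : ℕ) (K : Fin n → RT α) :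
    nl (node c n K) = ∑ i, if (K i).nk = 0 then 1 else 0 := rfl

/-- a message to a non-leaf root: `nl` and `nk` go up by one -/
theorem fl_msg (G : ℕ → ℕ → ℝ) (a b : ℕ → ℝ) (g : RT Unit → ℝ) (c : Bool) (n : ℕ)
    (K : Fin n → RT Bool) (l : ℕ) (hl : l = nl (node c n K)) :
    fl G a b g (msg (node c n K)) = fl G a b g (node c n K) +
      (G (l + 1) (n + 2) - G l (n + 1)) +
      ∑ i, (if (K i).nk = 0 then 0 else if (K i).lab = true then 0 else
        (a (l + 1) - a l) * g (fg (K i)) + (b (l + 1) - b l) * fl G a b g (K i)) := by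
  have h1 : nl (msg (node c n K)) = l + 1 := by rw [nl_msg, hl]
  have h2 : msg (node c n K) = node (Rule.up (decide (n ≠ 0)) c) (n + 1)
      (Fin.snoc (α := fun _ => RT Bool) K leaf) := rfl
  rw [h2] at h1 ⊢
  rw [B3b_fl_node, h1, B3b_fl_node, ← hl, Fin.sum_univ_castSucc]
  simp only [Fin.snoc_castSucc, Fin.snoc_last, nk_leaf, if_true, add_zero]
  have h3 : ∀ i, (if (K i).nk = 0 then (0 : ℝ) else if (K i).lab = true then fl G a b g (K i) else
        a (l + 1) * g (fg (K i)) + b (l + 1) * fl G a b g (K i)) =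
      (if (K i).nk = 0 then (0 : ℝ) else if (K i).lab = true then fl G a b g (K i) else
        a l * g (fg (K i)) + b l * fl G a b g (K i)) +
      (if (K i).nk = 0 then 0 else if (K i).lab = true then 0 else
        (a (l + 1) - a l) * g (fg (K i)) + (b (l + 1) - b l) * fl G a b g (K i)) := by
    intro i
    split_ifs <;> ring
  rw [Finset.sum_congr rfl fun i _ => h3 i, Finset.sum_add_distrib]
  have h4 : n + 1 + 1 = n + 2 := rfl
  rw [h4]
  ring

/-- differentiation in time -/
theorem fl_hasDerivAt {G : ℝ → ℕ → ℕ → ℝ} {G' : ℕ → ℕ → ℝ} {a b : ℕ → ℝ}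
    {g : ℝ → RT Unit → ℝ} {g' : RT Unit → ℝ} {t : ℝ}
    (hG : ∀ l d, HasDerivAt (fun s => G s l d) (G' l d) t)
    (hg : ∀ B, HasDerivAt (fun s => g s B) (g' B) t) (B : RT Bool) :
    HasDerivAt (fun s => fl (G s) a b (g s) B) (fl G' a b g' B) t := by
  induction B with
  | node c n K ih =>
    simp only [B3b_fl_node]
    refine (hG _ _).add (HasDerivAt.fun_sum fun i _ => ?_)
    split_ifs
    · exact hasDerivAt_const t 0
    · exact ih i
    · exact ((hg _).const_mul _).add ((ih i).const_mul _)

theorem fl_continuousOn {G : ℝ → ℕ → ℕ → ℝ} {a b : ℕ → ℝ}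
    {g : ℝ → RT Unit → ℝ} {s : Set ℝ}
    (hG : ∀ l d, ContinuousOn (fun t => G t l d) s)
    (hg : ∀ B, ContinuousOn (fun t => g t B) s) (B : RT Bool) :
    ContinuousOn (fun t => fl (G t) a b (g t) B) s := by
  induction B with
  | node c n K ih =>
    simp only [B3b_fl_node]
    refine (hG _ _).add (continuousOn_finset_sum _ fun i _ => ?_)
    split_ifs
    · exact continuousOn_const
    · exact ih i
    · exact (continuousOn_const.mul (hg _)).add (continuousOn_const.mul (ih i))

/-- with all flags up, the flagged functional is a plain sum over the vertices -/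
theorem fl_lift_true (G : ℕ → ℕ → ℝ) (a b : ℕ → ℝ) (g : RT Unit → ℝ) (B : RT Unit)
    (h : B.nk ≠ 0) : fl G a b g (lift true B) = asum G B := by
  induction B with
  | node c n K ih =>
    have h1 : (lift true (node c n K) : RT Bool) = node true n (fun i => lift true (K i)) := rfl
    have h2 : nl (node true n (fun i => (lift true (K i) : RT Bool))) = nl (node c n K) := by
      rw [← h1]
      exact nl_map _ _
    have h3 : ∀ i, ((lift true (K i) : RT Bool)).nk = (K i).nk := fun i => nk_map _ _
    have h4 : ∀ i, ((lift true (K i) : RT Bool)).lab = true := by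
      intro i
      cases K i
      rfl
    rw [h1, B3b_fl_node, h2, asum_node G c n K h]
    congr 1
    refine Finset.sum_congr rfl fun i _ => ?_
    rw [h3 i, h4 i]
    by_cases hi : (K i).nk = 0
    · rw [if_pos hi, asum_of_nk_zero G hi]
    · rw [if_neg hi, if_pos rfl, ih i hi]

theorem fl_nonneg {G : ℕ → ℕ → ℝ} {a b : ℕ → ℝ} {g : RT Unit → ℝ} (hG : ∀ l d, l + 1 ≤ d → 0 ≤ G l d)
    (ha : ∀ l, 0 ≤ a l) (hb : ∀ l, 0 ≤ b l) (hg : ∀ B, 0 ≤ g B) (B : RT Bool) :
    0 ≤ fl G a b g B := by
  induction B with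
  | node c n K ih =>
    rw [B3b_fl_node]
    refine add_nonneg (hG _ _ ?_) (Finset.sum_nonneg fun i _ => ?_)
    · have := nl_le_nk (node c n K)
      rw [nk_node] at this
      omega
    · split_ifs
      · exact le_refl _
      · exact ih i
      · exact add_nonneg (mul_nonneg (ha _) (hg _)) (mul_nonneg (hb _) (ih i))

end RFT
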