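import Pool.Agent.H13.RF.B2

/-! Module B3a: the generator on the flagged functional. -/

namespace RFT

open Finset RT

theorem fl_node (G : ℕ → ℕ → ℝ) (a b : ℕ → ℝ) (g : RT Unit → ℝ) (c : Bool) (n : ℕ)
    (K : Fin n → RT Bool) :
    fl G a b g (node c n K) = G (nl (node c n K)) (n + 1) + ∑ i, if (K i).nk = 0 then 0 else
      if (K i).lab = true then fl G a b g (K i) else
        a (nl (node c n K)) * g (fg (K i)) + b (nl (node c n K)) * fl G a b g (K i) :=
  rfl

theorem B3a_nl_node {α : Type} (c : α) (n : ℕ) (K : Fin n → RT α) :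
    nl (node c n K) = ∑ i, if (K i).nk = 0 then 1 else 0 := rfl

/-- the functional on a new non-leaf -/
theorem B3a_fl_msg_leaf (G : ℕ → ℕ → ℝ) (a b : ℕ → ℝ) (g : RT Unit → ℝ) {B : RT Bool}
    (hB : B.nk = 0) : fl G a b g (msg B) = G 1 2 := by
  cases B with
  | node c n K =>
    rw [nk_node] at hB
    subst hB
    have h2 : msg (node c 0 K) = node (Rule.up (decide ((0 : ℕ) ≠ 0)) c) (0 + 1)
      (Fin.snoc (α := fun _ => RT Bool) K leaf) := rfl
    have h1 : nl (msg (node c 0 K)) = 1 := by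
      rw [nl_msg, B3a_nl_node]
      simp
    rw [h2] at h1 ⊢
    rw [fl_node, h1, Fin.sum_univ_castSucc]
    simp only [Fin.snoc_last, nk_leaf, if_true, Finset.univ_eq_empty, Finset.sum_empty, add_zero]

theorem fl_fresh (G : ℕ → ℕ → ℝ) (a b : ℕ → ℝ) (g : RT Unit → ℝ) :
    fl G a b g fresh = G 1 2 :=
  B3a_fl_msg_leaf G a b g rfl

/-- linearity of `Q` -/
theorem B3a_Q_lin {α : Type} [Rule α] (B : RT α) (r s : ℝ) (u v : RT α → ℝ) :
    Q B (fun c => r * u c + s * v c) = r * Q B u + s * Q B v := by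
  obtain ⟨l, hl, h⟩ := Q_rep B
  have h1 : ∀ w : RT α → ℝ, Q B w = (l.map (fun p => p.1 * w p.2)).sum := h
  rw [h1, h1, h1]
  clear h h1 hl
  induction l with
  | nil => simp
  | cons p l ih =>
    simp only [List.map_cons, List.sum_cons]
    rw [ih]
    ring

/-- a plain half-tree without kids is the leaf -/
theorem B3a_eq_leaf {B : RT Unit} (h : B.nk = 0) : B = leaf := by
  cases B with
  | node c n K =>
    rw [nk_node] at h
    subst h
    unfold leaf
    congr 1
    exact funext fun i => i.elim0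

/-- the sum of the message rates of the non-leaf kids -/
noncomputable def kin {α : Type} : RT α → ℝ
  | .node _ _ K => ∑ i, if (K i).nk = 0 then 0 else upr (K i)

theorem kin_nonneg {α : Type} (B : RT α) : 0 ≤ kin B := by
  cases B with
  | node c n K =>
    refine Finset.sum_nonneg fun i _ => ?_
    split_ifs
    · exact le_refl _
    · exact upr_nonneg _

theorem B3a_kin_node {α : Type} (c : α) (n : ℕ) (K : Fin n → RT α) :
    kin (node c n K) = ∑ i, if (K i).nk = 0 then 0 else upr (K i) := rfl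

/-- value of a kid of a vertex with `l` leaf kids -/
noncomputable def B3a_H (G : ℕ → ℕ → ℝ) (a b : ℕ → ℝ) (g : RT Unit → ℝ) (l : ℕ)
    (c : RT Bool) : ℝ :=
  if c.nk = 0 then 0 else if c.lab = true then fl G a b g c else
    a l * g (fg c) + b l * fl G a b g c

theorem B3a_lab_msg (B : RT Bool) : (msg B).lab = decide (B.nk ≠ 0) := by
  cases B
  rfl

theorem B3a_H_msg_leaf (G : ℕ → ℕ → ℝ) (a b : ℕ → ℝ) (g : RT Unit → ℝ) (l : ℕ)
    {B : RT Bool} (hB : B.nk = 0) :
    B3a_H G a b g l (msg B) = a l * g fresh + b l * G 1 2 := by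
  have h1 : (msg B).nk ≠ 0 := by rw [nk_msg]; omega
  have h2 : (msg B).lab = false := by rw [B3a_lab_msg, hB]; rfl
  have h3 : fg (msg B) = fresh := by
    rw [fg_msg, B3a_eq_leaf (B := fg B) (by rw [nk_fg]; exact hB)]
    rfl
  unfold B3a_H
  rw [if_neg h1, h2, h3, B3a_fl_msg_leaf G a b g hB]
  simp

theorem B3a_H_msg (G : ℕ → ℕ → ℝ) (a b : ℕ → ℝ) (g : RT Unit → ℝ) (l : ℕ)
    {B : RT Bool} (hB : B.nk ≠ 0) :
    B3a_H G a b g l (msg B) = fl G a b g (msg B) := by
  have h1 : (msg B).nk ≠ 0 := by rw [nk_msg]; omega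
  have h2 : (msg B).lab = true := by rw [B3a_lab_msg]; simpa using hB
  unfold B3a_H
  rw [if_neg h1, if_pos h2]

theorem B3a_gen_H_flag (G : ℕ → ℕ → ℝ) (a b : ℕ → ℝ) (g : RT Unit → ℝ) (l : ℕ)
    {B : RT Bool} (hB : B.nk ≠ 0) (hl : B.lab = true) :
    gen (B3a_H G a b g l) B = gen (fl G a b g) B := by
  have h1 : Q B (B3a_H G a b g l) = Q B (fl G a b g) := by
    apply Q_congr_lab
    intro c hc hlab
    have h2 : c.nk ≠ 0 := by omega
    unfold B3a_H
    rw [if_neg h2, if_pos (hlab.trans hl)]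
  have h3 : B3a_H G a b g l B = fl G a b g B := by
    unfold B3a_H
    rw [if_neg hB, if_pos hl]
  unfold gen
  rw [h1, h3]

theorem B3a_gen_H_unflag (G : ℕ → ℕ → ℝ) (a b : ℕ → ℝ) (g : RT Unit → ℝ) (l : ℕ)
    {B : RT Bool} (hB : B.nk ≠ 0) (hl : B.lab ≠ true) :
    gen (B3a_H G a b g l) B = a l * gen g (fg B) + b l * gen (fl G a b g) B := by
  have h1 : Q B (B3a_H G a b g l) = a l * Q B (fun c => g (fg c)) + b l * Q B (fl G a b g) := by
    rw [← B3a_Q_lin]
    apply Q_congr_lab
    intro c hc hlab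
    have h2 : c.nk ≠ 0 := by omega
    have h3 : c.lab ≠ true := by rw [hlab]; exact hl
    unfold B3a_H
    rw [if_neg h2, if_neg h3]
  have h3 : B3a_H G a b g l B = a l * g (fg B) + b l * fl G a b g B := by
    unfold B3a_H
    rw [if_neg hB, if_neg hl]
  rw [← gen_fg]
  unfold gen
  rw [h1, h3]
  ring

/-- The generator identity for the flagged functional.  From `gen_node` with
`H l c = if c.nk = 0 then 0 else if c.lab then fl c else a l * g (fg c) + b l * fl c`: inner transitions of
a kid keep its label (`Q_congr_lab`), so `gen (H l)` of a flagged kid is `gen fl`, of an unflagged kid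
`a l * gen g (fg kid) + b l * gen fl` (`gen_fg`); a message flags a non-leaf kid; a message to a leaf kid
makes it `fresh`, which is unflagged.  The number of leaf kids is `l`. -/
theorem gen_fl (G : ℕ → ℕ → ℝ) (a b : ℕ → ℝ) (g : RT Unit → ℝ) (c : Bool) (n : ℕ)
    (K : Fin n → RT Bool) (l : ℕ) (hl : l = nl (node c n K)) :
    gen (fl G a b g) (node c n K) =
      ((l : ℝ) + kin (node c n K)) * (G (l + 1) (n + 2) - G l (n + 1)) +
      (l : ℝ) / ((n : ℝ) + 1) * (G (l - 1) (n + 1) - G l (n + 1) + a (l - 1) * g fresh +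
        b (l - 1) * G 1 2) +
      ∑ i, (if (K i).nk = 0 then 0 else if (K i).lab = true then
          1 / ((n : ℝ) + 1) * (fl G a b g (msg (K i)) - fl G a b g (K i)) +
            gen (fl G a b g) (K i)
        else
          1 / ((n : ℝ) + 1) * (fl G a b g (msg (K i)) -
            (a l * g (fg (K i)) + b l * fl G a b g (K i))) +
          a l * gen g (fg (K i)) + b l * gen (fl G a b g) (K i) +
          (((l : ℝ) + kin (node c n K)) * (a (l + 1) - a l) +
            (l : ℝ) / ((n : ℝ) + 1) * (a (l - 1) - a l)) * g (fg (K i)) +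
          (((l : ℝ) + kin (node c n K)) * (b (l + 1) - b l) +
            (l : ℝ) / ((n : ℝ) + 1) * (b (l - 1) - b l)) * fl G a b g (K i)) := by
  rw [gen_node G (B3a_H G a b g) (fun l c hc => by unfold B3a_H; rw [if_pos hc]) (fl G a b g)
    (fun c n K => rfl) c n K l hl]
  set H := B3a_H G a b g with hH
  set Dp : ℝ := ∑ j, (H (l + 1) (K j) - H l (K j)) with hDp
  set Dm : ℝ := ∑ j, (H (l - 1) (K j) - H l (K j)) with hDm
  set kk : ℝ := kin (node c n K) with hkk
  set X : ℝ := a (l - 1) * g fresh + b (l - 1) * G 1 2 with hX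
  have hterm : ∀ i, (if (K i).nk = 0 then
        1 / ((n : ℝ) + 1) * (G (l - 1) (n + 1) - G l (n + 1) +
          Dm + H (l - 1) (msg (K i))) +
        (G (l + 1) (n + 2) - G l (n + 1) + Dp)
      else
        1 / ((n : ℝ) + 1) * (H l (msg (K i)) - H l (K i)) + gen (H l) (K i) +
        upr (K i) * (G (l + 1) (n + 2) - G l (n + 1) + Dp)) =
      (if (K i).nk = 0 then (1 : ℝ) else 0) * (1 / ((n : ℝ) + 1) *
        (G (l - 1) (n + 1) - G l (n + 1) + Dm + X) + (G (l + 1) (n + 2) - G l (n + 1) + Dp)) +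
      (if (K i).nk = 0 then (0 : ℝ) else upr (K i)) * (G (l + 1) (n + 2) - G l (n + 1) + Dp) +
      (if (K i).nk = 0 then (0 : ℝ) else
        1 / ((n : ℝ) + 1) * (H l (msg (K i)) - H l (K i)) + gen (H l) (K i)) := by
    intro i
    by_cases hi : (K i).nk = 0
    · simp only [hi, if_true]
      rw [hH, B3a_H_msg_leaf G a b g (l - 1) hi, hX]
      ring
    · simp only [hi, if_false]
      ring
  rw [Finset.sum_congr rfl fun i _ => hterm i, Finset.sum_add_distrib, Finset.sum_add_distrib,
    ← Finset.sum_mul, ← Finset.sum_mul, ← B3a_kin_node c n K, ← hkk]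
  have hcount : ∑ i, (if (K i).nk = 0 then (1 : ℝ) else 0) = (l : ℝ) := by
    rw [hl, B3a_nl_node]
    push_cast
    exact Finset.sum_congr rfl fun i _ => by split_ifs <;> simp
  rw [hcount]
  have hDsum : ((l : ℝ) + kk) * Dp + (l : ℝ) / ((n : ℝ) + 1) * Dm =
      ∑ i, (((l : ℝ) + kk) * (H (l + 1) (K i) - H l (K i)) +
        (l : ℝ) / ((n : ℝ) + 1) * (H (l - 1) (K i) - H l (K i))) := by
    rw [hDp, hDm, Finset.mul_sum, Finset.mul_sum, Finset.sum_add_distrib]
  have hfin : ∑ i, (if (K i).nk = 0 then 0 else if (K i).lab = true then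
          1 / ((n : ℝ) + 1) * (fl G a b g (msg (K i)) - fl G a b g (K i)) +
            gen (fl G a b g) (K i)
        else
          1 / ((n : ℝ) + 1) * (fl G a b g (msg (K i)) -
            (a l * g (fg (K i)) + b l * fl G a b g (K i))) +
          a l * gen g (fg (K i)) + b l * gen (fl G a b g) (K i) +
          (((l : ℝ) + kk) * (a (l + 1) - a l) +
            (l : ℝ) / ((n : ℝ) + 1) * (a (l - 1) - a l)) * g (fg (K i)) +
          (((l : ℝ) + kk) * (b (l + 1) - b l) +
            (l : ℝ) / ((n : ℝ) + 1) * (b (l - 1) - b l)) * fl G a b g (K i)) =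
      ∑ i, (if (K i).nk = 0 then (0 : ℝ) else
        1 / ((n : ℝ) + 1) * (H l (msg (K i)) - H l (K i)) + gen (H l) (K i)) +
      (((l : ℝ) + kk) * Dp + (l : ℝ) / ((n : ℝ) + 1) * Dm) := by
    rw [hDsum, ← Finset.sum_add_distrib]
    refine Finset.sum_congr rfl fun i _ => ?_
    by_cases hi : (K i).nk = 0
    · have h1 : ∀ m, H m (K i) = 0 := fun m => by rw [hH]; unfold B3a_H; rw [if_pos hi]
      rw [if_pos hi, if_pos hi, h1, h1, h1]
      ring
    · rw [if_neg hi, if_neg hi]
      have hm : H l (msg (K i)) = fl G a b g (msg (K i)) := B3a_H_msg G a b g l hi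
      by_cases hf : (K i).lab = true
      · have h1 : ∀ m, H m (K i) = fl G a b g (K i) := fun m => by
          rw [hH]; unfold B3a_H; rw [if_neg hi, if_pos hf]
        have h2 : gen (H l) (K i) = gen (fl G a b g) (K i) := B3a_gen_H_flag G a b g l hi hf
        rw [if_pos hf, hm, h1, h1, h1, h2]
        ring
      · have h1 : ∀ m, H m (K i) = a m * g (fg (K i)) + b m * fl G a b g (K i) := fun m => by
          rw [hH]; unfold B3a_H; rw [if_neg hi, if_neg hf]
        have h2 : gen (H l) (K i) = a l * gen g (fg (K i)) + b l * gen (fl G a b g) (K i) :=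
          B3a_gen_H_unflag G a b g l hi hf
        rw [if_neg hf, hm, h1, h1, h1, h2]
        ring
  rw [hfin, hX]
  ring

end RFT
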