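import Pool.Agent.H13.RF.B2

/-! Module B4: the generator on vertex sums. -/

namespace RFT

open Finset RT

/-- the local generator of one vertex with `l` leaf neighbours and degree `d`: leaf gains by its own leaves, births
(which create a vertex with one leaf and degree two) -/
noncomputable def loc (g : ℕ → ℕ → ℝ) (l d : ℕ) : ℝ :=
  (l : ℝ) * (g (l + 1) (d + 1) - g l d) + (l : ℝ) / d * (g (l - 1) d - g l d) + (l : ℝ) / d * g 1 2

theorem B4_nl_node {α : Type} (c : α) (n : ℕ) (K : Fin n → RT α) :
    nl (node c n K) = ∑ i, if (K i).nk = 0 then 1 else 0 := rfl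

theorem B4_asum_msg_leaf {α : Type} [Rule α] (g : ℕ → ℕ → ℝ) {B : RT α} (hB : B.nk = 0) :
    asum g (msg B) = g 1 2 := by
  have h1 : (msg B).nl = 1 := by
    rw [nl_msg]
    have := nl_le_nk B
    omega
  cases B with
  | node c n K =>
    rw [nk_node] at hB
    subst hB
    have h2 : msg (node c 0 K) = node (Rule.up (decide ((0 : ℕ) ≠ 0)) c) (0 + 1)
      (Fin.snoc (α := fun _ => RT α) K leaf) := rfl
    rw [h2] at h1 ⊢
    rw [asum_node g _ _ _ (by omega), h1, Fin.sum_univ_castSucc]
    simp only [Fin.snoc_last, Finset.univ_eq_empty, Finset.sum_empty, zero_add]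
    rw [asum_of_nk_zero g (nk_leaf), add_zero]

/-- exact form of the generator on vertex sums -/
theorem B4_gen_asum {α : Type} [Rule α] (g : ℕ → ℕ → ℝ) (c : α) (n : ℕ) (K : Fin n → RT α)
    (hn : n ≠ 0) (l : ℕ) (hl : l = nl (node c n K)) :
    gen (asum g) (node c n K) = loc g l (n + 1) + ∑ i, (if (K i).nk = 0 then 0 else
      1 / ((n : ℝ) + 1) * (g ((K i).nl + 1) ((K i).nk + 2) - g (K i).nl ((K i).nk + 1)) +
        gen (asum g) (K i) + upr (K i) * (g (l + 1) (n + 2) - g l (n + 1))) := by
  rw [gen_node (fun l d => if d = 1 then 0 else g l d) (fun _ => asum g)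
    (fun l c hc => asum_of_nk_zero g hc) (asum g) (by
      intro c n K
      by_cases h : n = 0
      · subst h
        rw [asum_of_nk_zero g (nk_node c 0 K)]
        simp
      · rw [asum_node g c n K h, if_neg (by omega)]) c n K l hl]
  have h1 : n + 1 ≠ 1 := by omega
  have h2 : n + 2 ≠ 1 := by omega
  simp only [if_neg h1, if_neg h2, sub_self, Finset.sum_const_zero, add_zero]
  have hterm : ∀ i, (if (K i).nk = 0 then
        1 / ((n : ℝ) + 1) * (g (l - 1) (n + 1) - g l (n + 1) + asum g (msg (K i))) +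
        (g (l + 1) (n + 2) - g l (n + 1))
      else
        1 / ((n : ℝ) + 1) * (asum g (msg (K i)) - asum g (K i)) + gen (asum g) (K i) +
        upr (K i) * (g (l + 1) (n + 2) - g l (n + 1))) =
      (if (K i).nk = 0 then (1 : ℝ) else 0) * (1 / ((n : ℝ) + 1) *
        (g (l - 1) (n + 1) - g l (n + 1) + g 1 2) + (g (l + 1) (n + 2) - g l (n + 1))) +
      (if (K i).nk = 0 then 0 else
      1 / ((n : ℝ) + 1) * (g ((K i).nl + 1) ((K i).nk + 2) - g (K i).nl ((K i).nk + 1)) +
        gen (asum g) (K i) + upr (K i) * (g (l + 1) (n + 2) - g l (n + 1))) := by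
    intro i
    by_cases hi : (K i).nk = 0
    · simp only [hi, if_true]
      rw [B4_asum_msg_leaf g hi]
      ring
    · simp only [hi, if_false]
      rw [asum_msg g hi]
      ring
  rw [Finset.sum_congr rfl fun i _ => hterm i, Finset.sum_add_distrib, ← Finset.sum_mul]
  have hcount : ∑ i, (if (K i).nk = 0 then (1 : ℝ) else 0) = (l : ℝ) := by
    rw [hl, B4_nl_node]
    push_cast
    exact Finset.sum_congr rfl fun i _ => by split_ifs <;> simp
  rw [hcount]
  congr 1
  unfold loc
  have h3 : ((n + 1 : ℕ) : ℝ) = (n : ℝ) + 1 := by push_cast; ring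
  have h4 : n + 1 + 1 = n + 2 := rfl
  rw [h3, h4]
  have h5 : (n : ℝ) + 1 ≠ 0 := by positivity
  field_simp
  ring

/-- If `a ≤ loc g` and `g` does not decrease when a leaf is added, then the generator of `asum g` is at least
`asum a` on non-leaf half-trees.  `gen_node` with `G l d = if d = 1 then 0 else g l d`, `H l c = asum g c`. -/
theorem gen_asum_ge {α : Type} [Rule α] {g a : ℕ → ℕ → ℝ}
    (h1 : ∀ l d, l + 1 ≤ d → 2 ≤ d → a l d ≤ loc g l d)
    (h2 : ∀ l d, l + 1 ≤ d → 2 ≤ d → g l d ≤ g (l + 1) (d + 1)) (B : RT α) (hB : B.nk ≠ 0) :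
    asum a B ≤ gen (asum g) B := by
  induction B with
  | node c n K ih =>
    rw [nk_node] at hB
    have hnl : nl (node c n K) + 1 ≤ n + 1 := by
      have := nl_le_nk (node c n K)
      rw [nk_node] at this
      omega
    rw [B4_gen_asum g c n K hB _ rfl, asum_node a c n K hB]
    refine add_le_add (h1 _ _ hnl (by omega)) (Finset.sum_le_sum fun i _ => ?_)
    by_cases hi : (K i).nk = 0
    · rw [if_pos hi, asum_of_nk_zero a hi]
    · rw [if_neg hi]
      have e1 := ih i hi
      have e2 : 0 ≤ 1 / ((n : ℝ) + 1) *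
          (g ((K i).nl + 1) ((K i).nk + 2) - g (K i).nl ((K i).nk + 1)) := by
        have h3 := nl_le_nk (K i)
        have h4 := h2 (K i).nl ((K i).nk + 1) (by omega) (by omega)
        exact mul_nonneg (by positivity) (sub_nonneg.2 h4)
      have e3 : 0 ≤ upr (K i) * (g (nl (node c n K) + 1) (n + 2) - g (nl (node c n K)) (n + 1)) := by
        have h4 := h2 (nl (node c n K)) (n + 1) hnl (by omega)
        exact mul_nonneg (upr_nonneg _) (sub_nonneg.2 h4)
      linarith

/-- births: the generator of the number of non-leaves -/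
theorem gen_pop {α : Type} [Rule α] (B : RT α) (hB : B.nk ≠ 0) :
    gen pop B = asum (fun l d => (l : ℝ) / d) B := by
  have hpop : (pop : RT α → ℝ) = asum (fun _ _ => 1) := rfl
  rw [hpop]
  induction B with
  | node c n K ih =>
    rw [nk_node] at hB
    rw [B4_gen_asum _ c n K hB _ rfl, asum_node _ c n K hB]
    congr 1
    · unfold loc
      push_cast
      ring
    · refine Finset.sum_congr rfl fun i _ => ?_
      by_cases hi : (K i).nk = 0
      · rw [if_pos hi, asum_of_nk_zero _ hi]
      · rw [if_neg hi, ih i hi]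
        ring

end RFT
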