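import Pool.Agent.H13.RF.B5a

/-! Module B5b: the generators on functions of the pointed vertex. -/

namespace RFT

open Finset RT

private theorem B5b_range (B : RT Unit) (f : RT Unit → ℝ) :
    ∑ i ∈ range B.nk, f (kid B i) = match B with | .node _ _ K => ∑ i, f (K i) := by
  cases B with
  | node a n K =>
    simp only [nk_node]
    rw [Finset.sum_range]
    apply Finset.sum_congr rfl
    intro i _
    simp only [kid, i.2, dif_pos]

private theorem B5b_nl (B : RT Unit) :
    (B.nl : ℝ) = ∑ i ∈ range B.nk, if (kid B i).nk = 0 then (1 : ℝ) else 0 := by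
  rw [B5b_range B (fun c => if c.nk = 0 then (1 : ℝ) else 0)]
  cases B with
  | node a n K =>
    simp only [nl]
    push_cast
    rfl

/-- the pointed operator on a general function: transitions of the whole tree and births seen from the new
vertex -/
theorem kerP_L (u : RT Unit × RT Unit → ℝ) (x : RT Unit × RT Unit) :
    kerP.L u x = kerT.L u x + ∑ i ∈ range x.1.nk,
      (if (kid x.1 i).nk = 0 then x.1.upr * u (fresh, repl x.1 i x.2) else 0) := by
  show ptP u x - ((x.1.size + x.2.size : ℕ) : ℝ) * u x =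
    (Env.rt.pairP u x - ((x.1.size + x.2.size : ℕ) : ℝ) * u x) + _
  unfold ptP
  ring

theorem LT_const (r : ℝ) (x : RT Unit × RT Unit) : kerT.L (fun _ => r) x = 0 := by
  have h1 := Env.ker_one Env.rt Unit x
  obtain ⟨l, _, h⟩ := kerT.rep x
  have h2 : kerT.P (fun _ => r) x = kerT.P (fun _ => 1) x * r := by
    rw [h, h, ← List.sum_map_mul_right]
    congr 1
    apply List.map_congr_left
    intro p _
    ring
  have h3 : kerT.P (fun _ => 1) x = kerT.lev x := h1
  unfold Ker.L
  rw [h2, h3]
  ring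

/-- the same without creation term -/
theorem LT_vf {g : ℕ → ℕ → ℝ} {x : RT Unit × RT Unit} (h : x ∈ C2) :
    kerT.L (vf g) x = (x.1.nl : ℝ) * (g (x.1.nl + 1) (x.1.dg + 1) - g x.1.nl x.1.dg) +
      (x.1.nl : ℝ) / x.1.dg * (g (x.1.nl - 1) x.1.dg - g x.1.nl x.1.dg) +
      rin x * (g (x.1.nl + 1) (x.1.dg + 1) - g x.1.nl x.1.dg) := by
  obtain ⟨B, A⟩ := x
  have h1 := pairL_fst Env.rt (fun c : RT Unit => g c.nl c.dg) (B, A)
  have h2 : kerT.L (vf g) (B, A) = gen (fun c : RT Unit => g c.nl c.dg) B +
      upr A * (g (msg B).nl (msg B).dg - g B.nl B.dg) := h1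
  rw [h2]
  unfold rin
  simp only
  rw [B5b_range B (fun c => if c.nk = 0 then 0 else c.upr)]
  have h3 : (msg B).dg = B.dg + 1 := by unfold dg; rw [nk_msg]
  rw [h3, nl_msg]
  cases B with
  | node a n K =>
    have h4 := gen_node (α := Unit) g (fun _ _ => 0) (fun _ _ _ => rfl)
      (fun c : RT Unit => g c.nl c.dg) (fun a n K => by simp [dg]) a n K _ rfl
    rw [h4]
    set l := (node a n K).nl with hl
    have hd : (node a n K).dg = n + 1 := rfl
    rw [hd]
    simp only [sub_self, Finset.sum_const_zero, add_zero, zero_add, mul_zero]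
    have hg : ∀ i, gen (fun _ : RT Unit => (0 : ℝ)) (K i) = 0 := by
      intro i
      unfold gen
      have : Q (K i) (fun _ => (0 : ℝ)) = 0 := by
        obtain ⟨l, _, hl⟩ := Q_rep (K i)
        have := hl (fun _ => (0 : ℝ))
        simpa using this
      rw [this]; ring
    simp only [hg, zero_add]
    have hsplit : ∀ i, (if (K i).nk = 0 then
        1 / ((n : ℝ) + 1) * (g (l - 1) (n + 1) - g l (n + 1)) + (g (l + 1) (n + 2) - g l (n + 1))
      else (K i).upr * (g (l + 1) (n + 2) - g l (n + 1))) =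
      (if (K i).nk = 0 then (1 : ℝ) else 0) *
        (1 / ((n : ℝ) + 1) * (g (l - 1) (n + 1) - g l (n + 1)) + (g (l + 1) (n + 2) - g l (n + 1))) +
      (if (K i).nk = 0 then 0 else (K i).upr) * (g (l + 1) (n + 2) - g l (n + 1)) := by
      intro i
      split <;> ring
    have hnl : (l : ℝ) = ∑ i, (if (K i).nk = 0 then (1 : ℝ) else 0) := by
      rw [hl]
      simp only [nl]
      push_cast
      rfl
    rw [Finset.sum_congr rfl (fun i _ => hsplit i), Finset.sum_add_distrib, ← Finset.sum_mul,
      ← Finset.sum_mul, ← hnl]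
    push_cast
    have e1 : n + 1 + 1 = n + 2 := rfl
    rw [e1]
    ring

/-- The generator of the pointed trees on functions of the pointed vertex.  Use `pairL_fst`, `gen_node` with `H = 0`
and the creation term: each of the `nl` leaf kids contributes `upr * g 1 2`. -/
theorem L_vf {g : ℕ → ℕ → ℝ} {x : RT Unit × RT Unit} (h : x ∈ C2) :
    kerP.L (vf g) x = loc g x.1.nl x.1.dg +
      rin x * (g (x.1.nl + 1) (x.1.dg + 1) - g x.1.nl x.1.dg) := by
  rw [kerP_L, LT_vf h]
  have h1 : ∀ i, vf g ((fresh : RT Unit), repl x.1 i x.2) = g 1 2 := by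
    intro i
    unfold vf
    simp only [nl_fresh]
    rfl
  simp only [h1]
  have h2 : ∀ i, (if (kid x.1 i).nk = 0 then x.1.upr * g 1 2 else 0) =
      (if (kid x.1 i).nk = 0 then (1 : ℝ) else 0) * (x.1.upr * g 1 2) := by
    intro i
    split <;> simp
  rw [Finset.sum_congr rfl (fun i _ => h2 i), ← Finset.sum_mul, ← B5b_nl]
  have h3 : x.1.upr = 1 / (x.1.dg : ℝ) := by
    unfold upr dg
    push_cast
    rfl
  rw [h3]
  unfold loc
  ring

end RFT
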