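import Pool.Agent.H13.RF.B4

/-! Module B5a: pointed trees, neighbours, births. -/

namespace RFT

open Finset RT

/-- a vertex function as a function on pointed trees (the parent is a non-leaf) -/
noncomputable def vf (g : ℕ → ℕ → ℝ) (x : RT Unit × RT Unit) : ℝ := g x.1.nl x.1.dg

/-- rate of the messages received by the root of `x.1` from its non-leaf neighbours -/
noncomputable def rin (x : RT Unit × RT Unit) : ℝ :=
  (∑ i ∈ range x.1.nk, if (kid x.1 i).nk = 0 then 0 else (kid x.1 i).upr) + x.2.upr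

private theorem B5a_list_nonneg {S : Type} {l : List (ℝ × S)} {u : S → ℝ}
    (h : ∀ p ∈ l, 0 ≤ p.1 ∧ 0 ≤ u p.2) : 0 ≤ (l.map (fun p => p.1 * u p.2)).sum := by
  apply List.sum_nonneg
  intro z hz
  obtain ⟨p, hp, rfl⟩ := List.mem_map.1 hz
  exact mul_nonneg (h p hp).1 (h p hp).2

private theorem B5a_Q_zero {α : Type} [Rule α] (B : RT α) : Q B (fun _ => (0 : ℝ)) = 0 := by
  obtain ⟨l, _, hl⟩ := Q_rep B
  have := hl (fun _ => (0 : ℝ))
  simpa using this

private theorem B5a_Q_nonneg {α : Type} [Rule α] {B : RT α} {u : RT α → ℝ}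
    (h : ∀ c, B.nk ≤ c.nk → 0 ≤ u c) : 0 ≤ Q B u := by
  have h0 : Q B (fun _ => (0 : ℝ)) ≤ Q B u := Q_mono_nk fun c hc => h c hc
  rwa [B5a_Q_zero] at h0

theorem closed_C2' : kerT.Closed C2 := by
  rintro ⟨B, A⟩ ⟨hB, hA⟩ u hu
  simp only at hB hA
  have hu' : ∀ c e : RT Unit, c.nk ≠ 0 → e.nk ≠ 0 → 0 ≤ u (c, e) := fun c e h1 h2 =>
    hu (c, e) ⟨h1, h2⟩
  have h1 : 0 ≤ Q B (fun c => u (c, A)) := B5a_Q_nonneg fun c hc => hu' c A (by omega) hA
  have h2 : 0 ≤ Q A (fun c => u (B, c)) := B5a_Q_nonneg fun c hc => hu' B c hB (by omega)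
  have h3 : 0 ≤ upr B * u (B, add A) := mul_nonneg (upr_nonneg _) (hu' _ _ hB (by simp))
  have h4 : 0 ≤ upr A * u (msg B, A) := mul_nonneg (upr_nonneg _) (hu' _ _ (by simp) hA)
  show 0 ≤ Q B (fun c => u (c, A)) + Q A (fun c => u (B, c)) + upr B * u (B, add A) +
    upr A * u (msg B, A)
  positivity

theorem closed_C2 : kerP.Closed C2 := by
  intro x hx u hu
  have h1 : 0 ≤ kerT.P u x := closed_C2' x hx u hu
  show 0 ≤ ptP u x
  unfold ptP
  have h2 : 0 ≤ Env.rt.pairP u x := h1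
  have h3 : 0 ≤ ∑ i ∈ range x.1.nk,
      (if (kid x.1 i).nk = 0 then x.1.upr * u (fresh, repl x.1 i x.2) else 0) := by
    apply Finset.sum_nonneg
    intro i _
    split
    · refine mul_nonneg (upr_nonneg _) (hu _ ⟨?_, ?_⟩)
      · simp
      · show (repl x.1 i x.2).nk ≠ 0
        rw [nk_repl]
        exact hx.1
    · exact le_rfl
  positivity

theorem rin_nonneg (x : RT Unit × RT Unit) : 0 ≤ rin x := by
  unfold rin
  refine add_nonneg (Finset.sum_nonneg fun i _ => ?_) (upr_nonneg _)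
  split
  · exact le_rfl
  · exact upr_nonneg _

private theorem B5a_nl_eq (B : RT Unit) :
    B.nl = ∑ i ∈ range B.nk, if (kid B i).nk = 0 then 1 else 0 := by
  cases B with
  | node a n K =>
    simp only [nl, nk_node]
    rw [Finset.sum_range]
    apply Finset.sum_congr rfl
    intro i _
    simp only [kid, i.2, dif_pos]

private theorem B5a_nl_eq_real (B : RT Unit) :
    (B.nl : ℝ) = ∑ i ∈ range B.nk, if (kid B i).nk = 0 then (1 : ℝ) else 0 := by
  have h := B5a_nl_eq B
  have h2 : (B.nl : ℝ) = ((∑ i ∈ range B.nk, if (kid B i).nk = 0 then 1 else 0 : ℕ) : ℝ) := by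
    rw [← h]
  rw [h2]
  push_cast
  rfl

/-- non-leaf neighbours have degree at least two; there are `dg - nl` of them -/
theorem rin_le {x : RT Unit × RT Unit} (h : x ∈ C2) :
    rin x ≤ ((x.1.dg : ℝ) - x.1.nl) / 2 := by
  unfold rin
  have h1 : ∑ i ∈ range x.1.nk, (if (kid x.1 i).nk = 0 then 0 else (kid x.1 i).upr) ≤
      ∑ i ∈ range x.1.nk, (1 - (if (kid x.1 i).nk = 0 then (1 : ℝ) else 0)) / 2 := by
    apply Finset.sum_le_sum
    intro i _
    by_cases h0 : (kid x.1 i).nk = 0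
    · simp [h0]
    · simp only [h0, if_false, sub_zero]
      exact upr_le_half h0
  rw [← Finset.sum_div, Finset.sum_sub_distrib, ← B5a_nl_eq_real] at h1
  simp only [Finset.sum_const, Finset.card_range, nsmul_eq_mul, mul_one] at h1
  have h2 := upr_le_half h.2
  have h3 : (x.1.dg : ℝ) = x.1.nk + 1 := by
    unfold dg
    push_cast
    ring
  rw [h3]
  linarith

theorem nl_add_one_le {x : RT Unit × RT Unit} : x.1.nl + 1 ≤ x.1.dg := by
  unfold dg
  exact Nat.add_le_add_right (nl_le_nk _) 1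

theorem two_le_dg {x : RT Unit × RT Unit} (h : x ∈ C2) : 2 ≤ x.1.dg := by
  unfold dg
  have := h.1
  omega

/-- the environment of a newborn: same degree as the parent, one leaf neighbour less -/
theorem nk_repl' (B A : RT Unit) (i : ℕ) : (repl B i A).nk = B.nk := nk_repl B i A

theorem nl_repl {B A : RT Unit} {i : ℕ} (hi : i < B.nk) (hl : (kid B i).nk = 0)
    (hA : A.nk ≠ 0) : (repl B i A).nl + 1 = B.nl := by
  cases B with
  | node a n K =>
    simp only [nk_node] at hi
    simp only [kid, hi, dif_pos] at hl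
    simp only [repl, hi, dif_pos]
    have h := nl_rep n a K ⟨i, hi⟩ A
    simp only [hl, hA, if_true, if_false, add_zero] at h
    exact h

/-- the creation term is between `nl * upr` times the extreme values at the newborns -/
theorem creation_ge {u : RT Unit × RT Unit → ℝ} {x : RT Unit × RT Unit} (h : x ∈ C2) {m : ℝ}
    (hm : ∀ A : RT Unit, A.nk = x.1.nk → A.nl + 1 = x.1.nl → m ≤ u (fresh, A)) :
    (x.1.nl : ℝ) / x.1.dg * m ≤ ∑ i ∈ range x.1.nk,
      (if (kid x.1 i).nk = 0 then x.1.upr * u (fresh, repl x.1 i x.2) else 0) := by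
  have h1 : (x.1.nl : ℝ) / x.1.dg * m =
      ∑ i ∈ range x.1.nk, (if (kid x.1 i).nk = 0 then x.1.upr * m else 0) := by
    have h2 : ∀ i, (if (kid x.1 i).nk = 0 then x.1.upr * m else 0) =
        (if (kid x.1 i).nk = 0 then (1 : ℝ) else 0) * (x.1.upr * m) := by
      intro i
      split <;> simp
    rw [Finset.sum_congr rfl (fun i _ => h2 i), ← Finset.sum_mul, ← B5a_nl_eq_real]
    unfold upr dg
    push_cast
    ring
  rw [h1]
  apply Finset.sum_le_sum
  intro i hi
  by_cases h0 : (kid x.1 i).nk = 0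
  · simp only [h0, if_true]
    exact mul_le_mul_of_nonneg_left
      (hm _ (nk_repl _ _ _) (nl_repl (Finset.mem_range.1 hi) h0 h.2)) (upr_nonneg _)
  · simp [h0]

theorem creation_le {u : RT Unit × RT Unit → ℝ} {x : RT Unit × RT Unit} (h : x ∈ C2) {m : ℝ}
    (hm : ∀ A : RT Unit, A.nk = x.1.nk → A.nl + 1 = x.1.nl → u (fresh, A) ≤ m) :
    ∑ i ∈ range x.1.nk,
      (if (kid x.1 i).nk = 0 then x.1.upr * u (fresh, repl x.1 i x.2) else 0) ≤
    (x.1.nl : ℝ) / x.1.dg * m := by
  have h1 : (x.1.nl : ℝ) / x.1.dg * m =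
      ∑ i ∈ range x.1.nk, (if (kid x.1 i).nk = 0 then x.1.upr * m else 0) := by
    have h2 : ∀ i, (if (kid x.1 i).nk = 0 then x.1.upr * m else 0) =
        (if (kid x.1 i).nk = 0 then (1 : ℝ) else 0) * (x.1.upr * m) := by
      intro i
      split <;> simp
    rw [Finset.sum_congr rfl (fun i _ => h2 i), ← Finset.sum_mul, ← B5a_nl_eq_real]
    unfold upr dg
    push_cast
    ring
  rw [h1]
  apply Finset.sum_le_sum
  intro i hi
  by_cases h0 : (kid x.1 i).nk = 0
  · simp only [h0, if_true]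
    exact mul_le_mul_of_nonneg_left
      (hm _ (nk_repl _ _ _) (nl_repl (Finset.mem_range.1 hi) h0 h.2)) (upr_nonneg _)
  · simp [h0]

end RFT
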