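import Pool.Agent.H13.RF.B6a

/-! Module B6b: invariant functions. -/

namespace RFT

open Finset RT

/-- functions of the unrooted whole tree -/
def Inv (f : RT Unit × RT Unit → ℝ) : Prop :=
  (∀ x : RT Unit × RT Unit, f (x.2, x.1) = f x) ∧
  (∀ (x : RT Unit × RT Unit) (i : ℕ), i < x.1.nk → f (rer i x) = f x)

theorem Inv.P {f : RT Unit × RT Unit → ℝ} (hf : Inv f) : Inv (kerT.P f) := by
  have hP : ∀ (u : RT Unit × RT Unit → ℝ) (x : RT Unit × RT Unit),
      kerT.P u x = Env.rt.pairP u x := fun _ _ => rfl
  constructor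
  · intro x
    rw [hP, hP, ← pairP_swap]
    congr 1
    funext y
    exact hf.1 y
  · rintro ⟨B, A⟩ i hi
    rw [hP, hP, ← pairP_rer f B A i hi]
    unfold Env.pairP
    have h1 : Q B (fun c => f (rer i (c, A))) = Q B (fun c => f (c, A)) := by
      apply Q_congr_nk
      intro c hc
      exact hf.2 (c, A) i (lt_of_lt_of_le hi hc)
    have h2 : (fun e => f (rer i (B, e))) = fun e => f (B, e) := by
      funext e
      exact hf.2 (B, e) i hi
    have h3 : f (rer i (B, Env.rt.rcv A)) = f (B, Env.rt.rcv A) := hf.2 (B, Env.rt.rcv A) i hi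
    have h4 : f (rer i (msg B, A)) = f (msg B, A) := by
      apply hf.2 (msg B, A) i
      simp only [nk_msg]
      have hi' : i < B.nk := hi
      omega
    simp only [h1, h2, h3, h4]

theorem Inv.iter {f : RT Unit × RT Unit → ℝ} (hf : Inv f) (j : ℕ) : Inv (kerT.P^[j] f) := by
  induction j with
  | zero => exact hf
  | succ j ih =>
    rw [Function.iterate_succ_apply']
    exact ih.P

theorem Inv.sg {f : RT Unit × RT Unit → ℝ} (hf : Inv f) (t : ℝ) : Inv (kerT.sg t f) := by
  constructor
  · intro x
    unfold Ker.sg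
    have h1 : kerT.lev (x.2, x.1) = kerT.lev x := by
      show x.2.size + x.1.size = x.1.size + x.2.size
      ring
    rw [h1]
    congr 2
    funext j
    rw [(hf.iter j).1 x]
  · rintro ⟨B, A⟩ i hi
    unfold Ker.sg
    rw [lev_rer (hi : i < B.nk) A]
    congr 2
    funext j
    rw [(hf.iter j).2 (B, A) i hi]

/-- degree sums of the whole tree: all vertices of degree at least two -/
noncomputable def wsum (g : ℕ → ℝ) (x : RT Unit × RT Unit) : ℝ :=
  asum (fun _ d => g d) x.1 + asum (fun _ d => g d) x.2

/-- number of non-leaves of a whole tree -/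
noncomputable def wpop (x : RT Unit × RT Unit) : ℝ := wsum (fun _ => 1) x

theorem Inv.wsum (g : ℕ → ℝ) : Inv (wsum g) := by
  constructor
  · intro x
    unfold RFT.wsum
    ring
  · rintro ⟨B, A⟩ i hi
    cases B with
    | node a n K =>
      obtain ⟨i', rfl⟩ : ∃ i' : Fin n, (i' : ℕ) = i := ⟨⟨i, hi⟩, rfl⟩
      rw [rer_node]
      unfold RFT.wsum
      have hn : n ≠ 0 := by
        intro h
        subst h
        exact i'.elim0
      simp only
      rw [asum_node _ a n _ hn, asum_node _ a n _ hn, sum_rep]
      ring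

/-- a whole tree with at least two non-leaves can be re-rooted at an edge between two non-leaves -/
theorem exists_C2 (x : RT Unit × RT Unit) (h : 2 ≤ wsum (fun _ => 1) x) :
    ∃ y ∈ C2, ∀ f : RT Unit × RT Unit → ℝ, Inv f → f y = f x := by
  have key : ∀ B A : RT Unit, B.nk ≠ 0 → 2 ≤ wsum (fun _ => 1) (B, A) →
      ∃ y ∈ C2, ∀ f : RT Unit × RT Unit → ℝ, Inv f → f y = f (B, A) := by
    intro B A hB h
    by_cases hA : A.nk = 0
    · have h1 : asum (fun _ _ => (1 : ℝ)) A = 0 := asum_of_nk_zero _ hA
      cases B with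
      | node a n K =>
        have hn : n ≠ 0 := hB
        have h2 : 2 ≤ asum (fun _ _ => (1 : ℝ)) (node a n K) := by
          unfold wsum at h
          simp only at h
          rw [h1] at h
          linarith
        rw [asum_node _ a n K hn] at h2
        have h3 : ∃ i : Fin n, (K i).nk ≠ 0 := by
          by_contra hcon
          push Not at hcon
          have h4 : ∑ i, asum (fun _ _ => (1 : ℝ)) (K i) = 0 :=
            Finset.sum_eq_zero fun i _ => asum_of_nk_zero _ (hcon i)
          rw [h4] at h2
          linarith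
        obtain ⟨i, hi⟩ := h3
        refine ⟨rer i (node a n K, A), ?_, ?_⟩
        · rw [rer_node]
          exact ⟨hi, hn⟩
        · intro f hf
          exact hf.2 (node a n K, A) i i.isLt
    · exact ⟨(B, A), ⟨hB, hA⟩, fun f _ => rfl⟩
  obtain ⟨B, A⟩ := x
  by_cases hB : B.nk = 0
  · by_cases hA : A.nk = 0
    · exfalso
      unfold wsum at h
      simp only at h
      rw [asum_of_nk_zero _ hB, asum_of_nk_zero _ hA] at h
      linarith
    · obtain ⟨y, hy, hf⟩ := key A B hA (by
        have := (Inv.wsum (fun _ => 1)).1 (B, A)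
        simp only at this
        rw [this]
        exact h)
      refine ⟨y, hy, fun f hi => ?_⟩
      rw [hf f hi]
      exact hi.1 (B, A)
  · exact key B A hB h

end RFT
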