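import Pool.Agent.H13.RF.B5

/-! Module B6a: re-rooting. -/

namespace RFT

open Finset RT

/-- `Fin` version of `rer` -/
theorem B6a_rer_node (a : Unit) (n : ℕ) (K : Fin n → RT Unit) (i : Fin n) (A : RT Unit) :
    rer i (node a n K, A) = (K i, node a n (Function.update K i A)) := by
  unfold rer kid repl
  simp only [i.isLt, dif_pos, Fin.eta]

theorem B6a_rer_add (a : Unit) (n : ℕ) (K : Fin n → RT Unit) (i : Fin n) (A : RT Unit) :
    rer i (add (node a n K), A) = (K i, add (node a n (Function.update K i A))) := by
  have h := B6a_rer_node a (n + 1) (Fin.snoc (α := fun _ => RT Unit) K leaf) i.castSucc A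
  have h1 : ((i.castSucc : Fin (n + 1)) : ℕ) = (i : ℕ) := rfl
  rw [h1] at h
  unfold add
  rw [h, Fin.snoc_castSucc]
  have h2 : Function.update (Fin.snoc (α := fun _ => RT Unit) K leaf) i.castSucc A =
      Fin.snoc (α := fun _ => RT Unit) (Function.update K i A) leaf := by
    rw [Fin.snoc_update]
  rw [h2]

/-- Re-rooting commutes with the dynamics of whole trees.  Both sides are sums over the same transitions.  Write
`B = node () n K`, `A_i = node () n (update K i A)`; split the sum over the kids `j` of `B` into `j = i` and
`j ≠ i`, and the sum over the kids of `A_i` into the slot `i` (containing `A`) and `j ≠ i`; `rer i` reads a new tree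
`(rep n K j c, A)` as `(K i, rep of A_i)` for `j ≠ i`, and as `(c, A_i)` for `j = i`; appending a kid
commutes with `update` at `i < n`. -/
theorem pairP_rer (u : RT Unit × RT Unit → ℝ) (B A : RT Unit) (i : ℕ) (hi : i < B.nk) :
    Env.rt.pairP (fun y => u (rer i y)) (B, A) = Env.rt.pairP u (rer i (B, A)) := by
  cases B with
  | node a n K =>
    obtain ⟨i', rfl⟩ : ∃ i' : Fin n, (i' : ℕ) = i := ⟨⟨i, hi⟩, rfl⟩
    rw [B6a_rer_node]
    unfold Env.pairP
    simp only [Env.rt]
    have e1 : ∀ c : RT Unit, rer i' (rep n a K i' c, A) =
        (c, node a n (Function.update K i' A)) := by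
      intro c
      unfold rep
      rw [B6a_rer_node]
      simp
    have e2 : ∀ (j : Fin n) (c : RT Unit), j ≠ i' → rer i' (rep n a K j c, A) =
        (K i', rep n a (Function.update K i' A) j c) := by
      intro j c hj
      unfold rep
      rw [B6a_rer_node, Function.update_of_ne (Ne.symm hj), Function.update_comm hj]
    have e3 := B6a_rer_add a n K i' A
    have e4 : ∀ A' : RT Unit, rer i' (node a n K, A') =
      (K i', rep n a (Function.update K i' A) i' A') := by
      intro A'
      rw [B6a_rer_node]
      unfold rep
      rw [Function.update_idem]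
    have e5 : rer i' (msg (node a n K), A) = (K i', add (node a n (Function.update K i' A))) := by
      rw [msg_eq_add, e3]
    simp only [Q, e3, e4, e5]
    rw [← Finset.add_sum_erase Finset.univ _ (Finset.mem_univ i'),
      ← Finset.add_sum_erase Finset.univ (fun j : Fin n =>
        1 / ((n : ℝ) + 1) * u (K i', rep n a (Function.update K i' A) j
          (Function.update K i' A j).msg) +
        Q (Function.update K i' A j) (fun c => u (K i', rep n a (Function.update K i' A) j c)) +
        (Function.update K i' A j).upr * u (K i', add (node a n (Function.update K i' A))))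
      (Finset.mem_univ i')]
    have e6 : ∀ j ∈ Finset.univ.erase i', (1 / ((n : ℝ) + 1) * u (rer i' (rep n a K j (msg (K j)), A)) +
        Q (K j) (fun c => u (rer i' (rep n a K j c, A))) +
        (K j).upr * u (K i', add (node a n (Function.update K i' A)))) =
        (1 / ((n : ℝ) + 1) * u (K i', rep n a (Function.update K i' A) j
          (Function.update K i' A j).msg) +
        Q (Function.update K i' A j) (fun c => u (K i', rep n a (Function.update K i' A) j c)) +
        (Function.update K i' A j).upr * u (K i', add (node a n (Function.update K i' A)))) := by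
      intro j hj
      have hj' : j ≠ i' := (Finset.mem_erase.1 hj).1
      rw [Function.update_of_ne hj', e2 j _ hj']
      simp only [e2 j _ hj']
    rw [Finset.sum_congr rfl e6]
    simp only [e1, Function.update_self, msg_eq_add]
    unfold upr
    simp only [nk_node]
    ring

theorem pairP_swap (u : RT Unit × RT Unit → ℝ) (x : RT Unit × RT Unit) :
    Env.rt.pairP (fun y => u (y.2, y.1)) x = Env.rt.pairP u (x.2, x.1) := by
  unfold Env.pairP
  simp only [Env.rt, msg_eq_add]
  ring

theorem lev_rer {B : RT Unit} {i : ℕ} (hi : i < B.nk) (A : RT Unit) :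
    kerT.lev (rer i (B, A)) = kerT.lev (B, A) := by
  have h := size_repl hi A
  show (kid B i).size + (repl B i A).size = B.size + A.size
  omega

/-- `Fin` version of `rer` -/
theorem rer_node (a : Unit) (n : ℕ) (K : Fin n → RT Unit) (i : Fin n) (A : RT Unit) :
    rer i (node a n K, A) = (K i, node a n (Function.update K i A)) :=
  B6a_rer_node a n K i A

end RFT
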