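import Pool.Agent.H13.RF.B7a
import Pool.Agent.H13.RF.A5

/-! Module B7b: intertwining of the pointed dynamics with the dynamics of whole trees. -/

namespace RFT

open Finset RT

/-- transitions inside a half-tree: the root keeps its degree or gets a leaf -/
theorem B7b_Q_congr {α : Type} [Rule α] {B : RT α} {u v : RT α → ℝ}
    (h1 : ∀ c, c.nk = B.nk → u c = v c) (h2 : u (add B) = v (add B)) : Q B u = Q B v := by
  cases B with
  | node a n K =>
    simp only [Q]
    apply Finset.sum_congr rfl
    intro i _
    have h3 : ∀ c, u (rep n a K i c) = v (rep n a K i c) := fun c => h1 _ rfl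
    simp only [h3, h2]

theorem B7b_Q_zero {α : Type} [Rule α] (B : RT α) : Q B (fun _ => 0) = 0 := by
  induction B with
  | node a n K ih =>
    simp only [Q, ih]
    simp

theorem B7b_leaf {B : RT Unit} (h : B.nk = 0) : B = leaf := by
  cases B with
  | node a n K =>
    have hn : n = 0 := h
    subst hn
    unfold leaf
    congr 1
    funext i
    exact i.elim0

theorem B7b_pairP_add (u v : RT Unit × RT Unit → ℝ) (x : RT Unit × RT Unit) :
    Env.rt.pairP (fun y => u y + v y) x = Env.rt.pairP u x + Env.rt.pairP v x :=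
  kerT.P_add u v x

theorem B7b_pairP_sum {ι : Type} (s : Finset ι) (u : ι → RT Unit × RT Unit → ℝ)
    (x : RT Unit × RT Unit) :
    Env.rt.pairP (fun y => ∑ i ∈ s, u i y) x = ∑ i ∈ s, Env.rt.pairP (u i) x :=
  kerT.P_sum s u x

/-- the leaf kids -/
theorem B7b_leafkid (h : RT Unit × RT Unit → ℝ) {K : RT Unit} (hK : K.nk = 0) (A' : RT Unit) :
    kerT.L (fun x => Ssum h x.1 x.2) (K, A') = A'.upr * h (fresh, A') := by
  have hl := B7b_leaf hK
  subst hl
  have h0 : ∀ e : RT Unit, Ssum h leaf e = 0 := fun e => Ssum_of_nk_zero h rfl e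
  have h1 : Ssum h (msg leaf) A' = h (fresh, A') := Ssum_fresh h A'
  show Env.rt.pairP (fun x => Ssum h x.1 x.2) (leaf, A') -
    (kerT.lev (leaf, A') : ℝ) * Ssum h leaf A' = _
  rw [h0 A', mul_zero, sub_zero]
  unfold Env.pairP
  simp only [Env.rt, h0, h1]
  rw [B7b_Q_zero, Q_nk_zero (B := (leaf : RT Unit)) rfl]
  ring

/-- Intertwining.  With `F (B, A) = Ssum h B A`: induction on the size of `B` (for all `A`), using `Ssum_eq`,
`pairP_rer` for each kid: the generator of `F ∘ rer i` at `(B, A)` is the generator of `F` at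
`rer i (B, A)`; for a non-leaf kid this is `Ssum (kerP.L h)` by induction; for a leaf kid `F (leaf, _) = 0`
and the only contribution is the message, rate `upr B`, to the leaf kid, with value `h (fresh, A_i)`: this is the
creation term of `kerP.L h (B, A)`. -/
theorem L_Ssum (h : RT Unit × RT Unit → ℝ) (B A : RT Unit) (hB : B.nk ≠ 0) (hA : A.nk ≠ 0) :
    kerT.L (fun x => Ssum h x.1 x.2) (B, A) = Ssum (kerP.L h) B A := by
  suffices H : ∀ N : ℕ, ∀ B A : RT Unit, B.size ≤ N → B.nk ≠ 0 → A.nk ≠ 0 →
      kerT.L (fun x => Ssum h x.1 x.2) (B, A) = Ssum (kerP.L h) B A from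
    H B.size B A le_rfl hB hA
  intro N
  induction N with
  | zero =>
    intro B A hN
    have := size_pos B
    omega
  | succ N ih =>
    intro B A hN hB hA
    set F : RT Unit × RT Unit → ℝ := fun x => Ssum h x.1 x.2 with hF
    -- the operator on `F`
    have hP : Env.rt.pairP F (B, A) =
        Env.rt.pairP (fun y => h y + ∑ i ∈ range B.nk, F (rer i y)) (B, A) := by
      have e1 : ∀ y : RT Unit × RT Unit, y.1.nk = B.nk →
          F y = h y + ∑ i ∈ range B.nk, F (rer i y) := by
        intro y hy
        have h1 := Ssum_eq h (B := y.1) (by rw [hy]; exact hB) y.2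
        rw [hy] at h1
        exact h1
      have e2 : ∀ A' : RT Unit, F (add B, A') =
          h (add B, A') + ∑ i ∈ range B.nk, F (rer i (add B, A')) := by
        intro A'
        have h1 := Ssum_eq h (B := add B) (by simp) A'
        rw [nk_add, Finset.sum_range_succ] at h1
        have h2 : F (rer B.nk (add B, A')) = 0 := by
          apply Ssum_of_nk_zero
          show (kid (add B) B.nk).nk = 0
          rw [kid_add_last]
          rfl
        have h3 : Ssum h (rer B.nk (add B, A')).1 (rer B.nk (add B, A')).2 = 0 := h2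
        rw [h3, add_zero] at h1
        exact h1
      unfold Env.pairP
      have h1 : Q B (fun c => F (c, A)) =
          Q B (fun c => h (c, A) + ∑ i ∈ range B.nk, F (rer i (c, A))) := by
        apply B7b_Q_congr
        · intro c hc
          exact e1 (c, A) hc
        · exact e2 A
      have h2 : (fun e => F (B, e)) = fun e => h (B, e) + ∑ i ∈ range B.nk, F (rer i (B, e)) := by
        funext e
        exact e1 (B, e) rfl
      have h3 : F (B, Env.rt.rcv A) = h (B, Env.rt.rcv A) +
          ∑ i ∈ range B.nk, F (rer i (B, Env.rt.rcv A)) := e1 _ rfl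
      have h4 : F (msg B, A) = h (msg B, A) + ∑ i ∈ range B.nk, F (rer i (msg B, A)) := by
        rw [msg_eq_add]
        exact e2 A
      simp only [h1, h2, h3, h4]
    have hP2 : Env.rt.pairP F (B, A) = Env.rt.pairP h (B, A) +
        ∑ i ∈ range B.nk, Env.rt.pairP F (rer i (B, A)) := by
      rw [hP, B7b_pairP_add, B7b_pairP_sum]
      congr 1
      apply Finset.sum_congr rfl
      intro i hi
      exact pairP_rer F B A i (mem_range.1 hi)
    have hFB : F (B, A) = h (B, A) + ∑ i ∈ range B.nk, F (rer i (B, A)) := Ssum_eq h hB A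
    have hL : kerT.L F (B, A) = kerT.L h (B, A) +
        ∑ i ∈ range B.nk, kerT.L F (rer i (B, A)) := by
      have e1 : ∀ (u : RT Unit × RT Unit → ℝ) (x : RT Unit × RT Unit),
        kerT.L u x = Env.rt.pairP u x - (kerT.lev x : ℝ) * u x := fun _ _ => rfl
      rw [e1, e1, hP2, hFB]
      have e2 : ∑ i ∈ range B.nk, kerT.L F (rer i (B, A)) =
          ∑ i ∈ range B.nk, (Env.rt.pairP F (rer i (B, A)) -
            (kerT.lev (B, A) : ℝ) * F (rer i (B, A))) := by
        apply Finset.sum_congr rfl
        intro i hi
        rw [e1, lev_rer (mem_range.1 hi) A]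
      rw [e2, Finset.sum_sub_distrib, ← Finset.mul_sum]
      ring
    rw [hL, Ssum_eq (kerP.L h) hB A, kerP_L h (B, A)]
    simp only
    rw [add_assoc, ← Finset.sum_add_distrib]
    congr 1
    apply Finset.sum_congr rfl
    intro i hi
    have hi' := mem_range.1 hi
    have hupr : (repl B i A).upr = B.upr := by
      unfold upr
      rw [nk_repl]
    have hrer : rer i (B, A) = (kid B i, repl B i A) := rfl
    rw [hrer]
    simp only
    by_cases hk : (kid B i).nk = 0
    · rw [if_pos hk, Ssum_of_nk_zero _ hk, add_zero, hF, B7b_leafkid h hk, hupr]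
    · rw [if_neg hk, zero_add]
      apply ih
      · have h1 := size_repl hi' A
        have h2 : A.size < (repl B i A).size := by
          cases B with
          | node a n K =>
            obtain ⟨i', rfl⟩ : ∃ i' : Fin n, (i' : ℕ) = i := ⟨⟨i, hi'⟩, rfl⟩
            have h3 : repl (node a n K) i' A = node a n (Function.update K i' A) := by
              have := congrArg Prod.snd (rer_node a n K i' A)
              exact this
            rw [h3, size_node]
            have h4 : A.size ≤ ∑ j, (Function.update K i' A j).size := by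
              have h5 := Finset.single_le_sum (f := fun j => (Function.update K i' A j).size)
                (fun j _ => Nat.zero_le _) (Finset.mem_univ i')
              simpa using h5
            omega
        omega
      · exact hk
      · rw [nk_repl]
        exact hB

/-- The expected vertex sum over a half-tree is the sum of the pointed quantities (uniqueness in `kerT` on `C2`). -/
theorem sg_asum_eq {g : ℕ → ℕ → ℝ} {M : ℝ} (hg : ∀ l d, |g l d| ≤ M) {t : ℝ} (ht : 0 ≤ t)
    {B A : RT Unit} (hB : B.nk ≠ 0) (hA : A.nk ≠ 0) :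
    kerT.sg t (fun x => asum g x.1) (B, A) = Ssum (kerP.sg t (vf g)) B A := by
  have hM : 0 ≤ M := (abs_nonneg _).trans (hg 0 0)
  have hv : ∀ x, |vf g x| ≤ M * kerP.V 0 x := by
    intro x
    have h1 := kerP.one_le_V 0 x
    have h2 : |vf g x| ≤ M := hg _ _
    nlinarith
  have hvG : kerP.Gr (vf g) := ⟨M, 0, hv⟩
  have hlev : ∀ x : RT Unit × RT Unit, (x.1.size : ℝ) ≤ kerT.lev x := by
    intro x
    have h1 : kerT.lev x = x.1.size + x.2.size := rfl
    rw [h1]
    push_cast
    have : (0 : ℝ) ≤ x.2.size := Nat.cast_nonneg _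
    linarith
  have hf : kerT.Gr (fun x => asum g x.1) := by
    apply Ker.Gr.of_lin kerT (M := M)
    intro x
    have h1 := abs_asum_le (g := g) (fun l d _ => hg l d) x.1
    have h2 := pop_le_size x.1
    have h3 := hlev x
    have h4 : M * pop x.1 ≤ M * (kerT.lev x + 1) :=
      mul_le_mul_of_nonneg_left (by linarith) hM
    linarith
  have hbd : ∀ T : ℝ, 0 ≤ T → ∀ x ∈ C2, ∀ t ∈ Set.Icc 0 T,
      |Ssum (kerP.sg t (vf g)) x.1 x.2| ≤ M * Real.exp (2 * T) * pop x.1 := by
    intro T hT x hx t ht'
    apply abs_Ssum_le _ _ hx.2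
    intro y _
    have h1 := kerP.abs_sg_le hv ht'.1 y
    refine h1.trans ?_
    have h2 : kerP.V 0 y = 1 := by
      unfold Ker.V
      simp
    rw [h2, mul_one]
    apply mul_le_mul_of_nonneg_left _ hM
    apply Real.exp_le_exp.2
    have h3 : (kerP.c : ℝ) = 1 := by
      show ((1 : ℕ) : ℝ) = 1
      norm_num
    rw [h3]
    have := ht'.1
    have := ht'.2
    push_cast
    nlinarith
  have hsol := kerT.eq_sg closed_C2' (f := fun x => asum g x.1) hf
    (b := fun t x => Ssum (kerP.sg t (vf g)) x.1 x.2)
    (by
      intro x _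
      have h1 : kerP.sg 0 (vf g) = vf g := by
        funext y
        exact kerP.sg_zero (vf g) y
      simp only [h1]
      exact Ssum_vf g x.1 x.2)
    (by
      intro x _
      exact Ssum_continuousOn (h := fun t => kerP.sg t (vf g))
        (fun y => kerP.continuousOn_sg hvG y) x.1 x.2)
    (by
      intro x hx t ht0
      have h1 := Ssum_hasDerivAt (h := fun s => kerP.sg s (vf g))
        (h' := kerP.L (kerP.sg t (vf g))) (t := t)
        (fun y => kerP.hasDerivAt_sg hvG y ht0) x.1 x.2
      have h2 := L_Ssum (kerP.sg t (vf g)) x.1 x.2 hx.1 hx.2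
      rw [← h2] at h1
      exact h1)
    (by
      intro T hT
      refine ⟨M * Real.exp (2 * T), 1, fun x hx t ht' => ?_⟩
      have h1 := hbd T hT x hx t ht'
      refine h1.trans ?_
      apply mul_le_mul_of_nonneg_left _ (by positivity)
      rw [kerT.V_one]
      have h2 := pop_le_size x.1
      have h3 := hlev x
      have h4 : (0 : ℝ) ≤ kerT.c := Nat.cast_nonneg _
      linarith)
    (B, A) ⟨hB, hA⟩ t ht
  exact hsol.symm

end RFT
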