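import Pool.Agent.H13.RF.B6

/-! Module B7a: sums over the vertices of a half-tree. -/

namespace RFT

open Finset RT

private theorem B7a_node (h : RT Unit × RT Unit → ℝ) (a : Unit) (n : ℕ) (K : Fin n → RT Unit)
    (hn : n ≠ 0) (A : RT Unit) : Ssum h (.node a n K) A = h (.node a n K, A) +
      ∑ i, Ssum h (K i) (.node a n (Function.update K i A)) := by
  simp only [Ssum, hn, if_false]

theorem Ssum_of_nk_zero (h : RT Unit × RT Unit → ℝ) {B : RT Unit} (hB : B.nk = 0) (A : RT Unit) :
    Ssum h B A = 0 := by
  cases B with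
  | node a n K =>
    simp only [nk_node] at hB
    simp [Ssum, hB]

/-- the recursion in terms of re-rooting -/
theorem Ssum_eq (h : RT Unit × RT Unit → ℝ) {B : RT Unit} (hB : B.nk ≠ 0) (A : RT Unit) :
    Ssum h B A = h (B, A) + ∑ i ∈ range B.nk, Ssum h (rer i (B, A)).1 (rer i (B, A)).2 := by
  cases B with
  | node a n K =>
    simp only [nk_node] at hB ⊢
    rw [B7a_node h a n K hB, Finset.sum_range]
    congr 1
    apply Finset.sum_congr rfl
    intro i _
    simp only [rer, kid, repl, i.2, dif_pos]

theorem Ssum_fresh (h : RT Unit × RT Unit → ℝ) (A : RT Unit) :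
    Ssum h fresh A = h (fresh, A) := by
  have h1 : (fresh : RT Unit).nk = 1 := nk_fresh
  have h2 : kid (fresh : RT Unit) 0 = leaf := by
    have := kid_add_last (leaf : RT Unit)
    rw [nk_leaf] at this
    unfold fresh
    rw [msg_eq_add]
    exact this
  rw [Ssum_eq h (by rw [h1]; norm_num) A, h1]
  simp only [Finset.range_one, Finset.sum_singleton, rer]
  rw [h2, Ssum_of_nk_zero h nk_leaf, add_zero]

/-- if `h ≤ h'` on `C2` and `A` is a non-leaf -/
theorem Ssum_mono {h h' : RT Unit × RT Unit → ℝ} (hh : ∀ x ∈ C2, h x ≤ h' x) (B : RT Unit)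
    {A : RT Unit} (hA : A.nk ≠ 0) : Ssum h B A ≤ Ssum h' B A := by
  induction B generalizing A with
  | node a n K ih =>
    by_cases hn : n = 0
    · simp [Ssum, hn]
    · rw [B7a_node h a n K hn, B7a_node h' a n K hn]
      refine add_le_add (hh _ ⟨hn, hA⟩) (Finset.sum_le_sum fun i _ => ih i ?_)
      simpa using hn

theorem Ssum_vf (g : ℕ → ℕ → ℝ) (B A : RT Unit) : Ssum (vf g) B A = asum g B := by
  induction B generalizing A with
  | node a n K ih =>
    by_cases hn : n = 0
    · simp [Ssum, asum, hn]
    · rw [B7a_node _ a n K hn, asum_node g a n K hn]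
      congr 1
      exact Finset.sum_congr rfl fun i _ => ih i _

theorem Ssum_add (h h' : RT Unit × RT Unit → ℝ) (B A : RT Unit) :
    Ssum (fun x => h x + h' x) B A = Ssum h B A + Ssum h' B A := by
  induction B generalizing A with
  | node a n K ih =>
    by_cases hn : n = 0
    · simp [Ssum, hn]
    · rw [B7a_node _ a n K hn, B7a_node _ a n K hn, B7a_node _ a n K hn,
        Finset.sum_congr rfl (fun i _ => ih i _), Finset.sum_add_distrib]
      ring

theorem Ssum_smul (r : ℝ) (h : RT Unit × RT Unit → ℝ) (B A : RT Unit) :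
    Ssum (fun x => r * h x) B A = r * Ssum h B A := by
  induction B generalizing A with
  | node a n K ih =>
    by_cases hn : n = 0
    · simp [Ssum, hn]
    · rw [B7a_node _ a n K hn, B7a_node _ a n K hn,
        Finset.sum_congr rfl (fun i _ => ih i _), ← Finset.mul_sum]
      ring

theorem abs_Ssum_le {h : RT Unit × RT Unit → ℝ} {M : ℝ} (hh : ∀ x ∈ C2, |h x| ≤ M) (B : RT Unit)
    {A : RT Unit} (hA : A.nk ≠ 0) : |Ssum h B A| ≤ M * pop B := by
  induction B generalizing A with
  | node a n K ih =>
    by_cases hn : n = 0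
    · simp [Ssum, pop, asum, hn]
    · have hpop : pop (node a n K) = 1 + ∑ i, pop (K i) := by
        unfold pop
        rw [asum_node _ a n K hn]
      rw [B7a_node _ a n K hn, hpop]
      have h2 : |h (.node a n K, A)| ≤ M := hh _ ⟨hn, hA⟩
      have h3 : |∑ i, Ssum h (K i) (.node a n (Function.update K i A))| ≤ ∑ i, M * pop (K i) :=
        (Finset.abs_sum_le_sum_abs _ _).trans (Finset.sum_le_sum fun i _ => ih i (by simpa using hn))
      rw [← Finset.mul_sum] at h3
      calc |h (.node a n K, A) + ∑ i, Ssum h (K i) (.node a n (Function.update K i A))|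
          ≤ |h (.node a n K, A)| + |∑ i, Ssum h (K i) (.node a n (Function.update K i A))| :=
            abs_add_le _ _
        _ ≤ M + M * ∑ i, pop (K i) := add_le_add h2 h3
        _ = _ := by ring

theorem Ssum_hasDerivAt {h : ℝ → RT Unit × RT Unit → ℝ} {h' : RT Unit × RT Unit → ℝ} {t : ℝ}
    (hh : ∀ x, HasDerivAt (fun s => h s x) (h' x) t) (B A : RT Unit) :
    HasDerivAt (fun s => Ssum (h s) B A) (Ssum h' B A) t := by
  induction B generalizing A with
  | node a n K ih =>
    by_cases hn : n = 0
    · subst hn
      have e1 : (fun s => Ssum (h s) (.node a 0 K) A) = fun _ => (0 : ℝ) := by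
        funext s
        exact Ssum_of_nk_zero _ rfl _
      rw [e1, Ssum_of_nk_zero _ (show (RT.node a 0 K).nk = 0 from rfl)]
      exact hasDerivAt_const t 0
    · have e1 : (fun s => Ssum (h s) (.node a n K) A) = fun s => h s (.node a n K, A) +
          ∑ i, Ssum (h s) (K i) (.node a n (Function.update K i A)) := by
        funext s
        exact B7a_node _ a n K hn A
      rw [e1, B7a_node _ a n K hn A]
      exact (hh _).add (HasDerivAt.fun_sum fun i _ => ih i _)

theorem Ssum_continuousOn {h : ℝ → RT Unit × RT Unit → ℝ} {s : Set ℝ}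
    (hh : ∀ x, ContinuousOn (fun t => h t x) s) (B A : RT Unit) :
    ContinuousOn (fun t => Ssum (h t) B A) s := by
  induction B generalizing A with
  | node a n K ih =>
    by_cases hn : n = 0
    · subst hn
      have e1 : (fun s => Ssum (h s) (.node a 0 K) A) = fun _ => (0 : ℝ) := by
        funext s
        exact Ssum_of_nk_zero _ rfl _
      rw [e1]
      exact continuousOn_const
    · have e1 : (fun s => Ssum (h s) (.node a n K) A) = fun s => h s (.node a n K, A) +
          ∑ i, Ssum (h s) (K i) (.node a n (Function.update K i A)) := by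
        funext s
        exact B7a_node _ a n K hn A
      rw [e1]
      exact (hh _).add (continuousOn_finsetSum _ fun i _ => ih i _)

end RFT
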