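import Pool.Agent.H13.RF.Defs

namespace RFT

open Finset RT

section listrep

/-- an operator is represented by a finite list of transitions raising the level by one -/
def Rep {S : Type} (lev : S → ℕ) (n : ℕ) (F : (S → ℝ) → ℝ) : Prop :=
  ∃ l : List (ℝ × S), (∀ p ∈ l, 0 ≤ p.1 ∧ lev p.2 = n + 1) ∧
    ∀ u : S → ℝ, F u = (l.map (fun p => p.1 * u p.2)).sum

theorem Rep.zero {S : Type} (lev : S → ℕ) (n : ℕ) : Rep lev n (fun _ => 0) :=
  ⟨[], by simp, by simp⟩

theorem Rep.add {S : Type} {lev : S → ℕ} {n : ℕ} {F G : (S → ℝ) → ℝ} (hF : Rep lev n F)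
    (hG : Rep lev n G) : Rep lev n (fun u => F u + G u) := by
  obtain ⟨l, hl, hu⟩ := hF
  obtain ⟨m, hm, hv⟩ := hG
  refine ⟨l ++ m, ?_, ?_⟩
  · intro p hp
    rcases List.mem_append.1 hp with h | h
    · exact hl p h
    · exact hm p h
  · intro u
    simp [hu u, hv u]

theorem Rep.single {S : Type} {lev : S → ℕ} {n : ℕ} (r : ℝ) (hr : 0 ≤ r) (y : S)
    (hy : lev y = n + 1) : Rep lev n (fun u => r * u y) :=
  ⟨[(r, y)], by simp [hr, hy], by simp⟩

theorem Rep.sum {S ι : Type} {lev : S → ℕ} {n : ℕ} (s : Finset ι) {F : ι → (S → ℝ) → ℝ}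
    (h : ∀ i ∈ s, Rep lev n (F i)) : Rep lev n (fun u => ∑ i ∈ s, F i u) := by
  classical
  induction s using Finset.induction_on with
  | empty => simpa using Rep.zero lev n
  | insert a s ha ih =>
    have := (h a (Finset.mem_insert_self a s)).add
      (ih (fun i hi => h i (Finset.mem_insert_of_mem hi)))
    simpa [Finset.sum_insert ha] using this

/-- transport along a map of states -/
theorem Rep.comp {S S' : Type} {lev : S → ℕ} {lev' : S' → ℕ} {n n' : ℕ} {F : (S → ℝ) → ℝ}
    (hF : Rep lev n F) (φ : S → S') (hφ : ∀ y, lev y = n + 1 → lev' (φ y) = n' + 1) :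
    Rep lev' n' (fun u => F (fun y => u (φ y))) := by
  obtain ⟨l, hl, hu⟩ := hF
  refine ⟨l.map (fun p => (p.1, φ p.2)), ?_, ?_⟩
  · intro p hp
    obtain ⟨q, hq, rfl⟩ := List.mem_map.1 hp
    exact ⟨(hl q hq).1, hφ _ (hl q hq).2⟩
  · intro u
    simp [hu, List.map_map, Function.comp_def]

theorem Rep.smul {S : Type} {lev : S → ℕ} {n : ℕ} {F : (S → ℝ) → ℝ} (hF : Rep lev n F)
    (r : ℝ) (hr : 0 ≤ r) : Rep lev n (fun u => r * F u) := by
  obtain ⟨l, hl, hu⟩ := hF
  refine ⟨l.map (fun p => (r * p.1, p.2)), ?_, ?_⟩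
  · intro p hp
    obtain ⟨q, hq, rfl⟩ := List.mem_map.1 hp
    exact ⟨mul_nonneg hr (hl q hq).1, (hl q hq).2⟩
  · intro u
    simp only [hu, List.map_map, Function.comp_def]
    rw [← List.sum_map_mul_left]
    congr 1
    apply List.map_congr_left
    intro p _
    ring

end listrep

namespace RT

variable {α β : Type}

@[simp] theorem nk_node (a : α) (n : ℕ) (K : Fin n → RT α) : (node a n K).nk = n := rfl
@[simp] theorem size_node (a : α) (n : ℕ) (K : Fin n → RT α) :
    (node a n K).size = 1 + ∑ i, (K i).size := rfl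

theorem size_pos (B : RT α) : 1 ≤ B.size := by
  cases B; simp

theorem upr_pos (B : RT α) : 0 < B.upr := by unfold upr; positivity
theorem upr_nonneg (B : RT α) : 0 ≤ B.upr := (upr_pos B).le
theorem upr_le_one (B : RT α) : B.upr ≤ 1 := by
  unfold upr
  rw [div_le_one (by positivity)]
  have : (0 : ℝ) ≤ (B.nk : ℝ) := by positivity
  linarith
theorem upr_le_half {B : RT α} (h : B.nk ≠ 0) : B.upr ≤ 1 / 2 := by
  unfold upr
  have : (1 : ℝ) ≤ (B.nk : ℝ) := by exact_mod_cast Nat.one_le_iff_ne_zero.2 h
  apply one_div_le_one_div_of_le <;> linarith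

variable [Rule α]

@[simp] theorem size_leaf : (leaf : RT α).size = 1 := by
  simp [leaf]

@[simp] theorem nk_leaf : (leaf : RT α).nk = 0 := rfl

@[simp] theorem nk_add (B : RT α) : (add B).nk = B.nk + 1 := by cases B; rfl
@[simp] theorem nk_msg (B : RT α) : (msg B).nk = B.nk + 1 := by cases B; rfl
@[simp] theorem nk_fresh : (fresh : RT α).nk = 1 := rfl

@[simp] theorem size_add (B : RT α) : (add B).size = B.size + 1 := by
  cases B with
  | node a n K =>
    simp only [add, size]
    rw [Fin.sum_univ_castSucc]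
    simp
    ring

@[simp] theorem size_msg (B : RT α) : (msg B).size = B.size + 1 := by
  cases B with
  | node a n K =>
    simp only [msg, size]
    rw [Fin.sum_univ_castSucc]
    simp
    ring

theorem size_rep (n : ℕ) (a : α) (K : Fin n → RT α) (i : Fin n) (c : RT α)
    (h : c.size = (K i).size + 1) : (rep n a K i c).size = (node a n K).size + 1 := by
  unfold rep
  simp only [size]
  have h1 : ∑ j, (Function.update K i c j).size = ∑ j, Function.update (fun j => (K j).size) i c.size j := by
    apply Finset.sum_congr rfl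
    intro j _
    by_cases hj : j = i
    · subst hj; simp
    · simp [Function.update_of_ne hj]
  rw [h1, Finset.sum_update_of_mem (Finset.mem_univ i), h,
    ← Finset.add_sum_erase _ _ (Finset.mem_univ i), Finset.sdiff_singleton_eq_erase]
  ring

theorem Q_rep (B : RT α) : Rep size B.size (fun u => Q B u) := by
  induction B with
  | node a n K ih =>
    simp only [Q]
    apply Rep.sum
    intro i _
    refine ((Rep.single _ (by positivity) _ ?_).add ((ih i).comp (fun c => rep n a K i c) ?_)).add
      (Rep.single _ (upr_nonneg _) _ ?_)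
    · exact size_rep n a K i _ (by simp)
    · intro y hy
      exact size_rep n a K i _ hy
    · simp

/-- total rate of the inner transitions -/
theorem Q_one (B : RT α) : Q B (fun _ => 1) = B.size - B.upr := by
  induction B with
  | node a n K ih =>
    have h1 : ∀ i, (1 / ((n : ℝ) + 1) * 1 + Q (K i) (fun _ => 1) + upr (K i) * 1) =
        1 / ((n : ℝ) + 1) + ((K i).size : ℝ) := by
      intro i
      rw [ih i]
      ring
    simp only [Q, size]
    rw [Finset.sum_congr rfl (fun i _ => h1 i), Finset.sum_add_distrib]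
    simp only [upr, nk_node]
    push_cast
    simp
    field_simp
    ring

theorem Q_nonneg (B : RT α) (u : RT α → ℝ) (hu : ∀ c, c.size = B.size + 1 → 0 ≤ u c) :
    0 ≤ Q B u := by
  obtain ⟨l, hl, h⟩ := Q_rep B
  have h' : Q B u = (l.map (fun p => p.1 * u p.2)).sum := h u
  rw [h']
  apply List.sum_nonneg
  intro x hx
  obtain ⟨p, hp, rfl⟩ := List.mem_map.1 hx
  exact mul_nonneg (hl p hp).1 (hu _ (hl p hp).2)

end RT

/-- transitions of (half-tree, environment) are represented by a list -/
theorem pairP_rep {E α : Type} [Rule α] (𝓔 : Env E) (x : RT α × E) :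
    Rep (fun x : RT α × E => x.1.size + 𝓔.lev x.2) (x.1.size + 𝓔.lev x.2)
      (fun u => 𝓔.pairP u x) := by
  unfold Env.pairP
  refine ((((Q_rep x.1).comp (fun c => (c, x.2)) ?_).add
    (Rep.comp (lev := 𝓔.lev) (n := 𝓔.lev x.2) (𝓔.rep x.2) (fun e => (x.1, e)) ?_)).add
    (Rep.single _ (upr_nonneg _) _ ?_)).add (Rep.single _ (𝓔.snd_nonneg _) _ ?_)
  · intro y hy; simp only [hy]; ring
  · intro y hy; simp only [hy]; ring
  · simp only [𝓔.lev_rcv]; ring
  · simp only [size_msg]; ring

/-- the kernel of (half-tree, environment) -/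
noncomputable def Env.ker {E : Type} (𝓔 : Env E) (α : Type) [Rule α] : Ker (RT α × E) where
  lev x := x.1.size + 𝓔.lev x.2
  P := 𝓔.pairP
  c := 0
  rep x := pairP_rep 𝓔 x
  tot x := by
    have h := 𝓔.tot x.2
    simp only [Env.pairP, Q_one]
    push_cast
    linarith

/-- the total rate is exactly the level -/
theorem Env.ker_one {E : Type} (𝓔 : Env E) (α : Type) [Rule α] (x : RT α × E) :
    (𝓔.ker α).P (fun _ => 1) x = (𝓔.ker α).lev x := by
  have h := 𝓔.tot x.2
  simp only [Env.ker, Env.pairP, Q_one]
  push_cast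
  linarith

/-- the inert environment: messages are lost, nothing is sent -/
noncomputable def Env.zero : Env ℕ where
  lev e := e
  P u e := e * u (e + 1)
  snd _ := 0
  rcv e := e + 1
  rep e := ⟨[((e : ℝ), e + 1)], by simp, by simp⟩
  snd_nonneg _ := le_refl 0
  tot e := by simp
  lev_rcv _ := rfl

/-- the other half of a whole tree as environment -/
noncomputable def Env.rt : Env (RT Unit) where
  lev := size
  P u A := Q A u
  snd := upr
  rcv := add
  rep A := Q_rep A
  snd_nonneg := upr_nonneg
  tot A := by rw [Q_one]; ring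
  lev_rcv A := size_add A

/-- whole trees -/
noncomputable def kerT : Ker (RT Unit × RT Unit) := Env.rt.ker Unit

/-- the half-tree whose root must not send messages to the parent (killed) -/
noncomputable def kerK (α : Type) [Rule α] : Ker (RT α) where
  lev := size
  P u B := Q B u
  c := 0
  rep B := Q_rep B
  tot B := by
    rw [Q_one]
    have := upr_nonneg B
    push_cast
    linarith

/-- pairs with no message through the middle edge (killed) -/
noncomputable def kerKK : Ker (RT Unit × RT Unit) where
  lev x := x.1.size + x.2.size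
  P u x := Q x.1 (fun c => u (c, x.2)) + Q x.2 (fun c => u (x.1, c))
  c := 0
  rep x := by
    have h : Rep (fun x : RT Unit × RT Unit => x.1.size + x.2.size) (x.1.size + x.2.size)
        (fun u => Q x.1 (fun c => u (c, x.2)) + Q x.2 (fun c => u (x.1, c))) := by
      refine Rep.add ((Q_rep x.1).comp (fun c => (c, x.2)) ?_)
        ((Q_rep x.2).comp (fun c => (x.1, c)) ?_)
      · intro y hy; simp only [hy]; ring
      · intro y hy; simp only [hy]; ring
    exact h
  tot x := by
    have h1 := upr_nonneg x.1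
    have h2 := upr_nonneg x.2
    simp only [Q_one]
    push_cast
    linarith

end RFT
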