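import Mathlib

/-! Module C0: the explicit functions. -/

namespace RFT

/-- bound for the probability that a vertex with `l` leaf neighbours ever chooses a given non-leaf neighbour -/
noncomputable def kap : ℕ → ℝ
  | 0 => 1
  | 1 => 4 / 5
  | (l + 2) => 9 / (5 * ((l : ℝ) + 3))

/-- the subharmonic vertex weight -/
noncomputable def th (l d : ℕ) : ℝ :=
  if l = 0 then 0 else if l = 1 then 12 / (25 * ((d : ℝ) + 1)) else ((l : ℝ) - 2 / 5) / ((d : ℝ) + 1)

/-- the vertex weight of the upper Harnack bound -/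
noncomputable def ph (d : ℕ) : ℝ := 24 / (5 * ((d : ℝ) + 3)) + 1 / 25

/-- the vertex weight of the growth bound -/
noncomputable def wf (l d : ℕ) : ℝ :=
  if l = 0 then 0 else if l = 1 then 3 / ((d : ℝ) + 1) else 28 * (l : ℝ) / (3 * (4 * (d : ℝ) + 1))

end RFT
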