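import Pool.Agent.H13.RF.C0

/-! Module C1b: inequalities for ph, wf and the Lyapunov weight. -/

namespace RFT

private theorem C1b_kap2 (l : ℕ) (h : 2 ≤ l) : kap l = 9 / (5 * ((l : ℝ) + 1)) := by
  obtain ⟨k, rfl⟩ := Nat.exists_eq_add_of_le h
  rw [add_comm 2 k]
  simp only [kap]
  push_cast
  ring_nf

private theorem C1b_kap1 : kap 1 = 4 / 5 := rfl

private theorem C1b_kap0 : kap 0 = 1 := rfl

private theorem C1b_wf0 (d : ℕ) : wf 0 d = 0 := by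
  simp [wf]

private theorem C1b_wf1 (d : ℕ) : wf 1 d = 3 / ((d : ℝ) + 1) := by
  simp [wf]

private theorem C1b_wf2 (l d : ℕ) (h : 2 ≤ l) : wf l d = 28 * (l : ℝ) / (3 * (4 * (d : ℝ) + 1)) := by
  have h0 : l ≠ 0 := by omega
  have h1 : l ≠ 1 := by omega
  simp [wf, h0, h1]

theorem ph_two : ph 2 = 1 := by
  unfold ph; norm_num

theorem ph_pos (d : ℕ) : 0 < ph d := by
  unfold ph; positivity

theorem ph_ge (d : ℕ) : 1 / 25 ≤ ph d := by
  unfold ph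
  have : 0 ≤ 24 / (5 * ((d : ℝ) + 3)) := by positivity
  linarith

theorem ph_le (d : ℕ) : ph d ≤ 2 := by
  unfold ph
  have : 24 / (5 * ((d : ℝ) + 3)) ≤ 24 / 15 := by
    apply div_le_div_of_nonneg_left (by norm_num) (by norm_num)
    have := (Nat.cast_nonneg d : (0 : ℝ) ≤ d)
    linarith
  linarith

theorem ph_anti (d : ℕ) : ph (d + 1) ≤ ph d := by
  unfold ph
  push_cast
  have : 24 / (5 * ((d : ℝ) + 1 + 3)) ≤ 24 / (5 * ((d : ℝ) + 3)) := by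
    apply div_le_div_of_nonneg_left (by norm_num) (by positivity)
    linarith
  linarith

/-- the main inequality for `φ`, with discount `3/8` -/
theorem ph_main {l d : ℕ} (hl : 1 ≤ l) (h : l + 1 ≤ d) :
    (l : ℝ) / d * kap (l - 1) ≤ (l : ℝ) * (ph d - ph (d + 1)) + 3 / 8 * ph d := by
  have h' : (l : ℝ) + 1 ≤ d := by exact_mod_cast h
  have hl' : (1 : ℝ) ≤ l := by exact_mod_cast hl
  have hd' : (2 : ℝ) ≤ d := by linarith
  have hd0 : (0 : ℝ) < d := by linarith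
  rw [← sub_nonneg]
  unfold ph
  rcases Nat.lt_or_ge l 3 with h3 | h3
  · interval_cases l
    · rw [Nat.sub_self, C1b_kap0]
      have e : ((1 : ℕ) : ℝ) * (24 / (5 * ((d : ℝ) + 3)) + 1 / 25 -
          (24 / (5 * (((d + 1 : ℕ) : ℝ) + 3)) + 1 / 25)) + 3 / 8 * (24 / (5 * ((d : ℝ) + 3)) + 1 / 25) -
          ((1 : ℕ) : ℝ) / d * 1 =
          (3 * d ^ 3 + 181 * d ^ 2 + 1036 * d - 2400) / (200 * (d + 3) * (d + 4) * d) := by
        push_cast; field_simp; ring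
      rw [e]
      refine div_nonneg ?_ (by positivity)
      nlinarith [pow_pos hd0 3]
    · show 0 ≤ ((2 : ℕ) : ℝ) * (24 / (5 * ((d : ℝ) + 3)) + 1 / 25 -
          (24 / (5 * (((d + 1 : ℕ) : ℝ) + 3)) + 1 / 25)) + 3 / 8 * (24 / (5 * ((d : ℝ) + 3)) + 1 / 25) -
          ((2 : ℕ) : ℝ) / d * kap 1
      rw [C1b_kap1]
      push_cast at h'
      have e : ((2 : ℕ) : ℝ) * (24 / (5 * ((d : ℝ) + 3)) + 1 / 25 -
          (24 / (5 * (((d + 1 : ℕ) : ℝ) + 3)) + 1 / 25)) + 3 / 8 * (24 / (5 * ((d : ℝ) + 3)) + 1 / 25) -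
          ((2 : ℕ) : ℝ) / d * (4 / 5) =
          (3 * d ^ 3 + 61 * d ^ 2 + 1156 * d - 3840) / (200 * (d + 3) * (d + 4) * d) := by
        push_cast; field_simp; ring
      rw [e]
      refine div_nonneg ?_ (by positivity)
      nlinarith [mul_nonneg (by linarith : (0:ℝ) ≤ d - 3) hd0.le, mul_nonneg (mul_nonneg (by linarith : (0:ℝ) ≤ d - 3) hd0.le) hd0.le]
  · have hl3 : (3 : ℝ) ≤ l := by exact_mod_cast h3
    rw [C1b_kap2 (l - 1) (by omega)]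
    have hc : ((l - 1 : ℕ) : ℝ) = l - 1 := by
      rw [Nat.cast_sub (by omega)]; simp
    rw [hc]
    have hl0 : (0 : ℝ) < l := by linarith
    have e : (l : ℝ) * (24 / (5 * ((d : ℝ) + 3)) + 1 / 25 -
        (24 / (5 * (((d + 1 : ℕ) : ℝ) + 3)) + 1 / 25)) + 3 / 8 * (24 / (5 * ((d : ℝ) + 3)) + 1 / 25) -
        (l : ℝ) / d * (9 / (5 * ((l : ℝ) - 1 + 1))) =
        (3 * d ^ 3 + 21 * d ^ 2 + 36 * d + 960 * l * d - 1080 * (d + 4)) /
          (200 * (d + 3) * (d + 4) * d) := by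
      have : (l : ℝ) - 1 + 1 = l := by ring
      rw [this]
      push_cast; field_simp; ring
    rw [e]
    refine div_nonneg ?_ (by positivity)
    nlinarith [pow_pos hd0 3, pow_pos hd0 2]

theorem wf_nonneg (l d : ℕ) : 0 ≤ wf l d := by
  rcases Nat.lt_or_ge l 2 with h | h
  · interval_cases l
    · rw [C1b_wf0]
    · rw [C1b_wf1]; positivity
  · rw [C1b_wf2 l d h]; positivity

theorem wf_le {l d : ℕ} (h : l + 1 ≤ d) : wf l d ≤ 7 / 3 := by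
  have h' : (l : ℝ) + 1 ≤ d := by exact_mod_cast h
  rcases Nat.lt_or_ge l 2 with h2 | h2
  · interval_cases l
    · rw [C1b_wf0]; norm_num
    · rw [C1b_wf1, div_le_div_iff₀ (by positivity) (by norm_num)]
      push_cast at h'
      linarith
  · rw [C1b_wf2 l d h2, div_le_div_iff₀ (by positivity) (by norm_num)]
    nlinarith

theorem wf_one_two : wf 1 2 = 1 := by
  rw [C1b_wf1]; norm_num

theorem wf_mono {l d : ℕ} (h : l + 1 ≤ d) (hd : 2 ≤ d) : wf l d ≤ wf (l + 1) (d + 1) := by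
  have hd' : (2 : ℝ) ≤ d := by exact_mod_cast hd
  have h' : (l : ℝ) + 1 ≤ d := by exact_mod_cast h
  rcases Nat.lt_or_ge l 2 with h2 | h2
  · interval_cases l
    · rw [C1b_wf0]; exact wf_nonneg _ _
    · rw [C1b_wf1, C1b_wf2 _ _ (by norm_num), div_le_div_iff₀ (by positivity) (by positivity)]
      push_cast
      nlinarith
  · rw [C1b_wf2 l d h2, C1b_wf2 _ _ (by omega), div_le_div_iff₀ (by positivity) (by positivity)]
    push_cast
    nlinarith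

theorem wf_main {l d : ℕ} (h : l + 1 ≤ d) (hd : 2 ≤ d) :
    2 / 5 * wf l d ≤ (l : ℝ) * (wf (l + 1) (d + 1) - wf l d) +
      (l : ℝ) / d * (wf (l - 1) d - wf l d) + (l : ℝ) / d * wf 1 2 := by
  have hd' : (2 : ℝ) ≤ d := by exact_mod_cast hd
  have hd0 : (0 : ℝ) < d := by linarith
  have h' : (l : ℝ) + 1 ≤ d := by exact_mod_cast h
  rw [wf_one_two, ← sub_nonneg]
  rcases Nat.lt_or_ge l 3 with h3 | h3
  · interval_cases l
    · simp [C1b_wf0]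
    · rw [Nat.sub_self, C1b_wf0, C1b_wf1, C1b_wf2 _ _ (by norm_num : 2 ≤ 1 + 1)]
      have e : ((1 : ℕ) : ℝ) * (28 * ((1 + 1 : ℕ) : ℝ) / (3 * (4 * ((d + 1 : ℕ) : ℝ) + 1)) -
          3 / ((d : ℝ) + 1)) + ((1 : ℕ) : ℝ) / d * (0 - 3 / ((d : ℝ) + 1)) + ((1 : ℕ) : ℝ) / d * 1 -
          2 / 5 * (3 / ((d : ℝ) + 1)) =
          (88 * d ^ 2 - 80 * d - 150) / (15 * d * (d + 1) * (4 * d + 5)) := by
        push_cast; field_simp; ring
      rw [e]
      refine div_nonneg ?_ (by positivity)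
      nlinarith
    · show 0 ≤ ((2 : ℕ) : ℝ) * (wf 3 (d + 1) - wf 2 d) + ((2 : ℕ) : ℝ) / d * (wf 1 d - wf 2 d) +
        ((2 : ℕ) : ℝ) / d * 1 - 2 / 5 * wf 2 d
      rw [C1b_wf1, C1b_wf2 _ _ (by norm_num : 2 ≤ 3), C1b_wf2 _ _ (by norm_num : 2 ≤ 2)]
      push_cast at h'
      have e : ((2 : ℕ) : ℝ) * (28 * ((3 : ℕ) : ℝ) / (3 * (4 * ((d + 1 : ℕ) : ℝ) + 1)) -
          28 * ((2 : ℕ) : ℝ) / (3 * (4 * (d : ℝ) + 1))) +
          ((2 : ℕ) : ℝ) / d * (3 / ((d : ℝ) + 1) - 28 * ((2 : ℕ) : ℝ) / (3 * (4 * (d : ℝ) + 1))) +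
          ((2 : ℕ) : ℝ) / d * 1 - 2 / 5 * (28 * ((2 : ℕ) : ℝ) / (3 * (4 * (d : ℝ) + 1))) =
          (1152 * d ^ 3 - 1448 * d ^ 2 - 4530 * d - 2200) /
            (15 * d * (d + 1) * (4 * d + 5) * (4 * d + 1)) := by
        push_cast; field_simp; ring
      rw [e]
      refine div_nonneg ?_ (by positivity)
      nlinarith [mul_nonneg (by linarith : (0:ℝ) ≤ d - 3) hd0.le, mul_nonneg (mul_nonneg (by linarith : (0:ℝ) ≤ d - 3) hd0.le) hd0.le]
  · have hl3 : (3 : ℝ) ≤ l := by exact_mod_cast h3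
    rw [C1b_wf2 (l + 1) _ (by omega), C1b_wf2 l _ (by omega), C1b_wf2 (l - 1) _ (by omega)]
    have hc : ((l - 1 : ℕ) : ℝ) = l - 1 := by
      rw [Nat.cast_sub (by omega)]; simp
    rw [hc]
    have hl0 : (0 : ℝ) < l := by linarith
    have e : (l : ℝ) * (28 * ((l + 1 : ℕ) : ℝ) / (3 * (4 * ((d + 1 : ℕ) : ℝ) + 1)) -
        28 * (l : ℝ) / (3 * (4 * (d : ℝ) + 1))) +
        (l : ℝ) / d * (28 * ((l : ℝ) - 1) / (3 * (4 * (d : ℝ) + 1)) -
          28 * (l : ℝ) / (3 * (4 * (d : ℝ) + 1))) +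
        (l : ℝ) / d * 1 - 2 / 5 * (28 * (l : ℝ) / (3 * (4 * (d : ℝ) + 1))) =
        l * (560 * d * (d - 1 - l) + 16 * d ^ 2 + 220 * d - 625) /
          (15 * d * (4 * d + 5) * (4 * d + 1)) := by
      push_cast; field_simp; ring
    rw [e]
    refine div_nonneg ?_ (by positivity)
    apply mul_nonneg hl0.le
    nlinarith [mul_nonneg hd0.le (by linarith : (0:ℝ) ≤ d - 1 - l)]

/-- the Lyapunov weight `1 - 1/(2d)`: `μ ≤ 19/25` (reduce to `d = `-polynomial, worst case `l = d - 1`) -/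
theorem om_main {l d : ℕ} (h : l + 1 ≤ d) (hd : 2 ≤ d) :
    ((l : ℝ) + ((d : ℝ) - l) / 2) * ((1 - 1 / (2 * ((d : ℝ) + 1))) - (1 - 1 / (2 * (d : ℝ)))) +
      (l : ℝ) / d * (3 / 4) ≤ 19 / 25 * (1 - 1 / (2 * (d : ℝ))) := by
  have hd' : (2 : ℝ) ≤ d := by exact_mod_cast hd
  have hd0 : (0 : ℝ) < d := by linarith
  have h' : (l : ℝ) + 1 ≤ d := by exact_mod_cast h
  rw [← sub_nonneg]
  have e : 19 / 25 * (1 - 1 / (2 * (d : ℝ))) -
      (((l : ℝ) + ((d : ℝ) - l) / 2) * ((1 - 1 / (2 * ((d : ℝ) + 1))) - (1 - 1 / (2 * (d : ℝ)))) +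
      (l : ℝ) / d * (3 / 4)) =
      ((d ^ 2 - 12 * d + 62) + (d - 1 - l) * (25 + 75 * (d + 1))) / (100 * d * (d + 1)) := by
    field_simp; ring
  rw [e]
  refine div_nonneg ?_ (by positivity)
  have h1 : (0 : ℝ) ≤ (d : ℝ) - 1 - l := by linarith
  have : 0 ≤ ((d : ℝ) - 1 - l) * (25 + 75 * (d + 1)) := by positivity
  nlinarith [sq_nonneg ((d : ℝ) - 6)]

end RFT
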