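import Pool.Agent.H13.RF.C0

/-! Module C1a: inequalities for kap, th. -/

namespace RFT

private theorem C1a_kap2 (l : ℕ) (h : 2 ≤ l) : kap l = 9 / (5 * ((l : ℝ) + 1)) := by
  obtain ⟨k, rfl⟩ := Nat.exists_eq_add_of_le h
  rw [add_comm 2 k]
  simp only [kap]
  push_cast
  ring_nf

private theorem C1a_kap1 : kap 1 = 4 / 5 := rfl

private theorem C1a_kap0 : kap 0 = 1 := rfl

private theorem C1a_th1 (d : ℕ) : th 1 d = 12 / (25 * ((d : ℝ) + 1)) := by
  simp [th]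

private theorem C1a_th2 (l d : ℕ) (h : 2 ≤ l) : th l d = ((l : ℝ) - 2 / 5) / ((d : ℝ) + 1) := by
  have h0 : l ≠ 0 := by omega
  have h1 : l ≠ 1 := by omega
  simp [th, h0, h1]

theorem kap_pos (l : ℕ) : 0 < kap l := by
  rcases Nat.lt_or_ge l 2 with h | h
  · interval_cases l
    · rw [C1a_kap0]; norm_num
    · rw [C1a_kap1]; norm_num
  · rw [C1a_kap2 l h]; positivity

theorem kap_le_one (l : ℕ) : kap l ≤ 1 := by
  rcases Nat.lt_or_ge l 2 with h | h
  · interval_cases l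
    · rw [C1a_kap0]
    · rw [C1a_kap1]; norm_num
  · rw [C1a_kap2 l h, div_le_one (by positivity)]
    have : (2 : ℝ) ≤ l := by exact_mod_cast h
    linarith

theorem kap_le {l : ℕ} (h : 1 ≤ l) : kap l ≤ 4 / 5 := by
  rcases Nat.lt_or_ge l 2 with h' | h'
  · interval_cases l
    rw [C1a_kap1]
  · rw [C1a_kap2 l h', div_le_div_iff₀ (by positivity) (by norm_num)]
    have : (2 : ℝ) ≤ l := by exact_mod_cast h'
    linarith

theorem kap_anti (l : ℕ) : kap (l + 1) ≤ kap l := by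
  rcases Nat.lt_or_ge l 2 with h | h
  · interval_cases l
    · exact kap_le_one _
    · rw [C1a_kap1, C1a_kap2 _ (by norm_num)]; norm_num
  · rw [C1a_kap2 l h, C1a_kap2 _ (by omega)]
    push_cast
    rw [div_le_div_iff₀ (by positivity) (by positivity)]
    linarith

theorem kap_main (l d : ℕ) (h : l + 1 ≤ d) (hd : 2 ≤ d) :
    (l : ℝ) * (kap (l + 1) - kap l) + (l : ℝ) / d * (kap (l - 1) - kap l) +
      1 / (d : ℝ) * (1 - kap l) ≤ 0 := by
  have hd' : (2 : ℝ) ≤ d := by exact_mod_cast hd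
  have hd0 : (0 : ℝ) < d := by linarith
  have h' : (l : ℝ) + 1 ≤ d := by exact_mod_cast h
  rcases Nat.lt_or_ge l 3 with h3 | h3
  · interval_cases l
    · simp [C1a_kap0]
    · rw [C1a_kap2 (1 + 1) (by norm_num), C1a_kap1, C1a_kap0]
      have e : ((1 : ℕ) : ℝ) * (9 / (5 * (((1 + 1 : ℕ) : ℝ) + 1)) - 4 / 5) +
          ((1 : ℕ) : ℝ) / d * (1 - 4 / 5) + 1 / (d : ℝ) * (1 - 4 / 5) = (2 - d) / (5 * d) := by
        push_cast; field_simp; ring
      rw [e]
      exact div_nonpos_of_nonpos_of_nonneg (by linarith) (by positivity)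
    · rw [C1a_kap2 (2 + 1) (by norm_num), C1a_kap2 2 (by norm_num), C1a_kap1]
      have e : ((2 : ℕ) : ℝ) * (9 / (5 * (((2 + 1 : ℕ) : ℝ) + 1)) - 9 / (5 * (((2 : ℕ) : ℝ) + 1))) +
          ((2 : ℕ) : ℝ) / d * (4 / 5 - 9 / (5 * (((2 : ℕ) : ℝ) + 1))) +
          1 / (d : ℝ) * (1 - 9 / (5 * (((2 : ℕ) : ℝ) + 1))) = (8 - 3 * d) / (10 * d) := by
        push_cast; field_simp; ring
      rw [e]
      push_cast at h'
      exact div_nonpos_of_nonpos_of_nonneg (by linarith) (by positivity)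
  · have hl : (3 : ℝ) ≤ l := by exact_mod_cast h3
    rw [C1a_kap2 (l + 1) (by omega), C1a_kap2 l (by omega), C1a_kap2 (l - 1) (by omega)]
    have hc : ((l - 1 : ℕ) : ℝ) = l - 1 := by
      rw [Nat.cast_sub (by omega)]; simp
    rw [hc]
    push_cast
    have hl0 : (0 : ℝ) < l := by linarith
    have e : (l : ℝ) * (9 / (5 * ((l : ℝ) + 1 + 1)) - 9 / (5 * ((l : ℝ) + 1))) +
        (l : ℝ) / d * (9 / (5 * ((l : ℝ) - 1 + 1)) - 9 / (5 * ((l : ℝ) + 1))) +
        1 / (d : ℝ) * (1 - 9 / (5 * ((l : ℝ) + 1))) =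
        (-9 * l * d + 5 * (l + 1) * (l + 2)) / (5 * (l + 1) * (l + 2) * d) := by
      have : (l : ℝ) - 1 + 1 = l := by ring
      rw [this]
      field_simp
      ring
    rw [e]
    refine div_nonpos_of_nonpos_of_nonneg ?_ (by positivity)
    nlinarith

@[simp] theorem th_zero (d : ℕ) : th 0 d = 0 := by
  simp [th]

theorem th_nonneg (l d : ℕ) : 0 ≤ th l d := by
  rcases Nat.lt_or_ge l 2 with h | h
  · interval_cases l
    · simp
    · rw [C1a_th1]; positivity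
  · rw [C1a_th2 l d h]
    have : (2 : ℝ) ≤ l := by exact_mod_cast h
    exact div_nonneg (by linarith) (by positivity)

theorem th_le {l d : ℕ} (h : l + 1 ≤ d) : th l d ≤ (l : ℝ) / d := by
  have hd0 : (0 : ℝ) < d := by exact_mod_cast (by omega : 0 < d)
  rcases Nat.lt_or_ge l 2 with h2 | h2
  · interval_cases l
    · simp
    · rw [C1a_th1, div_le_div_iff₀ (by positivity) hd0]
      push_cast
      linarith
  · rw [C1a_th2 l d h2, div_le_div_iff₀ (by positivity) hd0]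
    have : (2 : ℝ) ≤ l := by exact_mod_cast h2
    nlinarith

theorem th_le_one (l d : ℕ) (h : l + 1 ≤ d) : th l d ≤ 1 := by
  have hd0 : (0 : ℝ) < d := by exact_mod_cast (by omega : 0 < d)
  have h' : (l : ℝ) + 1 ≤ d := by exact_mod_cast h
  exact (th_le h).trans ((div_le_one hd0).2 (by linarith))

theorem le_th {l d : ℕ} (h : l + 1 ≤ d) (hd : 2 ≤ d) : 8 / 25 * ((l : ℝ) / d) ≤ th l d := by
  have hd' : (2 : ℝ) ≤ d := by exact_mod_cast hd
  have hd0 : (0 : ℝ) < d := by linarith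
  rcases Nat.lt_or_ge l 2 with h2 | h2
  · interval_cases l
    · simp
    · rw [C1a_th1]
      have e : 12 / (25 * ((d : ℝ) + 1)) - 8 / 25 * (((1 : ℕ) : ℝ) / d) =
          (4 * d - 8) / (25 * (d + 1) * d) := by
        push_cast; field_simp; ring
      have : 0 ≤ (4 * (d : ℝ) - 8) / (25 * (d + 1) * d) :=
        div_nonneg (by linarith) (by positivity)
      linarith
  · rw [C1a_th2 l d h2]
    have hl : (2 : ℝ) ≤ l := by exact_mod_cast h2
    have e : ((l : ℝ) - 2 / 5) / ((d : ℝ) + 1) - 8 / 25 * ((l : ℝ) / d) =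
        (17 * l * d - 8 * l - 10 * d) / (25 * (d + 1) * d) := by
      field_simp; ring
    have : 0 ≤ (17 * (l : ℝ) * d - 8 * l - 10 * d) / (25 * (d + 1) * d) :=
      div_nonneg (by nlinarith) (by positivity)
    linarith

theorem th_one_two : th 1 2 = 4 / 25 := by
  rw [C1a_th1]; norm_num

theorem th_mono {l d : ℕ} (h : l + 1 ≤ d) (hd : 2 ≤ d) : th l d ≤ th (l + 1) (d + 1) := by
  have hd' : (2 : ℝ) ≤ d := by exact_mod_cast hd
  have hd0 : (0 : ℝ) < d := by linarith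
  have h' : (l : ℝ) + 1 ≤ d := by exact_mod_cast h
  rcases Nat.lt_or_ge l 2 with h2 | h2
  · interval_cases l
    · simpa using th_nonneg 1 (d + 1)
    · rw [C1a_th1, C1a_th2 _ _ (by norm_num), div_le_div_iff₀ (by positivity) (by positivity)]
      push_cast
      nlinarith
  · rw [C1a_th2 l d h2, C1a_th2 _ _ (by omega), div_le_div_iff₀ (by positivity) (by positivity)]
    push_cast
    nlinarith

theorem th_mono_left (l d : ℕ) : th (l - 1) d ≤ th l d := by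
  rcases Nat.lt_or_ge l 3 with h3 | h3
  · interval_cases l
    · simp
    · simpa using th_nonneg 1 d
    · show th 1 d ≤ th 2 d
      rw [C1a_th1, C1a_th2 2 d le_rfl, div_le_div_iff₀ (by positivity) (by positivity)]
      push_cast
      nlinarith [(Nat.cast_nonneg d : (0 : ℝ) ≤ d)]
  · rw [C1a_th2 l d (by omega), C1a_th2 _ _ (by omega : 2 ≤ l - 1)]
    rw [Nat.cast_sub (by omega)]
    push_cast
    exact div_le_div_of_nonneg_right (by linarith) (by positivity)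

/-- `l = 1`: `θ(2,d+1) ≥ (2 + 1/d) θ(1,d)` (equality for `d = 2`) -/
theorem th_one {d : ℕ} (hd : 2 ≤ d) : (2 + 1 / (d : ℝ)) * th 1 d ≤ th 2 (d + 1) := by
  have hd' : (2 : ℝ) ≤ d := by exact_mod_cast hd
  have hd0 : (0 : ℝ) < d := by linarith
  rw [C1a_th1, C1a_th2 _ _ le_rfl]
  have e : (((2 : ℕ) : ℝ) - 2 / 5) / (((d + 1 : ℕ) : ℝ) + 1) -
      (2 + 1 / (d : ℝ)) * (12 / (25 * ((d : ℝ) + 1))) =
      4 * (d - 2) * (4 * d + 3) / (25 * (d + 2) * d * (d + 1)) := by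
    push_cast; field_simp; ring
  have : 0 ≤ 4 * ((d : ℝ) - 2) * (4 * d + 3) / (25 * (d + 2) * d * (d + 1)) := by
    have : (0 : ℝ) ≤ d - 2 := by linarith
    positivity
  linarith

private theorem C1a_mu0 {l d : ℕ} (h : l + 1 ≤ d) (hd : 2 ≤ d) :
    0 ≤ (l : ℝ) * (th (l + 1) (d + 1) - th l d) + (l : ℝ) / d * (th (l - 1) d - th l d) := by
  have hd' : (2 : ℝ) ≤ d := by exact_mod_cast hd
  have hd0 : (0 : ℝ) < d := by linarith
  have h' : (l : ℝ) + 1 ≤ d := by exact_mod_cast h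
  rcases Nat.lt_or_ge l 3 with h3 | h3
  · interval_cases l
    · simp
    · have := th_one hd
      have h1 := th_nonneg 1 d
      have e : ((1 : ℕ) : ℝ) * (th (1 + 1) (d + 1) - th 1 d) +
          ((1 : ℕ) : ℝ) / d * (th (1 - 1) d - th 1 d) =
          (th 2 (d + 1) - (2 + 1 / (d : ℝ)) * th 1 d) + th 1 d := by
        simp only [Nat.sub_self, th_zero]
        push_cast
        norm_num
        ring
      rw [e]
      linarith
    · show 0 ≤ ((2 : ℕ) : ℝ) * (th 3 (d + 1) - th 2 d) + ((2 : ℕ) : ℝ) / d * (th 1 d - th 2 d)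
      rw [C1a_th1, C1a_th2 _ _ le_rfl, C1a_th2 _ _ (by norm_num : 2 ≤ 3)]
      have e : ((2 : ℕ) : ℝ) * ((((3 : ℕ) : ℝ) - 2 / 5) / (((d + 1 : ℕ) : ℝ) + 1) -
          (((2 : ℕ) : ℝ) - 2 / 5) / ((d : ℝ) + 1)) +
          ((2 : ℕ) : ℝ) / d * (12 / (25 * ((d : ℝ) + 1)) - (((2 : ℕ) : ℝ) - 2 / 5) / ((d : ℝ) + 1)) =
          2 * (25 * d ^ 2 - 43 * d - 56) / (25 * (d + 2) * d * (d + 1)) := by
        push_cast; field_simp; ring
      rw [e]
      push_cast at h'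
      have : (0 : ℝ) ≤ 25 * (d : ℝ) ^ 2 - 43 * d - 56 := by nlinarith
      positivity
  · have hl : (3 : ℝ) ≤ l := by exact_mod_cast h3
    rw [C1a_th2 (l + 1) _ (by omega), C1a_th2 l _ (by omega), C1a_th2 (l - 1) _ (by omega)]
    have hc : ((l - 1 : ℕ) : ℝ) = l - 1 := by
      rw [Nat.cast_sub (by omega)]; simp
    rw [hc]
    have e : (l : ℝ) * ((((l + 1 : ℕ) : ℝ) - 2 / 5) / (((d + 1 : ℕ) : ℝ) + 1) -
        ((l : ℝ) - 2 / 5) / ((d : ℝ) + 1)) +
        (l : ℝ) / d * (((l : ℝ) - 1 - 2 / 5) / ((d : ℝ) + 1) - ((l : ℝ) - 2 / 5) / ((d : ℝ) + 1)) =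
        l * (5 * d * (d - l) + 2 * d - 10) / (5 * (d + 2) * d * (d + 1)) := by
      push_cast; field_simp; ring
    rw [e]
    have : (0 : ℝ) ≤ 5 * d * (d - l) + 2 * d - 10 := by nlinarith
    positivity

private theorem C1a_mu1 {l d : ℕ} (h : l + 1 ≤ d) (hd : 2 ≤ d) :
    th l d ≤ (l : ℝ) * ((1 + 1 / d) * th (l + 1) (d + 1) - th l d) +
      (l : ℝ) / d * (th (l - 1) d - th l d) := by
  have hd' : (2 : ℝ) ≤ d := by exact_mod_cast hd
  have hd0 : (0 : ℝ) < d := by linarith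
  have h' : (l : ℝ) + 1 ≤ d := by exact_mod_cast h
  rw [← sub_nonneg]
  rcases Nat.lt_or_ge l 3 with h3 | h3
  · interval_cases l
    · simp
    · have := th_one hd
      have h1 := th_nonneg 2 (d + 1)
      have e : ((1 : ℕ) : ℝ) * ((1 + 1 / d) * th (1 + 1) (d + 1) - th 1 d) +
          ((1 : ℕ) : ℝ) / d * (th (1 - 1) d - th 1 d) - th 1 d =
          (th 2 (d + 1) - (2 + 1 / (d : ℝ)) * th 1 d) + 1 / d * th 2 (d + 1) := by
        simp only [Nat.sub_self, th_zero]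
        push_cast
        norm_num
        ring
      rw [e]
      have : 0 ≤ 1 / (d : ℝ) * th 2 (d + 1) := by positivity
      linarith
    · show 0 ≤ ((2 : ℕ) : ℝ) * ((1 + 1 / d) * th 3 (d + 1) - th 2 d) +
        ((2 : ℕ) : ℝ) / d * (th 1 d - th 2 d) - th 2 d
      rw [C1a_th1, C1a_th2 _ _ le_rfl, C1a_th2 _ _ (by norm_num : 2 ≤ 3)]
      have e : ((2 : ℕ) : ℝ) * ((1 + 1 / d) * ((((3 : ℕ) : ℝ) - 2 / 5) / (((d + 1 : ℕ) : ℝ) + 1)) -
          (((2 : ℕ) : ℝ) - 2 / 5) / ((d : ℝ) + 1)) +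
          ((2 : ℕ) : ℝ) / d * (12 / (25 * ((d : ℝ) + 1)) - (((2 : ℕ) : ℝ) - 2 / 5) / ((d : ℝ) + 1)) -
          (((2 : ℕ) : ℝ) - 2 / 5) / ((d : ℝ) + 1) =
          2 * (5 * d - 3) * (d - 3) / (25 * (d + 2) * d * (d + 1)) := by
        push_cast; field_simp; ring
      rw [e]
      push_cast at h'
      have h8 : (0 : ℝ) ≤ (d : ℝ) - 3 := by linarith
      have h9 : (0 : ℝ) ≤ 5 * (d : ℝ) - 3 := by linarith
      positivity
  · have hl : (3 : ℝ) ≤ l := by exact_mod_cast h3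
    rw [C1a_th2 (l + 1) _ (by omega), C1a_th2 l _ (by omega), C1a_th2 (l - 1) _ (by omega)]
    have hc : ((l - 1 : ℕ) : ℝ) = l - 1 := by
      rw [Nat.cast_sub (by omega)]; simp
    rw [hc]
    have e : (l : ℝ) * ((1 + 1 / d) * ((((l + 1 : ℕ) : ℝ) - 2 / 5) / (((d + 1 : ℕ) : ℝ) + 1)) -
        ((l : ℝ) - 2 / 5) / ((d : ℝ) + 1)) +
        (l : ℝ) / d * (((l : ℝ) - 1 - 2 / 5) / ((d : ℝ) + 1) - ((l : ℝ) - 2 / 5) / ((d : ℝ) + 1)) -
        ((l : ℝ) - 2 / 5) / ((d : ℝ) + 1) =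
        (2 * d ^ 2 + 4 * d + 5 * l ^ 2 - 7 * l - 5 * l * d) / (5 * (d + 2) * d * (d + 1)) := by
      push_cast; field_simp; ring
    rw [e]
    have : (0 : ℝ) ≤ 2 * (d : ℝ) ^ 2 + 4 * d + 5 * l ^ 2 - 7 * l - 5 * l * d := by
      nlinarith [sq_nonneg (4 * (d : ℝ) + 4 - 5 * l), sq_nonneg ((l : ℝ) - 3)]
    positivity

/-- subharmonicity -/
theorem th_sub {l d : ℕ} (h : l + 1 ≤ d) (hd : 2 ≤ d) :
    0 ≤ (l : ℝ) * (th (l + 1) (d + 1) - th l d) + (l : ℝ) / d * (th (l - 1) d - th l d) :=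
  C1a_mu0 h hd

/-- the stronger inequality used for the lower bound of `p_k`; linear in `μ`, so enough for `μ = 0`
(`th_sub`) and `μ = 1` (equality at `(l,d) = (1,2), (2,3)`) -/
theorem th_mu {l d : ℕ} (h : l + 1 ≤ d) (hd : 2 ≤ d) {μ : ℝ} (h0 : 0 ≤ μ) (h1 : μ ≤ 1) :
    μ * th l d ≤ (l : ℝ) * ((1 + μ / d) * th (l + 1) (d + 1) - th l d) +
      (l : ℝ) / d * (th (l - 1) d - th l d) := by
  have a := C1a_mu0 h hd
  have b := C1a_mu1 h hd
  have e : (l : ℝ) * ((1 + μ / d) * th (l + 1) (d + 1) - th l d) +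
      (l : ℝ) / d * (th (l - 1) d - th l d) =
      (1 - μ) * ((l : ℝ) * (th (l + 1) (d + 1) - th l d) + (l : ℝ) / d * (th (l - 1) d - th l d)) +
      μ * ((l : ℝ) * ((1 + 1 / d) * th (l + 1) (d + 1) - th l d) +
      (l : ℝ) / d * (th (l - 1) d - th l d)) := by
    ring
  rw [e]
  have c1 := mul_nonneg (by linarith : 0 ≤ 1 - μ) a
  have c2 := mul_le_mul_of_nonneg_left b h0
  linarith

end RFT
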