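import Pool.Agent.H13.RF.D1a

/-! Module D1b: the half-tree without input. -/

namespace RFT

open Finset RT

theorem gz_zero (f : RT Unit → ℝ) (B : RT Unit) : gz f 0 B = f B := by
  unfold gz
  rw [Ker.sg_zero]

theorem D1b_sg {f : RT Unit → ℝ} {M : ℝ} (h : ∀ B, |f B| ≤ M * (B.size : ℝ)) {t : ℝ} (ht : 0 ≤ t) :
    (Env.zero.ker Unit).sg t (fun x => f x.1) = fun x => gz f t x.1 := by
  funext x
  exact gz_indep h ht x.1 x.2

theorem D1b_L (g : RT Unit → ℝ) (x : RT Unit × ℕ) :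
    (Env.zero.ker Unit).L (fun y => g y.1) x = gen g x.1 := by
  rw [pairL_fst]
  show gen g x.1 + 0 * (g (msg x.1) - g x.1) = gen g x.1
  ring

theorem gz_hasDerivAt {f : RT Unit → ℝ} {M : ℝ} (h : ∀ B, |f B| ≤ M * (B.size : ℝ)) {t : ℝ}
    (ht : 0 < t) (B : RT Unit) :
    HasDerivAt (fun s => gz f s B) (gen (gz f t) B) t := by
  have h1 := (Env.zero.ker Unit).hasDerivAt_sg (Gr_fst Env.zero h) (B, 0) ht
  rw [D1b_sg h ht.le, D1b_L] at h1
  exact h1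

theorem gz_continuousOn {f : RT Unit → ℝ} {M : ℝ} (h : ∀ B, |f B| ≤ M * (B.size : ℝ))
    (B : RT Unit) : ContinuousOn (fun s => gz f s B) (Set.Ici 0) :=
  (Env.zero.ker Unit).continuousOn_sg (Gr_fst Env.zero h) (B, 0)

/-- linear growth (`sg_le_exp` with `size`: the generator of the total size `x.1.size + x.2` is itself) -/
theorem abs_gz_le {f : RT Unit → ℝ} {M : ℝ} (h : ∀ B, |f B| ≤ M * (B.size : ℝ)) {t : ℝ}
    (ht : 0 ≤ t) (B : RT Unit) : |gz f t B| ≤ M * Real.exp t * (B.size : ℝ) := by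
  have hM := D1a_bound_nonneg h
  set k := Env.zero.ker Unit with hk
  have hlev : k.Gr (fun x => (k.lev x : ℝ)) := Ker.Gr.of_lin k (M := 1) fun x => by
    rw [abs_of_nonneg (Nat.cast_nonneg _)]
    linarith
  have hL : ∀ x, k.L (fun x => (k.lev x : ℝ)) x = (k.lev x : ℝ) := by
    intro x
    have h1 : k.P (fun x => (k.lev x : ℝ)) x = k.P (fun _ => ((k.lev x : ℝ) + 1) * 1) x := by
      apply k.P_congr
      intro y hy
      rw [hy]
      push_cast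
      ring
    unfold Ker.L
    rw [h1, k.P_smul, Env.ker_one]
    ring
  have h2 : k.sg t (fun x => (k.lev x : ℝ)) (B, 0) ≤ Real.exp (1 * t) * (k.lev (B, 0) : ℝ) :=
    k.sg_le_exp k.closed_univ hlev (fun x _ => by rw [hL, one_mul]) ht (Set.mem_univ _)
  have h3 : (k.lev (B, 0) : ℝ) = (B.size : ℝ) := by
    show ((B.size + 0 : ℕ) : ℝ) = _
    simp
  rw [one_mul, h3] at h2
  have hle : ∀ x : RT Unit × ℕ, |f x.1| ≤ M * (k.lev x : ℝ) := by
    intro x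
    refine (h x.1).trans (mul_le_mul_of_nonneg_left ?_ hM)
    show (x.1.size : ℝ) ≤ ((x.1.size + x.2 : ℕ) : ℝ)
    push_cast
    have : (0 : ℝ) ≤ (x.2 : ℝ) := by positivity
    linarith
  have hfG := Gr_fst (α := Unit) Env.zero h
  have hMG := Ker.Gr.smul k hlev M
  have hMG' := Ker.Gr.smul k hlev (-M)
  rw [abs_le]
  constructor
  · have h4 := k.sg_mono k.closed_univ hMG' hfG
      (fun y _ => by have := (abs_le.1 (hle y)).1; linarith) ht (Set.mem_univ (B, 0))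
    rw [k.sg_smul] at h4
    have h5 : gz f t B = k.sg t (fun x => f x.1) (B, 0) := rfl
    rw [h5]
    nlinarith
  · have h4 := k.sg_mono k.closed_univ hfG hMG
      (fun y _ => (abs_le.1 (hle y)).2) ht (Set.mem_univ (B, 0))
    rw [k.sg_smul] at h4
    have h5 : gz f t B = k.sg t (fun x => f x.1) (B, 0) := rfl
    rw [h5]
    nlinarith

/-- semigroup property -/
theorem gz_add {f : RT Unit → ℝ} {M : ℝ} (h : ∀ B, |f B| ≤ M * (B.size : ℝ)) {t s : ℝ}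
    (ht : 0 ≤ t) (hs : 0 ≤ s) (B : RT Unit) : gz f (t + s) B = gz (gz f s) t B := by
  have h1 := (Env.zero.ker Unit).sg_add (Gr_fst Env.zero h) ht hs (B, 0)
  rw [D1b_sg h hs] at h1
  exact h1

theorem gz_mono {f g : RT Unit → ℝ} {M : ℝ} (hf : ∀ B, |f B| ≤ M * (B.size : ℝ))
    (hg : ∀ B, |g B| ≤ M * (B.size : ℝ)) (h : ∀ B, B.nk ≠ 0 → f B ≤ g B) {t : ℝ}
    (ht : 0 ≤ t) {B : RT Unit} (hB : B.nk ≠ 0) : gz f t B ≤ gz g t B :=
  (Env.zero.ker Unit).sg_mono (closed_nk Env.zero) (Gr_fst Env.zero hf) (Gr_fst Env.zero hg)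
    (fun y hy => h y.1 hy) ht (x := (B, 0)) hB

theorem gz_nonneg {f : RT Unit → ℝ} (h : ∀ B, B.nk ≠ 0 → 0 ≤ f B) {t : ℝ}
    (ht : 0 ≤ t) {B : RT Unit} (hB : B.nk ≠ 0) : 0 ≤ gz f t B :=
  (Env.zero.ker Unit).sg_nonneg (closed_nk Env.zero) (fun y hy => h y.1 hy) ht (x := (B, 0)) hB

theorem gz_smul (f : RT Unit → ℝ) (r t : ℝ) (B : RT Unit) :
    gz (fun c => r * f c) t B = r * gz f t B :=
  (Env.zero.ker Unit).sg_smul (fun x => f x.1) r t (B, 0)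

/-- subsolutions constant in time: `gen f ≥ a f` on non-leaf half-trees -/
theorem exp_le_gz {f : RT Unit → ℝ} {M a : ℝ} (hf : ∀ B, |f B| ≤ M * (B.size : ℝ))
    (h : ∀ B, B.nk ≠ 0 → a * f B ≤ gen f B) {t : ℝ} (ht : 0 ≤ t) {B : RT Unit} (hB : B.nk ≠ 0) :
    Real.exp (a * t) * f B ≤ gz f t B :=
  (Env.zero.ker Unit).exp_le_sg (closed_nk Env.zero) (Gr_fst Env.zero hf)
    (fun y hy => by rw [D1b_L]; exact h y.1 hy) ht (x := (B, 0)) hB

theorem gz_le_exp {f : RT Unit → ℝ} {M a : ℝ} (hf : ∀ B, |f B| ≤ M * (B.size : ℝ))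
    (h : ∀ B, B.nk ≠ 0 → gen f B ≤ a * f B) {t : ℝ} (ht : 0 ≤ t) {B : RT Unit} (hB : B.nk ≠ 0) :
    gz f t B ≤ Real.exp (a * t) * f B :=
  (Env.zero.ker Unit).sg_le_exp (closed_nk Env.zero) (Gr_fst Env.zero hf)
    (fun y hy => by rw [D1b_L]; exact h y.1 hy) ht (x := (B, 0)) hB

end RFT
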