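import Pool.Agent.H13.RF.A5
import Pool.Agent.H13.RF.B4

/-! Module D1a: the inert environment does not matter. -/

namespace RFT

open Finset RT

/-- expectation of `f (B_t)` for the half-tree without input -/
noncomputable def gz (f : RT Unit → ℝ) (t : ℝ) (B : RT Unit) : ℝ :=
  (Env.zero.ker Unit).sg t (fun x => f x.1) (B, 0)

theorem D1a_bound_nonneg {f : RT Unit → ℝ} {M : ℝ} (h : ∀ B, |f B| ≤ M * (B.size : ℝ)) : 0 ≤ M := by
  have h1 := (abs_nonneg (f leaf)).trans (h leaf)
  simpa using h1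

/-- polynomial growth of a function of a half-tree carries over to pairs -/
theorem Gr_fst {E α : Type} [Rule α] (𝓔 : Env E) {f : RT α → ℝ} {M : ℝ}
    (h : ∀ B, |f B| ≤ M * (B.size : ℝ)) : (𝓔.ker α).Gr (fun x => f x.1) := by
  have hM : 0 ≤ M := by
    have h1 := (abs_nonneg (f leaf)).trans (h leaf)
    simpa using h1
  refine Ker.Gr.of_lin (𝓔.ker α) (M := M) fun x => (h x.1).trans ?_
  refine mul_le_mul_of_nonneg_left ?_ hM
  show (x.1.size : ℝ) ≤ ((x.1.size + 𝓔.lev x.2 : ℕ) : ℝ) + 1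
  push_cast
  have : (0 : ℝ) ≤ (𝓔.lev x.2 : ℝ) := by positivity
  linarith

theorem D1a_asc {a b : ℕ} (h : a ≤ b) (p : ℕ) : a.ascFactorial p ≤ b.ascFactorial p := by
  induction p with
  | zero => simp
  | succ p ih =>
    rw [Nat.ascFactorial_succ, Nat.ascFactorial_succ]
    exact Nat.mul_le_mul (by omega) ih

/-- the kernel with the additional transition `(B, e) → (B, e + 1)` of rate one -/
noncomputable def D1a_ker : Ker (RT Unit × ℕ) where
  lev x := x.1.size + x.2
  P u x := Env.zero.pairP u x + 1 * u (x.1, x.2 + 1)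
  c := 1
  rep x := (pairP_rep Env.zero x).add (Rep.single 1 zero_le_one (x.1, x.2 + 1) (by
    show x.1.size + (x.2 + 1) = x.1.size + x.2 + 1
    ring))
  tot x := by
    have h1 := Env.ker_one Env.zero Unit x
    have h2 : Env.zero.pairP (fun _ => 1) x = ((x.1.size + x.2 : ℕ) : ℝ) := h1
    rw [h2]
    push_cast
    linarith

/-- The inert environment does not matter.  Let `u t (B,e) = sg t f (B,e)` and `D t (B,e) = u t (B,e+1) - u t (B,e)`.
Then `D' = L D + D(·,e+1)` (transition `(B,e) → (B,e+1)` with rate one added): apply the comparison principle to `D`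
and `-D` for the kernel with this additional transition (`c = 1`). -/
theorem gz_indep {f : RT Unit → ℝ} {M : ℝ} (h : ∀ B, |f B| ≤ M * (B.size : ℝ)) {t : ℝ} (ht : 0 ≤ t)
    (B : RT Unit) (e : ℕ) : (Env.zero.ker Unit).sg t (fun x => f x.1) (B, e) = gz f t B := by
  set k := Env.zero.ker Unit with hk
  have hGr : k.Gr (fun x => f x.1) := Gr_fst Env.zero h
  have key : ∀ (x : RT Unit × ℕ),
      k.sg t (fun x => f x.1) (x.1, x.2 + 1) - k.sg t (fun x => f x.1) x = 0 := by
    intro x
    have h1 := D1a_ker.eq_sg D1a_ker.closed_univ (f := fun _ => (0 : ℝ))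
      (Ker.Gr.const D1a_ker 0)
      (b := fun t x => k.sg t (fun x => f x.1) (x.1, x.2 + 1) - k.sg t (fun x => f x.1) x)
      ?_ ?_ ?_ ?_ x (Set.mem_univ x) t ht
    · rw [h1]
      have h2 := D1a_ker.sg_smul (fun _ => (0 : ℝ)) 0 t x
      simpa using h2
    · intro y _
      show k.sg 0 (fun x => f x.1) (y.1, y.2 + 1) - k.sg 0 (fun x => f x.1) y = 0
      rw [k.sg_zero, k.sg_zero]
      simp
    · intro y _
      exact (k.continuousOn_sg hGr (y.1, y.2 + 1)).sub (k.continuousOn_sg hGr y)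
    · intro y _ s hs
      have h3 := (k.hasDerivAt_sg hGr (y.1, y.2 + 1) hs).sub (k.hasDerivAt_sg hGr y hs)
      refine h3.congr_deriv ?_
      set u := k.sg s (fun x => f x.1) with hu
      have e1 : D1a_ker.L (fun x => u (x.1, x.2 + 1) - u x) y =
          Env.zero.pairP (fun x => u (x.1, x.2 + 1) - u x) y +
            1 * (u (y.1, y.2 + 1 + 1) - u (y.1, y.2 + 1)) -
            ((y.1.size + y.2 : ℕ) : ℝ) * (u (y.1, y.2 + 1) - u y) := rfl
      have e2 : k.L u (y.1, y.2 + 1) = Env.zero.pairP u (y.1, y.2 + 1) -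
          ((y.1.size + (y.2 + 1) : ℕ) : ℝ) * u (y.1, y.2 + 1) := rfl
      have e3 : k.L u y = Env.zero.pairP u y - ((y.1.size + y.2 : ℕ) : ℝ) * u y := rfl
      have e4 : Env.zero.pairP (fun x => u (x.1, x.2 + 1) - u x) y =
          Env.zero.pairP (fun x => u (x.1, x.2 + 1)) y - Env.zero.pairP u y :=
        k.P_sub (fun x => u (x.1, x.2 + 1)) u y
      have e5 : Env.zero.pairP u (y.1, y.2 + 1) =
          Env.zero.pairP (fun x => u (x.1, x.2 + 1)) y + u (y.1, y.2 + 1 + 1) := by
        have a1 : Env.zero.pairP u (y.1, y.2 + 1) = Q y.1 (fun c => u (c, y.2 + 1)) +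
            ((y.2 + 1 : ℕ) : ℝ) * u (y.1, y.2 + 1 + 1) + upr y.1 * u (y.1, y.2 + 1 + 1) +
            0 * u (msg y.1, y.2 + 1) := rfl
        have a2 : Env.zero.pairP (fun x => u (x.1, x.2 + 1)) y = Q y.1 (fun c => u (c, y.2 + 1)) +
            (y.2 : ℝ) * u (y.1, y.2 + 1 + 1) + upr y.1 * u (y.1, y.2 + 1 + 1) +
            0 * u (msg y.1, y.2 + 1) := rfl
        rw [a1, a2]
        push_cast
        ring
      rw [e1, e2, e3, e4, e5]
      push_cast
      ring
    · have hV : ∀ (p : ℕ) (y : RT Unit × ℕ), k.V p y ≤ D1a_ker.V p y := by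
        intro p y
        show (((y.1.size + y.2 + 0 + 1).ascFactorial p : ℕ) : ℝ) ≤
          (((y.1.size + y.2 + 1 + 1).ascFactorial p : ℕ) : ℝ)
        exact_mod_cast D1a_asc (by omega) p
      have hV2 : ∀ (p : ℕ) (y : RT Unit × ℕ), k.V p (y.1, y.2 + 1) ≤ D1a_ker.V p y := by
        intro p y
        show (((y.1.size + (y.2 + 1) + 0 + 1).ascFactorial p : ℕ) : ℝ) ≤
          (((y.1.size + y.2 + 1 + 1).ascFactorial p : ℕ) : ℝ)
        exact_mod_cast D1a_asc (by omega) p
      intro T hT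
      obtain ⟨C, p, hC⟩ := Ker.TGr.sg k hGr Set.univ T hT
      refine ⟨2 * max C 0, p, fun y _ s hs => ?_⟩
      have b1 := hC (y.1, y.2 + 1) (Set.mem_univ _) s hs
      have b2 := hC y (Set.mem_univ _) s hs
      have b3 : C * k.V p (y.1, y.2 + 1) ≤ max C 0 * D1a_ker.V p y :=
        (mul_le_mul_of_nonneg_right (le_max_left _ _) (k.V_pos p _).le).trans
          (mul_le_mul_of_nonneg_left (hV2 p y) (le_max_right _ _))
      have b4 : C * k.V p y ≤ max C 0 * D1a_ker.V p y :=
        (mul_le_mul_of_nonneg_right (le_max_left _ _) (k.V_pos p _).le).trans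
          (mul_le_mul_of_nonneg_left (hV p y) (le_max_right _ _))
      have b5 := abs_sub (k.sg s (fun x => f x.1) (y.1, y.2 + 1)) (k.sg s (fun x => f x.1) y)
      show |k.sg s (fun x => f x.1) (y.1, y.2 + 1) - k.sg s (fun x => f x.1) y| ≤
        2 * max C 0 * D1a_ker.V p y
      linarith
  induction e with
  | zero => rfl
  | succ e ih =>
    have h1 := key (B, e)
    rw [← ih]
    exact sub_eq_zero.1 h1

end RFT
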