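import Pool.Agent.H13.RF.D1
import Pool.Agent.H13.RF.C1

/-! Module D2: the function `Γ` (expected number of non-leaves of a fresh half-tree without input). -/

namespace RFT

open Finset RT

/-- expected number of non-leaves without input -/
noncomputable def g1 (t : ℝ) (B : RT Unit) : ℝ := gz pop t B

/-- `Γ` -/
noncomputable def Gam (t : ℝ) : ℝ := g1 t fresh

/-- the generator commutes with the semigroup (`sg_L`, `pairL_fst` with `snd = 0`) -/
theorem gen_gz {f : RT Unit → ℝ} {M : ℝ} (h : ∀ B, |f B| ≤ M * (B.size : ℝ)) {t : ℝ} (ht : 0 ≤ t)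
    (B : RT Unit) : gen (gz f t) B = gz (gen f) t B := by
  have h1 := (Env.zero.ker Unit).sg_L (Gr_fst Env.zero h) ht (B, 0)
  rw [D1b_sg h ht, D1b_L] at h1
  rw [← h1]
  unfold gz
  congr 1
  funext x
  exact D1b_L f x

theorem abs_pop_le (B : RT Unit) : |pop B| ≤ 1 * (B.size : ℝ) := by
  rw [abs_of_nonneg (pop_nonneg B), one_mul]
  exact pop_le_size B

theorem g1_nonneg {t : ℝ} (ht : 0 ≤ t) (B : RT Unit) : 0 ≤ g1 t B :=
  (Env.zero.ker Unit).sg_nonneg (Env.zero.ker Unit).closed_univ (fun y _ => pop_nonneg y.1) ht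
    (x := (B, 0)) (Set.mem_univ _)

theorem D2_gen_pop_nonneg {B : RT Unit} (hB : B.nk ≠ 0) : 0 ≤ gen pop B := by
  rw [gen_pop B hB]
  have h1 := asum_mono (g := fun _ _ => (0 : ℝ)) (h := fun l d => (l : ℝ) / d)
    (fun l d _ _ => by positivity) B
  have h2 : asum (fun _ _ => (0 : ℝ)) B = 0 := by
    have := asum_smul 0 (fun _ _ => (0 : ℝ)) B
    simpa using this
  linarith

theorem D2_gen_pop_le {B : RT Unit} (hB : B.nk ≠ 0) : gen pop B ≤ pop B := by
  rw [gen_pop B hB]
  refine asum_mono (fun l d h hd => ?_) B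
  have hd0 : (0 : ℝ) < d := by exact_mod_cast (by omega : 0 < d)
  rw [div_le_one hd0]
  exact_mod_cast (by omega : l ≤ d)

theorem D2_gen_pop_zero {B : RT Unit} (hB : B.nk = 0) : gen pop B = 0 := by
  unfold gen
  rw [Q_nk_zero hB]
  have h1 : pop B = 0 := asum_of_nk_zero _ hB
  rw [h1]
  ring

theorem D2_abs_gen_pop (B : RT Unit) : |gen pop B| ≤ 1 * (B.size : ℝ) := by
  by_cases hB : B.nk = 0
  · rw [D2_gen_pop_zero hB, abs_zero]
    positivity
  · rw [abs_of_nonneg (D2_gen_pop_nonneg hB), one_mul]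
    exact (D2_gen_pop_le hB).trans (pop_le_size B)

/-- `gen pop = asum (l/d) ≥ 0` -/
theorem pop_le_g1 {t : ℝ} (ht : 0 ≤ t) {B : RT Unit} (hB : B.nk ≠ 0) : pop B ≤ g1 t B := by
  have h1 := exp_le_gz (a := 0) abs_pop_le
    (fun B hB => by rw [zero_mul]; exact D2_gen_pop_nonneg hB) ht hB
  rw [zero_mul, Real.exp_zero, one_mul] at h1
  exact h1

theorem D2_pop_fresh : pop (fresh : RT Unit) = 1 := asum_fresh _

theorem one_le_Gam {t : ℝ} (ht : 0 ≤ t) : 1 ≤ Gam t := by
  have h1 := pop_le_g1 ht (B := fresh) (by simp)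
  rw [D2_pop_fresh] at h1
  exact h1

theorem Gam_hasDerivAt {t : ℝ} (ht : 0 < t) : HasDerivAt Gam (gen (g1 t) fresh) t :=
  gz_hasDerivAt abs_pop_le ht fresh

theorem Gam_continuousOn : ContinuousOn Gam (Set.Ici 0) :=
  gz_continuousOn abs_pop_le fresh

theorem Gam_deriv_nonneg {t : ℝ} (ht : 0 < t) : 0 ≤ gen (g1 t) fresh := by
  have h1 : gen (g1 t) fresh = gz (gen pop) t fresh := gen_gz abs_pop_le ht.le fresh
  rw [h1]
  exact gz_nonneg (fun B hB => D2_gen_pop_nonneg hB) ht.le (by simp)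

/-- `gen pop ≤ pop` -/
theorem Gam_deriv_le {t : ℝ} (ht : 0 < t) : gen (g1 t) fresh ≤ Gam t := by
  have h1 : gen (g1 t) fresh = gz (gen pop) t fresh := gen_gz abs_pop_le ht.le fresh
  rw [h1]
  exact gz_mono D2_abs_gen_pop abs_pop_le (fun B hB => D2_gen_pop_le hB) ht.le (by simp)

theorem Gam_mono {s t : ℝ} (hs : 0 ≤ s) (h : s ≤ t) : Gam s ≤ Gam t := by
  have hmono : MonotoneOn Gam (Set.Ici 0) := by
    apply monotoneOn_of_deriv_nonneg (convex_Ici 0) Gam_continuousOn
    · intro u hu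
      rw [interior_Ici] at hu
      exact (Gam_hasDerivAt hu).differentiableAt.differentiableWithinAt
    · intro u hu
      rw [interior_Ici] at hu
      rw [(Gam_hasDerivAt hu).deriv]
      exact Gam_deriv_nonneg hu
  exact hmono hs (Set.mem_Ici.2 (hs.trans h)) h

theorem Gam_le {s t : ℝ} (hs : 0 ≤ s) (h : s ≤ t) : Gam t ≤ Real.exp (t - s) * Gam s := by
  have hd : ∀ u : ℝ, 0 < u → HasDerivAt (fun u => Real.exp (-u) * Gam u)
      (Real.exp (-u) * (-1) * Gam u + Real.exp (-u) * gen (g1 u) fresh) u := by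
    intro u hu
    have h4 : HasDerivAt (fun t : ℝ => Real.exp (-t)) (Real.exp (-u) * (-1)) u := by
      have := (hasDerivAt_neg u).exp
      simpa using this
    exact h4.mul (Gam_hasDerivAt hu)
  have hanti : AntitoneOn (fun u => Real.exp (-u) * Gam u) (Set.Ici 0) := by
    apply antitoneOn_of_deriv_nonpos (convex_Ici 0)
    · exact (Continuous.continuousOn (by fun_prop)).mul Gam_continuousOn
    · intro u hu
      rw [interior_Ici] at hu
      exact (hd u hu).differentiableAt.differentiableWithinAt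
    · intro u hu
      rw [interior_Ici] at hu
      rw [(hd u hu).deriv]
      have h1 := mul_le_mul_of_nonneg_left (Gam_deriv_le hu) (Real.exp_pos (-u)).le
      linarith
  have h1 := hanti hs (Set.mem_Ici.2 (hs.trans h)) h
  have h2 := mul_le_mul_of_nonneg_left h1 (Real.exp_pos t).le
  have h3 : Real.exp t * (Real.exp (-t) * Gam t) = Gam t := by
    rw [← mul_assoc, ← Real.exp_add, add_neg_cancel, Real.exp_zero, one_mul]
  have h4 : Real.exp t * (Real.exp (-s) * Gam s) = Real.exp (t - s) * Gam s := by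
    rw [← mul_assoc, ← Real.exp_add, sub_eq_add_neg]
  have h5 : Real.exp t * (Real.exp (-t) * Gam t) ≤ Real.exp t * (Real.exp (-s) * Gam s) := h2
  rwa [h3, h4] at h5

/-- linear bound for vertex sums -/
theorem D2_abs_asum {g : ℕ → ℕ → ℝ} {M : ℝ} (hM : 0 ≤ M) (h : ∀ l d, l + 1 ≤ d → |g l d| ≤ M)
    (B : RT Unit) : |asum g B| ≤ M * (B.size : ℝ) :=
  (abs_asum_le h B).trans (mul_le_mul_of_nonneg_left (pop_le_size B) hM)

/-- growth of the weight `wf`: `Γ t ≥ (3/7) exp(2t/5)` (`exp_le_gz`, `gen_asum_ge` with `wf_main`,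
`wf ≤ 7/3`) -/
theorem Gam_growth {t : ℝ} (ht : 0 ≤ t) : 3 / 7 * Real.exp (2 / 5 * t) ≤ Gam t := by
  have hb : ∀ B : RT Unit, |asum wf B| ≤ 7 / 3 * (B.size : ℝ) :=
    D2_abs_asum (by norm_num) fun l d h => by
      rw [abs_of_nonneg (wf_nonneg l d)]
      exact wf_le h
  have h1 : Real.exp (2 / 5 * t) * asum wf (fresh : RT Unit) ≤ gz (asum wf) t fresh := by
    refine exp_le_gz hb (fun B hB => ?_) ht (by simp)
    rw [← asum_smul]
    refine gen_asum_ge (g := wf) (a := fun l d => 2 / 5 * wf l d) (fun l d h hd => ?_)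
      (fun l d h hd => wf_mono h hd) B hB
    exact wf_main h hd
  rw [asum_fresh, wf_one_two, mul_one] at h1
  have h2 : gz (asum wf) t fresh ≤ gz (fun B => 7 / 3 * pop B) t fresh := by
    refine gz_mono hb (g := fun B => 7 / 3 * pop B) (fun B => ?_) (fun B _ => ?_) ht (by simp)
    · rw [abs_of_nonneg (mul_nonneg (by norm_num) (pop_nonneg B))]
      exact mul_le_mul_of_nonneg_left (pop_le_size B) (by norm_num)
    · show asum wf B ≤ 7 / 3 * pop B
      unfold pop
      rw [← asum_smul]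
      exact asum_mono (fun l d h _ => by rw [mul_one]; exact wf_le h) B
  rw [gz_smul] at h2
  have h3 : gz pop t fresh = Gam t := rfl
  rw [h3] at h2
  linarith

/-- `E asum th (B_t) ≥ (4/25) E pop (B_t)` from the fresh half-tree: the generator of
`asum (th - 4/25)` is nonnegative (`th_sub`, `th_mono`, `th_one_two`) and it vanishes at `fresh` -/
theorem gz_th_ge {t : ℝ} (ht : 0 ≤ t) : 4 / 25 * Gam t ≤ gz (asum th) t fresh := by
  have hb : ∀ B : RT Unit, |asum th B| ≤ 1 * (B.size : ℝ) :=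
    D2_abs_asum (by norm_num) fun l d h => by
      rw [abs_of_nonneg (th_nonneg l d)]
      exact th_le_one l d h
  have hb2 : ∀ B : RT Unit, |asum (fun l d => th l d - 4 / 25) B| ≤ 1 * (B.size : ℝ) :=
    D2_abs_asum (by norm_num) fun l d h => by
      have h1 := th_nonneg l d
      have h2 := th_le_one l d h
      rw [abs_le]
      constructor <;> linarith
  have h1 := exp_le_gz (a := 0) hb2 (fun B hB => by
    rw [zero_mul]
    have h3 : asum (fun _ _ => (0 : ℝ)) B = 0 := by
      have := asum_smul 0 (fun _ _ => (0 : ℝ)) B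
      simpa using this
    rw [← h3]
    refine gen_asum_ge (g := fun l d => th l d - 4 / 25) (fun l d h hd => ?_) (fun l d h hd => ?_) B hB
    · unfold loc
      simp only [th_one_two]
      have := th_sub h hd
      linarith
    · have := th_mono h hd
      linarith) ht (B := fresh) (by simp)
  rw [zero_mul, Real.exp_zero, one_mul, asum_fresh, th_one_two] at h1
  have h2 : gz (asum (fun l d => th l d - 4 / 25)) t fresh =
      gz (asum th) t fresh - 4 / 25 * Gam t := by
    have e1 : (fun x : RT Unit × ℕ => asum (fun l d => th l d - 4 / 25) x.1) =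
        fun x => asum th x.1 - 4 / 25 * pop x.1 := by
      funext x
      have := asum_add_fun th (fun l d => -(4 / 25) * ((fun _ _ => (1 : ℝ)) l d)) x.1
      rw [asum_smul] at this
      have e2 : (fun l d => th l d - 4 / 25) =
          fun l d => th l d + -(4 / 25) * ((fun _ _ => (1 : ℝ)) l d) := by
        funext l d
        ring
      rw [e2, this]
      unfold pop
      ring
    show (Env.zero.ker Unit).sg t (fun x => asum (fun l d => th l d - 4 / 25) x.1) (fresh, 0) = _
    rw [e1, Ker.sg_sub_fun _ (Gr_fst Env.zero hb)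
      (Ker.Gr.smul _ (Gr_fst Env.zero abs_pop_le) (4 / 25)) ht, Ker.sg_smul]
    rfl
  rw [h2] at h1
  linarith

end RFT
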