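import Pool.Agent.H13.RF.D3a

/-! Module D3b: the lower Harnack bound. -/

namespace RFT

open Finset RT

theorem lo_hasDerivAt (c : ℝ) {t : ℝ} (ht : 0 < t) (B : RT Bool) :
    HasDerivAt (fun s => lo c s B) (lo' c t B) t := by
  refine fl_hasDerivAt (G := fun s l d => c * Gam s * th l d) (g := g1)
    (fun l d => ?_) (fun C => ?_) B
  · exact ((Gam_hasDerivAt ht).const_mul c).mul_const (th l d)
  · exact gz_hasDerivAt abs_pop_le ht C

theorem lo_continuousOn (c : ℝ) (B : RT Bool) :
    ContinuousOn (fun s => lo c s B) (Set.Ici 0) := by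
  refine fl_continuousOn (G := fun s l d => c * Gam s * th l d) (g := g1)
    (fun l d => ?_) (fun C => ?_) B
  · exact (continuousOn_const.mul Gam_continuousOn).mul continuousOn_const
  · exact gz_continuousOn abs_pop_le C

private theorem D3b_nl (a : Bool) (n : ℕ) (K : Fin n → RT Bool) :
    nl (node a n K) + 1 ≤ n + 1 := by
  have h := nl_le_nk (node a n K)
  simp only [nk_node] at h
  omega

private theorem D3b_kap (l : ℕ) : 0 ≤ 1 - kap l ∧ 1 - kap l ≤ 1 := by
  have h1 := kap_pos l
  have h2 := kap_le_one l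
  constructor <;> linarith

private theorem D3b_Gam_zero : Gam 0 = 1 := by
  show gz pop 0 fresh = 1
  rw [gz_zero]
  exact asum_fresh _

theorem lo_zero_le {c : ℝ} (hc1 : c ≤ 1) (B : RT Bool) (hB : B.nk ≠ 0) :
    lo c 0 B ≤ pop B := by
  induction B with
  | node a n K ih =>
    have h0 : lo c 0 (node a n K) = _ := fl_node _ _ _ _ a n K
    have h1 : pop (node a n K) = 1 + ∑ i, pop (K i) := asum_node _ a n K hB
    rw [h0, h1]
    apply add_le_add
    · rw [D3b_Gam_zero, mul_one]
      have h2 := th_nonneg (nl (node a n K)) (n + 1)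
      have h3 := th_le_one (nl (node a n K)) (n + 1) (D3b_nl a n K)
      nlinarith
    · apply sum_le_sum
      intro i _
      split
      · exact pop_nonneg _
      · rename_i hi
        split
        · exact ih i hi
        · have h2 : g1 0 (fg (K i)) = pop (K i) := by
            show gz pop 0 (fg (K i)) = _
            rw [gz_zero]
            exact asum_fg _ _
          rw [h2, zero_mul, add_zero]
          have h3 := D3b_kap (nl (node a n K))
          have h4 := pop_nonneg (K i)
          nlinarith [h3.1, h3.2]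

private theorem D3b_g1_le {t : ℝ} (ht : 0 ≤ t) (B : RT Unit) :
    g1 t B ≤ Real.exp t * (B.size : ℝ) := by
  have h := abs_gz_le abs_pop_le ht B
  rw [one_mul] at h
  exact (le_abs_self _).trans h

/-- linear growth, uniformly on compact time intervals: `lo ≤ 2 e^t size` (induction) -/
theorem lo_le {c t : ℝ} (hc : 0 ≤ c) (hc1 : c ≤ 1) (ht : 0 ≤ t) (B : RT Bool) :
    lo c t B ≤ 2 * Real.exp t * (B.size : ℝ) := by
  have he : 0 < Real.exp t := Real.exp_pos t
  induction B with
  | node a n K ih =>
    have h0 : lo c t (node a n K) = _ := fl_node _ _ _ _ a n K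
    rw [h0, size_node]
    push_cast
    rw [mul_add, mul_one, mul_sum]
    apply add_le_add
    · have h2 := th_nonneg (nl (node a n K)) (n + 1)
      have h3 := th_le_one (nl (node a n K)) (n + 1) (D3b_nl a n K)
      have h4 : Gam t ≤ 2 * Real.exp t := by
        have h := D3b_g1_le ht fresh
        have h5 : ((fresh : RT Unit).size : ℝ) = 2 := by
          have : (fresh : RT Unit).size = 2 := by simp [fresh]
          exact_mod_cast this
        rw [h5] at h
        have h6 : Gam t = g1 t fresh := rfl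
        linarith
      have h5 := one_le_Gam ht
      calc c * Gam t * th (nl (node a n K)) (n + 1) ≤ c * Gam t * 1 :=
            mul_le_mul_of_nonneg_left h3 (mul_nonneg hc (by linarith))
        _ ≤ 1 * (2 * Real.exp t) := by
            rw [mul_one]
            exact mul_le_mul hc1 h4 (by linarith) zero_le_one
        _ = 2 * Real.exp t := one_mul _
    · apply sum_le_sum
      intro i _
      split
      · positivity
      · rename_i hi
        split
        · exact ih i
        · have h2 := D3b_g1_le ht (fg (K i))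
          rw [size_fg] at h2
          have h3 := D3b_kap (nl (node a n K))
          have h4 := g1_nonneg ht (fg (K i))
          rw [zero_mul, add_zero]
          have h5 : (0 : ℝ) ≤ (K i).size := Nat.cast_nonneg _
          have h6 : 0 ≤ Real.exp t * ((K i).size : ℝ) := mul_nonneg he.le h5
          nlinarith [h3.1, h3.2]

private theorem D3b_iter {E : Type} (𝓔 : Env E) (f : RT Unit → ℝ) (j : ℕ) (x : RT Bool × E) :
    ((𝓔.ker Bool).P^[j] (fun y => f (fg y.1))) x =
      ((𝓔.ker Unit).P^[j] (fun y => f y.1)) (fg x.1, x.2) := by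
  induction j generalizing x with
  | zero => rfl
  | succ j ih =>
    rw [Function.iterate_succ_apply', Function.iterate_succ_apply']
    have h1 : (𝓔.ker Bool).P^[j] (fun y => f (fg y.1)) =
        fun y => ((𝓔.ker Unit).P^[j] (fun y => f y.1)) (fg y.1, y.2) := funext ih
    rw [h1]
    exact (pairP_fg 𝓔 ((𝓔.ker Unit).P^[j] (fun y => f y.1)) x).symm

private theorem D3b_sg {E : Type} (𝓔 : Env E) (f : RT Unit → ℝ) (t : ℝ) (x : RT Bool × E) :
    (𝓔.ker Bool).sg t (fun y => f (fg y.1)) x =
      (𝓔.ker Unit).sg t (fun y => f y.1) (fg x.1, x.2) := by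
  unfold Ker.sg
  have h1 : (𝓔.ker Bool).lev x = (𝓔.ker Unit).lev (fg x.1, x.2) := by
    show x.1.size + 𝓔.lev x.2 = (fg x.1).size + 𝓔.lev x.2
    rw [size_fg]
  rw [h1]
  congr 1
  apply tsum_congr
  intro j
  rw [D3b_iter]

private theorem D3b_abs_pop {α : Type} (B : RT α) : |pop B| ≤ 1 * (B.size : ℝ) := by
  rw [abs_of_nonneg (pop_nonneg B), one_mul]
  exact pop_le_size B

/-- **Lower Harnack bound**, for every environment. -/
theorem harnack_lower {E : Type} (𝓔 : Env E) {t : ℝ} (ht : 0 ≤ t) (B : RT Unit) (hB : B.nk ≠ 0)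
    (e : E) : 1 / 5 * Gam t * asum th B ≤ (𝓔.ker Unit).sg t (fun x => pop x.1) (B, e) := by
  have hD : (𝓔.ker Bool).Closed {x | x.1.nk ≠ 0} := closed_nk 𝓔
  have hB' : (lift true B).nk ≠ 0 := by
    show (map (fun _ => true) B).nk ≠ 0
    rw [nk_map]
    exact hB
  have key := (𝓔.ker Bool).sub_le_sg hD (f := fun x => pop x.1) (Gr_fst 𝓔 D3b_abs_pop)
    (b := fun t x => lo (1 / 5) t x.1) (b' := fun t x => lo' (1 / 5) t x.1)
    (fun x hx => lo_zero_le (by norm_num) x.1 hx)
    (fun x _ => lo_continuousOn (1 / 5) x.1)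
    (fun x _ s hs => lo_hasDerivAt (1 / 5) hs x.1)
    (fun x hx s hs => by
      show lo' (1 / 5) s x.1 ≤ (𝓔.ker Bool).L (fun y => lo (1 / 5) s y.1) x
      rw [pairL_fst]
      have h1 := lo_core (c := 1 / 5) (by norm_num) le_rfl hs x.1 hx
      have h2 := lo_msg (c := 1 / 5) (t := s) (by norm_num) hs.le x.1 hx
      have h3 := 𝓔.snd_nonneg x.2
      have h4 := mul_nonneg h3 (sub_nonneg.2 h2)
      linarith)
    (by
      refine Ker.TGr.of_abs_le _ (Ker.TGr.mul _ (f := fun x : RT Bool × E => (x.1.size : ℝ))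
        (Gr_fst 𝓔 (f := fun B => (B.size : ℝ)) (M := 1) (fun B => by simp))
        (a := fun s => 2 * Real.exp s) (Continuous.continuousOn (by fun_prop))) ?_
      intro s hs x _
      rw [abs_of_nonneg (lo_nonneg (by norm_num) hs x.1)]
      exact lo_le (by norm_num) (by norm_num) hs x.1)
    (lift true B, e) hB' t ht
  have h1 : lo (1 / 5) t (lift true B) = 1 / 5 * Gam t * asum th B := by
    have h2 : lo (1 / 5) t (lift true B) = asum (fun l d => 1 / 5 * Gam t * th l d) B :=
      fl_lift_true _ _ _ _ B hB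
    rw [h2]
    exact asum_smul _ _ _
  have h2 : (𝓔.ker Bool).sg t (fun x => pop x.1) (lift true B, e) =
      (𝓔.ker Unit).sg t (fun x => pop x.1) (B, e) := by
    have h3 : (fun x : RT Bool × E => pop x.1) = fun x => pop (fg x.1) := by
      funext x
      exact (asum_fg _ _).symm
    rw [h3, D3b_sg]
    rw [fg_lift]
  rw [← h1, ← h2]
  exact key

/-- `Γ` is supermultiplicative up to a constant -/
theorem Gam_super {s t : ℝ} (hs : 0 ≤ s) (ht : 0 ≤ t) :
    4 / 125 * (Gam s * Gam t) ≤ Gam (s + t) := by
  have hG : 0 < Gam s := by linarith [one_le_Gam hs]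
  have h1 : Gam (s + t) = gz (gz pop s) t fresh := by
    show gz pop (s + t) fresh = _
    rw [add_comm, gz_add abs_pop_le ht hs]
  have hth : ∀ B : RT Unit, |1 / 5 * Gam s * asum th B| ≤ 1 / 5 * Gam s * (B.size : ℝ) := by
    intro B
    rw [abs_mul, abs_of_nonneg (by positivity)]
    refine mul_le_mul_of_nonneg_left ?_ (by positivity)
    refine (abs_asum_le (M := 1) (fun l d h => ?_) B).trans ?_
    · rw [abs_of_nonneg (th_nonneg l d)]
      exact th_le_one l d h
    · rw [one_mul]
      exact pop_le_size B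
  have h2 : gz (fun B => 1 / 5 * Gam s * asum th B) t fresh ≤ gz (gz pop s) t fresh := by
    have hM : ∀ B : RT Unit, |1 / 5 * Gam s * asum th B| ≤
        max (1 / 5 * Gam s) (1 * Real.exp s) * (B.size : ℝ) := fun B =>
      (hth B).trans (mul_le_mul_of_nonneg_right (le_max_left _ _) (Nat.cast_nonneg _))
    have hM' : ∀ B : RT Unit, |gz pop s B| ≤
        max (1 / 5 * Gam s) (1 * Real.exp s) * (B.size : ℝ) := fun B =>
      (abs_gz_le abs_pop_le hs B).trans
        (mul_le_mul_of_nonneg_right (le_max_right _ _) (Nat.cast_nonneg _))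
    refine gz_mono hM hM' (fun B hB => ?_) ht (by simp)
    exact harnack_lower Env.zero hs B hB 0
  rw [gz_smul] at h2
  rw [h1]
  have h3 := gz_th_ge ht
  have h4 : 1 / 5 * Gam s * (4 / 25 * Gam t) ≤ 1 / 5 * Gam s * gz (asum th) t fresh :=
    mul_le_mul_of_nonneg_left h3 (by positivity)
  calc 4 / 125 * (Gam s * Gam t) = 1 / 5 * Gam s * (4 / 25 * Gam t) := by ring
    _ ≤ _ := h4.trans h2

end RFT
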