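import Pool.Agent.H13.RF.D2
import Pool.Agent.H13.RF.B3

/-! Module D3a: the core inequality of the lower Harnack bound. -/

namespace RFT

open Finset RT

/-- the lower flagged functional -/
noncomputable def lo (c t : ℝ) : RT Bool → ℝ :=
  fl (fun l d => c * Gam t * th l d) (fun l => 1 - kap l) (fun _ => 0) (g1 t)

/-- its time derivative -/
noncomputable def lo' (c t : ℝ) : RT Bool → ℝ :=
  fl (fun l d => c * gen (g1 t) fresh * th l d) (fun l => 1 - kap l) (fun _ => 0) (gen (g1 t))

theorem lo_nonneg {c t : ℝ} (hc : 0 ≤ c) (ht : 0 ≤ t) (B : RT Bool) : 0 ≤ lo c t B := by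
  unfold lo
  apply fl_nonneg
  · intro l d _
    have h1 : 0 ≤ Gam t := le_trans zero_le_one (one_le_Gam ht)
    exact mul_nonneg (mul_nonneg hc h1) (th_nonneg l d)
  · intro l
    have := kap_le_one l
    linarith
  · intro l
    exact le_refl _
  · intro B
    exact g1_nonneg ht B

theorem lo_msg {c t : ℝ} (hc : 0 ≤ c) (ht : 0 ≤ t) (B : RT Bool) (hB : B.nk ≠ 0) :
    lo c t B ≤ lo c t (msg B) := by
  cases B with
  | node b n K =>
    have hn : n ≠ 0 := hB
    have h1 : 0 ≤ c * Gam t := mul_nonneg hc (le_trans zero_le_one (one_le_Gam ht))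
    have hln : nl (node b n K) ≤ n := nl_le_nk (node b n K)
    unfold lo
    rw [fl_msg _ _ _ _ b n K (nl (node b n K)) rfl]
    have h2 : 0 ≤ c * Gam t * th (nl (node b n K) + 1) (n + 2) -
        c * Gam t * th (nl (node b n K)) (n + 1) := by
      have h3 := th_mono (l := nl (node b n K)) (d := n + 1) (by omega) (by omega)
      have h4 := mul_le_mul_of_nonneg_left h3 h1
      have h5 : n + 1 + 1 = n + 2 := rfl
      rw [h5] at h4
      linarith
    have h6 : 0 ≤ ∑ i, (if (K i).nk = 0 then 0 else if (K i).lab = true then 0 else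
        ((fun l => 1 - kap l) (nl (node b n K) + 1) - (fun l => 1 - kap l) (nl (node b n K))) *
          g1 t (fg (K i)) + ((fun _ => (0 : ℝ)) (nl (node b n K) + 1) -
            (fun _ => (0 : ℝ)) (nl (node b n K))) *
          fl (fun l d => c * Gam t * th l d) (fun l => 1 - kap l) (fun _ => 0) (g1 t) (K i)) := by
      apply Finset.sum_nonneg
      intro i _
      split_ifs
      · exact le_refl _
      · exact le_refl _
      · have h7 := kap_anti (nl (node b n K))
        have h8 := g1_nonneg ht (fg (K i))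
        have h9 : 0 ≤ (kap (nl (node b n K)) - kap (nl (node b n K) + 1)) * g1 t (fg (K i)) :=
          mul_nonneg (by linarith) h8
        simp only [sub_self, zero_mul, add_zero]
        nlinarith [h9]
    linarith [h2, h6]

/-- the root part of the subsolution inequality -/
theorem D3a_root {c t : ℝ} (hc : 0 ≤ c) (hc1 : c ≤ 1 / 5) (ht : 0 < t) {l n : ℕ} (hn : n ≠ 0)
    (hln : l ≤ n) {k : ℝ} (hk : 0 ≤ k) :
    c * gen (g1 t) fresh * th l (n + 1) ≤
      ((l : ℝ) + k) * (c * Gam t * th (l + 1) (n + 2) - c * Gam t * th l (n + 1)) +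
      (l : ℝ) / ((n : ℝ) + 1) * (c * Gam t * th (l - 1) (n + 1) - c * Gam t * th l (n + 1) +
        (1 - kap (l - 1)) * Gam t) := by
  have hG1 : 1 ≤ Gam t := one_le_Gam ht.le
  have hG0 : 0 ≤ Gam t := le_trans zero_le_one hG1
  have hcG : 0 ≤ c * Gam t := mul_nonneg hc hG0
  have hd : gen (g1 t) fresh ≤ Gam t := Gam_deriv_le ht
  have hth := th_nonneg l (n + 1)
  have h0 : c * gen (g1 t) fresh * th l (n + 1) ≤ c * Gam t * th l (n + 1) :=
    mul_le_mul_of_nonneg_right (mul_le_mul_of_nonneg_left hd hc) hth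
  have hm : th l (n + 1) ≤ th (l + 1) (n + 2) := th_mono (by omega) (by omega)
  have h1 : 0 ≤ k * (c * Gam t * th (l + 1) (n + 2) - c * Gam t * th l (n + 1)) := by
    apply mul_nonneg hk
    have := mul_le_mul_of_nonneg_left hm hcG
    linarith
  have hn0 : (0 : ℝ) < (n : ℝ) + 1 := by positivity
  rcases Nat.lt_or_ge l 2 with hl | hl
  · interval_cases l
    · simp only [th_zero, mul_zero, Nat.cast_zero, zero_div, zero_mul, add_zero, zero_add] at *
      linarith
    · have h2 := th_one (d := n + 1) (by omega)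
      have h3 : n + 1 + 1 = n + 2 := rfl
      rw [h3] at h2
      have h4 : kap (1 - 1) = 1 := rfl
      have h5 : th (1 - 1) (n + 1) = 0 := th_zero _
      rw [h4, h5]
      have h6 := mul_le_mul_of_nonneg_left h2 hcG
      push_cast at h6 ⊢
      have h7 : c * Gam t * ((2 + 1 / ((n : ℝ) + 1)) * th 1 (n + 1)) =
        2 * (c * Gam t * th 1 (n + 1)) + 1 / ((n : ℝ) + 1) * (c * Gam t * th 1 (n + 1)) := by ring
      rw [h7] at h6
      have h8 : (1 + k) * (c * Gam t * th (1 + 1) (n + 2) - c * Gam t * th 1 (n + 1)) =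
        (c * Gam t * th 2 (n + 2) - c * Gam t * th 1 (n + 1)) +
          k * (c * Gam t * th (1 + 1) (n + 2) - c * Gam t * th 1 (n + 1)) := by ring
      rw [h8]
      have h9 : 1 / ((n : ℝ) + 1) * (c * Gam t * 0 - c * Gam t * th 1 (n + 1) +
        (1 - 1) * Gam t) = - (1 / ((n : ℝ) + 1) * (c * Gam t * th 1 (n + 1))) := by ring
      rw [h9]
      linarith
  · have h2 := th_sub (l := l) (d := n + 1) (by omega) (by omega)
    have h3 : n + 1 + 1 = n + 2 := rfl
    rw [h3] at h2
    push_cast at h2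
    have h4 : kap (l - 1) ≤ 4 / 5 := kap_le (by omega)
    have h5 := th_le (l := l) (d := n + 1) (by omega)
    push_cast at h5
    have h6 := mul_nonneg hcG h2
    have hq : 0 ≤ (l : ℝ) / ((n : ℝ) + 1) := by positivity
    have h7 : 1 / 5 * Gam t ≤ (1 - kap (l - 1)) * Gam t :=
      mul_le_mul_of_nonneg_right (by linarith) hG0
    have h8 := mul_le_mul_of_nonneg_left h7 hq
    have h9 : c * Gam t * th l (n + 1) ≤ (l : ℝ) / ((n : ℝ) + 1) * (1 / 5 * Gam t) := by
      calc c * Gam t * th l (n + 1) ≤ (1 / 5 * Gam t) * ((l : ℝ) / ((n : ℝ) + 1)) := by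
            apply mul_le_mul _ h5 hth (by positivity)
            exact mul_le_mul_of_nonneg_right hc1 hG0
        _ = (l : ℝ) / ((n : ℝ) + 1) * (1 / 5 * Gam t) := by ring
    have h10 : c * Gam t * ((l : ℝ) * (th (l + 1) (n + 2) - th l (n + 1)) +
        (l : ℝ) / ((n : ℝ) + 1) * (th (l - 1) (n + 1) - th l (n + 1))) =
        (l : ℝ) * (c * Gam t * th (l + 1) (n + 2) - c * Gam t * th l (n + 1)) +
        (l : ℝ) / ((n : ℝ) + 1) * (c * Gam t * th (l - 1) (n + 1) - c * Gam t * th l (n + 1)) := by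
      ring
    rw [h10] at h6
    have h11 : ((l : ℝ) + k) * (c * Gam t * th (l + 1) (n + 2) - c * Gam t * th l (n + 1)) +
      (l : ℝ) / ((n : ℝ) + 1) * (c * Gam t * th (l - 1) (n + 1) - c * Gam t * th l (n + 1) +
        (1 - kap (l - 1)) * Gam t) =
        ((l : ℝ) * (c * Gam t * th (l + 1) (n + 2) - c * Gam t * th l (n + 1)) +
        (l : ℝ) / ((n : ℝ) + 1) * (c * Gam t * th (l - 1) (n + 1) - c * Gam t * th l (n + 1))) +
        k * (c * Gam t * th (l + 1) (n + 2) - c * Gam t * th l (n + 1)) +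
        (l : ℝ) / ((n : ℝ) + 1) * ((1 - kap (l - 1)) * Gam t) := by ring
    rw [h11]
    linarith

/-- the coefficient of an unflagged kid -/
theorem D3a_kid {l n : ℕ} (hn : n ≠ 0) (hln : l ≤ n) {k : ℝ} (hk : 0 ≤ k) {g x : ℝ} (hg : 0 ≤ g)
    (hx : 0 ≤ x) : 0 ≤ 1 / ((n : ℝ) + 1) * (x - (1 - kap l) * g) +
      (((l : ℝ) + k) * ((1 - kap (l + 1)) - (1 - kap l)) +
            (l : ℝ) / ((n : ℝ) + 1) * ((1 - kap (l - 1)) - (1 - kap l))) * g := by
  have h1 := kap_main l (n + 1) (by omega) (by omega)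
  push_cast at h1
  have h2 := kap_anti l
  have hn0 : (0 : ℝ) < (n : ℝ) + 1 := by positivity
  have h3 : 0 ≤ 1 / ((n : ℝ) + 1) * x := by positivity
  have h4 : 0 ≤ k * (kap l - kap (l + 1)) * g :=
    mul_nonneg (mul_nonneg hk (by linarith)) hg
  have h5 := mul_nonneg (neg_nonneg.2 h1) hg
  have h6 : 1 / ((n : ℝ) + 1) * (x - (1 - kap l) * g) +
      (((l : ℝ) + k) * ((1 - kap (l + 1)) - (1 - kap l)) +
            (l : ℝ) / ((n : ℝ) + 1) * ((1 - kap (l - 1)) - (1 - kap l))) * g =
      1 / ((n : ℝ) + 1) * x + k * (kap l - kap (l + 1)) * g +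
      -((l : ℝ) * (kap (l + 1) - kap l) + (l : ℝ) / ((n : ℝ) + 1) * (kap (l - 1) - kap l) +
      1 / ((n : ℝ) + 1) * (1 - kap l)) * g := by ring
  rw [h6]
  linarith

/-- Subsolution (induction on `B`, `gen_fl`).  Unflagged kids (`a = 1 - κ`, `b = 0`): the
coefficient of `g (kid)` is `-(l (κ(l+1)-κ l) + l/d (κ(l-1)-κ l) + (1-κ l)/d) ≥ 0` (`kap_main`, `kap_anti`; the value
after a message is nonnegative) and `(1-κ l) gen g` is the derivative.  Flagged kids: induction and `lo_msg`.  Root: for `l ≥ 2`,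
`c Γ (loc part of th) ≥ 0` (`th_sub`) and `l/d (1-κ(l-1)) Γ ≥ l/(5d) Γ ≥ c Γ' th` as `Γ' ≤ Γ`, `th ≤ l/d`;
for `l = 1`, `th(2,d+1) - (1+1/d) th(1,d) ≥ th(1,d)` (`th_one`); for `l = 0` everything vanishes. -/
theorem lo_core {c t : ℝ} (hc : 0 ≤ c) (hc1 : c ≤ 1 / 5) (ht : 0 < t) (B : RT Bool)
    (hB : B.nk ≠ 0) : lo' c t B ≤ gen (lo c t) B := by
  induction B with
  | node b n K ih =>
    have hn : n ≠ 0 := hB
    have hln : nl (node b n K) ≤ n := nl_le_nk (node b n K)
    have hkin := kin_nonneg (node b n K)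
    have hroot := D3a_root hc hc1 ht hn hln hkin
    unfold lo' lo
    rw [gen_fl _ _ _ _ b n K (nl (node b n K)) rfl, fl_node]
    have hsum : (∑ i, if (K i).nk = 0 then 0 else
      if (K i).lab = true then fl (fun l d => c * gen (g1 t) fresh * th l d)
          (fun l => 1 - kap l) (fun _ => 0) (gen (g1 t)) (K i) else
        (fun l => 1 - kap l) (nl (node b n K)) * gen (g1 t) (fg (K i)) +
          (fun _ => (0 : ℝ)) (nl (node b n K)) * fl (fun l d => c * gen (g1 t) fresh * th l d)
          (fun l => 1 - kap l) (fun _ => 0) (gen (g1 t)) (K i)) ≤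
        ∑ i, (if (K i).nk = 0 then 0 else if (K i).lab = true then
          1 / ((n : ℝ) + 1) * (fl (fun l d => c * Gam t * th l d)
          (fun l => 1 - kap l) (fun _ => 0) (g1 t) (msg (K i)) - fl (fun l d => c * Gam t * th l d)
          (fun l => 1 - kap l) (fun _ => 0) (g1 t) (K i)) +
            gen (fl (fun l d => c * Gam t * th l d)
          (fun l => 1 - kap l) (fun _ => 0) (g1 t)) (K i)
        else
          1 / ((n : ℝ) + 1) * (fl (fun l d => c * Gam t * th l d)
          (fun l => 1 - kap l) (fun _ => 0) (g1 t) (msg (K i)) -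
            ((fun l => 1 - kap l) (nl (node b n K)) * g1 t (fg (K i)) +
            (fun _ => (0 : ℝ)) (nl (node b n K)) * fl (fun l d => c * Gam t * th l d)
          (fun l => 1 - kap l) (fun _ => 0) (g1 t) (K i))) +
          (fun l => 1 - kap l) (nl (node b n K)) * gen (g1 t) (fg (K i)) +
          (fun _ => (0 : ℝ)) (nl (node b n K)) * gen (fl (fun l d => c * Gam t * th l d)
          (fun l => 1 - kap l) (fun _ => 0) (g1 t)) (K i) +
          (((nl (node b n K) : ℝ) + kin (node b n K)) *
            ((fun l => 1 - kap l) (nl (node b n K) + 1) - (fun l => 1 - kap l) (nl (node b n K))) +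
            (nl (node b n K) : ℝ) / ((n : ℝ) + 1) *
            ((fun l => 1 - kap l) (nl (node b n K) - 1) - (fun l => 1 - kap l) (nl (node b n K)))) *
              g1 t (fg (K i)) +
          (((nl (node b n K) : ℝ) + kin (node b n K)) *
            ((fun _ => (0 : ℝ)) (nl (node b n K) + 1) - (fun _ => (0 : ℝ)) (nl (node b n K))) +
            (nl (node b n K) : ℝ) / ((n : ℝ) + 1) *
            ((fun _ => (0 : ℝ)) (nl (node b n K) - 1) - (fun _ => (0 : ℝ)) (nl (node b n K)))) *
            fl (fun l d => c * Gam t * th l d)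
          (fun l => 1 - kap l) (fun _ => 0) (g1 t) (K i)) := by
      apply Finset.sum_le_sum
      intro i _
      split_ifs with h1 h2
      · exact le_refl _
      · have h3 := ih i h1
        have h4 := lo_msg hc ht.le (K i) h1
        unfold lo lo' at h3
        unfold lo at h4
        have h5 : 0 ≤ 1 / ((n : ℝ) + 1) * (fl (fun l d => c * Gam t * th l d)
          (fun l => 1 - kap l) (fun _ => 0) (g1 t) (msg (K i)) - fl (fun l d => c * Gam t * th l d)
          (fun l => 1 - kap l) (fun _ => 0) (g1 t) (K i)) :=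
          mul_nonneg (by positivity) (by linarith)
        linarith
      · have h3 := lo_nonneg hc ht.le (msg (K i))
        unfold lo at h3
        have h4 := g1_nonneg ht.le (fg (K i))
        have h5 := D3a_kid hn hln hkin h4 h3
        simp only [zero_mul, add_zero, sub_self, mul_zero]
        linarith
    have hfresh : g1 t (fresh : RT Unit) = Gam t := rfl
    have hroot2 : c * gen (g1 t) fresh * th (nl (node b n K)) (n + 1) ≤
      ((nl (node b n K) : ℝ) + kin (node b n K)) *
        (c * Gam t * th (nl (node b n K) + 1) (n + 2) - c * Gam t * th (nl (node b n K)) (n + 1)) +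
      (nl (node b n K) : ℝ) / ((n : ℝ) + 1) * (c * Gam t * th (nl (node b n K) - 1) (n + 1) -
        c * Gam t * th (nl (node b n K)) (n + 1) +
        (1 - kap (nl (node b n K) - 1)) * g1 t fresh + 0 * (c * Gam t * th 1 2)) := by
      rw [hfresh]
      simp only [zero_mul, add_zero]
      exact hroot
    exact add_le_add hroot2 hsum

end RFT
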