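import Pool.Agent.H13.RF.D4a

/-! Module D4b: the core inequality of the upper Harnack bound. -/

namespace RFT

open Finset RT

/-- the upper flagged functional (`a = 1`, `b = κ`) -/
noncomputable def hi (t : ℝ) : RT Bool → ℝ :=
  fl (fun _ d => ph d * Psi t + 1) (fun _ => 1) kap (g1 t)

/-- its time derivative -/
noncomputable def hi' (t : ℝ) : RT Bool → ℝ :=
  fl (fun _ d => ph d * (3 / 8 * Psi t + 50 * Gam t)) (fun _ => 1) kap (gen (g1 t))

theorem hi_nonneg {t : ℝ} (ht : 0 ≤ t) (B : RT Bool) : 0 ≤ hi t B := by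
  have h1 := one_le_Psi ht
  refine fl_nonneg (fun l d _ => ?_) (fun _ => zero_le_one) (fun l => (kap_pos l).le)
    (fun B => g1_nonneg ht B) B
  have := ph_pos d
  positivity

/-- `hi` does not increase under a message to the root (`ph_anti`, `kap_anti`, `hi_nonneg`) -/
theorem hi_msg {t : ℝ} (ht : 0 ≤ t) (B : RT Bool) (hB : B.nk ≠ 0) :
    hi t (msg B) ≤ hi t B := by
  cases B with
  | node c n K =>
    have h1 := one_le_Psi ht
    have e1 := fl_msg (fun _ d => ph d * Psi t + 1) (fun _ => 1) kap (g1 t) c n K _ rfl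
    beta_reduce at e1
    change hi t (msg (node c n K)) = hi t (node c n K) + _ + _ at e1
    rw [e1]
    have h2 : ph (n + 2) ≤ ph (n + 1) := ph_anti (n + 1)
    have h3 : ph (n + 2) * Psi t ≤ ph (n + 1) * Psi t :=
      mul_le_mul_of_nonneg_right h2 (by linarith)
    have h4 : ∑ i, (if (K i).nk = 0 then (0 : ℝ) else if (K i).lab = true then 0 else
        ((1 : ℝ) - 1) * g1 t (fg (K i)) +
          (kap (nl (node c n K) + 1) - kap (nl (node c n K))) *
            fl (fun _ d => ph d * Psi t + 1) (fun _ => 1) kap (g1 t) (K i)) ≤ 0 := by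
      apply Finset.sum_nonpos
      intro i _
      split_ifs
      · exact le_refl _
      · exact le_refl _
      · have h5 := hi_nonneg ht (K i)
        have h6 := kap_anti (nl (node c n K))
        have h7 : (kap (nl (node c n K) + 1) - kap (nl (node c n K))) * hi t (K i) ≤ 0 :=
          mul_nonpos_of_nonpos_of_nonneg (by linarith) h5
        have h8 : (kap (nl (node c n K) + 1) - kap (nl (node c n K))) *
            fl (fun _ d => ph d * Psi t + 1) (fun _ => 1) kap (g1 t) (K i) ≤ 0 := h7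
        linarith
    linarith

/-- the inequality at the root -/
theorem D4b_root {t : ℝ} (ht : 0 ≤ t) {l n : ℕ} (hln : l ≤ n) {k : ℝ}
    (hk : 0 ≤ k) :
    ((l : ℝ) + k) * (ph (n + 2) * Psi t + 1 - (ph (n + 1) * Psi t + 1)) +
      (l : ℝ) / ((n : ℝ) + 1) * (ph (n + 1) * Psi t + 1 - (ph (n + 1) * Psi t + 1) + 1 * Gam t +
        kap (l - 1) * (ph 2 * Psi t + 1)) ≤ ph (n + 1) * (3 / 8 * Psi t + 50 * Gam t) := by
  have hP := one_le_Psi ht
  have hG := one_le_Gam ht
  have h2 : ph (n + 2) ≤ ph (n + 1) := ph_anti (n + 1)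
  have h3 := ph_ge (n + 1)
  have hk1 := kap_le_one (l - 1)
  have hk0 := (kap_pos (l - 1)).le
  have hx0 : 0 ≤ (l : ℝ) / ((n : ℝ) + 1) := by positivity
  have hx1 : (l : ℝ) / ((n : ℝ) + 1) ≤ 1 := by
    rw [div_le_one (by positivity)]
    have : (l : ℝ) ≤ n := by exact_mod_cast hln
    linarith
  have main : (l : ℝ) / ((n : ℝ) + 1) * kap (l - 1) ≤
      (l : ℝ) * (ph (n + 1) - ph (n + 2)) + 3 / 8 * ph (n + 1) := by
    rcases Nat.eq_zero_or_pos l with h0 | h0
    · subst h0
      simp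
      linarith
    · have := ph_main h0 (show l + 1 ≤ n + 1 by omega)
      push_cast at this
      exact this
  rw [ph_two]
  set x := (l : ℝ) / ((n : ℝ) + 1)
  have a1 : ((l : ℝ) + k) * (ph (n + 2) * Psi t + 1 - (ph (n + 1) * Psi t + 1)) ≤
      (l : ℝ) * (ph (n + 2) - ph (n + 1)) * Psi t := by
    have : k * (ph (n + 1) - ph (n + 2)) * Psi t ≥ 0 := by
      have : 0 ≤ ph (n + 1) - ph (n + 2) := by linarith
      positivity
    nlinarith
  have a2 : x * kap (l - 1) * Psi t ≤
      ((l : ℝ) * (ph (n + 1) - ph (n + 2)) + 3 / 8 * ph (n + 1)) * Psi t :=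
    mul_le_mul_of_nonneg_right main (by linarith)
  have a3 : x * Gam t ≤ 1 * Gam t := mul_le_mul_of_nonneg_right hx1 (by linarith)
  have a4 : x * kap (l - 1) ≤ 1 * 1 := mul_le_mul hx1 hk1 hk0 zero_le_one
  have a5 : 1 / 25 * (50 * Gam t) ≤ ph (n + 1) * (50 * Gam t) :=
    mul_le_mul_of_nonneg_right h3 (by linarith)
  nlinarith

/-- the inequality at an unflagged kid -/
theorem D4b_kid {l n : ℕ} (hln : l ≤ n) (hn : n ≠ 0) {k g g' h h' hm H' : ℝ} (hk : 0 ≤ k)
    (hh : 0 ≤ h) (hg : 0 ≤ g) (hm1 : hm ≤ h) (hH : h' ≤ H') :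
    1 / ((n : ℝ) + 1) * (hm - (1 * g + kap l * h)) + 1 * g' + kap l * h' +
      (((l : ℝ) + k) * (1 - 1) + (l : ℝ) / ((n : ℝ) + 1) * (1 - 1)) * g +
      (((l : ℝ) + k) * (kap (l + 1) - kap l) +
        (l : ℝ) / ((n : ℝ) + 1) * (kap (l - 1) - kap l)) * h ≤ 1 * g' + kap l * H' := by
  have h1 := kap_main l (n + 1) (by omega) (by omega)
  push_cast at h1
  have h2 := kap_anti l
  have h3 := (kap_pos l).le
  have h4 : k * (kap (l + 1) - kap l) * h ≤ 0 := by
    have : 0 ≤ k * (kap l - kap (l + 1)) * h := by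
      have : 0 ≤ kap l - kap (l + 1) := by linarith
      positivity
    linarith
  have h5 : ((l : ℝ) * (kap (l + 1) - kap l) + (l : ℝ) / ((n : ℝ) + 1) * (kap (l - 1) - kap l) +
      1 / ((n : ℝ) + 1) * (1 - kap l)) * h ≤ 0 :=
    mul_nonpos_of_nonpos_of_nonneg h1 hh
  have h6 : kap l * h' ≤ kap l * H' := mul_le_mul_of_nonneg_left hH h3
  have h7 : 1 / ((n : ℝ) + 1) * hm ≤ 1 / ((n : ℝ) + 1) * h :=
    mul_le_mul_of_nonneg_left hm1 (by positivity)
  have h8 : 0 ≤ 1 / ((n : ℝ) + 1) * g := by positivity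
  nlinarith

/-- Supersolution (induction on `B`, `gen_fl`, with `a = 1`, `b = κ`).  Unflagged kids: the coefficient
of `hi (kid) ≥ 0` is at most `l (κ(l+1)-κ l) + l/d (κ(l-1)-κ l) + (1-κ l)/d ≤ 0` (`kap_main`, `kap_anti`,
`hi_msg`), that of `g1 (kid)` is `-1/d`, and the rest is the derivative.  Flagged kids: `hi_msg` and induction.
Root: `Ψ l (φ(d+1)-φ d) + l/d (Γ + κ(l-1) (Ψ+1)) ≤ φ d (3/8 Ψ + 50 Γ)` by `ph_main`, `ph_two`, `ph_ge`
and `Γ ≥ 1`; the messages of the kids only help (`ph_anti`). -/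
theorem hi_core {t : ℝ} (ht : 0 < t) (B : RT Bool) (hB : B.nk ≠ 0) :
    gen (hi t) B ≤ hi' t B := by
  induction B with
  | node c n K ih =>
    have hn : n ≠ 0 := hB
    have hln : nl (node c n K) ≤ n := nl_le_nk _
    have hkin := kin_nonneg (node c n K)
    have e1 := gen_fl (fun _ d => ph d * Psi t + 1) (fun _ => 1) kap (g1 t) c n K _ rfl
    beta_reduce at e1
    change gen (hi t) (node c n K) = _ at e1
    have e2 : hi' t (node c n K) = ph (n + 1) * (3 / 8 * Psi t + 50 * Gam t) +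
      ∑ i, (if (K i).nk = 0 then (0 : ℝ) else
      if (K i).lab = true then hi' t (K i) else
        1 * gen (g1 t) (fg (K i)) + kap (nl (node c n K)) * hi' t (K i)) := rfl
    rw [e1, e2]
    apply add_le_add
    · exact D4b_root ht.le hln hkin
    · apply Finset.sum_le_sum
      intro i _
      by_cases h0 : (K i).nk = 0
      · rw [if_pos h0, if_pos h0]
      · rw [if_neg h0, if_neg h0]
        have hI := ih i h0
        have hm := hi_msg ht.le (K i) h0
        have hh := hi_nonneg ht.le (K i)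
        have hg := g1_nonneg ht.le (fg (K i))
        by_cases hl : (K i).lab = true
        · rw [if_pos hl, if_pos hl]
          have h7 : 1 / ((n : ℝ) + 1) * (hi t (msg (K i)) - hi t (K i)) ≤ 0 :=
            mul_nonpos_of_nonneg_of_nonpos (by positivity) (by linarith)
          have h8 : 1 / ((n : ℝ) + 1) * (hi t (msg (K i)) - hi t (K i)) + gen (hi t) (K i) ≤
            hi' t (K i) := by linarith
          exact h8
        · rw [if_neg hl, if_neg hl]
          exact D4b_kid hln hn hkin hh hg hm hI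

end RFT
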