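import Pool.Agent.H13.RF.D4b

/-! Module D4c: the upper Harnack bound. -/

namespace RFT

open Finset RT

theorem hi_hasDerivAt {t : ℝ} (ht : 0 < t) (B : RT Bool) :
    HasDerivAt (fun s => hi s B) (hi' t B) t := by
  refine fl_hasDerivAt (G := fun s _ d => ph d * Psi s + 1) (g := fun s => g1 s)
    (fun l d => ?_) (fun B => ?_) B
  · exact ((Psi_hasDerivAt ht).const_mul (ph d)).add_const 1
  · exact gz_hasDerivAt (M := 1) abs_pop_le ht B

theorem hi_continuousOn (B : RT Bool) : ContinuousOn (fun s => hi s B) (Set.Ici 0) := by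
  refine fl_continuousOn (G := fun s _ d => ph d * Psi s + 1) (g := fun s => g1 s)
    (fun l d => ?_) (fun B => ?_) B
  · exact (Psi_continuousOn.const_smul (ph d)).add continuousOn_const
  · exact gz_continuousOn (M := 1) abs_pop_le B

theorem pop_le_hi_zero (B : RT Bool) (hB : B.nk ≠ 0) : pop B ≤ hi 0 B := by
  induction B with
  | node c n K ih =>
    have hn : n ≠ 0 := hB
    have e2 : hi 0 (node c n K) = (ph (n + 1) * Psi 0 + 1) +
      ∑ i, (if (K i).nk = 0 then (0 : ℝ) else
      if (K i).lab = true then hi 0 (K i) else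
        1 * g1 0 (fg (K i)) + kap (nl (node c n K)) * hi 0 (K i)) := rfl
    have e1 : pop (node c n K) = 1 + ∑ i, pop (K i) := asum_node _ c n K hn
    rw [e1, e2]
    apply add_le_add
    · have h1 := ph_pos (n + 1)
      rw [Psi_zero]
      linarith
    · apply Finset.sum_le_sum
      intro i _
      by_cases h0 : (K i).nk = 0
      · rw [if_pos h0]
        exact (asum_of_nk_zero _ h0).le
      · rw [if_neg h0]
        by_cases hl : (K i).lab = true
        · rw [if_pos hl]
          exact ih i h0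
        · rw [if_neg hl]
          have h1 : g1 0 (fg (K i)) = pop (K i) := by
            unfold g1
            rw [gz_zero]
            exact asum_fg _ _
          have h2 := hi_nonneg (le_refl (0 : ℝ)) (K i)
          have h3 := (kap_pos (nl (node c n K))).le
          rw [h1, one_mul]
          exact le_add_of_nonneg_right (mul_nonneg h3 h2)

/-- Quadratic growth: `hi ≤ ∑ (2 Ψ + 1) + ∑ g1 (half-tree at x) ≤ (2 Ψ + 1) e^t size^2` (induction; `κ ≤ 1`,
`g1 t B ≤ e^t size B`, and `∑ size (K i) ^ 2 + size (K i) ≤ ...`). -/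
theorem hi_le {t : ℝ} (ht : 0 ≤ t) (B : RT Bool) :
    hi t B ≤ (2 * Psi t + 1) * Real.exp t * (B.size : ℝ) ^ 2 := by
  have hP := one_le_Psi ht
  have hE : 1 ≤ Real.exp t := Real.one_le_exp ht
  induction B with
  | node c n K ih =>
    have e2 : hi t (node c n K) = (ph (n + 1) * Psi t + 1) +
      ∑ i, (if (K i).nk = 0 then (0 : ℝ) else
      if (K i).lab = true then hi t (K i) else
        1 * g1 t (fg (K i)) + kap (nl (node c n K)) * hi t (K i)) := rfl
    set A := (2 * Psi t + 1) * Real.exp t with hA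
    have hA1 : 2 * Psi t + 1 ≤ A := by
      rw [hA]
      nlinarith
    have hA2 : Real.exp t ≤ A := by
      rw [hA]
      nlinarith
    have hA0 : 0 ≤ A := by linarith
    have h1 : ∀ i, (if (K i).nk = 0 then (0 : ℝ) else
      if (K i).lab = true then hi t (K i) else
        1 * g1 t (fg (K i)) + kap (nl (node c n K)) * hi t (K i)) ≤
          A * (K i).size + A * ((K i).size : ℝ) ^ 2 := by
      intro i
      have hs : (0 : ℝ) ≤ (K i).size := Nat.cast_nonneg _
      have hi0 := hi_nonneg ht (K i)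
      have hp : 0 ≤ A * ((K i).size : ℝ) := mul_nonneg hA0 hs
      have hp2 : 0 ≤ A * ((K i).size : ℝ) ^ 2 := by positivity
      split_ifs
      · linarith
      · have := ih i
        linarith
      · have h2 := abs_gz_le (M := 1) abs_pop_le ht (fg (K i))
        have h3 : g1 t (fg (K i)) ≤ A * (K i).size := by
          have h4 : g1 t (fg (K i)) ≤ 1 * Real.exp t * ((fg (K i)).size : ℝ) :=
            (le_abs_self _).trans h2
          rw [size_fg] at h4
          have h5 : Real.exp t * ((K i).size : ℝ) ≤ A * (K i).size :=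
            mul_le_mul_of_nonneg_right hA2 hs
          linarith
        have h6 : kap (nl (node c n K)) * hi t (K i) ≤ 1 * hi t (K i) :=
          mul_le_mul_of_nonneg_right (kap_le_one _) hi0
        have := ih i
        linarith
    have h2 : hi t (node c n K) ≤ A + ∑ i, (A * ((K i).size : ℝ) + A * ((K i).size : ℝ) ^ 2) := by
      rw [e2]
      apply add_le_add
      · have h3 := ph_le (n + 1)
        have h4 : ph (n + 1) * Psi t ≤ 2 * Psi t := mul_le_mul_of_nonneg_right h3 (by linarith)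
        linarith
      · exact Finset.sum_le_sum fun i _ => h1 i
    refine h2.trans ?_
    have h5 : ((node c n K).size : ℝ) = 1 + ∑ i, ((K i).size : ℝ) := by
      rw [size_node]
      push_cast
      rfl
    rw [h5, Finset.sum_add_distrib, ← Finset.mul_sum, ← Finset.mul_sum]
    have h6 : ∑ i, ((K i).size : ℝ) ^ 2 ≤ (∑ i, ((K i).size : ℝ)) ^ 2 :=
      Finset.sum_sq_le_sq_sum_of_nonneg fun i _ => Nat.cast_nonneg _
    have h7 : 0 ≤ ∑ i, ((K i).size : ℝ) := Finset.sum_nonneg fun i _ => Nat.cast_nonneg _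
    have h8 : A * ∑ i, ((K i).size : ℝ) ^ 2 ≤ A * (∑ i, ((K i).size : ℝ)) ^ 2 :=
      mul_le_mul_of_nonneg_left h6 hA0
    have h9 : 0 ≤ A * ∑ i, ((K i).size : ℝ) := mul_nonneg hA0 h7
    nlinarith

/-- the semigroup with labels and without labels -/
theorem D4c_iter {E : Type} (𝓔 : Env E) (F : RT Unit × E → ℝ) (j : ℕ) (x : RT Bool × E) :
    ((𝓔.ker Bool).P^[j] (fun y => F (fg y.1, y.2))) x =
      ((𝓔.ker Unit).P^[j] F) (fg x.1, x.2) := by
  induction j generalizing x with
  | zero => rfl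
  | succ j ih =>
    rw [Function.iterate_succ_apply', Function.iterate_succ_apply']
    have h1 : ((𝓔.ker Bool).P^[j] (fun y => F (fg y.1, y.2))) =
      fun y : RT Bool × E => ((𝓔.ker Unit).P^[j] F) (fg y.1, y.2) := funext fun y => ih y
    rw [h1]
    exact (pairP_fg 𝓔 _ x).symm

theorem D4c_sg {E : Type} (𝓔 : Env E) (F : RT Unit × E → ℝ) (t : ℝ) (x : RT Bool × E) :
    (𝓔.ker Bool).sg t (fun y => F (fg y.1, y.2)) x =
      (𝓔.ker Unit).sg t F (fg x.1, x.2) := by
  unfold Ker.sg
  have h1 : (𝓔.ker Bool).lev x = (𝓔.ker Unit).lev (fg x.1, x.2) := by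
    show x.1.size + 𝓔.lev x.2 = (fg x.1).size + 𝓔.lev x.2
    rw [size_fg]
  rw [h1]
  congr 1
  apply tsum_congr
  intro j
  rw [D4c_iter]

theorem D4c_Gr {E α : Type} [Rule α] (𝓔 : Env E) :
    (𝓔.ker α).Gr (fun x => (x.1.size : ℝ) ^ 2) := by
  refine Ker.Gr.of_sq _ (M := 1) (fun x => ?_)
  have h1 : ((𝓔.ker α).lev x : ℝ) = (x.1.size : ℝ) + 𝓔.lev x.2 := by
    show (((x.1.size + 𝓔.lev x.2 : ℕ)) : ℝ) = _
    push_cast
    rfl
  rw [h1, Nat.abs_cast]
  have : (0 : ℝ) ≤ 𝓔.lev x.2 := Nat.cast_nonneg _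
  linarith

theorem D4c_super {E : Type} (𝓔 : Env E) {t : ℝ} (ht : 0 ≤ t) (B : RT Bool) (hB : B.nk ≠ 0)
    (e : E) : (𝓔.ker Bool).sg t (fun x => pop x.1) (B, e) ≤ hi t B := by
  have hG : (𝓔.ker Bool).Gr (fun x => pop x.1) := by
    refine Gr_fst 𝓔 (M := 1) (fun B => ?_)
    rw [abs_of_nonneg (pop_nonneg B), one_mul]
    exact pop_le_size B
  refine (𝓔.ker Bool).sg_le_super (closed_nk 𝓔) hG (b := fun t x => hi t x.1)
    (b' := fun t x => hi' t x.1) ?_ ?_ ?_ ?_ ?_ (B, e) hB t ht
  · intro x hx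
    exact pop_le_hi_zero x.1 hx
  · intro x _
    exact hi_continuousOn x.1
  · intro x _ u hu
    exact hi_hasDerivAt hu x.1
  · intro x hx u hu
    have h1 := pairL_fst 𝓔 (hi u) x
    have h2 := hi_core hu x.1 hx
    have h3 := hi_msg hu.le x.1 hx
    have h4 := 𝓔.snd_nonneg x.2
    have h5 : 𝓔.snd x.2 * (hi u (msg x.1) - hi u x.1) ≤ 0 :=
      mul_nonpos_of_nonneg_of_nonpos h4 (by linarith)
    rw [h1]
    linarith
  · refine Ker.TGr.of_abs_le _ (b := fun t x => ((2 * Psi t + 1) * Real.exp t) * (x.1.size : ℝ) ^ 2)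
      ?_ ?_
    · refine Ker.TGr.mul _ (D4c_Gr 𝓔) (a := fun t => (2 * Psi t + 1) * Real.exp t) ?_
      exact ((Psi_continuousOn.const_smul (2 : ℝ)).add continuousOn_const).mul
        Real.continuous_exp.continuousOn
    · intro u hu x _
      rw [abs_of_nonneg (hi_nonneg hu x.1)]
      exact hi_le hu x.1

/-- **Upper Harnack bound**, for every environment (`sg_le_super` for `𝓔.ker Bool` on the non-leaf half-trees, at
`lift true B`). -/
theorem harnack_upper : ∃ C : ℝ, 0 < C ∧ ∀ (E : Type) (𝓔 : Env E) (t : ℝ), 0 ≤ t →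
    ∀ (B : RT Unit), B.nk ≠ 0 → ∀ e : E,
    (𝓔.ker Unit).sg t (fun x => pop x.1) (B, e) ≤ C * Gam t * pop B := by
  obtain ⟨C, hC, h⟩ := Psi_le
  refine ⟨2 * C + 1, by linarith, ?_⟩
  intro E 𝓔 t ht B hB e
  have hG := one_le_Gam ht
  have hP := one_le_Psi ht
  have hB' : (lift true B).nk ≠ 0 := by
    unfold lift
    rw [nk_map]
    exact hB
  have h1 := D4c_super 𝓔 ht (lift true B) hB' e
  have h2 := D4c_sg 𝓔 (fun x => pop x.1) t (lift true B, e)
  have h3 : (fun y : RT Bool × E => pop (fg y.1)) = fun y => pop y.1 := by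
    funext y
    exact asum_fg _ _
  beta_reduce at h2
  have h2' : (𝓔.ker Bool).sg t (fun y => pop (fg y.1)) (lift true B, e) =
    (𝓔.ker Unit).sg t (fun x => pop x.1) (fg (lift true B), e) := h2
  rw [h3, fg_lift] at h2'
  rw [← h2']
  refine h1.trans ?_
  have h4 : hi t (lift true B) = asum (fun _ d => ph d * Psi t + 1) B :=
    fl_lift_true _ _ _ _ B hB
  have h5 : asum (fun _ d => ph d * Psi t + 1) B ≤ asum (fun _ _ => (2 * Psi t + 1) * 1) B := by
    apply asum_mono
    intro l d _ _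
    have := ph_le d
    nlinarith
  have h6 : asum (fun _ _ => (2 * Psi t + 1) * 1) B = (2 * Psi t + 1) * pop B :=
    asum_smul (2 * Psi t + 1) (fun _ _ => 1) B
  rw [h4]
  refine (h5.trans h6.le).trans ?_
  apply mul_le_mul_of_nonneg_right _ (pop_nonneg B)
  have := h t ht
  nlinarith

end RFT
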