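import Pool.Agent.H13.RF.D3

/-! Module D4a: the function Psi. -/

namespace RFT

open Finset RT

/-- `Ψ t = exp(3t/8) (1 + 50 ∫₀ᵗ exp(-3s/8) Γ s ds)`, so that `Ψ' = (3/8) Ψ + 50 Γ` -/
noncomputable def Psi (t : ℝ) : ℝ :=
  Real.exp (3 / 8 * t) * (1 + 50 * ∫ s in (0 : ℝ)..t, Real.exp (-(3 / 8 * s)) * Gam s)

/-- continuous extension of the integrand -/
noncomputable def D4a_h (s : ℝ) : ℝ := Real.exp (-(3 / 8 * s)) * Gam (max s 0)

theorem D4a_h_cont : Continuous D4a_h := by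
  have h1 : Continuous (fun s : ℝ => Gam (max s 0)) :=
    Gam_continuousOn.comp_continuous (by fun_prop) (fun s => Set.mem_Ici.2 (le_max_right s 0))
  unfold D4a_h
  exact Continuous.mul (by fun_prop) h1

theorem D4a_h_eq {s : ℝ} (hs : 0 ≤ s) : D4a_h s = Real.exp (-(3 / 8 * s)) * Gam s := by
  unfold D4a_h
  rw [max_eq_left hs]

theorem D4a_h_nonneg (s : ℝ) : 0 ≤ D4a_h s := by
  unfold D4a_h
  have h1 := one_le_Gam (le_max_right s 0)
  have h2 := Real.exp_pos (-(3 / 8 * s))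
  positivity

theorem D4a_Psi_eq {t : ℝ} (ht : 0 ≤ t) :
    Psi t = Real.exp (3 / 8 * t) * (1 + 50 * ∫ s in (0 : ℝ)..t, D4a_h s) := by
  unfold Psi
  congr 3
  apply intervalIntegral.integral_congr
  intro s hs
  rw [Set.uIcc_of_le ht] at hs
  exact (D4a_h_eq hs.1).symm

theorem D4a_hasDerivAt (t : ℝ) :
    HasDerivAt (fun t => Real.exp (3 / 8 * t) * (1 + 50 * ∫ s in (0 : ℝ)..t, D4a_h s))
      (3 / 8 * (Real.exp (3 / 8 * t) * (1 + 50 * ∫ s in (0 : ℝ)..t, D4a_h s)) +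
        50 * (Real.exp (3 / 8 * t) * D4a_h t)) t := by
  have h1 : HasDerivAt (fun s : ℝ => Real.exp (3 / 8 * s)) (Real.exp (3 / 8 * t) * (3 / 8)) t := by
    have := ((hasDerivAt_id t).const_mul (3 / 8 : ℝ)).exp
    simpa using this
  have h2 : HasDerivAt (fun t : ℝ => ∫ s in (0 : ℝ)..t, D4a_h s) (D4a_h t) t :=
    (D4a_h_cont.integral_hasStrictDerivAt 0 t).hasDerivAt
  have h3 := h1.mul ((h2.const_mul 50).const_add 1)
  refine h3.congr_deriv ?_
  ring

theorem Psi_hasDerivAt {t : ℝ} (ht : 0 < t) :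
    HasDerivAt Psi (3 / 8 * Psi t + 50 * Gam t) t := by
  have h1 := D4a_hasDerivAt t
  have h2 : Psi =ᶠ[nhds t] (fun t => Real.exp (3 / 8 * t) * (1 + 50 * ∫ s in (0 : ℝ)..t, D4a_h s)) := by
    filter_upwards [lt_mem_nhds ht] with s hs
    exact D4a_Psi_eq hs.le
  refine (h1.congr_of_eventuallyEq h2).congr_deriv ?_
  rw [← D4a_Psi_eq ht.le, D4a_h_eq ht.le, ← mul_assoc (Real.exp (3 / 8 * t)), ← Real.exp_add]
  simp

theorem Psi_continuousOn : ContinuousOn Psi (Set.Ici 0) := by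
  have h1 : Continuous (fun t => Real.exp (3 / 8 * t) * (1 + 50 * ∫ s in (0 : ℝ)..t, D4a_h s)) :=
    continuous_iff_continuousAt.2 fun t => (D4a_hasDerivAt t).continuousAt
  exact h1.continuousOn.congr fun t ht => D4a_Psi_eq ht

theorem Psi_zero : Psi 0 = 1 := by
  simp [Psi]

theorem D4a_int_nonneg {t : ℝ} (ht : 0 ≤ t) : 0 ≤ ∫ s in (0 : ℝ)..t, D4a_h s :=
  intervalIntegral.integral_nonneg ht fun s _ => D4a_h_nonneg s

theorem one_le_Psi {t : ℝ} (ht : 0 ≤ t) : 1 ≤ Psi t := by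
  rw [D4a_Psi_eq ht]
  have h1 : 1 ≤ Real.exp (3 / 8 * t) := Real.one_le_exp (by positivity)
  have h2 := D4a_int_nonneg ht
  nlinarith

theorem Psi_mono {s t : ℝ} (hs : 0 ≤ s) (h : s ≤ t) : Psi s ≤ Psi t := by
  rw [D4a_Psi_eq hs, D4a_Psi_eq (hs.trans h)]
  have h1 : Real.exp (3 / 8 * s) ≤ Real.exp (3 / 8 * t) := Real.exp_le_exp.2 (by linarith)
  have h2 := D4a_int_nonneg hs
  have h3 : (∫ u in (0 : ℝ)..s, D4a_h u) ≤ ∫ u in (0 : ℝ)..t, D4a_h u := by
    rw [← intervalIntegral.integral_add_adjacent_intervals (b := s)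
      (D4a_h_cont.intervalIntegrable 0 s) (D4a_h_cont.intervalIntegrable s t)]
    have := intervalIntegral.integral_nonneg (μ := MeasureTheory.volume) h
      fun u _ => D4a_h_nonneg u
    linarith
  apply mul_le_mul h1 (by linarith) (by linarith) (Real.exp_pos _).le

/-- `Γ s ≤ C exp(-2(t-s)/5) Γ t` -/
theorem D4a_Gam_le {s t : ℝ} (hs : 0 ≤ s) (h : s ≤ t) :
    Gam s ≤ 875 / 12 * Real.exp (-(2 / 5 * (t - s))) * Gam t := by
  have h1 := Gam_super hs (sub_nonneg.2 h)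
  have h2 := Gam_growth (sub_nonneg.2 h)
  have h3 := one_le_Gam hs
  have e : s + (t - s) = t := by ring
  rw [e] at h1
  have h4 : 4 / 125 * (Gam s * (3 / 7 * Real.exp (2 / 5 * (t - s)))) ≤ Gam t :=
    le_trans (by
      apply mul_le_mul_of_nonneg_left _ (by norm_num)
      exact mul_le_mul_of_nonneg_left h2 (by linarith)) h1
  rw [Real.exp_neg]
  have h5 := Real.exp_pos (2 / 5 * (t - s))
  rw [mul_assoc, inv_mul_eq_div]
  have h6 : Gam s ≤ 875 / 12 * (Gam t / Real.exp (2 / 5 * (t - s))) ↔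
      Gam s * Real.exp (2 / 5 * (t - s)) ≤ 875 / 12 * Gam t := by
    rw [← mul_div_assoc, le_div_iff₀ h5]
  rw [h6]
  nlinarith

/-- `Ψ ≤ C Γ`: from `Gam_super` and `Gam_growth`, `Γ s exp(2(t-s)/5) ≤ C Γ t`, hence
`∫ exp(3(t-s)/8) Γ s ds ≤ C Γ t ∫ exp(-(t-s)/40) ds` -/
theorem Psi_le : ∃ C : ℝ, 0 < C ∧ ∀ t : ℝ, 0 ≤ t → Psi t ≤ C * Gam t := by
  refine ⟨7 / 3 + 50 * (875 / 12 * 40), by norm_num, ?_⟩
  intro t ht
  have hG := one_le_Gam ht
  -- the integrand
  have h1 : ∀ s ∈ Set.Icc 0 t, D4a_h s ≤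
      875 / 12 * Gam t * Real.exp (-(2 / 5 * t)) * Real.exp (1 / 40 * s) := by
    intro s hs
    rw [D4a_h_eq hs.1]
    have h2 := D4a_Gam_le hs.1 hs.2
    have h3 := Real.exp_pos (-(3 / 8 * s))
    calc Real.exp (-(3 / 8 * s)) * Gam s
        ≤ Real.exp (-(3 / 8 * s)) * (875 / 12 * Real.exp (-(2 / 5 * (t - s))) * Gam t) :=
          mul_le_mul_of_nonneg_left h2 h3.le
      _ = 875 / 12 * Gam t * (Real.exp (-(3 / 8 * s)) * Real.exp (-(2 / 5 * (t - s)))) := by ring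
      _ = 875 / 12 * Gam t * (Real.exp (-(2 / 5 * t)) * Real.exp (1 / 40 * s)) := by
          rw [← Real.exp_add, ← Real.exp_add]
          congr 2
          ring
      _ = _ := by ring
  have h4 : (∫ s in (0 : ℝ)..t, D4a_h s) ≤
      ∫ s in (0 : ℝ)..t, 875 / 12 * Gam t * Real.exp (-(2 / 5 * t)) * Real.exp (1 / 40 * s) := by
    apply intervalIntegral.integral_mono_on ht (D4a_h_cont.intervalIntegrable 0 t)
    · exact (Continuous.intervalIntegrable (by fun_prop) 0 t)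
    · exact h1
  have h5 : (∫ s in (0 : ℝ)..t, Real.exp (1 / 40 * s)) = 40 * (Real.exp (1 / 40 * t) - 1) := by
    rw [intervalIntegral.integral_eq_sub_of_hasDerivAt (f := fun s => 40 * Real.exp (1 / 40 * s))]
    · simp; ring
    · intro x _
      have h7 : HasDerivAt (fun s : ℝ => Real.exp (1 / 40 * s)) (Real.exp (1 / 40 * x) * (1 / 40)) x := by
        have := ((hasDerivAt_id x).const_mul (1 / 40 : ℝ)).exp
        simpa using this
      refine (h7.const_mul 40).congr_deriv ?_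
      ring
    · exact (Continuous.intervalIntegrable (by fun_prop) 0 t)
  rw [intervalIntegral.integral_const_mul, h5] at h4
  have h6 : Real.exp (3 / 8 * t) * (∫ s in (0 : ℝ)..t, D4a_h s) ≤ 875 / 12 * 40 * Gam t := by
    calc Real.exp (3 / 8 * t) * (∫ s in (0 : ℝ)..t, D4a_h s)
        ≤ Real.exp (3 / 8 * t) * (875 / 12 * Gam t * Real.exp (-(2 / 5 * t)) *
            (40 * (Real.exp (1 / 40 * t) - 1))) :=
          mul_le_mul_of_nonneg_left h4 (Real.exp_pos _).le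
      _ ≤ Real.exp (3 / 8 * t) * (875 / 12 * Gam t * Real.exp (-(2 / 5 * t)) *
            (40 * Real.exp (1 / 40 * t))) := by
          apply mul_le_mul_of_nonneg_left _ (Real.exp_pos _).le
          apply mul_le_mul_of_nonneg_left _ (by positivity)
          linarith
      _ = 875 / 12 * 40 * Gam t *
            (Real.exp (3 / 8 * t) * Real.exp (-(2 / 5 * t)) * Real.exp (1 / 40 * t)) := by ring
      _ = 875 / 12 * 40 * Gam t * 1 := by
          rw [← Real.exp_add, ← Real.exp_add]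
          congr 1
          rw [Real.exp_eq_one_iff]
          ring
      _ = _ := by ring
  have h7 : Real.exp (3 / 8 * t) ≤ 7 / 3 * Gam t := by
    have h8 := Gam_growth ht
    have h9 : Real.exp (3 / 8 * t) ≤ Real.exp (2 / 5 * t) := Real.exp_le_exp.2 (by linarith)
    linarith
  rw [D4a_Psi_eq ht]
  calc Real.exp (3 / 8 * t) * (1 + 50 * ∫ s in (0 : ℝ)..t, D4a_h s)
      = Real.exp (3 / 8 * t) + 50 * (Real.exp (3 / 8 * t) * ∫ s in (0 : ℝ)..t, D4a_h s) := by ring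
    _ ≤ 7 / 3 * Gam t + 50 * (875 / 12 * 40 * Gam t) := by linarith
    _ = _ := by ring

end RFT
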