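import Pool.Agent.H13.RF.D4

/-! Module D5: the exponent. -/

namespace RFT

open Finset RT

open Filter Topology in
private lemma D5_fekete {g : ℕ → ℝ} {a b : ℝ} (h0 : ∀ n, 0 ≤ g n)
    (hlo : ∀ m n, a + (g m + g n) ≤ g (m + n)) (hhi : ∀ m n, g (m + n) ≤ b + (g m + g n)) :
    ∃ μ : ℝ, 0 ≤ μ ∧ ∀ n : ℕ, n * μ ≤ b + g n ∧ a + g n ≤ n * μ := by
  have hsub : Subadditive (fun n => b + g n) := by
    intro m n
    have := hhi m n
    linarith
  have hsup : Subadditive (fun n => -(a + g n)) := by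
    intro m n
    have := hlo m n
    linarith
  have hb0 : 0 ≤ b + g 0 := by
    have := hhi 0 0
    simp only [add_zero] at this
    linarith
  have hbn : ∀ n, -|b| ≤ b + g n := fun n => by
    have := neg_abs_le b
    have := h0 n
    linarith
  have hbdd : BddBelow (Set.range fun n : ℕ => (b + g n) / n) := by
    refine ⟨-|b|, ?_⟩
    rintro _ ⟨n, rfl⟩
    rcases Nat.eq_zero_or_pos n with h | h
    · subst h
      simp
    · have hn : (1 : ℝ) ≤ n := by exact_mod_cast h
      show -|b| ≤ (b + g n) / n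
      rw [le_div_iff₀ (by linarith)]
      have h1 := hbn n
      have h2 := abs_nonneg b
      nlinarith
  have hlim := hsub.tendsto_lim hbdd
  set μ := hsub.lim with hμ
  have hlow : ∀ n : ℕ, n ≠ 0 → (n : ℝ) * μ ≤ b + g n := by
    intro n hn
    have h1 := hsub.lim_le_div hbdd hn
    have hn0 : (0 : ℝ) < n := by positivity
    rw [le_div_iff₀ hn0] at h1
    linarith
  have hcb : Tendsto (fun n : ℕ => b / (n : ℝ)) atTop (𝓝 0) := tendsto_const_div_atTop_nhds_zero_nat b
  have hμ0 : 0 ≤ μ := by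
    have hl2 : Tendsto (fun n : ℕ => (b + g n) / n - b / n) atTop (𝓝 μ) := by
      simpa only [sub_zero] using hlim.sub hcb
    refine ge_of_tendsto hl2 ?_
    · refine Eventually.of_forall fun n => ?_
      rw [← sub_div]
      have : b + g n - b = g n := by ring
      rw [this]
      exact div_nonneg (h0 n) (Nat.cast_nonneg n)
  refine ⟨μ, hμ0, fun n => ⟨?_, ?_⟩⟩
  · rcases Nat.eq_zero_or_pos n with h | h
    · subst h
      simpa using hb0
    · exact hlow n h.ne'
  · rcases Nat.eq_zero_or_pos n with h | h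
    · subst h
      have := hlo 0 0
      simp only [add_zero] at this
      simp
      linarith
    · have hn0 : (0 : ℝ) < n := by positivity
      -- along multiples of `n`
      have htend : Tendsto (fun k : ℕ => (b + g (k * n)) / ((k * n : ℕ) : ℝ)) atTop (𝓝 μ) :=
        hlim.comp (tendsto_id.atTop_mul_const' h)
      have hc2 : Tendsto (fun k : ℕ => (b - a + -(-(a + g 0))) / (k * n : ℝ)) atTop (𝓝 0) := by
        have h3 := (tendsto_const_div_atTop_nhds_zero_nat (b - a + -(-(a + g 0)))).div_const (n : ℝ)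
        rw [zero_div] at h3
        refine h3.congr fun k => ?_
        rw [div_div]
      have hge : (a + g n) / n ≤ μ := by
        have hl3 : Tendsto (fun k : ℕ => (b + g (k * n)) / ((k * n : ℕ) : ℝ) -
            (b - a + -(-(a + g 0))) / (k * n : ℝ)) atTop (𝓝 μ) := by
          simpa only [sub_zero] using htend.sub hc2
        refine ge_of_tendsto hl3 ?_
        · filter_upwards [eventually_gt_atTop 0] with k hk
          have hk0 : (0 : ℝ) < k := by exact_mod_cast hk
          have h4 := hsup.apply_mul_add_le k n 0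
          simp only [add_zero] at h4
          push_cast
          rw [← sub_div, div_le_div_iff₀ hn0 (by positivity)]
          nlinarith
      rw [div_le_iff₀ hn0] at hge
      linarith

/-- a positive function on `[0,∞)` which is quasi-multiplicative and nondecreasing grows exponentially (Fekete for
`log (C f n)` and `log (c f n)` over the integers) -/
theorem exists_exponent {f : ℝ → ℝ} {c C : ℝ} (hc : 0 < c) (hC : 0 < C) (h1 : ∀ t, 0 ≤ t → 1 ≤ f t)
    (hm : ∀ s t, 0 ≤ s → s ≤ t → f s ≤ f t)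
    (hlo : ∀ s t, 0 ≤ s → 0 ≤ t → c * (f s * f t) ≤ f (s + t))
    (hhi : ∀ s t, 0 ≤ s → 0 ≤ t → f (s + t) ≤ C * (f s * f t)) :
    ∃ μ c' C' : ℝ, 0 < c' ∧ 0 < C' ∧ ∀ t, 0 ≤ t →
      c' * Real.exp (μ * t) ≤ f t ∧ f t ≤ C' * Real.exp (μ * t) := by
  have hp : ∀ n : ℕ, 0 < f n := fun n => lt_of_lt_of_le one_pos (h1 _ (Nat.cast_nonneg n))
  obtain ⟨μ, hμ0, hμ⟩ := D5_fekete (g := fun n : ℕ => Real.log (f n)) (a := Real.log c) (b := Real.log C)
    (fun n => Real.log_nonneg (h1 _ (Nat.cast_nonneg n)))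
    (fun m n => by
      have h := hlo m n (Nat.cast_nonneg m) (Nat.cast_nonneg n)
      have hm0 := hp m
      have hn0 := hp n
      rw [← Real.log_mul hm0.ne' hn0.ne', ← Real.log_mul hc.ne' (by positivity)]
      push_cast
      exact Real.log_le_log (by positivity) h)
    (fun m n => by
      have h := hhi m n (Nat.cast_nonneg m) (Nat.cast_nonneg n)
      have hm0 := hp m
      have hn0 := hp n
      have hmn := hp (m + n)
      rw [← Real.log_mul hm0.ne' hn0.ne', ← Real.log_mul hC.ne' (by positivity)]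
      push_cast at hmn ⊢
      exact Real.log_le_log hmn h)
  have hint : ∀ n : ℕ, Real.exp (n * μ) ≤ C * f n ∧ c * f n ≤ Real.exp (n * μ) := by
    intro n
    obtain ⟨a1, a2⟩ := hμ n
    have hn0 := hp n
    constructor
    · rw [← Real.log_mul hC.ne' hn0.ne'] at a1
      calc Real.exp (n * μ) ≤ Real.exp (Real.log (C * f n)) := Real.exp_le_exp.2 a1
        _ = _ := Real.exp_log (by positivity)
    · rw [← Real.log_mul hc.ne' hn0.ne'] at a2
      calc c * f n = Real.exp (Real.log (c * f n)) := (Real.exp_log (by positivity)).symm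
        _ ≤ _ := Real.exp_le_exp.2 a2
  refine ⟨μ, Real.exp (-μ) / C, Real.exp μ / c, by positivity, by positivity, fun t ht => ?_⟩
  set n := ⌊t⌋₊ with hn
  have hn1 : (n : ℝ) ≤ t := Nat.floor_le ht
  have hn2 : t ≤ ((n + 1 : ℕ) : ℝ) := by push_cast; exact (Nat.lt_floor_add_one t).le
  constructor
  · have a := (hint n).1
    have b := hm n t (Nat.cast_nonneg n) hn1
    have e : Real.exp (-μ) * Real.exp (μ * t) ≤ Real.exp (n * μ) := by
      rw [← Real.exp_add]
      refine Real.exp_le_exp.2 ?_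
      push_cast at hn2
      nlinarith
    rw [div_mul_eq_mul_div, div_le_iff₀ hC]
    calc _ ≤ _ := e
      _ ≤ C * f n := a
      _ ≤ C * f t := mul_le_mul_of_nonneg_left b hC.le
      _ = _ := mul_comm _ _
  · have a := (hint (n + 1)).2
    have b := hm t ((n + 1 : ℕ) : ℝ) ht hn2
    have e : Real.exp (((n + 1 : ℕ) : ℝ) * μ) ≤ Real.exp μ * Real.exp (μ * t) := by
      rw [← Real.exp_add]
      refine Real.exp_le_exp.2 ?_
      push_cast
      nlinarith
    rw [div_mul_eq_mul_div, le_div_iff₀ hc]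
    calc f t * c = c * f t := mul_comm _ _
      _ ≤ c * f ((n + 1 : ℕ) : ℝ) := mul_le_mul_of_nonneg_left b hc.le
      _ ≤ _ := a
      _ ≤ _ := e

theorem Gam_sub : ∃ C : ℝ, 0 < C ∧ ∀ s t : ℝ, 0 ≤ s → 0 ≤ t →
    Gam (s + t) ≤ C * (Gam s * Gam t) := by
  obtain ⟨C, hC, hup⟩ := harnack_upper
  refine ⟨C, hC, fun s t hs ht => ?_⟩
  have hG := one_le_Gam ht
  have hfresh : (fresh : RT Unit).nk ≠ 0 := by simp [fresh]
  have h1 : Gam (s + t) = gz (gz pop t) s fresh := gz_add abs_pop_le hs ht fresh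
  rw [h1]
  set M := max (1 * Real.exp t) (C * Gam t) with hM
  have h2 : gz (gz pop t) s fresh ≤ gz (fun B => C * Gam t * pop B) s fresh := by
    refine gz_mono (M := M) (fun B => ?_) (fun B => ?_) (fun B hB => ?_) hs hfresh
    · refine (abs_gz_le abs_pop_le ht B).trans ?_
      exact mul_le_mul_of_nonneg_right (le_max_left _ _) (Nat.cast_nonneg _)
    · rw [abs_mul, abs_of_nonneg (by positivity : 0 ≤ C * Gam t)]
      have h3 := abs_pop_le B
      rw [one_mul] at h3
      exact mul_le_mul (le_max_right _ _) h3 (abs_nonneg _) (le_max_of_le_right (by positivity))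
    · exact hup ℕ Env.zero t ht B hB 0
  refine h2.trans (le_of_eq ?_)
  rw [gz_smul]
  show C * Gam t * Gam s = _
  ring

theorem Gam_exponent : ∃ μ c C : ℝ, 2 / 5 ≤ μ ∧ 0 < c ∧ 0 < C ∧ ∀ t, 0 ≤ t →
    c * Real.exp (μ * t) ≤ Gam t ∧ Gam t ≤ C * Real.exp (μ * t) := by
  obtain ⟨C, hC, hsub⟩ := Gam_sub
  obtain ⟨μ, c', C', hc', hC', h⟩ := exists_exponent (f := Gam) (c := 4 / 125) (C := C) (by norm_num) hC
    (fun t ht => one_le_Gam ht) (fun s t hs hst => Gam_mono hs hst)
    (fun s t hs ht => Gam_super hs ht) hsub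
  refine ⟨μ, c', C', ?_, hc', hC', h⟩
  by_contra hcon
  rw [not_le] at hcon
  -- `3/7 exp(2t/5) ≤ C' exp(μ t)` fails for large `t`
  have hδ : 0 < 2 / 5 - μ := by linarith
  obtain ⟨t, ht0, ht⟩ : ∃ t : ℝ, 0 ≤ t ∧ 7 / 3 * C' < Real.exp ((2 / 5 - μ) * t) := by
    refine ⟨7 / 3 * C' / (2 / 5 - μ), by positivity, ?_⟩
    rw [mul_div_cancel₀ _ hδ.ne']
    have := Real.add_one_le_exp (7 / 3 * C')
    linarith
  have h1 := Gam_growth ht0
  have h2 := (h t ht0).2
  have h3 : Real.exp (2 / 5 * t) = Real.exp ((2 / 5 - μ) * t) * Real.exp (μ * t) := by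
    rw [← Real.exp_add]
    congr 1
    ring
  have h4 := Real.exp_pos (μ * t)
  rw [h3] at h1
  nlinarith

end RFT
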