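import Pool.Agent.H13.RF.D3

/-! Module D6: lower bound for the killed half-tree. -/

namespace RFT

open Finset RT

theorem closed_kerK {α : Type} [Rule α] : (kerK α).Closed {B | B.nk ≠ 0} := by
  intro x hx u hu
  have h0 : (kerK α).P (fun _ => 0) x = 0 := (kerK α).P_zero x
  have h1 : Q x (fun _ => 0) ≤ Q x u := by
    apply Q_mono_nk
    intro c hc
    apply hu
    have hx' : x.nk ≠ 0 := hx
    show c.nk ≠ 0
    omega
  have h2 : Q x (fun _ => 0) = 0 := h0
  show 0 ≤ Q x u
  linarith

theorem kerK_L {α : Type} [Rule α] (F : RT α → ℝ) (B : RT α) :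
    (kerK α).L F B = gen F B - B.upr * F B := by
  show Q B F - (B.size : ℝ) * F B = Q B F - ((B.size : ℝ) - B.upr) * F B - B.upr * F B
  ring

theorem D6_gen_zero {α : Type} [Rule α] (B : RT α) : gen (fun _ => 0) B = 0 := by
  have h0 : (kerK α).P (fun _ => 0) B = 0 := (kerK α).P_zero B
  have h2 : Q B (fun _ => 0) = 0 := h0
  unfold gen
  rw [h2]
  ring

theorem D6_gen_smul {α : Type} [Rule α] (r : ℝ) (F : RT α → ℝ) (B : RT α) :
    gen (fun c => r * F c) B = r * gen F B := by
  have h0 : Q B (fun c => r * F c) = r * Q B F := (kerK α).P_smul r F B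
  unfold gen
  rw [h0]
  ring

/-- `gen_node`, with the sums rearranged -/
theorem D6_gen {α : Type} [Rule α] (G : ℕ → ℕ → ℝ) (H : ℕ → RT α → ℝ)
    (hH : ∀ l c, c.nk = 0 → H l c = 0) (F : RT α → ℝ)
    (hF : ∀ a n K, F (node a n K) = G (nl (node a n K)) (n + 1) + ∑ i, H (nl (node a n K)) (K i))
    (a : α) (n : ℕ) (K : Fin n → RT α) (l : ℕ) (hl : l = nl (node a n K)) (v : ℝ)
    (hv : ∀ i, (K i).nk = 0 → H (l - 1) (msg (K i)) = v) :
    gen F (node a n K) =
      ((l : ℝ) + kin (node a n K)) * (G (l + 1) (n + 2) - G l (n + 1)) +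
      (l : ℝ) / ((n : ℝ) + 1) * (G (l - 1) (n + 1) - G l (n + 1) + v) +
      ∑ i, (if (K i).nk = 0 then 0 else
        ((l : ℝ) + kin (node a n K)) * (H (l + 1) (K i) - H l (K i)) +
        (l : ℝ) / ((n : ℝ) + 1) * (H (l - 1) (K i) - H l (K i)) +
        1 / ((n : ℝ) + 1) * (H l (msg (K i)) - H l (K i)) + gen (H l) (K i)) := by
  rw [gen_node G H hH F hF a n K l hl]
  have hle : (∑ i, (if (K i).nk = 0 then (1 : ℝ) else 0)) = (l : ℝ) := by
    rw [hl]
    simp only [nl]
    push_cast
    rfl
  have hkin : kin (node a n K) = ∑ i, if (K i).nk = 0 then 0 else upr (K i) := rfl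
  set Sp : ℝ := ∑ j, (H (l + 1) (K j) - H l (K j)) with hSp
  set Sm : ℝ := ∑ j, (H (l - 1) (K j) - H l (K j)) with hSm
  have hSp' : Sp = ∑ i, (if (K i).nk = 0 then 0 else (H (l + 1) (K i) - H l (K i))) := by
    rw [hSp]
    apply Finset.sum_congr rfl
    intro i _
    by_cases h0 : (K i).nk = 0
    · rw [if_pos h0, hH _ _ h0, hH _ _ h0]; ring
    · rw [if_neg h0]
  have hSm' : Sm = ∑ i, (if (K i).nk = 0 then 0 else (H (l - 1) (K i) - H l (K i))) := by
    rw [hSm]
    apply Finset.sum_congr rfl
    intro i _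
    by_cases h0 : (K i).nk = 0
    · rw [if_pos h0, hH _ _ h0, hH _ _ h0]; ring
    · rw [if_neg h0]
  have e1 : ∀ i, (if (K i).nk = 0 then
        1 / ((n : ℝ) + 1) * (G (l - 1) (n + 1) - G l (n + 1) + Sm + H (l - 1) (msg (K i))) +
        (G (l + 1) (n + 2) - G l (n + 1) + Sp)
      else
        1 / ((n : ℝ) + 1) * (H l (msg (K i)) - H l (K i)) + gen (H l) (K i) +
        upr (K i) * (G (l + 1) (n + 2) - G l (n + 1) + Sp)) =
      (if (K i).nk = 0 then (1 : ℝ) else 0) *
        (1 / ((n : ℝ) + 1) * (G (l - 1) (n + 1) - G l (n + 1) + Sm + v) +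
        (G (l + 1) (n + 2) - G l (n + 1) + Sp)) +
      (if (K i).nk = 0 then 0 else upr (K i)) * (G (l + 1) (n + 2) - G l (n + 1) + Sp) +
      (if (K i).nk = 0 then 0 else
        1 / ((n : ℝ) + 1) * (H l (msg (K i)) - H l (K i)) + gen (H l) (K i)) := by
    intro i
    by_cases h0 : (K i).nk = 0
    · rw [if_pos h0, if_pos h0, if_pos h0, if_pos h0, hv i h0]; ring
    · rw [if_neg h0, if_neg h0, if_neg h0, if_neg h0]; ring
  have e2 : ∀ i, (if (K i).nk = 0 then 0 else
        ((l : ℝ) + kin (node a n K)) * (H (l + 1) (K i) - H l (K i)) +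
        (l : ℝ) / ((n : ℝ) + 1) * (H (l - 1) (K i) - H l (K i)) +
        1 / ((n : ℝ) + 1) * (H l (msg (K i)) - H l (K i)) + gen (H l) (K i)) =
      ((l : ℝ) + kin (node a n K)) *
        (if (K i).nk = 0 then 0 else (H (l + 1) (K i) - H l (K i))) +
      (l : ℝ) / ((n : ℝ) + 1) * (if (K i).nk = 0 then 0 else (H (l - 1) (K i) - H l (K i))) +
      (if (K i).nk = 0 then 0 else
        1 / ((n : ℝ) + 1) * (H l (msg (K i)) - H l (K i)) + gen (H l) (K i)) := by
    intro i
    by_cases h0 : (K i).nk = 0
    · simp only [h0, if_true]; ring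
    · simp only [h0, if_false]; ring
  rw [Finset.sum_congr rfl (fun i _ => e1 i), Finset.sum_congr rfl (fun i _ => e2 i)]
  simp only [Finset.sum_add_distrib]
  rw [← Finset.sum_mul, ← Finset.sum_mul, ← Finset.mul_sum, ← Finset.mul_sum, hle, ← hkin,
    ← hSp', ← hSm']
  ring

/-- the constants are a subsolution, up to `κ` -/
theorem D6_silent_core (A : RT Unit) (hA : A.nk ≠ 0) :
    0 ≤ (kerK Unit).L (fun B => 1 - kap B.nl) A := by
  rw [kerK_L]
  cases A with
  | node a n K =>
    have hn : n ≠ 0 := hA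
    set l := nl (node a n K) with hl
    have hln : l ≤ n := nl_le_nk (node a n K)
    have h := D6_gen (fun l _ => 1 - kap l) (fun _ _ => (0 : ℝ)) (fun _ _ _ => rfl)
      (fun B : RT Unit => 1 - kap B.nl) (fun a n K => by simp) a n K l hl 0 (fun _ _ => rfl)
    rw [h]
    have hz : ∑ i, (if (K i).nk = 0 then 0 else
        ((l : ℝ) + kin (node a n K)) * ((0 : ℝ) - 0) +
        (l : ℝ) / ((n : ℝ) + 1) * ((0 : ℝ) - 0) +
        1 / ((n : ℝ) + 1) * ((0 : ℝ) - 0) + gen (fun _ => (0 : ℝ)) (K i)) = 0 := by
      apply Finset.sum_eq_zero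
      intro i _
      rw [D6_gen_zero]
      simp
    rw [hz]
    have hm := kap_main l (n + 1) (by omega) (by omega)
    have ha := kap_anti l
    have hk : 0 ≤ kin (node a n K) := kin_nonneg _
    have hu : upr (node a n K) = 1 / ((n : ℝ) + 1) := rfl
    rw [hu]
    push_cast at hm
    have hx : 0 ≤ kin (node a n K) * (kap l - kap (l + 1)) := mul_nonneg hk (by linarith)
    linear_combination hx + hm

/-- The root stays silent towards its parent with probability at least `1 - κ (nl)` (`gen_node` with
`G l d = 1 - κ l`, `H = 0`, and `kap_main`, `kap_anti`). -/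
theorem silent_ge {t : ℝ} (ht : 0 ≤ t) (A : RT Unit) (hA : A.nk ≠ 0) :
    1 - kap A.nl ≤ (kerK Unit).sg t (fun _ => 1) A := by
  have hG : (kerK Unit).Gr (fun B => 1 - kap B.nl) :=
    Ker.Gr.of_bdd (k := kerK Unit) (M := 1) (fun B => by
      have h1 := kap_pos B.nl
      have h2 := kap_le_one B.nl
      rw [abs_le]
      constructor <;> linarith)
  have h := (kerK Unit).exp_le_sg closed_kerK hG (a := 0) (fun x hx => by
    rw [zero_mul]; exact D6_silent_core x hx) ht (x := A) hA
  rw [zero_mul, Real.exp_zero, one_mul] at h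
  refine h.trans ?_
  apply (kerK Unit).sg_mono closed_kerK hG (Ker.Gr.const (k := kerK Unit) 1) ?_ ht hA
  intro y _
  have h1 := kap_pos y.nl
  linarith

theorem silent_le_one {t : ℝ} (ht : 0 ≤ t) (A : RT Unit) :
    (kerK Unit).sg t (fun _ => 1) A ≤ 1 := by
  have h := (kerK Unit).sg_le_exp (kerK Unit).closed_univ (Ker.Gr.const (k := kerK Unit) 1)
    (a := 0) (fun x _ => by
      have h1 : (kerK Unit).P (fun _ => 1) x = (x.size : ℝ) - x.upr := Q_one x
      have h2 := upr_nonneg x
      show (kerK Unit).P (fun _ => 1) x - (x.size : ℝ) * 1 ≤ 0 * 1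
      linarith) ht (x := A) (Set.mem_univ A)
  simpa using h

theorem D6_fg_msg_leaf {B : RT Bool} (h : B.nk = 0) : fg (msg B) = fresh := by
  cases B with
  | node a n K =>
    have hn : n = 0 := h
    subst hn
    rw [fg_msg]
    show node () 1 _ = node () 1 _
    congr 1

theorem D6_lab_msg (B : RT Bool) : (msg B).lab = decide (B.nk ≠ 0) := by
  cases B; rfl

/-- `Ξ = (1 - κ l) lo` with `c = 1/25` is a subsolution of the killed equation.  `gen_node` with
`G̃ l d = u l (c Γ th l d)`, `H̃ l c = u l (H l c)`, `u = 1 - κ`.  Flagged kids: the coefficient of `lo (kid)` is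
`l/d (u(l-1)-u l) + (l+kin) (u(l+1)-u l) - u l/d ≥ 0` (`kap_main`), plus `u l gen lo ≥ u l lo'`.  Unflagged kids:
`H̃ l = u² g`; `u(l±1)² - u² ≥ 2u (u(l±1) - u)`, so the coefficient of `g` is at least
`2u [l/d (u(l-1)-u) + l (u(l+1)-u) - u/d] ≥ 0`.  Root: `th_mono`, `th_mono_left`, `kap_main` reduce to
`u cΓ (loc part of th) + l/d u(l-1)² Γ ≥ u c Γ' th`: for `l ≥ 2` by `u(l-1)² ≥ 1/25`, `th_sub`, `th_le`, for
`l = 1` by `th_one`, for `l = 0` trivial. -/
theorem kill_core {t : ℝ} (ht : 0 < t) (B : RT Bool) (hB : B.nk ≠ 0) :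
    (1 - kap B.nl) * lo' (1 / 25) t B ≤
      (kerK Bool).L (fun c => (1 - kap c.nl) * lo (1 / 25) t c) B := by
  rw [kerK_L]
  cases B with
  | node a n K =>
    have hn : n ≠ 0 := hB
    set l := nl (node a n K) with hl
    have hln : l ≤ n := nl_le_nk (node a n K)
    set H : ℕ → RT Bool → ℝ := fun l c => if c.nk = 0 then 0 else
      if c.lab = true then (1 - kap l) * lo (1 / 25) t c else
        (1 - kap l) * ((1 - kap l) * g1 t (fg c)) with hHdef
    have hF : ∀ (a : Bool) (n : ℕ) (K : Fin n → RT Bool),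
        (fun c : RT Bool => (1 - kap c.nl) * lo (1 / 25) t c) (node a n K) =
          (fun l d => (1 - kap l) * (1 / 25 * Gam t * th l d)) (nl (node a n K)) (n + 1) +
            ∑ i, H (nl (node a n K)) (K i) := by
      intro a n K
      show (1 - kap (nl (node a n K))) * lo (1 / 25) t (node a n K) = _
      unfold lo
      rw [fl_node, mul_add, Finset.mul_sum]
      congr 1
      apply Finset.sum_congr rfl
      intro i _
      rw [hHdef]
      unfold lo
      by_cases h0 : (K i).nk = 0
      · simp [h0]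
      · by_cases h1 : (K i).lab = true
        · simp [h0, h1]
        · simp [h0, h1]
    have hH : ∀ l c, c.nk = 0 → H l c = 0 := by
      intro l c hc
      simp [hHdef, hc]
    have hv : ∀ i, (K i).nk = 0 → H (l - 1) (msg (K i)) =
        (1 - kap (l - 1)) * ((1 - kap (l - 1)) * Gam t) := by
      intro i hi
      have h1 : (msg (K i)).lab = false := by rw [D6_lab_msg]; simp [hi]
      simp only [hHdef, nk_msg, h1, D6_fg_msg_leaf hi]
      simp [Gam]
    have hgen := D6_gen (fun l d => (1 - kap l) * (1 / 25 * Gam t * th l d)) H hH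
      (fun c : RT Bool => (1 - kap c.nl) * lo (1 / 25) t c) hF a n K l hl _ hv
    have hFn : (1 - kap l) * lo (1 / 25) t (node a n K) =
      (1 - kap l) * (1 / 25 * Gam t * th l (n + 1)) + ∑ i, H l (K i) := hF a n K
    rw [hgen, hFn]
    have hlo' : lo' (1 / 25) t (node a n K) = 1 / 25 * gen (g1 t) fresh * th l (n + 1) +
        ∑ i, (if (K i).nk = 0 then 0 else if (K i).lab = true then lo' (1 / 25) t (K i) else
          (1 - kap l) * gen (g1 t) (fg (K i))) := by
      unfold lo'
      rw [fl_node, ← hl]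
      congr 1
      apply Finset.sum_congr rfl
      intro i _
      by_cases h0 : (K i).nk = 0
      · simp [h0]
      · by_cases h1 : (K i).lab = true
        · simp [h0, h1]
        · simp [h0, h1]
    rw [hlo']
    have hu : upr (node a n K) = 1 / ((n : ℝ) + 1) := rfl
    rw [hu]
    -- notation
    have hd0 : (0 : ℝ) < (n : ℝ) + 1 := by positivity
    have hl0 : (0 : ℝ) ≤ (l : ℝ) := by positivity
    have hk : 0 ≤ kin (node a n K) := kin_nonneg _
    have hm := kap_main l (n + 1) (by omega) (by omega)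
    push_cast at hm
    have hap := kap_anti l
    have ham : kap l ≤ kap (l - 1) := by
      rcases Nat.eq_zero_or_pos l with h | h
      · rw [h]
      · have := kap_anti (l - 1)
        rwa [Nat.sub_add_cancel h] at this
    have hk1 := kap_le_one l
    have hk1m := kap_le_one (l - 1)
    have hk1p := kap_le_one (l + 1)
    have hG0 : 0 ≤ Gam t := le_trans zero_le_one (one_le_Gam ht.le)
    set D : ℝ := (l : ℝ) + kin (node a n K) with hD
    have hDl : (l : ℝ) ≤ D := by linarith
    have hld : 0 ≤ (l : ℝ) / ((n : ℝ) + 1) := by positivity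
    -- the key coefficient
    have hcoef : 0 ≤ D * (kap l - kap (l + 1)) + (l : ℝ) / ((n : ℝ) + 1) * (kap l - kap (l - 1)) -
        1 / ((n : ℝ) + 1) * (1 - kap l) := by
      have h1 : (l : ℝ) * (kap l - kap (l + 1)) ≤ D * (kap l - kap (l + 1)) :=
        mul_le_mul_of_nonneg_right hDl (by linarith)
      linarith
    -- kids
    have hkid : ∀ i, (1 - kap l) * (if (K i).nk = 0 then 0 else
          if (K i).lab = true then lo' (1 / 25) t (K i) else
          (1 - kap l) * gen (g1 t) (fg (K i))) + 1 / ((n : ℝ) + 1) * H l (K i) ≤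
        (if (K i).nk = 0 then 0 else
        D * (H (l + 1) (K i) - H l (K i)) +
        (l : ℝ) / ((n : ℝ) + 1) * (H (l - 1) (K i) - H l (K i)) +
        1 / ((n : ℝ) + 1) * (H l (msg (K i)) - H l (K i)) + gen (H l) (K i)) := by
      intro i
      by_cases h0 : (K i).nk = 0
      · rw [if_pos h0, if_pos h0, hH _ _ h0]; simp
      rw [if_neg h0, if_neg h0]
      have hlm : (msg (K i)).lab = true := by rw [D6_lab_msg]; simp [h0]
      have hmsg : H l (msg (K i)) = (1 - kap l) * lo (1 / 25) t (msg (K i)) := by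
        simp [hHdef, hlm]
      rw [hmsg]
      have hlo0 : 0 ≤ lo (1 / 25) t (K i) := lo_nonneg (by norm_num) ht.le _
      have hlm' : lo (1 / 25) t (K i) ≤ lo (1 / 25) t (msg (K i)) :=
        lo_msg (by norm_num) ht.le _ h0
      by_cases h1 : (K i).lab = true
      · rw [if_pos h1]
        have hHi : ∀ m, H m (K i) = (1 - kap m) * lo (1 / 25) t (K i) := by
          intro m; simp [hHdef, h0, h1]
        have hgi : gen (H l) (K i) = (1 - kap l) * gen (lo (1 / 25) t) (K i) := by
          rw [← D6_gen_smul]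
          unfold gen
          rw [hHi]
          congr 1
          apply Q_congr_lab
          intro c hc hcl
          have h2 : c.nk ≠ 0 := by omega
          simp [hHdef, h2, hcl, h1]
        rw [hHi, hHi, hHi, hgi]
        have hc := lo_core (c := 1 / 25) (by norm_num) (by norm_num) ht (K i) h0
        have e1 : (1 - kap l) * lo' (1 / 25) t (K i) ≤ (1 - kap l) * gen (lo (1 / 25) t) (K i) :=
          mul_le_mul_of_nonneg_left hc (by linarith)
        have e2 := mul_nonneg hcoef hlo0
        have e3 : 1 / ((n : ℝ) + 1) * ((1 - kap l) * lo (1 / 25) t (K i)) ≤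
            1 / ((n : ℝ) + 1) * ((1 - kap l) * lo (1 / 25) t (msg (K i))) :=
          mul_le_mul_of_nonneg_left (mul_le_mul_of_nonneg_left hlm' (by linarith)) (by positivity)
        linear_combination e1 + e2 + e3
      · rw [if_neg h1]
        have hHi : ∀ m, H m (K i) = (1 - kap m) * ((1 - kap m) * g1 t (fg (K i))) := by
          intro m; simp [hHdef, h0, h1]
        have hgi : gen (H l) (K i) = (1 - kap l) * ((1 - kap l) * gen (g1 t) (fg (K i))) := by
          rw [← gen_fg, ← D6_gen_smul, ← D6_gen_smul]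
          unfold gen
          rw [hHi]
          congr 1
          apply Q_congr_lab
          intro c hc hcl
          have h2 : c.nk ≠ 0 := by omega
          have h3 : c.lab = false := by
            rw [hcl]; simpa using h1
          simp [hHdef, h2, h3]
        rw [hHi, hHi, hHi, hgi]
        have hg0 : 0 ≤ g1 t (fg (K i)) := g1_nonneg ht.le _
        have hl0' : 0 ≤ lo (1 / 25) t (msg (K i)) := lo_nonneg (by norm_num) ht.le _
        have e2 := mul_nonneg (mul_nonneg (show (0 : ℝ) ≤ 2 * (1 - kap l) by linarith) hcoef) hg0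
        have e3 : 0 ≤ 1 / ((n : ℝ) + 1) * ((1 - kap l) * lo (1 / 25) t (msg (K i))) := by
          have : 0 ≤ 1 - kap l := by linarith
          positivity
        have e4 : 0 ≤ D * (kap l - kap (l + 1)) ^ 2 * g1 t (fg (K i)) := by
          have : 0 ≤ D := le_trans hl0 hDl
          positivity
        have e5 : 0 ≤ (l : ℝ) / ((n : ℝ) + 1) * (kap l - kap (l - 1)) ^ 2 * g1 t (fg (K i)) := by
          positivity
        linear_combination e2 + e3 + e4 + e5
    have hsum := Finset.sum_le_sum (s := (Finset.univ : Finset (Fin n))) (fun i _ => hkid i)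
    rw [Finset.sum_add_distrib, ← Finset.mul_sum, ← Finset.mul_sum] at hsum
    -- root
    have hroot : (1 - kap l) * (1 / 25 * gen (g1 t) fresh * th l (n + 1)) +
        1 / ((n : ℝ) + 1) * ((1 - kap l) * (1 / 25 * Gam t * th l (n + 1))) ≤
        D * ((1 - kap (l + 1)) * (1 / 25 * Gam t * th (l + 1) (n + 2)) -
          (1 - kap l) * (1 / 25 * Gam t * th l (n + 1))) +
        (l : ℝ) / ((n : ℝ) + 1) * ((1 - kap (l - 1)) * (1 / 25 * Gam t * th (l - 1) (n + 1)) -
          (1 - kap l) * (1 / 25 * Gam t * th l (n + 1)) +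
          (1 - kap (l - 1)) * ((1 - kap (l - 1)) * Gam t)) := by
      have hT0 := th_nonneg l (n + 1)
      have hTm0 := th_nonneg (l - 1) (n + 1)
      have hTp : th l (n + 1) ≤ th (l + 1) (n + 2) := th_mono (by omega) (by omega)
      have hTm : th (l - 1) (n + 1) ≤ th l (n + 1) := th_mono_left l (n + 1)
      have hsub := th_sub (l := l) (d := n + 1) (by omega) (by omega)
      have hG' : gen (g1 t) fresh ≤ Gam t := Gam_deriv_le ht
      push_cast at hsub
      set T := th l (n + 1) with hT
      set Tp := th (l + 1) (n + 2) with hTpdef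
      set Tm := th (l - 1) (n + 1) with hTmdef
      set X : ℝ := (l : ℝ) * (Tp - T) + (l : ℝ) / ((n : ℝ) + 1) * (Tm - T) with hX
      have hX0 : 0 ≤ X := hsub
      have f1 : (l : ℝ) * ((1 - kap (l + 1)) * Tp - (1 - kap l) * T) ≤
          D * ((1 - kap (l + 1)) * Tp - (1 - kap l) * T) := by
        apply mul_le_mul_of_nonneg_right hDl
        have : (1 - kap l) * T ≤ (1 - kap (l + 1)) * Tp :=
          mul_le_mul (by linarith) hTp hT0 (by linarith)
        linarith
      have f2 : 0 ≤ (l : ℝ) * ((kap l - kap (l + 1)) * (Tp - T)) :=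
        mul_nonneg hl0 (mul_nonneg (by linarith) (by linarith))
      have f3 : 0 ≤ (l : ℝ) / ((n : ℝ) + 1) * ((kap (l - 1) - kap l) * (T - Tm)) :=
        mul_nonneg hld (mul_nonneg (by linarith) (by linarith))
      have f4 : 0 ≤ T * ((l : ℝ) * (kap l - kap (l + 1)) +
          (l : ℝ) / ((n : ℝ) + 1) * (kap l - kap (l - 1)) -
          1 / ((n : ℝ) + 1) * (1 - kap l)) := mul_nonneg hT0 (by linarith)
      -- main part
      have f5 : (1 - kap l) * X ≤ D * ((1 - kap (l + 1)) * Tp - (1 - kap l) * T) +
          (l : ℝ) / ((n : ℝ) + 1) * ((1 - kap (l - 1)) * Tm - (1 - kap l) * T) -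
          1 / ((n : ℝ) + 1) * ((1 - kap l) * T) := by
        linear_combination f1 + f2 + f3 + f4
      have f6 : (1 - kap l) * (1 / 25 * gen (g1 t) fresh * T) ≤
          1 / 25 * Gam t * ((1 - kap l) * X) +
          (l : ℝ) / ((n : ℝ) + 1) * ((1 - kap (l - 1)) * ((1 - kap (l - 1)) * Gam t)) := by
        have g1' : (1 - kap l) * (1 / 25 * gen (g1 t) fresh * T) ≤
            (1 - kap l) * (1 / 25 * Gam t * T) := by
          apply mul_le_mul_of_nonneg_left _ (by linarith)
          apply mul_le_mul_of_nonneg_right _ hT0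
          linarith
        refine g1'.trans ?_
        have g2 : 0 ≤ (l : ℝ) / ((n : ℝ) + 1) *
            ((1 - kap (l - 1)) * ((1 - kap (l - 1)) * Gam t)) := by
          have : 0 ≤ 1 - kap (l - 1) := by linarith
          positivity
        have g3 : 0 ≤ 1 / 25 * Gam t * ((1 - kap l) * X) := by
          have : 0 ≤ 1 - kap l := by linarith
          positivity
        rcases Nat.lt_or_ge l 1 with h | h
        · have hl' : l = 0 := by omega
          have : T = 0 := by rw [hT, hl']; simp
          rw [this]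
          linarith
        rcases Nat.lt_or_ge l 2 with h2 | h2
        · have hl' : l = 1 := by omega
          have hTX : T ≤ X := by
            have h3 := th_one (d := n + 1) (by omega)
            have h4 : Tm = 0 := by rw [hTmdef, hl']; simp
            have h5 : (l : ℝ) = 1 := by rw [hl']; norm_num
            have h6 : T = th 1 (n + 1) := by rw [hT, hl']
            have h7 : Tp = th 2 (n + 2) := by rw [hTpdef, hl']
            have h8 : (2 + 1 / ((n + 1 : ℕ) : ℝ)) * th 1 (n + 1) ≤ th 2 (n + 2) := h3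
            rw [hX, h4, h5, h6, h7]
            push_cast at h8
            linarith
          have h9 : (1 - kap l) * (1 / 25 * Gam t * T) ≤ 1 / 25 * Gam t * ((1 - kap l) * X) := by
            have : 0 ≤ 1 - kap l := by linarith
            have h10 := mul_le_mul_of_nonneg_left hTX (show 0 ≤ 1 / 25 * Gam t * (1 - kap l) by
              positivity)
            linarith
          linarith
        · have h3 : kap (l - 1) ≤ 4 / 5 := kap_le (by omega)
          have h4 : T ≤ (l : ℝ) / ((n : ℝ) + 1) := by
            have := th_le (l := l) (d := n + 1) (by omega)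
            push_cast at this
            exact this
          have h5 : (1 - kap l) * (1 / 25 * Gam t * T) ≤
              1 * (1 / 25 * Gam t * ((l : ℝ) / ((n : ℝ) + 1))) := by
            apply mul_le_mul
            · have := kap_pos l; linarith
            · exact mul_le_mul_of_nonneg_left h4 (by positivity)
            · positivity
            · norm_num
          have h6 : 1 / 25 * Gam t ≤ (1 - kap (l - 1)) * ((1 - kap (l - 1)) * Gam t) := by
            have h7 : (1 / 25 : ℝ) ≤ (1 - kap (l - 1)) * (1 - kap (l - 1)) := by nlinarith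
            have h8 := mul_le_mul_of_nonneg_right h7 hG0
            linarith
          have h7 := mul_le_mul_of_nonneg_left h6 hld
          linarith
      have f7 := mul_le_mul_of_nonneg_left f5 (show 0 ≤ 1 / 25 * Gam t by positivity)
      linear_combination f6 + f7
    linear_combination hsum + hroot

theorem D6_iter_fg (f : RT Unit → ℝ) (j : ℕ) (B : RT Bool) :
    ((kerK Bool).P^[j] (fun c => f (fg c))) B = ((kerK Unit).P^[j] f) (fg B) := by
  induction j generalizing f with
  | zero => rfl
  | succ j ih =>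
    have h : (kerK Bool).P (fun c => f (fg c)) = fun c => (kerK Unit).P f (fg c) :=
      funext fun c => (Q_fg c f).symm
    rw [Function.iterate_succ_apply, Function.iterate_succ_apply, ← ih, h]

theorem D6_sg_fg (f : RT Unit → ℝ) (t : ℝ) (B : RT Bool) :
    (kerK Bool).sg t (fun c => f (fg c)) B = (kerK Unit).sg t f (fg B) := by
  unfold Ker.sg
  simp only [D6_iter_fg]
  have : (kerK Bool).lev B = (kerK Unit).lev (fg B) := (size_fg B).symm
  rw [this]

theorem kill_lower {t : ℝ} (ht : 0 ≤ t) :
    4 / 3125 * Gam t ≤ (kerK Unit).sg t pop fresh := by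
  have hGpop : (kerK Bool).Gr (fun c : RT Bool => pop (fg c)) := by
    apply Ker.Gr.of_lin (k := kerK Bool) (M := 1)
    intro x
    have h1 : pop (fg x) ≤ x.size := by
      have := pop_le_size (fg x)
      rwa [size_fg] at this
    have h2 : 0 ≤ pop (fg x) := pop_nonneg _
    rw [abs_of_nonneg h2, one_mul]
    show pop (fg x) ≤ (x.size : ℝ) + 1
    linarith
  have hGsize : (kerK Bool).Gr (fun c : RT Bool => (c.size : ℝ)) := by
    apply Ker.Gr.of_lin (k := kerK Bool) (M := 1)
    intro x
    have h2 : (0 : ℝ) ≤ (x.size : ℝ) := by positivity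
    rw [abs_of_nonneg h2, one_mul]
    show (x.size : ℝ) ≤ (x.size : ℝ) + 1
    linarith
  have hu : ∀ x : RT Bool, 0 ≤ 1 - kap x.nl ∧ 1 - kap x.nl ≤ 1 := fun x =>
    ⟨by have := kap_le_one x.nl; linarith, by have := kap_pos x.nl; linarith⟩
  have key := (kerK Bool).sub_le_sg closed_kerK hGpop
    (b := fun s c => (1 - kap c.nl) * lo (1 / 25) s c)
    (b' := fun s c => (1 - kap c.nl) * lo' (1 / 25) s c)
    (fun x hx => by
      have h1 := lo_zero_le (c := 1 / 25) (by norm_num) x hx
      have h2 := lo_nonneg (c := 1 / 25) (t := 0) (by norm_num) le_rfl x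
      have h3 : pop (fg x) = pop x := asum_fg _ x
      show (1 - kap x.nl) * lo (1 / 25) 0 x ≤ pop (fg x)
      rw [h3]
      have h4 : (1 - kap x.nl) * lo (1 / 25) 0 x ≤ 1 * lo (1 / 25) 0 x :=
        mul_le_mul_of_nonneg_right (hu x).2 h2
      linarith)
    (fun x _ => continuousOn_const.mul (lo_continuousOn _ x))
    (fun x _ s hs => (lo_hasDerivAt (1 / 25) hs x).const_mul _)
    (fun x hx s hs => kill_core hs x hx)
    (by
      have h1 : (kerK Bool).TGr {B | B.nk ≠ 0}
          (fun s (c : RT Bool) => (2 * Real.exp s) * (c.size : ℝ)) :=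
        Ker.TGr.mul (k := kerK Bool) hGsize (by fun_prop)
      apply Ker.TGr.of_abs_le (k := kerK Bool) h1
      intro s hs x _
      have h2 := lo_nonneg (c := 1 / 25) (by norm_num) hs x
      have h3 := lo_le (c := 1 / 25) (by norm_num) (by norm_num) hs x
      rw [abs_of_nonneg (mul_nonneg (hu x).1 h2)]
      have h4 : (1 - kap x.nl) * lo (1 / 25) s x ≤ 1 * lo (1 / 25) s x :=
        mul_le_mul_of_nonneg_right (hu x).2 h2
      linarith)
    (lift true fresh) (by show (lift true fresh).nk ≠ 0; simp [lift]) t ht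
  rw [D6_sg_fg, fg_lift] at key
  refine le_trans (le_of_eq ?_) key
  have h1 : (lift true (fresh : RT Unit)).nl = 1 := by simp [lift]
  have h2 : lo (1 / 25) t (lift true fresh) = 1 / 25 * Gam t * th 1 2 := by
    unfold lo
    rw [fl_lift_true _ _ _ _ _ (by simp), asum_fresh]
  simp only [h1, h2, th_one_two]
  have h3 : kap 1 = 4 / 5 := rfl
  rw [h3]
  ring

end RFT
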