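import Pool.Agent.H13.RF.D5
import Pool.Agent.H13.RF.D6
import Pool.Agent.H13.RF.B7

/-! Module D7: summary of the constants. -/

namespace RFT

open Finset RT

/-- pointed quantities: expected sum of `g` over the vertices descending from the pointed vertex -/
noncomputable def yy (g : ℕ → ℕ → ℝ) (t : ℝ) (x : RT Unit × RT Unit) : ℝ :=
  kerP.sg t (vf g) x

/-- number of descendants -/
noncomputable def y1 (t : ℝ) (x : RT Unit × RT Unit) : ℝ := yy (fun _ _ => 1) t x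

private theorem D7_om_ge {d : ℕ} (hd : 2 ≤ d) : (3 : ℝ) / 4 ≤ 1 - 1 / (2 * (d : ℝ)) := by
  have hd' : (2 : ℝ) ≤ d := by exact_mod_cast hd
  have : 1 / (2 * (d : ℝ)) ≤ 1 / 4 := by
    apply one_div_le_one_div_of_le <;> linarith
  linarith

private theorem D7_om_bdd (d : ℕ) : |1 - 1 / (2 * (d : ℝ))| ≤ 1 := by
  rcases Nat.eq_zero_or_pos d with rfl | hd
  · simp
  · have hd' : (1 : ℝ) ≤ d := by exact_mod_cast hd
    have h1 : 1 / (2 * (d : ℝ)) ≤ 1 := by
      rw [div_le_one (by positivity)]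
      linarith
    have h2 : 0 ≤ 1 / (2 * (d : ℝ)) := by positivity
    rw [abs_le]
    constructor <;> linarith

/-- `L (vf (1 - 1/(2d))) ≤ 19/25 vf (1 - 1/(2d))` on `C2` (`L_vf`, `rin_le`, `om_main`), and
`3/4 ≤ 1 - 1/(2d)` for `d ≥ 2` -/
theorem y1_le {t : ℝ} (ht : 0 ≤ t) {x : RT Unit × RT Unit} (hx : x ∈ C2) :
    y1 t x ≤ 4 / 3 * Real.exp (19 / 25 * t) := by
  set g : ℕ → ℕ → ℝ := fun _ d => 1 - 1 / (2 * (d : ℝ)) with hg
  have hGr : kerP.Gr (vf g) := Ker.Gr.of_bdd kerP (M := 1) fun x => D7_om_bdd _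
  have h1 : kerP.sg t (vf g) x ≤ Real.exp (19 / 25 * t) * vf g x := by
    refine kerP.sg_le_exp closed_C2 hGr (fun y hy => ?_) ht hx
    rw [L_vf hy]
    have hd := two_le_dg hy
    have hl := nl_add_one_le (x := y)
    have hr := rin_le hy
    have hm := om_main hl hd
    have hd' : (2 : ℝ) ≤ y.1.dg := by exact_mod_cast hd
    have hΔ : 0 ≤ (1 - 1 / (2 * ((y.1.dg : ℝ) + 1))) - (1 - 1 / (2 * (y.1.dg : ℝ))) := by
      have : 1 / (2 * ((y.1.dg : ℝ) + 1)) ≤ 1 / (2 * (y.1.dg : ℝ)) := by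
        apply one_div_le_one_div_of_le <;> linarith
      linarith
    have h2 : loc g y.1.nl y.1.dg + rin y * (g (y.1.nl + 1) (y.1.dg + 1) - g y.1.nl y.1.dg) =
        ((y.1.nl : ℝ) + rin y) *
          ((1 - 1 / (2 * ((y.1.dg : ℝ) + 1))) - (1 - 1 / (2 * (y.1.dg : ℝ)))) +
        (y.1.nl : ℝ) / y.1.dg * (3 / 4) := by
      simp only [loc, hg]
      push_cast
      ring
    rw [h2]
    have h3 : vf g y = 1 - 1 / (2 * (y.1.dg : ℝ)) := rfl
    rw [h3]
    nlinarith
  have h2 : y1 t x ≤ kerP.sg t (fun y => 4 / 3 * vf g y) x := by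
    unfold y1 yy
    refine kerP.sg_mono closed_C2 (Ker.Gr.of_bdd kerP (M := 1) fun x => ?_)
      (Ker.Gr.smul kerP hGr _) (fun y hy => ?_) ht hx
    · simp [vf]
    · have := D7_om_ge (two_le_dg hy)
      simp only [vf, hg]
      linarith
  rw [kerP.sg_smul] at h2
  have h3 : vf g x ≤ 1 := (le_abs_self _).trans (D7_om_bdd _)
  have h4 : 0 < Real.exp (19 / 25 * t) := Real.exp_pos _
  nlinarith

/-- All the constants.  `c exp (μ t)` and `C exp (μ t)` are lower and upper bounds. -/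
structure Bd (μ c C : ℝ) : Prop where
  c_pos : 0 < c
  C_pos : 0 < C
  mu_ge : 2 / 5 ≤ μ
  mu_le : μ ≤ 19 / 25
  gam_lo : ∀ t, 0 ≤ t → c * Real.exp (μ * t) ≤ Gam t
  gam_hi : ∀ t, 0 ≤ t → Gam t ≤ C * Real.exp (μ * t)
  lo : ∀ (E : Type) (𝓔 : Env E) (t : ℝ), 0 ≤ t → ∀ B : RT Unit, B.nk ≠ 0 → ∀ e : E,
    c * Real.exp (μ * t) * asum th B ≤ (𝓔.ker Unit).sg t (fun x => pop x.1) (B, e)
  hi : ∀ (E : Type) (𝓔 : Env E) (t : ℝ), 0 ≤ t → ∀ B : RT Unit, B.nk ≠ 0 → ∀ e : E,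
    (𝓔.ker Unit).sg t (fun x => pop x.1) (B, e) ≤ C * Real.exp (μ * t) * pop B
  kill : ∀ t, 0 ≤ t → c * Real.exp (μ * t) ≤ (kerK Unit).sg t pop fresh

private theorem D7_asum_nonneg {g : ℕ → ℕ → ℝ} (hg : ∀ l d, 0 ≤ g l d) (B : RT Unit) :
    0 ≤ asum g B := by
  induction B with
  | node a n K ih =>
    by_cases hn : n = 0
    · simp [asum, hn]
    · rw [asum_node g a n K hn]
      exact add_nonneg (hg _ _) (Finset.sum_nonneg fun i _ => ih i)

/-- comparison of exponentials -/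
private theorem D7_exp_le {a b μ ν : ℝ} (ha : 0 < a)
    (h : ∀ t : ℝ, 0 ≤ t → a * Real.exp (μ * t) ≤ b * Real.exp (ν * t)) : μ ≤ ν := by
  by_contra hcon
  push Not at hcon
  have hb : 0 < b := by
    have := h 0 le_rfl
    simp only [mul_zero, Real.exp_zero, mul_one] at this
    linarith
  have hd : 0 < μ - ν := by linarith
  have h1 := h (b / (a * (μ - ν))) (by positivity)
  set t : ℝ := b / (a * (μ - ν)) with ht
  have h2 : Real.exp (μ * t) = Real.exp (ν * t) * Real.exp ((μ - ν) * t) := by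
    rw [← Real.exp_add]
    congr 1
    ring
  rw [h2] at h1
  have h3 : (μ - ν) * t + 1 ≤ Real.exp ((μ - ν) * t) := Real.add_one_le_exp _
  have h4 : a * ((μ - ν) * t) = b := by
    rw [ht]
    field_simp
  have h5 : 0 < Real.exp (ν * t) := Real.exp_pos _
  have h6 : a * Real.exp ((μ - ν) * t) ≤ b := by
    have h7 : Real.exp (ν * t) * (a * Real.exp ((μ - ν) * t)) ≤ Real.exp (ν * t) * b := by
      linarith
    exact le_of_mul_le_mul_left h7 h5
  nlinarith

/-- `μ ≤ 19/25` from `lo` at `(fresh, fresh)`, `sg_asum_eq`, `Ssum_fresh` and `y1_le` -/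
theorem exists_Bd : ∃ μ c C : ℝ, Bd μ c C := by
  obtain ⟨μ, c, C, hμ, hc, hC, hG⟩ := Gam_exponent
  obtain ⟨C1, hC1, hup⟩ := harnack_upper
  have hlo : ∀ (E : Type) (𝓔 : Env E) (t : ℝ), 0 ≤ t → ∀ B : RT Unit, B.nk ≠ 0 → ∀ e : E,
      c / 5 * Real.exp (μ * t) * asum th B ≤ (𝓔.ker Unit).sg t (fun x => pop x.1) (B, e) := by
    intro E 𝓔 t ht B hB e
    refine le_trans ?_ (harnack_lower 𝓔 ht B hB e)
    have h1 := (hG t ht).1
    have h2 : 0 ≤ asum th B := D7_asum_nonneg (fun l d => th_nonneg l d) B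
    apply mul_le_mul_of_nonneg_right _ h2
    linarith
  have hmu : μ ≤ 19 / 25 := by
    apply D7_exp_le (a := c / 5 * (4 / 25)) (b := 4 / 3) (by positivity)
    intro t ht
    have hf : (fresh : RT Unit).nk ≠ 0 := by rw [nk_fresh]; norm_num
    have h1 := hlo (RT Unit) Env.rt t ht fresh hf fresh
    have h2 : (Env.rt.ker Unit).sg t (fun x => pop x.1) ((fresh : RT Unit), (fresh : RT Unit)) =
        Ssum (kerP.sg t (vf (fun _ _ => 1))) fresh fresh :=
      sg_asum_eq (g := fun _ _ => 1) (M := 1) (fun _ _ => by simp) ht hf hf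
    rw [h2, Ssum_fresh, asum_fresh, th_one_two] at h1
    have h3 : y1 t (fresh, fresh) ≤ 4 / 3 * Real.exp (19 / 25 * t) := y1_le ht ⟨hf, hf⟩
    unfold y1 yy at h3
    linarith
  refine ⟨μ, c * (4 / 3125), max C (C1 * C), ?_⟩
  refine
    { c_pos := by positivity
      C_pos := lt_of_lt_of_le hC (le_max_left _ _)
      mu_ge := hμ
      mu_le := hmu
      gam_lo := ?_
      gam_hi := ?_
      lo := ?_
      hi := ?_
      kill := ?_ }
  · intro t ht
    have h1 := (hG t ht).1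
    have h2 : 0 < Real.exp (μ * t) := Real.exp_pos _
    nlinarith [mul_pos hc h2]
  · intro t ht
    have h1 := (hG t ht).2
    have h2 : 0 < Real.exp (μ * t) := Real.exp_pos _
    have h3 : C * Real.exp (μ * t) ≤ max C (C1 * C) * Real.exp (μ * t) :=
      mul_le_mul_of_nonneg_right (le_max_left _ _) h2.le
    linarith
  · intro E 𝓔 t ht B hB e
    refine le_trans ?_ (hlo E 𝓔 t ht B hB e)
    have h2 : 0 ≤ asum th B := D7_asum_nonneg (fun l d => th_nonneg l d) B
    have h3 : 0 < Real.exp (μ * t) := Real.exp_pos _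
    apply mul_le_mul_of_nonneg_right _ h2
    nlinarith [mul_pos hc h3]
  · intro E 𝓔 t ht B hB e
    refine (hup E 𝓔 t ht B hB e).trans ?_
    have h1 := (hG t ht).2
    have h2 : 0 ≤ pop B := D7_asum_nonneg (fun _ _ => zero_le_one) B
    have h3 : 0 < Real.exp (μ * t) := Real.exp_pos _
    apply mul_le_mul_of_nonneg_right _ h2
    calc C1 * Gam t ≤ C1 * (C * Real.exp (μ * t)) := mul_le_mul_of_nonneg_left h1 hC1.le
      _ = C1 * C * Real.exp (μ * t) := by ring
      _ ≤ max C (C1 * C) * Real.exp (μ * t) :=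
          mul_le_mul_of_nonneg_right (le_max_right _ _) h3.le
  · intro t ht
    refine le_trans ?_ (kill_lower ht)
    have h1 := (hG t ht).1
    nlinarith

end RFT
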