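import Pool.Agent.H13.RF.Ker

/-!
# Rooted ordered trees, half-trees, and the friend tree dynamics

A whole tree with at least two vertices is a pair `(B, A)` of rooted ordered trees (half-trees) whose roots are
joined by an edge.  A vertex with `n` kids in a half-tree has degree `n + 1` (kids plus parent).  Dynamics: every
vertex rings at rate one and chooses a uniform neighbour, which gets a new leaf kid (appended at the end).

Labels: `RT Unit` is the plain tree.  In `RT Bool` the label says whether the vertex has received a message from its
parent since it is a non-leaf (flag); it is only used in the proofs of the two Harnack bounds.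
-/

namespace RFT

open Finset

/-- How labels evolve: label of a new leaf; new label upon a message from the parent
(the Boolean says whether the vertex was a non-leaf before the message). -/
class Rule (α : Type) where
  lf : α
  up : Bool → α → α

instance : Rule Unit := ⟨(), fun _ _ => ()⟩
instance : Rule Bool := ⟨false, fun b _ => b⟩

/-- Rooted ordered trees with labels. -/
inductive RT (α : Type) : Type
  | node (a : α) (n : ℕ) (K : Fin n → RT α) : RT α

namespace RT

variable {α β : Type}

/-- label of the root -/
def lab : RT α → α
  | node a _ _ => a

/-- number of kids of the root -/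
def nk : RT α → ℕ
  | node _ n _ => n

/-- degree of the root (kids and parent) -/
def dg (B : RT α) : ℕ := B.nk + 1

/-- number of vertices -/
def size : RT α → ℕ
  | node _ _ K => 1 + ∑ i, size (K i)

/-- rate at which the root sends a message to its parent -/
noncomputable def upr (B : RT α) : ℝ := 1 / ((B.nk : ℝ) + 1)

/-- number of leaf kids of the root -/
def nl : RT α → ℕ
  | node _ _ K => ∑ i, if (K i).nk = 0 then 1 else 0

/-- relabelling -/
def map (h : α → β) : RT α → RT β
  | node a n K => node (h a) n (fun i => map h (K i))

/-- forget the labels -/
def fg : RT α → RT Unit := map (fun _ => ())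

/-- replace the `i`-th kid -/
def rep (n : ℕ) (a : α) (K : Fin n → RT α) (i : Fin n) (c : RT α) : RT α :=
  node a n (Function.update K i c)

section rule

variable [Rule α]

/-- the one vertex tree -/
def leaf : RT α := node Rule.lf 0 Fin.elim0

/-- append a leaf kid to the root (message from a kid, or from outside) -/
def add : RT α → RT α
  | node a n K => node a (n + 1) (Fin.snoc (α := fun _ => RT α) K leaf)

/-- the root receives a message from its parent -/
def msg : RT α → RT α
  | node a n K => node (Rule.up (decide (n ≠ 0)) a) (n + 1) (Fin.snoc (α := fun _ => RT α) K leaf)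

/-- a new non-leaf: one leaf kid -/
def fresh : RT α := msg leaf

/-- Transitions inside the half-tree: sum over the transitions of rate times value.  Messages of the root to its
parent are not included. -/
noncomputable def Q : RT α → (RT α → ℝ) → ℝ
  | node a n K, u => ∑ i, (1 / ((n : ℝ) + 1) * u (rep n a K i (msg (K i))) +
      Q (K i) (fun c => u (rep n a K i c)) + upr (K i) * u (add (node a n K)))

end rule

/-- Sum of a function `g l d` (number of leaf neighbours, degree) over the non-leaf vertices of a half-tree whose
parent is a non-leaf. -/
noncomputable def asum (g : ℕ → ℕ → ℝ) : RT α → ℝ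
  | node a n K => if n = 0 then 0 else g (nl (node a n K)) (n + 1) + ∑ i, asum g (K i)

/-- number of non-leaf vertices -/
noncomputable def pop (B : RT α) : ℝ := asum (fun _ _ => 1) B

/-- The flagged functional: flagged kids count with their own value, the other non-leaf kids with
`a l * g (kid) + b l * (own value)`, where `l` is the number of leaf kids of the parent. -/
noncomputable def fl (G : ℕ → ℕ → ℝ) (a b : ℕ → ℝ) (g : RT Unit → ℝ) : RT Bool → ℝ
  | node c n K => G (nl (node c n K)) (n + 1) + ∑ i, if (K i).nk = 0 then 0 else
      if (K i).lab = true then fl G a b g (K i) else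
        a (nl (node c n K)) * g (fg (K i)) + b (nl (node c n K)) * fl G a b g (K i)

/-- all labels equal to `b` -/
def lift (b : α) (B : RT Unit) : RT α := map (fun _ => b) B

end RT

open RT

/-- An environment of a half-tree: it evolves by itself (`P`), sends messages to the root of the half-tree at rate
`snd e` and receives messages from it (`rcv e`). -/
structure Env (E : Type) where
  lev : E → ℕ
  P : (E → ℝ) → E → ℝ
  snd : E → ℝ
  rcv : E → E
  rep : ∀ x, ∃ l : List (ℝ × E), (∀ p ∈ l, 0 ≤ p.1 ∧ lev p.2 = lev x + 1) ∧
    ∀ u : E → ℝ, P u x = (l.map (fun p => p.1 * u p.2)).sum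
  snd_nonneg : ∀ e, 0 ≤ snd e
  tot : ∀ e, P (fun _ => 1) e + snd e = lev e
  lev_rcv : ∀ e, lev (rcv e) = lev e + 1

namespace Env

/-- transitions of (half-tree, environment) -/
noncomputable def pairP {E α : Type} [Rule α] (𝓔 : Env E) (u : RT α × E → ℝ) (x : RT α × E) : ℝ :=
  Q x.1 (fun c => u (c, x.2)) + 𝓔.P (fun e => u (x.1, e)) x.2 +
    upr x.1 * u (x.1, 𝓔.rcv x.2) + 𝓔.snd x.2 * u (msg x.1, x.2)

end Env

/-- replace the `i`-th kid by `A`; nothing if there is no `i`-th kid -/
def repl (B : RT Unit) (i : ℕ) (A : RT Unit) : RT Unit :=
  match B with
  | .node a n K => if h : i < n then .node a n (Function.update K ⟨i, h⟩ A) else .node a n K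

/-- the `i`-th kid -/
def kid (B : RT Unit) (i : ℕ) : RT Unit :=
  match B with
  | .node _ n K => if h : i < n then K ⟨i, h⟩ else leaf

/-- The re-rooting of the whole tree `(B, A)` at the edge to the `i`-th kid of the root of `B`. -/
def rer (i : ℕ) (x : RT Unit × RT Unit) : RT Unit × RT Unit := (kid x.1 i, repl x.1 i x.2)

/-- Sum over the non-leaf vertices of the half-tree `B` of `h` of the tree seen from that vertex. -/
noncomputable def Ssum (h : RT Unit × RT Unit → ℝ) : RT Unit → RT Unit → ℝ
  | .node a n K, A => if n = 0 then 0 else h (.node a n K, A) +
      ∑ i, Ssum h (K i) (.node a n (Function.update K i A))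

/-- whole tree sums -/
noncomputable def Tsum (h : RT Unit × RT Unit → ℝ) (x : RT Unit × RT Unit) : ℝ :=
  Ssum h x.1 x.2 + Ssum h x.2 x.1

/-- both half-trees have a non-leaf root -/
def C2 : Set (RT Unit × RT Unit) := {x | x.1.nk ≠ 0 ∧ x.2.nk ≠ 0}

end RFT
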