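import Pool.Agent.H13.RF.E1a

/-! Module E1b: bounds for the number of descendants of a pointed vertex. -/

namespace RFT

open Finset RT

variable {μ c C : ℝ}

private theorem E1b_one : ∀ l d : ℕ, |(fun _ _ => (1 : ℝ)) l d| ≤ (1 : ℝ) := fun _ _ => by simp

private theorem E1b_sg_pop {t : ℝ} (ht : 0 ≤ t) {A : RT Unit} (hA : A.nk ≠ 0) :
    (Env.rt.ker Unit).sg t (fun x => pop x.1) (fresh, A) = y1 t (fresh, A) := by
  have h1 := sg_asum_eq (g := fun _ _ => (1 : ℝ)) (M := 1) (fun _ _ => by simp) ht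
    (B := (fresh : RT Unit)) (A := A) (by simp) hA
  rw [Ssum_fresh] at h1
  exact h1

/-- a fresh half-tree in a non-leaf environment: `Bd.lo`, `Bd.hi` with `Env.rt`, `sg_asum_eq`, `Ssum_fresh` -/
theorem y1_fresh (hb : Bd μ c C) {t : ℝ} (ht : 0 ≤ t) {A : RT Unit} (hA : A.nk ≠ 0) :
    4 / 25 * c * Real.exp (μ * t) ≤ y1 t (fresh, A) ∧ y1 t (fresh, A) ≤ C * Real.exp (μ * t) := by
  constructor
  · have h := hb.lo (RT Unit) Env.rt t ht fresh (by simp) A
    rw [E1b_sg_pop ht hA, asum_fresh, th_one_two] at h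
    linarith
  · have h := hb.hi (RT Unit) Env.rt t ht fresh (by simp) A
    have h2 : pop (fresh : RT Unit) = 1 := by
      unfold pop
      rw [asum_fresh]
    rw [E1b_sg_pop ht hA, h2, mul_one] at h
    exact h

private theorem E1b_L_sub (k : Ker (RT Unit × RT Unit)) (u v : RT Unit × RT Unit → ℝ)
    (x : RT Unit × RT Unit) : k.L (fun y => u y - v y) x = k.L u x - k.L v x := by
  unfold Ker.L
  rw [k.P_sub]
  ring

private theorem E1b_L_smul (k : Ker (RT Unit × RT Unit)) (r : ℝ) (u : RT Unit × RT Unit → ℝ)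
    (x : RT Unit × RT Unit) : k.L (fun y => r * u y) x = r * k.L u x := by
  unfold Ker.L
  rw [k.P_smul]
  ring

private theorem E1b_exp_deriv (μ t : ℝ) :
    HasDerivAt (fun s => Real.exp (μ * s)) (μ * Real.exp (μ * t)) t := by
  have h1 : HasDerivAt (fun s : ℝ => Real.exp (μ * s)) (Real.exp (μ * t) * μ) t := by
    have := ((hasDerivAt_id t).const_mul μ).exp
    simpa using this
  exact h1.congr_deriv (by ring)

private theorem E1b_frac {x : RT Unit × RT Unit} (hx : x ∈ C2) :
    0 ≤ (x.1.nl : ℝ) / x.1.dg ∧ (x.1.nl : ℝ) / x.1.dg ≤ 1 := by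
  have h1 := nl_add_one_le (x := x)
  have h2 := two_le_dg hx
  have h3 : (0 : ℝ) < x.1.dg := by exact_mod_cast (by omega : 0 < x.1.dg)
  have h4 : (x.1.nl : ℝ) + 1 ≤ x.1.dg := by exact_mod_cast h1
  exact ⟨by positivity, (div_le_one h3).2 (by linarith)⟩

/-- comparison in `kerT` on `C2` with `1 + (C/μ) (exp(μt) - 1)`; the creation term is at most `C exp (μ t)` -/
theorem y1_hi (hb : Bd μ c C) {t : ℝ} (ht : 0 ≤ t) {x : RT Unit × RT Unit} (hx : x ∈ C2) :
    y1 t x ≤ (1 + C / μ) * Real.exp (μ * t) := by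
  have hμ : 0 < μ := by linarith [hb.mu_ge]
  have hC := hb.C_pos
  have key := kerT.comparison' closed_C2'
    (w := fun t x => (1 + C / μ * (Real.exp (μ * t) - 1)) - yy (fun _ _ => 1) t x)
    (w' := fun t x => C * Real.exp (μ * t) - (kerT.L (yy (fun _ _ => 1) t) x +
      ∑ i ∈ range x.1.nk, (if (kid x.1 i).nk = 0 then
        x.1.upr * yy (fun _ _ => 1) t (fresh, repl x.1 i x.2) else 0)))
    (by
      intro y _
      show 0 ≤ (1 + C / μ * (Real.exp (μ * 0) - 1)) - yy (fun _ _ => 1) 0 y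
      rw [yy_zero]
      simp [vf])
    (by
      intro y _
      exact (Continuous.continuousOn (by fun_prop)).sub (yy_continuousOn E1b_one y))
    (by
      intro y _ u hu
      have h1 : HasDerivAt (fun s => 1 + C / μ * (Real.exp (μ * s) - 1))
          (C * Real.exp (μ * u)) u := by
        have h2 := (((E1b_exp_deriv μ u).sub_const 1).const_mul (C / μ)).const_add 1
        refine h2.congr_deriv ?_
        field_simp
      exact h1.sub (yy_hasDerivAt E1b_one hu y))
    (by
      intro y hy u hu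
      show kerT.L (fun z => (1 + C / μ * (Real.exp (μ * u) - 1)) - yy (fun _ _ => 1) u z) y ≤ _
      rw [E1b_L_sub, LT_const]
      have h1 := creation_le (u := yy (fun _ _ => 1) u) hy (m := C * Real.exp (μ * u)) (by
        intro A hA _
        exact (y1_fresh hb hu.le (A := A) (by rw [hA]; exact hy.1)).2)
      have h2 : (y.1.nl : ℝ) / y.1.dg * (C * Real.exp (μ * u)) ≤ 1 * (C * Real.exp (μ * u)) :=
        mul_le_mul_of_nonneg_right (E1b_frac hy).2 (by positivity)
      linarith)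
    (by
      have h1 : kerT.TGr C2 (fun t x => (1 + C / μ * (Real.exp (μ * t) - 1)) * (fun _ => (1 : ℝ)) x) :=
        Ker.TGr.mul kerT (Ker.Gr.const kerT 1)
          (a := fun t => 1 + C / μ * (Real.exp (μ * t) - 1)) (Continuous.continuousOn (by fun_prop))
      have h2 := Ker.TGr.sub kerT h1 (yy_TGr (g := fun _ _ => 1) (M := 1) E1b_one C2)
      simpa only [mul_one] using h2)
    x hx t ht
  have h1 : (1 : ℝ) ≤ Real.exp (μ * t) := Real.one_le_exp (by positivity)
  have h2 : 0 ≤ C / μ := by positivity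
  have key' : 0 ≤ (1 + C / μ * (Real.exp (μ * t) - 1)) - y1 t x := key
  nlinarith

private theorem E1b_LT_th {x : RT Unit × RT Unit} (hx : x ∈ C2) : 0 ≤ kerT.L (vf th) x := by
  rw [LT_vf hx]
  have h1 := th_sub (nl_add_one_le (x := x)) (two_le_dg hx)
  have h2 := th_mono (nl_add_one_le (x := x)) (two_le_dg hx)
  have h3 := mul_nonneg (rin_nonneg x) (sub_nonneg.2 h2)
  linarith

/-- comparison in `kerT` on `C2` with `(4c/25) th exp(μt)`: `kerT.L (vf th) ≥ 0` and the creation term is at least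
`(l/d)(4c/25) exp (μ t)` -/
theorem y1_lo (hb : Bd μ c C) {t : ℝ} (ht : 0 ≤ t) {x : RT Unit × RT Unit} (hx : x ∈ C2) :
    4 / 25 * c * vf th x * Real.exp (μ * t) ≤ y1 t x := by
  have hμ : 0 < μ := by linarith [hb.mu_ge]
  have hc := hb.c_pos
  have hc1 : 4 / 25 * c ≤ 1 := by
    have h1 := (y1_fresh hb le_rfl (A := (fresh : RT Unit)) (by simp)).1
    have h2 : y1 0 ((fresh : RT Unit), (fresh : RT Unit)) = 1 := by
      unfold y1
      rw [yy_zero]
      rfl
    rw [h2, mul_zero, Real.exp_zero, mul_one] at h1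
    exact h1
  have hGr : kerT.Gr (vf th) := Ker.Gr.of_bdd kerT (M := 1) fun y => by
    have := abs_vf_th y
    rw [abs_le]
    constructor <;> linarith [this.1, this.2]
  have key := kerT.comparison' closed_C2'
    (w := fun t x => yy (fun _ _ => 1) t x - Real.exp (μ * t) * (4 / 25 * c * vf th x))
    (w' := fun t x => (kerT.L (yy (fun _ _ => 1) t) x +
      ∑ i ∈ range x.1.nk, (if (kid x.1 i).nk = 0 then
        x.1.upr * yy (fun _ _ => 1) t (fresh, repl x.1 i x.2) else 0)) -
          μ * Real.exp (μ * t) * (4 / 25 * c * vf th x))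
    (by
      intro y _
      show 0 ≤ yy (fun _ _ => 1) 0 y - Real.exp (μ * 0) * (4 / 25 * c * vf th y)
      rw [yy_zero, mul_zero, Real.exp_zero, one_mul]
      have h1 := abs_vf_th y
      have h2 : vf (fun _ _ => (1 : ℝ)) y = 1 := rfl
      rw [h2]
      have h3 : 4 / 25 * c * vf th y ≤ 4 / 25 * c * 1 :=
        mul_le_mul_of_nonneg_left h1.2 (by positivity)
      linarith)
    (by
      intro y _
      exact (yy_continuousOn E1b_one y).sub (Continuous.continuousOn (by fun_prop)))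
    (by
      intro y _ u hu
      exact (yy_hasDerivAt E1b_one hu y).sub ((E1b_exp_deriv μ u).mul_const _))
    (by
      intro y hy u hu
      show kerT.L (fun z => yy (fun _ _ => 1) u z - Real.exp (μ * u) * (4 / 25 * c * vf th z)) y ≤ _
      rw [E1b_L_sub, E1b_L_smul, E1b_L_smul]
      have h1 := creation_ge (u := yy (fun _ _ => 1) u) hy (m := 4 / 25 * c * Real.exp (μ * u)) (by
        intro A hA _
        exact (y1_fresh hb hu.le (A := A) (by rw [hA]; exact hy.1)).1)
      have h2 : 0 ≤ Real.exp (μ * u) * (4 / 25 * c * kerT.L (vf th) y) :=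
        mul_nonneg (Real.exp_pos _).le (mul_nonneg (by positivity) (E1b_LT_th hy))
      have h3 : vf th y ≤ (y.1.nl : ℝ) / y.1.dg := th_le (nl_add_one_le (x := y))
      have h4 : μ * vf th y ≤ 1 * vf th y :=
        mul_le_mul_of_nonneg_right (by linarith [hb.mu_le]) (abs_vf_th y).1
      have h5 : μ * vf th y * (4 / 25 * c * Real.exp (μ * u)) ≤
          (y.1.nl : ℝ) / y.1.dg * (4 / 25 * c * Real.exp (μ * u)) :=
        mul_le_mul_of_nonneg_right (by linarith) (by positivity)
      have h6 : μ * Real.exp (μ * u) * (4 / 25 * c * vf th y) =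
          μ * vf th y * (4 / 25 * c * Real.exp (μ * u)) := by ring
      rw [h6]
      linarith)
    (by
      have h1 : kerT.TGr C2 (fun t x => Real.exp (μ * t) * (4 / 25 * c * vf th x)) :=
        Ker.TGr.mul kerT (Ker.Gr.smul kerT hGr (4 / 25 * c))
          (a := fun t => Real.exp (μ * t)) (Continuous.continuousOn (by fun_prop))
      exact Ker.TGr.sub kerT (yy_TGr (g := fun _ _ => 1) (M := 1) E1b_one C2) h1)
    x hx t ht
  have key' : 0 ≤ y1 t x - Real.exp (μ * t) * (4 / 25 * c * vf th x) := key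
  linarith

/-- `sg s th ≥ th + (4/25) (sg s 1 - 1)`: `L (vf (th - 4/25)) ≥ 0` on `C2` -/
theorem yy_th_ge {t : ℝ} (ht : 0 ≤ t) {x : RT Unit × RT Unit} (hx : x ∈ C2) :
    vf th x + 4 / 25 * (y1 t x - 1) ≤ kerP.sg t (vf th) x := by
  have hGr : kerP.Gr (vf th) := Ker.Gr.of_bdd kerP (M := 1) fun y => by
    have := abs_vf_th y
    rw [abs_le]
    constructor <;> linarith [this.1, this.2]
  have hGr1 : kerP.Gr (vf (fun _ _ => (1 : ℝ))) := Ker.Gr.of_bdd kerP (M := 1) fun y => by
    simp [vf]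
  have hGr2 : kerP.Gr (fun y => 4 / 25 * vf (fun _ _ => (1 : ℝ)) y) := Ker.Gr.smul kerP hGr1 _
  have e1 : (fun y => vf th y - 4 / 25 * vf (fun _ _ => (1 : ℝ)) y) =
      vf (fun l d => th l d - 4 / 25) := by
    funext y
    simp [vf]
  have h1 := kerP.exp_le_sg closed_C2 (f := vf (fun l d => th l d - 4 / 25)) (a := 0)
    (by rw [← e1]; exact Ker.Gr.sub kerP hGr hGr2)
    (by
      intro y hy
      rw [zero_mul, L_vf hy]
      unfold loc
      have h1 := th_sub (nl_add_one_le (x := y)) (two_le_dg hy)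
      have h2 := th_mono (nl_add_one_le (x := y)) (two_le_dg hy)
      have h3 := mul_nonneg (rin_nonneg y) (sub_nonneg.2 h2)
      have h4 := th_one_two
      simp only [h4]
      have e2 : (y.1.nl : ℝ) * (th (y.1.nl + 1) (y.1.dg + 1) - 4 / 25 - (th y.1.nl y.1.dg - 4 / 25)) +
          (y.1.nl : ℝ) / y.1.dg * (th (y.1.nl - 1) y.1.dg - 4 / 25 - (th y.1.nl y.1.dg - 4 / 25)) +
          (y.1.nl : ℝ) / y.1.dg * (4 / 25 - 4 / 25) +
          rin y * (th (y.1.nl + 1) (y.1.dg + 1) - 4 / 25 - (th y.1.nl y.1.dg - 4 / 25)) =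
          ((y.1.nl : ℝ) * (th (y.1.nl + 1) (y.1.dg + 1) - th y.1.nl y.1.dg) +
          (y.1.nl : ℝ) / y.1.dg * (th (y.1.nl - 1) y.1.dg - th y.1.nl y.1.dg)) +
          rin y * (th (y.1.nl + 1) (y.1.dg + 1) - th y.1.nl y.1.dg) := by ring
      rw [e2]
      linarith) ht hx
  rw [zero_mul, Real.exp_zero, one_mul, ← e1,
    kerP.sg_sub_fun hGr hGr2 ht, kerP.sg_smul] at h1
  have h2 : y1 t x = kerP.sg t (vf (fun _ _ => 1)) x := rfl
  rw [h2]
  have h3 : vf th x - 4 / 25 * vf (fun _ _ => (1 : ℝ)) x = vf th x - 4 / 25 := by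
    simp [vf]
  have h4 : vf th x - 4 / 25 * vf (fun _ _ => (1 : ℝ)) x ≤
      kerP.sg t (vf th) x - 4 / 25 * kerP.sg t (vf (fun _ _ => 1)) x := h1
  rw [h3] at h4
  linarith

end RFT
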