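import Pool.Agent.H13.RF.D7

/-! Module E1a: pointed quantities, regularity. -/

namespace RFT

open Finset RT

variable {μ c C : ℝ}

theorem Gr_vf {g : ℕ → ℕ → ℝ} {M : ℝ} (hg : ∀ l d, l + 1 ≤ d → |g l d| ≤ M) :
    kerP.Gr (vf g) :=
  Ker.Gr.of_bdd kerP (M := M) fun _ => hg _ _ nl_add_one_le

/-- for the pointed quantities: derivative in terms of the whole tree generator and the creation term -/
theorem yy_hasDerivAt {g : ℕ → ℕ → ℝ} {M : ℝ} (hg : ∀ l d, |g l d| ≤ M) {t : ℝ} (ht : 0 < t)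
    (x : RT Unit × RT Unit) :
    HasDerivAt (fun s => yy g s x) (kerT.L (yy g t) x + ∑ i ∈ range x.1.nk,
      (if (kid x.1 i).nk = 0 then x.1.upr * yy g t (fresh, repl x.1 i x.2) else 0)) t := by
  have h1 := kerP.hasDerivAt_sg (Gr_vf fun l d _ => hg l d) x ht
  rw [kerP_L] at h1
  exact h1

theorem yy_continuousOn {g : ℕ → ℕ → ℝ} {M : ℝ} (hg : ∀ l d, |g l d| ≤ M)
    (x : RT Unit × RT Unit) : ContinuousOn (fun s => yy g s x) (Set.Ici 0) :=
  kerP.continuousOn_sg (Gr_vf fun l d _ => hg l d) x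

/-- `yy` also has polynomial growth in `kerT` -/
theorem yy_TGr {g : ℕ → ℕ → ℝ} {M : ℝ} (hg : ∀ l d, |g l d| ≤ M) (D : Set (RT Unit × RT Unit)) :
    kerT.TGr D (yy g) := by
  intro T hT
  obtain ⟨K, p, hK⟩ := Ker.TGr.sg kerP (Gr_vf fun l d _ => hg l d) D T hT
  refine ⟨|K|, p + 1, fun x hx t ht => ?_⟩
  refine (hK x hx t ht).trans ?_
  have h1 : kerP.V p x ≤ kerT.V (p + 1) x := by
    have h2 : kerP.V p x = (((x.1.size + x.2.size + 1 + 1).ascFactorial p : ℕ) : ℝ) := rfl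
    have h3 : kerT.V (p + 1) x = (((x.1.size + x.2.size + 0 + 1).ascFactorial (p + 1) : ℕ) : ℝ) :=
      rfl
    rw [h2, h3]
    have h4 := Nat.succ_ascFactorial (x.1.size + x.2.size + 1) p
    have h5 : (x.1.size + x.2.size + 1).succ = x.1.size + x.2.size + 1 + 1 := rfl
    rw [h5] at h4
    have h6 : (x.1.size + x.2.size + 1).ascFactorial (p + 1) =
        (x.1.size + x.2.size + 1) * (x.1.size + x.2.size + 1 + 1).ascFactorial p := by
      rw [Nat.ascFactorial_succ, ← h4]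
    rw [add_zero, h6]
    have h7 : (x.1.size + x.2.size + 1 + 1).ascFactorial p ≤
        (x.1.size + x.2.size + 1) * (x.1.size + x.2.size + 1 + 1).ascFactorial p :=
      Nat.le_mul_of_pos_left _ (by omega)
    exact_mod_cast h7
  calc K * kerP.V p x ≤ |K| * kerP.V p x :=
        mul_le_mul_of_nonneg_right (le_abs_self K) (kerP.V_pos p x).le
    _ ≤ |K| * kerT.V (p + 1) x := mul_le_mul_of_nonneg_left h1 (abs_nonneg K)

theorem abs_yy_le {g : ℕ → ℕ → ℝ} {M : ℝ} (hg : ∀ l d, |g l d| ≤ M) {t : ℝ} (ht : 0 ≤ t)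
    {x : RT Unit × RT Unit} (hx : x ∈ C2) : |yy g t x| ≤ M * y1 t x := by
  have hG := Gr_vf (g := g) fun l d _ => hg l d
  have h1G := Gr_vf (g := fun _ _ => (1 : ℝ)) (M := 1) fun l d _ => by simp
  have h1 : ∀ r : ℝ, r * y1 t x = kerP.sg t (fun y => r * vf (fun _ _ => 1) y) x := by
    intro r
    rw [kerP.sg_smul]
    rfl
  rw [abs_le]
  constructor
  · have h2 : -(M * y1 t x) = (-M) * y1 t x := by ring
    rw [h2, h1]
    refine kerP.sg_mono closed_C2 (Ker.Gr.smul kerP h1G _) hG ?_ ht hx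
    intro y _
    have h3 := (abs_le.1 (hg y.1.nl y.1.dg)).1
    simpa [vf] using h3
  · rw [h1]
    refine kerP.sg_mono closed_C2 hG (Ker.Gr.smul kerP h1G _) ?_ ht hx
    intro y _
    have h3 := (abs_le.1 (hg y.1.nl y.1.dg)).2
    simpa [vf] using h3

theorem yy_zero (g : ℕ → ℕ → ℝ) (x : RT Unit × RT Unit) : yy g 0 x = vf g x :=
  kerP.sg_zero (vf g) x

theorem y1_nonneg {t : ℝ} (ht : 0 ≤ t) {x : RT Unit × RT Unit} (hx : x ∈ C2) : 0 ≤ y1 t x :=
  kerP.sg_nonneg closed_C2 (fun _ _ => zero_le_one) ht hx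

theorem abs_vf_th (x : RT Unit × RT Unit) : 0 ≤ vf th x ∧ vf th x ≤ 1 :=
  ⟨th_nonneg _ _, th_le_one _ _ nl_add_one_le⟩

end RFT
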