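import Pool.Agent.H13.RF.E1

/-! Module E2: killed pairs. -/

namespace RFT

open Finset RT

private theorem E2_Q_zero {α : Type} [Rule α] (B : RT α) : Q B (fun _ => (0 : ℝ)) = 0 := by
  obtain ⟨l, _, hl⟩ := Q_rep B
  have := hl (fun _ => (0 : ℝ))
  simpa using this

private theorem E2_Q_nonneg {α : Type} [Rule α] {B : RT α} {u : RT α → ℝ}
    (h : ∀ c, B.nk ≤ c.nk → 0 ≤ u c) : 0 ≤ Q B u := by
  have h0 : Q B (fun _ => (0 : ℝ)) ≤ Q B u := Q_mono_nk fun c hc => h c hc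
  rwa [E2_Q_zero] at h0

private theorem E2_Q_mul {α : Type} [Rule α] (B : RT α) (u : RT α → ℝ) (r : ℝ) :
    Q B (fun c => r * u c) = r * Q B u :=
  (kerK α).P_smul r u B

private theorem E2_Q_mul' {α : Type} [Rule α] (B : RT α) (u : RT α → ℝ) (r : ℝ) :
    Q B (fun c => u c * r) = Q B u * r := by
  have h : (fun c => u c * r) = fun c => r * u c := by
    funext c
    ring
  rw [h, E2_Q_mul]
  ring

private theorem E2_Q_const {α : Type} [Rule α] (B : RT α) (r : ℝ) :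
    Q B (fun _ => r) = r * (B.size - B.upr) := by
  have h := E2_Q_mul B (fun _ => (1 : ℝ)) r
  rw [Q_one] at h
  simpa using h

theorem closed_KK : kerKK.Closed C2 := by
  rintro ⟨B, A⟩ ⟨hB, hA⟩ u hu
  simp only at hB hA
  have hu' : ∀ c e : RT Unit, c.nk ≠ 0 → e.nk ≠ 0 → 0 ≤ u (c, e) := fun c e h1 h2 =>
    hu (c, e) ⟨h1, h2⟩
  have h1 : 0 ≤ Q B (fun c => u (c, A)) := E2_Q_nonneg fun c hc => hu' c A (by omega) hA
  have h2 : 0 ≤ Q A (fun c => u (B, c)) := E2_Q_nonneg fun c hc => hu' B c hB (by omega)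
  show 0 ≤ Q B (fun c => u (c, A)) + Q A (fun c => u (B, c))
  positivity

private theorem E2_M_nonneg {f : RT Unit → ℝ} {M : ℝ} (hf : ∀ B, |f B| ≤ M * (B.size : ℝ)) :
    0 ≤ M := by
  have h := hf leaf
  rw [size_leaf] at h
  have := abs_nonneg (f leaf)
  simp at h
  linarith

private theorem E2_Gr {f : RT Unit → ℝ} {M : ℝ} (hf : ∀ B, |f B| ≤ M * (B.size : ℝ)) :
    (kerK Unit).Gr f := by
  refine Ker.Gr.of_lin (kerK Unit) (M := M) fun B => (hf B).trans ?_
  have hM := E2_M_nonneg hf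
  refine mul_le_mul_of_nonneg_left ?_ hM
  show (B.size : ℝ) ≤ (B.size : ℝ) + 1
  linarith

private theorem E2_bound {f : RT Unit → ℝ} {M : ℝ} (hf : ∀ B, |f B| ≤ M * (B.size : ℝ)) {t : ℝ}
    (ht : 0 ≤ t) (B : RT Unit) :
    |(kerK Unit).sg t f B| ≤ M * Real.exp (2 * t) * ((B.size : ℝ) + 1) := by
  have hM := E2_M_nonneg hf
  have h0 : ∀ B, |f B| ≤ M * (kerK Unit).V 1 B := by
    intro B
    rw [(kerK Unit).V_one]
    refine (hf B).trans (mul_le_mul_of_nonneg_left ?_ hM)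
    show (B.size : ℝ) ≤ (B.size : ℝ) + ((0 : ℕ) : ℝ) + 1
    push_cast
    linarith
  have h1 := (kerK Unit).abs_sg_le h0 ht B
  rw [(kerK Unit).V_one] at h1
  have e1 : (((kerK Unit).c : ℝ) + 1 + (1 : ℕ)) * t = 2 * t := by
    have : ((kerK Unit).c : ℝ) = 0 := by
      show ((0 : ℕ) : ℝ) = 0
      simp
    rw [this]
    push_cast
    ring
  have e2 : ((kerK Unit).lev B : ℝ) + (kerK Unit).c + 1 = (B.size : ℝ) + 1 := by
    show (B.size : ℝ) + ((0 : ℕ) : ℝ) + 1 = (B.size : ℝ) + 1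
    push_cast
    ring
  rw [e1, e2] at h1
  exact h1

private theorem E2_V2 (x : RT Unit × RT Unit) :
    ((x.1.size : ℝ) + 1) * ((x.2.size : ℝ) + 1) ≤ kerKK.V 2 x := by
  have h5 := kerKK.A1b_succ 1 x
  rw [kerKK.V_one] at h5
  have e : (kerKK.lev x : ℝ) = (x.1.size : ℝ) + x.2.size := by
    show (((x.1.size + x.2.size : ℕ)) : ℝ) = _
    push_cast
    ring
  have e2 : (kerKK.c : ℝ) = 0 := by
    show ((0 : ℕ) : ℝ) = 0
    simp
  rw [e, e2] at h5
  have h6 : kerKK.V 2 x = ((x.1.size : ℝ) + x.2.size + 0 + 1 + (1 : ℕ)) *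
      ((x.1.size : ℝ) + x.2.size + 0 + 1) := h5
  rw [h6]
  have h1 : (0 : ℝ) ≤ x.1.size := Nat.cast_nonneg _
  have h2 : (0 : ℝ) ≤ x.2.size := Nat.cast_nonneg _
  push_cast
  nlinarith

/-- independence of the two halves when nothing goes through the middle edge (`eq_sg` for `kerKK`) -/
theorem kerKK_prod {f h : RT Unit → ℝ} {M N : ℝ} (hf : ∀ B, |f B| ≤ M * (B.size : ℝ))
    (hh : ∀ B, |h B| ≤ N * (B.size : ℝ)) {t : ℝ} (ht : 0 ≤ t) (B A : RT Unit) :
    kerKK.sg t (fun x => f x.1 * h x.2) (B, A) =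
      (kerK Unit).sg t f B * (kerK Unit).sg t h A := by
  have hM := E2_M_nonneg hf
  have hN := E2_M_nonneg hh
  have hGf := E2_Gr hf
  have hGh := E2_Gr hh
  have hbd : ∀ {T : ℝ}, 0 ≤ T → ∀ (x : RT Unit × RT Unit), ∀ t ∈ Set.Icc 0 T,
      |(kerK Unit).sg t f x.1 * (kerK Unit).sg t h x.2| ≤
        M * Real.exp (2 * T) * (N * Real.exp (2 * T)) * kerKK.V 2 x := by
    intro T _ x t ht
    rw [abs_mul]
    have h1 := E2_bound hf ht.1 x.1
    have h2 := E2_bound hh ht.1 x.2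
    have h3 : Real.exp (2 * t) ≤ Real.exp (2 * T) := Real.exp_le_exp.2 (by linarith [ht.2])
    have h4 : M * Real.exp (2 * t) * ((x.1.size : ℝ) + 1) ≤
        M * Real.exp (2 * T) * ((x.1.size : ℝ) + 1) := by gcongr
    have h5 : N * Real.exp (2 * t) * ((x.2.size : ℝ) + 1) ≤
        N * Real.exp (2 * T) * ((x.2.size : ℝ) + 1) := by gcongr
    calc |(kerK Unit).sg t f x.1| * |(kerK Unit).sg t h x.2|
        ≤ (M * Real.exp (2 * T) * ((x.1.size : ℝ) + 1)) *
          (N * Real.exp (2 * T) * ((x.2.size : ℝ) + 1)) :=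
          mul_le_mul (h1.trans h4) (h2.trans h5) (abs_nonneg _) (by positivity)
      _ = M * Real.exp (2 * T) * (N * Real.exp (2 * T)) *
          (((x.1.size : ℝ) + 1) * ((x.2.size : ℝ) + 1)) := by ring
      _ ≤ _ := mul_le_mul_of_nonneg_left (E2_V2 x) (by positivity)
  have hGr : kerKK.Gr (fun x => f x.1 * h x.2) := by
    refine ⟨M * Real.exp (2 * 0) * (N * Real.exp (2 * 0)), 2, fun x => ?_⟩
    have h1 := hbd le_rfl x 0 ⟨le_rfl, le_rfl⟩
    rw [(kerK Unit).sg_zero, (kerK Unit).sg_zero] at h1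
    exact h1
  have key := kerKK.eq_sg kerKK.closed_univ (f := fun x => f x.1 * h x.2) hGr
    (b := fun t x => (kerK Unit).sg t f x.1 * (kerK Unit).sg t h x.2)
    (by
      intro x _
      show (kerK Unit).sg 0 f x.1 * (kerK Unit).sg 0 h x.2 = f x.1 * h x.2
      rw [(kerK Unit).sg_zero, (kerK Unit).sg_zero])
    (by
      intro x _
      exact ((kerK Unit).continuousOn_sg hGf x.1).mul ((kerK Unit).continuousOn_sg hGh x.2))
    (by
      intro x _ u hu
      have h1 := ((kerK Unit).hasDerivAt_sg hGf x.1 hu).mul ((kerK Unit).hasDerivAt_sg hGh x.2 hu)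
      refine h1.congr_deriv ?_
      show (Q x.1 ((kerK Unit).sg u f) - (x.1.size : ℝ) * (kerK Unit).sg u f x.1) *
          (kerK Unit).sg u h x.2 + (kerK Unit).sg u f x.1 *
          (Q x.2 ((kerK Unit).sg u h) - (x.2.size : ℝ) * (kerK Unit).sg u h x.2) =
        (Q x.1 (fun c => (kerK Unit).sg u f c * (kerK Unit).sg u h x.2) +
          Q x.2 (fun c => (kerK Unit).sg u f x.1 * (kerK Unit).sg u h c)) -
          (((x.1.size + x.2.size : ℕ)) : ℝ) * ((kerK Unit).sg u f x.1 * (kerK Unit).sg u h x.2)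
      rw [E2_Q_mul', E2_Q_mul]
      push_cast
      ring)
    (by
      intro T hT
      exact ⟨_, 2, fun x _ t ht => hbd hT x t ht⟩)
  exact (key (B, A) (Set.mem_univ _) t ht).symm

/-- whole tree generator = killed generator + messages through the middle edge -/
theorem kerT_L_eq (u : RT Unit × RT Unit → ℝ) (x : RT Unit × RT Unit) :
    kerT.L u x = kerKK.L u x + x.1.upr * u (x.1, add x.2) + x.2.upr * u (add x.1, x.2) := by
  show (Q x.1 (fun c => u (c, x.2)) + Q x.2 (fun e => u (x.1, e)) +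
      upr x.1 * u (x.1, add x.2) + upr x.2 * u (msg x.1, x.2)) -
      (((x.1.size + x.2.size : ℕ)) : ℝ) * u x =
    ((Q x.1 (fun c => u (c, x.2)) + Q x.2 (fun c => u (x.1, c))) -
      (((x.1.size + x.2.size : ℕ)) : ℝ) * u x) + x.1.upr * u (x.1, add x.2) +
      x.2.upr * u (add x.1, x.2)
  rw [msg_eq_add]
  ring

private theorem E2_upr_anti {B c : RT Unit} (h : B.nk ≤ c.nk) : c.upr ≤ B.upr := by
  unfold upr
  have h1 : (B.nk : ℝ) ≤ c.nk := by exact_mod_cast h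
  apply one_div_le_one_div_of_le
  · positivity
  · linarith

/-- the common computation: `φ` is a nonincreasing function of the root, `G ≥ 0` -/
private theorem E2_core (φ : RT Unit → ℝ) (hφ : ∀ B c : RT Unit, B.nk ≤ c.nk → φ c ≤ φ B)
    (G : RT Unit → ℝ) (hG : ∀ B, 0 ≤ G B) (x : RT Unit × RT Unit) :
    kerKK.L (fun y => (φ y.1 + φ y.2) * G y.1) x ≤
      (φ x.1 + φ x.2) * (gen G x.1 - (x.1.upr + x.2.upr) * G x.1) := by
  have h1 : Q x.1 (fun c => (φ c + φ x.2) * G c) ≤ Q x.1 (fun c => (φ x.1 + φ x.2) * G c) :=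
    Q_mono_nk fun c hc => mul_le_mul_of_nonneg_right (by linarith [hφ x.1 c hc]) (hG c)
  have h2 : Q x.2 (fun c => (φ x.1 + φ c) * G x.1) ≤ Q x.2 (fun _ => (φ x.1 + φ x.2) * G x.1) :=
    Q_mono_nk fun c hc => mul_le_mul_of_nonneg_right (by linarith [hφ x.2 c hc]) (hG x.1)
  rw [E2_Q_mul] at h1
  rw [E2_Q_const] at h2
  show (Q x.1 (fun c => (φ c + φ x.2) * G c) + Q x.2 (fun c => (φ x.1 + φ c) * G x.1)) -
      (((x.1.size + x.2.size : ℕ)) : ℝ) * ((φ x.1 + φ x.2) * G x.1) ≤ _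
  unfold gen
  push_cast
  linarith

/-- for `F (B, A) = (upr B + upr A) pop B`: `upr` does not increase along transitions, `pop` increases by births -/
theorem KK_s1 {x : RT Unit × RT Unit} (hx : x ∈ C2) :
    kerKK.L (fun y => (y.1.upr + y.2.upr) * pop y.1) x ≤
      (x.1.upr + x.2.upr) * asum (fun l d => (l : ℝ) / d) x.1 := by
  have h1 := E2_core upr (fun B c h => E2_upr_anti h) pop (fun B => pop_nonneg B) x
  have h2 := gen_pop x.1 hx.1
  rw [h2] at h1
  refine h1.trans (mul_le_mul_of_nonneg_left ?_ (add_nonneg (upr_nonneg _) (upr_nonneg _)))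
  have h3 := mul_nonneg (add_nonneg (upr_nonneg x.1) (upr_nonneg x.2)) (pop_nonneg x.1)
  linarith

/-- supersolution `g1 a B * (1/(d_B + a) + 1/(d_A + a))` of the killed equation -/
theorem KK_s2 {a : ℝ} (ha : 0 ≤ a) {x : RT Unit × RT Unit} (hx : x ∈ C2) :
    kerKK.L (fun y => g1 a y.1 * (1 / ((y.1.dg : ℝ) + a) + 1 / ((y.2.dg : ℝ) + a))) x ≤
      gen (g1 a) x.1 * (1 / ((x.1.dg : ℝ) + a) + 1 / ((x.2.dg : ℝ) + a)) -
      g1 a x.1 * (1 / ((x.1.dg : ℝ) + a) ^ 2 + 1 / ((x.2.dg : ℝ) + a) ^ 2) := by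
  have hdg : ∀ B : RT Unit, (B.dg : ℝ) = (B.nk : ℝ) + 1 := by
    intro B
    unfold dg
    push_cast
    ring
  have hpos : ∀ B : RT Unit, 0 < (B.dg : ℝ) + a := by
    intro B
    rw [hdg]
    positivity
  have h1 := E2_core (fun B => 1 / ((B.dg : ℝ) + a)) (fun B c h => by
    apply one_div_le_one_div_of_le (hpos B)
    rw [hdg, hdg]
    have h1 : (B.nk : ℝ) ≤ c.nk := by exact_mod_cast h
    linarith) (g1 a) (fun B => g1_nonneg ha B) x
  have e1 : (fun y : RT Unit × RT Unit =>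
      g1 a y.1 * (1 / ((y.1.dg : ℝ) + a) + 1 / ((y.2.dg : ℝ) + a))) =
      fun y => (1 / ((y.1.dg : ℝ) + a) + 1 / ((y.2.dg : ℝ) + a)) * g1 a y.1 := by
    funext y
    ring
  rw [e1]
  refine h1.trans ?_
  have hu : ∀ B : RT Unit, 1 / ((B.dg : ℝ) + a) ≤ B.upr := by
    intro B
    unfold upr
    apply one_div_le_one_div_of_le (by positivity)
    rw [hdg]
    linarith
  have hp : ∀ B : RT Unit, 0 ≤ 1 / ((B.dg : ℝ) + a) := fun B => by
    have := hpos B
    positivity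
  have h2 := hu x.1
  have h3 := hu x.2
  have h4 := hp x.1
  have h5 := hp x.2
  have h6 := g1_nonneg ha x.1
  have e2 : ∀ B : RT Unit, 1 / ((B.dg : ℝ) + a) ^ 2 = (1 / ((B.dg : ℝ) + a)) ^ 2 := fun B => by
    rw [one_div_pow]
  rw [e2, e2]
  set p := 1 / ((x.1.dg : ℝ) + a)
  set q := 1 / ((x.2.dg : ℝ) + a)
  have h7 : p ^ 2 + q ^ 2 ≤ (p + q) * (x.1.upr + x.2.upr) := by
    have h8 : (p + q) * (p + q) ≤ (p + q) * (x.1.upr + x.2.upr) :=
      mul_le_mul_of_nonneg_left (by linarith) (by linarith)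
    nlinarith [mul_nonneg h4 h5]
  have h8 := mul_le_mul_of_nonneg_right h7 h6
  nlinarith

/-- crude version on a compact time interval: `(upr B + upr A) pop B` is multiplied by at most `exp t` -/
theorem KK_s3 {x : RT Unit × RT Unit} (hx : x ∈ C2) :
    kerKK.L (fun y => (y.1.upr + y.2.upr) * pop y.1) x ≤ (x.1.upr + x.2.upr) * pop x.1 := by
  refine (KK_s1 hx).trans (mul_le_mul_of_nonneg_left ?_ (add_nonneg (upr_nonneg _) (upr_nonneg _)))
  unfold pop
  apply asum_mono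
  intro l d hl hd
  have h1 : (l : ℝ) + 1 ≤ d := by exact_mod_cast hl
  have h2 : (0 : ℝ) < d := by exact_mod_cast (by omega : 0 < d)
  rw [div_le_one h2]
  linarith

end RFT
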