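import Pool.Agent.H13.RF.E3a

/-! Module E3b: decoupling of a fresh half-tree from its environment. -/

namespace RFT

open Finset RT

variable {μ c C : ℝ}

private theorem E3b_pop_fresh : pop (fresh : RT Unit) = 1 := by
  unfold pop
  have h := Ssum_vf (fun _ _ => (1 : ℝ)) fresh fresh
  rw [← h, Ssum_fresh]
  rfl

/-- **Decoupling.** -/
theorem decouple {g : ℕ → ℕ → ℝ} (hb : Bd μ c C) (hg : ∀ l d, |g l d| ≤ 1)
    (hq : AsNonneg μ g) : ∀ ε : ℝ, 0 < ε → ∃ T : ℝ, 0 ≤ T ∧ ∀ t, T ≤ t → ∀ A : RT Unit, A.nk ≠ 0 →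
      (kerK Unit).sg t (asum g) fresh * (kerK Unit).sg t (fun _ => 1) A -
        ε * Real.exp (μ * t) ≤ yy g t (fresh, A) := by
  intro ε hε
  have hc := hb.c_pos
  have hC := hb.C_pos
  have hμ : 0 < μ := by have := hb.mu_ge; linarith
  set K : ℝ := 1 / μ + 25 * C / (8 * c * μ) with hK
  have hK0 : 0 < K := by positivity
  obtain ⟨R, hR, h1⟩ := hq (ε / (2 * K)) (by positivity)
  obtain ⟨M, hM, h2⟩ := dft_crude hb hg R hR
  refine ⟨R + 4 * M * C / ε, by positivity, fun t ht A hA => ?_⟩
  have hA2 : ((fresh : RT Unit), A) ∈ C2 := ⟨by simp, hA⟩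
  have hRt : R ≤ t := by
    have : 0 ≤ 4 * M * C / ε := by positivity
    linarith
  have ht0 : 0 ≤ t := hR.trans hRt
  have hfr : (fresh : RT Unit).nk ≠ 0 := by simp
  have h3 := dft_after hb hg hR (δ := ε / (2 * K)) (by positivity) hM h1
    (fun x hx => h2 R ⟨hR, le_rfl⟩ x hx) hRt hA2
  have h4 : dft g t (fresh, A) = yy g t (fresh, A) -
      (kerK Unit).sg t (asum g) fresh * (kerK Unit).sg t (fun _ => 1) A := by
    unfold dft
    rw [sg_asum_eq hg ht0 hfr hA, Ssum_fresh]
    rfl
  have hE : 0 < Real.exp (μ * t) := Real.exp_pos _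
  -- the first term
  have h5 : g1 (t - R) fresh ≤ C * Real.exp (μ * t) := by
    have h6 := hb.gam_hi (t - R) (by linarith)
    have h7 : g1 (t - R) fresh = Gam (t - R) := rfl
    rw [h7]
    refine h6.trans (mul_le_mul_of_nonneg_left ?_ hC.le)
    apply Real.exp_le_exp.2
    nlinarith
  have h5' : 0 ≤ g1 (t - R) fresh := by
    have h7 : g1 (t - R) fresh = Gam (t - R) := rfl
    rw [h7]
    have := hb.gam_lo (t - R) (by linarith)
    have h8 : 0 ≤ c * Real.exp (μ * (t - R)) := by positivity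
    linarith
  have h6 : M * (g1 (t - R) fresh * (1 / (((fresh : RT Unit).dg : ℝ) + (t - R)) +
      1 / ((A.dg : ℝ) + (t - R)))) ≤ ε / 2 * Real.exp (μ * t) := by
    rcases eq_or_lt_of_le hM with hM0 | hM0
    · rw [← hM0, zero_mul]
      positivity
    have hs : 4 * M * C / ε ≤ t - R := by linarith
    have hs0 : 0 < t - R := lt_of_lt_of_le (by positivity) hs
    have h7 : ∀ d : ℕ, 1 / ((d : ℝ) + (t - R)) ≤ 1 / (t - R) := by
      intro d
      apply one_div_le_one_div_of_le hs0
      have : (0 : ℝ) ≤ d := Nat.cast_nonneg _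
      linarith
    have h8 : 1 / (((fresh : RT Unit).dg : ℝ) + (t - R)) + 1 / ((A.dg : ℝ) + (t - R))
        ≤ 2 / (t - R) := by
      have := h7 (fresh : RT Unit).dg
      have := h7 A.dg
      have h9 : 2 / (t - R) = 1 / (t - R) + 1 / (t - R) := by ring
      rw [h9]
      linarith
    have h8' : 0 ≤ 1 / (((fresh : RT Unit).dg : ℝ) + (t - R)) + 1 / ((A.dg : ℝ) + (t - R)) := by
      positivity
    calc M * (g1 (t - R) fresh * (1 / (((fresh : RT Unit).dg : ℝ) + (t - R)) +
          1 / ((A.dg : ℝ) + (t - R))))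
        ≤ M * (C * Real.exp (μ * t) * (2 / (t - R))) := by
          refine mul_le_mul_of_nonneg_left ?_ hM
          exact mul_le_mul h5 h8 h8' (by positivity)
      _ = (2 * M * C / (t - R)) * Real.exp (μ * t) := by ring
      _ ≤ ε / 2 * Real.exp (μ * t) := by
          refine mul_le_mul_of_nonneg_right ?_ hE.le
          rw [div_le_iff₀ hs0]
          rw [div_le_iff₀ hε] at hs
          nlinarith
  -- the second term
  have h7 : (fresh : RT Unit).upr + A.upr ≤ 1 := by
    have h8 := upr_le_half (B := (fresh : RT Unit)) (by simp)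
    have h9 := upr_le_half hA
    linarith
  have h8 : kerT.sg t (fun y => pop y.1) (fresh, A) ≤ C * Real.exp (μ * t) := by
    have h9 := hb.hi (RT Unit) Env.rt t ht0 fresh hfr A
    rw [E3b_pop_fresh, mul_one] at h9
    exact h9
  have h9 : ε / (2 * K) * (1 / μ * Real.exp (μ * t) *
      (((fresh : RT Unit).upr + A.upr) * pop (fresh : RT Unit)) +
      25 / (8 * c * μ) * kerT.sg t (fun y => pop y.1) (fresh, A)) ≤ ε / 2 * Real.exp (μ * t) := by
    rw [E3b_pop_fresh, mul_one]
    have h10 : 1 / μ * Real.exp (μ * t) * ((fresh : RT Unit).upr + A.upr) ≤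
        1 / μ * Real.exp (μ * t) * 1 := mul_le_mul_of_nonneg_left h7 (by positivity)
    have h11 : 25 / (8 * c * μ) * kerT.sg t (fun y => pop y.1) (fresh, A) ≤
        25 / (8 * c * μ) * (C * Real.exp (μ * t)) := mul_le_mul_of_nonneg_left h8 (by positivity)
    calc ε / (2 * K) * (1 / μ * Real.exp (μ * t) * ((fresh : RT Unit).upr + A.upr) +
          25 / (8 * c * μ) * kerT.sg t (fun y => pop y.1) (fresh, A))
        ≤ ε / (2 * K) * (K * Real.exp (μ * t)) := by
          refine mul_le_mul_of_nonneg_left ?_ (by positivity)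
          have h12 : K * Real.exp (μ * t) = 1 / μ * Real.exp (μ * t) * 1 +
              25 / (8 * c * μ) * (C * Real.exp (μ * t)) := by
            rw [hK]; ring
          rw [h12]
          exact add_le_add h10 h11
      _ = ε / 2 * Real.exp (μ * t) := by field_simp
  have h10 : ε * Real.exp (μ * t) = ε / 2 * Real.exp (μ * t) + ε / 2 * Real.exp (μ * t) := by ring
  rw [h4] at h3
  simp only at h3
  linarith

end RFT
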