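import Pool.Agent.H13.RF.E2

/-! Module E3a: the defect and its barriers. -/

namespace RFT

open Finset RT

variable {μ c C : ℝ}

/-- asymptotic lower bound zero -/
def AsNonneg (μ : ℝ) (g : ℕ → ℕ → ℝ) : Prop :=
  ∀ ε : ℝ, 0 < ε → ∃ T : ℝ, 0 ≤ T ∧ ∀ t, T ≤ t → ∀ x ∈ C2, - (ε * Real.exp (μ * t)) ≤ yy g t x

/-- the defect -/
noncomputable def dft (g : ℕ → ℕ → ℝ) (t : ℝ) (x : RT Unit × RT Unit) : ℝ :=
  kerT.sg t (fun y => asum g y.1) x - (kerK Unit).sg t (asum g) x.1 * (kerK Unit).sg t (fun _ => 1) x.2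

section E3aaux

private theorem E3a_L_add {S : Type} (k : Ker S) (u v : S → ℝ) (x : S) :
    k.L (fun y => u y + v y) x = k.L u x + k.L v x := by
  simp only [Ker.L]
  rw [k.P_add]
  ring

private theorem E3a_L_sub {S : Type} (k : Ker S) (u v : S → ℝ) (x : S) :
    k.L (fun y => u y - v y) x = k.L u x - k.L v x := by
  simp only [Ker.L]
  rw [k.P_sub]
  ring

private theorem E3a_L_smul {S : Type} (k : Ker S) (r : ℝ) (u : S → ℝ) (x : S) :
    k.L (fun y => r * u y) x = r * k.L u x := by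
  simp only [Ker.L]
  rw [k.P_smul]
  ring

private theorem E3a_abs {g : ℕ → ℕ → ℝ} (hg : ∀ l d, |g l d| ≤ 1) (B : RT Unit) :
    |asum g B| ≤ 1 * (B.size : ℝ) := by
  have h1 := abs_asum_le (M := 1) (fun l d _ => hg l d) B
  have h2 := pop_le_size B
  linarith

private theorem E3a_pop (B : RT Unit) : |pop B| ≤ 1 * (B.size : ℝ) := by
  rw [abs_of_nonneg (pop_nonneg B)]
  have h2 := pop_le_size B
  linarith

private theorem E3a_GrT {f : RT Unit → ℝ} (hf : ∀ B, |f B| ≤ 1 * (B.size : ℝ)) :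
    kerT.Gr (fun y => f y.1) := Gr_fst Env.rt hf

private noncomputable def E3aG (g : ℕ → ℕ → ℝ) (x : RT Unit × RT Unit) : ℝ :=
  asum g x.1 * (fun _ : RT Unit => (1 : ℝ)) x.2

private theorem E3a_GrKK {g : ℕ → ℕ → ℝ} (hg : ∀ l d, |g l d| ≤ 1) : kerKK.Gr (E3aG g) := by
  refine Ker.Gr.of_lin kerKK (M := 1) (fun x => ?_)
  have h1 := E3a_abs hg x.1
  have h2 : (kerKK.lev x : ℝ) = x.1.size + x.2.size := by
    show ((x.1.size + x.2.size : ℕ) : ℝ) = _
    push_cast
    ring
  have h3 : (0 : ℝ) ≤ (x.2.size : ℝ) := by positivity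
  rw [h2]
  unfold E3aG
  rw [mul_one]
  linarith

private theorem E3a_dft_eq {g : ℕ → ℕ → ℝ} (hg : ∀ l d, |g l d| ≤ 1) {t : ℝ} (ht : 0 ≤ t)
    (x : RT Unit × RT Unit) :
    dft g t x = kerT.sg t (fun y => asum g y.1) x - kerKK.sg t (E3aG g) x := by
  have h1 := kerKK_prod (f := asum g) (h := fun _ => (1 : ℝ)) (M := 1) (N := 1) (E3a_abs hg)
    (by
      intro B
      have : (1 : ℝ) ≤ (B.size : ℝ) := by exact_mod_cast B.size_pos
      simpa using this) ht x.1 x.2
  unfold dft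
  rw [← h1]
  rfl

end E3aaux

theorem dft_hasDerivAt {g : ℕ → ℕ → ℝ} (hg : ∀ l d, |g l d| ≤ 1) {t : ℝ} (ht : 0 < t)
    (x : RT Unit × RT Unit) :
    HasDerivAt (fun s => dft g s x) (kerKK.L (dft g t) x +
      x.1.upr * kerT.sg t (fun y => asum g y.1) (x.1, add x.2) +
      x.2.upr * kerT.sg t (fun y => asum g y.1) (add x.1, x.2)) t := by
  have h1 := kerT.hasDerivAt_sg (E3a_GrT (E3a_abs hg)) x ht
  have h2 := kerKK.hasDerivAt_sg (E3a_GrKK hg) x ht
  have h3 := h1.sub h2
  have h4 : kerT.L (kerT.sg t (fun y => asum g y.1)) x - kerKK.L (kerKK.sg t (E3aG g)) x =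
      kerKK.L (dft g t) x + x.1.upr * kerT.sg t (fun y => asum g y.1) (x.1, add x.2) +
        x.2.upr * kerT.sg t (fun y => asum g y.1) (add x.1, x.2) := by
    have h5 : dft g t = fun y => kerT.sg t (fun y => asum g y.1) y - kerKK.sg t (E3aG g) y := by
      funext y
      exact E3a_dft_eq hg ht.le y
    rw [h5, E3a_L_sub, kerT_L_eq]
    ring
  rw [← h4]
  refine h3.congr_of_eventuallyEq ?_
  filter_upwards [lt_mem_nhds ht] with s hs
  exact E3a_dft_eq hg hs.le x

section E3aaux2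

private theorem E3a_dft_cont {g : ℕ → ℕ → ℝ} (hg : ∀ l d, |g l d| ≤ 1)
    (x : RT Unit × RT Unit) : ContinuousOn (fun s => dft g s x) (Set.Ici 0) := by
  have h1 := kerT.continuousOn_sg (E3a_GrT (E3a_abs hg)) x
  have h2 := kerKK.continuousOn_sg (E3a_GrKK hg) x
  exact (h1.sub h2).congr (fun s hs => E3a_dft_eq hg hs x)

private theorem E3a_TGr_congr {S : Type} {k : Ker S} {D : Set S} {a b : ℝ → S → ℝ}
    (ha : k.TGr D a) (h : ∀ t, 0 ≤ t → ∀ x ∈ D, b t x = a t x) : k.TGr D b := by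
  intro T hT
  obtain ⟨C, p, hC⟩ := ha T hT
  refine ⟨C, p, fun x hx t ht => ?_⟩
  rw [h t ht.1 x hx]
  exact hC x hx t ht

private theorem E3a_TGr_shift {S : Type} {k : Ker S} {D : Set S} {a : ℝ → S → ℝ}
    (ha : k.TGr D a) {R : ℝ} (hR : 0 ≤ R) : k.TGr D (fun s => a (R + s)) := by
  intro T hT
  obtain ⟨C, p, hC⟩ := ha (R + T) (by linarith)
  exact ⟨C, p, fun x hx t ht => hC x hx (R + t) ⟨by linarith [ht.1], by linarith [ht.2]⟩⟩

private theorem E3a_TGr_T {D : Set (RT Unit × RT Unit)} {b : ℝ → RT Unit × RT Unit → ℝ}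
    (h : kerT.TGr D b) : kerKK.TGr D b := by
  intro T hT
  obtain ⟨C, p, hC⟩ := h T hT
  exact ⟨C, p, hC⟩

private theorem E3a_TGr_dft {g : ℕ → ℕ → ℝ} (hg : ∀ l d, |g l d| ≤ 1) :
    kerKK.TGr C2 (dft g) := by
  have h1 : kerKK.TGr C2 (fun t => kerT.sg t (fun y => asum g y.1)) :=
    E3a_TGr_T (Ker.TGr.sg kerT (E3a_GrT (E3a_abs hg)) C2)
  have h2 : kerKK.TGr C2 (fun t => kerKK.sg t (E3aG g)) := Ker.TGr.sg kerKK (E3a_GrKK hg) C2
  exact E3a_TGr_congr (Ker.TGr.sub kerKK h1 h2) (fun t ht x _ => E3a_dft_eq hg ht x)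

/-- the basic weight -/
private noncomputable def E3aF (x : RT Unit × RT Unit) : ℝ := (x.1.upr + x.2.upr) * pop x.1

private theorem E3aF_nonneg (x : RT Unit × RT Unit) : 0 ≤ E3aF x :=
  mul_nonneg (add_nonneg (upr_nonneg _) (upr_nonneg _)) (pop_nonneg _)

private theorem E3aF_Gr : kerKK.Gr E3aF := by
  refine Ker.Gr.of_lin kerKK (M := 2) (fun x => ?_)
  have h2 : (kerKK.lev x : ℝ) = x.1.size + x.2.size := by
    show ((x.1.size + x.2.size : ℕ) : ℝ) = _
    push_cast
    ring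
  have h3 : (0 : ℝ) ≤ (x.2.size : ℝ) := by positivity
  rw [h2, abs_of_nonneg (E3aF_nonneg x)]
  unfold E3aF
  have h4 := pop_le_size x.1
  have h5 := pop_nonneg x.1
  have h6 := upr_le_one x.1
  have h7 := upr_le_one x.2
  have h8 : (x.1.upr + x.2.upr) * pop x.1 ≤ 2 * pop x.1 :=
    mul_le_mul_of_nonneg_right (by linarith) h5
  linarith

private theorem E3a_pop_add {B : RT Unit} (hB : B.nk ≠ 0) : pop (add B) = pop B := by
  unfold pop
  rw [asum_add _ hB]
  ring

private theorem E3a_mem1 {x : RT Unit × RT Unit} (hx : x ∈ C2) : (x.1, add x.2) ∈ C2 :=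
  ⟨hx.1, by simp⟩

private theorem E3a_mem2 {x : RT Unit × RT Unit} (hx : x ∈ C2) : (add x.1, x.2) ∈ C2 :=
  ⟨by simp, hx.2⟩

/-- crude lower bound of the messages -/
private theorem E3a_msg {g : ℕ → ℕ → ℝ} (hb : Bd μ c C) (hg : ∀ l d, |g l d| ≤ 1) {t : ℝ}
    (ht : 0 ≤ t) {B A : RT Unit} (hB : B.nk ≠ 0) :
    - (C * Real.exp (μ * t) * pop B) ≤ kerT.sg t (fun y => asum g y.1) (B, A) := by
  have h1 := hb.hi (RT Unit) Env.rt t ht B hB A
  have h2 : kerT.sg t (fun y => (-1) * pop y.1) (B, A) ≤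
      kerT.sg t (fun y => asum g y.1) (B, A) := by
    refine kerT.sg_mono kerT.closed_univ ?_ (E3a_GrT (E3a_abs hg)) ?_ ht (Set.mem_univ _)
    · exact Ker.Gr.smul kerT (E3a_GrT E3a_pop) (-1)
    · intro y _
      have h3 := abs_asum_le (M := 1) (fun l d _ => hg l d) y.1
      rw [abs_le] at h3
      linarith [h3.1]
  rw [kerT.sg_smul] at h2
  have h3 : kerT.sg t (fun y => pop y.1) (B, A) ≤ C * Real.exp (μ * t) * pop B := h1
  linarith

end E3aaux2

/-- crude bound on `[0,R]` -/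
theorem dft_crude {g : ℕ → ℕ → ℝ} (hb : Bd μ c C) (hg : ∀ l d, |g l d| ≤ 1) (R : ℝ) (hR : 0 ≤ R) :
    ∃ M : ℝ, 0 ≤ M ∧ ∀ t ∈ Set.Icc 0 R, ∀ x ∈ C2,
      - (M * ((x.1.upr + x.2.upr) * pop x.1)) ≤ dft g t x := by
  have hC := hb.C_pos
  have hmu := hb.mu_le
  set m : ℝ → ℝ := fun t => C * (Real.exp (2 * t) - Real.exp t) with hm
  set m' : ℝ → ℝ := fun t => C * (2 * Real.exp (2 * t) - Real.exp t) with hm'
  have hmd : ∀ t, HasDerivAt m (m' t) t := by
    intro t
    have h1 : HasDerivAt (fun s : ℝ => Real.exp (2 * s)) (Real.exp (2 * t) * 2) t := by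
      have := ((hasDerivAt_id t).const_mul 2).exp
      simpa using this
    have h2 := (h1.sub (Real.hasDerivAt_exp t)).const_mul C
    refine h2.congr_deriv ?_
    rw [hm']
    ring
  have hm0 : ∀ t, 0 ≤ t → 0 ≤ m t := by
    intro t ht
    refine mul_nonneg hC.le ?_
    rw [sub_nonneg]
    exact Real.exp_le_exp.mpr (by linarith)
  have hmono : ∀ t, t ∈ Set.Icc 0 R → m t ≤ m R := by
    intro t ht
    refine mul_le_mul_of_nonneg_left ?_ hC.le
    have e1 : ∀ s : ℝ, Real.exp (2 * s) = Real.exp s * Real.exp s := by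
      intro s
      rw [← Real.exp_add]
      congr 1
      ring
    rw [e1, e1]
    have h1 : Real.exp t ≤ Real.exp R := Real.exp_le_exp.mpr ht.2
    have h2 : 1 ≤ Real.exp t := Real.one_le_exp ht.1
    nlinarith
  refine ⟨m R, hm0 R hR, ?_⟩
  have key : ∀ x ∈ C2, ∀ t, 0 ≤ t → 0 ≤ dft g t x + m t * E3aF x := by
    refine kerKK.comparison' closed_KK (w := fun t x => dft g t x + m t * E3aF x)
      (w' := fun t x => (kerKK.L (dft g t) x +
        x.1.upr * kerT.sg t (fun y => asum g y.1) (x.1, add x.2) +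
        x.2.upr * kerT.sg t (fun y => asum g y.1) (add x.1, x.2)) + m' t * E3aF x) ?_ ?_ ?_ ?_ ?_
    · intro x _
      simp [dft, hm]
    · intro x _
      refine (E3a_dft_cont hg x).add (ContinuousOn.mul ?_ continuousOn_const)
      exact fun t _ => (hmd t).continuousAt.continuousWithinAt
    · intro x _ t ht
      exact (dft_hasDerivAt hg ht x).add ((hmd t).mul_const _)
    · intro x hx t ht
      have e1 : kerKK.L (fun x => dft g t x + m t * E3aF x) x =
          kerKK.L (dft g t) x + m t * kerKK.L E3aF x := by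
        rw [E3a_L_add kerKK (dft g t) (fun x => m t * E3aF x), E3a_L_smul]
      rw [e1]
      have h1 : kerKK.L E3aF x ≤ E3aF x := KK_s3 hx
      have h2 : m t * kerKK.L E3aF x ≤ m t * E3aF x := mul_le_mul_of_nonneg_left h1 (hm0 t ht.le)
      have h3 := E3a_msg hb hg ht.le (A := add x.2) hx.1
      have h4 := E3a_msg hb hg ht.le (B := add x.1) (A := x.2) (by simp)
      rw [E3a_pop_add hx.1] at h4
      have h5 := mul_le_mul_of_nonneg_left h3 (upr_nonneg x.1)
      have h6 := mul_le_mul_of_nonneg_left h4 (upr_nonneg x.2)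
      have h7 : C * Real.exp (μ * t) * E3aF x ≤ (m' t - m t) * E3aF x := by
        refine mul_le_mul_of_nonneg_right ?_ (E3aF_nonneg x)
        have h8 : Real.exp (μ * t) ≤ Real.exp (2 * t) :=
          Real.exp_le_exp.mpr (by nlinarith)
        have h9 := mul_le_mul_of_nonneg_left h8 hC.le
        simp only [hm, hm']
        linarith
      have h10 : C * Real.exp (μ * t) * E3aF x =
          x.1.upr * (C * Real.exp (μ * t) * pop x.1) +
          x.2.upr * (C * Real.exp (μ * t) * pop x.1) := by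
        unfold E3aF
        ring
      linarith
    · refine Ker.TGr.add kerKK (E3a_TGr_dft hg) (Ker.TGr.mul kerKK E3aF_Gr ?_)
      exact fun t _ => (hmd t).continuousAt.continuousWithinAt
  intro t ht x hx
  have h1 := key x hx t ht.1
  have h2 := mul_le_mul_of_nonneg_right (hmono t ht) (E3aF_nonneg x)
  have h3 : m R * ((x.1.upr + x.2.upr) * pop x.1) = m R * E3aF x := rfl
  rw [h3]
  linarith

section E3aaux3

/-- better lower bound of the messages, when all pointed quantities are almost nonnegative -/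
private theorem E3a_msg2 {g : ℕ → ℕ → ℝ} (hg : ∀ l d, |g l d| ≤ 1) {t δ : ℝ}
    (ht : 0 ≤ t) (h1 : ∀ x ∈ C2, - (δ * Real.exp (μ * t)) ≤ yy g t x)
    {B A : RT Unit} (hB : B.nk ≠ 0) (hA : A.nk ≠ 0) :
    - (δ * Real.exp (μ * t) * pop B) ≤ kerT.sg t (fun y => asum g y.1) (B, A) := by
  rw [sg_asum_eq hg ht hB hA]
  have h2 : Ssum (fun x => - (δ * Real.exp (μ * t)) * (vf (fun _ _ => 1) x)) B A ≤
      Ssum (kerP.sg t (vf g)) B A := by
    refine Ssum_mono ?_ B hA
    intro x hx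
    have h3 := h1 x hx
    simpa [vf, yy] using h3
  rw [Ssum_smul, Ssum_vf] at h2
  have h3 : asum (fun _ _ => 1) B = pop B := rfl
  rw [h3] at h2
  linarith

private theorem E3a_upr_dg (B : RT Unit) : 1 / ((B.dg : ℝ) + 0) = B.upr := by
  unfold dg upr
  push_cast
  rw [add_zero]

private theorem E3a_dg_pos (B : RT Unit) : (1 : ℝ) ≤ (B.dg : ℝ) := by
  unfold dg
  push_cast
  have : (0 : ℝ) ≤ (B.nk : ℝ) := by positivity
  linarith

/-- first barrier -/
private noncomputable def E3aH (s : ℝ) (x : RT Unit × RT Unit) : ℝ :=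
  g1 s x.1 * (1 / ((x.1.dg : ℝ) + s) + 1 / ((x.2.dg : ℝ) + s))

private theorem E3aH_deriv {s : ℝ} (hs : 0 < s) (x : RT Unit × RT Unit) :
    HasDerivAt (fun s => E3aH s x) (gen (g1 s) x.1 *
        (1 / ((x.1.dg : ℝ) + s) + 1 / ((x.2.dg : ℝ) + s)) -
      g1 s x.1 * (1 / ((x.1.dg : ℝ) + s) ^ 2 + 1 / ((x.2.dg : ℝ) + s) ^ 2)) s := by
  have h0 : ∀ B : RT Unit, HasDerivAt (fun s : ℝ => 1 / ((B.dg : ℝ) + s))
      (-(1 / ((B.dg : ℝ) + s) ^ 2)) s := by
    intro B
    have h1 := E3a_dg_pos B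
    have h2 : HasDerivAt (fun s : ℝ => (B.dg : ℝ) + s) 1 s := by
      simpa using (hasDerivAt_id s).const_add (B.dg : ℝ)
    have h3 := h2.inv (by linarith)
    refine (h3.congr_deriv ?_).congr_of_eventuallyEq ?_
    · rw [neg_div]
    · filter_upwards with r
      rw [one_div, Pi.inv_apply]
  have h1 : HasDerivAt (fun s => g1 s x.1) (gen (g1 s) x.1) s :=
    gz_hasDerivAt E3a_pop hs x.1
  have h2 := h1.mul ((h0 x.1).add (h0 x.2))
  refine h2.congr_deriv ?_
  have e1 : ((fun s : ℝ => 1 / ((x.1.dg : ℝ) + s)) + fun s : ℝ => 1 / ((x.2.dg : ℝ) + s)) s =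
      1 / ((x.1.dg : ℝ) + s) + 1 / ((x.2.dg : ℝ) + s) := rfl
  rw [e1]
  ring

private theorem E3aH_cont (x : RT Unit × RT Unit) :
    ContinuousOn (fun s => E3aH s x) (Set.Ici 0) := by
  have h0 : ∀ B : RT Unit, ContinuousOn (fun s : ℝ => 1 / ((B.dg : ℝ) + s)) (Set.Ici 0) := by
    intro B
    refine ContinuousOn.div continuousOn_const (continuousOn_const.add continuousOn_id) ?_
    intro s hs
    have h1 := E3a_dg_pos B
    have h2 : (0 : ℝ) ≤ s := hs
    show (B.dg : ℝ) + s ≠ 0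
    linarith
  exact (gz_continuousOn E3a_pop x.1).mul ((h0 x.1).add (h0 x.2))

private theorem E3aH_TGr : kerKK.TGr C2 E3aH := by
  have h1 : kerKK.TGr C2 (fun t x => (2 * Real.exp t) * (x.1.size : ℝ)) := by
    refine Ker.TGr.mul kerKK (f := fun x : RT Unit × RT Unit => (x.1.size : ℝ)) ?_ ?_
    · refine Ker.Gr.of_lin kerKK (M := 1) (fun x => ?_)
      have h2 : (kerKK.lev x : ℝ) = x.1.size + x.2.size := by
        show ((x.1.size + x.2.size : ℕ) : ℝ) = _
        push_cast
        ring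
      have h3 : (0 : ℝ) ≤ (x.2.size : ℝ) := by positivity
      have h4 : (0 : ℝ) ≤ (x.1.size : ℝ) := by positivity
      rw [h2, abs_of_nonneg h4]
      linarith
    · exact (continuous_const.mul Real.continuous_exp).continuousOn
  refine Ker.TGr.of_abs_le kerKK h1 ?_
  intro t ht x _
  unfold E3aH
  rw [abs_mul]
  have h2 : |g1 t x.1| ≤ 1 * Real.exp t * (x.1.size : ℝ) := abs_gz_le E3a_pop ht x.1
  have h3 : ∀ B : RT Unit, 0 ≤ 1 / ((B.dg : ℝ) + t) ∧ 1 / ((B.dg : ℝ) + t) ≤ 1 := by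
    intro B
    have h4 := E3a_dg_pos B
    have h5 : 0 < (B.dg : ℝ) + t := by linarith
    refine ⟨by positivity, ?_⟩
    rw [div_le_one h5]
    linarith
  have h4 := h3 x.1
  have h5 := h3 x.2
  have h6 : |1 / ((x.1.dg : ℝ) + t) + 1 / ((x.2.dg : ℝ) + t)| ≤ 2 := by
    rw [abs_of_nonneg (by linarith [h4.1, h5.1])]
    linarith [h4.2, h5.2]
  calc |g1 t x.1| * |1 / ((x.1.dg : ℝ) + t) + 1 / ((x.2.dg : ℝ) + t)|
      ≤ (1 * Real.exp t * (x.1.size : ℝ)) * 2 :=
        mul_le_mul h2 h6 (abs_nonneg _) (by positivity)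
    _ = 2 * Real.exp t * (x.1.size : ℝ) := by ring

end E3aaux3

/-- After time `R`, when `yy g ≥ - δ exp (μ t)`: barrier
`M g1 (t-R) B (1/(d_B+t-R) + 1/(d_A+t-R)) + δ ((1/μ) exp(μt) (upr B + upr A) pop B + (25/(8cμ)) E pop)`,
see `KK_s1`, `KK_s2`, `Bd.lo`, `le_th`. -/
theorem dft_after {g : ℕ → ℕ → ℝ} (hb : Bd μ c C) (hg : ∀ l d, |g l d| ≤ 1) {R δ M : ℝ}
    (hR : 0 ≤ R) (hδ : 0 ≤ δ) (hM : 0 ≤ M)
    (h1 : ∀ t, R ≤ t → ∀ x ∈ C2, - (δ * Real.exp (μ * t)) ≤ yy g t x)
    (h2 : ∀ x ∈ C2, - (M * ((x.1.upr + x.2.upr) * pop x.1)) ≤ dft g R x) {t : ℝ} (ht : R ≤ t)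
    {x : RT Unit × RT Unit} (hx : x ∈ C2) :
    - (M * (g1 (t - R) x.1 * (1 / ((x.1.dg : ℝ) + (t - R)) + 1 / ((x.2.dg : ℝ) + (t - R)))) +
      δ * (1 / μ * Real.exp (μ * t) * ((x.1.upr + x.2.upr) * pop x.1) +
        25 / (8 * c * μ) * kerT.sg t (fun y => pop y.1) x)) ≤ dft g t x := by
  have hC := hb.C_pos
  have hc := hb.c_pos
  have hmu0 : 0 < μ := by linarith [hb.mu_ge]
  have hK : 0 ≤ 25 / (8 * c * μ) := by positivity
  set K := 25 / (8 * c * μ) with hKd
  set W : ℝ → RT Unit × RT Unit → ℝ := fun s => kerT.sg (R + s) (fun y => pop y.1) with hW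
  have hshift : ∀ s : ℝ, HasDerivAt (fun s : ℝ => R + s) 1 s := by
    intro s
    simpa using (hasDerivAt_id s).const_add R
  have hexp : ∀ s : ℝ, HasDerivAt (fun s : ℝ => 1 / μ * Real.exp (μ * (R + s)))
      (Real.exp (μ * (R + s))) s := by
    intro s
    have h3 := (((hshift s).const_mul μ).exp).const_mul (1 / μ)
    refine h3.congr_deriv ?_
    field_simp
  have hmaps : Set.MapsTo (fun s : ℝ => R + s) (Set.Ici 0) (Set.Ici 0) := by
    intro s hs
    have : (0 : ℝ) ≤ s := hs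
    show (0 : ℝ) ≤ R + s
    linarith
  have key : ∀ x ∈ C2, ∀ s, 0 ≤ s → 0 ≤ dft g (R + s) x + (M * E3aH s x +
      δ * (1 / μ * Real.exp (μ * (R + s)) * E3aF x + K * W s x)) := by
    refine kerKK.comparison' closed_KK
      (w := fun s x => dft g (R + s) x + (M * E3aH s x +
        δ * (1 / μ * Real.exp (μ * (R + s)) * E3aF x + K * W s x)))
      (w' := fun s x => (kerKK.L (dft g (R + s)) x +
        x.1.upr * kerT.sg (R + s) (fun y => asum g y.1) (x.1, add x.2) +
        x.2.upr * kerT.sg (R + s) (fun y => asum g y.1) (add x.1, x.2)) +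
        (M * (gen (g1 s) x.1 *
        (1 / ((x.1.dg : ℝ) + s) + 1 / ((x.2.dg : ℝ) + s)) -
      g1 s x.1 * (1 / ((x.1.dg : ℝ) + s) ^ 2 + 1 / ((x.2.dg : ℝ) + s) ^ 2)) +
        δ * (Real.exp (μ * (R + s)) * E3aF x + K * kerT.L (W s) x))) ?_ ?_ ?_ ?_ ?_
    · intro x hx
      have h3 := h2 x hx
      have h4 : E3aH 0 x = E3aF x := by
        unfold E3aH E3aF
        rw [E3a_upr_dg, E3a_upr_dg]
        have : g1 0 x.1 = pop x.1 := gz_zero pop x.1
        rw [this]
        ring
      have h5 : 0 ≤ W 0 x := by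
        simp only [hW, add_zero]
        exact kerT.sg_nonneg kerT.closed_univ (fun y _ => pop_nonneg y.1) hR (Set.mem_univ _)
      have h6 : 0 ≤ E3aF x := E3aF_nonneg x
      rw [h4]
      simp only [add_zero]
      have h7 : M * ((x.1.upr + x.2.upr) * pop x.1) = M * E3aF x := rfl
      rw [h7] at h3
      have h8 : 0 ≤ δ * (1 / μ * Real.exp (μ * R) * E3aF x + K * W 0 x) := by positivity
      linarith
    · intro x _
      have c1 : ContinuousOn (fun s => dft g (R + s) x) (Set.Ici 0) :=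
        (E3a_dft_cont hg x).comp (continuousOn_const.add continuousOn_id) hmaps
      have c2 : ContinuousOn (fun s => W s x) (Set.Ici 0) :=
        (kerT.continuousOn_sg (E3a_GrT E3a_pop) x).comp
          (continuousOn_const.add continuousOn_id) hmaps
      have c3 : ContinuousOn (fun s : ℝ => 1 / μ * Real.exp (μ * (R + s))) (Set.Ici 0) :=
        fun s _ => (hexp s).continuousAt.continuousWithinAt
      exact c1.add ((continuousOn_const.mul (E3aH_cont x)).add
        (continuousOn_const.mul ((c3.mul continuousOn_const).add (continuousOn_const.mul c2))))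
    · intro x _ s hs
      have d1 := (dft_hasDerivAt hg (show 0 < R + s by linarith) x).comp_const_add R s
      have d2 : HasDerivAt (fun s => W s x) (kerT.L (W s) x) s :=
        (kerT.hasDerivAt_sg (E3a_GrT E3a_pop) x (show 0 < R + s by linarith)).comp_const_add R s
      exact d1.add (((E3aH_deriv hs x).const_mul M).add
        ((((hexp s).mul_const (E3aF x)).add (d2.const_mul K)).const_mul δ))
    · intro x hx s hs
      have hRs : 0 ≤ R + s := by linarith
      have e1 : kerKK.L (fun x => dft g (R + s) x + (M * E3aH s x +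
          δ * (1 / μ * Real.exp (μ * (R + s)) * E3aF x + K * W s x))) x =
          kerKK.L (dft g (R + s)) x + (M * kerKK.L (E3aH s) x +
          δ * (1 / μ * Real.exp (μ * (R + s)) * kerKK.L E3aF x + K * kerKK.L (W s) x)) := by
        rw [E3a_L_add kerKK (dft g (R + s)) (fun x => M * E3aH s x +
            δ * (1 / μ * Real.exp (μ * (R + s)) * E3aF x + K * W s x)),
          E3a_L_add kerKK (fun x => M * E3aH s x) (fun x =>
            δ * (1 / μ * Real.exp (μ * (R + s)) * E3aF x + K * W s x)),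
          E3a_L_smul, E3a_L_smul, E3a_L_add kerKK
            (fun x => 1 / μ * Real.exp (μ * (R + s)) * E3aF x) (fun x => K * W s x),
          E3a_L_smul, E3a_L_smul]
      rw [e1]
      have g1' := mul_le_mul_of_nonneg_left (KK_s2 hs.le hx) hM
      have g2 : kerKK.L E3aF x ≤ (x.1.upr + x.2.upr) * asum (fun l d => (l : ℝ) / d) x.1 :=
        KK_s1 hx
      have g3 := kerT_L_eq (W s) x
      have hu1 := upr_nonneg x.1
      have hu2 := upr_nonneg x.2
      -- the expected population is large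
      have hE : 0 < Real.exp (μ * (R + s)) := Real.exp_pos _
      have hth : 8 / 25 * asum (fun l d => (l : ℝ) / d) x.1 ≤ asum th x.1 := by
        rw [← asum_smul]
        exact asum_mono (fun l d h h' => le_th h h') x.1
      have hth2 : asum th x.1 ≤ asum th (add x.1) := by
        rw [asum_add th hx.1]
        have h3 : th x.1.nl (x.1.nk + 1) ≤ th (x.1.nl + 1) (x.1.nk + 2) := by
          refine th_mono ?_ ?_
          · have := nl_le_nk x.1
            omega
          · have := hx.1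
            omega
        linarith
      have g4 : c * Real.exp (μ * (R + s)) * asum th x.1 ≤ W s (x.1, add x.2) :=
        hb.lo (RT Unit) Env.rt (R + s) hRs x.1 hx.1 (add x.2)
      have g5 : c * Real.exp (μ * (R + s)) * asum th (add x.1) ≤ W s (add x.1, x.2) :=
        hb.lo (RT Unit) Env.rt (R + s) hRs (add x.1) (by simp) x.2
      have g6 : c * Real.exp (μ * (R + s)) * asum th x.1 ≤
          c * Real.exp (μ * (R + s)) * asum th (add x.1) :=
        mul_le_mul_of_nonneg_left hth2 (by positivity)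
      have g7 : 1 / μ * Real.exp (μ * (R + s)) * asum (fun l d => (l : ℝ) / d) x.1 ≤
          K * (c * Real.exp (μ * (R + s)) * asum th x.1) := by
        have h3 : K * (c * Real.exp (μ * (R + s)) * (8 / 25 *
            asum (fun l d => (l : ℝ) / d) x.1)) =
            1 / μ * Real.exp (μ * (R + s)) * asum (fun l d => (l : ℝ) / d) x.1 := by
          rw [hKd]
          field_simp
        rw [← h3]
        exact mul_le_mul_of_nonneg_left (mul_le_mul_of_nonneg_left hth (by positivity)) hK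
      have g8 : 1 / μ * Real.exp (μ * (R + s)) * kerKK.L E3aF x ≤
          K * (x.1.upr * W s (x.1, add x.2) + x.2.upr * W s (add x.1, x.2)) := by
        have h3 : 1 / μ * Real.exp (μ * (R + s)) * kerKK.L E3aF x ≤
            1 / μ * Real.exp (μ * (R + s)) *
              ((x.1.upr + x.2.upr) * asum (fun l d => (l : ℝ) / d) x.1) :=
          mul_le_mul_of_nonneg_left g2 (by positivity)
        have h4 := mul_le_mul_of_nonneg_left g7 (add_nonneg hu1 hu2)
        have h5 := mul_le_mul_of_nonneg_left g4 hu1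
        have h6 := mul_le_mul_of_nonneg_left (g6.trans g5) hu2
        have h7 := mul_le_mul_of_nonneg_left (add_le_add h5 h6) hK
        linarith
      -- the messages
      have hy : ∀ z ∈ C2, - (δ * Real.exp (μ * (R + s))) ≤ yy g (R + s) z :=
        h1 (R + s) (by linarith)
      have g9 := E3a_msg2 hg hRs hy hx.1 (E3a_mem1 hx).2
      have g10 := E3a_msg2 hg hRs hy (E3a_mem2 hx).1 hx.2
      rw [E3a_pop_add hx.1] at g10
      have g11 := mul_le_mul_of_nonneg_left g9 hu1
      have g12 := mul_le_mul_of_nonneg_left g10 hu2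
      have g13 := mul_le_mul_of_nonneg_left g8 hδ
      have g14 : δ * (Real.exp (μ * (R + s)) * E3aF x) =
          x.1.upr * (δ * Real.exp (μ * (R + s)) * pop x.1) +
          x.2.upr * (δ * Real.exp (μ * (R + s)) * pop x.1) := by
        unfold E3aF
        ring
      have g15 : kerKK.L (E3aH s) x = kerKK.L (fun y => g1 s y.1 *
          (1 / ((y.1.dg : ℝ) + s) + 1 / ((y.2.dg : ℝ) + s))) x := rfl
      rw [g15, g3]
      linarith
    · have t1 : kerKK.TGr C2 (fun s => dft g (R + s)) := E3a_TGr_shift (E3a_TGr_dft hg) hR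
      have t2 : kerKK.TGr C2 (fun s x => M * E3aH s x) := by
        intro T hT
        obtain ⟨C', p, hC'⟩ := E3aH_TGr T hT
        refine ⟨M * C', p, fun x hx t ht => ?_⟩
        rw [abs_mul, abs_of_nonneg hM, mul_assoc]
        exact mul_le_mul_of_nonneg_left (hC' x hx t ht) hM
      have t3 : kerKK.TGr C2 (fun s x => 1 / μ * Real.exp (μ * (R + s)) * E3aF x) :=
        Ker.TGr.mul kerKK E3aF_Gr (fun s _ => (hexp s).continuousAt.continuousWithinAt)
      have t4 : kerKK.TGr C2 W :=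
        E3a_TGr_shift (a := fun t => kerT.sg t (fun y => pop y.1))
          (E3a_TGr_T (Ker.TGr.sg kerT (E3a_GrT E3a_pop) C2)) hR
      have t5 : kerKK.TGr C2 (fun s x => K * W s x) := by
        intro T hT
        obtain ⟨C', p, hC'⟩ := t4 T hT
        refine ⟨K * C', p, fun x hx t ht => ?_⟩
        rw [abs_mul, abs_of_nonneg hK, mul_assoc]
        exact mul_le_mul_of_nonneg_left (hC' x hx t ht) hK
      have t6 : kerKK.TGr C2 (fun s x =>
          δ * (1 / μ * Real.exp (μ * (R + s)) * E3aF x + K * W s x)) := by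
        intro T hT
        obtain ⟨C', p, hC'⟩ := Ker.TGr.add kerKK t3 t5 T hT
        refine ⟨δ * C', p, fun x hx t ht => ?_⟩
        rw [abs_mul, abs_of_nonneg hδ, mul_assoc δ C']
        exact mul_le_mul_of_nonneg_left (hC' x hx t ht) hδ
      exact Ker.TGr.add kerKK t1 (Ker.TGr.add kerKK t2 t6)
  have h3 := key x hx (t - R) (by linarith)
  have e1 : R + (t - R) = t := by ring
  simp only [hW] at h3
  rw [e1] at h3
  have h4 : E3aH (t - R) x = g1 (t - R) x.1 *
      (1 / ((x.1.dg : ℝ) + (t - R)) + 1 / ((x.2.dg : ℝ) + (t - R))) := rfl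
  have h5 : E3aF x = (x.1.upr + x.2.upr) * pop x.1 := rfl
  rw [h4, h5] at h3
  linarith

end RFT
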