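import Pool.Agent.H13.RF.E1

/-! Module E4b: the barrier of the minorisation. -/

namespace RFT

open Finset RT

variable {μ c C : ℝ}

/-- The barrier.  `J a = ∫₀ᵃ Kp (t-1+s) ds`, `J₂ a = ∫₀ᵃ J`.  Weight `exp(-a)/5 * (J a * th l d)` for `l ≥ 2`,
`exp(-a)/5 * (J₂ a * th 1 d)` for `l = 1`, zero for `l = 0`. -/
noncomputable def bar (J J₂ : ℝ → ℝ) (a : ℝ) (l d : ℕ) : ℝ :=
  Real.exp (-a) / 5 * ((if l = 1 then J₂ a else J a) * th l d)

/-- `∂ₐ bar ≤ l (bar(l+1,d+1) - bar) + l/d (bar(l-1,d) - bar) + [l ≥ 2] (l/d) K/5` for `0 ≤ a ≤ 1`, where `J' = K`,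
`J₂' = J`, `0 ≤ J₂ ≤ J`, `0 ≤ K`; and `bar` does not decrease under a message.
`l ≥ 3`: `th_sub`, `th_le`.  `l = 2`: the loss `(2/d) th(1,d) (J - J₂)` is paid by the factor `exp (-a)`:
`(2/d) th 1 d ≤ th 2 d`.  `l = 1`: `th_one`. -/
theorem bar_sub {J J₂ : ℝ → ℝ} {a K : ℝ} (ha : 0 ≤ a) (h0 : 0 ≤ J₂ a) (h1 : J₂ a ≤ J a) (hK : 0 ≤ K)
    {l d : ℕ} (hl : l + 1 ≤ d) (hd : 2 ≤ d) :
    - bar J J₂ a l d + Real.exp (-a) / 5 * ((if l = 1 then J a else K) * th l d) ≤
      (l : ℝ) * (bar J J₂ a (l + 1) (d + 1) - bar J J₂ a l d) +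
      (l : ℝ) / d * (bar J J₂ a (l - 1) d - bar J J₂ a l d) +
      (if 2 ≤ l then (l : ℝ) / d * (1 / 5 * K) else 0) := by
  have hJ : 0 ≤ J a := h0.trans h1
  have hd0 : (0 : ℝ) < d := by positivity
  have hE0 : 0 < Real.exp (-a) / 5 := by positivity
  have hE1 : Real.exp (-a) / 5 ≤ 1 / 5 := by
    have := Real.exp_le_one_iff.2 (by linarith : -a ≤ 0)
    linarith
  unfold bar
  set E := Real.exp (-a) / 5 with hE
  rcases Nat.lt_or_ge l 1 with h | h
  · have : l = 0 := by omega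
    subst this
    simp
  rcases Nat.lt_or_ge l 2 with h2 | h2
  · have : l = 1 := by omega
    subst this
    have ht := th_one hd
    have ht0 := th_nonneg 1 d
    have hinv : 0 ≤ 1 / (d : ℝ) := by positivity
    simp only [if_true, if_neg (show ¬ (2 = 1) by norm_num),
      if_neg (show ¬ (2 ≤ 1) by norm_num), th_zero, Nat.cast_one, one_add_one_eq_two, Nat.sub_self]
    have h5 : J a * ((2 + 1 / (d : ℝ)) * th 1 d) ≤ J a * th 2 (d + 1) := mul_le_mul_of_nonneg_left ht hJ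
    have h6 : J₂ a * (1 / (d : ℝ) * th 1 d) ≤ J a * (1 / (d : ℝ) * th 1 d) :=
      mul_le_mul_of_nonneg_right h1 (by positivity)
    have h7 : 0 ≤ J a * th 1 d := by positivity
    have key : -(J₂ a * th 1 d) + J a * th 1 d ≤
        (J a * th 2 (d + 1) - J₂ a * th 1 d) + 1 / (d : ℝ) * (0 - J₂ a * th 1 d) := by
      nlinarith
    have := mul_le_mul_of_nonneg_left key hE0.le
    calc _ = E * (-(J₂ a * th 1 d) + J a * th 1 d) := by ring
      _ ≤ _ := this
      _ = _ := by ring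
  · have hl1 : ¬ (l = 1) := by omega
    have hl2 : ¬ (l + 1 = 1) := by omega
    simp only [if_neg hl1, if_neg hl2, if_pos h2]
    have hts := th_sub hl hd
    have htl := th_le hl
    have ht0 := th_nonneg l d
    have hKt : E * (K * th l d) ≤ (l : ℝ) / d * (1 / 5 * K) := by
      have e1 : K * th l d ≤ K * ((l : ℝ) / d) := mul_le_mul_of_nonneg_left htl hK
      have e2 : E * (K * th l d) ≤ 1 / 5 * (K * ((l : ℝ) / d)) :=
        mul_le_mul hE1 e1 (by positivity) (by norm_num)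
      calc _ ≤ _ := e2
        _ = _ := by ring
    have hJs := mul_nonneg (mul_nonneg hE0.le hJ) hts
    rcases Nat.lt_or_ge l 3 with h3 | h3
    · have : l = 2 := by omega
      subst this
      simp only [show (2 - 1 = 1) from rfl, if_true] at hJs ⊢
      have ht1 := th_nonneg 1 d
      have hmono : th 1 d ≤ th 2 d := th_mono_left 2 d
      have hd3 : (2 : ℝ) / d ≤ 1 := by
        rw [div_le_one hd0]; exact_mod_cast hd
      have hq : 0 ≤ (2 : ℝ) / d := by positivity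
      have e1 : (2 : ℝ) / d * ((J a - J₂ a) * th 1 d) ≤ J a * th 2 d := by
        have a1 : (J a - J₂ a) * th 1 d ≤ J a * th 2 d :=
          mul_le_mul (by linarith) hmono ht1 hJ
        have a2 : 0 ≤ (J a - J₂ a) * th 1 d := mul_nonneg (by linarith) ht1
        nlinarith
      have e2 := mul_le_mul_of_nonneg_left e1 hE0.le
      push_cast at hJs hKt ⊢
      nlinarith
    · have hl3 : ¬ (l - 1 = 1) := by omega
      simp only [if_neg hl3]
      have : 0 ≤ E * (J a * th l d) := by positivity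
      nlinarith

theorem bar_mono {J J₂ : ℝ → ℝ} {a : ℝ} (h0 : 0 ≤ J₂ a) (h1 : J₂ a ≤ J a)
    {l d : ℕ} (hl : l + 1 ≤ d) (hd : 2 ≤ d) : bar J J₂ a l d ≤ bar J J₂ a (l + 1) (d + 1) := by
  have hJ : 0 ≤ J a := h0.trans h1
  have hE0 : 0 < Real.exp (-a) / 5 := by positivity
  have ht := th_mono hl hd
  have ht0 := th_nonneg l d
  have ht1 := th_nonneg (l + 1) (d + 1)
  unfold bar
  refine mul_le_mul_of_nonneg_left ?_ hE0.le
  rcases Nat.lt_or_ge l 1 with h | h
  · have : l = 0 := by omega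
    subst this
    simp only [th_zero, mul_zero]
    split_ifs <;> positivity
  · rw [if_neg (show ¬ (l + 1 = 1) by omega)]
    split_ifs
    · exact mul_le_mul h1 ht ht0 hJ
    · exact mul_le_mul_of_nonneg_left ht hJ

end RFT
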