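import Pool.Agent.H13.RF.E4a
import Pool.Agent.H13.RF.E4b

/-! Module E4c: the minorisation. -/

namespace RFT

open Finset RT

variable {μ c C : ℝ}

/-- the time dependent rate, extended continuously to all times -/
noncomputable def E4c_K (g : ℕ → ℕ → ℝ) (τ : ℝ) (s : ℝ) : ℝ := Kp g (max (τ + s) 0)

theorem E4c_K_nonneg (g : ℕ → ℕ → ℝ) (τ s : ℝ) : 0 ≤ E4c_K g τ s := by
  unfold E4c_K Kp
  exact le_max_right _ _

theorem E4c_K_cont {g : ℕ → ℕ → ℝ} (hg : ∀ l d, |g l d| ≤ 1) (τ : ℝ) : Continuous (E4c_K g τ) := by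
  have h1 : Continuous fun s : ℝ => max (τ + s) 0 := by fun_prop
  exact (Kp_continuousOn hg).comp_continuous h1 fun s => Set.mem_Ici.2 (le_max_right _ _)

theorem E4c_K_eq (g : ℕ → ℕ → ℝ) {τ s : ℝ} (h : 0 ≤ τ + s) : E4c_K g τ s = Kp g (τ + s) := by
  unfold E4c_K
  rw [max_eq_left h]

/-- the integral of the rate -/
noncomputable def E4c_J (g : ℕ → ℕ → ℝ) (τ : ℝ) (a : ℝ) : ℝ := ∫ s in (0 : ℝ)..a, E4c_K g τ s

/-- the double integral of the rate -/
noncomputable def E4c_J2 (g : ℕ → ℕ → ℝ) (τ : ℝ) (a : ℝ) : ℝ := ∫ s in (0 : ℝ)..a, E4c_J g τ s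

theorem E4c_J_deriv {g : ℕ → ℕ → ℝ} (hg : ∀ l d, |g l d| ≤ 1) (τ a : ℝ) :
    HasDerivAt (E4c_J g τ) (E4c_K g τ a) a :=
  intervalIntegral.integral_hasDerivAt_right ((E4c_K_cont hg τ).intervalIntegrable _ _)
    (E4c_K_cont hg τ).stronglyMeasurable.stronglyMeasurableAtFilter (E4c_K_cont hg τ).continuousAt

theorem E4c_J_cont {g : ℕ → ℕ → ℝ} (hg : ∀ l d, |g l d| ≤ 1) (τ : ℝ) : Continuous (E4c_J g τ) :=
  continuous_iff_continuousAt.2 fun a => (E4c_J_deriv hg τ a).continuousAt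

theorem E4c_J2_deriv {g : ℕ → ℕ → ℝ} (hg : ∀ l d, |g l d| ≤ 1) (τ a : ℝ) :
    HasDerivAt (E4c_J2 g τ) (E4c_J g τ a) a :=
  intervalIntegral.integral_hasDerivAt_right ((E4c_J_cont hg τ).intervalIntegrable _ _)
    (E4c_J_cont hg τ).stronglyMeasurable.stronglyMeasurableAtFilter (E4c_J_cont hg τ).continuousAt

theorem E4c_J_mono {g : ℕ → ℕ → ℝ} (hg : ∀ l d, |g l d| ≤ 1) (τ : ℝ) : Monotone (E4c_J g τ) := by
  apply monotone_of_deriv_nonneg
  · exact fun a => (E4c_J_deriv hg τ a).differentiableAt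
  · intro a
    rw [(E4c_J_deriv hg τ a).deriv]
    exact E4c_K_nonneg g τ a

theorem E4c_J_zero (g : ℕ → ℕ → ℝ) (τ : ℝ) : E4c_J g τ 0 = 0 := by
  unfold E4c_J
  simp

theorem E4c_J2_zero (g : ℕ → ℕ → ℝ) (τ : ℝ) : E4c_J2 g τ 0 = 0 := by
  unfold E4c_J2
  simp

theorem E4c_J_nonneg {g : ℕ → ℕ → ℝ} (hg : ∀ l d, |g l d| ≤ 1) (τ : ℝ) {a : ℝ} (ha : 0 ≤ a) :
    0 ≤ E4c_J g τ a := by
  have h := E4c_J_mono hg τ ha
  rwa [E4c_J_zero] at h

theorem E4c_J2_nonneg {g : ℕ → ℕ → ℝ} (hg : ∀ l d, |g l d| ≤ 1) (τ : ℝ) {a : ℝ} (ha : 0 ≤ a) :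
    0 ≤ E4c_J2 g τ a := by
  unfold E4c_J2
  apply intervalIntegral.integral_nonneg ha
  intro s hs
  exact E4c_J_nonneg hg τ hs.1

theorem E4c_J2_le {g : ℕ → ℕ → ℝ} (hg : ∀ l d, |g l d| ≤ 1) (τ : ℝ) {a : ℝ} (ha : 0 ≤ a)
    (ha1 : a ≤ 1) : E4c_J2 g τ a ≤ E4c_J g τ a := by
  have h1 : E4c_J2 g τ a ≤ ∫ _ in (0 : ℝ)..a, E4c_J g τ a := by
    unfold E4c_J2
    apply intervalIntegral.integral_mono_on ha ((E4c_J_cont hg τ).intervalIntegrable _ _)
      (by simp)
    intro s hs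
    exact E4c_J_mono hg τ hs.2
  rw [intervalIntegral.integral_const, smul_eq_mul, sub_zero] at h1
  have h2 := E4c_J_nonneg hg τ ha
  nlinarith

theorem E4c_J2_one {g : ℕ → ℕ → ℝ} (hg : ∀ l d, |g l d| ≤ 1) (τ : ℝ) :
    1 / 2 * E4c_J g τ (1 / 2) ≤ E4c_J2 g τ 1 := by
  have h1 : E4c_J2 g τ 1 = (∫ s in (0 : ℝ)..(1 / 2), E4c_J g τ s) +
      ∫ s in (1 / 2 : ℝ)..1, E4c_J g τ s := by
    unfold E4c_J2
    rw [intervalIntegral.integral_add_adjacent_intervals
      ((E4c_J_cont hg τ).intervalIntegrable _ _) ((E4c_J_cont hg τ).intervalIntegrable _ _)]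
  have h2 : 0 ≤ ∫ s in (0 : ℝ)..(1 / 2), E4c_J g τ s := by
    apply intervalIntegral.integral_nonneg (by norm_num)
    intro s hs
    exact E4c_J_nonneg hg τ hs.1
  have h3 : ∫ _ in (1 / 2 : ℝ)..1, E4c_J g τ (1 / 2) ≤ ∫ s in (1 / 2 : ℝ)..1, E4c_J g τ s := by
    apply intervalIntegral.integral_mono_on (by norm_num) (by simp)
      ((E4c_J_cont hg τ).intervalIntegrable _ _)
    intro s hs
    exact E4c_J_mono hg τ hs.1
  rw [intervalIntegral.integral_const, smul_eq_mul] at h3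
  rw [h1]
  linarith

/-- the barrier as a function of time: derivative -/
theorem E4c_bar_deriv {g : ℕ → ℕ → ℝ} (hg : ∀ l d, |g l d| ≤ 1) (τ a : ℝ) (l d : ℕ) :
    HasDerivAt (fun s => bar (E4c_J g τ) (E4c_J2 g τ) s l d)
      (- bar (E4c_J g τ) (E4c_J2 g τ) a l d +
        Real.exp (-a) / 5 * ((if l = 1 then E4c_J g τ a else E4c_K g τ a) * th l d)) a := by
  have h0 : HasDerivAt (fun s : ℝ => Real.exp (-s) / 5) (-(Real.exp (-a) / 5)) a := by
    have h1 : HasDerivAt (fun s : ℝ => Real.exp (-s)) (Real.exp (-a) * (-1)) a :=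
      (hasDerivAt_neg a).exp
    refine (h1.div_const 5).congr_deriv ?_
    ring
  by_cases hl : l = 1
  · have h2 := h0.mul ((E4c_J2_deriv hg τ a).mul_const (th l d))
    unfold bar
    simp only [hl, if_true] at h2 ⊢
    refine h2.congr_deriv ?_
    ring
  · have h2 := h0.mul ((E4c_J_deriv hg τ a).mul_const (th l d))
    unfold bar
    simp only [hl, if_false] at h2 ⊢
    refine h2.congr_deriv ?_
    ring

theorem E4c_bar_abs {g : ℕ → ℕ → ℝ} (hg : ∀ l d, |g l d| ≤ 1) (τ : ℝ) {a : ℝ} (ha : 0 ≤ a)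
    (ha1 : a ≤ 1) (x : RT Unit × RT Unit) :
    |vf (bar (E4c_J g τ) (E4c_J2 g τ) a) x| ≤ E4c_J g τ 1 := by
  have h1 := abs_vf_th x
  unfold vf at h1 ⊢
  unfold bar
  have h2 := E4c_J_nonneg hg τ ha
  have h3 := E4c_J2_nonneg hg τ ha
  have h4 := E4c_J2_le hg τ ha ha1
  have h5 := E4c_J_mono hg τ ha1
  have h6 : Real.exp (-a) ≤ 1 := Real.exp_le_one_iff.2 (by linarith)
  have h7 := Real.exp_pos (-a)
  have h8 : 0 ≤ (if x.1.nl = 1 then E4c_J2 g τ a else E4c_J g τ a) ∧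
      (if x.1.nl = 1 then E4c_J2 g τ a else E4c_J g τ a) ≤ E4c_J g τ 1 := by
    split_ifs
    · exact ⟨h3, h4.trans h5⟩
    · exact ⟨h2, h5⟩
  set m := (if x.1.nl = 1 then E4c_J2 g τ a else E4c_J g τ a)
  have h9 : 0 ≤ m * th x.1.nl x.1.dg := mul_nonneg h8.1 h1.1
  have h10 : m * th x.1.nl x.1.dg ≤ E4c_J g τ 1 := by
    calc m * th x.1.nl x.1.dg ≤ m * 1 := mul_le_mul_of_nonneg_left h1.2 h8.1
      _ ≤ E4c_J g τ 1 := by rw [mul_one]; exact h8.2
  rw [abs_of_nonneg (by positivity)]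
  calc Real.exp (-a) / 5 * (m * th x.1.nl x.1.dg) ≤ 1 * (m * th x.1.nl x.1.dg) := by
        apply mul_le_mul_of_nonneg_right _ h9
        linarith
    _ ≤ E4c_J g τ 1 := by rw [one_mul]; exact h10

/-- generator of the barrier plus creation -/
theorem E4c_bar_L {g : ℕ → ℕ → ℝ} (hg : ∀ l d, |g l d| ≤ 1) (τ : ℝ) {a : ℝ} (ha : 0 ≤ a)
    (ha1 : a ≤ 1) {x : RT Unit × RT Unit} (hx : x ∈ C2) :
    - bar (E4c_J g τ) (E4c_J2 g τ) a x.1.nl x.1.dg +
        Real.exp (-a) / 5 * ((if x.1.nl = 1 then E4c_J g τ a else E4c_K g τ a) *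
          th x.1.nl x.1.dg) ≤
      kerT.L (vf (bar (E4c_J g τ) (E4c_J2 g τ) a)) x +
        (if 2 ≤ x.1.nl then (x.1.nl : ℝ) / x.1.dg * (1 / 5 * E4c_K g τ a) else 0) := by
  have h1 := bar_sub (J := E4c_J g τ) (J₂ := E4c_J2 g τ) ha (E4c_J2_nonneg hg τ ha)
    (E4c_J2_le hg τ ha ha1) (E4c_K_nonneg g τ a) (nl_add_one_le (x := x)) (two_le_dg hx)
  have h2 := bar_mono (J := E4c_J g τ) (J₂ := E4c_J2 g τ) (a := a) (E4c_J2_nonneg hg τ ha)
    (E4c_J2_le hg τ ha ha1) (nl_add_one_le (x := x)) (two_le_dg hx)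
  rw [LT_vf hx]
  have h3 := mul_nonneg (rin_nonneg x) (sub_nonneg.2 h2)
  linarith

theorem E4c_L_sub (u v : RT Unit × RT Unit → ℝ) (r : ℝ) (x : RT Unit × RT Unit) :
    kerT.L (fun y => u y - (v y - r)) x = kerT.L u x - kerT.L v x := by
  have h1 := LT_const r x
  have h2 : kerT.L (fun y => u y - (v y - r)) x =
      kerT.L u x - (kerT.L v x - kerT.L (fun _ => r) x) := by
    rw [kerT.A5a_L_sub, kerT.A5a_L_sub]
  rw [h2, h1, sub_zero]

/-- **Minorisation** at time `t` by the births in the time window `[0,1]`. -/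
theorem doeblin {g : ℕ → ℕ → ℝ} (hb : Bd μ c C) (hg : ∀ l d, |g l d| ≤ 1)
    (hq : AsNonneg μ g) : ∀ ε : ℝ, 0 < ε → ∃ T : ℝ, 1 ≤ T ∧ ∀ t, T ≤ t → ∀ x ∈ C2,
      1 / 50 * vf th x * (∫ s in (0 : ℝ)..(1 / 2), Kp g (t - 1 + s)) -
        ε * Real.exp (μ * t) ≤ yy g t x := by
  intro ε hε
  have hμ : 0 < μ := by have := hb.mu_ge; linarith
  obtain ⟨T1, hT1, hnew⟩ := newborn hb hg hq (ε / 2) (by positivity)
  obtain ⟨T2, hT2, hasn⟩ := hq (ε / 2) (by positivity)
  refine ⟨max T1 T2 + 1, by linarith [hT1.trans (le_max_left T1 T2)], fun t ht x hx => ?_⟩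
  set τ : ℝ := t - 1 with hτ
  have hτ1 : T1 ≤ τ := by have := le_max_left T1 T2; linarith
  have hτ2 : T2 ≤ τ := by have := le_max_right T1 T2; linarith
  have hτ0 : 0 ≤ τ := hT1.trans hτ1
  set E : ℝ := ε / 2 * Real.exp (μ * τ) with hE
  have hE0 : 0 < E := by positivity
  set B : ℝ → RT Unit × RT Unit → ℝ := fun a y => vf (bar (E4c_J g τ) (E4c_J2 g τ) a) y with hB
  set φ : ℝ → ℝ := fun a => E * (1 + a * Real.exp μ) with hφ
  have hcomp := kerT.comparison closed_C2' (T := 1)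
    (w := fun a y => yy g (τ + a) y - (B a y - φ a))
    (w' := fun a y => kerT.L (yy g (τ + a)) y + (∑ i ∈ range y.1.nk,
      (if (kid y.1 i).nk = 0 then y.1.upr * yy g (τ + a) (fresh, repl y.1 i y.2) else 0)) -
      ((- bar (E4c_J g τ) (E4c_J2 g τ) a y.1.nl y.1.dg +
        Real.exp (-a) / 5 * ((if y.1.nl = 1 then E4c_J g τ a else E4c_K g τ a) *
          th y.1.nl y.1.dg)) - E * Real.exp μ))
    ?_ ?_ ?_ ?_ ?_ x hx 1 ⟨zero_le_one, le_rfl⟩
  · -- conclusion
    have h1 : τ + 1 = t := by rw [hτ]; ring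
    simp only [h1] at hcomp
    have h2 : ∫ s in (0 : ℝ)..(1 / 2), Kp g (τ + s) = E4c_J g τ (1 / 2) := by
      unfold E4c_J
      apply intervalIntegral.integral_congr
      intro s hs
      rw [Set.uIcc_of_le (by norm_num)] at hs
      exact (E4c_K_eq g (by linarith [hs.1])).symm
    rw [h2]
    have hJ0 := E4c_J_nonneg hg τ (a := 1 / 2) (by norm_num)
    have h3 : 1 / 50 * vf th x * E4c_J g τ (1 / 2) ≤ B 1 x := by
      simp only [hB]
      have h4 := abs_vf_th x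
      unfold vf at h4 ⊢
      unfold bar
      have h5 : 1 / 2 * E4c_J g τ (1 / 2) ≤
          (if x.1.nl = 1 then E4c_J2 g τ 1 else E4c_J g τ 1) := by
        split_ifs
        · exact E4c_J2_one hg τ
        · have h6 := E4c_J_mono hg τ (by norm_num : (1 / 2 : ℝ) ≤ 1)
          linarith
      have h7 : (1 / 5 : ℝ) ≤ Real.exp (-1) := by
        have h8 : Real.exp 1 < 5 := by
          have := Real.exp_one_lt_d9
          linarith
        rw [Real.exp_neg, one_div]
        exact (inv_le_inv₀ (by norm_num) (Real.exp_pos _)).2 h8.le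
      set m := (if x.1.nl = 1 then E4c_J2 g τ 1 else E4c_J g τ 1)
      have h9 : 1 / 2 * E4c_J g τ (1 / 2) * th x.1.nl x.1.dg ≤ m * th x.1.nl x.1.dg :=
        mul_le_mul_of_nonneg_right h5 h4.1
      have h10 : 0 ≤ 1 / 2 * E4c_J g τ (1 / 2) * th x.1.nl x.1.dg := by
        have := h4.1
        positivity
      calc 1 / 50 * th x.1.nl x.1.dg * E4c_J g τ (1 / 2)
          = (1 / 5) / 5 * (1 / 2 * E4c_J g τ (1 / 2) * th x.1.nl x.1.dg) := by ring
        _ ≤ Real.exp (-1) / 5 * (1 / 2 * E4c_J g τ (1 / 2) * th x.1.nl x.1.dg) := by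
            apply mul_le_mul_of_nonneg_right _ h10
            linarith
        _ ≤ Real.exp (-1) / 5 * (m * th x.1.nl x.1.dg) :=
            mul_le_mul_of_nonneg_left h9 (by positivity)
    have h11 : φ 1 ≤ ε * Real.exp (μ * t) := by
      simp only [hφ, hE]
      have h12 : Real.exp (μ * τ) ≤ Real.exp (μ * t) := by
        apply Real.exp_le_exp.2
        apply mul_le_mul_of_nonneg_left _ hμ.le
        linarith
      have h13 : Real.exp (μ * τ) * Real.exp μ = Real.exp (μ * t) := by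
        rw [← Real.exp_add]
        congr 1
        rw [hτ]
        ring
      calc ε / 2 * Real.exp (μ * τ) * (1 + 1 * Real.exp μ)
          = ε / 2 * Real.exp (μ * τ) + ε / 2 * (Real.exp (μ * τ) * Real.exp μ) := by ring
        _ ≤ ε / 2 * Real.exp (μ * t) + ε / 2 * Real.exp (μ * t) := by
            rw [h13]
            have : 0 < ε / 2 := by positivity
            nlinarith
        _ = ε * Real.exp (μ * t) := by ring
    linarith
  · -- start
    intro y hy
    have h1 := hasn τ hτ2 y hy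
    have h2 : B 0 y = 0 := by
      simp only [hB]
      unfold vf bar
      rw [E4c_J_zero, E4c_J2_zero]
      simp
    simp only [add_zero, h2, hφ]
    linarith
  · -- continuity
    intro y hy
    have h1 : ContinuousOn (fun a => yy g (τ + a) y) (Set.Icc 0 1) := by
      refine (yy_continuousOn hg y).comp (Continuous.continuousOn (by fun_prop)) ?_
      intro a ha
      exact add_nonneg hτ0 ha.1
    refine h1.sub (ContinuousOn.sub ?_ (Continuous.continuousOn (by fun_prop)))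
    intro a _
    exact (E4c_bar_deriv hg τ a y.1.nl y.1.dg).continuousAt.continuousWithinAt
  · -- derivative
    intro y hy a ha
    have h1 : HasDerivAt (fun s => yy g (τ + s) y) (kerT.L (yy g (τ + a)) y + ∑ i ∈ range y.1.nk,
      (if (kid y.1 i).nk = 0 then y.1.upr * yy g (τ + a) (fresh, repl y.1 i y.2) else 0)) a :=
      (yy_hasDerivAt hg (by linarith [ha.1] : 0 < τ + a) y).comp_const_add τ a
    have h2 := E4c_bar_deriv hg τ a y.1.nl y.1.dg
    have h3 : HasDerivAt φ (E * Real.exp μ) a := by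
      have h4 := (((hasDerivAt_id a).mul_const (Real.exp μ)).const_add 1).const_mul E
      refine h4.congr_deriv ?_
      ring
    exact h1.sub (h2.sub h3)
  · -- supersolution
    intro y hy a ha
    rw [E4c_L_sub]
    have h1 := E4c_bar_L hg τ ha.1.le ha.2.le hy
    have hta : T1 ≤ τ + a := by linarith [ha.1]
    have hta2 : T2 ≤ τ + a := by linarith [ha.1]
    have hexp : ε / 2 * Real.exp (μ * (τ + a)) ≤ E * Real.exp μ := by
      have h2 : Real.exp (μ * (τ + a)) ≤ Real.exp (μ * τ) * Real.exp μ := by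
        rw [← Real.exp_add]
        apply Real.exp_le_exp.2
        have := ha.2
        nlinarith
      rw [hE, mul_assoc]
      exact mul_le_mul_of_nonneg_left h2 (by positivity)
    have hld : (0 : ℝ) ≤ (y.1.nl : ℝ) / y.1.dg ∧ (y.1.nl : ℝ) / y.1.dg ≤ 1 := by
      refine ⟨by positivity, ?_⟩
      have h3 : (0 : ℝ) < y.1.dg := by
        have := two_le_dg hy
        exact_mod_cast (by omega : 0 < y.1.dg)
      rw [div_le_one h3]
      have := nl_add_one_le (x := y)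
      exact_mod_cast (by omega : y.1.nl ≤ y.1.dg)
    have hcr : (if 2 ≤ y.1.nl then (y.1.nl : ℝ) / y.1.dg * (1 / 5 * E4c_K g τ a) else 0) -
        E * Real.exp μ ≤ ∑ i ∈ range y.1.nk,
        (if (kid y.1 i).nk = 0 then y.1.upr * yy g (τ + a) (fresh, repl y.1 i y.2) else 0) := by
      have hfr : ∀ A : RT Unit, A.nk = y.1.nk → ((fresh, A) : RT Unit × RT Unit) ∈ C2 := by
        intro A hA
        refine ⟨by simp, ?_⟩
        show A.nk ≠ 0
        rw [hA]
        exact hy.1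
      by_cases h2 : 2 ≤ y.1.nl
      · simp only [h2, if_true]
        refine le_trans ?_ (creation_ge (u := yy g (τ + a)) hy
          (m := 1 / 5 * E4c_K g τ a - ε / 2 * Real.exp (μ * (τ + a))) ?_)
        · have h3 : (y.1.nl : ℝ) / y.1.dg * (ε / 2 * Real.exp (μ * (τ + a))) ≤
              1 * (E * Real.exp μ) :=
            mul_le_mul hld.2 hexp (by positivity) zero_le_one
          rw [mul_sub]
          linarith
        · intro A hA1 hA2
          rw [E4c_K_eq g (by linarith [ha.1])]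
          apply hnew (τ + a) hta A
          · rw [hA1]
            exact hy.1
          · omega
      · simp only [h2, if_false]
        refine le_trans ?_ (creation_ge (u := yy g (τ + a)) hy
          (m := - (ε / 2 * Real.exp (μ * (τ + a)))) ?_)
        · have h3 : (y.1.nl : ℝ) / y.1.dg * (ε / 2 * Real.exp (μ * (τ + a))) ≤
              1 * (E * Real.exp μ) :=
            mul_le_mul hld.2 hexp (by positivity) zero_le_one
          linarith
        · intro A hA1 _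
          exact hasn (τ + a) hta2 _ (hfr A hA1)
    simp only [hB]
    linarith
  · -- growth
    obtain ⟨C', p, hC⟩ := yy_TGr hg C2 (τ + 1) (by linarith)
    refine ⟨|C'| + (E4c_J g τ 1 + E * (1 + Real.exp μ)), p, fun y hy a ha => ?_⟩
    have h1 := hC y hy (τ + a) ⟨by linarith [ha.1], by linarith [ha.2]⟩
    have h2 := E4c_bar_abs hg τ ha.1 ha.2 y
    have h3 : |φ a| ≤ E * (1 + Real.exp μ) := by
      simp only [hφ]
      have h4 := Real.exp_pos μ
      rw [abs_of_nonneg (by have := ha.1; positivity)]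
      apply mul_le_mul_of_nonneg_left _ hE0.le
      nlinarith [ha.2]
    have h5 := kerT.one_le_V p y
    have h6 : C' * kerT.V p y ≤ |C'| * kerT.V p y :=
      mul_le_mul_of_nonneg_right (le_abs_self _) (by linarith)
    have h7 : 0 ≤ E4c_J g τ 1 + E * (1 + Real.exp μ) := by
      have h8 := E4c_J_nonneg hg τ (a := 1) zero_le_one
      have h9 := Real.exp_pos μ
      positivity
    have h8 : |yy g (τ + a) y - (B a y - φ a)| ≤ |yy g (τ + a) y| + (|B a y| + |φ a|) :=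
      (abs_sub _ _).trans (add_le_add_right (abs_sub _ _) _)
    simp only [hB] at h8 ⊢
    rw [add_mul]
    nlinarith

end RFT
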