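import Pool.Agent.H13.RF.E3

/-! Module E4a: newborns. -/

namespace RFT

open Finset RT

variable {μ c C : ℝ}

/-- positive part of the killed expectation for the fresh half-tree -/
noncomputable def Kp (g : ℕ → ℕ → ℝ) (t : ℝ) : ℝ := max ((kerK Unit).sg t (asum g) fresh) 0

theorem E4a_gr {g : ℕ → ℕ → ℝ} (hg : ∀ l d, |g l d| ≤ 1) : (kerK Unit).Gr (asum g) := by
  refine Ker.Gr.of_lin (kerK Unit) (M := 1) fun B => ?_
  have h1 := abs_asum_le (g := g) (M := 1) (fun l d _ => hg l d) B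
  have h2 : pop B ≤ B.size := pop_le_size B
  have h3 : ((kerK Unit).lev B : ℝ) = B.size := rfl
  rw [h3]
  linarith

theorem Kp_continuousOn {g : ℕ → ℕ → ℝ} (hg : ∀ l d, |g l d| ≤ 1) :
    ContinuousOn (Kp g) (Set.Ici 0) := by
  unfold Kp
  exact ((kerK Unit).continuousOn_sg (E4a_gr hg) fresh).sup continuousOn_const

/-- a newborn whose parent keeps a leaf -/
theorem newborn {g : ℕ → ℕ → ℝ} (hb : Bd μ c C) (hg : ∀ l d, |g l d| ≤ 1)
    (hq : AsNonneg μ g) : ∀ ε : ℝ, 0 < ε → ∃ T : ℝ, 0 ≤ T ∧ ∀ t, T ≤ t → ∀ A : RT Unit, A.nk ≠ 0 →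
      A.nl ≠ 0 → 1 / 5 * Kp g t - ε * Real.exp (μ * t) ≤ yy g t (fresh, A) := by
  intro ε hε
  obtain ⟨T1, hT1, h1⟩ := decouple hb hg hq ε hε
  obtain ⟨T2, hT2, h2⟩ := hq ε hε
  refine ⟨max T1 T2, le_max_of_le_left hT1, fun t ht A hA hl => ?_⟩
  have ht1 : T1 ≤ t := (le_max_left _ _).trans ht
  have ht2 : T2 ≤ t := (le_max_right _ _).trans ht
  have ht0 : 0 ≤ t := hT1.trans ht1
  have hx : ((fresh : RT Unit), A) ∈ C2 := by
    refine ⟨?_, hA⟩
    show (fresh : RT Unit).nk ≠ 0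
    simp
  by_cases hK : 0 ≤ (kerK Unit).sg t (asum g) fresh
  · have h3 := h1 t ht1 A hA
    have h4 := silent_ge ht0 A hA
    have h5 := kap_le (l := A.nl) (by omega)
    have h6 : Kp g t = (kerK Unit).sg t (asum g) fresh := max_eq_left hK
    have h7 : 1 / 5 * (kerK Unit).sg t (asum g) fresh ≤
        (kerK Unit).sg t (asum g) fresh * (kerK Unit).sg t (fun _ => 1) A := by
      rw [mul_comm]
      refine mul_le_mul_of_nonneg_left ?_ hK
      linarith
    rw [h6]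
    linarith
  · have h6 : Kp g t = 0 := max_eq_right (not_le.1 hK).le
    have h3 := h2 t ht2 _ hx
    rw [h6]
    linarith

end RFT
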