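import Pool.Agent.H13.RF.E5a

/-! Module E5b: convergence of the ratios. -/

namespace RFT

open Finset RT

variable {μ c C : ℝ}

theorem E5b_aff {g : ℕ → ℕ → ℝ} {N : ℝ} (hg : ∀ l d, |g l d| ≤ N) (a b : ℝ) {t : ℝ} (ht : 0 ≤ t)
    (x : RT Unit × RT Unit) : yy (fun l d => a * g l d + b) t x = a * yy g t x + b * y1 t x := by
  have h := yy_lin hg (h := fun _ _ => 1) (N := 1) (by simp) a b ht x
  have e : (fun l d => a * g l d + b * 1) = (fun l d => a * g l d + b) := by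
    funext l d
    ring
  rw [e] at h
  exact h

theorem E5b_mono {f : ℕ → ℕ → ℝ} {N : ℝ} (hf : ∀ l d, |f l d| ≤ N) (h : AsNonneg μ f) {b : ℝ}
    (hb : 0 ≤ b) : AsNonneg μ (fun l d => f l d + b) := by
  intro ε hε
  obtain ⟨T, hT, hh⟩ := h ε hε
  refine ⟨T, hT, ?_⟩
  intro t ht x hx
  have h1 := E5b_aff hf 1 b (hT.trans ht) x
  have e : (fun l d => 1 * f l d + b) = (fun l d => f l d + b) := by
    funext l d
    ring
  rw [e] at h1
  rw [h1]
  have h2 := hh t ht x hx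
  have h3 := mul_nonneg hb (y1_nonneg (hT.trans ht) hx)
  linarith

theorem E5b_nonneg {f : ℕ → ℕ → ℝ} (hf : ∀ l d, 0 ≤ f l d) : AsNonneg μ f := by
  intro ε hε
  refine ⟨0, le_refl _, ?_⟩
  intro t ht x hx
  have h1 : 0 ≤ yy f t x := kerP.sg_nonneg closed_C2 (fun y _ => hf _ _) ht hx
  have h2 := Real.exp_pos (μ * t)
  have h3 : 0 ≤ ε * Real.exp (μ * t) := by positivity
  linarith

theorem E5b_fresh_mem : ((fresh, fresh) : RT Unit × RT Unit) ∈ C2 :=
  ⟨by simp, by simp⟩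

theorem E5b_abs {g : ℕ → ℕ → ℝ} (hg0 : ∀ l d, 0 ≤ g l d) (hg1 : ∀ l d, g l d ≤ 1) (l d : ℕ) :
    |g l d| ≤ 1 := abs_le.2 ⟨by linarith [hg0 l d], hg1 l d⟩

theorem E5b_bdd {g : ℕ → ℕ → ℝ} (hb : Bd μ c C) (hg0 : ∀ l d, 0 ≤ g l d)
    (hg1 : ∀ l d, g l d ≤ 1) {M : ℝ} (h : Up μ g M) : 0 ≤ M := by
  by_contra hM
  push Not at hM
  have hc := hb.c_pos
  have hε : 0 < -M * (4 / 25 * c) / 2 := by
    have : 0 < -M := by linarith
    positivity
  obtain ⟨T, hT, hh⟩ := h _ hε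
  have h1 := hh T le_rfl _ E5b_fresh_mem
  have h2 := E5b_aff (E5b_abs hg0 hg1) (-1) M hT ((fresh, fresh) : RT Unit × RT Unit)
  have e : (fun l d => -1 * g l d + M) = (fun l d => M - g l d) := by
    funext l d
    ring
  rw [e] at h2
  rw [h2] at h1
  have h3 : 0 ≤ yy g T (fresh, fresh) :=
    kerP.sg_nonneg closed_C2 (fun y _ => hg0 _ _) hT E5b_fresh_mem
  have h4 := (y1_fresh hb hT (A := fresh) (by simp)).1
  have h5 : M * y1 T (fresh, fresh) ≤ M * (4 / 25 * c * Real.exp (μ * T)) :=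
    mul_le_mul_of_nonpos_left h4 hM.le
  have h6 := Real.exp_pos (μ * T)
  have h7 : 0 < -M * (4 / 25 * c) / 2 * Real.exp (μ * T) := by positivity
  nlinarith

theorem E5b_inf {g : ℕ → ℕ → ℝ} (hb : Bd μ c C) (hg0 : ∀ l d, 0 ≤ g l d)
    (hg1 : ∀ l d, g l d ≤ 1) :
    ∃ M : ℝ, 0 ≤ M ∧ M ≤ 1 ∧ Up μ g M ∧ ∀ M', Up μ g M' → M ≤ M' := by
  have h1 : Up μ g 1 := E5b_nonneg fun l d => by linarith [hg1 l d]
  have hbd : BddBelow {M | Up μ g M} := ⟨0, fun M hM => E5b_bdd hb hg0 hg1 hM⟩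
  have hne : {M | Up μ g M}.Nonempty := ⟨1, h1⟩
  refine ⟨sInf {M | Up μ g M}, ?_, ?_, ?_, ?_⟩
  · exact le_csInf hne fun M hM => E5b_bdd hb hg0 hg1 hM
  · exact csInf_le hbd h1
  · apply Up_closed hb (E5b_abs hg0 hg1)
    intro δ hδ
    obtain ⟨M', hM', hlt⟩ := exists_lt_of_csInf_lt hne (lt_add_of_pos_right _ hδ)
    have h2 : AsNonneg μ (fun l d => M' - g l d) := hM'
    have h3 := E5b_mono (N := |M'| + 1) (fun l d => (abs_sub _ _).trans
      (add_le_add_right (E5b_abs hg0 hg1 l d) _)) h2 (sub_nonneg.2 hlt.le)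
    have e : (fun l d => M' - g l d + (sInf {M | Up μ g M} + δ - M')) =
        (fun l d => sInf {M | Up μ g M} + δ - g l d) := by
      funext l d
      ring
    rw [e] at h3
    exact h3
  · intro M' hM'
    exact csInf_le hbd hM'

theorem E5b_Gr {f : ℕ → ℕ → ℝ} (hf : ∀ l d, |f l d| ≤ 1) : (kerK Unit).Gr (asum f) := by
  refine Ker.Gr.of_lin _ (M := 1) (fun B => ?_)
  have h1 := abs_asum_le (g := f) (M := 1) (fun l d _ => hf l d) B
  have h2 := pop_le_size B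
  have h3 : ((kerK Unit).lev B : ℝ) = B.size := rfl
  rw [h3]
  linarith

/-- the sum of the two killed expectations -/
theorem E5b_sum {f₁ f₂ : ℕ → ℕ → ℝ} {D : ℝ} (hb : Bd μ c C) (h1 : ∀ l d, |f₁ l d| ≤ 1)
    (h2 : ∀ l d, |f₂ l d| ≤ 1) (hD : 0 ≤ D) (hs : ∀ l d, f₁ l d + f₂ l d = D) {t : ℝ}
    (ht : 0 ≤ t) : D * (c * Real.exp (μ * t)) ≤ Kp f₁ t + Kp f₂ t := by
  have h3 : (kerK Unit).sg t (asum f₁) fresh + (kerK Unit).sg t (asum f₂) fresh =
      D * (kerK Unit).sg t pop fresh := by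
    rw [← Ker.sg_add_fun _ (E5b_Gr h1) (E5b_Gr h2) ht, ← Ker.sg_smul]
    congr 1
    funext B
    rw [← asum_add_fun]
    have e : (fun l d => f₁ l d + f₂ l d) = fun _ _ => D * 1 := by
      funext l d
      rw [hs, mul_one]
    rw [e]
    exact asum_smul D (fun _ _ => 1) B
  have h4 := hb.kill t ht
  have h5 : D * (c * Real.exp (μ * t)) ≤ D * (kerK Unit).sg t pop fresh :=
    mul_le_mul_of_nonneg_left h4 hD
  have h6 : (kerK Unit).sg t (asum f₁) fresh ≤ Kp f₁ t := le_max_left _ _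
  have h7 : (kerK Unit).sg t (asum f₂) fresh ≤ Kp f₂ t := le_max_left _ _
  linarith

theorem E5b_int {f : ℕ → ℕ → ℝ} (hf : ∀ l d, |f l d| ≤ 1) {t : ℝ} (ht : 1 ≤ t) :
    IntervalIntegrable (fun s => Kp f (t - 1 + s)) MeasureTheory.volume 0 (1 / 2) := by
  apply ContinuousOn.intervalIntegrable
  apply (Kp_continuousOn hf).comp (Continuous.continuousOn (by fun_prop))
  intro s hs
  rw [Set.uIcc_of_le (by norm_num)] at hs
  have := hs.1
  show (0 : ℝ) ≤ t - 1 + s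
  linarith

theorem E5b_key {f₁ f₂ : ℕ → ℕ → ℝ} {D : ℝ} (hb : Bd μ c C) (h1 : ∀ l d, |f₁ l d| ≤ 1)
    (h2 : ∀ l d, |f₂ l d| ≤ 1) (hD : 0 ≤ D) (hs : ∀ l d, f₁ l d + f₂ l d = D) {t : ℝ}
    (ht : 1 ≤ t) : 2 * (D * c * Real.exp (-μ) / 4 * Real.exp (μ * t)) ≤
      (∫ s in (0 : ℝ)..(1 / 2), Kp f₁ (t - 1 + s)) + ∫ s in (0 : ℝ)..(1 / 2), Kp f₂ (t - 1 + s) := by
  rw [← intervalIntegral.integral_add (E5b_int h1 ht) (E5b_int h2 ht)]
  have h3 : (∫ _ in (0 : ℝ)..(1 / 2), D * (c * Real.exp (μ * (t - 1)))) ≤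
      ∫ s in (0 : ℝ)..(1 / 2), (Kp f₁ (t - 1 + s) + Kp f₂ (t - 1 + s)) := by
    apply intervalIntegral.integral_mono_on (by norm_num)
    · exact intervalIntegrable_const
    · exact (E5b_int h1 ht).add (E5b_int h2 ht)
    · intro s hs'
      have h4 := E5b_sum hb h1 h2 hD hs (t := t - 1 + s) (by linarith [hs'.1])
      refine le_trans ?_ h4
      apply mul_le_mul_of_nonneg_left _ hD
      apply mul_le_mul_of_nonneg_left _ hb.c_pos.le
      apply Real.exp_le_exp.2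
      have h5 := hb.mu_ge
      have h6 := hs'.1
      nlinarith
  refine le_trans ?_ h3
  rw [intervalIntegral.integral_const, smul_eq_mul]
  have h5 : Real.exp (-μ) * Real.exp (μ * t) = Real.exp (μ * (t - 1)) := by
    rw [← Real.exp_add]
    congr 1
    ring
  have h6 : 2 * (D * c * Real.exp (-μ) / 4 * Real.exp (μ * t)) =
    D * c / 2 * (Real.exp (-μ) * Real.exp (μ * t)) := by ring
  rw [h6, h5]
  apply le_of_eq
  ring

/-- **Convergence of ratios.**  `M* = inf {M : Up μ g M}`, `m* = sup {m : Lw μ g m}`.  If `M* > m*` then for every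
`t` one of the two functions `f₁ = M* - g`, `f₂ = g - m*` has `∫ Kp ≥ ((M* - m*)/2) ∫ K pop ≥ κ exp (μt)`, because
`Kp f₁ + Kp f₂ ≥ (M* - m*) (kerK.sg pop fresh)`; so one of them for arbitrarily large `t`, contradicting
`improve`. -/
theorem ratio {g : ℕ → ℕ → ℝ} (hb : Bd μ c C) (hg0 : ∀ l d, 0 ≤ g l d) (hg1 : ∀ l d, g l d ≤ 1) :
    ∃ p : ℝ, 0 ≤ p ∧ p ≤ 1 ∧ ∀ ε : ℝ, 0 < ε → ∃ T : ℝ, 0 ≤ T ∧ ∀ t, T ≤ t → ∀ x ∈ C2,
      |yy g t x - p * y1 t x| ≤ ε * Real.exp (μ * t) := by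
  obtain ⟨M, hM0, hM1, hM, hMm⟩ := E5b_inf hb hg0 hg1
  have hg0' : ∀ l d, 0 ≤ 1 - g l d := fun l d => by linarith [hg1 l d]
  have hg1' : ∀ l d, 1 - g l d ≤ 1 := fun l d => by linarith [hg0 l d]
  obtain ⟨N, hN0, hN1, hN, hNm⟩ := E5b_inf hb (g := fun l d => 1 - g l d) hg0' hg1'
  have hM' : AsNonneg μ (fun l d => M - g l d) := hM
  have hN' : AsNonneg μ (fun l d => N - (1 - g l d)) := hN
  have a1 : ∀ l d, |M - g l d| ≤ 1 := fun l d => abs_le.2
    ⟨by linarith [hg1 l d], by linarith [hg0 l d]⟩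
  have a2 : ∀ l d, |N - (1 - g l d)| ≤ 1 := fun l d => abs_le.2
    ⟨by linarith [hg0 l d], by linarith [hg1 l d]⟩
  have key : M + N ≤ 1 := by
    by_contra hlt
    push Not at hlt
    have hD : 0 < M + N - 1 := by linarith
    have hκ : 0 < (M + N - 1) * c * Real.exp (-μ) / 4 := by
      have := hb.c_pos
      have := Real.exp_pos (-μ)
      positivity
    by_cases hA : ∀ T : ℝ, ∃ t, T ≤ t ∧ 1 ≤ t ∧
      (M + N - 1) * c * Real.exp (-μ) / 4 * Real.exp (μ * t) ≤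
        ∫ s in (0 : ℝ)..(1 / 2), Kp (fun l d => M - g l d) (t - 1 + s)
    · obtain ⟨δ, hδ, h⟩ := improve hb a1 hM' hκ hA
      have e : (fun l d => M - g l d - δ) = fun l d => (M - δ) - g l d := by
        funext l d
        ring
      rw [e] at h
      have := hMm (M - δ) h
      linarith
    · by_cases hB : ∀ T : ℝ, ∃ t, T ≤ t ∧ 1 ≤ t ∧
        (M + N - 1) * c * Real.exp (-μ) / 4 * Real.exp (μ * t) ≤
          ∫ s in (0 : ℝ)..(1 / 2), Kp (fun l d => N - (1 - g l d)) (t - 1 + s)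
      · obtain ⟨δ, hδ, h⟩ := improve hb a2 hN' hκ hB
        have e : (fun l d => N - (1 - g l d) - δ) = fun l d => (N - δ) - (1 - g l d) := by
          funext l d
          ring
        rw [e] at h
        have := hNm (N - δ) h
        linarith
      · push Not at hA hB
        obtain ⟨T₁, hT₁⟩ := hA
        obtain ⟨T₂, hT₂⟩ := hB
        have b1 := hT₁ (max (max T₁ T₂) 1) ((le_max_left _ _).trans (le_max_left _ _))
          (le_max_right _ _)
        have b2 := hT₂ (max (max T₁ T₂) 1) ((le_max_right _ _).trans (le_max_left _ _))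
          (le_max_right _ _)
        have b3 := E5b_key hb a1 a2 hD.le (fun l d => by ring) (le_max_right (max T₁ T₂) 1)
        linarith
  refine ⟨M, hM0, hM1, ?_⟩
  have hL : AsNonneg μ (fun l d => g l d - M) := by
    have h3 := E5b_mono a2 hN' (b := 1 - N - M) (by linarith)
    have e : (fun l d => N - (1 - g l d) + (1 - N - M)) = fun l d => g l d - M := by
      funext l d
      ring
    rw [e] at h3
    exact h3
  intro ε hε
  obtain ⟨T₁, hT₁, h₁⟩ := hM' ε hε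
  obtain ⟨T₂, hT₂, h₂⟩ := hL ε hε
  refine ⟨max T₁ T₂, hT₁.trans (le_max_left _ _), ?_⟩
  intro t ht x hx
  have ht1 : T₁ ≤ t := (le_max_left _ _).trans ht
  have ht2 : T₂ ≤ t := (le_max_right _ _).trans ht
  have c1 := h₁ t ht1 x hx
  have c2 := h₂ t ht2 x hx
  have d1 := E5b_aff (E5b_abs hg0 hg1) (-1) M (hT₁.trans ht1) x
  have e1 : (fun l d => -1 * g l d + M) = (fun l d => M - g l d) := by
    funext l d
    ring
  rw [e1] at d1
  have d2 := E5b_aff (E5b_abs hg0 hg1) 1 (-M) (hT₁.trans ht1) x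
  have e2 : (fun l d => 1 * g l d + -M) = (fun l d => g l d - M) := by
    funext l d
    ring
  rw [e2] at d2
  rw [d1] at c1
  rw [d2] at c2
  rw [abs_le]
  constructor <;> linarith

end RFT
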