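import Pool.Agent.H13.RF.E4

/-! Module E5a: the improvement step. -/

namespace RFT

open Finset RT

variable {μ c C : ℝ}

theorem E5a_gr {g : ℕ → ℕ → ℝ} {M : ℝ} (hg : ∀ l d, |g l d| ≤ M) : kerP.Gr (vf g) :=
  Gr_vf fun l d _ => hg l d

/-- `yy` is linear in the vertex function -/
theorem yy_lin {g h : ℕ → ℕ → ℝ} {M N : ℝ} (hg : ∀ l d, |g l d| ≤ M) (hh : ∀ l d, |h l d| ≤ N)
    (a b : ℝ) {t : ℝ} (ht : 0 ≤ t) (x : RT Unit × RT Unit) :
    yy (fun l d => a * g l d + b * h l d) t x = a * yy g t x + b * yy h t x := by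
  have h1 := kerP.sg_add_fun (Ker.Gr.smul kerP (E5a_gr hg) a) (Ker.Gr.smul kerP (E5a_gr hh) b) ht x
  rw [kerP.sg_smul, kerP.sg_smul] at h1
  exact h1

/-- the constant vertex function one -/
theorem E5a_one : ∀ l d : ℕ, |(fun _ _ => (1 : ℝ)) l d| ≤ 1 := by
  intro l d
  simp

/-- shift of a vertex function by a constant -/
theorem E5a_shift {g : ℕ → ℕ → ℝ} {M : ℝ} (hg : ∀ l d, |g l d| ≤ M) (r : ℝ) {t : ℝ} (ht : 0 ≤ t)
    (x : RT Unit × RT Unit) :
    yy (fun l d => g l d - r) t x = yy g t x - r * y1 t x := by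
  have h1 := yy_lin (h := fun _ _ => (1 : ℝ)) hg E5a_one 1 (-r) ht x
  have h2 : (fun l d => g l d - r) = fun l d : ℕ => 1 * g l d + (-r) * (1 : ℝ) := by
    funext l d
    ring
  rw [h2, h1]
  unfold y1
  ring

theorem E5a_shift' {g : ℕ → ℕ → ℝ} {M : ℝ} (hg : ∀ l d, |g l d| ≤ M) (r : ℝ) {t : ℝ} (ht : 0 ≤ t)
    (x : RT Unit × RT Unit) :
    yy (fun l d => r - g l d) t x = r * y1 t x - yy g t x := by
  have h1 := yy_lin (h := fun _ _ => (1 : ℝ)) hg E5a_one (-1) r ht x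
  have h2 : (fun l d => r - g l d) = fun l d : ℕ => (-1) * g l d + r * (1 : ℝ) := by
    funext l d
    ring
  rw [h2, h1]
  unfold y1
  ring

/-- The set of upper ratios. -/
def Up (μ : ℝ) (g : ℕ → ℕ → ℝ) (M : ℝ) : Prop := AsNonneg μ (fun l d => M - g l d)

/-- the set of lower ratios -/
def Lw (μ : ℝ) (g : ℕ → ℕ → ℝ) (m : ℝ) : Prop := AsNonneg μ (fun l d => g l d - m)

theorem E5a_K_pos (hb : Bd μ c C) : 0 < 1 + C / μ := by
  have h1 := hb.C_pos
  have h2 := hb.mu_ge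
  have h3 : 0 < μ := by linarith
  positivity

/-- closedness: if `M + δ` is an upper ratio for all `δ > 0` then `M` is one (`y1_hi`) -/
theorem Up_closed {g : ℕ → ℕ → ℝ} (hb : Bd μ c C) (hg : ∀ l d, |g l d| ≤ 1) {M : ℝ}
    (h : ∀ δ : ℝ, 0 < δ → Up μ g (M + δ)) : Up μ g M := by
  intro ε hε
  have hK := E5a_K_pos hb
  set K := 1 + C / μ with hKdef
  obtain ⟨T, hT, hT'⟩ := h (ε / (2 * K)) (by positivity) (ε / 2) (by positivity)
  refine ⟨T, hT, fun t ht x hx => ?_⟩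
  have ht0 : 0 ≤ t := hT.trans ht
  have h1 := hT' t ht x hx
  have h2 := y1_hi hb ht0 hx
  rw [E5a_shift' hg _ ht0] at h1 ⊢
  have h3 : ε / (2 * K) * y1 t x ≤ ε / (2 * K) * (K * Real.exp (μ * t)) :=
    mul_le_mul_of_nonneg_left h2 (by positivity)
  have h4 : ε / (2 * K) * (K * Real.exp (μ * t)) = ε / 2 * Real.exp (μ * t) := by
    field_simp
  rw [add_mul] at h1
  linarith

/-- The improvement step.  Suppose `f` with `|f| ≤ 1` is asymptotically nonnegative and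
`∫₀^{1/2} Kp f (t-1+s) ds ≥ κ exp (μ t)` for arbitrarily large `t` (a fixed `κ > 0`).  Then
`f - δ` is asymptotically nonnegative for some `δ > 0`: at such a time `t`,
`yy (δ - f) t x ≤ exp(μt) (-(κ/50) th x + ε + δ C')`; applying `sg s` and `yy_th_ge`,
`yy (δ - f) (t+s) x ≤ exp(μt) (κ/50)(4/25)` for all `s ≥ 0` if `ε + δ C' ≤ (κ/50)(4/25)`. -/
theorem improve {f : ℕ → ℕ → ℝ} (hb : Bd μ c C) (hf : ∀ l d, |f l d| ≤ 1) (hq : AsNonneg μ f)
    {κ : ℝ} (hκ : 0 < κ)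
    (hK : ∀ T : ℝ, ∃ t, T ≤ t ∧ 1 ≤ t ∧
      κ * Real.exp (μ * t) ≤ ∫ s in (0 : ℝ)..(1 / 2), Kp f (t - 1 + s)) :
    ∃ δ : ℝ, 0 < δ ∧ AsNonneg μ (fun l d => f l d - δ) := by
  have hKp := E5a_K_pos hb
  have hμ : 0 < μ := by have := hb.mu_ge; linarith
  set K := 1 + C / μ with hKdef
  set η : ℝ := κ / 50 * (4 / 25) with hη
  have hη0 : 0 < η := by positivity
  obtain ⟨T, hT1, hT⟩ := doeblin hb hf hq (η / 2) (by positivity)
  obtain ⟨t, htT, ht1, hint⟩ := hK T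
  have ht0 : 0 ≤ t := by linarith
  set δ : ℝ := η / (2 * K) with hδ
  have hδ0 : 0 < δ := by positivity
  set E : ℝ := Real.exp (μ * t) with hE
  have hE0 : 0 < E := Real.exp_pos _
  -- the lower bound at time `t`
  have hlow : ∀ y ∈ C2, E * (κ / 50) * (vf th y + (-(4 / 25)) * vf (fun _ _ => (1 : ℝ)) y) ≤
      yy (fun l d => f l d - δ) t y := by
    intro y hy
    have h1 := hT t htT y hy
    have h2 := y1_hi hb ht0 hy
    have h3 := (abs_vf_th y).1
    rw [E5a_shift hf _ ht0]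
    have h4 : 1 / 50 * vf th y * (κ * E) ≤
        1 / 50 * vf th y * ∫ s in (0 : ℝ)..(1 / 2), Kp f (t - 1 + s) :=
      mul_le_mul_of_nonneg_left hint (by positivity)
    have h5 : δ * y1 t y ≤ δ * (K * E) := mul_le_mul_of_nonneg_left h2 hδ0.le
    have h6 : δ * (K * E) = η / 2 * E := by
      rw [hδ]
      field_simp
    have h7 : E * (κ / 50) * (vf th y + (-(4 / 25)) * vf (fun _ _ => (1 : ℝ)) y) =
        1 / 50 * vf th y * (κ * E) - η * E := by
      show E * (κ / 50) * (vf th y + (-(4 / 25)) * (1 : ℝ)) = _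
      rw [hη]
      ring
    rw [h7]
    linarith
  have hgth : kerP.Gr (vf th) := Ker.Gr.of_bdd kerP (M := 1) fun y => by
    rw [abs_of_nonneg (abs_vf_th y).1]
    exact (abs_vf_th y).2
  have hg1 : kerP.Gr (vf (fun _ _ => (1 : ℝ))) := E5a_gr E5a_one
  have hfδ : ∀ l d, |f l d - δ| ≤ 1 + |δ| := fun l d =>
    (abs_sub _ _).trans (by linarith [hf l d])
  have hgf : kerP.Gr (vf (fun l d => f l d - δ)) := E5a_gr hfδ
  have hgG : kerP.Gr (fun y => vf th y + (-(4 / 25)) * vf (fun _ _ => (1 : ℝ)) y) :=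
    Ker.Gr.add kerP hgth (Ker.Gr.smul kerP hg1 _)
  -- afterwards
  have hafter : ∀ s, 0 ≤ s → ∀ x ∈ C2, -(η * E) ≤ yy (fun l d => f l d - δ) (s + t) x := by
    intro s hs x hx
    have h1 : yy (fun l d => f l d - δ) (s + t) x =
        kerP.sg s (fun y => yy (fun l d => f l d - δ) t y) x := by
      unfold yy
      exact kerP.sg_add hgf hs ht0 x
    rw [h1]
    have h2 := kerP.sg_mono closed_C2 (Ker.Gr.smul kerP hgG (E * (κ / 50)))
      (Ker.Gr.sg kerP hgf ht0) hlow hs hx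
    refine le_trans ?_ h2
    rw [kerP.sg_smul, kerP.sg_add_fun hgth (Ker.Gr.smul kerP hg1 _) hs, kerP.sg_smul]
    have h3 := yy_th_ge hs hx
    have h4 := (abs_vf_th x).1
    have h5 : kerP.sg s (vf (fun _ _ => (1 : ℝ))) x = y1 s x := rfl
    rw [h5]
    have h6 : -(4 / 25 : ℝ) ≤ kerP.sg s (vf th) x + -(4 / 25) * y1 s x := by linarith
    have h7 := mul_le_mul_of_nonneg_left h6 (by positivity : 0 ≤ E * (κ / 50))
    refine le_trans (le_of_eq ?_) h7
    rw [hη]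
    ring
  refine ⟨δ, hδ0, ?_⟩
  intro ε hε
  refine ⟨max t (Real.log (η * E / ε) / μ), ht0.trans (le_max_left _ _), fun u hu x hx => ?_⟩
  have hu1 : t ≤ u := (le_max_left _ _).trans hu
  have hu2 : Real.log (η * E / ε) / μ ≤ u := (le_max_right _ _).trans hu
  have h1 := hafter (u - t) (by linarith) x hx
  rw [sub_add_cancel] at h1
  refine le_trans ?_ h1
  have h2 : Real.log (η * E / ε) ≤ μ * u := by
    rw [div_le_iff₀ hμ] at hu2
    linarith
  have h3 : η * E / ε ≤ Real.exp (μ * u) := by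
    rw [← Real.log_le_iff_le_exp (by positivity)]
    exact h2
  rw [div_le_iff₀ hε] at h3
  linarith

end RFT
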