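import Pool.Agent.H13.RF.E5

/-! Module F1: abstract bounds for the limit ratio by resolvent sub- and supersolutions. -/

namespace RFT

open Finset RT

variable {μ c C : ℝ}

/-- `p` is the ratio of `g`. -/
def IsRatio (μ : ℝ) (g : ℕ → ℕ → ℝ) (p : ℝ) : Prop :=
  ∀ ε : ℝ, 0 < ε → ∃ T : ℝ, 0 ≤ T ∧ ∀ t, T ≤ t → ∀ x ∈ C2,
      |yy g t x - p * y1 t x| ≤ ε * Real.exp (μ * t)

/-- a function bounded below cannot decrease at a fixed rate for ever -/
theorem F1_decay {v v' : ℝ → ℝ} {T κ m : ℝ} (hκ : 0 < κ)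
    (hd : ∀ t, T < t → HasDerivAt v (v' t) t) (hv : ∀ t, T < t → v' t ≤ -κ)
    (hm : ∀ t, T < t → m ≤ v t) : False := by
  have h1 : AntitoneOn (fun t => v t + κ * t) (Set.Ioi T) := by
    apply antitoneOn_of_deriv_nonpos (convex_Ioi T)
    · intro t ht
      exact ((hd t ht).add ((hasDerivAt_id t).const_mul κ)).continuousAt.continuousWithinAt
    · intro t ht
      rw [interior_Ioi] at ht
      exact ((hd t ht).add ((hasDerivAt_id t).const_mul κ)).differentiableAt.differentiableWithinAt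
    · intro t ht
      rw [interior_Ioi] at ht
      have h2 := ((hd t ht).add ((hasDerivAt_id t).const_mul κ)).deriv
      have h3 : deriv (fun t => v t + κ * t) t = v' t + κ * 1 := h2
      rw [h3]
      have := hv t ht
      linarith
  set s : ℝ := T + 1 with hs
  set t : ℝ := s + (v s - m + 1) / κ with htd
  have h2 : 0 ≤ (v s - m + 1) / κ := by
    have := hm s (by rw [hs]; linarith)
    apply div_nonneg _ hκ.le
    linarith
  have hst : s ≤ t := by rw [htd]; linarith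
  have hsT : T < s := by rw [hs]; linarith
  have h3 := h1 (Set.mem_Ioi.2 hsT) (Set.mem_Ioi.2 (hsT.trans_le hst)) hst
  have h4 : κ * t = κ * s + (v s - m + 1) := by
    rw [htd, mul_add, mul_div_cancel₀ _ hκ.ne']
  have h5 := hm t (hsT.trans_le hst)
  simp only at h3
  linarith

theorem F1_mem : ((fresh, fresh) : RT Unit × RT Unit) ∈ C2 := by
  refine ⟨?_, ?_⟩ <;> simp

theorem F1_y1_lo (hb : Bd μ c C) {t : ℝ} (ht : 0 ≤ t) :
    4 / 25 * c * Real.exp (μ * t) ≤ y1 t (fresh, fresh) :=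
  (y1_fresh hb ht (A := fresh) (by simp)).1

theorem F1_expd (μ t : ℝ) : HasDerivAt (fun s : ℝ => Real.exp (-(μ * s)))
    (-μ * Real.exp (-(μ * t))) t := by
  have h1 : HasDerivAt (fun s : ℝ => -(μ * s)) (-μ) t := by
    have h0 := (hasDerivAt_id t).const_mul (-μ)
    refine (h0.congr_of_eventuallyEq ?_).congr_deriv (by ring)
    filter_upwards with s
    simp
  have h2 := h1.exp
  refine h2.congr_deriv ?_
  ring

theorem F1_exp_mul (μ t : ℝ) : Real.exp (-(μ * t)) * Real.exp (μ * t) = 1 := by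
  rw [← Real.exp_add]
  simp

theorem F1_one_Gr : kerP.Gr (vf (fun _ _ => (1 : ℝ))) :=
  Gr_vf (M := 1) (fun _ _ _ => by simp)

/-- Upper bound.  `v t = exp(-μt) (kerP.sg t (vf j) x)` at `x = (fresh, fresh)` is nonnegative and
`v' ≤ exp(-μt) (- yy g t x + j 1 2 * y1 t x)`, because `l/d ≤ 1`.  If `p > j 1 2`, then
`v' ≤ -κ + ε` eventually: contradiction. -/
theorem ratio_le (hb : Bd μ c C) {g j : ℕ → ℕ → ℝ} {p M N : ℝ} (hg : ∀ l d, |g l d| ≤ M)
    (hj0 : ∀ l d, l + 1 ≤ d → 0 ≤ j l d) (hj1 : ∀ l d, l + 1 ≤ d → j l d ≤ N) (hp : IsRatio μ g p)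
    (hj : ∀ x ∈ C2, kerP.L (vf j) x ≤ μ * vf j x - vf g x +
      (x.1.nl : ℝ) / x.1.dg * j 1 2) : p ≤ j 1 2 := by
  by_contra hlt
  push Not at hlt
  set x0 : RT Unit × RT Unit := (fresh, fresh) with hx0
  have hx0m : x0 ∈ C2 := F1_mem
  have hj12 : 0 ≤ j 1 2 := hj0 1 2 (by norm_num)
  have hGj : kerP.Gr (vf j) := Gr_vf (M := N) (fun l d h => by
    rw [abs_of_nonneg (hj0 l d h)]; exact hj1 l d h)
  have hGg : kerP.Gr (vf g) := Gr_vf (M := M) (fun l d _ => hg l d)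
  set κ : ℝ := (p - j 1 2) * (4 / 25 * c) with hκd
  have hκ : 0 < κ := by
    have := hb.c_pos
    have h1 : 0 < p - j 1 2 := by linarith
    positivity
  obtain ⟨T, hT0, hT⟩ := hp (κ / 2) (by linarith)
  refine F1_decay (v := fun t => Real.exp (-(μ * t)) * kerP.sg t (vf j) x0)
    (v' := fun t => -μ * Real.exp (-(μ * t)) * kerP.sg t (vf j) x0 +
      Real.exp (-(μ * t)) * kerP.sg t (kerP.L (vf j)) x0) (T := T) (κ := κ / 2) (m := 0)
    (by linarith) ?_ ?_ ?_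
  · intro t ht
    exact (F1_expd μ t).mul (kerP.hasDerivAt_sg' hGj x0 (hT0.trans_lt ht))
  · intro t ht
    have ht0 : 0 ≤ t := hT0.trans ht.le
    have h1 : kerP.sg t (kerP.L (vf j)) x0 - μ * kerP.sg t (vf j) x0 ≤
        j 1 2 * y1 t x0 - yy g t x0 := by
      have e1 : kerP.sg t (kerP.L (vf j)) x0 - μ * kerP.sg t (vf j) x0 =
          kerP.sg t (fun y => kerP.L (vf j) y - μ * vf j y) x0 := by
        rw [kerP.sg_sub_fun (Ker.Gr.L kerP hGj) (Ker.Gr.smul kerP hGj μ) ht0, kerP.sg_smul]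
      have e2 : j 1 2 * y1 t x0 - yy g t x0 =
          kerP.sg t (fun y => j 1 2 * vf (fun _ _ => (1 : ℝ)) y - vf g y) x0 := by
        rw [kerP.sg_sub_fun (Ker.Gr.smul kerP F1_one_Gr (j 1 2)) hGg ht0, kerP.sg_smul]
        rfl
      rw [e1, e2]
      refine kerP.sg_mono closed_C2 (Ker.Gr.sub kerP (Ker.Gr.L kerP hGj) (Ker.Gr.smul kerP hGj μ))
        (Ker.Gr.sub kerP (Ker.Gr.smul kerP F1_one_Gr (j 1 2)) hGg) ?_ ht0 hx0m
      intro y hy
      have h2 := hj y hy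
      have h3 : (y.1.nl : ℝ) / y.1.dg ≤ 1 := by
        have h4 : y.1.nl + 1 ≤ y.1.dg := nl_add_one_le
        have h5 : (y.1.nl : ℝ) + 1 ≤ y.1.dg := by exact_mod_cast h4
        have h6 : (0 : ℝ) ≤ y.1.nl := Nat.cast_nonneg _
        rw [div_le_one (by linarith)]
        linarith
      have h7 : (y.1.nl : ℝ) / y.1.dg * j 1 2 ≤ 1 * j 1 2 := mul_le_mul_of_nonneg_right h3 hj12
      show kerP.L (vf j) y - μ * vf j y ≤ j 1 2 * 1 - vf g y
      linarith
    have h2 := (abs_le.1 (hT t ht.le x0 hx0m)).1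
    have h3 := F1_y1_lo hb ht0
    have h4 : (p - j 1 2) * (4 / 25 * c * Real.exp (μ * t)) ≤ (p - j 1 2) * y1 t x0 :=
      mul_le_mul_of_nonneg_left h3 (by linarith)
    have h5 : kerP.sg t (kerP.L (vf j)) x0 - μ * kerP.sg t (vf j) x0 ≤
        -(κ / 2) * Real.exp (μ * t) := by
      have e3 : (p - j 1 2) * (4 / 25 * c * Real.exp (μ * t)) = κ * Real.exp (μ * t) := by
        rw [hκd]; ring
      rw [e3] at h4
      linarith
    have h6 := mul_le_mul_of_nonneg_left h5 (Real.exp_pos (-(μ * t))).le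
    have e4 : Real.exp (-(μ * t)) * (-(κ / 2) * Real.exp (μ * t)) = -(κ / 2) := by
      have := F1_exp_mul μ t
      linear_combination (-(κ / 2)) * this
    rw [e4] at h6
    linarith
  · intro t ht
    have ht0 : 0 ≤ t := hT0.trans ht.le
    refine mul_nonneg (Real.exp_pos _).le (kerP.sg_nonneg closed_C2 ?_ ht0 hx0m)
    intro y _
    exact hj0 _ _ nl_add_one_le

/-- the generator on the constant one -/
theorem F1_L_one {x : RT Unit × RT Unit} (hx : x ∈ C2) :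
    kerP.L (vf (fun _ _ => (1 : ℝ))) x = (x.1.nl : ℝ) / x.1.dg := by
  have h1 : Env.rt.pairP (fun _ => 1) x = ((x.1.size + x.2.size : ℕ) : ℝ) :=
    Env.ker_one Env.rt Unit x
  have h2 := creation_ge (u := fun _ => (1 : ℝ)) hx (m := 1) (fun _ _ _ => le_rfl)
  have h3 := creation_le (u := fun _ => (1 : ℝ)) hx (m := 1) (fun _ _ _ => le_rfl)
  have h4 : kerP.L (vf (fun _ _ => (1 : ℝ))) x = Env.rt.pairP (fun _ => 1) x +
      (∑ i ∈ range x.1.nk, (if (kid x.1 i).nk = 0 then x.1.upr * 1 else 0)) -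
      ((x.1.size + x.2.size : ℕ) : ℝ) * 1 := rfl
  rw [h4, h1]
  linarith

/-- Lower bound.  `v t = exp(-μt) (kerP.sg t (vf i) x - i 1 2 * y1 t x)` is bounded above by `N (1 + C/μ)`,
and, since `y1' = sg (l/d)`, `v' ≥ exp(-μt) (μ i 1 2 * y1 t x - yy g t x)`.  If `μ i 1 2 > p`, then `v' ≥ κ - ε`
eventually: contradiction. -/
theorem le_ratio (hb : Bd μ c C) {g i : ℕ → ℕ → ℝ} {p M N : ℝ} (hg : ∀ l d, |g l d| ≤ M)
    (hi0 : ∀ l d, l + 1 ≤ d → 0 ≤ i l d) (hi1 : ∀ l d, l + 1 ≤ d → i l d ≤ N) (hp : IsRatio μ g p)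
    (hi : ∀ x ∈ C2, μ * vf i x - vf g x + (x.1.nl : ℝ) / x.1.dg * i 1 2 ≤
      kerP.L (vf i) x) : μ * i 1 2 ≤ p := by
  by_contra hlt
  push Not at hlt
  set x0 : RT Unit × RT Unit := (fresh, fresh) with hx0
  have hx0m : x0 ∈ C2 := F1_mem
  have hi12 : 0 ≤ i 1 2 := hi0 1 2 (by norm_num)
  have hGi : kerP.Gr (vf i) := Gr_vf (M := N) (fun l d h => by
    rw [abs_of_nonneg (hi0 l d h)]; exact hi1 l d h)
  have hGg : kerP.Gr (vf g) := Gr_vf (M := M) (fun l d _ => hg l d)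
  have hG1 := F1_one_Gr
  set κ : ℝ := (μ * i 1 2 - p) * (4 / 25 * c) with hκd
  have hκ : 0 < κ := by
    have := hb.c_pos
    have h1 : 0 < μ * i 1 2 - p := by linarith
    positivity
  obtain ⟨T, hT0, hT⟩ := hp (κ / 2) (by linarith)
  refine F1_decay
    (v := fun t => -(Real.exp (-(μ * t)) * (kerP.sg t (vf i) x0 - i 1 2 * y1 t x0)))
    (v' := fun t => -(-μ * Real.exp (-(μ * t)) * (kerP.sg t (vf i) x0 - i 1 2 * y1 t x0) +
      Real.exp (-(μ * t)) * (kerP.sg t (kerP.L (vf i)) x0 -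
        i 1 2 * kerP.sg t (kerP.L (vf (fun _ _ => (1 : ℝ)))) x0))) (T := T) (κ := κ / 2)
    (m := -(N * (1 + C / μ)))
    (by linarith) ?_ ?_ ?_
  · intro t ht
    have ht0 : 0 < t := hT0.trans_lt ht
    exact ((F1_expd μ t).mul ((kerP.hasDerivAt_sg' hGi x0 ht0).sub
      ((kerP.hasDerivAt_sg' hG1 x0 ht0).const_mul (i 1 2)))).neg
  · intro t ht
    have ht0 : 0 ≤ t := hT0.trans ht.le
    have h1 : -yy g t x0 ≤ kerP.sg t (kerP.L (vf i)) x0 - μ * kerP.sg t (vf i) x0 -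
        i 1 2 * kerP.sg t (kerP.L (vf (fun _ _ => (1 : ℝ)))) x0 := by
      have e1 : kerP.sg t (kerP.L (vf i)) x0 - μ * kerP.sg t (vf i) x0 -
          i 1 2 * kerP.sg t (kerP.L (vf (fun _ _ => (1 : ℝ)))) x0 =
          kerP.sg t (fun y => kerP.L (vf i) y - μ * vf i y -
            i 1 2 * kerP.L (vf (fun _ _ => (1 : ℝ))) y) x0 := by
        rw [kerP.sg_sub_fun (Ker.Gr.sub kerP (Ker.Gr.L kerP hGi) (Ker.Gr.smul kerP hGi μ))
          (Ker.Gr.smul kerP (Ker.Gr.L kerP hG1) (i 1 2)) ht0,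
          kerP.sg_sub_fun (Ker.Gr.L kerP hGi) (Ker.Gr.smul kerP hGi μ) ht0, kerP.sg_smul,
          kerP.sg_smul]
      have e2 : -yy g t x0 = kerP.sg t (fun y => (-1) * vf g y) x0 := by
        rw [kerP.sg_smul]
        show -(kerP.sg t (vf g) x0) = _
        ring
      rw [e1, e2]
      refine kerP.sg_mono closed_C2 (Ker.Gr.smul kerP hGg (-1))
        (Ker.Gr.sub kerP (Ker.Gr.sub kerP (Ker.Gr.L kerP hGi) (Ker.Gr.smul kerP hGi μ))
          (Ker.Gr.smul kerP (Ker.Gr.L kerP hG1) (i 1 2))) ?_ ht0 hx0m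
      intro y hy
      have h2 := hi y hy
      show (-1) * vf g y ≤ kerP.L (vf i) y - μ * vf i y -
        i 1 2 * kerP.L (vf (fun _ _ => (1 : ℝ))) y
      rw [F1_L_one hy]
      linarith
    have h2 := (abs_le.1 (hT t ht.le x0 hx0m)).2
    have h3 := F1_y1_lo hb ht0
    have h4 : (μ * i 1 2 - p) * (4 / 25 * c * Real.exp (μ * t)) ≤ (μ * i 1 2 - p) * y1 t x0 :=
      mul_le_mul_of_nonneg_left h3 (by linarith)
    have h5 : κ / 2 * Real.exp (μ * t) ≤ -μ * (kerP.sg t (vf i) x0 - i 1 2 * y1 t x0) +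
        (kerP.sg t (kerP.L (vf i)) x0 -
          i 1 2 * kerP.sg t (kerP.L (vf (fun _ _ => (1 : ℝ)))) x0) := by
      have e3 : (μ * i 1 2 - p) * (4 / 25 * c * Real.exp (μ * t)) = κ * Real.exp (μ * t) := by
        rw [hκd]; ring
      rw [e3] at h4
      linarith
    have h6 := mul_le_mul_of_nonneg_left h5 (Real.exp_pos (-(μ * t))).le
    have e4 : Real.exp (-(μ * t)) * (κ / 2 * Real.exp (μ * t)) = κ / 2 := by
      have := F1_exp_mul μ t
      linear_combination (κ / 2) * this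
    rw [e4] at h6
    linarith
  · intro t ht
    have ht0 : 0 ≤ t := hT0.trans ht.le
    have hN : 0 ≤ N := hi12.trans (hi1 1 2 (by norm_num))
    have h1 : kerP.sg t (vf i) x0 ≤ N * y1 t x0 := by
      have e1 : N * y1 t x0 = kerP.sg t (fun y => N * vf (fun _ _ => (1 : ℝ)) y) x0 := by
        rw [kerP.sg_smul]; rfl
      rw [e1]
      refine kerP.sg_mono closed_C2 hGi (Ker.Gr.smul kerP hG1 N) ?_ ht0 hx0m
      intro y _
      show i y.1.nl y.1.dg ≤ N * 1
      have := hi1 _ _ (nl_add_one_le (x := y))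
      linarith
    have h2 := y1_hi hb ht0 hx0m
    have h3 : 0 ≤ y1 t x0 := y1_nonneg ht0 hx0m
    have h4 : kerP.sg t (vf i) x0 - i 1 2 * y1 t x0 ≤ N * ((1 + C / μ) * Real.exp (μ * t)) := by
      have h5 : 0 ≤ i 1 2 * y1 t x0 := mul_nonneg hi12 h3
      have h6 := mul_le_mul_of_nonneg_left h2 hN
      linarith
    have h6 := mul_le_mul_of_nonneg_left h4 (Real.exp_pos (-(μ * t))).le
    have e4 : Real.exp (-(μ * t)) * (N * ((1 + C / μ) * Real.exp (μ * t))) = N * (1 + C / μ) := by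
      have := F1_exp_mul μ t
      linear_combination (N * (1 + C / μ)) * this
    rw [e4] at h6
    linarith

/-- ratios are unique -/
theorem IsRatio.unique (hb : Bd μ c C) {g : ℕ → ℕ → ℝ} {p q : ℝ} (hp : IsRatio μ g p)
    (hq : IsRatio μ g q) : p = q := by
  by_contra hne
  have h0 : 0 < |p - q| := abs_pos.2 (sub_ne_zero.2 hne)
  have hc := hb.c_pos
  set ε : ℝ := |p - q| * (4 / 25 * c) / 4 with hε
  have hε0 : 0 < ε := by positivity
  obtain ⟨T1, hT1, h1⟩ := hp ε hε0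
  obtain ⟨T2, hT2, h2⟩ := hq ε hε0
  set t := max T1 T2 with ht
  have ht0 : 0 ≤ t := hT1.trans (le_max_left _ _)
  have h3 := h1 t (le_max_left _ _) _ F1_mem
  have h4 := h2 t (le_max_right _ _) _ F1_mem
  have h5 := F1_y1_lo hb ht0
  have h6 : |(p - q) * y1 t (fresh, fresh)| ≤ 2 * ε * Real.exp (μ * t) := by
    have e1 : (p - q) * y1 t (fresh, fresh) = (yy g t (fresh, fresh) - q * y1 t (fresh, fresh)) -
        (yy g t (fresh, fresh) - p * y1 t (fresh, fresh)) := by ring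
    rw [e1]
    refine (abs_sub _ _).trans ?_
    linarith
  have hy : 0 ≤ y1 t (fresh, fresh) := y1_nonneg ht0 F1_mem
  rw [abs_mul, abs_of_nonneg hy] at h6
  have h7 := mul_le_mul_of_nonneg_left h5 h0.le
  have h8 : 0 < Real.exp (μ * t) := Real.exp_pos _
  have h9 : |p - q| * (4 / 25 * c * Real.exp (μ * t)) = 4 * ε * Real.exp (μ * t) := by
    rw [hε]; ring
  rw [h9] at h7
  nlinarith [mul_pos hε0 h8]

theorem IsRatio.one : IsRatio μ (fun _ _ => 1) 1 := by
  intro ε hε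
  refine ⟨0, le_rfl, fun t _ x _ => ?_⟩
  have e1 : yy (fun _ _ => 1) t x - 1 * y1 t x = 0 := by
    unfold y1
    ring
  rw [e1, abs_zero]
  positivity

theorem IsRatio.sub {g h : ℕ → ℕ → ℝ} {M N : ℝ} (hg : ∀ l d, |g l d| ≤ M) (hh : ∀ l d, |h l d| ≤ N)
    {p q : ℝ} (hp : IsRatio μ g p) (hq : IsRatio μ h q) :
    IsRatio μ (fun l d => g l d - h l d) (p - q) := by
  intro ε hε
  obtain ⟨T1, hT1, h1⟩ := hp (ε / 2) (by linarith)
  obtain ⟨T2, hT2, h2⟩ := hq (ε / 2) (by linarith)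
  refine ⟨max T1 T2, hT1.trans (le_max_left _ _), fun t ht x hx => ?_⟩
  have ht1 : T1 ≤ t := (le_max_left _ _).trans ht
  have ht2 : T2 ≤ t := (le_max_right _ _).trans ht
  have ht0 : 0 ≤ t := hT1.trans ht1
  have e1 : yy (fun l d => g l d - h l d) t x = yy g t x - yy h t x := by
    have h3 := yy_lin hg hh 1 (-1) ht0 x
    have e2 : (fun l d => 1 * g l d + -1 * h l d) = fun l d => g l d - h l d := by
      funext l d
      ring
    rw [e2] at h3
    rw [h3]
    ring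
  have h3 := h1 t ht1 x hx
  have h4 := h2 t ht2 x hx
  have e3 : yy (fun l d => g l d - h l d) t x - (p - q) * y1 t x =
      (yy g t x - p * y1 t x) - (yy h t x - q * y1 t x) := by
    rw [e1]; ring
  rw [e3]
  refine (abs_sub _ _).trans ?_
  linarith

end RFT
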