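import Pool.Agent.H13.RF.F2a

/-! Module F2b: the upper weight for p_k. -/

namespace RFT

open Finset RT

variable {μ c C : ℝ}

/-- the upper weight, zero for `d > k`; `d - 1 - l` is the number of births so far -/
noncomputable def jw (μ : ℝ) (k l d : ℕ) : ℝ :=
  if k < d then 0 else 4 / (k : ℝ) * aw μ k d +
    (k : ℝ) / μ * (2 : ℝ) ^ (1 - 3 / 4 * (k : ℝ)) * ((2 : ℝ) ^ (d - 1 - l) / ((d : ℝ) - 1))

private lemma dm1_nonneg {l d : ℕ} (hl : l + 1 ≤ d) : (0 : ℝ) ≤ (d : ℝ) - 1 := by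
  have : (1 : ℝ) ≤ d := by exact_mod_cast (by omega : 1 ≤ d)
  linarith

theorem jw_nonneg (h0 : 0 < μ) {k l d : ℕ} (hl : l + 1 ≤ d) : 0 ≤ jw μ k l d := by
  unfold jw
  have h1 := dm1_nonneg hl
  have h2 := aw_nonneg h0.le k d
  split_ifs
  · exact le_rfl
  · positivity

/-- bounded for fixed `k` -/
theorem jw_le (h0 : 0 < μ) (k : ℕ) : ∃ N : ℝ, ∀ l d, l + 1 ≤ d → jw μ k l d ≤ N := by
  refine ⟨4 / (k : ℝ) + (k : ℝ) / μ * (2 : ℝ) ^ (1 - 3 / 4 * (k : ℝ)) * 2 ^ k, fun l d hl => ?_⟩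
  unfold jw
  split_ifs with h
  · positivity
  · have h2 := aw_nonneg h0.le k d
    have h3 : 4 / (k : ℝ) * aw μ k d ≤ 4 / (k : ℝ) := by
      calc 4 / (k : ℝ) * aw μ k d ≤ 4 / (k : ℝ) * 1 :=
            mul_le_mul_of_nonneg_left (aw_le_one h0.le k d) (by positivity)
        _ = _ := mul_one _
    have h4 : (2 : ℝ) ^ (d - 1 - l) / ((d : ℝ) - 1) ≤ 2 ^ k := by
      have h5 : (2 : ℝ) ^ (d - 1 - l) ≤ 2 ^ k :=
        pow_le_pow_right₀ (by norm_num) (by omega)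
      rcases Nat.lt_or_ge d 2 with h6 | h6
      · have h7 : d = 1 := by omega
        rw [h7]
        simp
      · have h8 : (1 : ℝ) ≤ (d : ℝ) - 1 := by
          have : (2 : ℝ) ≤ d := by exact_mod_cast h6
          linarith
        calc (2 : ℝ) ^ (d - 1 - l) / ((d : ℝ) - 1) ≤ (2 : ℝ) ^ (d - 1 - l) :=
              div_le_self (by positivity) h8
          _ ≤ _ := h5
    have h5 : (k : ℝ) / μ * (2 : ℝ) ^ (1 - 3 / 4 * (k : ℝ)) * ((2 : ℝ) ^ (d - 1 - l) / ((d : ℝ) - 1)) ≤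
        (k : ℝ) / μ * (2 : ℝ) ^ (1 - 3 / 4 * (k : ℝ)) * 2 ^ k :=
      mul_le_mul_of_nonneg_left h4 (by positivity)
    linarith

/-- `l (j(l+1,d+1) - j) + l/d (j(l-1,d) - j) + r (j(l+1,d+1) - j) + 1_{d=k} ≤ μ j` for `0 ≤ r ≤ (d-l)/2`.  The second
summand is harmonic for the first two terms (`2 ≤ d < k`) and decreases under messages; `j = 0` for `d > k`.  First summand: `d < k`:
`(l + r) μ/d ≤ μ` (`aw_succ`); `d = k`, `l ≥ k/4`: `l * 4/k ≥ 1`; `d = k`, `l < k/4`: the second summand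
is at least `1/μ`. -/
theorem jw_main (h0 : 0 < μ) (h1 : μ ≤ 1) {k l d : ℕ} (hk : 2 ≤ k) (hd : 2 ≤ d) (hl : l + 1 ≤ d)
    {r : ℝ} (hr0 : 0 ≤ r) (hr1 : r ≤ ((d : ℝ) - l) / 2) :
    (l : ℝ) * (jw μ k (l + 1) (d + 1) - jw μ k l d) +
      (l : ℝ) / d * (jw μ k (l - 1) d - jw μ k l d) + r * (jw μ k (l + 1) (d + 1) - jw μ k l d) +
      (if d = k then 1 else 0) ≤ μ * jw μ k l d := by
  have hd0 : (0 : ℝ) < d := by positivity
  have hd2 : (2 : ℝ) ≤ d := by exact_mod_cast hd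
  have hdm : (0 : ℝ) < (d : ℝ) - 1 := by linarith
  have hld : (l : ℝ) + 1 ≤ d := by exact_mod_cast hl
  have hl0 : (0 : ℝ) ≤ l := Nat.cast_nonneg l
  have hlr : (l : ℝ) + r ≤ d := by linarith
  set K0 : ℝ := (k : ℝ) / μ * (2 : ℝ) ^ (1 - 3 / 4 * (k : ℝ)) with hK0
  have hK0p : 0 < K0 := by
    have : (0 : ℝ) < k := by positivity
    positivity
  -- the exponential part
  set e : ℕ := d - 1 - l with he
  have hB1 : (2 : ℝ) ^ (d + 1 - 1 - (l + 1)) / (((d + 1 : ℕ) : ℝ) - 1) = 2 ^ e / d := by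
    rw [show d + 1 - 1 - (l + 1) = e by omega]
    push_cast
    congr 1
    ring
  have hB2 : (l : ℝ) * ((2 : ℝ) ^ (d - 1 - (l - 1)) / ((d : ℝ) - 1)) =
      (l : ℝ) * (2 * (2 ^ e / ((d : ℝ) - 1))) := by
    rcases Nat.eq_zero_or_pos l with h | h
    · rw [h]; simp
    · rw [show d - 1 - (l - 1) = e + 1 by omega, pow_succ]
      ring
  have hBp : 0 < (2 : ℝ) ^ e / ((d : ℝ) - 1) := by positivity
  rcases lt_trichotomy d k with h | h | h
  · have ha := aw_nonneg h0.le k d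
    have hs := aw_succ (μ := μ) h0.le (by omega : 1 ≤ d) h
    unfold jw
    rw [if_neg (by omega), if_neg (by omega), if_neg (by omega), if_neg h.ne, hB1, hs, ← hK0, ← he]
    have hk0 : (0 : ℝ) < k := by positivity
    -- separate the two parts
    have p1 : ((l : ℝ) + r) * (4 / (k : ℝ) * (aw μ k d * (1 + μ / d)) - 4 / (k : ℝ) * aw μ k d) ≤
        μ * (4 / (k : ℝ) * aw μ k d) := by
      have e1 : ((l : ℝ) + r) * (4 / (k : ℝ) * (aw μ k d * (1 + μ / d)) - 4 / (k : ℝ) * aw μ k d) =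
          (((l : ℝ) + r) / d) * (μ * (4 / (k : ℝ) * aw μ k d)) := by
        field_simp
        ring
      rw [e1]
      have e2 : ((l : ℝ) + r) / d ≤ 1 := by rw [div_le_one hd0]; exact hlr
      have e3 : 0 ≤ μ * (4 / (k : ℝ) * aw μ k d) := by positivity
      nlinarith
    have p2 : (l : ℝ) * (2 ^ e / (d : ℝ) - 2 ^ e / ((d : ℝ) - 1)) +
        (l : ℝ) / d * (2 * (2 ^ e / ((d : ℝ) - 1)) - 2 ^ e / ((d : ℝ) - 1)) = 0 := by
      field_simp
      ring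
    have p3 : r * (2 ^ e / (d : ℝ) - 2 ^ e / ((d : ℝ) - 1)) ≤ 0 := by
      have : (2 : ℝ) ^ e / (d : ℝ) ≤ 2 ^ e / ((d : ℝ) - 1) :=
        div_le_div_of_nonneg_left (by positivity) hdm (by linarith)
      nlinarith
    have p4 : (l : ℝ) / d * ((2 : ℝ) ^ (d - 1 - (l - 1)) / ((d : ℝ) - 1)) =
        (l : ℝ) / d * (2 * (2 ^ e / ((d : ℝ) - 1))) := by
      rw [div_mul_eq_mul_div, hB2]
      ring
    have p5 : 0 ≤ μ * (K0 * (2 ^ e / ((d : ℝ) - 1))) := by positivity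
    have p6 : K0 * ((l : ℝ) * (2 ^ e / (d : ℝ) - 2 ^ e / ((d : ℝ) - 1)) +
        (l : ℝ) / d * (2 * (2 ^ e / ((d : ℝ) - 1)) - 2 ^ e / ((d : ℝ) - 1)) +
        r * (2 ^ e / (d : ℝ) - 2 ^ e / ((d : ℝ) - 1))) ≤ 0 := by
      rw [p2, zero_add]
      nlinarith
    calc _ = ((l : ℝ) + r) * (4 / (k : ℝ) * (aw μ k d * (1 + μ / d)) - 4 / (k : ℝ) * aw μ k d) +
          (K0 * ((l : ℝ) * (2 ^ e / (d : ℝ) - 2 ^ e / ((d : ℝ) - 1)) +
            ((l : ℝ) / d * ((2 : ℝ) ^ (d - 1 - (l - 1)) / ((d : ℝ) - 1)) -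
              (l : ℝ) / d * (2 ^ e / ((d : ℝ) - 1))) +
            r * (2 ^ e / (d : ℝ) - 2 ^ e / ((d : ℝ) - 1)))) := by ring
      _ = ((l : ℝ) + r) * (4 / (k : ℝ) * (aw μ k d * (1 + μ / d)) - 4 / (k : ℝ) * aw μ k d) +
          K0 * ((l : ℝ) * (2 ^ e / (d : ℝ) - 2 ^ e / ((d : ℝ) - 1)) +
        (l : ℝ) / d * (2 * (2 ^ e / ((d : ℝ) - 1)) - 2 ^ e / ((d : ℝ) - 1)) +
        r * (2 ^ e / (d : ℝ) - 2 ^ e / ((d : ℝ) - 1))) := by rw [p4]; ring
      _ ≤ μ * (4 / (k : ℝ) * aw μ k d) + μ * (K0 * (2 ^ e / ((d : ℝ) - 1))) := by linarith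
      _ = _ := by ring
  · subst h
    unfold jw
    rw [if_pos (by omega), if_neg (lt_irrefl d), if_neg (lt_irrefl d), if_pos rfl, aw_self, ← hK0, ← he]
    set B : ℝ := 2 ^ e / ((d : ℝ) - 1) with hB
    have p4 : (l : ℝ) / d * ((2 : ℝ) ^ (d - 1 - (l - 1)) / ((d : ℝ) - 1)) =
        (l : ℝ) / d * (2 * B) := by
      rw [div_mul_eq_mul_div, hB2]
      ring
    have hKB : 0 < K0 * B := by positivity
    have hq : (l : ℝ) / d ≤ l := div_le_self hl0 (by linarith)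
    have hq0 : 0 ≤ (l : ℝ) / d := by positivity
    -- the key
    have key : 1 + (l : ℝ) / d * (K0 * B) ≤ ((l : ℝ) + r + μ) * (4 / (d : ℝ) * 1 + K0 * B) := by
      have h4d : 0 ≤ 4 / (d : ℝ) := by positivity
      have g1 : (l : ℝ) / d * (K0 * B) ≤ (l : ℝ) * (K0 * B) := mul_le_mul_of_nonneg_right hq hKB.le
      rcases le_or_gt ((d : ℝ) / 4) l with h4 | h4
      · have g2 : 1 ≤ (l : ℝ) * (4 / (d : ℝ) * 1) := by
          rw [mul_one, mul_div_assoc', le_div_iff₀ hd0]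
          linarith
        have g3 : 0 ≤ (r + μ) * (4 / (d : ℝ) * 1 + K0 * B) := by positivity
        nlinarith
      · have g2 : 1 ≤ μ * (K0 * B) := by
          have e1 : μ * (K0 * B) = (d : ℝ) / ((d : ℝ) - 1) *
              ((2 : ℝ) ^ (1 - 3 / 4 * (d : ℝ)) * (2 : ℝ) ^ e) := by
            rw [hK0, hB]
            field_simp
          have e2 : (2 : ℝ) ^ (1 - 3 / 4 * (d : ℝ)) * (2 : ℝ) ^ e = (2 : ℝ) ^ ((d : ℝ) / 4 - l) := by
            rw [← Real.rpow_natCast, ← Real.rpow_add (by norm_num)]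
            congr 1
            have : ((e : ℕ) : ℝ) = (d : ℝ) - 1 - l := by
              rw [he, Nat.cast_sub (by omega), Nat.cast_sub (by omega)]
              push_cast
              ring
            rw [this]
            ring
          rw [e1, e2]
          have e3 : 1 ≤ (d : ℝ) / ((d : ℝ) - 1) := by rw [le_div_iff₀ hdm]; linarith
          have e4 : 1 ≤ (2 : ℝ) ^ ((d : ℝ) / 4 - l) := Real.one_le_rpow (by norm_num) (by linarith)
          exact one_le_mul_of_one_le_of_one_le e3 e4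
        have g3 : 0 ≤ ((l : ℝ) + r + μ) * (4 / (d : ℝ) * 1) := by positivity
        have g4 : 0 ≤ r * (K0 * B) := by positivity
        nlinarith
    have e9 : (l : ℝ) / d * (4 / (d : ℝ) * 1 + K0 * ((2 : ℝ) ^ (d - 1 - (l - 1)) / ((d : ℝ) - 1)) -
        (4 / (d : ℝ) * 1 + K0 * B)) = (l : ℝ) / d * (K0 * B) := by
      calc _ = K0 * ((l : ℝ) / d * ((2 : ℝ) ^ (d - 1 - (l - 1)) / ((d : ℝ) - 1))) -
            (l : ℝ) / d * (K0 * B) := by ring
        _ = _ := by rw [p4]; ring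
    rw [e9]
    linarith
  · have e0 : ∀ a b, k < b → jw μ k a b = 0 := by
      intro a b hb
      unfold jw
      rw [if_pos hb]
    rw [e0 _ _ h, e0 _ _ (by omega : k < d + 1), e0 _ _ h, if_neg h.ne']
    simp

end RFT
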