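import Pool.Agent.H13.RF.C1
import Pool.Agent.H13.RF.B5

/-! Module F2a: the lower weight for p_k. -/

namespace RFT

open Finset RT

variable {μ c C : ℝ}

/-- `∏_{i=d}^{k-1} i/(i+μ)` for `d ≤ k`, zero for `d > k` -/
noncomputable def aw (μ : ℝ) (k d : ℕ) : ℝ :=
  if k < d then 0 else ∏ i ∈ Ico d k, ((i : ℝ) / (i + μ))

theorem aw_nonneg (h0 : 0 ≤ μ) (k d : ℕ) : 0 ≤ aw μ k d := by
  unfold aw
  split_ifs
  · exact le_rfl
  · exact prod_nonneg fun i _ => by positivity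

theorem aw_le_one (h0 : 0 ≤ μ) (k d : ℕ) : aw μ k d ≤ 1 := by
  unfold aw
  split_ifs
  · exact zero_le_one
  · refine prod_le_one (fun i _ => by positivity) fun i _ => ?_
    exact div_le_one_of_le₀ (by linarith) (by positivity)

theorem aw_self (k : ℕ) : aw μ k k = 1 := by
  unfold aw
  simp

/-- `w(d+1) = w(d) (1 + μ/d)` for `2 ≤ d < k` -/
theorem aw_succ (h0 : 0 ≤ μ) {k d : ℕ} (hd : 1 ≤ d) (h : d < k) :
    aw μ k (d + 1) = aw μ k d * (1 + μ / d) := by
  unfold aw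
  rw [if_neg (by omega), if_neg (by omega), prod_eq_prod_Ico_succ_bot h]
  have hd0 : (0 : ℝ) < d := by exact_mod_cast hd
  have h1 : (d : ℝ) + μ ≠ 0 := by positivity
  have h2 : (d : ℝ) / (d + μ) * (1 + μ / d) = 1 := by
    field_simp
  calc ∏ i ∈ Ico (d + 1) k, ((i : ℝ) / (i + μ))
      = ((d : ℝ) / (d + μ) * (1 + μ / d)) * ∏ i ∈ Ico (d + 1) k, ((i : ℝ) / (i + μ)) := by
        rw [h2, one_mul]
    _ = _ := by ring

private lemma aw_two_succ {k : ℕ} (hk : 2 ≤ k) :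
    aw μ (k + 1) 2 = aw μ k 2 * ((k : ℝ) / (k + μ)) := by
  unfold aw
  rw [if_neg (by omega), if_neg (by omega), prod_Ico_succ_top hk]

/-- telescoping: `i/(i+μ) ≤ (i/(i+1))^μ` (Bernoulli) -/
theorem aw_two_le (h0 : 0 ≤ μ) (h1 : μ ≤ 1) {k : ℕ} (hk : 2 ≤ k) :
    aw μ k 2 ≤ 2 * (k : ℝ) ^ (-μ) := by
  have key : aw μ k 2 ≤ (2 : ℝ) ^ μ * (k : ℝ) ^ (-μ) := by
    induction k, hk using Nat.le_induction with
    | base =>
      rw [aw_self, Nat.cast_ofNat, ← Real.rpow_add (by norm_num)]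
      simp
    | succ k hk ih =>
      rw [aw_two_succ hk]
      have hk0 : (0 : ℝ) < k := by positivity
      have hb : (1 + 1 / (k : ℝ)) ^ μ ≤ 1 + μ * (1 / k) :=
        rpow_one_add_le_one_add_mul_self (by
          have : (0 : ℝ) ≤ 1 / k := by positivity
          linarith) h0 h1
      have e1 : (k : ℝ) / (k + μ) ≤ (k : ℝ) ^ μ * ((k : ℝ) + 1) ^ (-μ) := by
        have e2 : (1 + 1 / (k : ℝ)) ^ μ = ((k : ℝ) + 1) ^ μ / (k : ℝ) ^ μ := by
          rw [← Real.div_rpow (by positivity) hk0.le]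
          congr 1
          field_simp
        rw [e2] at hb
        rw [Real.rpow_neg (by positivity), ← div_eq_mul_inv, div_le_div_iff₀ (by positivity) (by positivity)]
        rw [div_le_iff₀ (by positivity)] at hb
        have e3 : (1 + μ * (1 / (k : ℝ))) * (k : ℝ) ^ μ * k = (k : ℝ) ^ μ * (k + μ) := by
          field_simp
        calc (k : ℝ) * ((k : ℝ) + 1) ^ μ ≤ k * ((1 + μ * (1 / (k : ℝ))) * (k : ℝ) ^ μ) :=
              mul_le_mul_of_nonneg_left hb hk0.le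
          _ = _ := by rw [← e3]; ring
      calc aw μ k 2 * ((k : ℝ) / (k + μ))
          ≤ ((2 : ℝ) ^ μ * (k : ℝ) ^ (-μ)) * ((k : ℝ) ^ μ * ((k : ℝ) + 1) ^ (-μ)) :=
            mul_le_mul ih e1 (by positivity) (by positivity)
        _ = (2 : ℝ) ^ μ * ((k : ℝ) ^ (-μ) * (k : ℝ) ^ μ) * ((k : ℝ) + 1) ^ (-μ) := by ring
        _ = _ := by
            rw [← Real.rpow_add hk0]
            push_cast
            simp
  refine key.trans (mul_le_mul_of_nonneg_right ?_ (by positivity))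
  calc (2 : ℝ) ^ μ ≤ (2 : ℝ) ^ (1 : ℝ) := Real.rpow_le_rpow_of_exponent_le (by norm_num) h1
    _ = 2 := Real.rpow_one 2

/-- telescoping: `((i-1)/i)^μ ≤ i/(i+μ)` -/
theorem le_aw_two (h0 : 0 ≤ μ) (h1 : μ ≤ 1) {k : ℕ} (hk : 2 ≤ k) :
    (k : ℝ) ^ (-μ) ≤ aw μ k 2 := by
  have key : ((k : ℝ) - 1) ^ (-μ) ≤ aw μ k 2 := by
    induction k, hk using Nat.le_induction with
    | base =>
      rw [aw_self]
      norm_num
    | succ k hk ih =>
      rw [aw_two_succ hk]
      have hk1 : (1 : ℝ) < k := by exact_mod_cast (by omega : 1 < k)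
      have hk0 : (0 : ℝ) < k := by linarith
      have hkm : (0 : ℝ) < k - 1 := by linarith
      have hb : (1 + (-(1 / (k : ℝ)))) ^ μ ≤ 1 + μ * (-(1 / k)) :=
        rpow_one_add_le_one_add_mul_self (by
          have : 1 / (k : ℝ) ≤ 1 := by rw [div_le_one hk0]; linarith
          linarith) h0 h1
      have e1 : ((k : ℝ) - 1) ^ μ * (k : ℝ) ^ (-μ) ≤ (k : ℝ) / (k + μ) := by
        have e2 : (1 + (-(1 / (k : ℝ)))) ^ μ = ((k : ℝ) - 1) ^ μ * (k : ℝ) ^ (-μ) := by
          rw [Real.rpow_neg hk0.le, ← div_eq_mul_inv, ← Real.div_rpow hkm.le hk0.le]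
          congr 1
          field_simp
          ring
        rw [e2] at hb
        refine hb.trans ?_
        rw [le_div_iff₀ (by positivity)]
        have e3 : (1 + μ * (-(1 / (k : ℝ)))) * (k + μ) = k - μ ^ 2 / k := by
          field_simp
          ring
        rw [e3]
        have : 0 ≤ μ ^ 2 / (k : ℝ) := by positivity
        linarith
      push_cast
      have e4 : ((k : ℝ) + 1 - 1) ^ (-μ) = ((k : ℝ) - 1) ^ (-μ) * (((k : ℝ) - 1) ^ μ * (k : ℝ) ^ (-μ)) := by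
        rw [← mul_assoc, ← Real.rpow_add hkm]
        simp
      rw [e4]
      exact mul_le_mul ih e1 (by positivity) (aw_nonneg h0 _ _)
  refine le_trans ?_ key
  have hk1 : (1 : ℝ) < k := by exact_mod_cast (by omega : 1 < k)
  exact Real.rpow_le_rpow_of_nonpos (by linarith) (by linarith) (by linarith)

/-- the lower weight -/
noncomputable def iw (μ : ℝ) (k l d : ℕ) : ℝ := 1 / ((k : ℝ) + 2) * (th l d * aw μ k d)

theorem iw_nonneg (h0 : 0 ≤ μ) (k l d : ℕ) : 0 ≤ iw μ k l d := by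
  unfold iw
  have h1 := th_nonneg l d
  have h2 := aw_nonneg h0 k d
  positivity

theorem iw_le (h0 : 0 ≤ μ) {k l d : ℕ} (hl : l + 1 ≤ d) : iw μ k l d ≤ 1 := by
  unfold iw
  have h1 := th_nonneg l d
  have h2 := aw_nonneg h0 k d
  have h3 : 1 / ((k : ℝ) + 2) ≤ 1 := div_le_one_of_le₀ (by linarith [(Nat.cast_nonneg k : (0:ℝ) ≤ k)]) (by positivity)
  have h4 : th l d * aw μ k d ≤ 1 := mul_le_one₀ (th_le_one l d hl) h2 (aw_le_one h0 k d)
  exact mul_le_one₀ h3 (by positivity) h4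

/-- `μ i ≤ l (i(l+1,d+1) - i) + l/d (i(l-1,d) - i) + r (i(l+1,d+1) - i) + 1_{d=k}` for `0 ≤ r ≤ (d-l)/2`.
`d < k`: `th_mu`, `aw_succ`, `th_mono`.  `d = k`: `(μ + l + r + l/k) i ≤ 1` as `i ≤ 1/(k+2)`, `l + r ≤ k`.
`d > k`: zero. -/
theorem iw_main (h0 : 0 ≤ μ) (h1 : μ ≤ 1) {k l d : ℕ} (hk : 2 ≤ k) (hd : 2 ≤ d) (hl : l + 1 ≤ d)
    {r : ℝ} (hr0 : 0 ≤ r) (hr1 : r ≤ ((d : ℝ) - l) / 2) :
    μ * iw μ k l d ≤ (l : ℝ) * (iw μ k (l + 1) (d + 1) - iw μ k l d) +
      (l : ℝ) / d * (iw μ k (l - 1) d - iw μ k l d) + r * (iw μ k (l + 1) (d + 1) - iw μ k l d) +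
      (if d = k then 1 else 0) := by
  have hd0 : (0 : ℝ) < d := by positivity
  rcases lt_trichotomy d k with h | h | h
  · rw [if_neg h.ne, add_zero]
    have ha := aw_nonneg h0 k d
    have hs := aw_succ (μ := μ) h0 (by omega : 1 ≤ d) h
    have hm := th_mu hl hd h0 h1
    have hmono := th_mono hl hd
    have hth := th_nonneg l d
    have hc : 0 ≤ 1 / ((k : ℝ) + 2) * aw μ k d := by positivity
    have hd1 : 0 ≤ μ / d := by positivity
    have e1 : 0 ≤ (1 + μ / d) * th (l + 1) (d + 1) - th l d := by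
      nlinarith [mul_nonneg hd1 (th_nonneg (l + 1) (d + 1))]
    unfold iw
    rw [hs]
    have e2 := mul_le_mul_of_nonneg_left hm hc
    have e3 : 0 ≤ (1 / ((k : ℝ) + 2) * aw μ k d) * (r * ((1 + μ / d) * th (l + 1) (d + 1) - th l d)) := by
      positivity
    calc μ * (1 / ((k : ℝ) + 2) * (th l d * aw μ k d))
        = 1 / ((k : ℝ) + 2) * aw μ k d * (μ * th l d) := by ring
      _ ≤ _ := e2
      _ ≤ 1 / ((k : ℝ) + 2) * aw μ k d * ((l : ℝ) * ((1 + μ / d) * th (l + 1) (d + 1) - th l d) +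
            (l : ℝ) / d * (th (l - 1) d - th l d)) +
          (1 / ((k : ℝ) + 2) * aw μ k d) * (r * ((1 + μ / d) * th (l + 1) (d + 1) - th l d)) := by
            linarith
      _ = _ := by ring
  · subst h
    rw [if_pos rfl]
    have e0 : iw μ d (l + 1) (d + 1) = 0 := by
      unfold iw aw
      rw [if_pos (by omega)]
      ring
    rw [e0]
    have hn := iw_nonneg h0 d (l - 1) d
    have hn2 := iw_nonneg h0 d l d
    have hle : iw μ d l d ≤ 1 / ((d : ℝ) + 2) := by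
      unfold iw
      rw [aw_self, mul_one]
      calc 1 / ((d : ℝ) + 2) * th l d ≤ 1 / ((d : ℝ) + 2) * 1 :=
            mul_le_mul_of_nonneg_left (th_le_one l d hl) (by positivity)
        _ = _ := mul_one _
    have hld : (l : ℝ) + 1 ≤ d := by exact_mod_cast hl
    have hl0 : (0 : ℝ) ≤ l := Nat.cast_nonneg l
    have hq : (l : ℝ) / d ≤ 1 := by rw [div_le_one hd0]; linarith
    have hq0 : 0 ≤ (l : ℝ) / d := by positivity
    have h5 : (μ + l + r + (l : ℝ) / d) * iw μ d l d ≤ 1 := by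
      have h6 : μ + l + r + (l : ℝ) / d ≤ (d : ℝ) + 2 := by linarith
      calc (μ + l + r + (l : ℝ) / d) * iw μ d l d ≤ ((d : ℝ) + 2) * (1 / ((d : ℝ) + 2)) :=
            mul_le_mul h6 hle hn2 (by positivity)
        _ = 1 := by field_simp
    nlinarith [mul_nonneg hq0 hn]
  · rw [if_neg h.ne', add_zero]
    have e0 : ∀ a b, k < b → iw μ k a b = 0 := by
      intro a b hb
      unfold iw aw
      rw [if_pos hb]
      ring
    rw [e0 _ _ h, e0 _ _ (by omega : k < d + 1), e0 _ _ h]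
    simp

end RFT
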