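import Pool.Agent.H13.RF.F1
import Pool.Agent.H13.RF.F2

/-! Module F3: the bounds for `p_k`. -/

namespace RFT

open Finset RT

variable {μ c C : ℝ}

/-- the indicator of degree `k` -/
noncomputable def dk (k : ℕ) : ℕ → ℕ → ℝ := fun _ d => if d = k then 1 else 0

private theorem F3_two_rpow {k : ℕ} (hk : 2 ≤ k) :
    (k : ℝ) * (2 : ℝ) ^ (1 - 3 / 4 * (k : ℝ)) ≤ 96 * (k : ℝ) ^ (-2 : ℝ) := by
  have hk' : (2 : ℝ) ≤ k := by exact_mod_cast hk
  have hk0 : (0 : ℝ) < k := by linarith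
  have h1 : (2 : ℝ) ^ (1 - 3 / 4 * (k : ℝ)) = 2 * Real.exp (-(3 / 4 * (k : ℝ) * Real.log 2)) := by
    rw [Real.rpow_def_of_pos two_pos, mul_sub, mul_one, sub_eq_add_neg, Real.exp_add,
      Real.exp_log two_pos]
    congr 2
    ring
  have h2 : (k : ℝ) / 2 ≤ 3 / 4 * (k : ℝ) * Real.log 2 := by
    have := Real.log_two_gt_d9
    nlinarith
  have h3 : Real.exp (-(3 / 4 * (k : ℝ) * Real.log 2)) ≤ Real.exp (-((k : ℝ) / 2)) :=
    Real.exp_le_exp.mpr (by linarith)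
  have h4 : ((k : ℝ) / 2) ^ 3 / (Nat.factorial 3 : ℝ) ≤ Real.exp ((k : ℝ) / 2) :=
    Real.pow_div_factorial_le_exp _ (by positivity) 3
  have h5 : Real.exp (-((k : ℝ) / 2)) ≤ 48 / (k : ℝ) ^ 3 := by
    rw [Real.exp_neg, inv_le_comm₀ (Real.exp_pos _) (by positivity)]
    refine le_trans (le_of_eq ?_) h4
    rw [inv_div]
    norm_num [Nat.factorial]
    ring
  rw [h1]
  have h6 : (k : ℝ) ^ (-2 : ℝ) = 1 / (k : ℝ) ^ 2 := by
    rw [Real.rpow_neg hk0.le, one_div]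
    norm_num
  rw [h6]
  calc (k : ℝ) * (2 * Real.exp (-(3 / 4 * (k : ℝ) * Real.log 2)))
      ≤ (k : ℝ) * (2 * (48 / (k : ℝ) ^ 3)) := by
        apply mul_le_mul_of_nonneg_left _ hk0.le
        apply mul_le_mul_of_nonneg_left (h3.trans h5) two_pos.le
    _ = 96 * (1 / (k : ℝ) ^ 2) := by
        field_simp
        ring

/-- `le_ratio` with `iw`, `ratio_le` with `jw` (`L_vf`, `rin_nonneg`, `rin_le`), then `aw_two_le`, `le_aw_two`;
`k * 2^(1-3k/4) ≤ C k^(-2)` -/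
theorem pk_bounds (hb : Bd μ c C) : ∃ c' C' : ℝ, 0 < c' ∧ ∀ k : ℕ, 2 ≤ k → ∀ p : ℝ,
    IsRatio μ (dk k) p →
      c' * (k : ℝ) ^ (-(1 + μ)) ≤ p ∧ p ≤ C' * (k : ℝ) ^ (-(1 + μ)) := by
  have hmu : 0 < μ := lt_of_lt_of_le (by norm_num) hb.mu_ge
  have hmu1 : μ ≤ 1 := hb.mu_le.trans (by norm_num)
  refine ⟨2 * μ / 25, 8 + 96 / μ, by positivity, fun k hk p hp => ?_⟩
  have hk' : (2 : ℝ) ≤ k := by exact_mod_cast hk
  have hk0 : (0 : ℝ) < k := by linarith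
  have hdk : ∀ l d, |dk k l d| ≤ 1 := by
    intro l d
    unfold dk
    split_ifs <;> simp
  constructor
  · have h1 := le_ratio hb (g := dk k) (i := iw μ k) (p := p) (M := 1) (N := 1) hdk
      (fun l d _ => iw_nonneg hmu.le k l d) (fun l d h => iw_le hmu.le h) hp (fun x hx => by
        rw [L_vf hx]
        have h2 := iw_main hmu.le hmu1 (k := k) hk (two_le_dg hx) (nl_add_one_le (x := x))
          (rin_nonneg x) (rin_le hx)
        simp only [vf, loc, dk]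
        linarith)
    refine le_trans ?_ h1
    have h2 := le_aw_two hmu.le hmu1 hk
    have h3 : iw μ k 1 2 = 1 / ((k : ℝ) + 2) * (4 / 25 * aw μ k 2) := by
      unfold iw th
      norm_num
    rw [h3]
    have h4 : (k : ℝ) ^ (-(1 + μ)) = 1 / (k : ℝ) * (k : ℝ) ^ (-μ) := by
      rw [neg_add, Real.rpow_add hk0, Real.rpow_neg_one, one_div]
    rw [h4]
    have h5 : 1 / (2 * (k : ℝ)) ≤ 1 / ((k : ℝ) + 2) :=
      one_div_le_one_div_of_le (by linarith) (by linarith)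
    have h6 : (0 : ℝ) ≤ (k : ℝ) ^ (-μ) := Real.rpow_nonneg hk0.le _
    calc 2 * μ / 25 * (1 / (k : ℝ) * (k : ℝ) ^ (-μ))
        = μ * (1 / (2 * (k : ℝ)) * (4 / 25 * (k : ℝ) ^ (-μ))) := by field_simp; ring
      _ ≤ μ * (1 / ((k : ℝ) + 2) * (4 / 25 * (k : ℝ) ^ (-μ))) := by
          apply mul_le_mul_of_nonneg_left _ hmu.le
          exact mul_le_mul_of_nonneg_right h5 (by positivity)
      _ ≤ μ * (1 / ((k : ℝ) + 2) * (4 / 25 * aw μ k 2)) := by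
          apply mul_le_mul_of_nonneg_left _ hmu.le
          apply mul_le_mul_of_nonneg_left _ (by positivity)
          exact mul_le_mul_of_nonneg_left h2 (by norm_num)
  · obtain ⟨N, hN⟩ := jw_le hmu k
    have h1 := ratio_le hb (g := dk k) (j := jw μ k) (p := p) (M := 1) (N := N) hdk
      (fun l d h => jw_nonneg hmu h) hN hp (fun x hx => by
        rw [L_vf hx]
        have h2 := jw_main hmu hmu1 (k := k) hk (two_le_dg hx) (nl_add_one_le (x := x))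
          (rin_nonneg x) (rin_le hx)
        simp only [vf, loc, dk]
        linarith)
    refine h1.trans ?_
    have h2 := aw_two_le hmu.le hmu1 hk
    have h3 : jw μ k 1 2 = 4 / (k : ℝ) * aw μ k 2 +
        (k : ℝ) / μ * (2 : ℝ) ^ (1 - 3 / 4 * (k : ℝ)) := by
      unfold jw
      rw [if_neg (by omega)]
      norm_num
    rw [h3]
    have h4 : (k : ℝ) ^ (-(1 + μ)) = 1 / (k : ℝ) * (k : ℝ) ^ (-μ) := by
      rw [neg_add, Real.rpow_add hk0, Real.rpow_neg_one, one_div]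
    have h5 : (k : ℝ) ^ (-2 : ℝ) ≤ (k : ℝ) ^ (-(1 + μ)) :=
      Real.rpow_le_rpow_of_exponent_le (by linarith) (by linarith)
    have h6 := F3_two_rpow hk
    have h7 : 4 / (k : ℝ) * aw μ k 2 ≤ 8 * (k : ℝ) ^ (-(1 + μ)) := by
      rw [h4]
      calc 4 / (k : ℝ) * aw μ k 2 ≤ 4 / (k : ℝ) * (2 * (k : ℝ) ^ (-μ)) :=
            mul_le_mul_of_nonneg_left h2 (by positivity)
        _ = 8 * (1 / (k : ℝ) * (k : ℝ) ^ (-μ)) := by ring
    have h8 : (k : ℝ) / μ * (2 : ℝ) ^ (1 - 3 / 4 * (k : ℝ)) ≤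
        96 / μ * (k : ℝ) ^ (-(1 + μ)) := by
      calc (k : ℝ) / μ * (2 : ℝ) ^ (1 - 3 / 4 * (k : ℝ))
          = 1 / μ * ((k : ℝ) * (2 : ℝ) ^ (1 - 3 / 4 * (k : ℝ))) := by ring
        _ ≤ 1 / μ * (96 * (k : ℝ) ^ (-(1 + μ))) := by
            apply mul_le_mul_of_nonneg_left _ (by positivity)
            exact h6.trans (mul_le_mul_of_nonneg_left h5 (by norm_num))
        _ = 96 / μ * (k : ℝ) ^ (-(1 + μ)) := by ring
    calc 4 / (k : ℝ) * aw μ k 2 + (k : ℝ) / μ * (2 : ℝ) ^ (1 - 3 / 4 * (k : ℝ))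
        ≤ 8 * (k : ℝ) ^ (-(1 + μ)) + 96 / μ * (k : ℝ) ^ (-(1 + μ)) := add_le_add h7 h8
      _ = (8 + 96 / μ) * (k : ℝ) ^ (-(1 + μ)) := by ring

end RFT
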