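import Pool.Agent.H13.RF.G1a
import Pool.Agent.H13.RF.C1
import Pool.Agent.H13.RF.A1a

/-! Module G1b: pointwise generator inequality. -/

namespace RFT

open Finset RT

/-- indicator of `isD` -/
private noncomputable def G1b_d (B : RT Unit) : ℝ := if isD B then 1 else 0

private theorem G1b_d_nonneg (B : RT Unit) : 0 ≤ G1b_d B := by
  unfold G1b_d; split_ifs <;> norm_num

private theorem G1b_not_isD {B : RT Unit} (h : B.nk ≠ 1) : ¬ isD B := fun h' => h h'.1

private theorem G1b_kid (a : Unit) (n : ℕ) (K : Fin n → RT Unit) (i : Fin n) :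
    kid (node a n K) i = K i := by
  simp [kid]

/-- structure of an `isD` half-tree -/
private theorem G1b_isD_iff (a : Unit) (K : Fin 1 → RT Unit) :
    isD (node a 1 K) ↔ (K 0).nk ≠ 0 := by
  unfold isD
  simp only [nk_node, true_and, nl, Fin.sum_univ_one, Fin.isValue]
  by_cases h : (K 0).nk = 0 <;> simp [h]

private theorem G1b_isD_rep (a : Unit) (K : Fin 1 → RT Unit) (c : RT Unit) (hc : c.nk ≠ 0) :
    isD (rep 1 a K 0 c) := by
  unfold rep
  rw [G1b_isD_iff]
  simpa using hc

/-- transitions inside a half-tree, constant function -/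
private theorem G1b_Q_const (B : RT Unit) (r : ℝ) : Q B (fun _ => r) = r * ((B.size : ℝ) - B.upr) := by
  obtain ⟨l, _, h⟩ := Q_rep B
  have e1 : Q B (fun _ => r) = (l.map (fun p => p.1 * r)).sum := h _
  have e2 : Q B (fun _ => (1 : ℝ)) = (l.map (fun p => p.1 * (1 : ℝ))).sum := h _
  rw [← Q_one B, e1, e2, ← List.sum_map_mul_left]
  congr 1
  apply List.map_congr_left
  intro p _
  ring

private theorem G1b_Q_add (B : RT Unit) (r : ℝ) (u : RT Unit → ℝ) :
    Q B (fun c => r + u c) = r * ((B.size : ℝ) - B.upr) + Q B u := B2_Q_lin B r u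

/-- the inner transitions destroy `isD` at rate at most one half -/
private theorem G1b_Q_d (B : RT Unit) (hB : B.nk ≠ 0) :
    G1b_d B * ((B.size : ℝ) - B.upr - 1 / 2) ≤ Q B G1b_d := by
  by_cases hD : isD B
  · cases B with
    | node a n K =>
      have hn : n = 1 := hD.1
      subst hn
      have hK : (K 0).nk ≠ 0 := (G1b_isD_iff a K).1 hD
      have e1 : G1b_d (rep 1 a K 0 (msg (K 0))) = 1 := by
        unfold G1b_d; rw [if_pos (G1b_isD_rep a K _ (by simp))]
      have e2 : Q (K 0) (fun c => G1b_d (rep 1 a K 0 c)) = ((K 0).size : ℝ) - (K 0).upr := by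
        rw [← one_mul (((K 0).size : ℝ) - (K 0).upr), ← G1b_Q_const]
        apply Q_congr_nk
        intro c hc
        unfold G1b_d; rw [if_pos (G1b_isD_rep a K c (by omega))]
      have e3 : 0 ≤ upr (K 0) * G1b_d (add (node a 1 K)) :=
        mul_nonneg (upr_nonneg _) (G1b_d_nonneg _)
      have e4 : (((node a 1 K : RT Unit).size : ℕ) : ℝ) = 1 + ((K 0).size : ℝ) := by
        simp [size]
      have e5 : (node a 1 K : RT Unit).upr = 1 / 2 := by
        simp only [upr, nk_node]; norm_num
      have e6 : (K 0).upr ≤ 1 / 2 := upr_le_half hK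
      have e7 : G1b_d (node a 1 K) = 1 := by unfold G1b_d; rw [if_pos hD]
      rw [e4, e5, e7]
      simp only [Q, Fin.sum_univ_one, Fin.isValue]
      rw [e1, e2]
      push_cast
      linarith
  · have h0 : G1b_d B = 0 := by unfold G1b_d; rw [if_neg hD]
    rw [h0, zero_mul]
    exact Q_nonneg B _ fun c _ => G1b_d_nonneg c

private theorem G1b_hD_pos {x : RT Unit × RT Unit} (h : isD x.1) :
    hD x = G1b_d (kid x.1 0) + G1b_d x.2 := by
  unfold hD G1b_d
  rw [if_pos h]

private theorem G1b_hD_neg {x : RT Unit × RT Unit} (h : ¬ isD x.1) : hD x = 0 := by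
  unfold hD
  rw [if_neg h]

/-- lower bound for the operator of the pointed trees -/
private theorem G1b_P_hD {x : RT Unit × RT Unit} (hx : x ∈ C2) (h : isD x.1) :
    hD x * ((x.1.size : ℝ) + x.2.size - 1 - rin x) ≤ kerP.P hD x := by
  obtain ⟨B, A⟩ := x
  have hB : B.nk ≠ 0 := hx.1
  have hA : A.nk ≠ 0 := hx.2
  cases B with
  | node a n K =>
    have hn : n = 1 := h.1
    subst hn
    have hK : (K 0).nk ≠ 0 := (G1b_isD_iff a K).1 h
    have hkid : kid (node a 1 K) 0 = K 0 := G1b_kid a 1 K 0
    have hh : hD (node a 1 K, A) = G1b_d (K 0) + G1b_d A := by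
      rw [G1b_hD_pos h]
      show G1b_d (kid (node a 1 K) 0) + G1b_d A = _
      rw [hkid]
    have hrin : rin (node a 1 K, A) = (K 0).upr + A.upr := by
      unfold rin
      simp only [nk_node, Finset.range_one, Finset.sum_singleton]
      rw [hkid, if_neg hK]
    have hrep : ∀ c : RT Unit, c.nk ≠ 0 → hD (rep 1 a K 0 c, A) = G1b_d A + G1b_d c := by
      intro c hc
      have h1 : isD (rep 1 a K 0 c) := G1b_isD_rep a K c hc
      rw [G1b_hD_pos h1]
      show G1b_d (kid (rep 1 a K 0 c) 0) + G1b_d A = _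
      have : kid (rep 1 a K 0 c) 0 = c := by
        unfold rep
        have := G1b_kid a 1 (Function.update K 0 c) 0
        simpa using this
      rw [this]
      ring
    -- the four groups of transitions
    have q1 : G1b_d A * (1 / 2) + (G1b_d A * (((K 0).size : ℝ) - (K 0).upr) +
        G1b_d (K 0) * (((K 0).size : ℝ) - (K 0).upr - 1 / 2)) ≤
        Q (node a 1 K) (fun c => hD (c, A)) := by
      simp only [Q, Fin.sum_univ_one, Fin.isValue]
      have f1 : hD (rep 1 a K 0 (msg (K 0)), A) = G1b_d A := by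
        rw [hrep _ (by simp)]
        have : G1b_d (msg (K 0)) = 0 := by
          unfold G1b_d
          rw [if_neg (G1b_not_isD (by simp [hK]))]
        rw [this, add_zero]
      have f2 : Q (K 0) (fun c => hD (rep 1 a K 0 c, A)) =
          G1b_d A * (((K 0).size : ℝ) - (K 0).upr) + Q (K 0) G1b_d := by
        rw [← G1b_Q_add]
        apply Q_congr_nk
        intro c hc
        exact hrep c (by omega)
      have f3 : 0 ≤ upr (K 0) * hD (add (node a 1 K), A) :=
        mul_nonneg (upr_nonneg _) (hD_nonneg _)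
      have f4 := G1b_Q_d (K 0) hK
      rw [f1, f2]
      push_cast
      linarith
    have q2 : G1b_d (K 0) * ((A.size : ℝ) - A.upr) + G1b_d A * ((A.size : ℝ) - A.upr - 1 / 2) ≤
        Q A (fun e => hD (node a 1 K, e)) := by
      have f2 : Q A (fun e => hD (node a 1 K, e)) =
          G1b_d (K 0) * ((A.size : ℝ) - A.upr) + Q A G1b_d := by
        rw [← G1b_Q_add]
        apply Q_congr_nk
        intro c _
        rw [G1b_hD_pos (x := (node a 1 K, c)) h]
        show G1b_d (kid (node a 1 K) 0) + G1b_d c = _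
        rw [hkid]
      rw [f2]
      have := G1b_Q_d A hA
      linarith
    have q3 : G1b_d (K 0) * (1 / 2) ≤ upr (node a 1 K) * hD (node a 1 K, add A) := by
      have e5 : (node a 1 K : RT Unit).upr = 1 / 2 := by
        simp only [upr, nk_node]; norm_num
      have : hD (node a 1 K, add A) = G1b_d (K 0) := by
        rw [G1b_hD_pos (x := (node a 1 K, add A)) h]
        show G1b_d (kid (node a 1 K) 0) + G1b_d (add A) = _
        have h2 : G1b_d (add A) = 0 := by
          unfold G1b_d
          rw [if_neg (G1b_not_isD (by simp [hA]))]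
        rw [hkid, h2, add_zero]
      rw [e5, this]
      linarith
    have q4 : 0 ≤ upr A * hD (msg (node a 1 K), A) := mul_nonneg (upr_nonneg _) (hD_nonneg _)
    have q5 : 0 ≤ ∑ i ∈ range (node a 1 K : RT Unit).nk,
        (if (kid (node a 1 K) i).nk = 0 then (node a 1 K : RT Unit).upr *
          hD (fresh, repl (node a 1 K) i A) else 0) := by
      apply Finset.sum_nonneg
      intro i _
      split
      · exact mul_nonneg (upr_nonneg _) (hD_nonneg _)
      · exact le_rfl
    have e4 : (((node a 1 K : RT Unit).size : ℕ) : ℝ) = 1 + ((K 0).size : ℝ) := by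
      simp [size]
    show hD (node a 1 K, A) * (((node a 1 K : RT Unit).size : ℝ) + A.size - 1 - rin (node a 1 K, A)) ≤
      (Q (node a 1 K) (fun c => hD (c, A)) + Q A (fun e => hD (node a 1 K, e)) +
        upr (node a 1 K) * hD (node a 1 K, add A) + upr A * hD (msg (node a 1 K), A)) +
      ∑ i ∈ range (node a 1 K : RT Unit).nk,
        (if (kid (node a 1 K) i).nk = 0 then (node a 1 K : RT Unit).upr *
          hD (fresh, repl (node a 1 K) i A) else 0)
    rw [hh, hrin, e4]
    linarith

/-- Pointwise inequality for the generator of the pointed trees: for `0 ≤ α ≤ 3/50`,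
`L (th + α hD) ≥ (3/50 - 2 α) hD`.
For an `isD` vertex `x` with `h = hD x ∈ {0, 1, 2}`: messages arrive at `x` at rate `rin x ≥ h/2`, `rin x ≤ 1`, and
produce `th 1 3 = 3/25` but destroy `α h`; each of the `h` neighbours receives messages at rate at
most one (which destroys `α`).  So `L ≥ rin (3/25 - α h) - α h ≥ (h/2)(3/25 - 2α) - α h = h (3/50 - 2α)`
(if `α ≤ 3/50`).  All other changes of `hD` are increases, and `L (vf th) ≥ 0`. -/
theorem L_th_hD {α : ℝ} (h0 : 0 ≤ α) (h1 : α ≤ 3 / 50) {x : RT Unit × RT Unit} (hx : x ∈ C2) :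
    (3 / 50 - 2 * α) * hD x ≤ kerP.L (fun y => vf th y + α * hD y) x := by
  have hlin : kerP.L (fun y => vf th y + α * hD y) x =
      kerP.L (vf th) x + α * (kerP.P hD x - (kerP.lev x : ℝ) * hD x) := by
    unfold Ker.L
    rw [kerP.P_add, kerP.P_smul]
    ring
  rw [hlin, L_vf hx]
  by_cases hD1 : isD x.1
  · have hnl : x.1.nl = 0 := hD1.2
    have hdg : x.1.dg = 2 := by unfold dg; rw [hD1.1]
    have hP := G1b_P_hD hx hD1
    have hlev : (kerP.lev x : ℝ) = (x.1.size : ℝ) + x.2.size := by
      show ((x.1.size + x.2.size : ℕ) : ℝ) = _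
      push_cast; rfl
    have hloc : loc th x.1.nl x.1.dg = 0 := by
      unfold loc
      rw [hnl]
      simp
    have hth : th (x.1.nl + 1) (x.1.dg + 1) - th x.1.nl x.1.dg = 3 / 25 := by
      rw [hnl, hdg]
      simp [th]
      norm_num
    rw [hloc, hth, hlev]
    have hh2 := hD_le x
    have hh0 := hD_nonneg x
    have hr : hD x / 2 ≤ rin x := by
      rw [G1b_hD_pos hD1]
      have hA : G1b_d x.2 / 2 ≤ x.2.upr := by
        unfold G1b_d
        split_ifs with hA
        · unfold upr; rw [hA.1]; norm_num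
        · have := upr_nonneg x.2; simpa using this
      have hk : G1b_d (kid x.1 0) / 2 ≤
          ∑ i ∈ range x.1.nk, (if (kid x.1 i).nk = 0 then 0 else (kid x.1 i).upr) := by
        rw [hD1.1]
        simp only [Finset.range_one, Finset.sum_singleton]
        unfold G1b_d
        split_ifs with ha hb hb
        · exact absurd hb (by rw [ha.1]; norm_num)
        · unfold upr; rw [ha.1]; norm_num
        · norm_num
        · have := upr_nonneg (kid x.1 0); simpa using this
      unfold rin
      linarith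
    have key : α * (hD x * ((x.1.size : ℝ) + x.2.size - 1 - rin x)) ≤ α * kerP.P hD x :=
      mul_le_mul_of_nonneg_left hP h0
    have k2 : 0 ≤ 3 / 25 - α * hD x := by
      have : α * hD x ≤ 3 / 50 * 2 := mul_le_mul h1 hh2 hh0 (by norm_num)
      linarith
    have k3 := mul_le_mul_of_nonneg_right hr k2
    have k4 : 0 ≤ α * hD x * (2 - hD x) := mul_nonneg (mul_nonneg h0 hh0) (by linarith)
    nlinarith
  · rw [G1b_hD_neg hD1]
    have hP : 0 ≤ kerP.P hD x := kerP.P_nonneg fun y _ => hD_nonneg y
    have hd := two_le_dg hx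
    have hl := nl_add_one_le (x := x)
    have h3 := th_sub hl hd
    have h4 := th_mono hl hd
    have h5 : 0 ≤ rin x * (th (x.1.nl + 1) (x.1.dg + 1) - th x.1.nl x.1.dg) :=
      mul_nonneg (rin_nonneg x) (by linarith)
    have h6 : 0 ≤ (x.1.nl : ℝ) / x.1.dg * th 1 2 :=
      mul_nonneg (by positivity) (th_nonneg 1 2)
    have h7 : 0 ≤ α * kerP.P hD x := mul_nonneg h0 hP
    unfold loc
    simp only [mul_zero, sub_zero]
    linarith

end RFT
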