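import Pool.Agent.H13.RF.G1b
import Pool.Agent.H13.RF.E1

/-! Module G1c: every whole tree has many useful vertices after one unit of time. -/

namespace RFT

open Finset RT

private theorem G1c_th_abs (l d : ℕ) (h : l + 1 ≤ d) : |th l d| ≤ 1 := by
  rw [abs_of_nonneg (th_nonneg l d)]
  exact th_le_one l d h

private theorem G1c_Gr_th : kerP.Gr (vf th) := Gr_vf G1c_th_abs

private theorem G1c_Gr_hD : kerP.Gr hD :=
  Ker.Gr.of_bdd kerP (M := 2) fun x => by
    rw [abs_of_nonneg (hD_nonneg x)]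
    exact hD_le x

/-- subsolution `th + α(t) hD` with `α' = 3/50 - 2 α`, `α(t) = (3/100)(1 - exp(-2t))` -/
theorem yy_th_one {x : RT Unit × RT Unit} (hx : x ∈ C2) :
    vf th x + 1 / 50 * hD x ≤ kerP.sg 1 (vf th) x := by
  have main := kerP.sub_le_sg closed_C2 G1c_Gr_th
    (b := fun t x => 1 * vf th x + (3 / 100 * (1 - Real.exp (-(2 * t)))) * hD x)
    (b' := fun t x => (3 / 50 * Real.exp (-(2 * t))) * hD x) ?_ ?_ ?_ ?_ ?_ x hx 1 zero_le_one
  · have h1 : 1 / 50 ≤ 3 / 100 * (1 - Real.exp (-(2 * 1))) := by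
      have h2 : Real.exp (-(2 * 1)) ≤ 1 / 3 := by
        have h3 : (3 : ℝ) ≤ Real.exp (2 * 1) := by
          have := Real.add_one_le_exp (2 * 1 : ℝ)
          linarith
        rw [Real.exp_neg, ← one_div]
        exact one_div_le_one_div_of_le (by norm_num) h3
      linarith
    have h4 := mul_le_mul_of_nonneg_right h1 (hD_nonneg x)
    have h5 : 1 * vf th x + (3 / 100 * (1 - Real.exp (-(2 * 1)))) * hD x ≤ kerP.sg 1 (vf th) x := main
    linarith
  · intro y _
    show 1 * vf th y + (3 / 100 * (1 - Real.exp (-(2 * 0)))) * hD y ≤ vf th y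
    simp
  · intro y _
    exact Continuous.continuousOn (by fun_prop)
  · intro y _ t _
    show HasDerivAt (fun s => 1 * vf th y + (3 / 100 * (1 - Real.exp (-(2 * s)))) * hD y)
      ((3 / 50 * Real.exp (-(2 * t))) * hD y) t
    have h1 : HasDerivAt (fun s : ℝ => Real.exp (-(2 * s))) (Real.exp (-(2 * t)) * (-(2 * 1))) t :=
      (((hasDerivAt_id t).const_mul 2).neg).exp
    have h2 := (((h1.const_sub 1).const_mul (3 / 100)).mul_const (hD y)).const_add (1 * vf th y)
    refine h2.congr_deriv ?_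
    ring
  · intro y hy t ht
    have he0 := Real.exp_pos (-(2 * t))
    have he1 : Real.exp (-(2 * t)) ≤ 1 := Real.exp_le_one_iff.2 (by linarith)
    have h1 := L_th_hD (α := 3 / 100 * (1 - Real.exp (-(2 * t)))) (by nlinarith) (by nlinarith) hy
    show (3 / 50 * Real.exp (-(2 * t))) * hD y ≤
      kerP.L (fun z => 1 * vf th z + (3 / 100 * (1 - Real.exp (-(2 * t)))) * hD z) y
    have h2 : (fun z : RT Unit × RT Unit => 1 * vf th z + (3 / 100 * (1 - Real.exp (-(2 * t)))) * hD z) =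
        fun z => vf th z + (3 / 100 * (1 - Real.exp (-(2 * t)))) * hD z := by
      funext z; rw [one_mul]
    rw [h2]
    refine le_trans (le_of_eq ?_) h1
    ring
  · exact Ker.TGr.add kerP
      (Ker.TGr.mul kerP G1c_Gr_th (a := fun _ => 1) continuousOn_const)
      (Ker.TGr.mul kerP G1c_Gr_hD (a := fun t => 3 / 100 * (1 - Real.exp (-(2 * t))))
        (Continuous.continuousOn (by fun_prop)))

private theorem G1c_half {B A : RT Unit} (hB : B.nk ≠ 0) (hA : A.nk ≠ 0) :
    1 / 400 * pop B ≤ Ssum (kerP.sg 1 (vf th)) B A := by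
  have h1 : Ssum (fun x => vf th x + 1 / 50 * hD x) B A ≤ Ssum (kerP.sg 1 (vf th)) B A :=
    Ssum_mono (fun x hx => yy_th_one hx) B hA
  have h2 : Ssum (fun x => vf th x + 1 / 50 * hD x) B A = asum th B + 1 / 50 * Ssum hD B A := by
    rw [Ssum_add, Ssum_vf, Ssum_smul]
  have h3 := prs_le_Ssum B A
  have h4 := prs_ge B hB
  have h5 : asum (fun l d => 8 / 25 * ((l : ℝ) / d)) B ≤ asum th B :=
    asum_mono (fun l d h hd => le_th h hd) B
  rw [asum_smul] at h5
  have h6 : 0 ≤ asum (fun l d => (l : ℝ) / d) B := by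
    have h7 : asum (fun _ _ => (0 : ℝ)) B ≤ asum (fun l d => (l : ℝ) / d) B :=
      asum_mono (fun l d _ _ => by positivity) B
    have h8 : asum (fun _ _ => (0 : ℝ)) B = 0 := by
      have := asum_smul 0 (fun _ _ => (1 : ℝ)) B
      simpa using this
    linarith
  have h9 : (0 : ℝ) ≤ (if isD B then (1 / 4 : ℝ) else 3 / 8) := by split_ifs <;> norm_num
  linarith

/-- hence for whole trees of `C2`: `∑ (kerP.sg 1 th) ≥ (1/400) N` (`le_th`) -/
theorem Tsum_th_one {x : RT Unit × RT Unit} (hx : x ∈ C2) :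
    1 / 400 * (pop x.1 + pop x.2) ≤ Tsum (kerP.sg 1 (vf th)) x := by
  have h1 := G1c_half (B := x.1) (A := x.2) hx.1 hx.2
  have h2 := G1c_half (B := x.2) (A := x.1) hx.2 hx.1
  unfold Tsum
  linarith

end RFT
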