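import Pool.Agent.H13.RF.B7a

/-! Module G1a: combinatorial inequality. -/

namespace RFT

open Finset RT

/-- the root (with non-leaf parent) has no leaf neighbour and degree two -/
def isD (B : RT Unit) : Prop := B.nk = 1 ∧ B.nl = 0

instance (B : RT Unit) : Decidable (isD B) := by unfold isD; infer_instance

/-- number of edges inside `B` between two `isD` vertices (the parent of the root is a non-leaf) -/
noncomputable def prs : RT Unit → ℝ
  | .node a n K => ∑ i, (prs (K i) + if isD (.node a n K) ∧ isD (K i) then 1 else 0)

/-- induction with surplus `1/4` if `isD B`, `3/8` otherwise, for non-leaf `B` -/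
theorem prs_ge (B : RT Unit) (hB : B.nk ≠ 0) :
    pop B / 8 + (if isD B then 1 / 4 else 3 / 8) ≤ asum (fun l d => (l : ℝ) / d) B + prs B := by
  induction B with
  | node a n K ih =>
    have hn : n ≠ 0 := hB
    have hpop : pop (node a n K) = 1 + ∑ i, pop (K i) := by
      unfold pop; rw [asum, if_neg hn]
    have hasum : asum (fun l d => (l : ℝ) / d) (node a n K) =
        (nl (node a n K) : ℝ) / ((n + 1 : ℕ) : ℝ) +
          ∑ i, asum (fun l d => (l : ℝ) / d) (K i) := by
      rw [asum, if_neg hn]
    have hprs : prs (node a n K) =
        ∑ i, prs (K i) + ∑ i, (if isD (node a n K) ∧ isD (K i) then (1 : ℝ) else 0) := by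
      rw [prs, Finset.sum_add_distrib]
    have hnl : (nl (node a n K) : ℝ) = ∑ i, (if (K i).nk = 0 then (1 : ℝ) else 0) := by
      rw [nl]; push_cast; rfl
    have hnlle : nl (node a n K) ≤ n := by
      rw [nl]
      calc ∑ i, (if (K i).nk = 0 then 1 else 0) ≤ ∑ _i : Fin n, 1 :=
            Finset.sum_le_sum (fun i _ => by split_ifs <;> omega)
        _ = n := by simp
    have hleaf : ∀ B : RT Unit, B.nk = 0 → pop B = 0 ∧
        asum (fun l d => (l : ℝ) / d) B = 0 ∧ prs B = 0 := by
      intro B hB0
      cases B with
      | node a n K =>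
        have : n = 0 := hB0
        subst this
        refine ⟨by unfold pop; rw [asum, if_pos rfl], by rw [asum, if_pos rfl], ?_⟩
        rw [prs]; simp
    have hkid : ∀ i, pop (K i) / 8 + (if (K i).nk = 0 then (0 : ℝ) else 1 / 4) ≤
        asum (fun l d => (l : ℝ) / d) (K i) + prs (K i) := by
      intro i
      by_cases h0 : (K i).nk = 0
      · obtain ⟨h1, h2, h3⟩ := hleaf _ h0
        rw [if_pos h0, h1, h2, h3]; norm_num
      · rw [if_neg h0]
        have := ih i h0
        split_ifs at this <;> linarith
    by_cases hD : isD (node a n K)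
    · have hn1 : n = 1 := hD.1
      have hl0 : nl (node a n K) = 0 := hD.2
      subst hn1
      rw [hpop, hasum, hprs, hl0, if_pos hD]
      simp only [Fin.sum_univ_one, Fin.isValue]
      have hk0 : (K 0).nk ≠ 0 := by
        intro h0
        rw [nl] at hl0
        simp [h0] at hl0
      have := ih 0 hk0
      by_cases hD0 : isD (K 0)
      · rw [if_pos ⟨hD, hD0⟩]
        rw [if_pos hD0] at this
        push_cast
        linarith
      · rw [if_neg (fun h => hD0 h.2)]
        rw [if_neg hD0] at this
        push_cast
        linarith
    · rw [if_neg hD, hpop, hasum, hprs]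
      have hz : 0 ≤ ∑ i, (if isD (node a n K) ∧ isD (K i) then (1 : ℝ) else 0) :=
        Finset.sum_nonneg (fun i _ => by split_ifs <;> norm_num)
      have hs := Finset.sum_le_sum (fun i (_ : i ∈ (Finset.univ : Finset (Fin n))) => hkid i)
      rw [Finset.sum_add_distrib, Finset.sum_add_distrib, ← Finset.sum_div] at hs
      have hc : ∑ i, (if (K i).nk = 0 then (0 : ℝ) else 1 / 4) =
          ((n : ℝ) - (nl (node a n K) : ℝ)) / 4 := by
        rw [hnl]
        have : ∀ i, (if (K i).nk = 0 then (0 : ℝ) else 1 / 4) =
            1 / 4 - (if (K i).nk = 0 then (1 : ℝ) else 0) / 4 := by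
          intro i; split_ifs <;> norm_num
        have h8 : ∑ i, (if (K i).nk = 0 then (1 : ℝ) else 0) / 4 =
            (∑ i, (if (K i).nk = 0 then (1 : ℝ) else 0)) / 4 := (Finset.sum_div _ _ _).symm
        rw [Finset.sum_congr rfl (fun i _ => this i), Finset.sum_sub_distrib, h8,
          Finset.sum_const, Finset.card_univ, Fintype.card_fin, nsmul_eq_mul]
        ring
      rw [hc] at hs
      have key : 1 / 2 ≤ (nl (node a n K) : ℝ) / ((n + 1 : ℕ) : ℝ) +
          ((n : ℝ) - (nl (node a n K) : ℝ)) / 4 := by
        have hnd : ¬ (n = 1 ∧ nl (node a n K) = 0) := hD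
        generalize nl (node a n K) = l at *
        have hl0 : (0 : ℝ) ≤ (l : ℝ) / ((n + 1 : ℕ) : ℝ) := by positivity
        rcases Nat.lt_or_ge (l + 1) n with h2 | h2
        · have : (l : ℝ) + 2 ≤ n := by exact_mod_cast h2
          linarith
        · rcases Nat.lt_or_ge l n with h3 | h3
          · have h4 : n = l + 1 := by omega
            subst h4
            have h5 : 1 ≤ l := by
              by_contra hcon
              exact hnd ⟨by omega, by omega⟩
            have h6 : (1 : ℝ) ≤ l := by exact_mod_cast h5
            have h7 : (1 : ℝ) / 3 ≤ (l : ℝ) / ((l + 1 + 1 : ℕ) : ℝ) := by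
              rw [div_le_div_iff₀ (by norm_num) (by positivity)]
              push_cast
              linarith
            push_cast at h7 ⊢
            linarith
          · have h4 : n = l := by omega
            subst h4
            have h5 : 1 ≤ n := Nat.one_le_iff_ne_zero.2 hn
            have h6 : (1 : ℝ) ≤ n := by exact_mod_cast h5
            have h7 : (1 : ℝ) / 2 ≤ (n : ℝ) / ((n + 1 : ℕ) : ℝ) := by
              rw [div_le_div_iff₀ (by norm_num) (by positivity)]
              push_cast
              linarith
            linarith
      linarith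

/-- number of `isD` neighbours of an `isD` vertex -/
noncomputable def hD (x : RT Unit × RT Unit) : ℝ :=
  if isD x.1 then ((if isD (kid x.1 0) then 1 else 0) + (if isD x.2 then 1 else 0)) else 0

theorem prs_le_Ssum (B A : RT Unit) : prs B ≤ Ssum hD B A := by
  induction B generalizing A with
  | node a n K ih =>
    rw [prs, Ssum]
    by_cases hn : n = 0
    · subst hn; simp
    · rw [if_neg hn, Finset.sum_add_distrib, add_comm]
      apply add_le_add
      · unfold hD
        by_cases hD' : isD (node a n K)
        · have hn1 : n = 1 := hD'.1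
          subst hn1
          simp only [Fin.sum_univ_one, Fin.isValue]
          have hk : kid (node a 1 K) 0 = K 0 := by
            simp [kid]
          rw [if_pos hD', hk]
          have h2 : (0 : ℝ) ≤ (if isD A then 1 else 0) := by split_ifs <;> norm_num
          by_cases h0 : isD (K 0)
          · rw [if_pos ⟨hD', h0⟩, if_pos h0]; linarith
          · rw [if_neg (fun h => h0 h.2), if_neg h0]; linarith
        · rw [if_neg hD']
          apply le_of_eq
          apply Finset.sum_eq_zero
          intro i _
          rw [if_neg (fun h => hD' h.1)]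
      · exact Finset.sum_le_sum (fun i _ => ih i _)

theorem hD_nonneg (x : RT Unit × RT Unit) : 0 ≤ hD x := by
  unfold hD
  split_ifs <;> norm_num

theorem hD_le (x : RT Unit × RT Unit) : hD x ≤ 2 := by
  unfold hD
  split_ifs <;> norm_num

end RFT
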