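import Pool.Agent.H13.RF.G2a

/-! Module G2b: whole trees, growth and ratios. -/

namespace RFT

open Finset RT

variable {μ c C : ℝ}

private theorem G2b_inv_sg (g : ℕ → ℝ) (t : ℝ) : Inv (kerT.sg t (wsum g)) :=
  (Inv.wsum g).sg t

private theorem G2b_inv_wpop : Inv wpop := Inv.wsum (fun _ => 1)

private theorem G2b_inv_sgw (t : ℝ) : Inv (kerT.sg t wpop) := G2b_inv_wpop.sg t

private theorem G2b_sg_wpop {t : ℝ} (ht : 0 ≤ t) {x : RT Unit × RT Unit} (hx : x ∈ C2) :
    kerT.sg t wpop x = Tsum (y1 t) x := by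
  have h := sg_wsum_eq (g := fun _ => 1) (M := 1) (fun d => by simp) ht hx
  exact h

private theorem G2b_const (K : ℝ) (B A : RT Unit) :
    Ssum (fun _ => K) B A = K * pop B := by
  have h1 : Ssum (fun _ => K) B A = Ssum (fun x => K * vf (fun _ _ => 1) x) B A := by
    congr 1
    funext x
    simp [vf]
  rw [h1, Ssum_smul, Ssum_vf]
  rfl

/-- sums over whole trees are monotone -/
private theorem G2b_Tsum_mono {h h' : RT Unit × RT Unit → ℝ} (hh : ∀ x ∈ C2, h x ≤ h' x)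
    {x : RT Unit × RT Unit} (hx : x ∈ C2) : Tsum h x ≤ Tsum h' x :=
  add_le_add (Ssum_mono hh x.1 hx.2) (Ssum_mono hh x.2 hx.1)

private theorem G2b_Tsum_const (K : ℝ) (x : RT Unit × RT Unit) :
    Tsum (fun _ => K) x = K * wpop x := by
  unfold Tsum
  rw [G2b_const, G2b_const, wpop_eq]
  ring

private theorem G2b_Tsum_smul (r : ℝ) (h : RT Unit × RT Unit → ℝ) (x : RT Unit × RT Unit) :
    Tsum (fun y => r * h y) x = r * Tsum h x := by
  unfold Tsum
  rw [Ssum_smul, Ssum_smul]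
  ring

private theorem G2b_Tsum_sub (h h' : RT Unit × RT Unit → ℝ) (r : ℝ) (x : RT Unit × RT Unit) :
    Tsum (fun y => h y - r * h' y) x = Tsum h x - r * Tsum h' x := by
  have h1 : (fun y => h y - r * h' y) = (fun y => h y + (-r) * h' y) := by
    funext y; ring
  unfold Tsum
  rw [h1, Ssum_add, Ssum_add, Ssum_smul, Ssum_smul]
  ring

/-- upper bound (`y1_hi`) -/
theorem whole_hi (hb : Bd μ c C) {t : ℝ} (ht : 0 ≤ t) {x : RT Unit × RT Unit} (hx : 2 ≤ wpop x) :
    kerT.sg t wpop x ≤ (1 + C / μ) * Real.exp (μ * t) * wpop x := by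
  obtain ⟨y, hy, hinv⟩ := exists_C2 x hx
  rw [← hinv _ (G2b_inv_sgw t), ← hinv _ G2b_inv_wpop]
  rw [G2b_sg_wpop ht hy, ← G2b_Tsum_const]
  exact G2b_Tsum_mono (fun z hz => y1_hi hb ht hz) hy

/-- lower bound: `Tsum (yy 1 (1+s)) = Tsum (sg 1 (yy 1 s)) ≥ (4c/25) exp(μs) Tsum (sg 1 th)`, `Tsum_th_one` -/
theorem whole_lo (hb : Bd μ c C) : ∃ c' : ℝ, 0 < c' ∧ ∀ t : ℝ, 0 ≤ t → ∀ x : RT Unit × RT Unit,
    2 ≤ wpop x → c' * Real.exp (μ * t) * wpop x ≤ kerT.sg t wpop x := by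
  have hmu : 0 < μ := lt_of_lt_of_le (by norm_num) hb.mu_ge
  have hc := hb.c_pos
  refine ⟨min (c / 2500 * Real.exp (-μ)) (Real.exp (-μ)), by positivity, fun t ht x hx => ?_⟩
  have hw : 0 ≤ wpop x := by linarith
  by_cases ht1 : t < 1
  · have h1 := wpop_le_sg ht x
    refine le_trans ?_ h1
    have h2 : min (c / 2500 * Real.exp (-μ)) (Real.exp (-μ)) * Real.exp (μ * t) ≤ 1 := by
      calc min (c / 2500 * Real.exp (-μ)) (Real.exp (-μ)) * Real.exp (μ * t)
          ≤ Real.exp (-μ) * Real.exp (μ * t) :=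
            mul_le_mul_of_nonneg_right (min_le_right _ _) (Real.exp_pos _).le
        _ = Real.exp (-μ + μ * t) := (Real.exp_add _ _).symm
        _ ≤ 1 := Real.exp_le_one_iff.mpr (by nlinarith)
    nlinarith
  · push Not at ht1
    set s := t - 1 with hs
    have hs0 : 0 ≤ s := by linarith
    obtain ⟨y, hy, hinv⟩ := exists_C2 x hx
    rw [← hinv _ (G2b_inv_sgw t), ← hinv _ G2b_inv_wpop]
    have hw' : 0 ≤ wpop y := by rw [hinv _ G2b_inv_wpop]; exact hw
    rw [G2b_sg_wpop ht hy]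
    have hGr1 : kerP.Gr (vf (fun _ _ => (1 : ℝ))) := Gr_vf (M := 1) (fun l d _ => by simp)
    have hGrth : kerP.Gr (vf th) := by
      refine ⟨1, 0, fun z => ?_⟩
      obtain ⟨h1, h2⟩ := abs_vf_th z
      rw [abs_of_nonneg h1]
      simpa [Ker.V] using h2
    have hstep : ∀ z ∈ C2, 4 / 25 * c * Real.exp (μ * s) * kerP.sg 1 (vf th) z ≤ y1 t z := by
      intro z hz
      have e1 : y1 t z = kerP.sg 1 (kerP.sg s (vf (fun _ _ => 1))) z := by
        have := kerP.sg_add hGr1 (t := 1) (s := s) zero_le_one hs0 z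
        rw [← this]
        unfold y1 yy
        congr 1
        rw [hs]; ring
      rw [e1, ← kerP.sg_smul]
      apply kerP.sg_mono closed_C2 _ (hGr1.sg (k := kerP) hs0) _ zero_le_one hz
      · obtain ⟨K, p, hK⟩ := hGrth
        refine ⟨|4 / 25 * c * Real.exp (μ * s)| * K, p, fun w => ?_⟩
        have h5 : |4 / 25 * c * Real.exp (μ * s) * vf th w| =
            |4 / 25 * c * Real.exp (μ * s)| * |vf th w| := abs_mul _ _
        rw [h5]
        refine (mul_le_mul_of_nonneg_left (hK w) (abs_nonneg _)).trans (le_of_eq ?_)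
        ring
      · intro w hw
        have := y1_lo hb hs0 hw
        unfold y1 yy at this
        calc 4 / 25 * c * Real.exp (μ * s) * vf th w = 4 / 25 * c * vf th w * Real.exp (μ * s) := by
              ring
          _ ≤ _ := this
    have h1 := G2b_Tsum_mono hstep hy
    refine le_trans ?_ h1
    rw [G2b_Tsum_smul]
    have h2 := Tsum_th_one hy
    rw [← wpop_eq] at h2
    have h3 : Real.exp (μ * t) * Real.exp (-μ) = Real.exp (μ * s) := by
      rw [← Real.exp_add]; congr 1; rw [hs]; ring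
    calc min (c / 2500 * Real.exp (-μ)) (Real.exp (-μ)) * Real.exp (μ * t) * wpop y
        ≤ c / 2500 * Real.exp (-μ) * Real.exp (μ * t) * wpop y :=
          mul_le_mul_of_nonneg_right (mul_le_mul_of_nonneg_right (min_le_left _ _)
            (Real.exp_pos _).le) hw'
      _ = 4 / 25 * c * Real.exp (μ * s) * (1 / 400 * wpop y) := by
          rw [← h3]; ring
      _ ≤ 4 / 25 * c * Real.exp (μ * s) * Tsum (kerP.sg 1 (vf th)) y :=
          mul_le_mul_of_nonneg_left h2 (by positivity)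

theorem whole_ratio (hb : Bd μ c C) {g : ℕ → ℝ} {M p : ℝ} (hg : ∀ d, |g d| ≤ M)
    (hp : IsRatio μ (fun _ d => g d) p) : ∀ ε : ℝ, 0 < ε → ∃ T : ℝ, 0 ≤ T ∧ ∀ t, T ≤ t →
    ∀ x : RT Unit × RT Unit, 2 ≤ wpop x →
      |kerT.sg t (wsum g) x - p * kerT.sg t wpop x| ≤ ε * Real.exp (μ * t) * wpop x := by
  intro ε hε
  obtain ⟨T, hT0, hT⟩ := hp ε hε
  refine ⟨T, hT0, fun t ht x hx => ?_⟩
  have ht0 : 0 ≤ t := hT0.trans ht
  obtain ⟨y, hy, hinv⟩ := exists_C2 x hx
  rw [← hinv _ (G2b_inv_sg g t), ← hinv _ (G2b_inv_sgw t), ← hinv _ G2b_inv_wpop]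
  rw [G2b_sg_wpop ht0 hy, sg_wsum_eq hg ht0 hy, ← G2b_Tsum_sub, ← G2b_Tsum_const, abs_le]
  constructor
  · have h1 : -Tsum (fun _ => ε * Real.exp (μ * t)) y = Tsum (fun _ => -(ε * Real.exp (μ * t))) y := by
      rw [G2b_Tsum_const, G2b_Tsum_const]; ring
    rw [h1]
    exact G2b_Tsum_mono (fun z hz => (abs_le.mp (hT t ht z hz)).1) hy
  · exact G2b_Tsum_mono (fun z hz => (abs_le.mp (hT t ht z hz)).2) hy

end RFT
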