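import Pool.Agent.H13.RF.G1
import Pool.Agent.H13.RF.F3

/-! Module G2a: whole trees, elementary facts. -/

namespace RFT

open Finset RT

variable {μ c C : ℝ}

theorem wpop_eq (x : RT Unit × RT Unit) : wpop x = pop x.1 + pop x.2 := rfl

theorem wpop_le_lev (x : RT Unit × RT Unit) : wpop x ≤ kerT.lev x := by
  have h1 := pop_le_size x.1
  have h2 := pop_le_size x.2
  have h3 : (kerT.lev x : ℝ) = x.1.size + x.2.size := by
    show ((x.1.size + x.2.size : ℕ) : ℝ) = _
    push_cast
    rfl
  rw [wpop_eq, h3]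
  linarith

theorem abs_wsum_le {g : ℕ → ℝ} {M : ℝ} (hg : ∀ d, |g d| ≤ M) (x : RT Unit × RT Unit) :
    |wsum g x| ≤ M * wpop x := by
  have h1 := abs_asum_le (g := fun _ d => g d) (M := M) (fun _ d _ => hg d) x.1
  have h2 := abs_asum_le (g := fun _ d => g d) (M := M) (fun _ d _ => hg d) x.2
  rw [wpop_eq, mul_add]
  exact (abs_add_le _ _).trans (add_le_add h1 h2)

theorem Gr_wsum {g : ℕ → ℝ} {M : ℝ} (hg : ∀ d, |g d| ≤ M) : kerT.Gr (wsum g) := by
  have hM : 0 ≤ M := (abs_nonneg _).trans (hg 0)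
  refine Ker.Gr.of_lin kerT (M := M) fun x => ?_
  refine (abs_wsum_le hg x).trans (mul_le_mul_of_nonneg_left ?_ hM)
  have := wpop_le_lev x
  linarith

private theorem G2a_iter_swap (f : RT Unit × RT Unit → ℝ) (j : ℕ) (x : RT Unit × RT Unit) :
    (kerT.P^[j] (fun y => f (y.2, y.1))) x = (kerT.P^[j] f) (x.2, x.1) := by
  induction j generalizing x with
  | zero => rfl
  | succ j ih =>
    rw [Function.iterate_succ_apply', Function.iterate_succ_apply']
    have h1 : (kerT.P^[j] fun y => f (y.2, y.1)) = fun y => (kerT.P^[j] f) (y.2, y.1) :=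
      funext fun y => ih y
    rw [h1]
    exact pairP_swap _ x

private theorem G2a_sg_swap (f : RT Unit × RT Unit → ℝ) (t : ℝ) (x : RT Unit × RT Unit) :
    kerT.sg t (fun y => f (y.2, y.1)) x = kerT.sg t f (x.2, x.1) := by
  unfold Ker.sg
  have h1 : kerT.lev (x.2, x.1) = kerT.lev x := by
    show x.2.size + x.1.size = x.1.size + x.2.size
    omega
  rw [h1]
  congr 1
  exact tsum_congr fun j => by rw [G2a_iter_swap]

private theorem G2a_gr_fst {g : ℕ → ℕ → ℝ} {M : ℝ} (hg : ∀ l d, |g l d| ≤ M) :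
    kerT.Gr (fun x => asum g x.1) := by
  have hM : 0 ≤ M := (abs_nonneg _).trans (hg 0 0)
  refine Ker.Gr.of_lin kerT (M := M) fun x => ?_
  refine (abs_asum_le (fun l d _ => hg l d) x.1).trans (mul_le_mul_of_nonneg_left ?_ hM)
  have h1 := wpop_le_lev x
  rw [wpop_eq] at h1
  have h2 := pop_nonneg x.2
  linarith

private theorem G2a_gr_snd {g : ℕ → ℕ → ℝ} {M : ℝ} (hg : ∀ l d, |g l d| ≤ M) :
    kerT.Gr (fun x => asum g x.2) := by
  have hM : 0 ≤ M := (abs_nonneg _).trans (hg 0 0)
  refine Ker.Gr.of_lin kerT (M := M) fun x => ?_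
  refine (abs_asum_le (fun l d _ => hg l d) x.2).trans (mul_le_mul_of_nonneg_left ?_ hM)
  have h1 := wpop_le_lev x
  rw [wpop_eq] at h1
  have h2 := pop_nonneg x.1
  linarith

/-- `sg_asum_eq` for both halves (`pairP_swap`) -/
theorem sg_wsum_eq {g : ℕ → ℝ} {M : ℝ} (hg : ∀ d, |g d| ≤ M) {t : ℝ} (ht : 0 ≤ t)
    {x : RT Unit × RT Unit} (hx : x ∈ C2) :
    kerT.sg t (wsum g) x = Tsum (yy (fun _ d => g d) t) x := by
  have hg' : ∀ l d : ℕ, |(fun (_ : ℕ) d => g d) l d| ≤ M := fun _ d => hg d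
  have h1 := kerT.sg_add_fun (G2a_gr_fst hg') (G2a_gr_snd hg') ht x
  have h2 : kerT.sg t (fun y => asum (fun _ d => g d) y.1) x =
      Ssum (kerP.sg t (vf (fun _ d => g d))) x.1 x.2 := sg_asum_eq hg' ht hx.1 hx.2
  have h3 : kerT.sg t (fun y => asum (fun _ d => g d) y.2) x =
      Ssum (kerP.sg t (vf (fun _ d => g d))) x.2 x.1 := by
    have h4 := G2a_sg_swap (fun y => asum (fun _ d => g d) y.1) t x
    rw [h4]
    exact sg_asum_eq hg' ht hx.2 hx.1
  show kerT.sg t (fun y => asum (fun _ d => g d) y.1 + asum (fun _ d => g d) y.2) x = _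
  rw [h1, h2, h3]
  rfl

private theorem G2a_gen_leaf {B : RT Unit} (hB : B.nk = 0) :
    gen pop B = asum (fun l d => (l : ℝ) / d) B := by
  rw [asum_of_nk_zero _ hB]
  unfold gen
  rw [Q_nk_zero hB, size_eq_one_of_nk hB]
  unfold upr
  rw [hB]
  simp

private theorem G2a_gen (B : RT Unit) : gen pop B = asum (fun l d => (l : ℝ) / d) B := by
  by_cases hB : B.nk = 0
  · exact G2a_gen_leaf hB
  · exact gen_pop B hB

private theorem G2a_pop_add (B : RT Unit) :
    pop (add B) - pop B = if B.nk = 0 then 1 else 0 := by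
  by_cases hB : B.nk = 0
  · rw [if_pos hB]
    have h1 : pop (add B) = 1 := by
      unfold pop
      rw [← msg_eq_add]
      exact B4_asum_msg_leaf _ hB
    have h2 : pop B = 0 := asum_of_nk_zero _ hB
    rw [h1, h2, sub_zero]
  · rw [if_neg hB]
    unfold pop
    rw [asum_add _ hB]
    ring

private theorem G2a_Q_shift (B : RT Unit) (r : ℝ) (u : RT Unit → ℝ) :
    Q B (fun c => u c + r) = Q B u + r * ((B.size : ℝ) - B.upr) := by
  have h := B2_Q_lin B r u
  have h2 : (fun c => u c + r) = fun c => r + u c := by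
    funext c
    ring
  rw [h2, h]
  ring

/-- the generator of the number of non-leaves of a whole tree -/
private theorem G2a_L (x : RT Unit × RT Unit) : kerT.L wpop x =
    asum (fun l d => (l : ℝ) / d) x.1 + asum (fun l d => (l : ℝ) / d) x.2 +
      (if x.2.nk = 0 then x.1.upr else 0) + (if x.1.nk = 0 then x.2.upr else 0) := by
  obtain ⟨B, A⟩ := x
  have h0 : kerT.L wpop (B, A) = Q B (fun c => pop c + pop A) + Q A (fun c => pop B + pop c) +
      upr B * (pop B + pop (add A)) + upr A * (pop (msg B) + pop A) -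
        ((B.size + A.size : ℕ) : ℝ) * (pop B + pop A) := rfl
  have h1 := G2a_Q_shift B (pop A) pop
  have h2 := B2_Q_lin A (pop B) pop
  have h3 := G2a_gen B
  have h4 := G2a_gen A
  unfold gen at h3 h4
  have h5 := G2a_pop_add A
  have h6 := G2a_pop_add B
  rw [h0, h1, h2, msg_eq_add, ← h3, ← h4]
  have h7 : (if A.nk = 0 then B.upr else 0) = B.upr * (if A.nk = 0 then 1 else 0) := by
    split_ifs <;> simp
  have h8 : (if B.nk = 0 then A.upr else 0) = A.upr * (if B.nk = 0 then 1 else 0) := by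
    split_ifs <;> simp
  show _ = Q B pop - ((B.size : ℝ) - B.upr) * pop B + (Q A pop - ((A.size : ℝ) - A.upr) * pop A) +
    (if A.nk = 0 then B.upr else 0) + (if B.nk = 0 then A.upr else 0)
  rw [h7, h8, ← h5, ← h6]
  push_cast
  ring

private theorem G2a_asum_nonneg (B : RT Unit) : 0 ≤ asum (fun l d => (l : ℝ) / d) B := by
  have h := asum_mono (α := Unit) (g := fun _ _ => 0) (h := fun l d => (l : ℝ) / d)
    (fun l d _ _ => by positivity) B
  have h2 := asum_smul (α := Unit) 0 (fun _ _ => (1 : ℝ)) B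
  simp only [zero_mul] at h2
  rwa [h2] at h

private theorem G2a_asum_le (B : RT Unit) : asum (fun l d => (l : ℝ) / d) B ≤ pop B := by
  refine asum_mono (α := Unit) (fun l d h1 h2 => ?_) B
  rw [div_le_one (by positivity)]
  exact_mod_cast (by omega : l ≤ d)

private theorem G2a_asum_le' {B : RT Unit} (hB : B.nk ≠ 0) :
    asum (fun l d => (l : ℝ) / d) B + B.upr ≤ pop B := by
  cases B with
  | node a n K =>
    have h1 := nl_le_nk (node a n K)
    rw [nk_node] at hB h1
    unfold pop
    rw [asum_node _ a n K hB, asum_node _ a n K hB]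
    have h2 : ∑ i, asum (fun l d => (l : ℝ) / d) (K i) ≤ ∑ i, asum (fun _ _ => 1) (K i) :=
      Finset.sum_le_sum fun i _ => G2a_asum_le (K i)
    have h3 : (nl (node a n K) : ℝ) / ((n + 1 : ℕ) : ℝ) + (node a n K).upr ≤ 1 := by
      unfold upr
      rw [nk_node]
      push_cast
      rw [← add_div, div_le_one (by positivity)]
      have : (nl (node a n K) : ℝ) ≤ n := by exact_mod_cast h1
      linarith
    linarith

private theorem G2a_half {B : RT Unit} (hB : B.nk ≠ 0) :
    1 / 2 ≤ asum (fun l d => (l : ℝ) / d) B := by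
  induction B with
  | node a n K ih =>
    rw [nk_node] at hB
    rw [asum_node _ a n K hB]
    have h0 : ∀ i, 0 ≤ asum (fun l d => (l : ℝ) / d) (K i) := fun i => G2a_asum_nonneg (K i)
    by_cases h : ∃ i, (K i).nk ≠ 0
    · obtain ⟨i, hi⟩ := h
      have h1 := ih i hi
      have h2 := Finset.single_le_sum (f := fun i => asum (fun l d => (l : ℝ) / d) (K i))
        (fun i _ => h0 i) (Finset.mem_univ i)
      have h3 : (0 : ℝ) ≤ (nl (node a n K) : ℝ) / ((n + 1 : ℕ) : ℝ) := by positivity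
      linarith
    · push Not at h
      have h1 : nl (node a n K) = n := by
        simp only [nl]
        rw [Finset.sum_congr rfl fun i _ => if_pos (h i)]
        simp
      have h2 := Finset.sum_nonneg fun i (_ : i ∈ Finset.univ) => h0 i
      have h3 : (1 : ℝ) / 2 ≤ (nl (node a n K) : ℝ) / ((n + 1 : ℕ) : ℝ) := by
        rw [h1, div_le_div_iff₀ (by norm_num) (by positivity)]
        have : (1 : ℝ) ≤ n := by exact_mod_cast Nat.one_le_iff_ne_zero.2 hB
        push_cast
        linarith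
      linarith

private theorem G2a_ne {x : RT Unit × RT Unit} (hx : wpop x ≠ 0) : x.1.nk ≠ 0 ∨ x.2.nk ≠ 0 := by
  by_contra h
  push Not at h
  apply hx
  rw [wpop_eq]
  unfold pop
  rw [asum_of_nk_zero _ h.1, asum_of_nk_zero _ h.2, add_zero]

private theorem G2a_ne' {x : RT Unit × RT Unit} (hx : x.1.nk ≠ 0 ∨ x.2.nk ≠ 0) : wpop x ≠ 0 := by
  rw [wpop_eq]
  have h1 := pop_nonneg x.1
  have h2 := pop_nonneg x.2
  rcases hx with h | h
  · have := one_le_pop h
    linarith
  · have := one_le_pop h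
    linarith

/-- `L wpop ≥ 0` everywhere: `wpop ≤ sg t wpop` -/
theorem wpop_le_sg {t : ℝ} (ht : 0 ≤ t) (x : RT Unit × RT Unit) : wpop x ≤ kerT.sg t wpop x := by
  have h1 : kerT.Gr wpop := Gr_wsum (g := fun _ => 1) (M := 1) (fun _ => by simp)
  have h := kerT.exp_le_sg kerT.closed_univ h1 (a := 0) (fun y _ => ?_) ht (Set.mem_univ x)
  · rwa [zero_mul, Real.exp_zero, one_mul] at h
  · rw [zero_mul, G2a_L]
    have e1 := G2a_asum_nonneg y.1
    have e2 := G2a_asum_nonneg y.2
    have e3 : 0 ≤ (if y.2.nk = 0 then y.1.upr else 0) := by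
      split_ifs
      · exact upr_nonneg _
      · exact le_rfl
    have e4 : 0 ≤ (if y.1.nk = 0 then y.2.upr else 0) := by
      split_ifs
      · exact upr_nonneg _
      · exact le_rfl
    linarith

private theorem G2a_closed : kerT.Closed {x | wpop x ≠ 0} := by
  rintro ⟨B, A⟩ hx u hu
  have hx' := G2a_ne hx
  have hu' : ∀ c e : RT Unit, c.nk ≠ 0 ∨ e.nk ≠ 0 → 0 ≤ u (c, e) := fun c e h => hu (c, e) (G2a_ne' h)
  have h0 : ∀ B : RT Unit, Q B (fun _ => (0 : ℝ)) = 0 := by
    intro B
    obtain ⟨l, _, hl⟩ := Q_rep B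
    have := hl (fun _ => (0 : ℝ))
    simpa using this
  have h1 : 0 ≤ Q B (fun c => u (c, A)) := by
    have h : Q B (fun _ => (0 : ℝ)) ≤ Q B (fun c => u (c, A)) := Q_mono_nk fun c hc => by
      apply hu'
      rcases hx' with h | h
      · left; simp only at h; omega
      · right; exact h
    rwa [h0] at h
  have h2 : 0 ≤ Q A (fun c => u (B, c)) := by
    have h : Q A (fun _ => (0 : ℝ)) ≤ Q A (fun c => u (B, c)) := Q_mono_nk fun c hc => by
      apply hu'
      rcases hx' with h | h
      · left; exact h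
      · right; simp only at h; omega
    rwa [h0] at h
  have h3 : 0 ≤ upr B * u (B, add A) := mul_nonneg (upr_nonneg _) (hu' _ _ (Or.inr (by simp)))
  have h4 : 0 ≤ upr A * u (msg B, A) := mul_nonneg (upr_nonneg _) (hu' _ _ (Or.inl (by simp)))
  show 0 ≤ Q B (fun c => u (c, A)) + Q A (fun c => u (B, c)) + upr B * u (B, add A) +
    upr A * u (msg B, A)
  positivity

/-- `L wpop ≤ wpop` on trees with at least one non-leaf; in general `sg t wpop ≤ exp t (wpop + 1)` and, for
`x` with `wpop x ≠ 0`, `sg t wpop x ≤ exp t * wpop x` -/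
theorem sg_wpop_le {t : ℝ} (ht : 0 ≤ t) {x : RT Unit × RT Unit} (hx : wpop x ≠ 0) :
    kerT.sg t wpop x ≤ Real.exp t * wpop x := by
  have h1 : kerT.Gr wpop := Gr_wsum (g := fun _ => 1) (M := 1) (fun _ => by simp)
  have h := kerT.sg_le_exp G2a_closed h1 (a := 1) (fun y hy => ?_) ht hx
  · rwa [one_mul] at h
  · rw [one_mul, G2a_L, wpop_eq]
    have e1 := G2a_asum_le y.1
    have e2 := G2a_asum_le y.2
    by_cases hB : y.1.nk = 0
    · have hA : y.2.nk ≠ 0 := by
        rcases G2a_ne hy with h | h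
        · exact absurd hB h
        · exact h
      rw [if_pos hB, if_neg hA]
      have := G2a_asum_le' hA
      linarith
    · rw [if_neg hB]
      by_cases hA : y.2.nk = 0
      · rw [if_pos hA]
        have := G2a_asum_le' hB
        linarith
      · rw [if_neg hA]
        linarith

/-- birth rate: `L wpop ≥ 1/2` on trees with at least one non-leaf -/
theorem L_wpop_ge {x : RT Unit × RT Unit} (hx : wpop x ≠ 0) : 1 / 2 ≤ kerT.L wpop x := by
  rw [G2a_L]
  have e1 := G2a_asum_nonneg x.1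
  have e2 := G2a_asum_nonneg x.2
  have e3 : 0 ≤ (if x.2.nk = 0 then x.1.upr else 0) := by
    split_ifs
    · exact upr_nonneg _
    · exact le_rfl
  have e4 : 0 ≤ (if x.1.nk = 0 then x.2.upr else 0) := by
    split_ifs
    · exact upr_nonneg _
    · exact le_rfl
  rcases G2a_ne hx with h | h
  · have := G2a_half h
    linarith
  · have := G2a_half h
    linarith

theorem wpop_ne_zero {x : RT Unit × RT Unit} (hx : 3 ≤ kerT.lev x) : wpop x ≠ 0 := by
  apply G2a_ne'
  by_contra h
  push Not at h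
  have h1 := size_eq_one_of_nk h.1
  have h2 := size_eq_one_of_nk h.2
  have h3 : kerT.lev x = x.1.size + x.2.size := rfl
  omega

end RFT
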