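import Pool.Agent.H13.RF.B6

/-! Module H1b: sum of the squares of the increments. -/

namespace RFT

open Finset RT

theorem H1b_Q_mono {B : RT Unit} {v w : RT Unit → ℝ} (h : ∀ c, v c ≤ w c) : Q B v ≤ Q B w := by
  have h1 := Q_nonneg B (fun c => w c - v c) (fun c _ => sub_nonneg.2 (h c))
  obtain ⟨l, hl, h2⟩ := Q_rep B
  have h3 : ∀ u : RT Unit → ℝ, Q B u = (l.map (fun p => p.1 * u p.2)).sum := h2
  rw [h3] at h1 ⊢
  rw [h3 w]
  have h4 : (l.map (fun p => p.1 * (w p.2 - v p.2))).sum =
      (l.map (fun p => p.1 * w p.2)).sum - (l.map (fun p => p.1 * v p.2)).sum := by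
    clear hl h2 h3 h1
    induction l with
    | nil => simp
    | cons p l ih =>
      simp only [List.map_cons, List.sum_cons]
      rw [ih]
      ring
  rw [h4] at h1
  linarith

theorem H1b_pop_nonneg (B : RT Unit) : 0 ≤ pop B := by
  induction B with
  | node a n K ih =>
    by_cases hn : n = 0
    · subst hn
      exact (asum_of_nk_zero _ (nk_node _ _ _)).ge
    · have hpop : pop (node a n K) = 1 + ∑ i, pop (K i) := asum_node _ a n K hn
      rw [hpop]
      exact add_nonneg zero_le_one (Finset.sum_nonneg fun i _ => ih i)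

/-- re-rooting a replaced kid -/
theorem H1b_rer {u : RT Unit × RT Unit → ℝ} (hI : Inv u) (a : Unit) (n : ℕ) (K : Fin n → RT Unit)
    (i : Fin n) (c A : RT Unit) :
    u (rep n a K i c, A) = u (c, node a n (Function.update K i A)) := by
  have h1 := hI.2 (rep n a K i c, A) i (by unfold rep; exact i.2)
  rw [← h1]
  unfold rep
  rw [rer_node, Function.update_self, Function.update_idem]

theorem H1b_half {u : RT Unit × RT Unit → ℝ} (hI : Inv u) {α : ℝ} (hα : 0 ≤ α)
    (hu : ∀ B A : RT Unit, |u (add B, A) - u (B, A)| ≤ α / (B.dg : ℝ)) (B : RT Unit) :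
    ∀ A : RT Unit, Q B (fun c => (u (c, A) - u (B, A)) ^ 2) ≤ α ^ 2 * pop B := by
  have hsq : ∀ B A : RT Unit, (u (add B, A) - u (B, A)) ^ 2 ≤ (α / (B.dg : ℝ)) ^ 2 := by
    intro B A
    rw [← sq_abs]
    exact pow_le_pow_left₀ (abs_nonneg _) (hu B A) 2
  induction B with
  | node a n K ih =>
    intro A
    by_cases hn : n = 0
    · subst hn
      have h1 : pop (node a 0 K) = 0 := asum_of_nk_zero _ (nk_node _ _ _)
      rw [h1]
      simp [Q]
    have hn1 : (1 : ℝ) ≤ n := by exact_mod_cast Nat.one_le_iff_ne_zero.2 hn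
    have hpop : pop (node a n K) = 1 + ∑ i, pop (K i) := asum_node _ a n K hn
    simp only [Q]
    have hterm : ∀ i, (1 / ((n : ℝ) + 1) * (u (rep n a K i (msg (K i)), A) - u (node a n K, A)) ^ 2 +
        Q (K i) (fun c => (u (rep n a K i c, A) - u (node a n K, A)) ^ 2) +
        upr (K i) * (u (add (node a n K), A) - u (node a n K, A)) ^ 2) ≤
        α ^ 2 * (1 / n + pop (K i)) := by
      intro i
      have e0 : u (node a n K, A) = u (K i, node a n (Function.update K i A)) := by
        have := H1b_rer hI a n K i (K i) A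
        unfold rep at this
        rwa [Function.update_eq_self] at this
      have e1 : (u (rep n a K i (msg (K i)), A) - u (node a n K, A)) ^ 2 ≤ α ^ 2 := by
        rw [e0, H1b_rer hI]
        have h2 : msg (K i) = add (K i) := by cases K i; rfl
        rw [h2]
        refine (hsq _ _).trans (pow_le_pow_left₀ (by positivity) (div_le_self hα ?_) 2)
        unfold dg
        push_cast
        have : (0 : ℝ) ≤ ((K i).nk : ℝ) := by positivity
        linarith
      have e2 : Q (K i) (fun c => (u (rep n a K i c, A) - u (node a n K, A)) ^ 2) ≤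
          α ^ 2 * pop (K i) := by
        have h3 := ih i (node a n (Function.update K i A))
        have h4 : (fun c => (u (rep n a K i c, A) - u (node a n K, A)) ^ 2) =
            fun c => (u (c, node a n (Function.update K i A)) -
              u (K i, node a n (Function.update K i A))) ^ 2 := by
          funext c
          rw [H1b_rer hI, e0]
        rw [h4]
        exact h3
      have e3 : upr (K i) * (u (add (node a n K), A) - u (node a n K, A)) ^ 2 ≤
          α ^ 2 / ((n : ℝ) + 1) ^ 2 := by
        have h5 := hsq (node a n K) A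
        have h6 : ((node a n K).dg : ℝ) = (n : ℝ) + 1 := by
          unfold dg
          rw [nk_node]
          push_cast
          ring
        rw [h6, div_pow] at h5
        have h7 := upr_le_one (K i)
        have h8 := upr_nonneg (K i)
        have h9 : 0 ≤ (u (add (node a n K), A) - u (node a n K, A)) ^ 2 := sq_nonneg _
        nlinarith
      have e4 : 1 / ((n : ℝ) + 1) + 1 / ((n : ℝ) + 1) ^ 2 ≤ 1 / n := by
        rw [div_add_div _ _ (by positivity) (by positivity), div_le_div_iff₀ (by positivity)
          (by positivity)]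
        nlinarith
      have e5 : 1 / ((n : ℝ) + 1) * (u (rep n a K i (msg (K i)), A) - u (node a n K, A)) ^ 2 ≤
          1 / ((n : ℝ) + 1) * α ^ 2 := mul_le_mul_of_nonneg_left e1 (by positivity)
      have e6 := mul_le_mul_of_nonneg_left e4 (sq_nonneg α)
      have e7 : α ^ 2 / ((n : ℝ) + 1) ^ 2 = α ^ 2 * (1 / ((n : ℝ) + 1) ^ 2) := by ring
      rw [e7] at e3
      nlinarith
    refine (Finset.sum_le_sum fun i _ => hterm i).trans (le_of_eq ?_)
    rw [← Finset.mul_sum, hpop, Finset.sum_add_distrib]
    simp only [Finset.sum_const, Finset.card_univ, Fintype.card_fin, nsmul_eq_mul]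
    have : (n : ℝ) ≠ 0 := by positivity
    field_simp

/-- Sum of the squares of the increments.  For `u` invariant with influence at most `α/d`; recursion over the
half-trees: the transitions inside `B` are: the root chooses a kid (rate `1/d_B`, increment `≤ α/d_{K i}` by
re-rooting), a kid sends a message to the root (rate `1/d_{K i}`, increment `≤ α/d_B`), transitions inside the
kids.  Each non-leaf contributes at most `2 α²`. -/
theorem sq_incr {u : RT Unit × RT Unit → ℝ} (hI : Inv u) {α : ℝ} (hα : 0 ≤ α)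
    (hu : ∀ B A : RT Unit, |u (add B, A) - u (B, A)| ≤ α / (B.dg : ℝ)) (x : RT Unit × RT Unit) :
    kerT.P (fun y => (u y - u x) ^ 2) x ≤ 4 * α ^ 2 * (wpop x + 1) := by
  obtain ⟨B, A⟩ := x
  have hsq : ∀ B A : RT Unit, (u (add B, A) - u (B, A)) ^ 2 ≤ α ^ 2 := by
    intro B A
    rw [← sq_abs]
    refine pow_le_pow_left₀ (abs_nonneg _) ((hu B A).trans (div_le_self hα ?_)) 2
    unfold dg
    push_cast
    have : (0 : ℝ) ≤ (B.nk : ℝ) := by positivity
    linarith
  have h0 : kerT.P (fun y => (u y - u (B, A)) ^ 2) (B, A) =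
      Q B (fun c => (u (c, A) - u (B, A)) ^ 2) + Q A (fun e => (u (B, e) - u (B, A)) ^ 2) +
      upr B * (u (B, add A) - u (B, A)) ^ 2 + upr A * (u (msg B, A) - u (B, A)) ^ 2 := rfl
  rw [h0]
  have h1 := H1b_half hI hα hu B A
  have h2 : Q A (fun e => (u (B, e) - u (B, A)) ^ 2) ≤ α ^ 2 * pop A := by
    have h3 := H1b_half hI hα hu A B
    have h4 : (fun e => (u (B, e) - u (B, A)) ^ 2) = fun c => (u (c, B) - u (A, B)) ^ 2 := by
      funext c
      have e1 := hI.1 (B, c)
      have e2 := hI.1 (B, A)
      simp only at e1 e2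
      rw [e1, e2]
    rw [h4]
    exact h3
  have h3 : (u (B, add A) - u (B, A)) ^ 2 ≤ α ^ 2 := by
    have e1 := hI.1 (B, add A)
    have e2 := hI.1 (B, A)
    simp only at e1 e2
    rw [← e1, ← e2]
    exact hsq _ _
  have h4 : (u (msg B, A) - u (B, A)) ^ 2 ≤ α ^ 2 := by
    have h5 : msg B = add B := by cases B; rfl
    rw [h5]
    exact hsq _ _
  have h5 : wpop (B, A) = pop B + pop A := rfl
  have h6 : 0 ≤ pop B := H1b_pop_nonneg B
  have h7 : 0 ≤ pop A := H1b_pop_nonneg A
  have h8 := mul_le_mul (upr_le_one B) h3 (sq_nonneg _) zero_le_one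
  have h9 := mul_le_mul (upr_le_one A) h4 (sq_nonneg _) zero_le_one
  rw [h5]
  nlinarith [mul_nonneg (sq_nonneg α) h6, mul_nonneg (sq_nonneg α) h7, sq_nonneg α]

end RFT
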