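import Pool.Agent.H13.RF.B6
import Pool.Agent.H13.RF.A5

/-! Module H1a: influence of one additional leaf. -/

namespace RFT

open Finset RT

section H1aaux

/-- the increment -/
private noncomputable def H1aD (u : RT Unit × RT Unit → ℝ) (y : RT Unit × RT Unit) : ℝ :=
  u (add y.1, y.2) - u y

private theorem H1a_add_rep (n : ℕ) (a : Unit) (K : Fin n → RT Unit) (i : Fin n) (c : RT Unit) :
    rep (n + 1) a (Fin.snoc (α := fun _ => RT Unit) K leaf) (Fin.castSucc i) c =
      add (rep n a K i c) := by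
  unfold rep
  simp only [add]
  congr 1
  exact (Fin.snoc_update (α := fun _ => RT Unit) _ _ _ _).symm

private theorem H1a_Q (F : RT Unit → ℝ) (n : ℕ) (a : Unit) (K : Fin n → RT Unit) :
    Q (add (node a n K)) F = ∑ i : Fin n, (1 / ((n : ℝ) + 2) * F (add (rep n a K i (msg (K i)))) +
        Q (K i) (fun c => F (add (rep n a K i c))) + upr (K i) * F (add (add (node a n K)))) +
      (1 / ((n : ℝ) + 2) * F (node a (n + 1) (Fin.snoc (α := fun _ => RT Unit) K fresh)) +
        F (add (add (node a n K)))) := by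
  have h0 : add (node a n K) = node a (n + 1) (Fin.snoc (α := fun _ => RT Unit) K leaf) := rfl
  rw [h0]
  simp only [Q]
  rw [Fin.sum_univ_castSucc]
  have e1 : ((n + 1 : ℕ) : ℝ) + 1 = (n : ℝ) + 2 := by
    push_cast
    ring
  rw [e1]
  congr 1
  · refine Finset.sum_congr rfl (fun i _ => ?_)
    simp only [Fin.snoc_castSucc, H1a_add_rep]
  · simp only [Fin.snoc_last]
    have e2 : Q (leaf : RT Unit) (fun c => F (rep (n + 1) a
        (Fin.snoc (α := fun _ => RT Unit) K leaf) (Fin.last n) c)) = 0 :=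
      Q_nk_zero (by simp) _
    have e3 : upr (leaf : RT Unit) = 1 := by
      unfold upr
      simp
    have e4 : rep (n + 1) a (Fin.snoc (α := fun _ => RT Unit) K leaf) (Fin.last n) (msg leaf) =
        node a (n + 1) (Fin.snoc (α := fun _ => RT Unit) K fresh) := by
      unfold rep
      congr 1
      exact Fin.update_snoc_last (α := fun _ => RT Unit) _ _ _
    rw [e2, e3, e4]
    ring

/-- re-rooting of an invariant function at the `i`-th kid -/
private theorem H1a_inv {u : RT Unit × RT Unit → ℝ} (hu : Inv u) (n : ℕ) (a : Unit)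
    (K : Fin n → RT Unit) (i : Fin n) (c A : RT Unit) :
    u (node a n (Function.update K i c), A) = u (c, node a n (Function.update K i A)) := by
  have h1 := hu.2 (node a n (Function.update K i c), A) i (by simp)
  rw [rer_node] at h1
  rw [← h1]
  simp

private theorem H1a_repl (n : ℕ) (a : Unit) (K : Fin n → RT Unit) (i : Fin n) (A : RT Unit) :
    repl (add (node a n K)) i A = node a (n + 1)
      (Function.update (Fin.snoc (α := fun _ => RT Unit) K leaf) (Fin.castSucc i) A) := by
  have h1 : (i : ℕ) < n + 1 := by omega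
  show repl (node a (n + 1) (Fin.snoc (α := fun _ => RT Unit) K leaf)) i A = _
  simp only [repl, h1, dif_pos]
  rfl

private theorem H1a_repl_last (n : ℕ) (a : Unit) (K : Fin n → RT Unit) (A : RT Unit) :
    repl (add (node a n K)) n A = node a (n + 1)
      (Function.update (Fin.snoc (α := fun _ => RT Unit) K leaf) (Fin.last n) A) := by
  have h1 : n < n + 1 := by omega
  show repl (node a (n + 1) (Fin.snoc (α := fun _ => RT Unit) K leaf)) n A = _
  simp only [repl, h1, dif_pos]
  rfl

private theorem H1a_kid (n : ℕ) (a : Unit) (K : Fin n → RT Unit) (i : Fin n) :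
    kid (node a n K) i = K i := by
  simp [kid]

private theorem H1a_u1 {u : RT Unit × RT Unit → ℝ} (hu : Inv u) (n : ℕ) (a : Unit)
    (K : Fin n → RT Unit) (i : Fin n) (A : RT Unit) :
    u (add (rep n a K i (msg (K i))), A) =
      u (add (node a n K), A) + H1aD u (kid (node a n K) i, repl (add (node a n K)) i A) := by
  have h1 : u (add (rep n a K i (msg (K i))), A) =
      u (add (K i), repl (add (node a n K)) i A) := by
    rw [← H1a_add_rep, H1a_repl]
    unfold rep
    rw [H1a_inv hu, msg_eq_add]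
  have h2 : u (add (node a n K), A) = u (K i, repl (add (node a n K)) i A) := by
    rw [H1a_repl, ← H1a_inv hu]
    congr 1
    have h3 : Function.update (Fin.snoc (α := fun _ => RT Unit) K leaf) (Fin.castSucc i) (K i) =
        Fin.snoc (α := fun _ => RT Unit) K leaf := by
      have h4 : (Fin.snoc (α := fun _ => RT Unit) K leaf : Fin (n + 1) → RT Unit)
          (Fin.castSucc i) = K i := Fin.snoc_castSucc (α := fun _ => RT Unit) _ _ _
      conv_lhs => rw [← h4]
      exact Function.update_eq_self _ _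
    rw [h3]
    rfl
  rw [h1, h2, H1a_kid]
  unfold H1aD
  ring

private theorem H1a_u2 {u : RT Unit × RT Unit → ℝ} (hu : Inv u) (n : ℕ) (a : Unit)
    (K : Fin n → RT Unit) (A : RT Unit) :
    u (node a (n + 1) (Fin.snoc (α := fun _ => RT Unit) K fresh), A) =
      u (add (node a n K), A) + H1aD u (leaf, repl (add (node a n K)) n A) := by
  have h1 : u (node a (n + 1) (Fin.snoc (α := fun _ => RT Unit) K fresh), A) =
      u (fresh, repl (add (node a n K)) n A) := by
    rw [H1a_repl_last, ← H1a_inv hu]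
    congr 1
    rw [Fin.update_snoc_last (α := fun _ => RT Unit)]
  have h2 : u (add (node a n K), A) = u (leaf, repl (add (node a n K)) n A) := by
    rw [H1a_repl_last, ← H1a_inv hu]
    congr 1
    rw [Fin.update_snoc_last (α := fun _ => RT Unit)]
    rfl
  rw [h1, h2]
  unfold H1aD
  have h3 : (fresh : RT Unit) = add leaf := msg_eq_add leaf
  rw [h3]
  ring

private theorem H1a_u3 {u : RT Unit × RT Unit → ℝ} (hu : Inv u) (B A : RT Unit) :
    u (add B, add A) = u (add B, A) + H1aD u (A, add B) := by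
  unfold H1aD
  have h1 : u (add A, add B) = u (add B, add A) := hu.1 (add B, add A)
  have h2 : u (A, add B) = u (add B, A) := hu.1 (add B, A)
  simp only [h1, h2]
  ring

private theorem H1a_Q_sub (B : RT Unit) (F G : RT Unit → ℝ) :
    Q B (fun c => F c - G c) = Q B F - Q B G := by
  obtain ⟨l, hl, h⟩ := Q_rep B
  have h' : ∀ u : RT Unit → ℝ, Q B u = (l.map (fun p => p.1 * u p.2)).sum := h
  rw [h', h', h']
  clear h h' hl
  induction l with
  | nil => simp
  | cons p l ih =>
    simp only [List.map_cons, List.sum_cons, ih]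
    ring

/-- the identity for the increments of the generator -/
private theorem H1a_ident {u : RT Unit × RT Unit → ℝ} (hu : Inv u) (B A : RT Unit) :
    kerT.L u (add B, A) - kerT.L u (B, A) = Env.rt.pairP (H1aD u) (B, A) -
      ((B.size : ℝ) + A.size) * H1aD u (B, A) -
      B.upr * (1 / ((B.nk : ℝ) + 2)) * (∑ i ∈ range B.nk,
        H1aD u (kid B i, repl (add B) i A) + H1aD u (A, add B)) +
      1 / ((B.nk : ℝ) + 2) * H1aD u (leaf, repl (add B) B.nk A) + H1aD u (add B, A) := by
  cases B with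
  | node a n K =>
    have e0 : ∀ v : RT Unit × RT Unit → ℝ, ∀ x : RT Unit × RT Unit,
        kerT.L v x = Env.rt.pairP v x - ((x.1.size : ℝ) + x.2.size) * v x := by
      intro v x
      show Env.rt.pairP v x - ((x.1.size + x.2.size : ℕ) : ℝ) * v x = _
      push_cast
      rfl
    have e1 : ∀ v : RT Unit × RT Unit → ℝ, ∀ x : RT Unit × RT Unit,
        Env.rt.pairP v x = Q x.1 (fun c => v (c, x.2)) + Q x.2 (fun e => v (x.1, e)) +
          upr x.1 * v (x.1, add x.2) + upr x.2 * v (add x.1, x.2) := by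
      intro v x
      have h1 : msg x.1 = add x.1 := msg_eq_add x.1
      show Q x.1 (fun c => v (c, x.2)) + Q x.2 (fun e => v (x.1, e)) +
          upr x.1 * v (x.1, add x.2) + upr x.2 * v (msg x.1, x.2) = _
      rw [h1]
    -- the sum over the kids
    have e2 : ∑ i ∈ range n, H1aD u (kid (node a n K) i, repl (add (node a n K)) i A) =
        ∑ i : Fin n, H1aD u (kid (node a n K) i, repl (add (node a n K)) i A) := by
      rw [Finset.sum_range]
    have e3 : ((add (node a n K)).size : ℝ) = ((node a n K).size : ℝ) + 1 := by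
      rw [size_add]
      push_cast
      ring
    have e4 : upr (add (node a n K)) = 1 / ((n : ℝ) + 2) := by
      unfold upr
      rw [nk_add]
      simp only [nk_node]
      push_cast
      congr 1
      ring
    have e5 : upr (node a n K) = 1 / ((n : ℝ) + 1) := rfl
    have e6 : Q A (fun e => H1aD u (node a n K, e)) =
        Q A (fun e => u (add (node a n K), e)) - Q A (fun e => u (node a n K, e)) := by
      rw [← H1a_Q_sub]
      rfl
    have e7 : ∀ i : Fin n, Q (K i) (fun c => H1aD u (rep n a K i c, A)) =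
        Q (K i) (fun c => u (add (rep n a K i c), A)) - Q (K i) (fun c => u (rep n a K i c, A)) := by
      intro i
      rw [← H1a_Q_sub]
      rfl
    have e8 : Q (node a n K) (fun c => H1aD u (c, A)) = ∑ i : Fin n,
        (1 / ((n : ℝ) + 1) * H1aD u (rep n a K i (msg (K i)), A) +
          Q (K i) (fun c => H1aD u (rep n a K i c, A)) +
          upr (K i) * H1aD u (add (node a n K), A)) := by
      simp only [Q]
    have e9 : Q (node a n K) (fun c => u (c, A)) = ∑ i : Fin n,
        (1 / ((n : ℝ) + 1) * u (rep n a K i (msg (K i)), A) +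
          Q (K i) (fun c => u (rep n a K i c, A)) +
          upr (K i) * u (add (node a n K), A)) := by
      simp only [Q]
    have hn1 : ((n : ℝ) + 1) ≠ 0 := by positivity
    have hn2 : ((n : ℝ) + 2) ≠ 0 := by positivity
    -- termwise
    have e10 : Q (add (node a n K)) (fun c => u (c, A)) - Q (node a n K) (fun c => u (c, A)) =
        Q (node a n K) (fun c => H1aD u (c, A)) -
        1 / ((n : ℝ) + 1) * (1 / ((n : ℝ) + 2)) * (n * u (add (node a n K), A) +
          ∑ i : Fin n, H1aD u (kid (node a n K) i, repl (add (node a n K)) i A)) +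
        (1 / ((n : ℝ) + 2) * (u (add (node a n K), A) +
          H1aD u (leaf, repl (add (node a n K)) n A)) +
          u (add (add (node a n K)), A)) := by
      rw [H1a_Q, e8, e9]
      rw [H1a_u2 hu]
      have e11 : (n : ℝ) * u (add (node a n K), A) +
          ∑ i : Fin n, H1aD u (kid (node a n K) i, repl (add (node a n K)) i A) =
          ∑ i : Fin n, u (add (rep n a K i (msg (K i))), A) := by
        have : ∑ i : Fin n, u (add (rep n a K i (msg (K i))), A) = ∑ i : Fin n,
            (u (add (node a n K), A) +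
              H1aD u (kid (node a n K) i, repl (add (node a n K)) i A)) :=
          Finset.sum_congr rfl (fun i _ => H1a_u1 hu n a K i A)
        rw [this, Finset.sum_add_distrib]
        simp
      rw [e11, Finset.mul_sum]
      have e12 : ∑ i : Fin n, (1 / ((n : ℝ) + 2) * u (add (rep n a K i (msg (K i))), A) +
            Q (K i) (fun c => u (add (rep n a K i c), A)) +
            upr (K i) * u (add (add (node a n K)), A)) -
          ∑ i : Fin n, (1 / ((n : ℝ) + 1) * u (rep n a K i (msg (K i)), A) +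
            Q (K i) (fun c => u (rep n a K i c, A)) +
            upr (K i) * u (add (node a n K), A)) =
          ∑ i : Fin n, (1 / ((n : ℝ) + 1) * H1aD u (rep n a K i (msg (K i)), A) +
            Q (K i) (fun c => H1aD u (rep n a K i c, A)) +
            upr (K i) * H1aD u (add (node a n K), A)) -
          ∑ i : Fin n, 1 / ((n : ℝ) + 1) * (1 / ((n : ℝ) + 2)) *
            u (add (rep n a K i (msg (K i))), A) := by
        rw [← Finset.sum_sub_distrib, ← Finset.sum_sub_distrib]
        refine Finset.sum_congr rfl (fun i _ => ?_)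
        rw [e7 i]
        unfold H1aD
        simp only
        field_simp
        ring
      linarith
    have e13 := H1a_u3 hu (node a n K) A
    rw [e0, e0, e1, e1, e1]
    simp only [nk_node]
    rw [e2, e3, e4, e5, e6]
    have e14 : H1aD u (node a n K, add A) = u (add (node a n K), add A) - u (node a n K, add A) :=
      rfl
    have e15 : H1aD u (node a n K, A) = u (add (node a n K), A) - u (node a n K, A) := rfl
    have e16 : H1aD u (add (node a n K), A) =
        u (add (add (node a n K)), A) - u (add (node a n K), A) := rfl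
    have e17 : Q (add (node a n K)) (fun c => u (c, A)) = Q (node a n K) (fun c => u (c, A)) +
        (Q (node a n K) (fun c => H1aD u (c, A)) -
        1 / ((n : ℝ) + 1) * (1 / ((n : ℝ) + 2)) * (n * u (add (node a n K), A) +
          ∑ i : Fin n, H1aD u (kid (node a n K) i, repl (add (node a n K)) i A)) +
        (1 / ((n : ℝ) + 2) * (u (add (node a n K), A) +
          H1aD u (leaf, repl (add (node a n K)) n A)) +
          u (add (add (node a n K)), A))) := by
      linarith
    rw [e17, e14, e15, e16, e13]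
    field_simp
    ring

/-- the sign attached to a Boolean -/
private noncomputable def H1aS (b : Bool) : ℝ := if b = true then 1 else -1

private theorem H1aS_not (b : Bool) : H1aS (!b) = - H1aS b := by
  cases b <;> simp [H1aS]

private theorem H1aS_abs (b : Bool) : |H1aS b| = 1 := by
  cases b <;> simp [H1aS]

private theorem H1a_inL_add (u v : (RT Unit × RT Unit) × Bool → ℝ)
    (x : (RT Unit × RT Unit) × Bool) :
    kerI.L (fun y => u y + v y) x = kerI.L u x + kerI.L v x := by
  simp only [Ker.L]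
  rw [kerI.P_add]
  ring

/-- the signed increments solve the equation of the influence kernel exactly -/
private theorem H1a_exact {u : RT Unit × RT Unit → ℝ} (hu : Inv u)
    (x : (RT Unit × RT Unit) × Bool) :
    kerI.L (fun y => H1aS y.2 * H1aD u y.1) x =
      H1aS x.2 * (kerT.L u (add x.1.1, x.1.2) - kerT.L u x.1) := by
  obtain ⟨⟨B, A⟩, b⟩ := x
  have h1 : kerI.L (fun y => H1aS y.2 * H1aD u y.1) ((B, A), b) =
      inP (fun y => H1aS y.2 * H1aD u y.1) ((B, A), b) -
        ((B.size + A.size : ℕ) : ℝ) * (H1aS b * H1aD u (B, A)) := rfl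
  rw [h1]
  have h2 : inP (fun y => H1aS y.2 * H1aD u y.1) ((B, A), b) =
      Env.rt.pairP (fun y => H1aS b * H1aD u y) (B, A) +
      B.upr * (1 / ((B.nk : ℝ) + 2)) *
        (∑ i ∈ range B.nk, H1aS (!b) * H1aD u (kid B i, repl (add B) i A) +
          H1aS (!b) * H1aD u (A, add B)) +
      1 / ((B.nk : ℝ) + 2) * (H1aS b * H1aD u (leaf, repl (add B) B.nk A)) +
      1 * (H1aS b * H1aD u (add B, A)) := rfl
  rw [h2]
  have h3 : Env.rt.pairP (fun y => H1aS b * H1aD u y) (B, A) =
      H1aS b * Env.rt.pairP (H1aD u) (B, A) := kerT.P_smul (H1aS b) (H1aD u) (B, A)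
  rw [h3, ← Finset.mul_sum, H1aS_not]
  have h4 := H1a_ident hu B A
  simp only
  rw [h4]
  push_cast
  ring

/-- the weight `1/d` -/
private noncomputable def H1aV (y : (RT Unit × RT Unit) × Bool) : ℝ := 1 / (y.1.1.dg : ℝ)

private theorem H1a_dg_pos (B : RT Unit) : (1 : ℝ) ≤ (B.dg : ℝ) := by
  unfold dg
  push_cast
  have : (0 : ℝ) ≤ (B.nk : ℝ) := by positivity
  linarith

private theorem H1a_dg_le {B c : RT Unit} (h : B.nk ≤ c.nk) :
    1 / (c.dg : ℝ) ≤ 1 / (B.dg : ℝ) := by
  have h1 := H1a_dg_pos B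
  apply one_div_le_one_div_of_le (by linarith)
  unfold dg
  push_cast
  have : (B.nk : ℝ) ≤ (c.nk : ℝ) := by exact_mod_cast h
  linarith

/-- `V = 1/d` satisfies `kerI.L V ≤ 3/(d+1) ≤ 3 V` -/
private theorem H1a_V (x : (RT Unit × RT Unit) × Bool) : kerI.L H1aV x ≤ 3 * H1aV x := by
  obtain ⟨⟨B, A⟩, b⟩ := x
  have h1 : kerI.L H1aV ((B, A), b) = inP H1aV ((B, A), b) -
      ((B.size + A.size : ℕ) : ℝ) * H1aV ((B, A), b) := rfl
  have h2 : inP H1aV ((B, A), b) =
      (Q B (fun c => 1 / (c.dg : ℝ)) + Q A (fun _ => 1 / (B.dg : ℝ)) +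
        upr B * (1 / (B.dg : ℝ)) + upr A * (1 / ((msg B).dg : ℝ))) +
      B.upr * (1 / ((B.nk : ℝ) + 2)) *
        (∑ i ∈ range B.nk, 1 / ((kid B i).dg : ℝ) + 1 / (A.dg : ℝ)) +
      1 / ((B.nk : ℝ) + 2) * (1 / ((leaf : RT Unit).dg : ℝ)) +
      1 * (1 / ((add B).dg : ℝ)) := rfl
  rw [h1, h2]
  have hv : H1aV ((B, A), b) = 1 / (B.dg : ℝ) := rfl
  rw [hv]
  have hd : (B.dg : ℝ) = (B.nk : ℝ) + 1 := by
    unfold dg
    push_cast
    ring
  have q1 : Q B (fun c => 1 / (c.dg : ℝ)) ≤ ((B.size : ℝ) - B.upr) * (1 / (B.dg : ℝ)) := by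
    have h3 : Q B (fun c => 1 / (c.dg : ℝ)) ≤ Q B (fun _ => 1 / (B.dg : ℝ)) :=
      Q_mono_nk (fun c hc => H1a_dg_le hc)
    have h4 : Q B (fun _ => 1 / (B.dg : ℝ)) = ((B.size : ℝ) - B.upr) * (1 / (B.dg : ℝ)) := by
      have h5 := (kerK Unit).P_smul (1 / (B.dg : ℝ)) (fun _ => 1) B
      have h6 : (kerK Unit).P (fun y => 1 / (B.dg : ℝ) * 1) B =
          Q B (fun _ => 1 / (B.dg : ℝ) * 1) := rfl
      have h7 : (kerK Unit).P (fun _ => (1 : ℝ)) B = Q B (fun _ => 1) := rfl
      rw [h6, h7, Q_one, mul_one] at h5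
      rw [h5]
      ring
    linarith
  have q2 : Q A (fun _ => 1 / (B.dg : ℝ)) = ((A.size : ℝ) - A.upr) * (1 / (B.dg : ℝ)) := by
    have h5 := (kerK Unit).P_smul (1 / (B.dg : ℝ)) (fun _ => 1) A
    have h6 : (kerK Unit).P (fun y => 1 / (B.dg : ℝ) * 1) A =
        Q A (fun _ => 1 / (B.dg : ℝ) * 1) := rfl
    have h7 : (kerK Unit).P (fun _ => (1 : ℝ)) A = Q A (fun _ => 1) := rfl
    rw [h6, h7, Q_one, mul_one] at h5
    rw [h5]
    ring
  have q3 : upr A * (1 / ((msg B).dg : ℝ)) ≤ upr A * (1 / (B.dg : ℝ)) :=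
    mul_le_mul_of_nonneg_left (H1a_dg_le (by simp)) (upr_nonneg A)
  have hn : (0 : ℝ) ≤ (B.nk : ℝ) := by positivity
  have q4 : ∑ i ∈ range B.nk, 1 / ((kid B i).dg : ℝ) + 1 / (A.dg : ℝ) ≤ (B.nk : ℝ) + 1 := by
    have h3 : ∀ C : RT Unit, 1 / (C.dg : ℝ) ≤ 1 := by
      intro C
      have := H1a_dg_pos C
      rw [div_le_one (by linarith)]
      exact this
    have h4 : ∑ i ∈ range B.nk, 1 / ((kid B i).dg : ℝ) ≤ ∑ i ∈ range B.nk, (1 : ℝ) :=
      Finset.sum_le_sum (fun i _ => h3 _)
    rw [Finset.sum_const, card_range, nsmul_eq_mul, mul_one] at h4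
    linarith [h3 A]
  have q5 : B.upr * (1 / ((B.nk : ℝ) + 2)) *
      (∑ i ∈ range B.nk, 1 / ((kid B i).dg : ℝ) + 1 / (A.dg : ℝ)) ≤ 1 / ((B.nk : ℝ) + 2) := by
    have h3 : B.upr * (1 / ((B.nk : ℝ) + 2)) * ((B.nk : ℝ) + 1) = 1 / ((B.nk : ℝ) + 2) := by
      unfold upr
      field_simp
    exact (mul_le_mul_of_nonneg_left q4 (mul_nonneg (upr_nonneg B) (by positivity))).trans h3.le
  have q6 : 1 / ((leaf : RT Unit).dg : ℝ) = 1 := by
    unfold dg
    simp
  have q7 : 1 / ((add B).dg : ℝ) = 1 / ((B.nk : ℝ) + 2) := by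
    unfold dg
    rw [nk_add]
    push_cast
    congr 1
    ring
  have q8 : 1 / ((B.nk : ℝ) + 2) ≤ 1 / (B.dg : ℝ) := by
    rw [hd]
    apply one_div_le_one_div_of_le <;> linarith
  rw [q6, q7, q2]
  push_cast
  linarith

private theorem H1a_VT (p : ℕ) (B A : RT Unit) (b : Bool) :
    kerT.V p (B, A) ≤ kerI.V p ((B, A), b) ∧ kerT.V p (add B, A) ≤ kerI.V p ((B, A), b) := by
  constructor
  · show (((B.size + A.size) + 0 + 1).ascFactorial p : ℝ) ≤
      (((B.size + A.size) + 2 + 1).ascFactorial p : ℝ)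
    exact_mod_cast Nat.ascFactorial_le p (by omega)
  · have h1 : kerT.V p (add B, A) = ((((add B).size + A.size) + 0 + 1).ascFactorial p : ℝ) := rfl
    rw [h1, size_add]
    show _ ≤ (((B.size + A.size) + 2 + 1).ascFactorial p : ℝ)
    exact_mod_cast Nat.ascFactorial_le p (by omega)

end H1aaux

/-- Influence bound.  With `u = kerT.sg t f`, `δ t (B, A) = u (add B, A) - u (B, A)` and `V = α exp(3t)/d_B`, the function
`w (x, σ) = V ± δ` satisfies `w' ≥ kerI.L w`, `w 0 ≥ 0`.  The differences of the transitions of `(add B, A)` and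
`(B, A)`: `u ((add B)[i := add (K i)], A) - u (add B, A) = δ (K i, (add B)_i)` by re-rooting (`Inv.sg`,
`rer`), rate `1/(d+1)` instead of `1/d`; similarly for the parent; the new leaf is chosen with rate `1/(d+1)` and
rings with rate one.  `V` satisfies `V' - kerI.L V ≥ 3V - 3α exp(3t)/(d+1) ≥ 0`. -/
theorem influence {f : RT Unit × RT Unit → ℝ} (hI : Inv f) {M : ℝ}
    (hM : ∀ x, |f x| ≤ M * (kerT.lev x + 1)) {α : ℝ} (hα : 0 ≤ α)
    (hf : ∀ B A : RT Unit, |f (add B, A) - f (B, A)| ≤ α / (B.dg : ℝ)) {t : ℝ} (ht : 0 ≤ t)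
    (B A : RT Unit) :
    |kerT.sg t f (add B, A) - kerT.sg t f (B, A)| ≤ α * Real.exp (3 * t) / (B.dg : ℝ) := by
  have hGr : kerT.Gr f := Ker.Gr.of_lin kerT hM
  have hexp : ∀ s : ℝ, HasDerivAt (fun s : ℝ => α * Real.exp (3 * s))
      (3 * (α * Real.exp (3 * s))) s := by
    intro s
    have h3 := (((hasDerivAt_id s).const_mul 3).exp).const_mul α
    refine h3.congr_deriv ?_
    simp only [id, mul_one]
    ring
  have key : ∀ x ∈ (Set.univ : Set ((RT Unit × RT Unit) × Bool)), ∀ t, 0 ≤ t →
      0 ≤ α * Real.exp (3 * t) * H1aV x + H1aS x.2 * H1aD (kerT.sg t f) x.1 := by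
    refine kerI.comparison' kerI.closed_univ
      (w := fun t x => α * Real.exp (3 * t) * H1aV x + H1aS x.2 * H1aD (kerT.sg t f) x.1)
      (w' := fun t x => 3 * (α * Real.exp (3 * t)) * H1aV x +
        H1aS x.2 * (kerT.L (kerT.sg t f) (add x.1.1, x.1.2) - kerT.L (kerT.sg t f) x.1))
      ?_ ?_ ?_ ?_ ?_
    · rintro ⟨⟨B, A⟩, b⟩ _
      have h1 := hf B A
      have h2 : H1aD (kerT.sg 0 f) (B, A) = f (add B, A) - f (B, A) := by
        unfold H1aD
        rw [kerT.sg_zero, kerT.sg_zero]
      simp only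
      rw [h2, mul_zero, Real.exp_zero, mul_one]
      have h3 : α * H1aV ((B, A), b) = α / (B.dg : ℝ) := by
        unfold H1aV
        rw [mul_one_div]
      rw [h3]
      have h4 : |H1aS b * (f (add B, A) - f (B, A))| ≤ α / (B.dg : ℝ) := by
        rw [abs_mul, H1aS_abs, one_mul]
        exact h1
      have h5 := (abs_le.mp h4).1
      linarith
    · intro x _
      have c1 : ContinuousOn (fun s : ℝ => α * Real.exp (3 * s)) (Set.Ici 0) :=
        fun s _ => (hexp s).continuousAt.continuousWithinAt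
      have c2 : ContinuousOn (fun s => H1aD (kerT.sg s f) x.1) (Set.Ici 0) :=
        (kerT.continuousOn_sg hGr _).sub (kerT.continuousOn_sg hGr _)
      exact (c1.mul continuousOn_const).add (continuousOn_const.mul c2)
    · intro x _ s hs
      have d1 : HasDerivAt (fun s => H1aD (kerT.sg s f) x.1)
          (kerT.L (kerT.sg s f) (add x.1.1, x.1.2) - kerT.L (kerT.sg s f) x.1) s :=
        (kerT.hasDerivAt_sg hGr _ hs).sub (kerT.hasDerivAt_sg hGr _ hs)
      exact ((hexp s).mul_const _).add (d1.const_mul _)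
    · intro x _ s hs
      have e1 : kerI.L (fun x => α * Real.exp (3 * s) * H1aV x +
          H1aS x.2 * H1aD (kerT.sg s f) x.1) x =
          α * Real.exp (3 * s) * kerI.L H1aV x +
            H1aS x.2 * (kerT.L (kerT.sg s f) (add x.1.1, x.1.2) - kerT.L (kerT.sg s f) x.1) := by
        rw [H1a_inL_add (fun x => α * Real.exp (3 * s) * H1aV x)
          (fun x => H1aS x.2 * H1aD (kerT.sg s f) x.1), H1a_exact (hI.sg s)]
        congr 1
        simp only [Ker.L]
        rw [kerI.P_smul]
        ring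
      rw [e1]
      have h2 := mul_le_mul_of_nonneg_left (H1a_V x)
        (show 0 ≤ α * Real.exp (3 * s) by positivity)
      linarith
    · intro T hT
      obtain ⟨C, p, hC⟩ := Ker.TGr.sg kerT hGr Set.univ T hT
      refine ⟨α * Real.exp (3 * T) + 2 * |C|, p, ?_⟩
      rintro ⟨⟨B, A⟩, b⟩ _ s hs
      have h1 := hC (B, A) (Set.mem_univ _) s hs
      have h2 := hC (add B, A) (Set.mem_univ _) s hs
      obtain ⟨h3, h4⟩ := H1a_VT p B A b
      have h5 : |kerT.sg s f (B, A)| ≤ |C| * kerI.V p ((B, A), b) :=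
        h1.trans ((mul_le_mul_of_nonneg_right (le_abs_self C) (kerT.V_pos p _).le).trans
          (mul_le_mul_of_nonneg_left h3 (abs_nonneg C)))
      have h6 : |kerT.sg s f (add B, A)| ≤ |C| * kerI.V p ((B, A), b) :=
        h2.trans ((mul_le_mul_of_nonneg_right (le_abs_self C) (kerT.V_pos p _).le).trans
          (mul_le_mul_of_nonneg_left h4 (abs_nonneg C)))
      have h7 : |H1aS b * H1aD (kerT.sg s f) (B, A)| ≤ 2 * |C| * kerI.V p ((B, A), b) := by
        rw [abs_mul, H1aS_abs, one_mul]
        unfold H1aD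
        rw [abs_le] at h5 h6 ⊢
        constructor <;> linarith [h5.1, h5.2, h6.1, h6.2]
      have h8 : |α * Real.exp (3 * s) * H1aV ((B, A), b)| ≤
          α * Real.exp (3 * T) * kerI.V p ((B, A), b) := by
        have h9 : 0 ≤ H1aV ((B, A), b) ∧ H1aV ((B, A), b) ≤ 1 := by
          unfold H1aV
          have h10 := H1a_dg_pos B
          have h13 : (0 : ℝ) < (B.dg : ℝ) := by linarith
          refine ⟨?_, ?_⟩
          · show 0 ≤ 1 / (B.dg : ℝ)
            positivity
          · show 1 / (B.dg : ℝ) ≤ 1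
            rw [div_le_one h13]
            exact h10
        have h11 := kerI.one_le_V p ((B, A), b)
        have h12 : Real.exp (3 * s) ≤ Real.exp (3 * T) :=
          Real.exp_le_exp.mpr (by linarith [hs.2])
        rw [abs_of_nonneg (mul_nonneg (by positivity) h9.1)]
        exact mul_le_mul (mul_le_mul_of_nonneg_left h12 hα) (h9.2.trans h11) h9.1
          (by positivity)
      refine (abs_add_le _ _).trans ?_
      rw [add_mul]
      exact add_le_add h8 h7
  have h1 := key ((B, A), true) (Set.mem_univ _) t ht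
  have h2 := key ((B, A), false) (Set.mem_univ _) t ht
  have h3 : H1aS true = 1 := rfl
  have h4 : H1aS false = -1 := rfl
  have h5 : ∀ b, α * Real.exp (3 * t) * H1aV ((B, A), b) = α * Real.exp (3 * t) / (B.dg : ℝ) := by
    intro b
    unfold H1aV
    rw [mul_one_div]
  simp only at h1 h2
  rw [h5, h3] at h1
  rw [h5, h4] at h2
  have h6 : H1aD (kerT.sg t f) (B, A) = kerT.sg t f (add B, A) - kerT.sg t f (B, A) := rfl
  rw [h6] at h1 h2
  rw [abs_le]
  constructor <;> linarith

end RFT
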