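import Pool.Agent.H13.RF.G2
import Pool.Agent.H13.RF.H1a
import Pool.Agent.H13.RF.H1b

/-! Module H1c: variance. -/

namespace RFT

open Finset RT

private theorem H1c_L_fst (x : RT Unit × RT Unit) :
    kerT.L (fun y => pop y.1) x ≤ pop x.1 + 1 := by
  have h0 : kerT.L (fun y : RT Unit × RT Unit => pop y.1) x =
      gen pop x.1 + Env.rt.snd x.2 * (pop (msg x.1) - pop x.1) := pairL_fst Env.rt pop x
  rw [h0]
  have h1 : Env.rt.snd x.2 = upr x.2 := rfl
  rw [h1]
  have h2 := upr_nonneg x.2
  have h3 := upr_le_one x.2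
  by_cases hB : x.1.nk = 0
  · have h4 : gen pop x.1 = 0 := by
      unfold RT.gen
      rw [Q_nk_zero hB, size_eq_one_of_nk hB]
      unfold upr
      rw [hB]
      norm_num
    have h5 : pop x.1 = 0 := asum_of_nk_zero _ hB
    have h6 : pop (msg x.1) ≤ 1 := by
      have h7 : (msg x.1).nk ≠ 0 := by simp
      have h8 : pop (msg x.1) = 1 := by
        rcases x with ⟨B, A⟩
        cases B with
        | node a n K =>
          simp only [nk_node] at hB
          subst hB
          show pop (node _ 1 (Fin.snoc (α := fun _ => RT Unit) K leaf)) = 1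
          show asum _ (node _ 1 (Fin.snoc (α := fun _ => RT Unit) K leaf)) = 1
          rw [asum_node _ _ _ _ one_ne_zero]
          have h9 : Fin.snoc (α := fun _ => RT Unit) K leaf (Fin.last 0) = leaf :=
            Fin.snoc_last (α := fun _ => RT Unit) leaf K
          rw [Fin.sum_univ_one]
          have h10 : asum (fun _ _ => 1) (Fin.snoc (α := fun _ => RT Unit) K leaf (Fin.last 0)) = 0 := by
            rw [h9]
            exact asum_of_nk_zero _ nk_leaf
          exact add_eq_left.2 h10
      exact h8.le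
    rw [h4, h5]
    nlinarith
  · have h4 : gen pop x.1 ≤ pop x.1 := by
      rw [gen_pop x.1 hB]
      apply asum_mono
      intro l d hl hd
      have h5 : (0 : ℝ) < d := by
        have : (2 : ℝ) ≤ d := by exact_mod_cast hd
        linarith
      rw [div_le_one h5]
      exact_mod_cast (by omega : l ≤ d)
    have h5 : pop (msg x.1) = pop x.1 := by
      show asum _ (msg x.1) = asum _ x.1
      rw [asum_msg _ hB]
      simp
    rw [h5]
    linarith

private theorem H1c_L_wpop (x : RT Unit × RT Unit) :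
    kerT.L wpop x ≤ 2 * (wpop x + 1) := by
  have h1 : kerT.L wpop x = kerT.L (fun y => pop y.1) x + kerT.L (fun y => pop y.1) (x.2, x.1) := by
    unfold Ker.L
    have h2 : (wpop : RT Unit × RT Unit → ℝ) = fun y => pop y.1 + pop y.2 := funext wpop_eq
    have h3 : kerT.P (fun y => pop y.2) x = kerT.P (fun y => pop y.1) (x.2, x.1) :=
      pairP_swap (fun y => pop y.1) x
    have h4 : kerT.lev (x.2, x.1) = kerT.lev x := by
      show x.2.size + x.1.size = x.1.size + x.2.size
      ring
    rw [h2, kerT.P_add, h3, h4]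
    ring
  have h2 := H1c_L_fst x
  have h3 := H1c_L_fst (x.2, x.1)
  have h4 := wpop_eq x
  have h5 := pop_nonneg x.1
  have h6 := pop_nonneg x.2
  simp only at h3
  rw [h1]
  linarith

private theorem H1c_wpop_nonneg (x : RT Unit × RT Unit) : 0 ≤ wpop x := by
  rw [wpop_eq]
  exact add_nonneg (pop_nonneg _) (pop_nonneg _)

private theorem H1c_one (x : RT Unit × RT Unit) : kerT.P (fun _ => 1) x = kerT.lev x :=
  Env.ker_one Env.rt Unit x

private theorem H1c_pos (x : RT Unit × RT Unit) : 1 ≤ kerT.lev x := by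
  have h := size_pos x.1
  show 1 ≤ x.1.size + x.2.size
  omega

/-- variance bound: `V = sg t (f²) - (sg t f)²` satisfies `V' = L V + P ((u - u x)²)`; barrier
`4 α² exp(8t) (wpop + 1)` -/
theorem variance {f : RT Unit × RT Unit → ℝ} (hI : Inv f) {M : ℝ}
    (hM : ∀ x, |f x| ≤ M * (kerT.lev x + 1)) {α : ℝ} (hα : 0 ≤ α)
    (hf : ∀ B A : RT Unit, |f (add B, A) - f (B, A)| ≤ α / (B.dg : ℝ)) {t : ℝ} (ht : 0 ≤ t)
    (x : RT Unit × RT Unit) :
    kerT.sg t (fun y => (f y - kerT.sg t f x) ^ 2) x ≤ 4 * α ^ 2 * Real.exp (8 * t) * (wpop x + 1) := by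
  have hGf : kerT.Gr f := Ker.Gr.of_lin kerT hM
  have hGf2 : kerT.Gr (fun y => f y ^ 2) := Ker.Gr.of_sq kerT hM
  have hGw : kerT.Gr wpop := Gr_wsum (M := 1) (fun _ => by simp)
  -- expansion of the left side
  have hexp : kerT.sg t (fun y => (f y - kerT.sg t f x) ^ 2) x =
      kerT.sg t (fun y => f y ^ 2) x - (kerT.sg t f x) ^ 2 := by
    set m := kerT.sg t f x with hm
    have h1 : (fun y => (f y - m) ^ 2) = fun y => (fun y => f y ^ 2) y +
        (fun y => (-2 * m) * f y + m ^ 2) y := by
      funext y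
      ring
    have hG1 : kerT.Gr (fun y => (-2 * m) * f y) := Ker.Gr.smul kerT hGf _
    have hG2 : kerT.Gr (fun _ : RT Unit × RT Unit => m ^ 2) := Ker.Gr.const kerT _
    rw [h1, kerT.sg_add_fun hGf2 (Ker.Gr.add kerT hG1 hG2) ht,
      kerT.sg_add_fun hG1 hG2 ht, kerT.sg_smul,
      kerT.sg_const H1c_one H1c_pos _ ht, ← hm]
    ring
  rw [hexp]
  -- the comparison
  have hu_lin : ∀ s : ℝ, 0 ≤ s → ∀ y, |kerT.sg s f y| ≤ M * Real.exp (2 * s) * (kerT.lev y + 1) := by
    intro s hs y
    have hM' : ∀ x, |f x| ≤ M * kerT.V 1 x := by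
      intro x
      rw [kerT.V_one]
      have h := hM x
      have hc : (kerT.c : ℝ) = 0 := by
        show ((0 : ℕ) : ℝ) = 0
        norm_num
      rw [hc, add_zero]
      exact h
    have h := kerT.abs_sg_le hM' hs y
    rw [kerT.V_one] at h
    have hc : (kerT.c : ℝ) = 0 := by
      show ((0 : ℕ) : ℝ) = 0
      norm_num
    rw [hc] at h
    push_cast at h
    have h3 : ((0 : ℝ) + 1 + 1) * s = 2 * s := by ring
    rw [h3, add_zero] at h
    exact h
  have key := kerT.comparison' kerT.closed_univ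
    (w := fun s y => 4 * α ^ 2 * Real.exp (8 * s) * (wpop y + 1) -
      (kerT.sg s (fun z => f z ^ 2) y - (kerT.sg s f y) ^ 2))
    (w' := fun s y => 4 * α ^ 2 * (Real.exp (8 * s) * 8) * (wpop y + 1) -
      (kerT.L (kerT.sg s (fun z => f z ^ 2)) y -
        2 * (kerT.sg s f y) * kerT.L (kerT.sg s f) y))
    (fun y _ => by
      show 0 ≤ 4 * α ^ 2 * Real.exp (8 * 0) * (wpop y + 1) -
        (kerT.sg 0 (fun z => f z ^ 2) y - (kerT.sg 0 f y) ^ 2)
      rw [kerT.sg_zero, kerT.sg_zero, sub_self, sub_zero]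
      have := H1c_wpop_nonneg y
      positivity)
    (fun y _ => by
      refine ContinuousOn.sub (Continuous.continuousOn (by fun_prop)) ?_
      exact (kerT.continuousOn_sg hGf2 y).sub ((kerT.continuousOn_sg hGf y).pow 2))
    (fun y _ s hs => by
      have h1 : HasDerivAt (fun s : ℝ => Real.exp (8 * s)) (Real.exp (8 * s) * 8) s := by
        have := ((hasDerivAt_id s).const_mul (8 : ℝ)).exp
        simpa using this
      have h2 := kerT.hasDerivAt_sg hGf2 y hs
      have h3 := (kerT.hasDerivAt_sg hGf y hs).pow 2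
      refine (((h1.const_mul (4 * α ^ 2)).mul_const (wpop y + 1)).sub (h2.sub h3)).congr_deriv ?_
      simp)
    (fun y _ s hs => by
      have hsq := sq_incr (hI.sg s) (α := α * Real.exp (3 * s)) (by positivity)
        (fun B A => influence hI hM hα hf hs.le B A) y
      have hLw := H1c_L_wpop y
      have hw := H1c_wpop_nonneg y
      -- the generator of the square
      have hP : kerT.P (fun z => (kerT.sg s f z - kerT.sg s f y) ^ 2) y =
          kerT.P (fun z => kerT.sg s f z ^ 2) y - 2 * kerT.sg s f y * kerT.P (kerT.sg s f) y +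
            kerT.lev y * kerT.sg s f y ^ 2 := by
        set m := kerT.sg s f y with hm
        have h1 : (fun z => (kerT.sg s f z - m) ^ 2) = fun z => (fun z => kerT.sg s f z ^ 2) z +
            (fun z => (-2 * m) * kerT.sg s f z + m ^ 2 * (fun _ => 1) z) z := by
          funext z
          ring
        rw [h1, kerT.P_add, kerT.P_add, kerT.P_smul, kerT.P_smul, H1c_one]
        ring
      have hL : kerT.L (fun z => 4 * α ^ 2 * Real.exp (8 * s) * (wpop z + 1) -
          (kerT.sg s (fun z => f z ^ 2) z - (kerT.sg s f z) ^ 2)) y =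
          4 * α ^ 2 * Real.exp (8 * s) * kerT.L wpop y -
            (kerT.L (kerT.sg s (fun z => f z ^ 2)) y - kerT.L (fun z => kerT.sg s f z ^ 2) y) := by
        rw [kerT.A5a_L_sub, kerT.A5a_L_sub]
        congr 1
        have h1 : kerT.L (fun z => wpop z + 1) y = kerT.L wpop y := by
          unfold Ker.L
          rw [kerT.P_add wpop (fun _ => 1), H1c_one]
          ring
        rw [← h1]
        exact kerT.A5b_L_smul _ _ y
      show kerT.L (fun z => 4 * α ^ 2 * Real.exp (8 * s) * (wpop z + 1) -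
          (kerT.sg s (fun z => f z ^ 2) z - (kerT.sg s f z) ^ 2)) y ≤ _
      rw [hL]
      have hLsq : kerT.L (fun z => kerT.sg s f z ^ 2) y -
          2 * kerT.sg s f y * kerT.L (kerT.sg s f) y =
          kerT.P (fun z => (kerT.sg s f z - kerT.sg s f y) ^ 2) y := by
        rw [hP]
        unfold Ker.L
        ring
      have he : Real.exp (3 * s) ^ 2 ≤ Real.exp (8 * s) := by
        rw [← Real.exp_nat_mul]
        apply Real.exp_le_exp.2
        push_cast
        linarith
      have hA : 0 ≤ 4 * α ^ 2 := by positivity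
      have h5 : 4 * (α * Real.exp (3 * s)) ^ 2 * (wpop y + 1) ≤
          4 * α ^ 2 * Real.exp (8 * s) * (wpop y + 1) := by
        have h6 : 4 * (α * Real.exp (3 * s)) ^ 2 = 4 * α ^ 2 * Real.exp (3 * s) ^ 2 := by ring
        rw [h6]
        exact mul_le_mul_of_nonneg_right (mul_le_mul_of_nonneg_left he hA) (by linarith)
      have h7 : 4 * α ^ 2 * Real.exp (8 * s) * kerT.L wpop y ≤
          4 * α ^ 2 * Real.exp (8 * s) * (2 * (wpop y + 1)) :=
        mul_le_mul_of_nonneg_left hLw (by positivity)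
      have h8 : 0 ≤ 4 * α ^ 2 * Real.exp (8 * s) * (wpop y + 1) := by positivity
      nlinarith)
    (by
      refine Ker.TGr.sub _ (Ker.TGr.mul _ (f := fun y => wpop y + 1)
        (Ker.Gr.add kerT hGw (Ker.Gr.const kerT 1))
        (a := fun s => 4 * α ^ 2 * Real.exp (8 * s)) (Continuous.continuousOn (by fun_prop))) ?_
      refine Ker.TGr.sub _ (Ker.TGr.sg _ hGf2 _) ?_
      refine Ker.TGr.of_abs_le _ (b := fun s y => (M * Real.exp (2 * s)) ^ 2 *
        ((fun y => (kerT.lev y : ℝ) + 1) y) ^ 2) (Ker.TGr.mul _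
        (f := fun y => ((kerT.lev y : ℝ) + 1) ^ 2)
        (Ker.Gr.of_sq kerT (f := fun y => (kerT.lev y : ℝ) + 1) (M := 1) (fun y => by
          rw [one_mul, abs_of_nonneg (by positivity)]))
        (a := fun s => (M * Real.exp (2 * s)) ^ 2) (Continuous.continuousOn (by fun_prop))) ?_
      intro s hs y _
      have h1 := hu_lin s hs y
      show |kerT.sg s f y ^ 2| ≤ (M * Real.exp (2 * s)) ^ 2 * ((kerT.lev y : ℝ) + 1) ^ 2
      rw [abs_pow, ← mul_pow]
      exact pow_le_pow_left₀ (abs_nonneg _) h1 2)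
    x (Set.mem_univ x) t ht
  linarith [key]

end RFT
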