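import Pool.Agent.H13.RF.G2

/-! Module H1d: number of vertices of degree at least k. -/

namespace RFT

open Finset RT

/-- number of vertices of degree at least `k` -/
noncomputable def Fk (k : ℕ) (x : RT Unit × RT Unit) : ℝ := wsum (fun d => if k ≤ d then 1 else 0) x

theorem H1d_node (g : ℕ → ℕ → ℝ) (a : Unit) (n : ℕ) (hn : n ≠ 0) (K : Fin n → RT Unit) :
    asum g (node a n K) = g (nl (node a n K)) (n + 1) + ∑ i, asum g (K i) := by
  rw [asum, if_neg hn]

theorem H1d_leaf (g : ℕ → ℕ → ℝ) : asum g (leaf : RT Unit) = 0 := by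
  simp [leaf, asum]

theorem H1d_snoc (g : ℕ → ℝ) (a : Unit) (n : ℕ) (K : Fin n → RT Unit) :
    asum (fun _ d => g d) (node a (n + 1) (Fin.snoc (α := fun _ => RT Unit) K leaf)) =
      g (n + 2) + ∑ i, asum (fun _ d => g d) (K i) := by
  rw [H1d_node _ _ _ (Nat.succ_ne_zero n), Fin.sum_univ_castSucc]
  simp [H1d_leaf]

theorem H1d_two (B : RT Unit) :
    asum (fun _ d => if 2 ≤ d then (1 : ℝ) else 0) B = asum (fun _ _ => 1) B := by
  induction B with
  | node a n K ih =>
    by_cases hn : n = 0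
    · rw [asum, asum, if_pos hn, if_pos hn]
    · rw [H1d_node _ _ _ hn, H1d_node _ _ _ hn, if_pos (by omega)]
      congr 1
      exact Finset.sum_congr rfl fun i _ => ih i

theorem Fk_two (x : RT Unit × RT Unit) : Fk 2 x = wpop x := by
  unfold Fk wpop wsum
  rw [H1d_two, H1d_two]

theorem H1d_nonneg {g : ℕ → ℝ} (hg : ∀ d, 0 ≤ g d) (B : RT Unit) :
    0 ≤ asum (fun _ d => g d) B := by
  induction B with
  | node a n K ih =>
    by_cases hn : n = 0
    · rw [asum, if_pos hn]
    · rw [H1d_node _ _ _ hn]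
      exact add_nonneg (hg _) (Finset.sum_nonneg fun i _ => ih i)

theorem H1d_add {g : ℕ → ℝ} (hg : ∀ d, 0 ≤ g d) (hm : ∀ d, g d ≤ g (d + 1)) (B : RT Unit) :
    asum (fun _ d => g d) B ≤ asum (fun _ d => g d) (add B) := by
  cases B with
  | node a n K =>
    show _ ≤ asum (fun _ d => g d) (node a (n + 1) (Fin.snoc (α := fun _ => RT Unit) K leaf))
    rw [H1d_snoc]
    by_cases hn : n = 0
    · subst hn
      rw [asum, if_pos rfl]
      simpa using hg 2
    · rw [H1d_node _ _ _ hn]
      have := hm (n + 1)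
      linarith

theorem H1d_rep (g : ℕ → ℝ) (n : ℕ) (a : Unit) (K : Fin n → RT Unit) (i : Fin n) (c : RT Unit) :
    asum (fun _ d => g d) (rep n a K i c) = asum (fun _ d => g d) (node a n K) +
      (asum (fun _ d => g d) c - asum (fun _ d => g d) (K i)) := by
  have hn : n ≠ 0 := by
    rintro rfl
    exact i.elim0
  unfold rep
  rw [H1d_node _ _ _ hn, H1d_node _ _ _ hn]
  have h1 : ∑ j, asum (fun _ d => g d) (Function.update K i c j) =
      ∑ j, Function.update (fun j => asum (fun _ d => g d) (K j)) i (asum (fun _ d => g d) c) j := by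
    apply Finset.sum_congr rfl
    intro j _
    by_cases hj : j = i
    · subst hj; simp
    · simp [Function.update_of_ne hj]
  rw [h1, Finset.sum_update_of_mem (Finset.mem_univ i),
    ← Finset.add_sum_erase _ _ (Finset.mem_univ i), Finset.sdiff_singleton_eq_erase]
  ring

theorem H1d_msg (B : RT Unit) : msg B = add B := by
  cases B
  rfl

theorem H1d_Q {g : ℕ → ℝ} (hg : ∀ d, 0 ≤ g d) (hm : ∀ d, g d ≤ g (d + 1)) (B : RT Unit) :
    ∀ u v : RT Unit → ℝ,
    (∀ c, asum (fun _ d => g d) B ≤ asum (fun _ d => g d) c → u c ≤ v c) → Q B u ≤ Q B v := by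
  induction B with
  | node a n K ih =>
    intro u v h
    simp only [Q]
    apply Finset.sum_le_sum
    intro i _
    have h1 : ∀ c, asum (fun _ d => g d) (K i) ≤ asum (fun _ d => g d) c →
        u (rep n a K i c) ≤ v (rep n a K i c) := by
      intro c hc
      apply h
      rw [H1d_rep]
      linarith
    refine add_le_add (add_le_add ?_ ?_) ?_
    · refine mul_le_mul_of_nonneg_left (h1 _ ?_) (by positivity)
      rw [H1d_msg]
      exact H1d_add hg hm _
    · exact ih i _ _ h1
    · exact mul_le_mul_of_nonneg_left (h _ (H1d_add hg hm _)) (upr_nonneg _)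

theorem H1d_P {g : ℕ → ℝ} (hg : ∀ d, 0 ≤ g d) (hm : ∀ d, g d ≤ g (d + 1))
    {u v : RT Unit × RT Unit → ℝ} {x : RT Unit × RT Unit}
    (h : ∀ y, wsum g x ≤ wsum g y → u y ≤ v y) : kerT.P u x ≤ kerT.P v x := by
  show Env.rt.pairP u x ≤ Env.rt.pairP v x
  unfold Env.pairP
  have h1 : ∀ c, asum (fun _ d => g d) x.1 ≤ asum (fun _ d => g d) c →
      u (c, x.2) ≤ v (c, x.2) := by
    intro c hc
    apply h
    unfold wsum
    exact add_le_add hc le_rfl
  have h2 : ∀ c, asum (fun _ d => g d) x.2 ≤ asum (fun _ d => g d) c →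
      u (x.1, c) ≤ v (x.1, c) := by
    intro c hc
    apply h
    unfold wsum
    exact add_le_add le_rfl hc
  refine add_le_add (add_le_add (add_le_add ?_ ?_) ?_) ?_
  · exact H1d_Q hg hm _ _ _ h1
  · exact H1d_Q hg hm _ _ _ h2
  · exact mul_le_mul_of_nonneg_left (h2 _ (H1d_add hg hm _)) (upr_nonneg _)
  · refine mul_le_mul_of_nonneg_left (h1 _ ?_) (Env.rt.snd_nonneg _)
    rw [H1d_msg]
    exact H1d_add hg hm _

theorem H1d_const (r : ℝ) (x : RT Unit × RT Unit) :
    kerT.P (fun _ => r) x = (kerT.lev x : ℝ) * r := by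
  have h1 := kerT.P_smul r (fun _ => 1) x
  have h2 : kerT.P (fun _ => 1) x = kerT.lev x := Env.ker_one Env.rt Unit x
  rw [h2] at h1
  simp only [mul_one] at h1
  rw [h1, mul_comm]

theorem H1d_g (k : ℕ) : (∀ d, 0 ≤ (fun d => if k ≤ d then (1 : ℝ) else 0) d) ∧
    ∀ d, (fun d => if k ≤ d then (1 : ℝ) else 0) d ≤
      (fun d => if k ≤ d then (1 : ℝ) else 0) (d + 1) := by
  constructor
  · intro d
    show (0 : ℝ) ≤ if k ≤ d then 1 else 0
    split_ifs <;> norm_num
  · intro d
    show (if k ≤ d then (1 : ℝ) else 0) ≤ if k ≤ d + 1 then 1 else 0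
    split_ifs with h1 h2
    · exact le_rfl
    · omega
    · norm_num
    · exact le_rfl

theorem Fk_influence {k : ℕ} (hk : 2 ≤ k) (B A : RT Unit) :
    |Fk k (add B, A) - Fk k (B, A)| ≤ (k : ℝ) / (B.dg : ℝ) := by
  have hk' : (2 : ℝ) ≤ k := by exact_mod_cast hk
  cases B with
  | node a n K =>
    have e : Fk k (add (node a n K), A) - Fk k (node a n K, A) =
        (if k ≤ n + 2 then 1 else 0) + ∑ i, asum (fun _ d => if k ≤ d then (1 : ℝ) else 0) (K i) -
        asum (fun _ d => if k ≤ d then (1 : ℝ) else 0) (node a n K) := by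
      unfold Fk wsum
      have h1 := H1d_snoc (fun d => if k ≤ d then (1 : ℝ) else 0) a n K
      show asum (fun _ d => if k ≤ d then (1 : ℝ) else 0)
          (node a (n + 1) (Fin.snoc (α := fun _ => RT Unit) K leaf)) +
        asum (fun _ d => if k ≤ d then (1 : ℝ) else 0) A -
        (asum (fun _ d => if k ≤ d then (1 : ℝ) else 0) (node a n K) +
          asum (fun _ d => if k ≤ d then (1 : ℝ) else 0) A) = _
      rw [h1]
      ring
    rw [e]
    have hd : (((node a n K).dg : ℕ) : ℝ) = (n : ℝ) + 1 := by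
      unfold dg
      push_cast
      rfl
    rw [hd]
    have hn0 : (0 : ℝ) ≤ n := Nat.cast_nonneg n
    by_cases hn : n = 0
    · subst hn
      rw [asum, if_pos rfl]
      simp only [Finset.univ_eq_empty, Finset.sum_empty, add_zero, sub_zero]
      split_ifs
      · rw [abs_one]
        simp
        linarith
      · rw [abs_zero]
        positivity
    · rw [H1d_node _ _ _ hn]
      by_cases h1 : k ≤ n + 1
      · rw [if_pos (by omega), if_pos h1]
        have e2 : (1 : ℝ) + ∑ i, asum (fun _ d => if k ≤ d then (1 : ℝ) else 0) (K i) -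
            (1 + ∑ i, asum (fun _ d => if k ≤ d then (1 : ℝ) else 0) (K i)) = 0 := by ring
        rw [e2, abs_zero]
        positivity
      · by_cases h2 : k ≤ n + 2
        · rw [if_pos h2, if_neg h1]
          have e2 : (1 : ℝ) + ∑ i, asum (fun _ d => if k ≤ d then (1 : ℝ) else 0) (K i) -
              (0 + ∑ i, asum (fun _ d => if k ≤ d then (1 : ℝ) else 0) (K i)) = 1 := by ring
          rw [e2, abs_one, le_div_iff₀ (by positivity), one_mul]
          have h3 : n + 1 ≤ k := by omega
          exact_mod_cast h3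
        · rw [if_neg h2, if_neg h1]
          have e2 : (0 : ℝ) + ∑ i, asum (fun _ d => if k ≤ d then (1 : ℝ) else 0) (K i) -
              (0 + ∑ i, asum (fun _ d => if k ≤ d then (1 : ℝ) else 0) (K i)) = 0 := by ring
          rw [e2, abs_zero]
          positivity

/-- `Fk` does not decrease along transitions, hence the indicator of `{a < Fk}` satisfies `lev * 1 ≤ P 1` -/
theorem Fk_mono (k : ℕ) (a : ℝ) (x : RT Unit × RT Unit) :
    (kerT.lev x : ℝ) * (if a < Fk k x then 1 else 0) ≤
      kerT.P (fun y => if a < Fk k y then 1 else 0) x := by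
  rw [← H1d_const]
  refine H1d_P (H1d_g k).1 (H1d_g k).2 fun y hy => ?_
  have hy' : Fk k x ≤ Fk k y := hy
  show (if a < Fk k x then (1 : ℝ) else 0) ≤ if a < Fk k y then 1 else 0
  split_ifs with h1 h2
  · exact le_rfl
  · exact absurd (h1.trans_le hy') h2
  · norm_num
  · exact le_rfl

theorem Fk_mono' (k : ℕ) (a : ℝ) (x : RT Unit × RT Unit) :
    kerT.P (fun y => if Fk k y < a then 1 else 0) x ≤
      (kerT.lev x : ℝ) * (if Fk k x < a then 1 else 0) := by
  rw [← H1d_const]
  refine H1d_P (H1d_g k).1 (H1d_g k).2 fun y hy => ?_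
  have hy' : Fk k x ≤ Fk k y := hy
  show (if Fk k y < a then (1 : ℝ) else 0) ≤ if Fk k x < a then 1 else 0
  split_ifs with h1 h2
  · exact le_rfl
  · exact absurd (hy'.trans_lt h1) h2
  · norm_num
  · exact le_rfl

end RFT
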