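import Pool.Agent.H13.RF.I1a
import Pool.Agent.H13.RF.A5

/-! Module I1b: the semigroup as a mixture over the number of steps of the discrete chain. -/

namespace RFT

open Finset

/-- expectation after `R` steps of the discrete chain -/
noncomputable def Ker.dE {S : Type} (k : Ker S) (R : ℕ) (f : S → ℝ) (x : S) : ℝ :=
  (k.P^[R] f) x / (((k.lev x).ascFactorial R : ℕ) : ℝ)

theorem I1b_asc_pos {n : ℕ} (hn : 1 ≤ n) (R : ℕ) : (0 : ℝ) < ((n.ascFactorial R : ℕ) : ℝ) := by
  obtain ⟨m, rfl⟩ : ∃ m, n = m + 1 := ⟨n - 1, by omega⟩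
  exact_mod_cast Nat.ascFactorial_pos m R

theorem I1b_term {S : Type} (k : Ker S) (hpos : ∀ x, 1 ≤ k.lev x) (t : ℝ)
    (f : S → ℝ) (x : S) (R : ℕ) : nb t (k.lev x) R * k.dE R f x =
      Real.exp (-((k.lev x : ℝ) * t)) *
        ((1 - Real.exp (-t)) ^ R / (R.factorial : ℝ) * (k.P^[R] f) x) := by
  have h := (I1b_asc_pos (hpos x) R).ne'
  unfold nb Ker.dE
  field_simp

theorem Ker.sg_eq_mix {S : Type} (k : Ker S) (hpos : ∀ x, 1 ≤ k.lev x) (t : ℝ)
    (f : S → ℝ) (x : S) : k.sg t f x = ∑' R, nb t (k.lev x) R * k.dE R f x := by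
  unfold Ker.sg
  rw [← tsum_mul_left]
  exact tsum_congr fun R => (I1b_term k hpos t f x R).symm

theorem I1b_summable {S : Type} (k : Ker S) (hpos : ∀ x, 1 ≤ k.lev x) {t : ℝ} (ht : 0 ≤ t)
    {f : S → ℝ} (hf : k.Gr f) (x : S) : Summable (fun R => nb t (k.lev x) R * k.dE R f x) := by
  have h := (k.summable_sg hf x ht).mul_left (Real.exp (-((k.lev x : ℝ) * t)))
  refine h.congr fun R => ?_
  exact (I1b_term k hpos t f x R).symm

theorem Ker.dE_zero {S : Type} (k : Ker S) (f : S → ℝ) (x : S) : k.dE 0 f x = f x := by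
  unfold Ker.dE
  simp

/-- `dE (R+1) f x = (1/lev x) P (dE R f) x` -/
theorem Ker.dE_succ {S : Type} (k : Ker S) (hpos : ∀ x, 1 ≤ k.lev x) (R : ℕ) (f : S → ℝ) (x : S) :
    k.dE (R + 1) f x = 1 / (k.lev x : ℝ) * k.P (k.dE R f) x := by
  have hx := hpos x
  have h1 : k.P (k.dE R f) x =
      k.P (fun y => (1 / (((k.lev x + 1).ascFactorial R : ℕ) : ℝ)) * (k.P^[R] f) y) x := by
    apply k.P_congr
    intro y hy
    unfold Ker.dE
    rw [hy]
    ring
  have h2 : (((k.lev x).ascFactorial (R + 1) : ℕ) : ℝ) =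
      (k.lev x : ℝ) * (((k.lev x + 1).ascFactorial R : ℕ) : ℝ) := by
    have h3 := Nat.succ_ascFactorial (k.lev x) R
    rw [Nat.ascFactorial_succ]
    have h4 : (k.lev x + R) * (k.lev x).ascFactorial R = k.lev x * (k.lev x + 1).ascFactorial R := by
      rw [← h3]
    rw [h4]
    push_cast
    ring
  rw [h1, k.P_smul]
  unfold Ker.dE
  rw [h2, Function.iterate_succ_apply']
  have h5 : (k.lev x : ℝ) ≠ 0 := by
    have : (1 : ℝ) ≤ k.lev x := by exact_mod_cast hx
    positivity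
  have h6 : ((((k.lev x + 1).ascFactorial R : ℕ)) : ℝ) ≠ 0 :=
    (I1b_asc_pos (by omega) R).ne'
  field_simp

theorem Ker.dE_mono_fun {S : Type} (k : Ker S) {f g : S → ℝ} (h : ∀ y, f y ≤ g y) (R : ℕ) (x : S) :
    k.dE R f x ≤ k.dE R g x := by
  have h1 : ∀ j : ℕ, ∀ y, (k.P^[j] f) y ≤ (k.P^[j] g) y := by
    intro j
    induction j with
    | zero => exact h
    | succ j ih =>
      intro y
      rw [Function.iterate_succ_apply', Function.iterate_succ_apply']
      exact k.P_mono fun z _ => ih z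
  unfold Ker.dE
  exact div_le_div_of_nonneg_right (h1 R x) (Nat.cast_nonneg _)

theorem Ker.dE_nonneg {S : Type} (k : Ker S) {f : S → ℝ} (h : ∀ y, 0 ≤ f y) (R : ℕ) (x : S) :
    0 ≤ k.dE R f x := by
  have h1 : ∀ j : ℕ, ∀ y, 0 ≤ (k.P^[j] f) y := by
    intro j
    induction j with
    | zero => exact h
    | succ j ih =>
      intro y
      rw [Function.iterate_succ_apply']
      exact k.P_nonneg fun z _ => ih z
  unfold Ker.dE
  exact div_nonneg (h1 R x) (Nat.cast_nonneg _)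

/-- if `lev * f ≤ P f` then `dE R f` is nondecreasing in `R` -/
theorem Ker.dE_mono {S : Type} (k : Ker S) (hpos : ∀ x, 1 ≤ k.lev x) {f : S → ℝ}
    (h : ∀ x, (k.lev x : ℝ) * f x ≤ k.P f x) (x : S) : Monotone (fun R => k.dE R f x) := by
  have key : ∀ R : ℕ, ∀ y, k.dE R f y ≤ k.dE (R + 1) f y := by
    intro R
    induction R with
    | zero =>
      intro y
      have hy : (0 : ℝ) < k.lev y := by exact_mod_cast hpos y
      rw [k.dE_succ hpos, k.dE_zero]
      have h1 : k.P (k.dE 0 f) y = k.P f y := k.P_congr fun z _ => k.dE_zero f z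
      rw [h1, one_div, ← div_eq_inv_mul, le_div_iff₀ hy, mul_comm]
      exact h y
    | succ R ih =>
      intro y
      rw [k.dE_succ hpos, k.dE_succ hpos (R + 1)]
      exact mul_le_mul_of_nonneg_left (k.P_mono fun z _ => ih z) (by positivity)
  exact monotone_nat_of_le_succ fun R => key R x

theorem Ker.dE_anti {S : Type} (k : Ker S) (hpos : ∀ x, 1 ≤ k.lev x) {f : S → ℝ}
    (h : ∀ x, k.P f x ≤ (k.lev x : ℝ) * f x) (x : S) : Antitone (fun R => k.dE R f x) := by
  have key : ∀ R : ℕ, ∀ y, k.dE (R + 1) f y ≤ k.dE R f y := by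
    intro R
    induction R with
    | zero =>
      intro y
      have hy : (0 : ℝ) < k.lev y := by exact_mod_cast hpos y
      rw [k.dE_succ hpos, k.dE_zero]
      have h1 : k.P (k.dE 0 f) y = k.P f y := k.P_congr fun z _ => k.dE_zero f z
      rw [h1, one_div, ← div_eq_inv_mul, div_le_iff₀ hy, mul_comm]
      exact h y
    | succ R ih =>
      intro y
      rw [k.dE_succ hpos (R + 1), k.dE_succ hpos R]
      exact mul_le_mul_of_nonneg_left (k.P_mono fun z _ => ih z) (by positivity)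
  exact antitone_nat_of_succ_le fun R => key R x

theorem I1b_sq {u b v : ℝ} (hb : 0 < b) (h : u + b < v) : 1 ≤ 1 / b ^ 2 * (v - u) ^ 2 := by
  rw [one_div, ← div_eq_inv_mul, le_div_iff₀ (by positivity), one_mul]
  have : b ≤ v - u := by linarith
  exact pow_le_pow_left₀ hb.le this 2

theorem I1b_ind_gr {S : Type} (k : Ker S) (p : S → Prop) [DecidablePred p] :
    k.Gr (fun y => if p y then 1 else 0) := by
  refine Ker.Gr.of_bdd k (M := 1) fun y => ?_
  split_ifs <;> simp

theorem I1b_sqgr {S : Type} (k : Ker S) {F : S → ℝ} {M : ℝ} (hF : ∀ x, |F x| ≤ M * (k.lev x + 1))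
    (u : ℝ) : k.Gr (fun y => (F y - u) ^ 2) := by
  refine Ker.Gr.of_sq k (M := M + |u|) fun y => ?_
  have h1 := hF y
  have h2 : |F y - u| ≤ |F y| + |u| := abs_sub _ _
  have h3 : (0 : ℝ) ≤ k.lev y := Nat.cast_nonneg _
  have h4 := abs_nonneg u
  nlinarith

/-- Markov/Chebyshev for the discrete chain, from above: if `Σ_{R ≥ R₀} nb t n R ≥ 1/2` and the indicator of
`{a < F}` is nondecreasing in time then `dE R₀ 1_{a < F} ≤ 2 sg t 1_{a < F} ≤ 2 sg t (F - u)² / (a - u)²` -/
theorem Ker.dE_upper {S : Type} (k : Ker S) (hpos : ∀ x, 1 ≤ k.lev x) (hone : ∀ x, k.P (fun _ => 1) x = k.lev x)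
    {F : S → ℝ} {M : ℝ} (hF : ∀ x, |F x| ≤ M * (k.lev x + 1)) {t : ℝ} (ht : 0 ≤ t)
    (hm : ∀ a : ℝ, ∀ x, (k.lev x : ℝ) * (if a < F x then 1 else 0) ≤
      k.P (fun y => if a < F y then 1 else 0) x) (x : S) {R0 : ℕ}
    (hR : 1 / 2 ≤ ∑' R, (if R0 ≤ R then nb t (k.lev x) R else 0)) {b : ℝ} (hb : 0 < b) :
    k.dE R0 (fun y => if k.sg t F x + b < F y then 1 else 0) x ≤
      2 * k.sg t (fun y => (F y - k.sg t F x) ^ 2) x / b ^ 2 := by
  set u := k.sg t F x with hu
  set G : S → ℝ := fun y => if u + b < F y then 1 else 0 with hG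
  have hGgr : k.Gr G := I1b_ind_gr k _
  have hQ : k.Gr (fun y => (F y - u) ^ 2) := I1b_sqgr k hF u
  have hQ' : k.Gr (fun y => 1 / b ^ 2 * (F y - u) ^ 2) := Ker.Gr.smul k hQ _
  have h0 : ∀ y, 0 ≤ G y := by
    intro y
    simp only [hG]
    split_ifs <;> simp
  have hmono := k.dE_mono hpos (f := G) (hm (u + b)) x
  -- Chebyshev
  have h1 : k.sg t G x ≤ k.sg t (fun y => 1 / b ^ 2 * (F y - u) ^ 2) x := by
    refine k.sg_mono k.closed_univ hGgr hQ' (fun y _ => ?_) ht (Set.mem_univ x)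
    simp only [hG]
    split_ifs with h
    · exact I1b_sq hb h
    · positivity
  rw [k.sg_smul] at h1
  -- mixture
  have h2 : 1 / 2 * k.dE R0 G x ≤ k.sg t G x := by
    rw [k.sg_eq_mix hpos]
    have hs := I1b_summable k hpos ht hGgr x
    have hd := k.dE_nonneg h0 R0 x
    have h3 : (∑' R, (if R0 ≤ R then nb t (k.lev x) R else 0)) * k.dE R0 G x ≤
        ∑' R, nb t (k.lev x) R * k.dE R G x := by
      rw [← tsum_mul_right]
      refine Summable.tsum_le_tsum (fun R => ?_) ?_ hs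
      · split_ifs with h
        · exact mul_le_mul_of_nonneg_left (hmono h) (nb_nonneg ht _ _)
        · rw [zero_mul]
          exact mul_nonneg (nb_nonneg ht _ _) (k.dE_nonneg h0 R x)
      · apply Summable.mul_right
        refine Summable.of_nonneg_of_le (fun R => ?_) (fun R => ?_) (nb_sum ht (hpos x)).summable
        · split_ifs
          · exact nb_nonneg ht _ _
          · exact le_rfl
        · split_ifs
          · exact le_rfl
          · exact nb_nonneg ht _ _
    exact (mul_le_mul_of_nonneg_right hR hd).trans h3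
  have h4 : 2 * k.sg t (fun y => (F y - u) ^ 2) x / b ^ 2 =
      2 * (1 / b ^ 2 * k.sg t (fun y => (F y - u) ^ 2) x) := by ring
  rw [h4]
  linarith

theorem Ker.dE_lower {S : Type} (k : Ker S) (hpos : ∀ x, 1 ≤ k.lev x) (hone : ∀ x, k.P (fun _ => 1) x = k.lev x)
    {F : S → ℝ} {M : ℝ} (hF : ∀ x, |F x| ≤ M * (k.lev x + 1)) {t : ℝ} (ht : 0 ≤ t)
    (hm : ∀ a : ℝ, ∀ x, k.P (fun y => if F y < a then 1 else 0) x ≤
      (k.lev x : ℝ) * (if F x < a then 1 else 0)) (x : S) {R0 : ℕ}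
    (hR : 1 / 2 ≤ ∑' R, (if R ≤ R0 then nb t (k.lev x) R else 0)) {b : ℝ} (hb : 0 < b) :
    k.dE R0 (fun y => if F y < k.sg t F x - b then 1 else 0) x ≤
      2 * k.sg t (fun y => (F y - k.sg t F x) ^ 2) x / b ^ 2 := by
  set u := k.sg t F x with hu
  set G : S → ℝ := fun y => if F y < u - b then 1 else 0 with hG
  have hGgr : k.Gr G := I1b_ind_gr k _
  have hQ : k.Gr (fun y => (F y - u) ^ 2) := I1b_sqgr k hF u
  have hQ' : k.Gr (fun y => 1 / b ^ 2 * (F y - u) ^ 2) := Ker.Gr.smul k hQ _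
  have h0 : ∀ y, 0 ≤ G y := by
    intro y
    simp only [hG]
    split_ifs <;> simp
  have hanti := k.dE_anti hpos (f := G) (hm (u - b)) x
  have h1 : k.sg t G x ≤ k.sg t (fun y => 1 / b ^ 2 * (F y - u) ^ 2) x := by
    refine k.sg_mono k.closed_univ hGgr hQ' (fun y _ => ?_) ht (Set.mem_univ x)
    simp only [hG]
    split_ifs with h
    · have h5 := I1b_sq (u := F y) (v := u) hb (by linarith)
      have h6 : (u - F y) ^ 2 = (F y - u) ^ 2 := by ring
      rw [h6] at h5
      exact h5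
    · positivity
  rw [k.sg_smul] at h1
  have h2 : 1 / 2 * k.dE R0 G x ≤ k.sg t G x := by
    rw [k.sg_eq_mix hpos]
    have hs := I1b_summable k hpos ht hGgr x
    have hd := k.dE_nonneg h0 R0 x
    have h3 : (∑' R, (if R ≤ R0 then nb t (k.lev x) R else 0)) * k.dE R0 G x ≤
        ∑' R, nb t (k.lev x) R * k.dE R G x := by
      rw [← tsum_mul_right]
      refine Summable.tsum_le_tsum (fun R => ?_) ?_ hs
      · split_ifs with h
        · exact mul_le_mul_of_nonneg_left (hanti h) (nb_nonneg ht _ _)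
        · rw [zero_mul]
          exact mul_nonneg (nb_nonneg ht _ _) (k.dE_nonneg h0 R x)
      · apply Summable.mul_right
        refine Summable.of_nonneg_of_le (fun R => ?_) (fun R => ?_) (nb_sum ht (hpos x)).summable
        · split_ifs
          · exact nb_nonneg ht _ _
          · exact le_rfl
        · split_ifs
          · exact le_rfl
          · exact nb_nonneg ht _ _
    exact (mul_le_mul_of_nonneg_right hR hd).trans h3
  have h4 : 2 * k.sg t (fun y => (F y - u) ^ 2) x / b ^ 2 =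
      2 * (1 / b ^ 2 * k.sg t (fun y => (F y - u) ^ 2) x) := by ring
  rw [h4]
  linarith

end RFT
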