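import Pool.Agent.H13.RF.A2

/-! Module I1a: negative binomial weights. -/

namespace RFT

open Finset

/-- probability that a Yule process started from `n` has made exactly `R` steps by time `t` -/
noncomputable def nb (t : ℝ) (n R : ℕ) : ℝ :=
  Real.exp (-((n : ℝ) * t)) * ((1 - Real.exp (-t)) ^ R / (R.factorial : ℝ)) *
    ((n.ascFactorial R : ℕ) : ℝ)

private lemma I1a_z {t : ℝ} (ht : 0 ≤ t) : 0 ≤ 1 - Real.exp (-t) ∧ 1 - Real.exp (-t) < 1 := by
  constructor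
  · have := Real.exp_le_one_iff.2 (by linarith : -t ≤ 0)
    linarith
  · have := Real.exp_pos (-t)
    linarith

theorem nb_nonneg {t : ℝ} (ht : 0 ≤ t) (n R : ℕ) : 0 ≤ nb t n R := by
  unfold nb
  have := (I1a_z ht).1
  positivity

/-- `∑ z^R/R! n(n+1)⋯(n+R-1) = (1-z)^(-n)` -/
theorem nb_sum {t : ℝ} (ht : 0 ≤ t) {n : ℕ} (hn : 1 ≤ n) : HasSum (nb t n) 1 := by
  obtain ⟨m, rfl⟩ : ∃ m, n = m + 1 := ⟨n - 1, by omega⟩
  obtain ⟨z0, z1⟩ := I1a_z ht
  have h1 := hasSum_choose_mul_geometric_of_norm_lt_one m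
    (r := 1 - Real.exp (-t)) (by rw [Real.norm_of_nonneg z0]; exact z1)
  have h2 := h1.mul_left (Real.exp (-(((m + 1 : ℕ) : ℝ) * t)))
  have h3 : Real.exp (-(((m + 1 : ℕ) : ℝ) * t)) * (1 / (1 - (1 - Real.exp (-t))) ^ (m + 1)) = 1 := by
    rw [show 1 - (1 - Real.exp (-t)) = Real.exp (-t) by ring, ← Real.exp_nat_mul]
    rw [show (((m + 1 : ℕ) : ℝ) * -t) = -(((m + 1 : ℕ) : ℝ) * t) by ring]
    field_simp
  rw [h3] at h2
  have h4 : nb t (m + 1) = fun R => Real.exp (-(((m + 1 : ℕ) : ℝ) * t)) *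
      (((R + m).choose m : ℕ) * (1 - Real.exp (-t)) ^ R) := by
    funext R
    unfold nb
    have h5 : (m + 1).ascFactorial R = R.factorial * (R + m).choose m := by
      rw [Nat.ascFactorial_eq_factorial_mul_choose, add_comm m R, Nat.choose_symm_add]
    rw [h5]
    have h6 : (R.factorial : ℝ) ≠ 0 := by positivity
    push_cast
    field_simp
  rw [h4]
  exact h2

private lemma I1a_step (t : ℝ) (n R : ℕ) :
    ((n : ℝ) + R) * nb t n R = n * Real.exp t * nb t (n + 1) R := by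
  unfold nb
  have h1 := Nat.succ_ascFactorial n R
  have h2 : (n : ℝ) * (((n + 1).ascFactorial R : ℕ) : ℝ) = ((n : ℝ) + R) * ((n.ascFactorial R : ℕ) : ℝ) := by
    exact_mod_cast h1
  have h3 : Real.exp (-((n : ℝ) * t)) = Real.exp t * Real.exp (-(((n + 1 : ℕ) : ℝ) * t)) := by
    rw [← Real.exp_add]
    congr 1
    push_cast
    ring
  rw [h3]
  calc _ = Real.exp t * Real.exp (-(((n + 1 : ℕ) : ℝ) * t)) *
        ((1 - Real.exp (-t)) ^ R / (R.factorial : ℝ)) * (((n : ℝ) + R) * ((n.ascFactorial R : ℕ) : ℝ)) := by ring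
    _ = _ := by rw [← h2]; ring

/-- first and second moment: `E (n+R) = n e^t`, `E (n+R)(n+R+1) = n(n+1) e^(2t)`; hence
`E (n + R - n e^t)^2 ≤ n e^(2t)` -/
theorem nb_var {t : ℝ} (ht : 0 ≤ t) {n : ℕ} (hn : 1 ≤ n) :
    Summable (fun R => nb t n R * ((n : ℝ) + R - n * Real.exp t) ^ 2) ∧
    ∑' R, nb t n R * ((n : ℝ) + R - n * Real.exp t) ^ 2 ≤ n * Real.exp (2 * t) := by
  have s0 := nb_sum ht hn
  have s1 := (nb_sum ht (show 1 ≤ n + 1 by omega)).mul_left ((n : ℝ) * Real.exp t)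
  have s2 := (nb_sum ht (show 1 ≤ n + 2 by omega)).mul_left ((n : ℝ) * (n + 1) * Real.exp t ^ 2)
  have e2 : ∀ R, ((n : ℝ) + R) * ((n : ℝ) + R + 1) * nb t n R =
      (n : ℝ) * (n + 1) * Real.exp t ^ 2 * nb t (n + 2) R := by
    intro R
    have h1 := I1a_step t n R
    have h2 := I1a_step t (n + 1) R
    push_cast at h2
    calc ((n : ℝ) + R) * ((n : ℝ) + R + 1) * nb t n R
        = ((n : ℝ) + R + 1) * (((n : ℝ) + R) * nb t n R) := by ring
      _ = (n : ℝ) * Real.exp t * (((n : ℝ) + 1 + R) * nb t (n + 1) R) := by rw [h1]; ring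
      _ = _ := by rw [h2]; ring
  have hs := (s2.sub (s1.mul_left (1 + 2 * n * Real.exp t))).add (s0.mul_left ((n : ℝ) ^ 2 * Real.exp t ^ 2))
  have hf : (fun R => nb t n R * ((n : ℝ) + R - n * Real.exp t) ^ 2) = fun R =>
      (n : ℝ) * (n + 1) * Real.exp t ^ 2 * nb t (n + 2) R -
        (1 + 2 * n * Real.exp t) * ((n : ℝ) * Real.exp t * nb t (n + 1) R) +
        (n : ℝ) ^ 2 * Real.exp t ^ 2 * nb t n R := by
    funext R
    rw [← e2 R, ← I1a_step t n R]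
    ring
  rw [hf]
  refine ⟨hs.summable, ?_⟩
  rw [hs.tsum_eq]
  have h5 : Real.exp (2 * t) = Real.exp t ^ 2 := by
    rw [← Real.exp_nat_mul]; push_cast; ring_nf
  rw [h5]
  have h6 : 0 ≤ (n : ℝ) * Real.exp t := by positivity
  nlinarith

private lemma I1a_cheb {t δ : ℝ} (ht : 0 ≤ t) (hδ : 0 < δ) : ∃ n0 : ℕ, 1 ≤ n0 ∧ ∀ n : ℕ, n0 ≤ n →
    ∀ p : ℕ → Prop, [DecidablePred p] → (∀ R, ¬ p R → (n : ℝ) * δ ≤ |(n : ℝ) + R - n * Real.exp t|) →
    1 / 2 ≤ ∑' R, (if p R then nb t n R else 0) := by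
  refine ⟨max 1 ⌈2 * Real.exp (2 * t) / δ ^ 2⌉₊, le_max_left _ _, fun n hn p _ hp => ?_⟩
  have hn1 : 1 ≤ n := (le_max_left _ _).trans hn
  have hn0 : (0 : ℝ) < n := by positivity
  have hn2 : 2 * Real.exp (2 * t) / δ ^ 2 ≤ n :=
    (Nat.le_ceil _).trans (by exact_mod_cast (le_max_right _ _).trans hn)
  obtain ⟨v1, v2⟩ := nb_var ht hn1
  have s0 := nb_sum ht hn1
  have hnn := nb_nonneg ht n
  have hsum : Summable (fun R => if p R then nb t n R else 0) := by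
    refine Summable.of_nonneg_of_le (fun R => ?_) (fun R => ?_) s0.summable
    · split_ifs
      · exact hnn R
      · exact le_rfl
    · split_ifs
      · exact le_rfl
      · exact hnn R
  have hle : ∀ R, nb t n R - 1 / ((n : ℝ) * δ) ^ 2 * (nb t n R * ((n : ℝ) + R - n * Real.exp t) ^ 2) ≤
      if p R then nb t n R else 0 := by
    intro R
    have hR := hnn R
    split_ifs with h
    · have : 0 ≤ 1 / ((n : ℝ) * δ) ^ 2 * (nb t n R * ((n : ℝ) + R - n * Real.exp t) ^ 2) := by positivity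
      linarith
    · have h1 := hp R h
      have h2 : ((n : ℝ) * δ) ^ 2 ≤ ((n : ℝ) + R - n * Real.exp t) ^ 2 := by
        rw [← sq_abs ((n : ℝ) + R - n * Real.exp t)]
        exact pow_le_pow_left₀ (by positivity) h1 2
      have h3 : 1 ≤ 1 / ((n : ℝ) * δ) ^ 2 * ((n : ℝ) + R - n * Real.exp t) ^ 2 := by
        rw [div_mul_eq_mul_div, one_mul, le_div_iff₀ (by positivity), one_mul]
        exact h2
      have h4 := mul_le_mul_of_nonneg_left h3 hR
      linarith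
  have hs2 := s0.summable.sub (v1.mul_left (1 / ((n : ℝ) * δ) ^ 2))
  have h5 := hs2.tsum_le_tsum hle hsum
  rw [s0.summable.tsum_sub (v1.mul_left _), s0.tsum_eq, tsum_mul_left] at h5
  refine le_trans ?_ h5
  have h6 : 1 / ((n : ℝ) * δ) ^ 2 * ∑' R, nb t n R * ((n : ℝ) + R - n * Real.exp t) ^ 2 ≤
      1 / ((n : ℝ) * δ) ^ 2 * (n * Real.exp (2 * t)) := mul_le_mul_of_nonneg_left v2 (by positivity)
  have h7 : 1 / ((n : ℝ) * δ) ^ 2 * (n * Real.exp (2 * t)) ≤ 1 / 2 := by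
    rw [div_mul_eq_mul_div, one_mul, div_le_iff₀ (by positivity)]
    rw [div_le_iff₀ (by positivity)] at hn2
    nlinarith
  linarith

/-- Chebyshev -/
theorem nb_ge {t ρ : ℝ} (ht : 0 ≤ t) (h : ρ < Real.exp t) : ∃ n0 : ℕ, ∀ n m : ℕ, n0 ≤ n →
    (m : ℝ) ≤ ρ * n → 1 / 2 ≤ ∑' R, (if m ≤ n + R then nb t n R else 0) := by
  obtain ⟨n0, h1, h2⟩ := I1a_cheb ht (show 0 < Real.exp t - ρ by linarith)
  refine ⟨n0, fun n m hn hm => h2 n hn (fun R => m ≤ n + R) fun R hR => ?_⟩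
  have h3 : ((n : ℝ) + R) < m := by exact_mod_cast not_le.1 hR
  have h4 := neg_abs_le ((n : ℝ) + R - n * Real.exp t)
  nlinarith

theorem nb_le {t ρ : ℝ} (ht : 0 ≤ t) (h : Real.exp t < ρ) : ∃ n0 : ℕ, ∀ n m : ℕ, n0 ≤ n →
    ρ * n ≤ (m : ℝ) → 1 / 2 ≤ ∑' R, (if n + R ≤ m then nb t n R else 0) := by
  obtain ⟨n0, h1, h2⟩ := I1a_cheb ht (show 0 < ρ - Real.exp t by linarith)
  refine ⟨n0, fun n m hn hm => h2 n hn (fun R => n + R ≤ m) fun R hR => ?_⟩
  have h3 : (m : ℝ) < ((n : ℝ) + R) := by exact_mod_cast not_le.1 hR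
  have h4 := le_abs_self ((n : ℝ) + R - n * Real.exp t)
  nlinarith

end RFT
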