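import Pool.Agent.H13.RF.I1

/-! Module I2: chains on a probability space. -/

namespace RFT

open Finset MeasureTheory

/-- A random sequence with the transition law of the discrete chain of `k` from time `n0` on: at time `n` the level
is `n`, and the next state is chosen with probabilities rate`/n`. -/
structure Chain {S : Type} (k : Ker S) {Ω : Type*} [MeasurableSpace Ω] (P : Measure Ω) (n0 : ℕ)
    (X : ℕ → Ω → S) : Prop where
  fin : ∀ n, (Set.range (X n)).Finite
  meas : ∀ n s, MeasurableSet (X n ⁻¹' {s})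
  lev : ∀ n, n0 ≤ n → ∀ ω, k.lev (X n ω) = n
  markov : ∀ j n, n0 ≤ j → j ≤ n → ∀ G : S → S → ℝ,
    ∫ ω, G (X j ω) (X (n + 1) ω) ∂P = ∫ ω, 1 / (n : ℝ) * k.P (G (X j ω)) (X n ω) ∂P

variable {S : Type} {k : Ker S} {Ω : Type*} [MeasurableSpace Ω] {P : Measure Ω} {n0 : ℕ}
  {X : ℕ → Ω → S}

theorem Chain.measSet (h : Chain k P n0 X) (n : ℕ) (A : Set S) : MeasurableSet {ω | X n ω ∈ A} := by
  have e : {ω | X n ω ∈ A} = ⋃ s ∈ Set.range (X n) ∩ A, X n ⁻¹' {s} := by
    ext ω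
    simp only [Set.mem_ofPred_eq, Set.mem_iUnion, Set.mem_preimage, Set.mem_singleton_iff,
      exists_prop]
    constructor
    · intro hω
      exact ⟨X n ω, ⟨⟨ω, rfl⟩, hω⟩, rfl⟩
    · rintro ⟨s, ⟨-, hs⟩, hs'⟩
      rw [hs']
      exact hs
  rw [e]
  exact Set.Finite.measurableSet_biUnion ((h.fin n).subset Set.inter_subset_left)
    fun s _ => h.meas n s

theorem Chain.measSet₂ (h : Chain k P n0 X) (j n : ℕ) (A : Set (S × S)) :
    MeasurableSet {ω | (X j ω, X n ω) ∈ A} := by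
  have e : {ω | (X j ω, X n ω) ∈ A} =
      ⋃ p ∈ (Set.range (X j) ×ˢ Set.range (X n)) ∩ A, (X j ⁻¹' {p.1} ∩ X n ⁻¹' {p.2}) := by
    ext ω
    simp only [Set.mem_ofPred_eq, Set.mem_iUnion, Set.mem_inter_iff, Set.mem_preimage,
      Set.mem_singleton_iff, exists_prop]
    constructor
    · intro hω
      exact ⟨(X j ω, X n ω), ⟨⟨⟨ω, rfl⟩, ⟨ω, rfl⟩⟩, hω⟩, rfl, rfl⟩
    · rintro ⟨p, ⟨-, hs⟩, hs1, hs2⟩
      rw [hs1, hs2]
      exact hs
  rw [e]
  exact Set.Finite.measurableSet_biUnion (((h.fin j).prod (h.fin n)).subset Set.inter_subset_left)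
    fun p _ => (h.meas j p.1).inter (h.meas n p.2)

theorem Chain.integrable [IsProbabilityMeasure P] (h : Chain k P n0 X) (j n : ℕ) (G : S → S → ℝ) :
    Integrable (fun ω => G (X j ω) (X n ω)) P := by
  have hm : Measurable (fun ω => G (X j ω) (X n ω)) := fun B _ =>
    h.measSet₂ j n {p | G p.1 p.2 ∈ B}
  have hfin : (Set.range (fun ω => G (X j ω) (X n ω))).Finite := by
    refine (((h.fin j).prod (h.fin n)).image (fun p : S × S => G p.1 p.2)).subset ?_
    rintro _ ⟨ω, rfl⟩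
    exact ⟨(X j ω, X n ω), ⟨⟨ω, rfl⟩, ⟨ω, rfl⟩⟩, rfl⟩
  obtain ⟨C, hC⟩ := (hfin.image fun r : ℝ => ‖r‖).bddAbove
  refine Integrable.of_bound hm.aestronglyMeasurable C (Filter.Eventually.of_forall fun ω => ?_)
  exact hC ⟨_, ⟨ω, rfl⟩, rfl⟩

theorem I2_dE {S : Type} (k : Ker S) (R : ℕ) (g : S → ℝ) (x : S) :
    k.dE R (fun y => 1 / ((k.lev x + R : ℕ) : ℝ) * k.P g y) x = k.dE (R + 1) g x := by
  unfold Ker.dE
  rw [k.iter_smul, Nat.ascFactorial_succ, Function.iterate_succ_apply]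
  push_cast
  by_cases h0 : (k.lev x : ℝ) + R = 0
  · rw [h0]
    simp
  by_cases h1 : (((k.lev x).ascFactorial R : ℕ) : ℝ) = 0
  · rw [h1]
    simp
  field_simp

/-- `R` steps -/
theorem Chain.steps [IsProbabilityMeasure P] (h : Chain k P n0 X) (hn0 : 1 ≤ n0) {j : ℕ}
    (hj : n0 ≤ j) (R : ℕ) (G : S → S → ℝ) :
    ∫ ω, G (X j ω) (X (j + R) ω) ∂P = ∫ ω, k.dE R (G (X j ω)) (X j ω) ∂P := by
  induction R generalizing G with
  | zero => simp only [Nat.add_zero, Ker.dE_zero]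
  | succ R ih =>
    rw [← Nat.add_assoc, h.markov j (j + R) hj (Nat.le_add_right j R) G,
      ih (fun s y => 1 / ((j + R : ℕ) : ℝ) * k.P (G s) y)]
    refine integral_congr_ae (Filter.Eventually.of_forall fun ω => ?_)
    show k.dE R (fun y => 1 / ((j + R : ℕ) : ℝ) * k.P (G (X j ω)) y) (X j ω) = _
    have e := I2_dE k R (G (X j ω)) (X j ω)
    rw [h.lev j hj ω] at e
    exact e

/-- probability of a joint event of `X_j`, `X_{j+R}` -/
theorem Chain.prob_le [IsProbabilityMeasure P] (h : Chain k P n0 X) (hn0 : 1 ≤ n0) {j : ℕ}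
    (hj : n0 ≤ j) (R : ℕ) (A : S → Prop) (B : S → S → Prop) [DecidablePred A]
    [∀ x, DecidablePred (B x)] {q : ℝ} (hq : 0 ≤ q)
    (hB : ∀ x, k.lev x = j → A x → k.dE R (fun y => if B x y then 1 else 0) x ≤ q) :
    P.real {ω | A (X j ω) ∧ B (X j ω) (X (j + R) ω)} ≤ q := by
  classical
  have hms : MeasurableSet {ω | A (X j ω) ∧ B (X j ω) (X (j + R) ω)} :=
    h.measSet₂ j (j + R) {p | A p.1 ∧ B p.1 p.2}
  have e1 : P.real {ω | A (X j ω) ∧ B (X j ω) (X (j + R) ω)} =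
      ∫ ω, (fun x y => if A x ∧ B x y then (1 : ℝ) else 0) (X j ω) (X (j + R) ω) ∂P := by
    rw [← integral_indicator_one hms]
    refine integral_congr_ae (Filter.Eventually.of_forall fun ω => ?_)
    simp only [Set.indicator_apply, Set.mem_ofPred_eq, Pi.one_apply]
  rw [e1, h.steps hn0 hj R (fun x y => if A x ∧ B x y then (1 : ℝ) else 0)]
  have e2 : ∀ ω, k.dE R (fun y => if A (X j ω) ∧ B (X j ω) y then (1 : ℝ) else 0) (X j ω) ≤ q := by
    intro ω
    by_cases hA : A (X j ω)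
    · simp only [hA, true_and]
      exact hB (X j ω) (h.lev j hj ω) hA
    · simp only [hA, false_and, if_false]
      have : k.dE R (fun _ => (0 : ℝ)) (X j ω) = 0 := by
        unfold Ker.dE
        have := k.iter_smul 0 (fun _ => 0) R (X j ω)
        simp only [mul_zero, zero_mul] at this
        rw [this, zero_div]
      rw [this]
      exact hq
  calc ∫ ω, k.dE R (fun y => if A (X j ω) ∧ B (X j ω) y then (1 : ℝ) else 0) (X j ω) ∂P
      ≤ ∫ _ω, q ∂P := by
        refine integral_mono ?_ (integrable_const q) e2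
        exact h.integrable j j (fun x y => k.dE R (fun y' => if A x ∧ B x y' then (1 : ℝ) else 0) y)
    _ = q := by simp

end RFT
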