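import Pool.Agent.H13.RF.I2
import Pool.Agent.H13.RF.H1

/-! Module I3: concentration of the friend tree chain. -/

namespace RFT

open Finset RT MeasureTheory

variable {Ω : Type*} [MeasurableSpace Ω] {P : Measure Ω} {X : ℕ → Ω → RT Unit × RT Unit}

theorem one_le_lev (x : RT Unit × RT Unit) : 1 ≤ kerT.lev x := by
  show 1 ≤ x.1.size + x.2.size
  have := size_pos x.1
  omega

theorem I3_abs_Fk (k : ℕ) (x : RT Unit × RT Unit) : |Fk k x| ≤ 1 * ((kerT.lev x : ℝ) + 1) := by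
  have h1 : |wsum (fun d => if k ≤ d then (1 : ℝ) else 0) x| ≤ 1 * wpop x := by
    apply abs_wsum_le
    intro d
    split_ifs <;> simp
  have h2 := wpop_le_lev x
  unfold Fk
  linarith

/-- variance divided by the square of the deviation -/
theorem I3_var {k : ℕ} (hk : 2 ≤ k) {t : ℝ} (ht : 0 ≤ t) {ε : ℝ} (hε : 0 < ε)
    {x : RT Unit × RT Unit} {a : ℝ} (ha : 1 ≤ a) (hx : a ≤ wpop x) :
    2 * kerT.sg t (fun y => (Fk k y - kerT.sg t (Fk k) x) ^ 2) x / (ε * wpop x) ^ 2 ≤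
      16 * (k : ℝ) ^ 2 * Real.exp (8 * t) / ε ^ 2 / a := by
  have hI : Inv (Fk k) := Inv.wsum _
  have h1 := variance hI (I3_abs_Fk k) (α := (k : ℝ)) (Nat.cast_nonneg k)
    (fun B A => Fk_influence hk B A) ht x
  have hw : 0 < wpop x := by linarith
  have hw1 : 1 ≤ wpop x := ha.trans hx
  have ha0 : 0 < a := by linarith
  have h2 : 2 * kerT.sg t (fun y => (Fk k y - kerT.sg t (Fk k) x) ^ 2) x ≤
      2 * (4 * (k : ℝ) ^ 2 * Real.exp (8 * t) * (wpop x + 1)) := by linarith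
  calc 2 * kerT.sg t (fun y => (Fk k y - kerT.sg t (Fk k) x) ^ 2) x / (ε * wpop x) ^ 2
      ≤ 2 * (4 * (k : ℝ) ^ 2 * Real.exp (8 * t) * (wpop x + 1)) / (ε * wpop x) ^ 2 :=
        div_le_div_of_nonneg_right h2 (by positivity)
    _ ≤ 2 * (4 * (k : ℝ) ^ 2 * Real.exp (8 * t) * (2 * wpop x)) / (ε * wpop x) ^ 2 := by
        apply div_le_div_of_nonneg_right _ (by positivity)
        have : (0 : ℝ) ≤ 4 * (k : ℝ) ^ 2 * Real.exp (8 * t) := by positivity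
        nlinarith
    _ = 16 * (k : ℝ) ^ 2 * Real.exp (8 * t) / ε ^ 2 / wpop x := by
        field_simp
        ring
    _ ≤ 16 * (k : ℝ) ^ 2 * Real.exp (8 * t) / ε ^ 2 / a :=
        div_le_div_of_nonneg_left (by positivity) ha0 hx

/-- `Chain.prob_le` with `Ker.dE_upper`, `nb_ge`, `variance` (`α = k`), `wpop + 1 ≤ 2 wpop` -/
theorem conc_up [IsProbabilityMeasure P] (h : Chain kerT P 2 X) {k : ℕ} (hk : 2 ≤ k) {t ρ : ℝ}
    (ht : 0 ≤ t) (hρ : ρ < Real.exp t) {ε : ℝ} (hε : 0 < ε) :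
    ∃ K : ℝ, ∃ n1 : ℕ, ∀ j m : ℕ, n1 ≤ j → j ≤ m → (m : ℝ) ≤ ρ * j → ∀ a : ℝ, 1 ≤ a →
      P.real {ω | a ≤ wpop (X j ω) ∧
        kerT.sg t (Fk k) (X j ω) + ε * wpop (X j ω) < Fk k (X m ω)} ≤ K / a := by
  classical
  obtain ⟨n0, hn0⟩ := nb_ge ht hρ
  refine ⟨16 * (k : ℝ) ^ 2 * Real.exp (8 * t) / ε ^ 2, max n0 2, ?_⟩
  intro j m hj hjm hm a ha
  have hj0 : n0 ≤ j := (le_max_left _ _).trans hj
  have hj2 : 2 ≤ j := (le_max_right _ _).trans hj
  obtain ⟨R, rfl⟩ := Nat.exists_eq_add_of_le hjm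
  refine h.prob_le (by norm_num) hj2 R (fun x => a ≤ wpop x)
    (fun x y => kerT.sg t (Fk k) x + ε * wpop x < Fk k y) (by positivity) ?_
  intro x hlev hx
  have hw : 0 < wpop x := by linarith
  have hR : 1 / 2 ≤ ∑' R', (if R ≤ R' then nb t (kerT.lev x) R' else 0) := by
    have h1 := hn0 j (j + R) hj0 hm
    rw [hlev]
    simpa only [Nat.add_le_add_iff_left] using h1
  have h2 := kerT.dE_upper one_le_lev (Env.ker_one Env.rt Unit) (F := Fk k) (M := 1)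
    (I3_abs_Fk k) ht (fun a x => Fk_mono k a x) x (R0 := R) hR (b := ε * wpop x) (by positivity)
  exact h2.trans (I3_var hk ht hε ha hx)

theorem conc_lo [IsProbabilityMeasure P] (h : Chain kerT P 2 X) {k : ℕ} (hk : 2 ≤ k) {t ρ : ℝ}
    (ht : 0 ≤ t) (hρ : Real.exp t < ρ) {ε : ℝ} (hε : 0 < ε) :
    ∃ K : ℝ, ∃ n1 : ℕ, ∀ j m : ℕ, n1 ≤ j → j ≤ m → ρ * j ≤ (m : ℝ) → ∀ a : ℝ, 1 ≤ a →
      P.real {ω | a ≤ wpop (X j ω) ∧
        Fk k (X m ω) < kerT.sg t (Fk k) (X j ω) - ε * wpop (X j ω)} ≤ K / a := by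
  classical
  obtain ⟨n0, hn0⟩ := nb_le ht hρ
  refine ⟨16 * (k : ℝ) ^ 2 * Real.exp (8 * t) / ε ^ 2, max n0 2, ?_⟩
  intro j m hj hjm hm a ha
  have hj0 : n0 ≤ j := (le_max_left _ _).trans hj
  have hj2 : 2 ≤ j := (le_max_right _ _).trans hj
  obtain ⟨R, rfl⟩ := Nat.exists_eq_add_of_le hjm
  refine h.prob_le (by norm_num) hj2 R (fun x => a ≤ wpop x)
    (fun x y => Fk k y < kerT.sg t (Fk k) x - ε * wpop x) (by positivity) ?_
  intro x hlev hx
  have hw : 0 < wpop x := by linarith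
  have hR : 1 / 2 ≤ ∑' R', (if R' ≤ R then nb t (kerT.lev x) R' else 0) := by
    have h1 := hn0 j (j + R) hj0 hm
    rw [hlev]
    simpa only [Nat.add_le_add_iff_left] using h1
  have h2 := kerT.dE_lower one_le_lev (Env.ker_one Env.rt Unit) (F := Fk k) (M := 1)
    (I3_abs_Fk k) ht (fun a x => Fk_mono' k a x) x (R0 := R) hR (b := ε * wpop x) (by positivity)
  exact h2.trans (I3_var hk ht hε ha hx)

end RFT
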