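import Pool.Agent.H13.RF.I3

/-! Module I4: the number of non-leaves tends to infinity. -/

namespace RFT

open Finset RT MeasureTheory Filter Topology

variable {Ω : Type*} [MeasurableSpace Ω] {P : Measure Ω} {X : ℕ → Ω → RT Unit × RT Unit}

theorem I4_pop_leaf : pop (leaf : RT Unit) = 0 := by
  simp [pop, leaf, asum]

theorem I4_pop_nonneg (B : RT Unit) : 0 ≤ pop B := by
  induction B with
  | node a n K ih =>
    unfold pop at *
    rw [asum]
    split_ifs with h
    · exact le_rfl
    · have := Finset.sum_nonneg (s := Finset.univ) fun i _ => ih i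
      linarith

theorem I4_pop_node (a : Unit) (n : ℕ) (hn : n ≠ 0) (K : Fin n → RT Unit) :
    pop (node a n K) = 1 + ∑ i, pop (K i) := by
  unfold pop
  rw [asum, if_neg hn]

theorem I4_pop_snoc (a : Unit) (n : ℕ) (K : Fin n → RT Unit) :
    pop (node a (n + 1) (Fin.snoc (α := fun _ => RT Unit) K leaf)) = 1 + ∑ i, pop (K i) := by
  rw [I4_pop_node _ _ (Nat.succ_ne_zero n), Fin.sum_univ_castSucc]
  simp [I4_pop_leaf]

theorem I4_pop_add (B : RT Unit) : pop (add B) = pop B ∨ pop (add B) = pop B + 1 := by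
  cases B with
  | node a n K =>
    show pop (node a (n + 1) (Fin.snoc (α := fun _ => RT Unit) K leaf)) = _ ∨
      pop (node a (n + 1) (Fin.snoc (α := fun _ => RT Unit) K leaf)) = _
    rw [I4_pop_snoc]
    by_cases hn : n = 0
    · subst hn
      right
      simp [pop, asum]
    · left
      rw [I4_pop_node _ _ hn]

theorem I4_pop_msg (B : RT Unit) : pop (msg B) = pop B ∨ pop (msg B) = pop B + 1 := by
  have e : msg B = add B := by
    cases B
    rfl
  rw [e]
  exact I4_pop_add B

theorem I4_pop_rep (n : ℕ) (a : Unit) (K : Fin n → RT Unit) (i : Fin n) (c : RT Unit) :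
    pop (rep n a K i c) = pop (node a n K) + (pop c - pop (K i)) := by
  have hn : n ≠ 0 := by
    rintro rfl
    exact i.elim0
  unfold rep
  rw [I4_pop_node _ _ hn, I4_pop_node _ _ hn]
  have h1 : ∑ j, pop (Function.update K i c j) =
      ∑ j, Function.update (fun j => pop (K j)) i (pop c) j := by
    apply Finset.sum_congr rfl
    intro j _
    by_cases hj : j = i
    · subst hj; simp
    · simp [Function.update_of_ne hj]
  rw [h1, Finset.sum_update_of_mem (Finset.mem_univ i),
    ← Finset.add_sum_erase _ _ (Finset.mem_univ i), Finset.sdiff_singleton_eq_erase]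
  ring

theorem I4_Q_mono (B : RT Unit) : ∀ u v : RT Unit → ℝ,
    (∀ c, (pop c = pop B ∨ pop c = pop B + 1) → u c ≤ v c) → Q B u ≤ Q B v := by
  induction B with
  | node a n K ih =>
    intro u v h
    simp only [Q]
    apply Finset.sum_le_sum
    intro i _
    have h1 : ∀ c, (pop c = pop (K i) ∨ pop c = pop (K i) + 1) →
        u (rep n a K i c) ≤ v (rep n a K i c) := by
      intro c hc
      apply h
      rw [I4_pop_rep]
      rcases hc with hc | hc
      · left
        rw [hc]
        ring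
      · right
        rw [hc]
        ring
    refine add_le_add (add_le_add ?_ ?_) ?_
    · exact mul_le_mul_of_nonneg_left (h1 _ (I4_pop_msg _)) (by positivity)
    · exact ih i _ _ h1
    · exact mul_le_mul_of_nonneg_left (h _ (I4_pop_add _)) (upr_nonneg _)

theorem I4_wpop (x : RT Unit × RT Unit) : wpop x = pop x.1 + pop x.2 := rfl

theorem I4_wpop_nonneg (x : RT Unit × RT Unit) : 0 ≤ wpop x := by
  rw [I4_wpop]
  exact add_nonneg (I4_pop_nonneg _) (I4_pop_nonneg _)

/-- along a transition `wpop` stays or goes up by one -/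
theorem P_mono_wpop {u v : RT Unit × RT Unit → ℝ} {x : RT Unit × RT Unit}
    (h : ∀ y, (wpop y = wpop x ∨ wpop y = wpop x + 1) → u y ≤ v y) :
    kerT.P u x ≤ kerT.P v x := by
  show Env.rt.pairP u x ≤ Env.rt.pairP v x
  unfold Env.pairP
  have h1 : ∀ c, (pop c = pop x.1 ∨ pop c = pop x.1 + 1) → u (c, x.2) ≤ v (c, x.2) := by
    intro c hc
    apply h
    rw [I4_wpop, I4_wpop]
    rcases hc with hc | hc
    · left
      simp only [hc]
    · right
      simp only [hc]
      ring
  have h2 : ∀ c, (pop c = pop x.2 ∨ pop c = pop x.2 + 1) → u (x.1, c) ≤ v (x.1, c) := by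
    intro c hc
    apply h
    rw [I4_wpop, I4_wpop]
    rcases hc with hc | hc
    · left
      simp only [hc]
    · right
      simp only [hc]
      ring
  refine add_le_add (add_le_add (add_le_add ?_ ?_) ?_) ?_
  · exact I4_Q_mono _ _ _ h1
  · exact I4_Q_mono _ _ _ h2
  · exact mul_le_mul_of_nonneg_left (h2 _ (I4_pop_add _)) (upr_nonneg _)
  · exact mul_le_mul_of_nonneg_left (h1 _ (I4_pop_msg _)) (Env.rt.snd_nonneg _)

/-- `P (1/wpop) ≤ lev/N - 1/(2 N (N+1))`: on transitions `1/wpop y = 1/N - (wpop y - N)/(N(N+1))`; `L_wpop_ge` -/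
theorem P_inv_wpop {x : RT Unit × RT Unit} (hx : wpop x ≠ 0) :
    kerT.P (fun y => 1 / wpop y) x ≤
      (kerT.lev x : ℝ) * (1 / wpop x) - 1 / 2 * (1 / (wpop x * (wpop x + 1))) := by
  have hN : 0 < wpop x := lt_of_le_of_ne (I4_wpop_nonneg x) (Ne.symm hx)
  set N := wpop x with hNdef
  have h1 : kerT.P (fun y => 1 / wpop y) x ≤
      kerT.P (fun y => (1 / N + N / (N * (N + 1))) * 1 - 1 / (N * (N + 1)) * wpop y) x := by
    apply P_mono_wpop
    intro y hy
    rcases hy with hy | hy
    · rw [hy, ← hNdef]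
      apply le_of_eq
      field_simp
      ring
    · rw [hy, ← hNdef]
      apply le_of_eq
      field_simp
      ring
  refine h1.trans ?_
  rw [kerT.P_sub, kerT.P_smul, kerT.P_smul]
  have h2 : kerT.P (fun _ => 1) x = kerT.lev x := Env.ker_one Env.rt Unit x
  have h3 := L_wpop_ge hx
  unfold Ker.L at h3
  rw [← hNdef] at h3
  have h4 : kerT.P (fun y => wpop y) x = kerT.P wpop x := rfl
  rw [h2, h4]
  have h5 : 0 < 1 / (N * (N + 1)) := by positivity
  have h6 : 1 / (N * (N + 1)) * (1 / 2 + kerT.lev x * N) ≤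
      1 / (N * (N + 1)) * kerT.P wpop x :=
    mul_le_mul_of_nonneg_left (by linarith) h5.le
  have h7 : (1 / N + N / (N * (N + 1))) * (kerT.lev x : ℝ) -
      1 / (N * (N + 1)) * (1 / 2 + kerT.lev x * N) =
      (kerT.lev x : ℝ) * (1 / N) - 1 / 2 * (1 / (N * (N + 1))) := by
    field_simp
    ring
  linarith

/-- a nonnegative nonincreasing sequence `b` with `a (n+1) ≤ a n - b n/(2n)`, `a ≥ 0`, tends to zero -/
theorem tendsto_zero_of {a b : ℕ → ℝ} (ha : ∀ n, 0 ≤ a n) (hb : ∀ n, 0 ≤ b n) {n0 : ℕ}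
    (hn0 : 1 ≤ n0) (hanti : ∀ n, n0 ≤ n → b (n + 1) ≤ b n)
    (h : ∀ n, n0 ≤ n → a (n + 1) ≤ a n - b n / (2 * n)) : Tendsto b atTop (𝓝 0) := by
  -- partial sums of `b n / (2 n)` are bounded by `a n0`
  have hanti' : ∀ n m, n0 ≤ n → n ≤ m → b m ≤ b n := by
    intro n m hn hm
    induction m, hm using Nat.le_induction with
    | base => exact le_rfl
    | succ m hm ih => exact (hanti m (hn.trans hm)).trans ih
  have hsum : ∀ k, ∑ i ∈ range k, b (n0 + i) / (2 * ((n0 + i : ℕ) : ℝ)) ≤ a n0 - a (n0 + k) := by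
    intro k
    induction k with
    | zero => simp
    | succ k ih =>
      rw [Finset.sum_range_succ]
      have := h (n0 + k) (Nat.le_add_right _ _)
      have e : n0 + (k + 1) = n0 + k + 1 := rfl
      rw [e]
      linarith
  rw [Metric.tendsto_atTop]
  intro ε hε
  by_contra hcon
  push Not at hcon
  have hge : ∀ n, n0 ≤ n → ε ≤ b n := by
    intro n hn
    obtain ⟨m, hm, hm'⟩ := hcon n
    rw [Real.dist_eq, sub_zero, abs_of_nonneg (hb m)] at hm'
    exact hm'.trans (hanti' n m hn hm)
  have hbd : ∀ k, ∑ i ∈ range k, ε / 2 * (1 / ((n0 + i : ℕ) : ℝ)) ≤ a n0 := by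
    intro k
    refine le_trans (Finset.sum_le_sum fun i _ => ?_) ((hsum k).trans (by linarith [ha (n0 + k)]))
    have h1 : (0 : ℝ) < ((n0 + i : ℕ) : ℝ) := by
      have : 0 < n0 + i := by omega
      exact_mod_cast this
    have h2 := hge (n0 + i) (Nat.le_add_right _ _)
    rw [div_mul_div_comm, mul_one]
    exact div_le_div_of_nonneg_right h2 (by positivity)
  have hs : Summable fun i : ℕ => ε / 2 * (1 / ((n0 + i : ℕ) : ℝ)) :=
    summable_of_sum_range_le (fun i => by positivity) hbd
  have hs2 : Summable fun i : ℕ => 1 / ((i + n0 : ℕ) : ℝ) := by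
    have h3 := hs.mul_left (2 / ε)
    refine h3.congr fun i => ?_
    rw [Nat.add_comm n0 i]
    field_simp
  rw [summable_nat_add_iff (f := fun i : ℕ => 1 / (i : ℝ)) n0] at hs2
  exact Real.not_summable_one_div_natCast hs2

theorem wpop_tendsto [IsProbabilityMeasure P] (h : Chain kerT P 2 X)
    (hmono : ∀ ω n, 2 ≤ n → wpop (X n ω) ≤ wpop (X (n + 1) ω)) (M : ℝ) :
    Tendsto (fun n => P.real {ω | wpop (X n ω) < M}) atTop (𝓝 0) := by
  have hpos : ∀ n, 3 ≤ n → ∀ ω, 0 < wpop (X n ω) := by
    intro n hn ω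
    refine lt_of_le_of_ne (I4_wpop_nonneg _) (Ne.symm (wpop_ne_zero ?_))
    rw [h.lev n (by omega) ω]
    exact hn
  let a : ℕ → ℝ := fun n => ∫ ω, 1 / wpop (X n ω) ∂P
  let b : ℕ → ℝ := fun n => ∫ ω, 1 / (wpop (X n ω) * (wpop (X n ω) + 1)) ∂P
  have ha : ∀ n, 0 ≤ a n := fun n => integral_nonneg fun ω => by
    have := I4_wpop_nonneg (X n ω)
    positivity
  have hb : ∀ n, 0 ≤ b n := fun n => integral_nonneg fun ω => by
    have := I4_wpop_nonneg (X n ω)
    positivity
  have hia : ∀ n, Integrable (fun ω => 1 / wpop (X n ω)) P := fun n =>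
    h.integrable n n (fun _ y => 1 / wpop y)
  have hib : ∀ n, Integrable (fun ω => 1 / (wpop (X n ω) * (wpop (X n ω) + 1))) P := fun n =>
    h.integrable n n (fun _ y => 1 / (wpop y * (wpop y + 1)))
  have hanti : ∀ n, 3 ≤ n → b (n + 1) ≤ b n := by
    intro n hn
    refine integral_mono (hib (n + 1)) (hib n) fun ω => ?_
    have h1 := hpos n hn ω
    have h2 := hmono ω n (by omega)
    show 1 / (wpop (X (n + 1) ω) * (wpop (X (n + 1) ω) + 1)) ≤
      1 / (wpop (X n ω) * (wpop (X n ω) + 1))
    apply one_div_le_one_div_of_le (by positivity)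
    apply mul_le_mul h2 (by linarith) (by linarith) (by linarith)
  have hstep : ∀ n, 3 ≤ n → a (n + 1) ≤ a n - b n / (2 * n) := by
    intro n hn
    have h1 := h.markov n n (by omega) le_rfl (fun _ y => 1 / wpop y)
    have h2 : a (n + 1) = ∫ ω, 1 / (n : ℝ) * kerT.P (fun y => 1 / wpop y) (X n ω) ∂P := h1
    rw [h2]
    have hn' : (0 : ℝ) < n := by
      have : 0 < n := by omega
      exact_mod_cast this
    calc ∫ ω, 1 / (n : ℝ) * kerT.P (fun y => 1 / wpop y) (X n ω) ∂P
        ≤ ∫ ω, (1 / wpop (X n ω) -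
            1 / (2 * (n : ℝ)) * (1 / (wpop (X n ω) * (wpop (X n ω) + 1)))) ∂P := by
          refine integral_mono ?_ ((hia n).sub ((hib n).const_mul _)) fun ω => ?_
          · exact h.integrable n n (fun _ y => 1 / (n : ℝ) * kerT.P (fun y => 1 / wpop y) y)
          · have h3 := P_inv_wpop (hpos n hn ω).ne'
            rw [h.lev n (by omega) ω] at h3
            show 1 / (n : ℝ) * kerT.P (fun y => 1 / wpop y) (X n ω) ≤ 1 / wpop (X n ω) -
              1 / (2 * (n : ℝ)) * (1 / (wpop (X n ω) * (wpop (X n ω) + 1)))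
            have h4 := mul_le_mul_of_nonneg_left h3 (by positivity : (0 : ℝ) ≤ 1 / (n : ℝ))
            refine h4.trans (le_of_eq ?_)
            have := hpos n hn ω
            field_simp
      _ = a n - b n / (2 * n) := by
          rw [integral_sub (hia n) ((hib n).const_mul _), integral_const_mul]
          show a n - 1 / (2 * (n : ℝ)) * b n = _
          ring
  have hlim := tendsto_zero_of ha hb (n0 := 3) (by norm_num) hanti hstep
  -- Markov's inequality
  have hM : 0 ≤ |M| * (|M| + 1) := by positivity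
  have hmk : ∀ n, 3 ≤ n → P.real {ω | wpop (X n ω) < M} ≤ (|M| * (|M| + 1)) * b n := by
    intro n hn
    have hms : MeasurableSet {ω | wpop (X n ω) < M} := h.measSet n {x | wpop x < M}
    rw [← integral_indicator_one hms]
    show _ ≤ (|M| * (|M| + 1)) * ∫ ω, 1 / (wpop (X n ω) * (wpop (X n ω) + 1)) ∂P
    rw [← integral_const_mul]
    refine integral_mono ((integrable_const (1 : ℝ)).indicator hms) ((hib n).const_mul _)
      fun ω => ?_
    have h1 := hpos n hn ω
    by_cases hω : wpop (X n ω) < M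
    · have h2 : wpop (X n ω) ≤ |M| := hω.le.trans (le_abs_self M)
      have h3 : wpop (X n ω) * (wpop (X n ω) + 1) ≤ |M| * (|M| + 1) :=
        mul_le_mul h2 (by linarith) (by linarith) (abs_nonneg M)
      have e : Set.indicator {ω | wpop (X n ω) < M} (1 : Ω → ℝ) ω = 1 := by
        simp only [Set.indicator_apply, Set.mem_ofPred_eq, if_pos hω, Pi.one_apply]
      show Set.indicator {ω | wpop (X n ω) < M} (1 : Ω → ℝ) ω ≤ _
      rw [e, mul_one_div, le_div_iff₀ (by positivity), one_mul]
      exact h3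
    · have e : Set.indicator {ω | wpop (X n ω) < M} (1 : Ω → ℝ) ω = 0 := by
        simp only [Set.indicator_apply, Set.mem_ofPred_eq, if_neg hω]
      show Set.indicator {ω | wpop (X n ω) < M} (1 : Ω → ℝ) ω ≤ _
      rw [e]
      positivity
  have h0 : Tendsto (fun n => (|M| * (|M| + 1)) * b n) atTop (𝓝 0) := by
    simpa using hlim.const_mul (|M| * (|M| + 1))
  refine squeeze_zero' (Eventually.of_forall fun n => measureReal_nonneg) ?_ h0
  exact eventually_atTop.2 ⟨3, hmk⟩

end RFT
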