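import Pool.Agent.H13.RF.I4

/-! Module I5: polynomial growth almost surely. -/

namespace RFT

open Finset RT MeasureTheory Filter Topology

variable {μ c C : ℝ} {Ω : Type*} [MeasurableSpace Ω] {P : Measure Ω}
  {X : ℕ → Ω → RT Unit × RT Unit}

/-- There are `q ≥ 2` (integer), `K`, `n1` with `P (a ≤ wpop X_n, wpop X_{qn} < 2 wpop X_n) ≤ K/a` for `n ≥ n1`,
`a ≥ 2`: `conc_lo` with `k = 2`, `t` such that `c' exp(μt) ≥ 3` (`whole_lo`), `ε = 1`, `q > exp t`. -/
theorem doubling (hb : Bd μ c C) [IsProbabilityMeasure P] (h : Chain kerT P 2 X) :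
    ∃ (q : ℕ) (K : ℝ) (n1 : ℕ), 2 ≤ q ∧ ∀ n : ℕ, n1 ≤ n → ∀ a : ℝ, 2 ≤ a →
      P.real {ω | a ≤ wpop (X n ω) ∧ wpop (X (q * n) ω) < 2 * wpop (X n ω)} ≤ K / a := by
  obtain ⟨c', hc', hlo⟩ := whole_lo hb
  have hμ : 0 < μ := by
    have := hb.mu_ge
    linarith
  obtain ⟨t, ht, ht3⟩ : ∃ t : ℝ, 0 ≤ t ∧ 3 ≤ c' * Real.exp (μ * t) := by
    refine ⟨max 0 (Real.log (3 / c') / μ), le_max_left _ _, ?_⟩
    have h1 : Real.log (3 / c') ≤ μ * max 0 (Real.log (3 / c') / μ) := by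
      have h2 := le_max_right 0 (Real.log (3 / c') / μ)
      calc Real.log (3 / c') = μ * (Real.log (3 / c') / μ) := by field_simp
        _ ≤ _ := mul_le_mul_of_nonneg_left h2 hμ.le
    have h3 := Real.exp_le_exp.2 h1
    rw [Real.exp_log (by positivity)] at h3
    have h4 := mul_le_mul_of_nonneg_left h3 hc'.le
    rw [mul_div_cancel₀ _ hc'.ne'] at h4
    exact h4
  obtain ⟨q, hq⟩ := exists_nat_gt (max 2 (Real.exp t))
  have hq2 : 2 ≤ q := by
    have h1 : (2 : ℝ) < q := (le_max_left _ _).trans_lt hq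
    have h2 : 2 < q := by exact_mod_cast h1
    exact h2.le
  have hqt : Real.exp t < (q : ℝ) := (le_max_right _ _).trans_lt hq
  obtain ⟨K, n1, hK⟩ := conc_lo h (k := 2) le_rfl ht hqt (ε := 1) one_pos
  refine ⟨q, K, n1, hq2, fun n hn a ha => ?_⟩
  have h1 := hK n (q * n) hn (Nat.le_mul_of_pos_left n (by omega)) (by push_cast; exact le_rfl) a
    (by linarith)
  refine le_trans (measureReal_mono ?_) h1
  rintro ω ⟨hω1, hω2⟩
  refine ⟨hω1, ?_⟩
  have e : ∀ y, Fk 2 y = wpop y := Fk_two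
  have e' : Fk 2 = wpop := funext e
  rw [e']
  have h2 := hlo t ht (X n ω) (ha.trans hω1)
  have h3 : 3 * wpop (X n ω) ≤ c' * Real.exp (μ * t) * wpop (X n ω) :=
    mul_le_mul_of_nonneg_right ht3 (I4_wpop_nonneg _)
  linarith

theorem I5_mono (hmono : ∀ ω n, 2 ≤ n → wpop (X n ω) ≤ wpop (X (n + 1) ω)) {ω : Ω} {n m : ℕ}
    (hn : 2 ≤ n) (hnm : n ≤ m) : wpop (X n ω) ≤ wpop (X m ω) := by
  induction m, hnm using Nat.le_induction with
  | base => exact le_rfl
  | succ m hm ih => exact ih.trans (hmono ω m (hn.trans hm))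

/-- if the doubling never fails from `I` on then `wpop` grows like `2 ^ i` along `q ^ i` -/
theorem I5_union [IsProbabilityMeasure P] (h : Chain kerT P 2 X) {q : ℕ} {K : ℝ} {n1 : ℕ}
    (hq : 2 ≤ q) (hK : ∀ n : ℕ, n1 ≤ n → ∀ a : ℝ, 2 ≤ a →
      P.real {ω | a ≤ wpop (X n ω) ∧ wpop (X (q * n) ω) < 2 * wpop (X n ω)} ≤ K / a)
    {M : ℝ} (hM : 2 ≤ M) {I : ℕ} (hI : n1 ≤ q ^ I) :
    P.real {ω | ¬ ∀ i : ℕ, M * 2 ^ i ≤ wpop (X (q ^ (I + i)) ω)} ≤
      P.real {ω | wpop (X (q ^ I) ω) < M} + 2 * K / M := by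
  have hM0 : 0 < M := by linarith
  have hK0 : 0 ≤ K := by
    have h1 := hK n1 le_rfl 2 le_rfl
    have h2 : 0 ≤ K / 2 := measureReal_nonneg.trans h1
    linarith
  let E : ℕ → Set Ω := fun i => {ω | M * 2 ^ i ≤ wpop (X (q ^ (I + i)) ω) ∧
    wpop (X (q * q ^ (I + i)) ω) < 2 * wpop (X (q ^ (I + i)) ω)}
  have hE : ∀ i, P.real (E i) ≤ K / M * (1 / 2) ^ i := by
    intro i
    have h1 : n1 ≤ q ^ (I + i) := hI.trans (Nat.pow_le_pow_right (by omega) (Nat.le_add_right _ _))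
    have h3 : (1 : ℝ) ≤ 2 ^ i := one_le_pow₀ (by norm_num)
    have h2 := hK _ h1 (M * 2 ^ i) (by nlinarith)
    refine h2.trans (le_of_eq ?_)
    rw [one_div, inv_pow]
    field_simp
  have hsub : {ω | ¬ ∀ i : ℕ, M * 2 ^ i ≤ wpop (X (q ^ (I + i)) ω)} ⊆
      {ω | wpop (X (q ^ I) ω) < M} ∪ ⋃ i, E i := by
    intro ω hω
    by_contra hcon
    apply hω
    have h1 : ¬ wpop (X (q ^ I) ω) < M := fun hh => hcon (Or.inl hh)
    have h2 : ∀ i, ω ∉ E i := fun i hi => hcon (Or.inr (Set.mem_iUnion.2 ⟨i, hi⟩))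
    intro i
    induction i with
    | zero => simpa using not_lt.1 h1
    | succ i ih =>
      have h3 : ¬ wpop (X (q * q ^ (I + i)) ω) < 2 * wpop (X (q ^ (I + i)) ω) :=
        fun hh => h2 i ⟨ih, hh⟩
      have e : q * q ^ (I + i) = q ^ (I + (i + 1)) := by
        rw [← Nat.add_assoc, pow_succ, mul_comm]
      rw [e] at h3
      have h4 := not_lt.1 h3
      rw [pow_succ]
      linarith
  have hsm : Summable fun i : ℕ => K / M * (1 / 2 : ℝ) ^ i :=
    (summable_geometric_of_lt_one (by norm_num) (by norm_num)).mul_left _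
  have hU : P.real (⋃ i, E i) ≤ 2 * K / M := by
    have h1 : P (⋃ i, E i) ≤ ∑' i, P (E i) := measure_iUnion_le E
    have h2 : ∑' i, P (E i) ≤ ∑' i, ENNReal.ofReal (K / M * (1 / 2 : ℝ) ^ i) := by
      refine ENNReal.tsum_le_tsum fun i => ?_
      rw [← ENNReal.ofReal_toReal (measure_ne_top P (E i))]
      exact ENNReal.ofReal_le_ofReal (hE i)
    have h3 : ∑' i, ENNReal.ofReal (K / M * (1 / 2 : ℝ) ^ i) = ENNReal.ofReal (2 * K / M) := by
      rw [← ENNReal.ofReal_tsum_of_nonneg (fun i => by positivity) hsm, tsum_mul_left,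
        tsum_geometric_two]
      congr 1
      ring
    rw [h3] at h2
    unfold Measure.real
    exact ENNReal.toReal_le_of_le_ofReal (by positivity) (h1.trans h2)
  refine (measureReal_mono hsub).trans ((measureReal_union_le _ _).trans ?_)
  linarith

/-- Union bound along `n_i = q^i`: `P (∃ i ≥ I, no doubling at i; wpop X_{n_I} ≥ M) ≤ ∑ K/(M 2^(i-I))`; let `I → ∞`, then
`M → ∞` (`wpop_tendsto`).  Between the times use monotonicity. -/
theorem poly_growth (hb : Bd μ c C) [IsProbabilityMeasure P] (h : Chain kerT P 2 X)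
    (hmono : ∀ ω n, 2 ≤ n → wpop (X n ω) ≤ wpop (X (n + 1) ω)) :
    ∃ δ : ℝ, 0 < δ ∧ ∀ᵐ ω ∂P, ∃ a : ℝ, 0 < a ∧ ∀ n : ℕ, 3 ≤ n →
      a * (n : ℝ) ^ δ ≤ wpop (X n ω) := by
  obtain ⟨q, K, n1, hq, hK⟩ := doubling hb h
  have hq1 : (1 : ℝ) < q := by
    have : 1 < q := by omega
    exact_mod_cast this
  have hlq : 0 < Real.log q := Real.log_pos hq1
  have hl2 : 0 < Real.log 2 := Real.log_pos (by norm_num)
  refine ⟨Real.log 2 / Real.log q, by positivity, ?_⟩
  set δ := Real.log 2 / Real.log q with hδdef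
  have hδ : 0 < δ := by positivity
  have hqδ : (q : ℝ) ^ δ = 2 := by
    rw [Real.rpow_def_of_pos (by linarith), hδdef, mul_div_cancel₀ _ hlq.ne',
      Real.exp_log (by norm_num)]
  have hK0 : 0 ≤ K := by
    have h1 := hK n1 le_rfl 2 le_rfl
    have h2 : 0 ≤ K / 2 := measureReal_nonneg.trans h1
    linarith
  -- the good event has probability one
  have hgood : ∀ᵐ ω ∂P, ∃ I : ℕ, ∀ i : ℕ, (2 : ℝ) ^ i ≤ wpop (X (q ^ (I + i)) ω) := by
    rw [ae_iff]
    set B := {ω | ¬ ∃ I : ℕ, ∀ i : ℕ, (2 : ℝ) ^ i ≤ wpop (X (q ^ (I + i)) ω)} with hB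
    have hle : ∀ M : ℝ, 2 ≤ M → P.real B ≤ 2 * K / M := by
      intro M hM
      have ht := wpop_tendsto h hmono M
      have hqt : Tendsto (fun I : ℕ => q ^ I) atTop atTop :=
        tendsto_pow_atTop_atTop_of_one_lt (by omega)
      have ht2 := (ht.comp hqt).add_const (2 * K / M)
      rw [zero_add] at ht2
      refine ge_of_tendsto ht2 ?_
      filter_upwards [hqt.eventually_ge_atTop n1] with I hI
      refine le_trans (measureReal_mono ?_) (I5_union h hq hK hM hI)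
      intro ω hω hall
      apply hω
      refine ⟨I, fun i => le_trans ?_ (hall i)⟩
      have : (0 : ℝ) < 2 ^ i := by positivity
      nlinarith
    have h0 : P.real B ≤ 0 := by
      have ht : Tendsto (fun M : ℝ => 2 * K / M) atTop (𝓝 0) :=
        tendsto_const_nhds.div_atTop tendsto_id
      refine ge_of_tendsto ht ?_
      filter_upwards [eventually_ge_atTop (2 : ℝ)] with M hM using hle M hM
    have h1 : P.real B = 0 := le_antisymm h0 measureReal_nonneg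
    exact (measureReal_eq_zero_iff (measure_ne_top P B)).1 h1
  filter_upwards [hgood] with ω hω
  obtain ⟨I, hI⟩ := hω
  have hpos3 : 0 < wpop (X 3 ω) := by
    refine lt_of_le_of_ne (I4_wpop_nonneg _) (Ne.symm (wpop_ne_zero ?_))
    rw [h.lev 3 (by norm_num) ω]
  have hqpos : (0 : ℝ) < q := by linarith
  -- constants
  have hA : (0 : ℝ) < ((q : ℝ) ^ (I + 1)) ^ δ := Real.rpow_pos_of_pos (by positivity) _
  have h2I : (0 : ℝ) < 2 ^ (I + 1) := by positivity
  refine ⟨min (wpop (X 3 ω) / ((q : ℝ) ^ (I + 1)) ^ δ) (1 / 2 ^ (I + 1)), by positivity, ?_⟩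
  intro n hn
  have hn0 : (0 : ℝ) < n := by
    have : 0 < n := by omega
    exact_mod_cast this
  have hnδ : (0 : ℝ) < (n : ℝ) ^ δ := Real.rpow_pos_of_pos hn0 _
  by_cases hsmall : n ≤ q ^ (I + 1)
  · have h1 : (n : ℝ) ^ δ ≤ ((q : ℝ) ^ (I + 1)) ^ δ := by
      refine Real.rpow_le_rpow hn0.le ?_ hδ.le
      exact_mod_cast hsmall
    calc min (wpop (X 3 ω) / ((q : ℝ) ^ (I + 1)) ^ δ) (1 / 2 ^ (I + 1)) * (n : ℝ) ^ δ
        ≤ wpop (X 3 ω) / ((q : ℝ) ^ (I + 1)) ^ δ * ((q : ℝ) ^ (I + 1)) ^ δ :=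
          mul_le_mul (min_le_left _ _) h1 hnδ.le (by positivity)
      _ = wpop (X 3 ω) := div_mul_cancel₀ _ hA.ne'
      _ ≤ wpop (X n ω) := I5_mono hmono (by norm_num) hn
  · push Not at hsmall
    obtain ⟨j, hj1, hj2⟩ : ∃ j, q ^ j ≤ n ∧ n < q ^ (j + 1) :=
      ⟨Nat.log q n, Nat.pow_log_le_self q (by omega), Nat.lt_pow_succ_log_self (by omega) n⟩
    have hjI : I + 1 ≤ j := by
      by_contra hcon
      have h1 : j + 1 ≤ I + 1 := by omega
      have h2 := Nat.pow_le_pow_right (show 0 < q by omega) h1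
      omega
    obtain ⟨i, rfl⟩ := Nat.exists_eq_add_of_le (show I ≤ j by omega)
    have h1 : (n : ℝ) ^ δ ≤ 2 ^ (I + i + 1) := by
      calc (n : ℝ) ^ δ ≤ ((q : ℝ) ^ (I + i + 1)) ^ δ := by
            refine Real.rpow_le_rpow hn0.le ?_ hδ.le
            exact_mod_cast hj2.le
        _ = 2 ^ (I + i + 1) := by
            rw [← Real.rpow_natCast, ← Real.rpow_mul hqpos.le, mul_comm, Real.rpow_mul hqpos.le,
              hqδ, Real.rpow_natCast]
    have h2q : 2 ≤ q ^ (I + i) := by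
      have h3 : q ^ 1 ≤ q ^ (I + i) := Nat.pow_le_pow_right (by omega) (by omega)
      rw [pow_one] at h3
      omega
    calc min (wpop (X 3 ω) / ((q : ℝ) ^ (I + 1)) ^ δ) (1 / 2 ^ (I + 1)) * (n : ℝ) ^ δ
        ≤ 1 / 2 ^ (I + 1) * 2 ^ (I + i + 1) :=
          mul_le_mul (min_le_right _ _) h1 hnδ.le (by positivity)
      _ = 2 ^ i := by
          have e : (2 : ℝ) ^ (I + i + 1) = 2 ^ (I + 1) * 2 ^ i := by ring
          rw [e]
          field_simp
      _ ≤ wpop (X (q ^ (I + i)) ω) := hI i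
      _ ≤ wpop (X n ω) := I5_mono hmono h2q hj1

end RFT
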