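import Pool.Agent.H13.RF.I5

/-! Module I6: almost sure two-sided estimates along a geometric grid. -/

namespace RFT

open Finset RT MeasureTheory Filter Topology

variable {μ c C : ℝ} {Ω : Type*} [MeasurableSpace Ω] {P : Measure Ω}
  {X : ℕ → Ω → RT Unit × RT Unit}

/-- the grid -/
noncomputable def gr (δ : ℝ) (j : ℕ) : ℕ := ⌈Real.exp (δ * j)⌉₊

theorem gr_mono {δ : ℝ} (hδ : 0 < δ) : Monotone (gr δ) := by
  intro i j hij
  unfold gr
  apply Nat.ceil_mono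
  apply Real.exp_le_exp.mpr
  have : (i : ℝ) ≤ j := by exact_mod_cast hij
  exact mul_le_mul_of_nonneg_left this hδ.le

private theorem I6_exp_tendsto {δ : ℝ} (hδ : 0 < δ) :
    Tendsto (fun j : ℕ => Real.exp (δ * j)) atTop atTop := by
  apply Real.tendsto_exp_atTop.comp
  exact (tendsto_natCast_atTop_atTop (R := ℝ)).const_mul_atTop hδ

/-- `gr δ (j+L) / gr δ j → exp (δ L)` -/
theorem gr_ratio {δ : ℝ} (hδ : 0 < δ) (L : ℕ) :
    Tendsto (fun j => (gr δ (j + L) : ℝ) / gr δ j) atTop (𝓝 (Real.exp (δ * L))) := by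
  have h1 : Tendsto (fun x : ℝ => (⌈Real.exp (δ * L) * x⌉₊ : ℝ) / x) atTop
      (𝓝 (Real.exp (δ * L))) := tendsto_nat_ceil_mul_div_atTop (Real.exp_pos _).le
  have h2 : Tendsto (fun x : ℝ => (⌈x⌉₊ : ℝ) / x) atTop (𝓝 1) := tendsto_nat_ceil_div_atTop
  have h3 := (h1.comp (I6_exp_tendsto hδ)).div (h2.comp (I6_exp_tendsto hδ)) one_ne_zero
  rw [div_one] at h3
  refine h3.congr (fun j => ?_)
  have hp : Real.exp (δ * j) ≠ 0 := (Real.exp_pos _).ne'
  simp only [Function.comp, Pi.div_apply, gr]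
  rw [div_div_div_cancel_right₀ hp]
  congr 2
  rw [← Real.exp_add]
  push_cast
  ring_nf

private theorem I6_le_gr (δ : ℝ) (j : ℕ) : Real.exp (δ * j) ≤ (gr δ j : ℝ) := Nat.le_ceil _

private theorem I6_gr_tendsto {δ : ℝ} (hδ : 0 < δ) : Tendsto (gr δ) atTop atTop := by
  rw [← tendsto_natCast_atTop_iff (R := ℝ)]
  exact tendsto_atTop_mono (I6_le_gr δ) (I6_exp_tendsto hδ)

/-- Borel-Cantelli for events with geometrically small probabilities from an index on -/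
private theorem I6_bc [IsProbabilityMeasure P] {B : ℕ → Set Ω} {J : ℕ} {K r : ℝ}
    (hr0 : 0 ≤ r) (hr : r < 1) (hB : ∀ j, J ≤ j → P.real (B j) ≤ K * r ^ j) :
    ∀ᵐ ω ∂P, ∀ᶠ j in atTop, ω ∉ B j := by
  set s : ℕ → Set Ω := fun j => if J ≤ j then B j else ∅ with hs
  have hsum : (∑' i, P (s i)) ≠ ⊤ := by
    have hsm : Summable (fun j : ℕ => |K| * r ^ j) :=
      (summable_geometric_of_lt_one hr0 hr).mul_left _
    refine ne_top_of_le_ne_top hsm.tsum_ofReal_ne_top (ENNReal.tsum_le_tsum (fun j => ?_))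
    by_cases hj : J ≤ j
    · simp only [hs, hj, if_true]
      rw [← ofReal_measureReal]
      apply ENNReal.ofReal_le_ofReal
      exact (hB j hj).trans (mul_le_mul_of_nonneg_right (le_abs_self K) (pow_nonneg hr0 _))
    · simp [hs, hj]
  filter_upwards [ae_eventually_notMem hsum] with ω hω
  filter_upwards [hω, eventually_ge_atTop J] with j h1 h2
  simpa [hs, h2] using h1

/-- Borel-Cantelli: on `{wpop X_n ≥ a n^δ' for all n}` the bad events have summable probability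
`K/(a (gr δ j)^δ')` (`conc_up`, `conc_lo`, `poly_growth`).  `r = δ L`, `t± = r ± δ`. -/
theorem grid_as (hb : Bd μ c C) [IsProbabilityMeasure P] (h : Chain kerT P 2 X)
    (hmono : ∀ ω n, 2 ≤ n → wpop (X n ω) ≤ wpop (X (n + 1) ω)) {k : ℕ} (hk : 2 ≤ k)
    {δ : ℝ} (hδ : 0 < δ) {L : ℕ} (hL : 2 ≤ L) {ε : ℝ} (hε : 0 < ε) :
    ∀ᵐ ω ∂P, ∀ᶠ j in atTop,
      kerT.sg (δ * L - δ) (Fk k) (X (gr δ j) ω) - ε * wpop (X (gr δ j) ω) ≤
        Fk k (X (gr δ (j + L)) ω) ∧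
      Fk k (X (gr δ (j + L)) ω) ≤
        kerT.sg (δ * L + δ) (Fk k) (X (gr δ j) ω) + ε * wpop (X (gr δ j) ω) := by
  have hL' : (2 : ℝ) ≤ L := by exact_mod_cast hL
  obtain ⟨Ku, nu, hu⟩ := conc_up h hk (t := δ * L + δ) (ρ := Real.exp (δ * L + δ / 2))
    (by positivity) (Real.exp_lt_exp.mpr (by linarith)) hε
  obtain ⟨Kl, nl, hl⟩ := conc_lo h hk (t := δ * L - δ) (ρ := Real.exp (δ * L - δ / 2))
    (by nlinarith) (Real.exp_lt_exp.mpr (by linarith)) hε
  obtain ⟨d, hd, hpoly⟩ := poly_growth hb h hmono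
  -- eventually the ratio of the grid points is between the two values of `ρ`
  have hup : ∀ᶠ j in atTop, (gr δ (j + L) : ℝ) ≤ Real.exp (δ * L + δ / 2) * gr δ j := by
    have := (gr_ratio hδ L).eventually_lt_const
      (show Real.exp (δ * L) < Real.exp (δ * L + δ / 2) from Real.exp_lt_exp.mpr (by linarith))
    filter_upwards [this] with j hj
    have hp : (0 : ℝ) < gr δ j := (Real.exp_pos _).trans_le (I6_le_gr δ j)
    rw [div_lt_iff₀ hp] at hj
    exact hj.le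
  have hlo : ∀ᶠ j in atTop, Real.exp (δ * L - δ / 2) * gr δ j ≤ (gr δ (j + L) : ℝ) := by
    have := (gr_ratio hδ L).eventually_const_lt
      (show Real.exp (δ * L - δ / 2) < Real.exp (δ * L) from Real.exp_lt_exp.mpr (by linarith))
    filter_upwards [this] with j hj
    have hp : (0 : ℝ) < gr δ j := (Real.exp_pos _).trans_le (I6_le_gr δ j)
    rw [lt_div_iff₀ hp] at hj
    exact hj.le
  -- the exceptional sets
  set r : ℝ := Real.exp (-(δ * d)) with hr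
  have hr0 : 0 ≤ r := (Real.exp_pos _).le
  have hr1 : r < 1 := by
    rw [hr, Real.exp_lt_one_iff]
    have := mul_pos hδ hd
    linarith
  have hgd : ∀ j : ℕ, Real.exp (δ * d * j) ≤ (gr δ j : ℝ) ^ d := by
    intro j
    have h1 : Real.exp (δ * d * j) = (Real.exp (δ * j)) ^ d := by
      rw [← Real.exp_mul]; congr 1; ring
    rw [h1]
    exact Real.rpow_le_rpow (Real.exp_pos _).le (I6_le_gr δ j) hd.le
  have hgt : Tendsto (fun j : ℕ => Real.exp (δ * d * j)) atTop atTop :=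
    I6_exp_tendsto (mul_pos hδ hd)
  have key : ∀ q : ℕ, ∀ᵐ ω ∂P, ∀ᶠ j in atTop,
      ω ∉ ({ω | 1 / ((q : ℝ) + 1) * (gr δ j : ℝ) ^ d ≤ wpop (X (gr δ j) ω) ∧
        kerT.sg (δ * L + δ) (Fk k) (X (gr δ j) ω) + ε * wpop (X (gr δ j) ω) <
          Fk k (X (gr δ (j + L)) ω)} : Set Ω) ∧
      ω ∉ ({ω | 1 / ((q : ℝ) + 1) * (gr δ j : ℝ) ^ d ≤ wpop (X (gr δ j) ω) ∧
        Fk k (X (gr δ (j + L)) ω) <
          kerT.sg (δ * L - δ) (Fk k) (X (gr δ j) ω) - ε * wpop (X (gr δ j) ω)} : Set Ω) := by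
    intro q
    have hq : (0 : ℝ) < 1 / ((q : ℝ) + 1) := by positivity
    have hlarge : ∀ᶠ j in atTop, 1 ≤ 1 / ((q : ℝ) + 1) * (gr δ j : ℝ) ^ d := by
      filter_upwards [hgt.eventually_ge_atTop ((q : ℝ) + 1)] with j hj
      rw [one_div, inv_mul_eq_div, le_div_iff₀ (by positivity), one_mul]
      exact hj.trans (hgd j)
    have hbound : ∀ K : ℝ, ∀ j : ℕ, K / (1 / ((q : ℝ) + 1) * (gr δ j : ℝ) ^ d) ≤
        (|K| * ((q : ℝ) + 1)) * r ^ j := by
      intro K j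
      have hg0 : 0 < (gr δ j : ℝ) ^ d := (Real.exp_pos _).trans_le (hgd j)
      have h1 : r ^ j = 1 / Real.exp (δ * d * j) := by
        rw [hr, ← Real.exp_nat_mul, one_div, ← Real.exp_neg]
        congr 1; ring
      have h2 : K / (1 / ((q : ℝ) + 1) * (gr δ j : ℝ) ^ d) =
          K * ((q : ℝ) + 1) * (1 / (gr δ j : ℝ) ^ d) := by
        field_simp
      rw [h1, h2]
      have h3 : 1 / (gr δ j : ℝ) ^ d ≤ 1 / Real.exp (δ * d * j) :=
        one_div_le_one_div_of_le (Real.exp_pos _) (hgd j)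
      have h4 : K * ((q : ℝ) + 1) ≤ |K| * ((q : ℝ) + 1) :=
        mul_le_mul_of_nonneg_right (le_abs_self K) (by positivity)
      calc K * ((q : ℝ) + 1) * (1 / (gr δ j : ℝ) ^ d)
          ≤ |K| * ((q : ℝ) + 1) * (1 / (gr δ j : ℝ) ^ d) :=
            mul_le_mul_of_nonneg_right h4 (by positivity)
        _ ≤ |K| * ((q : ℝ) + 1) * (1 / Real.exp (δ * d * j)) :=
            mul_le_mul_of_nonneg_left h3 (by positivity)
    have hev : ∀ᶠ j in atTop, (1 ≤ 1 / ((q : ℝ) + 1) * (gr δ j : ℝ) ^ d) ∧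
        ((gr δ (j + L) : ℝ) ≤ Real.exp (δ * L + δ / 2) * gr δ j) ∧
        (Real.exp (δ * L - δ / 2) * gr δ j ≤ (gr δ (j + L) : ℝ)) ∧ nu ≤ gr δ j ∧ nl ≤ gr δ j := by
      filter_upwards [hlarge, hup, hlo, (I6_gr_tendsto hδ).eventually_ge_atTop nu,
        (I6_gr_tendsto hδ).eventually_ge_atTop nl] with j a1 a2 a3 a4 a5
      exact ⟨a1, a2, a3, a4, a5⟩
    obtain ⟨J, hJ⟩ := eventually_atTop.mp hev
    have hA := I6_bc (P := P) (B := fun j => {ω | 1 / ((q : ℝ) + 1) * (gr δ j : ℝ) ^ d ≤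
        wpop (X (gr δ j) ω) ∧
        kerT.sg (δ * L + δ) (Fk k) (X (gr δ j) ω) + ε * wpop (X (gr δ j) ω) <
          Fk k (X (gr δ (j + L)) ω)}) (J := J) (K := |Ku| * ((q : ℝ) + 1)) hr0 hr1
      (fun j hj => by
        obtain ⟨a1, a2, a3, a4, a5⟩ := hJ j hj
        exact (hu (gr δ j) (gr δ (j + L)) a4 (gr_mono hδ (Nat.le_add_right _ _)) a2 _ a1).trans
          (hbound Ku j))
    have hB := I6_bc (P := P) (B := fun j => {ω | 1 / ((q : ℝ) + 1) * (gr δ j : ℝ) ^ d ≤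
        wpop (X (gr δ j) ω) ∧
        Fk k (X (gr δ (j + L)) ω) <
          kerT.sg (δ * L - δ) (Fk k) (X (gr δ j) ω) - ε * wpop (X (gr δ j) ω)})
      (J := J) (K := |Kl| * ((q : ℝ) + 1)) hr0 hr1
      (fun j hj => by
        obtain ⟨a1, a2, a3, a4, a5⟩ := hJ j hj
        exact (hl (gr δ j) (gr δ (j + L)) a5 (gr_mono hδ (Nat.le_add_right _ _)) a3 _ a1).trans
          (hbound Kl j))
    filter_upwards [hA, hB] with ω h1 h2
    exact h1.and h2
  have key' := ae_all_iff.mpr key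
  filter_upwards [key', hpoly] with ω hω hp
  obtain ⟨a, ha, hpa⟩ := hp
  obtain ⟨q, hq⟩ := exists_nat_one_div_lt ha
  filter_upwards [hω q, (I6_gr_tendsto hδ).eventually_ge_atTop 3] with j hj hj3
  have hw : 1 / ((q : ℝ) + 1) * (gr δ j : ℝ) ^ d ≤ wpop (X (gr δ j) ω) :=
    (mul_le_mul_of_nonneg_right hq.le (Real.rpow_nonneg (Nat.cast_nonneg _) _)).trans
      (hpa _ hj3)
  constructor
  · by_contra hcon
    exact hj.2 ⟨hw, not_le.mp hcon⟩
  · by_contra hcon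
    exact hj.1 ⟨hw, not_le.mp hcon⟩

end RFT
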