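import Pool.Agent.H13.RF.I6

/-! Module I7b: almost sure convergence of the ratios. -/

namespace RFT

open Finset RT MeasureTheory Filter Topology

variable {μ c C : ℝ} {Ω : Type*} [MeasurableSpace Ω] {P : Measure Ω}
  {X : ℕ → Ω → RT Unit × RT Unit}

theorem I7b_wpop_nonneg (x : RT Unit × RT Unit) : 0 ≤ wpop x := by
  have h := abs_wsum_le (g := fun _ => (1 : ℝ)) (M := 1) (fun _ => by simp) x
  have h2 := abs_nonneg (wsum (fun _ => (1 : ℝ)) x)
  have h3 : wsum (fun _ => (1 : ℝ)) x = wpop x := rfl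
  linarith

theorem I7b_wsum_nonneg {g : ℕ → ℝ} (hg : ∀ d, 0 ≤ g d) (x : RT Unit × RT Unit) :
    0 ≤ wsum g x := by
  have h : ∀ B : RT Unit, 0 ≤ asum (fun _ d => g d) B := by
    intro B
    have h1 : asum (fun _ _ => (0 : ℝ) * 1) B ≤ asum (fun _ d => g d) B :=
      asum_mono (fun l d _ _ => by simpa using hg d) B
    have h2 : asum (fun _ _ => (0 : ℝ) * 1) B = 0 * asum (fun _ _ => (1 : ℝ)) B :=
      asum_smul 0 (fun _ _ => (1 : ℝ)) B
    rw [h2, zero_mul] at h1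
    exact h1
  exact add_nonneg (h x.1) (h x.2)

theorem I7b_closed : kerT.Closed {x : RT Unit × RT Unit | wpop x ≠ 0} := by
  intro x hx u hu
  rw [← kerT.P_zero x]
  refine P_mono_wpop fun y hy => hu y ?_
  have h0 := I7b_wpop_nonneg x
  show wpop y ≠ 0
  rcases hy with hy | hy
  · rw [hy]; exact hx
  · rw [hy]; positivity

theorem I7b_Gr_wpop : kerT.Gr wpop :=
  Gr_wsum (g := fun _ => (1 : ℝ)) (M := 1) (fun _ => by simp)

theorem I7b_ind (k d : ℕ) : |(if k ≤ d then (1 : ℝ) else 0)| ≤ 1 := by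
  split_ifs <;> simp

theorem I7b_step {t s : ℝ} (ht : 0 ≤ t) (hs : 0 ≤ s) {x : RT Unit × RT Unit} (hx : wpop x ≠ 0) :
    kerT.sg (t + s) wpop x ≤ Real.exp s * kerT.sg t wpop x := by
  rw [kerT.sg_add I7b_Gr_wpop ht hs, ← kerT.sg_smul]
  exact kerT.sg_mono I7b_closed (Ker.Gr.sg kerT I7b_Gr_wpop hs)
    (Ker.Gr.smul kerT I7b_Gr_wpop _) (fun y hy => sg_wpop_le hs hy) ht hx

/-- the deterministic core: one time of the grid -/
theorem I7b_core {p η ε e' c' E D W W' G1 G2 N0 F1 F2 N1 N2 Fn Nn : ℝ} (hp : 0 ≤ p) (hη : 0 < η)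
    (hη1 : η ≤ 1) (hε : 0 < ε) (hc' : 0 < c') (hE : 1 ≤ E) (hD1 : 1 ≤ D) (hD2 : D ≤ 21)
    (hN0 : 0 ≤ N0) (he' : 0 < e') (hW : c' * E * N0 ≤ W) (hW' : W' ≤ D * W) (hWW : 0 ≤ W')
    (hG1 : |G1 - p * W| ≤ e' * E * N0) (hG2 : |G2 - p * W'| ≤ e' * (D * E) * N0)
    (hF1 : G1 - ε * N0 ≤ F1) (hF2 : F2 ≤ G2 + ε * N0) (hN1 : W - ε * N0 ≤ N1)
    (hN2 : N2 ≤ W' + ε * N0) (h1 : F1 ≤ Fn) (h2 : Fn ≤ F2) (h3 : N1 ≤ Nn) (h4 : Nn ≤ N2)
    (hFn : 0 ≤ Fn) (hNn : 0 ≤ Nn) (hpD : p * (D - 1) ≤ η / 2)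
    (he1 : 84 * e' ≤ η * c') (he2 : 8 * (2 + p) * ε ≤ η * c') :
    |Fn - p * Nn| ≤ η * Nn := by
  have hW0 : 0 ≤ W := le_trans (by positivity) hW
  have hN0W : c' * N0 ≤ W := by
    refine le_trans ?_ hW
    nlinarith [mul_nonneg hc'.le hN0]
  have hεN : 8 * (2 + p) * (ε * N0) ≤ η * W := by
    have h5 : 8 * (2 + p) * ε * N0 ≤ η * c' * N0 := mul_le_mul_of_nonneg_right he2 hN0
    have h6 : η * (c' * N0) ≤ η * W := mul_le_mul_of_nonneg_left hN0W hη.le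
    linarith
  have heN : 84 * (e' * E * N0) ≤ η * W := by
    have h5 : 84 * e' * (E * N0) ≤ η * c' * (E * N0) :=
      mul_le_mul_of_nonneg_right he1 (by positivity)
    have h6 : η * (c' * E * N0) ≤ η * W := mul_le_mul_of_nonneg_left hW hη.le
    linarith
  have heDN : 4 * (e' * (D * E) * N0) ≤ η * W := by
    have h5 : e' * (D * E) * N0 ≤ 21 * (e' * E * N0) := by
      have : e' * (D * E) * N0 = D * (e' * E * N0) := by ring
      rw [this]
      exact mul_le_mul_of_nonneg_right hD2 (by positivity)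
    linarith
  have hεN0 : 0 ≤ ε * N0 := by positivity
  have hεp : 0 ≤ p * (ε * N0) := by positivity
  rw [abs_le] at hG1 hG2 ⊢
  constructor
  · -- lower bound of Fn
    have h5 : p * W - e' * E * N0 - ε * N0 ≤ Fn := by linarith [hG1.1]
    have h6 : Nn ≤ D * W + ε * N0 := by linarith
    rcases le_or_gt p η with hpη | hpη
    · nlinarith
    · have h7 : (p - η) * Nn ≤ (p - η) * (D * W + ε * N0) :=
        mul_le_mul_of_nonneg_left h6 (by linarith)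
      have h8 : p * (D - 1) * W ≤ η / 2 * W := mul_le_mul_of_nonneg_right hpD hW0
      have h9 : η * W ≤ η * (D * W) := by
        apply mul_le_mul_of_nonneg_left _ hη.le
        nlinarith
      nlinarith
  · have h5 : Fn ≤ p * W' + e' * (D * E) * N0 + ε * N0 := by linarith [hG2.2]
    have h6 : W - ε * N0 ≤ Nn := by linarith
    have h7 : (p + η) * (W - ε * N0) ≤ (p + η) * Nn := mul_le_mul_of_nonneg_left h6 (by linarith)
    have h8 : p * W' ≤ p * (D * W) := mul_le_mul_of_nonneg_left hW' hp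
    have h9 : p * (D - 1) * W ≤ η / 2 * W := mul_le_mul_of_nonneg_right hpD hW0
    have h10 : η * (ε * N0) ≤ 1 * (ε * N0) := mul_le_mul_of_nonneg_right hη1 hεN0
    nlinarith

theorem I7b_gr_tendsto {δ : ℝ} (hδ : 0 < δ) : Tendsto (fun j => (gr δ j : ℝ)) atTop atTop := by
  have h1 : Tendsto (fun j : ℕ => Real.exp (δ * j)) atTop atTop :=
    Real.tendsto_exp_atTop.comp ((tendsto_natCast_atTop_atTop (R := ℝ)).const_mul_atTop hδ)
  exact tendsto_atTop_mono (fun j => Nat.le_ceil _) h1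

/-- position of `n` in the grid -/
theorem I7b_locate {δ : ℝ} (hδ : 0 < δ) (J L n : ℕ) (hn : gr δ (J + L) ≤ n) :
    ∃ j, J ≤ j ∧ gr δ (j + L) ≤ n ∧ n ≤ gr δ (j + L + 1) := by
  classical
  have hex : ∃ m, n < gr δ m := by
    obtain ⟨m, hm⟩ := ((I7b_gr_tendsto hδ).eventually_gt_atTop (n : ℝ)).exists
    exact ⟨m, by exact_mod_cast hm⟩
  have h1 := Nat.find_spec hex
  set m := Nat.find hex with hm
  have h2 : J + L < m := by
    by_contra h3
    exact absurd (gr_mono hδ (not_lt.mp h3)) (by omega)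
  obtain ⟨m', hm'⟩ : ∃ m', m = m' + 1 := ⟨m - 1, by omega⟩
  have h4 : gr δ m' ≤ n := not_lt.mp (Nat.find_min hex (by omega : m' < m))
  refine ⟨m' - L, by omega, ?_, ?_⟩
  · rwa [Nat.sub_add_cancel (by omega)]
  · rw [Nat.sub_add_cancel (by omega), ← hm']
    exact h1.le

theorem I7b_mono {f : ℕ → ℝ} (h : ∀ n, 2 ≤ n → f n ≤ f (n + 1)) {a b : ℕ} (ha : 2 ≤ a)
    (hab : a ≤ b) : f a ≤ f b := by
  induction b, hab using Nat.le_induction with
  | base => exact le_refl _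
  | succ n hn ih => exact ih.trans (h n (ha.trans hn))

theorem I7b_big [IsProbabilityMeasure P] (hb : Bd μ c C) (h : Chain kerT P 2 X)
    (hmono : ∀ ω n, 2 ≤ n → wpop (X n ω) ≤ wpop (X (n + 1) ω)) :
    ∀ᵐ ω ∂P, ∀ᶠ n : ℕ in atTop, 2 ≤ wpop (X n ω) := by
  obtain ⟨δ, hδ, hg⟩ := poly_growth hb h hmono
  filter_upwards [hg] with ω hω
  obtain ⟨a, ha, hω⟩ := hω
  have h1 : Tendsto (fun n : ℕ => a * (n : ℝ) ^ δ) atTop atTop :=
    ((tendsto_rpow_atTop hδ).comp (tendsto_natCast_atTop_atTop (R := ℝ))).const_mul_atTop ha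
  filter_upwards [h1.eventually_ge_atTop 2, eventually_ge_atTop 3] with n hn1 hn2
  exact hn1.trans (hω n hn2)

theorem I7b_p_nonneg (hb : Bd μ c C) {k : ℕ} {p : ℝ}
    (hp : IsRatio μ (fun _ d => if k ≤ d then 1 else 0) p) {x : RT Unit × RT Unit}
    (hx : 2 ≤ wpop x) : 0 ≤ p := by
  obtain ⟨c', hc', hlo⟩ := whole_lo hb
  by_contra hneg
  push Not at hneg
  obtain ⟨T, hT0, hT⟩ := whole_ratio hb (g := fun d => if k ≤ d then 1 else 0) (M := 1)
    (fun d => I7b_ind k d) hp (-p * c' / 2) (by nlinarith)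
  have h1 := hT T le_rfl x hx
  have h2 := hlo T hT0 x hx
  have h3 : 0 ≤ kerT.sg T (wsum fun d => if k ≤ d then (1 : ℝ) else 0) x := by
    exact kerT.sg_nonneg kerT.closed_univ
      (fun y _ => I7b_wsum_nonneg (fun d => by split_ifs <;> simp) y) hT0 (Set.mem_univ x)
  rw [abs_le] at h1
  have h4 : 0 < Real.exp (μ * T) * wpop x := by
    have := Real.exp_pos (μ * T)
    nlinarith
  have h5 : -p * (c' * Real.exp (μ * T) * wpop x) ≤ -p * kerT.sg T wpop x :=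
    mul_le_mul_of_nonneg_left h2 (by linarith)
  nlinarith [h1.2, mul_pos (mul_pos (neg_pos.mpr hneg) hc') h4]

/-- For `n` between `gr δ (j+L)` and `gr δ (j+L+1)`: `Fk k (X n) ≤ Fk k (X (gr δ (j+L+1)))` and
`wpop (X n) ≥ wpop (X (gr δ (j+L)))`, and conversely; `whole_ratio`, `whole_lo`, and
`sg (t+s) wpop ≤ exp s * sg t wpop` (`sg_wpop_le`).  First `L → ∞` with `δ L` large, then `δ → 0`. -/
theorem ratio_as (hb : Bd μ c C) [IsProbabilityMeasure P] (h : Chain kerT P 2 X)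
    (hmono : ∀ ω n, 2 ≤ n → ∀ k, Fk k (X n ω) ≤ Fk k (X (n + 1) ω)) {k : ℕ} (hk : 2 ≤ k) {p : ℝ}
    (hp : IsRatio μ (fun _ d => if k ≤ d then 1 else 0) p) :
    ∀ᵐ ω ∂P, Tendsto (fun n : ℕ => Fk k (X n ω) / wpop (X n ω)) atTop (𝓝 p) := by
  have hmonoN : ∀ ω n, 2 ≤ n → wpop (X n ω) ≤ wpop (X (n + 1) ω) := by
    intro ω n hn
    rw [← Fk_two, ← Fk_two]
    exact hmono ω n hn 2
  have hbig := I7b_big hb h hmonoN
  have hp0 : 0 ≤ p := by
    obtain ⟨ω, hω⟩ := hbig.exists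
    obtain ⟨n, hn⟩ := hω.exists
    exact I7b_p_nonneg hb hp hn
  obtain ⟨c', hc', hlo⟩ := whole_lo hb
  have key : ∀ η : ℝ, 0 < η → η ≤ 1 → ∀ᵐ ω ∂P, ∀ᶠ n : ℕ in atTop,
      |Fk k (X n ω) - p * wpop (X n ω)| ≤ η * wpop (X n ω) := by
    intro η hη hη1
    -- choice of the parameters
    obtain ⟨δ, hδ0, hδ1, hδ2⟩ : ∃ δ : ℝ, 0 < δ ∧ δ ≤ 1 ∧ p * (Real.exp (3 * δ) - 1) ≤ η / 2 := by
      have h1 : Tendsto (fun δ : ℝ => p * (Real.exp (3 * δ) - 1)) (𝓝[>] 0) (𝓝 (p * (Real.exp (3 * 0) - 1))) := by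
        refine Tendsto.mono_left ?_ nhdsWithin_le_nhds
        exact (Continuous.tendsto (by fun_prop) 0)
      rw [mul_zero, Real.exp_zero, sub_self, mul_zero] at h1
      have h2 := h1.eventually_le_const (by linarith : (0 : ℝ) < η / 2)
      have h3 : ∀ᶠ δ : ℝ in 𝓝[>] 0, δ ∈ Set.Ioc (0 : ℝ) 1 :=
        Ioc_mem_nhdsGT one_pos
      obtain ⟨δ, hd1, hd2⟩ := (h2.and h3).exists
      exact ⟨δ, hd2.1, hd2.2, hd1⟩
    set ε : ℝ := η * c' / (8 * (2 + p)) with hε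
    have hεpos : 0 < ε := by positivity
    set e' : ℝ := η * c' / 84 with he'
    have he'pos : 0 < e' := by positivity
    obtain ⟨T, hT0, hT⟩ := whole_ratio hb (g := fun d => if k ≤ d then 1 else 0) (M := 1)
      (fun d => I7b_ind k d) hp e' he'pos
    obtain ⟨L0, hL0⟩ := exists_nat_gt (T / δ)
    set L : ℕ := L0 + 2 with hL
    have hL2 : 2 ≤ L := by omega
    have hTL : T ≤ δ * L - δ := by
      rw [div_lt_iff₀ hδ0] at hL0
      rw [hL]; push_cast; nlinarith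
    have ht0 : 0 ≤ δ * L - δ := hT0.trans hTL
    have a1 := grid_as hb h hmonoN hk hδ0 hL2 hεpos
    have a2 := grid_as hb h hmonoN hk hδ0 (by omega : 2 ≤ L + 1) hεpos
    have a3 := grid_as hb h hmonoN le_rfl hδ0 hL2 hεpos
    have a4 := grid_as hb h hmonoN le_rfl hδ0 (by omega : 2 ≤ L + 1) hεpos
    filter_upwards [a1, a2, a3, a4, hbig] with ω b1 b2 b3 b4 b5
    have b6 : ∀ᶠ j : ℕ in atTop, 2 ≤ wpop (X (gr δ j) ω) :=
      (tendsto_natCast_atTop_iff.mp (I7b_gr_tendsto hδ0)).eventually b5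
    have b7 : ∀ᶠ j : ℕ in atTop, 2 ≤ gr δ j :=
      (tendsto_natCast_atTop_iff.mp (I7b_gr_tendsto hδ0)).eventually_ge_atTop 2
    obtain ⟨J, hJ⟩ := eventually_atTop.mp (b1.and (b2.and (b3.and (b4.and (b6.and b7)))))
    filter_upwards [eventually_ge_atTop (gr δ (J + L))] with n hn
    obtain ⟨j, hj1, hj2, hj3⟩ := I7b_locate hδ0 J L n hn
    obtain ⟨c1, c2, c3, c4, c5, c6⟩ := hJ j hj1
    simp only [Fk_two] at c3 c4
    have e1 : δ * ((L + 1 : ℕ) : ℝ) + δ = δ * L - δ + 3 * δ := by push_cast; ring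
    rw [e1] at c2 c4
    have eL : j + (L + 1) = j + L + 1 := by ring
    rw [eL] at c2 c4
    set x := X (gr δ j) ω with hx
    have hFk3 : (fun y => kerT.sg 0 (Fk 2) y) = fun y => kerT.sg 0 (Fk 2) y := rfl
    have hF2 : (Fk 2 : RT Unit × RT Unit → ℝ) = wpop := funext Fk_two
    rw [hF2] at c3 c4
    have hgrL : 2 ≤ gr δ (j + L) := c6.trans (gr_mono hδ0 (by omega))
    have hwx : wpop x ≠ 0 := by
      intro h0
      rw [h0] at c5
      norm_num at c5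
    have hexp3 : Real.exp (3 * δ) ≤ 21 := by
      have h1 : Real.exp (3 * δ) ≤ Real.exp 3 := Real.exp_le_exp.mpr (by linarith)
      have h2 : Real.exp 3 = Real.exp 1 ^ 3 := by
        rw [← Real.exp_nat_mul]; norm_num
      have h3 := Real.exp_one_lt_d9
      have h4 : Real.exp 1 ^ 3 ≤ 2.7182818286 ^ 3 :=
        pow_le_pow_left₀ (Real.exp_pos _).le h3.le 3
      have h5 : (2.7182818286 : ℝ) ^ 3 ≤ 21 := by norm_num
      linarith
    have hmu : μ ≤ 1 := by linarith [hb.mu_le]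
    have hmu0 : 0 ≤ μ := by linarith [hb.mu_ge]
    have hr1 := hT (δ * L - δ) hTL x c5
    have hr2 := hT (δ * L - δ + 3 * δ) (by linarith) x c5
    have hFx : (wsum fun d => if k ≤ d then (1 : ℝ) else 0) = Fk k := rfl
    rw [hFx] at hr1 hr2
    have hexpE : Real.exp (μ * (δ * L - δ + 3 * δ)) ≤
        Real.exp (3 * δ) * Real.exp (μ * (δ * L - δ)) := by
      rw [← Real.exp_add]
      apply Real.exp_le_exp.mpr
      nlinarith
    have hr2' : |kerT.sg (δ * L - δ + 3 * δ) (Fk k) x - p * kerT.sg (δ * L - δ + 3 * δ) wpop x| ≤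
        e' * (Real.exp (3 * δ) * Real.exp (μ * (δ * L - δ))) * wpop x := by
      refine hr2.trans ?_
      apply mul_le_mul_of_nonneg_right _ (by linarith)
      exact mul_le_mul_of_nonneg_left hexpE he'pos.le
    have hE1 : 1 ≤ Real.exp (μ * (δ * L - δ)) := Real.one_le_exp (mul_nonneg hmu0 ht0)
    have hD1 : 1 ≤ Real.exp (3 * δ) := Real.one_le_exp (by linarith)
    have hmF : ∀ m, 2 ≤ m → Fk k (X m ω) ≤ Fk k (X (m + 1) ω) := fun m hm => hmono ω m hm k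
    refine I7b_core (D := Real.exp (3 * δ)) (E := Real.exp (μ * (δ * L - δ))) (c' := c')
      (W := kerT.sg (δ * L - δ) wpop x) (W' := kerT.sg (δ * L - δ + 3 * δ) wpop x)
      (G1 := kerT.sg (δ * L - δ) (Fk k) x) (G2 := kerT.sg (δ * L - δ + 3 * δ) (Fk k) x)
      (N0 := wpop x) (F1 := Fk k (X (gr δ (j + L)) ω)) (F2 := Fk k (X (gr δ (j + L + 1)) ω))
      (N1 := wpop (X (gr δ (j + L)) ω)) (N2 := wpop (X (gr δ (j + L + 1)) ω)) (ε := ε) (e' := e')
      hp0 hη hη1 hεpos hc' hE1 hD1 hexp3 (by linarith) he'pos (hlo _ ht0 x c5)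
      (by
        have := I7b_step ht0 (by linarith : (0 : ℝ) ≤ 3 * δ) hwx
        exact this)
      (le_trans (by linarith) (wpop_le_sg (by linarith) x)) hr1 hr2' c1.1 c2.2 c3.1 c4.2
      (I7b_mono hmF hgrL hj2) (I7b_mono hmF (hgrL.trans hj2) hj3)
      (I7b_mono (hmonoN ω) hgrL hj2) (I7b_mono (hmonoN ω) (hgrL.trans hj2) hj3)
      ?_ (I7b_wpop_nonneg _) hδ2 ?_ ?_
    · exact I7b_wsum_nonneg (fun d => by split_ifs <;> simp) _
    · rw [he']; linarith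
    · rw [hε]; field_simp; rfl
  have key2 : ∀ᵐ ω ∂P, ∀ m : ℕ, ∀ᶠ n : ℕ in atTop,
      |Fk k (X n ω) - p * wpop (X n ω)| ≤ (1 / ((m : ℝ) + 1)) * wpop (X n ω) := by
    rw [ae_all_iff]
    intro m
    refine key _ (by positivity) ?_
    rw [div_le_one (by positivity)]
    linarith [(Nat.cast_nonneg m : (0 : ℝ) ≤ m)]
  filter_upwards [key2, hbig] with ω h1 h2
  rw [Metric.tendsto_atTop]
  intro r hr
  obtain ⟨m, hm⟩ := exists_nat_one_div_lt hr
  obtain ⟨n0, hn0⟩ := eventually_atTop.mp ((h1 m).and h2)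
  refine ⟨n0, fun n hn => ?_⟩
  obtain ⟨h3, h4⟩ := hn0 n hn
  have hpos : 0 < wpop (X n ω) := by linarith
  rw [Real.dist_eq]
  have e1 : Fk k (X n ω) / wpop (X n ω) - p = (Fk k (X n ω) - p * wpop (X n ω)) / wpop (X n ω) := by
    field_simp
  rw [e1, abs_div, abs_of_pos hpos, div_lt_iff₀ hpos]
  exact lt_of_le_of_lt h3 (mul_lt_mul_of_pos_right hm hpos)

end RFT
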