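import Pool.Agent.H13.RF.I7a
import Pool.Agent.H13.RF.I7b

/-! Module I7c: everything for the chain. -/

namespace RFT

open Finset RT MeasureTheory Filter Topology

variable {μ c C : ℝ} {Ω : Type*} [MeasurableSpace Ω] {P : Measure Ω}
  {X : ℕ → Ω → RT Unit × RT Unit}

/-- everything for the chain: `Fk k - Fk (k+1)` counts the vertices of degree `k` -/
theorem chain_main.{u} : ∃ μ : ℝ, 2 / 5 ≤ μ ∧ μ ≤ 19 / 25 ∧ ∃ p : ℕ → ℝ,
    (∃ c' C' : ℝ, 0 < c' ∧ ∀ k : ℕ, 2 ≤ k →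
      c' * (k : ℝ) ^ (-(1 + μ)) ≤ p k ∧ p k ≤ C' * (k : ℝ) ^ (-(1 + μ))) ∧
    ∀ (Ω : Type u) [MeasurableSpace Ω] (P : Measure Ω) [IsProbabilityMeasure P]
      (X : ℕ → Ω → RT Unit × RT Unit), Chain kerT P 2 X →
      (∀ ω n, 2 ≤ n → ∀ k, Fk k (X n ω) ≤ Fk k (X (n + 1) ω)) →
      (∀ᵐ ω ∂P, Tendsto (fun n : ℕ => Real.log (wpop (X n ω)) / Real.log n) atTop (𝓝 μ)) ∧
      ∀ k, 2 ≤ k → ∀ᵐ ω ∂P,
        Tendsto (fun n : ℕ => (Fk k (X n ω) - Fk (k + 1) (X n ω)) / wpop (X n ω)) atTop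
          (𝓝 (p k)) := by
  obtain ⟨μ, c, C, hb⟩ := exists_Bd
  have hr : ∀ k : ℕ, ∃ q : ℝ, IsRatio μ (fun _ d => if k ≤ d then 1 else 0) q := by
    intro k
    obtain ⟨q, -, -, hq⟩ := ratio (g := fun _ d => if k ≤ d then 1 else 0) hb
      (fun _ d => by split_ifs <;> norm_num) (fun _ d => by split_ifs <;> norm_num)
    exact ⟨q, hq⟩
  choose q hq using hr
  have hpk : ∀ k : ℕ, IsRatio μ (dk k) (q k - q (k + 1)) := by
    intro k
    have h1 := IsRatio.sub (M := 1) (N := 1) (fun _ d => by split_ifs <;> norm_num)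
      (fun _ d => by split_ifs <;> norm_num) (hq k) (hq (k + 1))
    have h2 : (fun (_ d : ℕ) => (if k ≤ d then (1 : ℝ) else 0) - (if k + 1 ≤ d then 1 else 0)) =
        dk k := by
      funext l d
      unfold dk
      split_ifs <;> first | omega | norm_num
    rw [h2] at h1
    exact h1
  obtain ⟨c', C', hc', hbd⟩ := pk_bounds hb
  refine ⟨μ, hb.mu_ge, hb.mu_le, fun k => q k - q (k + 1), ⟨c', C', hc', fun k hk => hbd k hk _ (hpk k)⟩,
    ?_⟩
  intro Ω _ P _ X hX hmono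
  refine ⟨exponent_as hb hX fun ω n hn => ?_, fun k hk => ?_⟩
  · have h := hmono ω n hn 2
    rwa [Fk_two, Fk_two] at h
  · filter_upwards [ratio_as hb hX hmono hk (hq k), ratio_as hb hX hmono (k := k + 1) (by omega)
      (hq (k + 1))] with ω h1 h2
    refine (h1.sub h2).congr fun n => ?_
    rw [sub_div]

end RFT
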