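import Pool.Agent.H13.RF.I6

/-! Module I7a: the growth exponent. -/

namespace RFT

open Finset RT MeasureTheory Filter Topology

variable {μ c C : ℝ} {Ω : Type*} [MeasurableSpace Ω] {P : Measure Ω}
  {X : ℕ → Ω → RT Unit × RT Unit}

private theorem I7a_step {v : ℕ → ℝ} {J L : ℕ} (hL : 1 ≤ L) (h : ∀ j, J ≤ j → v (j + L) ≤ v j) :
    ∃ A : ℝ, ∀ j, J ≤ j → v j ≤ A := by
  have hne : (Finset.Ico J (J + L)).Nonempty := ⟨J, by simp; omega⟩
  refine ⟨(Finset.Ico J (J + L)).sup' hne v, fun j => ?_⟩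
  induction j using Nat.strong_induction_on with
  | _ j ih =>
    intro hj
    by_cases hj2 : j < J + L
    · exact Finset.le_sup' v (by simp [hj, hj2])
    · have h1 := ih (j - L) (by omega) (by omega)
      have h2 := h (j - L) (by omega)
      have h3 : j - L + L = j := by omega
      rw [h3] at h2
      exact h2.trans h1

private theorem I7a_lin {u : ℕ → ℝ} {J L : ℕ} {b : ℝ} (hL : 1 ≤ L)
    (h : ∀ j, J ≤ j → u (j + L) ≤ u j + b) :
    ∃ A : ℝ, 0 ≤ A ∧ ∀ j, J ≤ j → u j ≤ b / L * j + A := by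
  have hL' : (L : ℝ) ≠ 0 := by
    have : 0 < L := hL
    positivity
  obtain ⟨A, hA⟩ := I7a_step (v := fun j => u j - b / L * j) (J := J) hL (fun j hj => by
    have := h j hj
    have h2 : b / L * ((j + L : ℕ) : ℝ) = b / L * j + b := by
      push_cast; rw [mul_add, div_mul_cancel₀ _ hL']
    rw [h2]; linarith)
  refine ⟨max A 0, le_max_right _ _, fun j hj => ?_⟩
  have := hA j hj
  have h3 := le_max_left A 0
  linarith

private theorem I7a_const_lim (b1 b2 μ : ℝ) :
    Tendsto (fun L : ℕ => (b1 + μ * ((L : ℝ) + b2)) / L) atTop (𝓝 μ) := by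
  have h1 : Tendsto (fun L : ℕ => (b1 + μ * b2) / (L : ℝ) + μ) atTop (𝓝 (0 + μ)) :=
    (tendsto_const_div_atTop_nhds_zero_nat _).add tendsto_const_nhds
  rw [zero_add] at h1
  refine h1.congr' ?_
  filter_upwards [eventually_ge_atTop 1] with L hL
  have hL' : (L : ℝ) ≠ 0 := by
    have : 0 < L := hL
    positivity
  field_simp
  ring

/-- Deterministic: along the grid `gr 1 j = ⌈e^j⌉`; telescoping with step `L`, then `L → ∞`; between the grid
points monotonicity, `log n ∈ [j, j+1]`. -/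
theorem exponent_of_grid {N : ℕ → ℝ} {μ c1 C1 : ℝ} (hc1 : 0 < c1) (hC1 : 0 < C1)
    (hN : ∀ n, 3 ≤ n → 1 ≤ N n) (hm : ∀ n, 2 ≤ n → N n ≤ N (n + 1))
    (h : ∀ L : ℕ, 2 ≤ L → ∀ᶠ j in atTop,
      c1 * Real.exp (μ * ((L : ℝ) - 1)) * N (gr 1 j) ≤ N (gr 1 (j + L)) ∧
      N (gr 1 (j + L)) ≤ C1 * Real.exp (μ * ((L : ℝ) + 1)) * N (gr 1 j)) :
    Tendsto (fun n : ℕ => Real.log (N n) / Real.log n) atTop (𝓝 μ) := by
  -- monotonicity
  have hmono : ∀ a b, 2 ≤ a → a ≤ b → N a ≤ N b := by
    intro a b ha hab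
    induction b, hab using Nat.le_induction with
    | base => exact le_rfl
    | succ b hb ih => exact ih.trans (hm b (ha.trans hb))
  have hge : ∀ j : ℕ, Real.exp (j : ℝ) ≤ (gr 1 j : ℝ) := by
    intro j
    have := Nat.le_ceil (Real.exp (1 * (j : ℝ)))
    simpa [gr] using this
  have hgr3 : ∀ j : ℕ, 2 ≤ j → 3 ≤ gr 1 j := by
    intro j hj
    have h1 : (2 : ℝ) < Real.exp (j : ℝ) := by
      have h2 : (2 : ℝ) ≤ j := by exact_mod_cast hj
      have := Real.add_one_le_exp (j : ℝ)
      linarith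
    have h3 : (2 : ℝ) < (gr 1 j : ℝ) := h1.trans_le (hge j)
    have h4 : 2 < gr 1 j := by exact_mod_cast h3
    exact h4
  -- `log N` along the grid
  set u : ℕ → ℝ := fun j => Real.log (N (gr 1 j)) with hu
  have hlog : ∀ L : ℕ, 2 ≤ L → ∃ J, 2 ≤ J ∧ ∀ j, J ≤ j →
      u (j + L) ≤ u j + (Real.log C1 + μ * ((L : ℝ) + 1)) ∧
      -u (j + L) ≤ -u j + -(Real.log c1 + μ * ((L : ℝ) - 1)) := by
    intro L hL
    obtain ⟨J, hJ⟩ := eventually_atTop.mp (h L hL)
    refine ⟨max J 2, le_max_right _ _, fun j hj => ?_⟩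
    obtain ⟨h1, h2⟩ := hJ j ((le_max_left _ _).trans hj)
    have hj2 : 2 ≤ j := (le_max_right _ _).trans hj
    have hp1 : 0 < N (gr 1 j) := lt_of_lt_of_le one_pos (hN _ (hgr3 j hj2))
    have hp2 : 0 < N (gr 1 (j + L)) := lt_of_lt_of_le one_pos (hN _ (hgr3 _ (by omega)))
    constructor
    · have := Real.log_le_log hp2 h2
      rw [Real.log_mul (by positivity) hp1.ne', Real.log_mul hC1.ne' (Real.exp_pos _).ne',
        Real.log_exp] at this
      simp only [hu]; linarith
    · have := Real.log_le_log (by positivity) h1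
      rw [Real.log_mul (by positivity) hp1.ne', Real.log_mul hc1.ne' (Real.exp_pos _).ne',
        Real.log_exp] at this
      simp only [hu]; linarith
  -- `n` between two grid points
  have hsand : ∀ n : ℕ, 8 ≤ n → ∃ j : ℕ, (j : ℝ) ≤ Real.log n ∧ Real.log n ≤ j + 1 ∧ 2 ≤ j ∧
      u j ≤ Real.log (N n) ∧ Real.log (N n) ≤ u (j + 1) := by
    intro n hn
    have hn0 : (0 : ℝ) < n := by positivity
    have hlog2 : (2 : ℝ) ≤ Real.log n := by
      rw [Real.le_log_iff_exp_le hn0]
      have h1 : Real.exp 2 = Real.exp 1 * Real.exp 1 := by rw [← Real.exp_add]; norm_num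
      have h2 := Real.exp_one_lt_d9
      have h3 : (8 : ℝ) ≤ n := by exact_mod_cast hn
      have h4 := Real.exp_pos 1
      nlinarith
    set j := ⌊Real.log n⌋₊ with hjdef
    have hj1 : (j : ℝ) ≤ Real.log n := Nat.floor_le (by linarith)
    have hj2 : Real.log n < j + 1 := Nat.lt_floor_add_one _
    have hj3 : 2 ≤ j := Nat.le_floor (by exact_mod_cast hlog2)
    refine ⟨j, hj1, hj2.le, hj3, ?_, ?_⟩
    · have h1 : gr 1 j ≤ n := by
        unfold gr
        apply Nat.ceil_le.mpr
        rw [one_mul]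
        calc Real.exp (j : ℝ) ≤ Real.exp (Real.log n) := Real.exp_le_exp.mpr hj1
          _ = n := Real.exp_log hn0
      have h2 := hmono _ _ (by have := hgr3 j hj3; omega) h1
      exact Real.log_le_log (lt_of_lt_of_le one_pos (hN _ (hgr3 j hj3))) h2
    · have h1 : n ≤ gr 1 (j + 1) := by
        have h3 : (n : ℝ) ≤ (gr 1 (j + 1) : ℝ) := by
          calc (n : ℝ) = Real.exp (Real.log n) := (Real.exp_log hn0).symm
            _ ≤ Real.exp ((j + 1 : ℕ) : ℝ) := Real.exp_le_exp.mpr (by push_cast; exact hj2.le)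
            _ ≤ _ := hge (j + 1)
        exact_mod_cast h3
      have h2 := hmono _ _ (by omega) h1
      exact Real.log_le_log (lt_of_lt_of_le one_pos (hN _ (by omega))) h2
  have hlogn : Tendsto (fun n : ℕ => Real.log n) atTop atTop :=
    Real.tendsto_log_atTop.comp tendsto_natCast_atTop_atTop
  refine tendsto_order.mpr ⟨fun a ha => ?_, fun a ha => ?_⟩
  · -- lower bound
    obtain ⟨L, hL2, hLa⟩ : ∃ L : ℕ, 2 ≤ L ∧
        a < (Real.log c1 + μ * ((L : ℝ) + (-1))) / L := by
      have := ((I7a_const_lim (Real.log c1) (-1) μ).eventually_const_lt ha).and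
        (eventually_ge_atTop 2)
      obtain ⟨L, hL⟩ := this.exists
      exact ⟨L, hL.2, hL.1⟩
    set s := (Real.log c1 + μ * ((L : ℝ) + (-1))) / L with hs
    obtain ⟨J, hJ2, hJ⟩ := hlog L hL2
    obtain ⟨A, hA0, hA⟩ := I7a_lin (u := fun j => -u j) (J := J)
      (b := -(Real.log c1 + μ * ((L : ℝ) - 1))) (by omega : 1 ≤ L) (fun j hj => (hJ j hj).2)
    have hs' : -(Real.log c1 + μ * ((L : ℝ) - 1)) / L = -s := by rw [hs]; ring
    have hlarge := hlogn.eventually_gt_atTop (max ((|s| + A) / (s - a)) (J + 1))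
    filter_upwards [hlarge, eventually_ge_atTop 8] with n hn hn8
    obtain ⟨j, hj1, hj2, hj3, hj4, hj5⟩ := hsand n hn8
    have hn1 : (|s| + A) / (s - a) < Real.log n := (le_max_left _ _).trans_lt hn
    have hn2 : (J : ℝ) + 1 < Real.log n := (le_max_right _ _).trans_lt hn
    have hJj : J ≤ j := by
      have : (J : ℝ) < j := by linarith
      exact_mod_cast this.le
    have h1 := hA j hJj
    simp only [hs'] at h1
    have hpos : 0 < Real.log n := by
      have : (0 : ℝ) ≤ J := Nat.cast_nonneg _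
      linarith
    rw [lt_div_iff₀ hpos]
    rw [div_lt_iff₀ (by linarith)] at hn1
    have h2 : s * Real.log n - s * j ≤ |s| := by
      have h3 : s * Real.log n - s * j = s * (Real.log n - j) := by ring
      rw [h3]
      calc s * (Real.log n - j) ≤ |s| * (Real.log n - j) :=
            mul_le_mul_of_nonneg_right (le_abs_self s) (by linarith)
        _ ≤ |s| * 1 := mul_le_mul_of_nonneg_left (by linarith) (abs_nonneg s)
        _ = |s| := mul_one _
    nlinarith
  · -- upper bound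
    obtain ⟨L, hL2, hLa⟩ : ∃ L : ℕ, 2 ≤ L ∧
        (Real.log C1 + μ * ((L : ℝ) + 1)) / L < a := by
      have := ((I7a_const_lim (Real.log C1) 1 μ).eventually_lt_const ha).and
        (eventually_ge_atTop 2)
      obtain ⟨L, hL⟩ := this.exists
      exact ⟨L, hL.2, hL.1⟩
    set s := (Real.log C1 + μ * ((L : ℝ) + 1)) / L with hs
    obtain ⟨J, hJ2, hJ⟩ := hlog L hL2
    obtain ⟨A, hA0, hA⟩ := I7a_lin (u := u) (J := J)
      (b := Real.log C1 + μ * ((L : ℝ) + 1)) (by omega : 1 ≤ L) (fun j hj => (hJ j hj).1)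
    rw [← hs] at hA
    have hlarge := hlogn.eventually_gt_atTop (max ((|s| + A) / (a - s)) (J + 1))
    filter_upwards [hlarge, eventually_ge_atTop 8] with n hn hn8
    obtain ⟨j, hj1, hj2, hj3, hj4, hj5⟩ := hsand n hn8
    have hn1 : (|s| + A) / (a - s) < Real.log n := (le_max_left _ _).trans_lt hn
    have hn2 : (J : ℝ) + 1 < Real.log n := (le_max_right _ _).trans_lt hn
    have hJj : J ≤ j + 1 := by
      have : (J : ℝ) < j := by linarith
      have : J ≤ j := by exact_mod_cast this.le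
      omega
    have h1 := hA (j + 1) hJj
    have hpos : 0 < Real.log n := by
      have : (0 : ℝ) ≤ J := Nat.cast_nonneg _
      linarith
    rw [div_lt_iff₀ hpos]
    rw [div_lt_iff₀ (by linarith)] at hn1
    have h2 : s * ((j + 1 : ℕ) : ℝ) - s * Real.log n ≤ |s| := by
      have h3 : s * ((j + 1 : ℕ) : ℝ) - s * Real.log n = s * ((j : ℝ) + 1 - Real.log n) := by
        push_cast; ring
      rw [h3]
      calc s * ((j : ℝ) + 1 - Real.log n) ≤ |s| * ((j : ℝ) + 1 - Real.log n) :=
            mul_le_mul_of_nonneg_right (le_abs_self s) (by linarith)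
        _ ≤ |s| * 1 := mul_le_mul_of_nonneg_left (by linarith) (abs_nonneg s)
        _ = |s| := mul_one _
    nlinarith

theorem exponent_as (hb : Bd μ c C) [IsProbabilityMeasure P] (h : Chain kerT P 2 X)
    (hmono : ∀ ω n, 2 ≤ n → wpop (X n ω) ≤ wpop (X (n + 1) ω)) :
    ∀ᵐ ω ∂P, Tendsto (fun n : ℕ => Real.log (wpop (X n ω)) / Real.log n) atTop (𝓝 μ) := by
  have hmu : 0 < μ := lt_of_lt_of_le (by norm_num) hb.mu_ge
  obtain ⟨c', hc', hlo⟩ := whole_lo hb
  obtain ⟨d, hd, hpoly⟩ := poly_growth hb h hmono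
  have hF : Fk 2 = wpop := funext Fk_two
  have hC0 : 0 < 1 + C / μ := by have := div_pos hb.C_pos hmu; linarith
  have hgrid : ∀ᵐ ω ∂P, ∀ L : ℕ, 2 ≤ L → ∀ᶠ j in atTop,
      kerT.sg (1 * L - 1) (Fk 2) (X (gr 1 j) ω) - min (c' / 2) 1 * wpop (X (gr 1 j) ω) ≤
        Fk 2 (X (gr 1 (j + L)) ω) ∧
      Fk 2 (X (gr 1 (j + L)) ω) ≤
        kerT.sg (1 * L + 1) (Fk 2) (X (gr 1 j) ω) + min (c' / 2) 1 * wpop (X (gr 1 j) ω) := by
    rw [ae_all_iff]
    intro L
    by_cases hL : 2 ≤ L
    · have := grid_as hb h hmono (k := 2) le_rfl (δ := 1) one_pos hL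
        (ε := min (c' / 2) 1) (lt_min (by positivity) one_pos)
      filter_upwards [this] with ω hω _
      exact hω
    · exact Filter.Eventually.of_forall (fun ω hL2 => absurd hL2 hL)
  filter_upwards [hgrid, hpoly] with ω hω hp
  obtain ⟨a, ha, hpa⟩ := hp
  have hinf : Tendsto (fun n : ℕ => a * (n : ℝ) ^ d) atTop atTop :=
    ((tendsto_rpow_atTop hd).comp tendsto_natCast_atTop_atTop).const_mul_atTop ha
  have h2ev : ∀ᶠ n : ℕ in atTop, 2 ≤ wpop (X n ω) := by
    filter_upwards [hinf.eventually_ge_atTop 2, eventually_ge_atTop 3] with n h1 h2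
    exact h1.trans (hpa n h2)
  have hgrt : Tendsto (gr 1) atTop atTop := by
    rw [← tendsto_natCast_atTop_iff (R := ℝ)]
    have h1 : Tendsto (fun j : ℕ => Real.exp (1 * (j : ℝ))) atTop atTop := by
      apply Real.tendsto_exp_atTop.comp
      exact (tendsto_natCast_atTop_atTop (R := ℝ)).const_mul_atTop one_pos
    exact tendsto_atTop_mono (fun j => Nat.le_ceil _) h1
  have key := exponent_of_grid (N := fun n => max 1 (wpop (X n ω))) (μ := μ) (c1 := c' / 2)
    (C1 := 1 + C / μ + 1) (by positivity) (by positivity) (fun n _ => le_max_left _ _)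
    (fun n hn => max_le_max le_rfl (hmono ω n hn)) (fun L hL => by
      have hLs : Tendsto (fun j : ℕ => j + L) atTop atTop := tendsto_add_atTop_nat L
      filter_upwards [hω L hL, hgrt.eventually h2ev, (hgrt.comp hLs).eventually h2ev]
        with j hj hj1 hj2
      simp only [Function.comp] at hj2
      rw [hF] at hj
      have hL' : (2 : ℝ) ≤ L := by exact_mod_cast hL
      have e1 : max 1 (wpop (X (gr 1 j) ω)) = wpop (X (gr 1 j) ω) := max_eq_right (by linarith)
      have e2 : max 1 (wpop (X (gr 1 (j + L)) ω)) = wpop (X (gr 1 (j + L)) ω) :=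
        max_eq_right (by linarith)
      simp only [e1, e2]
      have hw : 0 ≤ wpop (X (gr 1 j) ω) := by linarith
      have hlo' := hlo (1 * L - 1) (by linarith) (X (gr 1 j) ω) hj1
      have hhi' := whole_hi hb (t := 1 * L + 1) (by linarith) hj1
      rw [one_mul] at hlo' hhi' hj
      have m1 : min (c' / 2) 1 ≤ c' / 2 := min_le_left _ _
      have m2 : min (c' / 2) 1 ≤ 1 := min_le_right _ _
      have x1 : 1 ≤ Real.exp (μ * ((L : ℝ) - 1)) :=
        Real.one_le_exp (mul_nonneg hmu.le (by linarith))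
      have x2 : 1 ≤ Real.exp (μ * ((L : ℝ) + 1)) :=
        Real.one_le_exp (mul_nonneg hmu.le (by linarith))
      constructor
      · have h3 : min (c' / 2) 1 * wpop (X (gr 1 j) ω) ≤
            c' / 2 * Real.exp (μ * ((L : ℝ) - 1)) * wpop (X (gr 1 j) ω) := by
          apply mul_le_mul_of_nonneg_right _ hw
          calc min (c' / 2) 1 ≤ c' / 2 * 1 := by rw [mul_one]; exact m1
            _ ≤ _ := mul_le_mul_of_nonneg_left x1 (by positivity)
        nlinarith [hj.1]
      · have h3 : min (c' / 2) 1 * wpop (X (gr 1 j) ω) ≤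
            1 * Real.exp (μ * ((L : ℝ) + 1)) * wpop (X (gr 1 j) ω) := by
          apply mul_le_mul_of_nonneg_right _ hw
          rw [one_mul]
          exact m2.trans x2
        nlinarith [hj.2])
  refine key.congr' ?_
  filter_upwards [h2ev] with n hn
  rw [max_eq_right (by linarith : (1 : ℝ) ≤ wpop (X n ω))]

end RFT
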