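import Mathlib

/-! Module J0: definitions for the final statement. -/

namespace RFT

open MeasureTheory

/-- The tree with vertex set `{1, …, n}`: the edge between `1` and `2`, and, for `2 ≤ j < n`, the vertex `j + 1`
attached to `w j`. -/
def tree (w : ℕ → ℕ) (n : ℕ) : SimpleGraph ℕ :=
  SimpleGraph.fromRel (fun a b => (a = 1 ∧ b = 2) ∨ ∃ j, 2 ≤ j ∧ j < n ∧ a = w j ∧ b = j + 1)

/-- The degree of `v` in the tree. -/
noncomputable def deg (w : ℕ → ℕ) (n v : ℕ) : ℕ := Set.ncard {u | (tree w n).Adj v u}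

/-- Number of vertices of degree at least `k`. -/
noncomputable def Xge (k : ℕ) (w : ℕ → ℕ) (n : ℕ) : ℕ :=
  Set.ncard {v | 1 ≤ v ∧ v ≤ n ∧ k ≤ deg w n v}

/-- Number of vertices of degree exactly `k`. -/
noncomputable def Xeq (k : ℕ) (w : ℕ → ℕ) (n : ℕ) : ℕ :=
  Set.ncard {v | 1 ≤ v ∧ v ≤ n ∧ deg w n v = k}

/-- `V`, `W` drive the random friend tree: for `n ≥ 2`, given the tree `T_n` and its past (that is, given
`W_2, …, W_{n-1}`), `V_n` is uniform on `{1, …, n}` and `W_n` is uniform among the neighbours of `V_n`. -/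
structure IsFriendTree {Ω : Type*} [MeasurableSpace Ω] (P : Measure Ω) (V W : ℕ → Ω → ℕ) :
    Prop where
  measV : ∀ n, Measurable (V n)
  measW : ∀ n, Measurable (W n)
  law : ∀ n, 2 ≤ n → ∀ (w : ℕ → ℕ) (v u : ℕ),
    P.real {ω | (∀ j, 2 ≤ j → j < n → W j ω = w j) ∧ V n ω = v ∧ W n ω = u} =
      P.real {ω | ∀ j, 2 ≤ j → j < n → W j ω = w j} *
        ({p : ℕ × ℕ | 1 ≤ p.1 ∧ p.1 ≤ n ∧ (tree w n).Adj p.1 p.2}.indicator
          (fun p => 1 / (n : ℝ) * (1 / (deg w n p.1 : ℝ))) (v, u))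

end RFT
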