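import Pool.Agent.H13.RF.J1a

/-! Module J1b: sums over the labelled tree and over the graph. -/

namespace RFT

open Finset RT

/-- Sum over the vertices `v` of `B` of `φ v (neighbours of v)`: `S φ B p` where `p` is the label of the parent of the
root and the second argument of `φ` is the multiset of the labels of the neighbours. -/
noncomputable def nsum (φ : ℕ → Multiset ℕ → ℝ) : RT ℕ → ℕ → ℝ
  | .node a _ K, p => φ a (p ::ₘ (Finset.univ.val.map (fun i => (K i).lab))) +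
      ∑ i, nsum φ (K i) a

theorem J1b_lab (v new : ℕ) (B : RT ℕ) : (ins v new B).lab = B.lab := by
  cases B with
  | node a n K =>
    by_cases h : a = v
    · subst h
      rw [J1a_ins_eq]
      rfl
    · rw [J1a_ins_ne h]
      rfl

theorem J1b_univ {n : ℕ} (f : Fin (n + 1) → ℕ) :
    (Finset.univ.val.map f) = f (Fin.last n) ::ₘ (Finset.univ.val.map fun i : Fin n => f i.castSucc) := by
  rw [Fin.univ_castSuccEmb, Finset.cons_val, Finset.map_val, Multiset.map_cons, Multiset.map_map]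
  rfl

/-- the new neighbour of `x` -/
noncomputable def J1b_phi (φ : ℕ → Multiset ℕ → ℝ) (x new : ℕ) (v : ℕ) (s : Multiset ℕ) : ℝ :=
  if v = x then φ v (new ::ₘ s) else φ v s

theorem J1b_not (φ : ℕ → Multiset ℕ → ℝ) (x new : ℕ) (B : RT ℕ) (h : x ∉ labs B) :
    ∀ p, nsum (J1b_phi φ x new) B p = nsum φ B p := by
  induction B with
  | node a n K ih =>
    intro p
    rw [J1a_mem, not_or, not_exists] at h
    simp only [nsum]
    congr 1
    · unfold J1b_phi
      rw [if_neg (fun e => h.1 e.symm)]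
    · exact Finset.sum_congr rfl fun i _ => ih i (h.2 i) a

theorem J1b_ins (φ : ℕ → Multiset ℕ → ℝ) (x new : ℕ) (B : RT ℕ) (hn : (labs B).Nodup)
    (h : x ∈ labs B) : ∀ p, nsum φ (ins x new B) p = nsum (J1b_phi φ x new) B p + φ new {x} := by
  classical
  induction B with
  | node a n K ih =>
    intro p
    by_cases hax : a = x
    · subst hax
      rw [J1a_ins_eq]
      simp only [nsum]
      rw [J1b_univ, Fin.sum_univ_castSucc]
      simp only [Fin.snoc_castSucc, Fin.snoc_last, nsum, Finset.univ_eq_empty, Finset.sum_empty,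
        Finset.empty_val, Multiset.map_zero, add_zero]
      have h1 : ∑ i, nsum φ (K i) a = ∑ i, nsum (J1b_phi φ a new) (K i) a :=
        Finset.sum_congr rfl fun i _ => (J1b_not φ a new (K i) (J1a_root_notMem hn i) a).symm
      rw [h1]
      unfold J1b_phi
      rw [if_pos rfl, Multiset.cons_swap]
      have h2 : RT.lab (.node new 0 Fin.elim0) = new := rfl
      rw [h2]
      have h3 : (a ::ₘ (0 : Multiset ℕ)) = {a} := rfl
      rw [h3]
      ring
    · rw [J1a_ins_ne hax]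
      rw [J1a_mem] at h
      obtain ⟨i, hi⟩ := h.resolve_left (fun e => hax e.symm)
      obtain ⟨-, h2, h3⟩ := J1a_unique hn hi
      simp only [nsum, J1b_lab]
      have h4 : J1b_phi φ x new a (p ::ₘ Finset.univ.val.map fun i => (K i).lab)
          = φ a (p ::ₘ Finset.univ.val.map fun i => (K i).lab) := by
        unfold J1b_phi
        rw [if_neg hax]
      rw [h4, ← Finset.add_sum_erase _ _ (Finset.mem_univ i),
        ← Finset.add_sum_erase (a := i) Finset.univ (fun j => nsum (J1b_phi φ x new) (K j) a)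
          (Finset.mem_univ i), ih i h2 hi a]
      have h5 : ∑ j ∈ Finset.univ.erase i, nsum φ (ins x new (K j)) a
          = ∑ j ∈ Finset.univ.erase i, nsum (J1b_phi φ x new) (K j) a := by
        refine Finset.sum_congr rfl fun j hj => ?_
        have h6 := h3 j (Finset.ne_of_mem_erase hj)
        rw [labs_ins_of_not_mem h6, J1b_not φ x new (K j) h6]
      rw [h5]
      ring

theorem J1b_adj {w : ℕ → ℕ} {n a b : ℕ} : (tree w n).Adj a b ↔ a ≠ b ∧
    (((a = 1 ∧ b = 2) ∨ ∃ j, 2 ≤ j ∧ j < n ∧ a = w j ∧ b = j + 1) ∨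
      ((b = 1 ∧ a = 2) ∨ ∃ j, 2 ≤ j ∧ j < n ∧ b = w j ∧ a = j + 1)) := by
  unfold tree
  rw [SimpleGraph.fromRel_adj]

theorem J1b_le {w : ℕ → ℕ} {n : ℕ} (hn : 2 ≤ n) (hw : ∀ j, 2 ≤ j → j < n → 1 ≤ w j ∧ w j ≤ j)
    {a b : ℕ} (h : (tree w n).Adj a b) : (1 ≤ a ∧ a ≤ n) ∧ (1 ≤ b ∧ b ≤ n) := by
  rw [J1b_adj] at h
  obtain ⟨-, (⟨h1, h2⟩ | ⟨j, h1, h2, h3, h4⟩) | (⟨h1, h2⟩ | ⟨j, h1, h2, h3, h4⟩)⟩ := h
  · omega
  · have := hw j h1 h2
    omega
  · omega
  · have := hw j h1 h2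
    omega

theorem J1b_step {w : ℕ → ℕ} {n : ℕ} (hn : 2 ≤ n) (hw : w n ≤ n) {a b : ℕ} :
    (tree w (n + 1)).Adj a b ↔ (tree w n).Adj a b ∨ (a = w n ∧ b = n + 1) ∨
      (b = w n ∧ a = n + 1) := by
  rw [J1b_adj, J1b_adj]
  constructor
  · rintro ⟨hab, (⟨h1, h2⟩ | ⟨j, h1, h2, h3, h4⟩) | (⟨h1, h2⟩ | ⟨j, h1, h2, h3, h4⟩)⟩
    · exact Or.inl ⟨hab, Or.inl (Or.inl ⟨h1, h2⟩)⟩
    · rcases Nat.lt_succ_iff_lt_or_eq.1 h2 with h5 | h5
      · exact Or.inl ⟨hab, Or.inl (Or.inr ⟨j, h1, h5, h3, h4⟩)⟩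
      · subst h5
        exact Or.inr (Or.inl ⟨h3, h4⟩)
    · exact Or.inl ⟨hab, Or.inr (Or.inl ⟨h1, h2⟩)⟩
    · rcases Nat.lt_succ_iff_lt_or_eq.1 h2 with h5 | h5
      · exact Or.inl ⟨hab, Or.inr (Or.inr ⟨j, h1, h5, h3, h4⟩)⟩
      · subst h5
        exact Or.inr (Or.inr ⟨h3, h4⟩)
  · rintro (⟨hab, (⟨h1, h2⟩ | ⟨j, h1, h2, h3, h4⟩) | (⟨h1, h2⟩ | ⟨j, h1, h2, h3, h4⟩)⟩ |
      ⟨h1, h2⟩ | ⟨h1, h2⟩)
    · exact ⟨hab, Or.inl (Or.inl ⟨h1, h2⟩)⟩
    · exact ⟨hab, Or.inl (Or.inr ⟨j, h1, by omega, h3, h4⟩)⟩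
    · exact ⟨hab, Or.inr (Or.inl ⟨h1, h2⟩)⟩
    · exact ⟨hab, Or.inr (Or.inr ⟨j, h1, by omega, h3, h4⟩)⟩
    · exact ⟨by omega, Or.inl (Or.inr ⟨n, hn, by omega, h1, h2⟩)⟩
    · exact ⟨by omega, Or.inr (Or.inr ⟨n, hn, by omega, h1, h2⟩)⟩

theorem J1b_two {w : ℕ → ℕ} {a b : ℕ} : (tree w 2).Adj a b ↔ (a = 1 ∧ b = 2) ∨ (a = 2 ∧ b = 1) := by
  rw [J1b_adj]
  constructor
  · rintro ⟨hab, (⟨h1, h2⟩ | ⟨j, h1, h2, h3, h4⟩) | (⟨h1, h2⟩ | ⟨j, h1, h2, h3, h4⟩)⟩
    · exact Or.inl ⟨h1, h2⟩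
    · omega
    · exact Or.inr ⟨h2, h1⟩
    · omega
  · rintro (⟨h1, h2⟩ | ⟨h1, h2⟩)
    · exact ⟨by omega, Or.inl (Or.inl ⟨h1, h2⟩)⟩
    · exact ⟨by omega, Or.inr (Or.inl ⟨h2, h1⟩)⟩

theorem J1b_single {s : Multiset ℕ} (hs : s.Nodup) {x : ℕ} (h : ∀ u, u ∈ s ↔ u = x) : s = {x} := by
  rw [Multiset.Nodup.ext hs (Multiset.nodup_singleton x)]
  intro u
  rw [h, Multiset.mem_singleton]

/-- the sum over the labelled tree is the sum over the graph: induction on `m` (adding a leaf changes the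
neighbourhood of `w m` and creates that of the new vertex) -/
theorem nsum_enc {w : ℕ → ℕ} (m : ℕ) (hw : ∀ j, 2 ≤ j → j < m + 2 → 1 ≤ w j ∧ w j ≤ j)
    (nb : ℕ → Multiset ℕ)
    (hnb : ∀ v, 1 ≤ v → v ≤ m + 2 → (nb v).Nodup ∧ ∀ u, u ∈ nb v ↔ (tree w (m + 2)).Adj v u)
    (φ : ℕ → Multiset ℕ → ℝ) :
    nsum φ (enc w m).1 1 + nsum φ (enc w m).2 2 = ∑ v ∈ Finset.Icc 1 (m + 2), φ v (nb v) := by
  classical
  induction m generalizing nb φ with
  | zero =>
    have h1 : nb 1 = {2} := by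
      refine J1b_single (hnb 1 le_rfl (by omega)).1 fun u => ?_
      rw [(hnb 1 le_rfl (by omega)).2 u, J1b_two]
      omega
    have h2 : nb 2 = {1} := by
      refine J1b_single (hnb 2 (by omega) le_rfl).1 fun u => ?_
      rw [(hnb 2 (by omega) le_rfl).2 u, J1b_two]
      omega
    have h3 : Finset.Icc 1 (0 + 2) = {1, 2} := by decide
    rw [h3, Finset.sum_pair (by decide), h1, h2]
    simp only [enc, nsum, Finset.univ_eq_empty, Finset.sum_empty, Finset.empty_val,
      Multiset.map_zero, add_zero]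
    rw [add_comm]
    rfl
  | succ m ih =>
    have hw' : ∀ j, 2 ≤ j → j < m + 2 → 1 ≤ w j ∧ w j ≤ j := fun j h1 h2 => hw j h1 (by omega)
    have hx := hw (m + 2) (by omega) (by omega)
    set x := w (m + 2) with hxd
    have hstep : ∀ a b, (tree w (m + 1 + 2)).Adj a b ↔ (tree w (m + 2)).Adj a b ∨
        (a = x ∧ b = m + 3) ∨ (b = x ∧ a = m + 3) := fun a b =>
      J1b_step (w := w) (n := m + 2) (by omega) hx.2
    have hle : ∀ {a b : ℕ}, (tree w (m + 2)).Adj a b → (1 ≤ a ∧ a ≤ m + 2) ∧ (1 ≤ b ∧ b ≤ m + 2) :=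
      fun h => J1b_le (by omega) hw' h
    have hnd : (labs (enc w m).1 + labs (enc w m).2).Nodup := by
      rw [labs_enc m hw']
      exact (Finset.Icc 1 (m + 2)).nodup
    have hmem : x ∈ labs (enc w m).1 + labs (enc w m).2 := by
      rw [labs_enc m hw', Finset.mem_val, Finset.mem_Icc]
      exact hx
    rw [Multiset.nodup_add] at hnd
    obtain ⟨n1, n2, n3⟩ := hnd
    have key : nsum φ (enc w (m + 1)).1 1 + nsum φ (enc w (m + 1)).2 2
        = nsum (J1b_phi φ x (m + 3)) (enc w m).1 1 + nsum (J1b_phi φ x (m + 3)) (enc w m).2 2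
          + φ (m + 3) {x} := by
      simp only [enc]
      rw [← hxd]
      rw [Multiset.mem_add] at hmem
      rcases hmem with h | h
      · have h' := Multiset.disjoint_left.1 n3 h
        rw [J1b_ins φ x (m + 3) _ n1 h, labs_ins_of_not_mem h', J1b_not φ x (m + 3) _ h']
        ring
      · have h' : x ∉ labs (enc w m).1 := fun h' => Multiset.disjoint_left.1 n3 h' h
        rw [J1b_ins φ x (m + 3) _ n2 h, labs_ins_of_not_mem h', J1b_not φ x (m + 3) _ h']
        ring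
    rw [key, ih hw' (fun v => (nb v).erase (m + 3)) ?_ (J1b_phi φ x (m + 3))]
    · have hIcc : Finset.Icc 1 (m + 1 + 2) = insert (m + 3) (Finset.Icc 1 (m + 2)) := by
        ext y
        simp only [Finset.mem_Icc, Finset.mem_insert]
        omega
      rw [hIcc, Finset.sum_insert (by simp), add_comm]
      congr 1
      · congr 1
        symm
        refine J1b_single (hnb (m + 3) (by omega) (by omega)).1 fun u => ?_
        rw [(hnb (m + 3) (by omega) (by omega)).2 u, hstep]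
        constructor
        · rintro (h | h | h)
          · have := (hle h).1
            omega
          · omega
          · exact h.1
        · intro h
          exact Or.inr (Or.inr ⟨h, rfl⟩)
      · refine Finset.sum_congr rfl fun v hv => ?_
        rw [Finset.mem_Icc] at hv
        obtain ⟨h1, h2⟩ := hnb v hv.1 (by omega)
        unfold J1b_phi
        by_cases hvx : v = x
        · rw [if_pos hvx, Multiset.cons_erase]
          rw [h2, hstep]
          exact Or.inr (Or.inl ⟨hvx, rfl⟩)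
        · rw [if_neg hvx, Multiset.erase_of_notMem]
          rw [h2, hstep]
          rintro (h | h | h)
          · have := (hle h).2
            omega
          · exact hvx h.1
          · omega
    · intro v hv1 hv2
      obtain ⟨h1, h2⟩ := hnb v hv1 (by omega)
      refine ⟨h1.erase _, fun u => ?_⟩
      rw [h1.mem_erase_iff, h2, hstep]
      constructor
      · rintro ⟨h3, h | h | h⟩
        · exact h
        · omega
        · omega
      · intro h
        have := (hle h).2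
        exact ⟨by omega, Or.inl h⟩

end RFT
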