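import Pool.Agent.H13.RF.J1b

/-! Module J1c: one step. -/

namespace RFT

open Finset RT

theorem J1c_fg_node {α : Type} (a : α) (n : ℕ) (K : Fin n → RT α) :
    fg (.node a n K) = .node () n fun i => fg (K i) := rfl

theorem J1c_fg_new (new : ℕ) : fg (.node new 0 Fin.elim0 : RT ℕ) = (leaf : RT Unit) := by
  rw [J1c_fg_node]
  unfold leaf
  congr 1
  funext i
  exact i.elim0

theorem J1c_snoc (a n new : ℕ) (K : Fin n → RT ℕ) :
    fg (.node a (n + 1) (Fin.snoc (α := fun _ => RT ℕ) K (.node new 0 Fin.elim0))) =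
      .node () (n + 1) (Fin.snoc (α := fun _ => RT Unit) (fun i => fg (K i)) leaf) := by
  rw [J1c_fg_node]
  congr 1
  funext i
  refine Fin.lastCases ?_ (fun j => ?_) i
  · rw [Fin.snoc_last, Fin.snoc_last, J1c_fg_new]
  · rw [Fin.snoc_castSucc, Fin.snoc_castSucc]

theorem J1c_root_add (a new n : ℕ) (K : Fin n → RT ℕ) :
    fg (ins a new (.node a n K)) = add (fg (.node a n K)) := by
  rw [J1a_ins_eq, J1c_snoc, J1c_fg_node]
  rfl

theorem J1c_root_msg (new : ℕ) (B : RT ℕ) : fg (ins B.lab new B) = msg (fg B) := by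
  cases B with
  | node a n K =>
    show fg (ins a new (.node a n K)) = _
    rw [J1a_ins_eq, J1c_snoc, J1c_fg_node]
    rfl

theorem J1c_kid {a n u new : ℕ} {K : Fin n → RT ℕ} (hn : (labs (.node a n K)).Nodup) {i : Fin n}
    (hu : u ∈ labs (K i)) : fg (ins u new (.node a n K)) =
      rep n () (fun j => fg (K j)) i (fg (ins u new (K i))) := by
  obtain ⟨h1, -, h3⟩ := J1a_unique hn hu
  rw [J1a_ins_ne h1, J1c_fg_node]
  unfold rep
  congr 1
  funext j
  by_cases hj : j = i
  · subst hj
    rw [Function.update_self]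
  · rw [Function.update_of_ne hj, labs_ins_of_not_mem (h3 j hj)]

theorem J1c_lab_mem (B : RT ℕ) : B.lab ∈ labs B := by
  cases B with
  | node a n K => exact J1a_mem.2 (Or.inl rfl)

/-- One step: the uniform vertex, uniform neighbour rule is the operator `Q`.  Induction on `B`. -/
theorem nsum_Q (B : RT ℕ) (hB : (labs B).Nodup) (new : ℕ) (F : RT Unit → ℝ) (φ : ℕ → ℝ)
    (hφ : ∀ u ∈ labs B, φ u = F (fg (ins u new B))) (p : ℕ) :
    nsum (fun _ s => 1 / (Multiset.card s : ℝ) * (s.map φ).sum) B p =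
      Q (fg B) F + (fg B).upr * φ p := by
  induction B generalizing F p with
  | node a n K ih =>
    have hi : ∀ i, nsum (fun _ s => 1 / (Multiset.card s : ℝ) * (s.map φ).sum) (K i) a
        = Q (fg (K i)) (fun c => F (rep n () (fun j => fg (K j)) i c))
          + (fg (K i)).upr * φ a := by
      intro i
      refine ih i (J1a_kid_nodup hB i) (fun c => F (rep n () (fun j => fg (K j)) i c)) ?_ a
      intro u hu
      rw [hφ u (J1a_mem.2 (Or.inr ⟨i, hu⟩)), J1c_kid hB hu]
    have ha : φ a = F (add (fg (.node a n K))) := by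
      rw [hφ a (J1a_mem.2 (Or.inl rfl)), J1c_root_add]
    have hl : ∀ i, φ (K i).lab = F (rep n () (fun j => fg (K j)) i (msg (fg (K i)))) := by
      intro i
      have h1 := J1c_lab_mem (K i)
      rw [hφ _ (J1a_mem.2 (Or.inr ⟨i, h1⟩)), J1c_kid hB h1, J1c_root_msg]
    have hs : ((p ::ₘ (Finset.univ.val.map fun i => (K i).lab)).map φ).sum
        = φ p + ∑ i, φ (K i).lab := by
      rw [Multiset.map_cons, Multiset.sum_cons, Multiset.map_map]
      rfl
    have hc : Multiset.card (p ::ₘ (Finset.univ.val.map fun i => (K i).lab)) = n + 1 := by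
      rw [Multiset.card_cons, Multiset.card_map, Finset.card_val, Finset.card_univ,
        Fintype.card_fin]
    simp only [nsum]
    rw [hs, hc, Finset.sum_congr rfl fun i _ => hi i, J1c_fg_node]
    simp only [Q, upr, nk_node]
    rw [← J1c_fg_node a, ← ha, Finset.sum_add_distrib, Finset.sum_add_distrib,
      Finset.sum_add_distrib, ← Finset.mul_sum, Finset.sum_congr rfl fun i _ => hl i]
    push_cast
    ring

end RFT
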