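import Pool.Agent.H13.RF.B1
import Pool.Agent.H13.RF.J0

/-! Module J1a: labelled trees. -/

namespace RFT

open Finset RT

/-- add a new leaf with label `new` to the vertex with label `v` -/
def ins (v new : ℕ) : RT ℕ → RT ℕ
  | .node a n K => if a = v then .node a (n + 1) (Fin.snoc (α := fun _ => RT ℕ) K (.node new 0 Fin.elim0))
      else .node a n (fun i => ins v new (K i))

/-- the labelled pair after `m` steps (the tree with `m + 2` vertices): roots `2` and `1` -/
def enc (w : ℕ → ℕ) : ℕ → RT ℕ × RT ℕ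
  | 0 => (.node 2 0 Fin.elim0, .node 1 0 Fin.elim0)
  | m + 1 => (ins (w (m + 2)) (m + 3) (enc w m).1, ins (w (m + 2)) (m + 3) (enc w m).2)

/-- multiset of the labels -/
def labs : RT ℕ → Multiset ℕ
  | .node a _ K => a ::ₘ ∑ i, labs (K i)

theorem J1a_mem {v a n : ℕ} {K : Fin n → RT ℕ} :
    v ∈ labs (.node a n K) ↔ v = a ∨ ∃ i, v ∈ labs (K i) := by
  simp only [labs, Multiset.mem_cons, Multiset.mem_sum, Finset.mem_univ, true_and]

theorem J1a_ins_eq {v new n : ℕ} {K : Fin n → RT ℕ} : ins v new (.node v n K) =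
    .node v (n + 1) (Fin.snoc (α := fun _ => RT ℕ) K (.node new 0 Fin.elim0)) := by
  simp [ins]

theorem J1a_ins_ne {v new a n : ℕ} {K : Fin n → RT ℕ} (h : a ≠ v) : ins v new (.node a n K) =
    .node a n (fun i => ins v new (K i)) := by
  simp [ins, h]

theorem labs_ins_of_not_mem {v new : ℕ} {B : RT ℕ} (h : v ∉ labs B) : ins v new B = B := by
  induction B with
  | node a n K ih =>
    rw [J1a_mem, not_or, not_exists] at h
    rw [J1a_ins_ne (fun e => h.1 e.symm)]
    congr 1
    funext i
    exact ih i (h.2 i)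

/-- a vertex of a half-tree with distinct labels which is not the root lies below exactly one kid -/
theorem J1a_unique {v a n : ℕ} {K : Fin n → RT ℕ} (hn : (labs (.node a n K)).Nodup)
    {i : Fin n} (hi : v ∈ labs (K i)) : a ≠ v ∧ (labs (K i)).Nodup ∧ ∀ j, j ≠ i → v ∉ labs (K j) := by
  classical
  simp only [labs, Multiset.nodup_cons] at hn
  obtain ⟨h1, h2⟩ := hn
  have h3 : ∑ j, labs (K j) = labs (K i) + ∑ j ∈ Finset.univ.erase i, labs (K j) :=
    (Finset.add_sum_erase _ _ (Finset.mem_univ i)).symm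
  rw [h3, Multiset.nodup_add] at h2
  refine ⟨?_, h2.1, ?_⟩
  · rintro rfl
    apply h1
    rw [Multiset.mem_sum]
    exact ⟨i, Finset.mem_univ i, hi⟩
  · intro j hj hvj
    refine Multiset.disjoint_left.1 h2.2.2 hi ?_
    rw [Multiset.mem_sum]
    exact ⟨j, Finset.mem_erase.2 ⟨hj, Finset.mem_univ j⟩, hvj⟩

theorem J1a_root_notMem {a n : ℕ} {K : Fin n → RT ℕ} (hn : (labs (.node a n K)).Nodup)
    (i : Fin n) : a ∉ labs (K i) := fun hi => (J1a_unique hn hi).1 rfl

theorem J1a_kid_nodup {a n : ℕ} {K : Fin n → RT ℕ} (hn : (labs (.node a n K)).Nodup)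
    (i : Fin n) : (labs (K i)).Nodup := by
  classical
  simp only [labs, Multiset.nodup_cons] at hn
  have h3 : ∑ j, labs (K j) = labs (K i) + ∑ j ∈ Finset.univ.erase i, labs (K j) :=
    (Finset.add_sum_erase _ _ (Finset.mem_univ i)).symm
  have h2 := hn.2
  rw [h3, Multiset.nodup_add] at h2
  exact h2.1

theorem labs_ins {v new : ℕ} {B : RT ℕ} (hv : v ∈ labs B) (hn : (labs B).Nodup) :
    labs (ins v new B) = new ::ₘ labs B := by
  classical
  induction B with
  | node a n K ih =>
    by_cases hav : a = v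
    · subst hav
      rw [J1a_ins_eq]
      simp only [labs]
      rw [Fin.sum_univ_castSucc]
      simp only [Fin.snoc_castSucc, Fin.snoc_last, labs, Finset.univ_eq_empty, Finset.sum_empty]
      rw [Multiset.add_cons, add_zero, Multiset.cons_swap]
    · rw [J1a_ins_ne hav]
      rw [J1a_mem] at hv
      obtain ⟨i, hi⟩ := hv.resolve_left (fun e => hav e.symm)
      obtain ⟨-, h2, h3⟩ := J1a_unique hn hi
      simp only [labs]
      rw [← Finset.add_sum_erase _ _ (Finset.mem_univ i),
        ← Finset.add_sum_erase (a := i) Finset.univ (fun j => labs (K j)) (Finset.mem_univ i),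
        ih i hi h2]
      have h4 : ∑ j ∈ Finset.univ.erase i, labs (ins v new (K j))
          = ∑ j ∈ Finset.univ.erase i, labs (K j) := by
        refine Finset.sum_congr rfl fun j hj => ?_
        rw [labs_ins_of_not_mem (h3 j (Finset.ne_of_mem_erase hj))]
      rw [h4, Multiset.cons_add, Multiset.cons_swap]

/-- labels are `1, …, m+2`, each once, for an admissible sequence -/
theorem labs_enc {w : ℕ → ℕ} (m : ℕ) (hw : ∀ j, 2 ≤ j → j < m + 2 → 1 ≤ w j ∧ w j ≤ j) :
    labs (enc w m).1 + labs (enc w m).2 = (Finset.Icc 1 (m + 2)).val := by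
  induction m with
  | zero =>
    simp only [enc, labs, Finset.univ_eq_empty, Finset.sum_empty]
    decide
  | succ m ih =>
    have ih' := ih fun j h1 h2 => hw j h1 (by omega)
    have hw2 := hw (m + 2) (by omega) (by omega)
    have hnd : (labs (enc w m).1 + labs (enc w m).2).Nodup := by
      rw [ih']
      exact (Finset.Icc 1 (m + 2)).nodup
    have hmem : w (m + 2) ∈ labs (enc w m).1 + labs (enc w m).2 := by
      rw [ih', Finset.mem_val, Finset.mem_Icc]
      exact hw2
    rw [Multiset.nodup_add] at hnd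
    obtain ⟨n1, n2, n3⟩ := hnd
    have hIcc : (Finset.Icc 1 (m + 1 + 2)).val = (m + 3) ::ₘ (Finset.Icc 1 (m + 2)).val := by
      have h1 : Finset.Icc 1 (m + 1 + 2) = insert (m + 3) (Finset.Icc 1 (m + 2)) := by
        ext x
        simp only [Finset.mem_Icc, Finset.mem_insert]
        omega
      rw [h1, Finset.insert_val_of_notMem (by simp)]
    rw [hIcc, ← ih']
    simp only [enc]
    rw [Multiset.mem_add] at hmem
    rcases hmem with h | h
    · rw [labs_ins h n1, labs_ins_of_not_mem (Multiset.disjoint_left.1 n3 h), Multiset.cons_add]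
    · rw [labs_ins h n2, labs_ins_of_not_mem fun h' => Multiset.disjoint_left.1 n3 h' h,
        Multiset.add_cons]

end RFT
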