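import Pool.Agent.H13.RF.J2a
import Pool.Agent.H13.RF.H1d

/-! Module J2b: degree counts. -/

namespace RFT

open Finset RT

/-- sum over the labelled tree of the indicator of degree at least `k` -/
theorem J2b_nsum {k : ℕ} (hk : 2 ≤ k) (B : RT ℕ) (p : ℕ) :
    nsum (fun _ s => if k ≤ Multiset.card s then 1 else 0) B p =
      asum (fun _ d => if k ≤ d then 1 else 0) B := by
  induction B generalizing p with
  | node a n K ih =>
    have hc : Multiset.card (p ::ₘ (Finset.univ.val.map (fun i => (K i).lab))) = n + 1 := by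
      simp
    have h0 : nsum (fun _ s => if k ≤ Multiset.card s then (1 : ℝ) else 0) (node a n K) p =
        (if k ≤ n + 1 then 1 else 0) +
        ∑ i, asum (fun _ d => if k ≤ d then (1 : ℝ) else 0) (K i) := by
      rw [← Finset.sum_congr rfl (fun i _ => ih i a), ← hc]
      rfl
    rw [h0]
    by_cases hn : n = 0
    · subst hn
      have h1 : ¬ k ≤ 0 + 1 := by omega
      rw [asum_of_nk_zero _ (nk_node a 0 K), if_neg h1]
      simp
    · rw [asum_node _ a n K hn]

theorem J2b_small {k : ℕ} (hk : k ≤ 2) (B : RT Unit) :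
    asum (fun _ d => if k ≤ d then (1 : ℝ) else 0) B =
      asum (fun _ d => if 2 ≤ d then (1 : ℝ) else 0) B := by
  apply le_antisymm
  · apply asum_mono
    intro l d _ hd
    have h1 : k ≤ d := by omega
    simp [h1, hd]
  · apply asum_mono
    intro l d _ hd
    have h1 : k ≤ d := by omega
    simp [h1, hd]

open Classical in
/-- the neighbours of `v` in `{1, …, n}` -/
noncomputable def J2b_nb (w : ℕ → ℕ) (n v : ℕ) : Finset ℕ :=
  (Finset.Icc 1 n).filter (fun u => (tree w n).Adj v u)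

theorem J2b_mem {w : ℕ → ℕ} {n : ℕ} (hn : 2 ≤ n) (hw : Adm w n) (v u : ℕ) :
    u ∈ J2b_nb w n v ↔ (tree w n).Adj v u := by
  classical
  unfold J2b_nb
  rw [Finset.mem_filter, Finset.mem_Icc]
  exact ⟨fun h => h.2, fun h => ⟨tree_adj_le hn hw h, h⟩⟩

theorem J2b_coe {w : ℕ → ℕ} {n : ℕ} (hn : 2 ≤ n) (hw : Adm w n) (v : ℕ) :
    {u | (tree w n).Adj v u} = (J2b_nb w n v : Set ℕ) := by
  ext u
  rw [Finset.mem_coe, J2b_mem hn hw]
  rfl

theorem J2b_card {w : ℕ → ℕ} {n : ℕ} (hn : 2 ≤ n) (hw : Adm w n) (v : ℕ) :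
    (J2b_nb w n v).card = deg w n v := by
  unfold deg
  rw [J2b_coe hn hw, Set.ncard_coe_finset]

open Classical in
theorem J2b_Xge {w : ℕ → ℕ} {n : ℕ} (k : ℕ) :
    Xge k w n = ((Finset.Icc 1 n).filter (fun v => k ≤ deg w n v)).card := by
  unfold Xge
  rw [← Set.ncard_coe_finset]
  congr 1
  ext v
  simp [and_assoc]

/-- degree counts -/
theorem Xge_eq {w : ℕ → ℕ} {n : ℕ} (hn : 2 ≤ n) (hw : Adm w n) {k : ℕ} (hk : 2 ≤ k) :
    (Xge k w n : ℝ) = Fk k (st w n) := by
  classical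
  obtain ⟨m, rfl⟩ : ∃ m, n = m + 2 := ⟨n - 2, by omega⟩
  have h1 := nsum_enc (w := w) m hw (fun v => (J2b_nb w (m + 2) v).val)
    (fun v _ _ => ⟨(J2b_nb w (m + 2) v).nodup, fun u => J2b_mem hn hw v u⟩)
    (fun _ s => if k ≤ Multiset.card s then 1 else 0)
  rw [J2b_nsum hk, J2b_nsum hk] at h1
  have h2 : Fk k (st w (m + 2)) = asum (fun _ d => if k ≤ d then 1 else 0) (enc w m).1 +
      asum (fun _ d => if k ≤ d then 1 else 0) (enc w m).2 := by
    unfold Fk wsum st
    rw [Nat.add_sub_cancel]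
    simp only [asum_fg]
  rw [h2, h1, J2b_Xge, Finset.card_filter]
  push_cast
  refine Finset.sum_congr rfl fun v _ => ?_
  have h3 : Multiset.card (J2b_nb w (m + 2) v).val = deg w (m + 2) v := J2b_card hn hw v
  rw [h3]

theorem Xeq_eq {w : ℕ → ℕ} {n : ℕ} (hn : 2 ≤ n) (hw : Adm w n) {k : ℕ} (hk : 2 ≤ k) :
    (Xeq k w n : ℝ) = Fk k (st w n) - Fk (k + 1) (st w n) := by
  classical
  rw [← Xge_eq hn hw hk, ← Xge_eq hn hw (by omega : 2 ≤ k + 1)]
  have h1 : Xge k w n = Xeq k w n + Xge (k + 1) w n := by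
    have h2 : Xeq k w n = ((Finset.Icc 1 n).filter (fun v => deg w n v = k)).card := by
      unfold Xeq
      rw [← Set.ncard_coe_finset]
      congr 1
      ext v
      simp [and_assoc]
    rw [h2, J2b_Xge, J2b_Xge, ← Finset.card_union_of_disjoint]
    · congr 1
      ext v
      simp only [Finset.mem_filter, Finset.mem_union, Finset.mem_Icc]
      constructor
      · rintro ⟨h3, h4⟩
        rcases Nat.eq_or_lt_of_le h4 with h5 | h5
        · exact Or.inl ⟨h3, h5.symm⟩
        · exact Or.inr ⟨h3, h5⟩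
      · rintro (⟨h3, h4⟩ | ⟨h3, h4⟩)
        · exact ⟨h3, h4.ge⟩
        · exact ⟨h3, by omega⟩
    · rw [Finset.disjoint_filter]
      intro v _ h3 h4
      omega
  rw [h1]
  push_cast
  ring

/-- degrees do not decrease -/
theorem Fk_st_mono {w : ℕ → ℕ} {n : ℕ} (hn : 2 ≤ n) (hw : Adm w (n + 1)) (k : ℕ) :
    Fk k (st w n) ≤ Fk k (st w (n + 1)) := by
  classical
  have key : ∀ k, 2 ≤ k → Fk k (st w n) ≤ Fk k (st w (n + 1)) := by
    intro k hk
    have hw' : Adm w n := fun j h1 h2 => hw j h1 (by omega)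
    rw [← Xge_eq hn hw' hk, ← Xge_eq (by omega) hw hk]
    rw [J2b_Xge, J2b_Xge]
    have h1 : ((Finset.Icc 1 n).filter (fun v => k ≤ deg w n v)) ⊆
        ((Finset.Icc 1 (n + 1)).filter (fun v => k ≤ deg w (n + 1) v)) := by
      intro v hv
      rw [Finset.mem_filter, Finset.mem_Icc] at hv ⊢
      refine ⟨⟨hv.1.1, by omega⟩, hv.2.trans ?_⟩
      rw [← J2b_card hn hw', ← J2b_card (by omega) hw]
      apply Finset.card_le_card
      intro u hu
      rw [J2b_mem hn hw'] at hu
      rw [J2b_mem (by omega) hw]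
      have hle : tree w n ≤ tree w (n + 1) := by
        intro a b hab
        unfold tree at hab ⊢
        rw [SimpleGraph.fromRel_adj] at hab ⊢
        refine ⟨hab.1, ?_⟩
        have hmono : ∀ a b, ((a = 1 ∧ b = 2) ∨ ∃ j, 2 ≤ j ∧ j < n ∧ a = w j ∧ b = j + 1) →
            ((a = 1 ∧ b = 2) ∨ ∃ j, 2 ≤ j ∧ j < n + 1 ∧ a = w j ∧ b = j + 1) := by
          rintro a b (h | ⟨j, h1, h2, h3⟩)
          · exact Or.inl h
          · exact Or.inr ⟨j, h1, by omega, h3⟩
        rcases hab.2 with h | h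
        · exact Or.inl (hmono _ _ h)
        · exact Or.inr (hmono _ _ h)
      exact hle hu
    exact_mod_cast Finset.card_le_card h1
  by_cases hk : 2 ≤ k
  · exact key k hk
  · have h2 : ∀ x : RT Unit × RT Unit, Fk k x = Fk 2 x := by
      intro x
      unfold Fk wsum
      rw [J2b_small (by omega) x.1, J2b_small (by omega) x.2]
    rw [h2, h2]
    exact key 2 le_rfl

end RFT
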