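import Pool.Agent.H13.RF.J1

/-! Module J2a: the graph and the pair of half-trees, step law. -/

namespace RFT

open Finset RT

/-- the unlabelled pair for the tree with `n ≥ 2` vertices -/
def st (w : ℕ → ℕ) (n : ℕ) : RT Unit × RT Unit := (fg (enc w (n - 2)).1, fg (enc w (n - 2)).2)

/-- admissible up to `n` -/
def Adm (w : ℕ → ℕ) (n : ℕ) : Prop := ∀ j, 2 ≤ j → j < n → 1 ≤ w j ∧ w j ≤ j

theorem J2a_size (B : RT ℕ) : B.size = Multiset.card (labs B) := by
  induction B with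
  | node a n K ih =>
    simp only [labs, size_node, Multiset.card_cons]
    rw [Multiset.card_sum, Finset.sum_congr rfl fun i _ => ih i]
    ring

theorem J2a_fg_size (B : RT ℕ) : (fg B).size = B.size := by
  induction B with
  | node a n K ih =>
    rw [J1c_fg_node, size_node, size_node, Finset.sum_congr rfl fun i _ => ih i]

theorem st_lev {w : ℕ → ℕ} {n : ℕ} (hn : 2 ≤ n) (hw : Adm w n) : kerT.lev (st w n) = n := by
  obtain ⟨m, rfl⟩ : ∃ m, n = m + 2 := ⟨n - 2, by omega⟩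
  have h1 := congrArg Multiset.card (labs_enc m hw)
  rw [Multiset.card_add, Finset.card_val, Nat.card_Icc] at h1
  show (st w (m + 2)).1.size + (st w (m + 2)).2.size = m + 2
  unfold st
  rw [J2a_fg_size, J2a_fg_size, J2a_size, J2a_size]
  have h2 : m + 2 - 2 = m := by omega
  rw [h2]
  omega

/-- the neighbours of a vertex of `{1, …, n}` are in `{1, …, n}` and there are finitely many -/
theorem tree_adj_le {w : ℕ → ℕ} {n : ℕ} (hn : 2 ≤ n) (hw : Adm w n) {v u : ℕ} (h : (tree w n).Adj v u) :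
    1 ≤ u ∧ u ≤ n :=
  (J1b_le hn hw h).2

theorem J2a_set {w : ℕ → ℕ} {n : ℕ} (hn : 2 ≤ n) (hw : Adm w n) (v : ℕ) :
    {u | (tree w n).Adj v u} ⊆ (Finset.Icc 1 n : Set ℕ) := by
  intro u hu
  rw [Finset.coe_Icc, Set.mem_Icc]
  exact tree_adj_le hn hw hu

open Classical in
/-- the neighbours as a finset -/
noncomputable def J2a_nb (w : ℕ → ℕ) (n v : ℕ) : Finset ℕ :=
  (Finset.Icc 1 n).filter fun u => (tree w n).Adj v u

theorem J2a_mem {w : ℕ → ℕ} {n : ℕ} (hn : 2 ≤ n) (hw : Adm w n) {v u : ℕ} :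
    u ∈ J2a_nb w n v ↔ (tree w n).Adj v u := by
  classical
  unfold J2a_nb
  rw [Finset.mem_filter, Finset.mem_Icc]
  exact ⟨fun h => h.2, fun h => ⟨tree_adj_le hn hw h, h⟩⟩

theorem J2a_deg {w : ℕ → ℕ} {n : ℕ} (hn : 2 ≤ n) (hw : Adm w n) (v : ℕ) :
    deg w n v = (J2a_nb w n v).card := by
  unfold deg
  rw [← Set.ncard_coe_finset]
  congr 1
  ext u
  rw [Finset.mem_coe, J2a_mem hn hw]
  rfl

theorem deg_pos {w : ℕ → ℕ} {n : ℕ} (hn : 2 ≤ n) (hw : Adm w n) {v : ℕ} (h1 : 1 ≤ v) (h2 : v ≤ n) :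
    0 < deg w n v := by
  rw [J2a_deg hn hw, Finset.card_pos]
  rcases Nat.lt_or_ge v 3 with h3 | h3
  · rcases Nat.lt_or_ge v 2 with h4 | h4
    · refine ⟨2, (J2a_mem hn hw).2 ?_⟩
      rw [J1b_adj]
      exact ⟨by omega, Or.inl (Or.inl ⟨by omega, rfl⟩)⟩
    · refine ⟨1, (J2a_mem hn hw).2 ?_⟩
      rw [J1b_adj]
      exact ⟨by omega, Or.inr (Or.inl ⟨rfl, by omega⟩)⟩
  · obtain ⟨j, rfl⟩ : ∃ j, v = j + 1 := ⟨v - 1, by omega⟩
    have hj := hw j (by omega) (by omega)
    refine ⟨w j, (J2a_mem hn hw).2 ?_⟩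
    rw [J1b_adj]
    exact ⟨by omega, Or.inr (Or.inr ⟨j, by omega, by omega, rfl, rfl⟩)⟩

theorem J2a_enc_congr {w w' : ℕ → ℕ} (m : ℕ) (h : ∀ j, 2 ≤ j → j < m + 2 → w j = w' j) :
    enc w m = enc w' m := by
  induction m with
  | zero => rfl
  | succ m ih =>
    simp only [enc]
    rw [ih fun j h1 h2 => h j h1 (by omega), h (m + 2) (by omega) (by omega)]

/-- the state at time `n` depends only on `w 2, …, w (n-1)` -/
theorem st_congr {w w' : ℕ → ℕ} {n : ℕ} (h : ∀ j, 2 ≤ j → j < n → w j = w' j) :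
    st w n = st w' n := by
  unfold st
  rw [J2a_enc_congr (n - 2) fun j h1 h2 => h j h1 (by omega)]

/-- the step of the chain: for `f` on pairs of half-trees -/
theorem step_law {w : ℕ → ℕ} {n : ℕ} (hn : 2 ≤ n) (hw : Adm w n) (f : RT Unit × RT Unit → ℝ) :
    ∑ v ∈ Icc 1 n, ∑ u ∈ Icc 1 n, ({p : ℕ × ℕ | 1 ≤ p.1 ∧ p.1 ≤ n ∧ (tree w n).Adj p.1 p.2}.indicator
          (fun p => 1 / (n : ℝ) * (1 / (deg w n p.1 : ℝ))) (v, u)) *
        f (st (Function.update w n u) (n + 1)) =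
      1 / (n : ℝ) * kerT.P f (st w n) := by
  classical
  obtain ⟨m, rfl⟩ : ∃ m, n = m + 2 := ⟨n - 2, by omega⟩
  set B := (enc w m).1 with hB
  set A := (enc w m).2 with hA
  set φ : ℕ → ℝ := fun u => f (st (Function.update w (m + 2) u) (m + 2 + 1)) with hφ
  have hnd : (labs B + labs A).Nodup := by
    rw [hB, hA, labs_enc m hw]
    exact (Finset.Icc 1 (m + 2)).nodup
  rw [Multiset.nodup_add] at hnd
  obtain ⟨n1, n2, n3⟩ := hnd
  -- the state after the step
  have hst : ∀ u, st (Function.update w (m + 2) u) (m + 2 + 1)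
      = (fg (ins u (m + 3) B), fg (ins u (m + 3) A)) := by
    intro u
    have e1 : m + 2 + 1 - 2 = m + 1 := by omega
    unfold st
    rw [e1]
    simp only [enc, Function.update_self]
    rw [J2a_enc_congr (w := Function.update w (m + 2) u) (w' := w) m fun j _ h2 =>
      Function.update_of_ne (by omega) _ _]
  have hB1 : nsum (fun _ s => 1 / (Multiset.card s : ℝ) * (s.map φ).sum) B 1
      = Q (fg B) (fun c => f (c, fg A)) + (fg B).upr * φ 1 := by
    refine nsum_Q B n1 (m + 3) (fun c => f (c, fg A)) φ ?_ 1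
    intro u hu
    show f (st (Function.update w (m + 2) u) (m + 2 + 1)) = _
    rw [hst, labs_ins_of_not_mem (Multiset.disjoint_left.1 n3 hu)]
  have hA1 : nsum (fun _ s => 1 / (Multiset.card s : ℝ) * (s.map φ).sum) A 2
      = Q (fg A) (fun c => f (fg B, c)) + (fg A).upr * φ 2 := by
    refine nsum_Q A n2 (m + 3) (fun c => f (fg B, c)) φ ?_ 2
    intro u hu
    show f (st (Function.update w (m + 2) u) (m + 2 + 1)) = _
    rw [hst, labs_ins_of_not_mem fun h => Multiset.disjoint_left.1 n3 h hu]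
  have hlab : B.lab = 2 ∧ A.lab = 1 := by
    rw [hB, hA]
    clear_value φ
    clear hB1 hA1 hst hφ n1 n2 n3 hB hA hw hn
    induction m with
    | zero => exact ⟨rfl, rfl⟩
    | succ m ih =>
      simp only [enc]
      rw [J1b_lab, J1b_lab]
      exact ih
  have h2B : 2 ∈ labs B := hlab.1 ▸ J1c_lab_mem B
  have h1A : 1 ∈ labs A := hlab.2 ▸ J1c_lab_mem A
  have hφ1 : φ 1 = f (fg B, add (fg A)) := by
    show f (st (Function.update w (m + 2) 1) (m + 2 + 1)) = _
    rw [hst, labs_ins_of_not_mem fun h => Multiset.disjoint_left.1 n3 h h1A]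
    have h3 := J1c_root_msg (m + 3) A
    rw [hlab.2] at h3
    rw [h3]
    cases hfa : fg A with
    | node a n K => rfl
  have hφ2 : φ 2 = f (msg (fg B), fg A) := by
    show f (st (Function.update w (m + 2) 2) (m + 2 + 1)) = _
    rw [hst, labs_ins_of_not_mem (Multiset.disjoint_left.1 n3 h2B)]
    have h3 := J1c_root_msg (m + 3) B
    rw [hlab.1] at h3
    rw [h3]
  have hsum := nsum_enc m hw (fun v => (J2a_nb w (m + 2) v).val)
    (fun v _ _ => ⟨(J2a_nb w (m + 2) v).nodup, fun u => J2a_mem hn hw⟩)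
    (fun _ s => 1 / (Multiset.card s : ℝ) * (s.map φ).sum)
  rw [← hB, ← hA, hB1, hA1, hφ1, hφ2] at hsum
  have hP : kerT.P f (st w (m + 2)) = Q (fg B) (fun c => f (c, fg A)) +
      Q (fg A) (fun c => f (fg B, c)) + (fg B).upr * f (fg B, add (fg A)) +
      (fg A).upr * f (msg (fg B), fg A) := by
    have e2 : st w (m + 2) = (fg B, fg A) := by
      unfold st
      have e1 : m + 2 - 2 = m := by omega
      rw [e1]
    rw [e2]
    rfl
  rw [hP]
  have hsum2 : ∑ v ∈ Icc 1 (m + 2), ∑ u ∈ Icc 1 (m + 2),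
      ({p : ℕ × ℕ | 1 ≤ p.1 ∧ p.1 ≤ m + 2 ∧ (tree w (m + 2)).Adj p.1 p.2}.indicator
          (fun p => 1 / ((m + 2 : ℕ) : ℝ) * (1 / (deg w (m + 2) p.1 : ℝ))) (v, u)) *
        f (st (Function.update w (m + 2) u) (m + 2 + 1))
      = 1 / ((m + 2 : ℕ) : ℝ) * ∑ v ∈ Icc 1 (m + 2),
        1 / (Multiset.card (J2a_nb w (m + 2) v).val : ℝ) *
          ((J2a_nb w (m + 2) v).val.map φ).sum := by
    rw [Finset.mul_sum]
    refine Finset.sum_congr rfl fun v hv => ?_
    rw [Finset.mem_Icc] at hv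
    have e3 : ((J2a_nb w (m + 2) v).val.map φ).sum = ∑ u ∈ J2a_nb w (m + 2) v, φ u := rfl
    rw [e3, Finset.card_val, ← J2a_deg hn hw v]
    unfold J2a_nb
    rw [Finset.sum_filter, Finset.mul_sum, Finset.mul_sum]
    refine Finset.sum_congr rfl fun u _ => ?_
    by_cases hvu : (tree w (m + 2)).Adj v u
    · rw [if_pos hvu, Set.indicator_of_mem]
      · ring
      · exact ⟨hv.1, hv.2, hvu⟩
    · rw [if_neg hvu, Set.indicator_of_notMem]
      · ring
      · exact fun h => hvu h.2.2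
  rw [hsum2, ← hsum]
  ring

end RFT
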