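import Pool.Agent.H13.RF.J2
import Pool.Agent.H13.RF.I2

/-! Module J3: the friend tree is a chain. -/

namespace RFT

open Finset RT MeasureTheory

variable {Ω : Type*} [MeasurableSpace Ω] {P : Measure Ω} {V W : ℕ → Ω → ℕ}

/-- the sequence of a history -/
def J3w (n : ℕ) (g : Fin (n - 2) → ℕ) (j : ℕ) : ℕ :=
  if h : 2 ≤ j ∧ j < n then g ⟨j - 2, by omega⟩ else 1

theorem J3w_of {n : ℕ} (g : Fin (n - 2) → ℕ) {j : ℕ} (h1 : 2 ≤ j) (h2 : j < n) :
    J3w n g j = g ⟨j - 2, by omega⟩ := by
  unfold J3w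
  rw [dif_pos ⟨h1, h2⟩]

theorem J3_hist_iff {n : ℕ} (g : Fin (n - 2) → ℕ) (w : ℕ → ℕ) :
    (∀ j, 2 ≤ j → j < n → w j = J3w n g j) ↔ (fun i : Fin (n - 2) => w (i + 2)) = g := by
  constructor
  · intro h
    funext i
    have h1 : (i : ℕ) + 2 < n := by have := i.2; omega
    rw [h _ (by omega) h1, J3w_of g (by omega) h1]
    congr 1
  · intro h j h1 h2
    rw [J3w_of g h1 h2, ← h]
    show w j = w (j - 2 + 2)
    congr 1
    omega

/-- a non-adjacent choice has probability zero -/
theorem J3_zero [IsProbabilityMeasure P] (h : IsFriendTree P V W) {n : ℕ} (hn : 2 ≤ n)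
    (w : ℕ → ℕ) (v u : ℕ) (hvu : ¬ (1 ≤ v ∧ v ≤ n ∧ (tree w n).Adj v u)) :
    P {ω | (∀ j, 2 ≤ j → j < n → W j ω = w j) ∧ V n ω = v ∧ W n ω = u} = 0 := by
  have h1 := h.law n hn w v u
  rw [Set.indicator_of_notMem (by simpa using hvu), mul_zero] at h1
  exact (measureReal_eq_zero_iff).1 h1

/-- almost surely the sequence is admissible -/
theorem IsFriendTree.adm [IsProbabilityMeasure P] (h : IsFriendTree P V W) :
    ∀ᵐ ω ∂P, ∀ n, Adm (fun j => W j ω) n := by
  rw [ae_all_iff]
  intro n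
  induction n with
  | zero => exact Filter.Eventually.of_forall fun ω j _ h2 => by omega
  | succ n ih =>
    by_cases hn : 2 ≤ n
    · have h1 : ∀ᵐ ω ∂P, ∀ (g : Fin (n - 2) → ℕ) (v u : ℕ), Adm (J3w n g) n →
          ¬ (1 ≤ u ∧ u ≤ n) →
          ¬ ((∀ j, 2 ≤ j → j < n → W j ω = J3w n g j) ∧ V n ω = v ∧ W n ω = u) := by
        rw [ae_all_iff]; intro g
        rw [ae_all_iff]; intro v
        rw [ae_all_iff]; intro u
        by_cases hA : Adm (J3w n g) n
        · by_cases hu : 1 ≤ u ∧ u ≤ n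
          · exact Filter.Eventually.of_forall fun ω _ h3 => absurd hu h3
          · have h2 : ¬ (1 ≤ v ∧ v ≤ n ∧ (tree (J3w n g) n).Adj v u) := fun h3 =>
              hu (tree_adj_le hn hA h3.2.2)
            have h4 := J3_zero h hn (J3w n g) v u h2
            rw [measure_eq_zero_iff_ae_notMem] at h4
            filter_upwards [h4] with ω h5 _ _
            exact h5
        · exact Filter.Eventually.of_forall fun ω h3 => absurd h3 hA
      filter_upwards [ih, h1] with ω h2 h3
      intro j hj1 hj2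
      rcases Nat.lt_succ_iff_lt_or_eq.1 hj2 with h4 | h4
      · exact h2 j hj1 h4
      · subst h4
        by_contra h5
        have h6 : ∀ i, 2 ≤ i → i < j → W i ω =
            J3w j (fun i : Fin (j - 2) => W (i + 2) ω) i :=
          (J3_hist_iff _ (fun i => W i ω)).2 rfl
        refine h3 (fun i : Fin (j - 2) => W (i + 2) ω) (V j ω) (W j ω) ?_ h5 ⟨h6, rfl, rfl⟩
        intro i hi1 hi2
        rw [← h6 i hi1 hi2]
        exact h2 i hi1 hi2
    · exact Filter.Eventually.of_forall fun ω j h1 h2 => by omega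

/-- a modification of `W` which is admissible everywhere and equal to `W` almost surely -/
noncomputable def Wm (W : ℕ → Ω → ℕ) (j : ℕ) (ω : Ω) : ℕ := max 1 (min (W j ω) j)

theorem Wm_adm (W : ℕ → Ω → ℕ) (ω : Ω) (n : ℕ) : Adm (fun j => Wm W j ω) n := by
  intro j h1 _
  show 1 ≤ max 1 (min (W j ω) j) ∧ max 1 (min (W j ω) j) ≤ j
  omega

theorem Wm_ae [IsProbabilityMeasure P] (h : IsFriendTree P V W) :
    ∀ᵐ ω ∂P, ∀ j, 2 ≤ j → Wm W j ω = W j ω := by
  filter_upwards [h.adm] with ω h1 j hj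
  have h2 := h1 (j + 1) j hj (by omega)
  simp only at h2
  unfold Wm
  omega

theorem J3_Wm_le (W : ℕ → Ω → ℕ) {n j : ℕ} (hn : 1 ≤ n) (hj : j ≤ n) (ω : Ω) :
    Wm W j ω < n + 1 := by
  unfold Wm
  omega

theorem J3_Wm_meas (h : IsFriendTree P V W) (j : ℕ) : Measurable (Wm W j) := by
  have h1 : Wm W j = (fun a : ℕ => max 1 (min a j)) ∘ W j := rfl
  rw [h1]
  exact (measurable_of_countable _).comp (h.measW j)

/-- the history as an element of a finite type -/
noncomputable def J3H (W : ℕ → Ω → ℕ) (n : ℕ) (ω : Ω) : Fin (n - 2) → Fin (n + 1) :=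
  fun i => ⟨Wm W (i + 2) ω, J3_Wm_le W (by have := i.2; omega) (by have := i.2; omega) ω⟩

/-- the sequence of a finite history -/
def J3g (n : ℕ) (g : Fin (n - 2) → Fin (n + 1)) : ℕ → ℕ := J3w n (fun i => (g i : ℕ))

theorem J3_H_iff (n : ℕ) (g : Fin (n - 2) → Fin (n + 1)) (ω : Ω) :
    J3H W n ω = g ↔ ∀ j, 2 ≤ j → j < n → Wm W j ω = J3g n g j := by
  unfold J3g
  rw [J3_hist_iff (fun i => (g i : ℕ)) (fun j => Wm W j ω)]
  constructor
  · intro h
    funext i
    rw [← h]
    rfl
  · intro h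
    funext i
    apply Fin.ext
    exact congrFun h i

theorem J3_H_self (n : ℕ) (ω : Ω) : ∀ j, 2 ≤ j → j < n →
    Wm W j ω = J3g n (J3H W n ω) j := (J3_H_iff n _ ω).1 rfl

theorem J3_meas_H (h : IsFriendTree P V W) (n : ℕ) (g : Fin (n - 2) → Fin (n + 1)) :
    MeasurableSet {ω | J3H W n ω = g} := by
  have h1 : {ω | J3H W n ω = g} = ⋂ i : Fin (n - 2), {ω | Wm W (i + 2) ω = (g i : ℕ)} := by
    ext ω
    simp only [Set.mem_setOf_eq, Set.mem_iInter]
    constructor
    · intro h i
      rw [← h]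
      rfl
    · intro h
      funext i
      exact Fin.ext (h i)
  rw [h1]
  exact MeasurableSet.iInter fun i => J3_Wm_meas h _ (measurableSet_singleton _)

/-- expectation of a function of a random variable with values in a finite type -/
theorem J3_int [IsProbabilityMeasure P] {ι : Type} [Fintype ι] [DecidableEq ι] (Y : Ω → ι)
    (hY : ∀ y, MeasurableSet {ω | Y ω = y}) (f : ι → ℝ) :
    ∫ ω, f (Y ω) ∂P = ∑ y, P.real {ω | Y ω = y} * f y := by
  have h1 : (fun ω => f (Y ω)) = fun ω => ∑ y, {ω | Y ω = y}.indicator (fun _ => f y) ω := by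
    funext ω
    rw [Finset.sum_eq_single (Y ω)]
    · rw [Set.indicator_of_mem (by rfl)]
    · intro y _ hy
      rw [Set.indicator_of_notMem]
      intro h2
      exact hy h2.symm
    · intro h2
      exact absurd (mem_univ _) h2
  rw [h1, integral_finset_sum]
  · refine Finset.sum_congr rfl fun y _ => ?_
    rw [integral_indicator_const _ (hY y), smul_eq_mul]
  · intro y _
    exact (integrable_const (f y)).indicator (hY y)

/-- the joint law of the history and the next choice -/
theorem J3_law [IsProbabilityMeasure P] (h : IsFriendTree P V W) {n : ℕ} (hn : 2 ≤ n)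
    (g : Fin (n - 2) → Fin (n + 1)) (u : ℕ) :
    P.real {ω | J3H W n ω = g ∧ Wm W n ω = u} = P.real {ω | J3H W n ω = g} *
      ∑ v ∈ Icc 1 n, ({p : ℕ × ℕ | 1 ≤ p.1 ∧ p.1 ≤ n ∧ (tree (J3g n g) n).Adj p.1 p.2}.indicator
          (fun p => 1 / (n : ℝ) * (1 / (deg (J3g n g) n p.1 : ℝ))) (v, u)) := by
  have h1 : P.real {ω | J3H W n ω = g} =
      P.real {ω | ∀ j, 2 ≤ j → j < n → W j ω = J3g n g j} := by
    apply measureReal_congr
    filter_upwards [Wm_ae h] with ω hω
    apply propext
    show J3H W n ω = g ↔ ∀ j, 2 ≤ j → j < n → W j ω = J3g n g j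
    rw [J3_H_iff]
    constructor
    · intro h2 j hj1 hj2
      rw [← hω j hj1]
      exact h2 j hj1 hj2
    · intro h2 j hj1 hj2
      rw [hω j hj1]
      exact h2 j hj1 hj2
  have h2 : P.real {ω | J3H W n ω = g ∧ Wm W n ω = u} =
      P.real (⋃ v ∈ Icc 1 n, {ω | (∀ j, 2 ≤ j → j < n → W j ω = J3g n g j) ∧
        V n ω = v ∧ W n ω = u}) := by
    have h3 : ∀ᵐ ω ∂P, ∀ v, ¬ (1 ≤ v ∧ v ≤ n) →
        ¬ ((∀ j, 2 ≤ j → j < n → W j ω = J3g n g j) ∧ V n ω = v ∧ W n ω = u) := by
      rw [ae_all_iff]; intro v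
      by_cases hv : 1 ≤ v ∧ v ≤ n
      · exact Filter.Eventually.of_forall fun ω h3 => absurd hv h3
      · have h4 := J3_zero h hn (J3g n g) v u (fun h5 => hv ⟨h5.1, h5.2.1⟩)
        rw [measure_eq_zero_iff_ae_notMem] at h4
        filter_upwards [h4] with ω h5 _
        exact h5
    apply measureReal_congr
    filter_upwards [Wm_ae h, h3] with ω hω hω3
    apply propext
    show (J3H W n ω = g ∧ Wm W n ω = u) ↔ ω ∈ (⋃ v ∈ Icc 1 n,
      {ω | (∀ j, 2 ≤ j → j < n → W j ω = J3g n g j) ∧ V n ω = v ∧ W n ω = u})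
    simp only [Set.mem_iUnion, Finset.mem_Icc, Set.mem_setOf_eq, exists_prop]
    rw [J3_H_iff, hω n hn]
    constructor
    · rintro ⟨h4, h5⟩
      have h6 : ∀ j, 2 ≤ j → j < n → W j ω = J3g n g j := fun j hj1 hj2 => by
        rw [← hω j hj1]
        exact h4 j hj1 hj2
      refine ⟨V n ω, ?_, h6, rfl, h5⟩
      by_contra h7
      exact hω3 (V n ω) h7 ⟨h6, rfl, h5⟩
    · rintro ⟨v, _, h4, _, h5⟩
      exact ⟨fun j hj1 hj2 => by rw [hω j hj1]; exact h4 j hj1 hj2, h5⟩
  rw [h2, measureReal_biUnion_finset]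
  · rw [h1, Finset.mul_sum]
    refine Finset.sum_congr rfl fun v _ => ?_
    exact h.law n hn (J3g n g) v u
  · intro v _ v' _ hne
    rw [Function.onFun, Set.disjoint_left]
    rintro ω ⟨_, h3, _⟩ ⟨_, h4, _⟩
    exact hne (h3.symm.trans h4)
  · intro v _
    have h3 : {ω | (∀ j, 2 ≤ j → j < n → W j ω = J3g n g j) ∧ V n ω = v ∧ W n ω = u} =
        (⋂ j : ℕ, {ω | 2 ≤ j → j < n → W j ω = J3g n g j}) ∩ ((V n) ⁻¹' {v} ∩ (W n) ⁻¹' {u}) := by
      ext ω
      simp only [Set.mem_setOf_eq, Set.mem_inter_iff, Set.mem_iInter, Set.mem_preimage,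
        Set.mem_singleton_iff]
    rw [h3]
    refine MeasurableSet.inter (MeasurableSet.iInter fun j => ?_)
      ((h.measV n (measurableSet_singleton _)).inter (h.measW n (measurableSet_singleton _)))
    by_cases hj : 2 ≤ j ∧ j < n
    · have h4 : {ω | 2 ≤ j → j < n → W j ω = J3g n g j} = (W j) ⁻¹' {J3g n g j} := by
        ext ω
        simp [hj.1, hj.2]
      rw [h4]
      exact h.measW j (measurableSet_singleton _)
    · have h4 : {ω | 2 ≤ j → j < n → W j ω = J3g n g j} = Set.univ := by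
        ext ω
        simp only [Set.mem_setOf_eq, Set.mem_univ, iff_true]
        intro h5 h6
        exact absurd ⟨h5, h6⟩ hj
      rw [h4]
      exact MeasurableSet.univ

theorem J3_st (n : ℕ) {j : ℕ} (hj : j ≤ n) (ω : Ω) :
    st (fun j => Wm W j ω) j = st (J3g n (J3H W n ω)) j :=
  st_congr fun i h1 h2 => J3_H_self n ω i h1 (by omega)

/-- The Markov property: sum over the finitely many histories `(w_2, …, w_{n-1})`, use `law` summed over `v` and
`step_law`. -/
theorem chain_of [IsProbabilityMeasure P] (h : IsFriendTree P V W) :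
    Chain kerT P 2 (fun n ω => st (fun j => Wm W j ω) n) where
  fin n := by
    refine (Set.finite_range (fun g : Fin (n - 2) → Fin (n + 1) => st (J3g n g) n)).subset ?_
    rintro _ ⟨ω, rfl⟩
    exact ⟨J3H W n ω, (J3_st n le_rfl ω).symm⟩
  meas n s := by
    have h1 : (fun ω => st (fun j => Wm W j ω) n) ⁻¹' {s} =
        ⋃ g : Fin (n - 2) → Fin (n + 1), {ω | J3H W n ω = g ∧ st (J3g n g) n = s} := by
      ext ω
      simp only [Set.mem_preimage, Set.mem_singleton_iff, Set.mem_iUnion, Set.mem_setOf_eq]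
      rw [J3_st n le_rfl ω]
      constructor
      · intro h2
        exact ⟨_, rfl, h2⟩
      · rintro ⟨g, h2, h3⟩
        rw [h2, h3]
    rw [h1]
    refine MeasurableSet.iUnion fun g => ?_
    by_cases h2 : st (J3g n g) n = s
    · simp only [h2, and_true]
      exact J3_meas_H h n g
    · simp only [h2, and_false, Set.setOf_false]
      exact MeasurableSet.empty
  lev n hn ω := st_lev hn (Wm_adm W ω n)
  markov j n hj hjn G := by
    classical
    have hn : 2 ≤ n := hj.trans hjn
    have hadm : ∀ ω, Adm (J3g n (J3H W n ω)) n := fun ω i h1 h2 => by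
      rw [← J3_H_self n ω i h1 h2]
      exact Wm_adm W ω n i h1 h2
    -- left hand side
    have hL : ∫ ω, G (st (fun j => Wm W j ω) j) (st (fun j => Wm W j ω) (n + 1)) ∂P =
        ∑ y : (Fin (n - 2) → Fin (n + 1)) × Fin (n + 1),
          P.real {ω | J3H W n ω = y.1 ∧ Wm W n ω = (y.2 : ℕ)} *
          G (st (J3g n y.1) j) (st (Function.update (J3g n y.1) n (y.2 : ℕ)) (n + 1)) := by
      have h1 := J3_int (P := P) (ι := (Fin (n - 2) → Fin (n + 1)) × Fin (n + 1))
        (fun ω => (J3H W n ω, (⟨Wm W n ω, J3_Wm_le W (by omega) le_rfl ω⟩ : Fin (n + 1))))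
        (fun y => by
          have h2 : {ω | (J3H W n ω, (⟨Wm W n ω, J3_Wm_le W (by omega) le_rfl ω⟩ :
              Fin (n + 1))) = y} = {ω | J3H W n ω = y.1} ∩ (Wm W n) ⁻¹' {(y.2 : ℕ)} := by
            ext ω
            simp only [Set.mem_setOf_eq, Set.mem_inter_iff, Set.mem_preimage,
              Set.mem_singleton_iff]
            rw [Prod.ext_iff, Fin.ext_iff]
          rw [h2]
          exact (J3_meas_H h n y.1).inter (J3_Wm_meas h n (measurableSet_singleton _)))
        (fun y => G (st (J3g n y.1) j) (st (Function.update (J3g n y.1) n (y.2 : ℕ)) (n + 1)))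
      have h2 : (fun ω => G (st (fun j => Wm W j ω) j) (st (fun j => Wm W j ω) (n + 1))) =
          fun ω => G (st (J3g n (J3H W n ω)) j)
            (st (Function.update (J3g n (J3H W n ω)) n (Wm W n ω)) (n + 1)) := by
        funext ω
        rw [J3_st n hjn ω]
        congr 1
        apply st_congr
        intro i hi1 hi2
        by_cases hi : i = n
        · subst hi
          rw [Function.update_self]
        · rw [Function.update_of_ne hi]
          exact J3_H_self n ω i hi1 (by omega)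
      rw [h2]
      refine h1.trans (Finset.sum_congr rfl fun y _ => ?_)
      congr 2
      ext ω
      simp only [Set.mem_setOf_eq]
      rw [Prod.ext_iff, Fin.ext_iff]
    have hR : ∫ ω, 1 / (n : ℝ) * kerT.P (G (st (fun j => Wm W j ω) j))
        (st (fun j => Wm W j ω) n) ∂P =
        ∑ g : Fin (n - 2) → Fin (n + 1), P.real {ω | J3H W n ω = g} *
          (1 / (n : ℝ) * kerT.P (G (st (J3g n g) j)) (st (J3g n g) n)) := by
      have h1 := J3_int (P := P) (J3H W n) (J3_meas_H h n)
        (fun g => 1 / (n : ℝ) * kerT.P (G (st (J3g n g) j)) (st (J3g n g) n))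
      rw [← h1]
      congr 1
      funext ω
      rw [J3_st n hjn ω, J3_st n le_rfl ω]
    show ∫ ω, G (st (fun j => Wm W j ω) j) (st (fun j => Wm W j ω) (n + 1)) ∂P =
      ∫ ω, 1 / (n : ℝ) * kerT.P (G (st (fun j => Wm W j ω) j)) (st (fun j => Wm W j ω) n) ∂P
    rw [hL, hR, Fintype.sum_prod_type]
    refine Finset.sum_congr rfl fun g _ => ?_
    by_cases hg : Adm (J3g n g) n
    · rw [← step_law hn hg (G (st (J3g n g) j))]
      rw [Finset.sum_comm, Finset.mul_sum]
      have h3 : ∀ u : ℕ, P.real {ω | J3H W n ω = g ∧ Wm W n ω = u} *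
          G (st (J3g n g) j) (st (Function.update (J3g n g) n u) (n + 1)) =
          P.real {ω | J3H W n ω = g} * ∑ v ∈ Icc 1 n,
          ({p : ℕ × ℕ | 1 ≤ p.1 ∧ p.1 ≤ n ∧ (tree (J3g n g) n).Adj p.1 p.2}.indicator
          (fun p => 1 / (n : ℝ) * (1 / (deg (J3g n g) n p.1 : ℝ))) (v, u)) *
          G (st (J3g n g) j) (st (Function.update (J3g n g) n u) (n + 1)) := by
        intro u
        rw [J3_law h hn g u, mul_assoc, Finset.sum_mul]
      have h4 : ∑ u : Fin (n + 1), P.real {ω | J3H W n ω = g ∧ Wm W n ω = (u : ℕ)} *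
          G (st (J3g n g) j) (st (Function.update (J3g n g) n (u : ℕ)) (n + 1)) =
          ∑ u ∈ Finset.range (n + 1), P.real {ω | J3H W n ω = g ∧ Wm W n ω = u} *
          G (st (J3g n g) j) (st (Function.update (J3g n g) n u) (n + 1)) :=
        Fin.sum_univ_eq_sum_range (fun u => P.real {ω | J3H W n ω = g ∧ Wm W n ω = u} *
          G (st (J3g n g) j) (st (Function.update (J3g n g) n u) (n + 1))) (n + 1)
      rw [h4, Finset.sum_range_succ']
      have h5 : P.real {ω | J3H W n ω = g ∧ Wm W n ω = 0} = 0 := by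
        have h6 : {ω | J3H W n ω = g ∧ Wm W n ω = 0} = ∅ := by
          ext ω
          simp only [Set.mem_setOf_eq, Set.mem_empty_iff_false, iff_false, not_and]
          intro _
          unfold Wm
          omega
        rw [h6]
        simp
      rw [h5, zero_mul, add_zero]
      rw [Finset.sum_congr rfl fun u _ => h3 (u + 1)]
      have h7 := Finset.sum_Ico_eq_sum_range (fun u => P.real {ω | J3H W n ω = g} *
          ∑ v ∈ Icc 1 n,
          ({p : ℕ × ℕ | 1 ≤ p.1 ∧ p.1 ≤ n ∧ (tree (J3g n g) n).Adj p.1 p.2}.indicator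
          (fun p => 1 / (n : ℝ) * (1 / (deg (J3g n g) n p.1 : ℝ))) (v, u)) *
          G (st (J3g n g) j) (st (Function.update (J3g n g) n u) (n + 1))) 1 (n + 1)
      have h8 : Finset.Ico 1 (n + 1) = Icc 1 n := by
        ext i
        simp only [Finset.mem_Ico, Finset.mem_Icc]
        omega
      rw [h8] at h7
      rw [h7]
      refine Finset.sum_congr rfl fun u _ => ?_
      rw [add_comm 1 u]
    · have h3 : P.real {ω | J3H W n ω = g} = 0 := by
        have h4 : {ω | J3H W n ω = g} = ∅ := by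
          ext ω
          simp only [Set.mem_setOf_eq, Set.mem_empty_iff_false, iff_false]
          intro h5
          apply hg
          rw [← h5]
          exact hadm ω
        rw [h4]
        simp
      rw [h3, zero_mul]
      refine Finset.sum_eq_zero fun u _ => ?_
      have h4 : P.real {ω | J3H W n ω = g ∧ Wm W n ω = (u : ℕ)} = 0 := by
        refine le_antisymm ?_ measureReal_nonneg
        rw [← h3]
        exact measureReal_mono (fun ω hω => hω.1)
      rw [h4, zero_mul]

end RFT
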