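import Pool.Agent.H13.RF.J3
import Pool.Agent.H13.RF.I7

/-! Module J4: the final theorem. -/

namespace RFT

open MeasureTheory Filter Topology

/-- **Main theorem.**  There are `μ ∈ [2/5, 19/25]` and `p_k` with `p_k = Θ(k^(-(1+μ)))` such that for the random friend tree
almost surely `log X_n^{≥2} / log n → μ`, and `X_n^k / X_n^{≥2} → p_k` for every `k ≥ 2`. -/
theorem main.{u} : ∃ (μ : ℝ) (p : ℕ → ℝ) (c C : ℝ), 2 / 5 ≤ μ ∧ μ ≤ 19 / 25 ∧ 0 < c ∧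
    (∀ k : ℕ, 2 ≤ k → c * (k : ℝ) ^ (-(1 + μ)) ≤ p k ∧ p k ≤ C * (k : ℝ) ^ (-(1 + μ))) ∧
    ∀ (Ω : Type u) [MeasurableSpace Ω] (P : Measure Ω) [IsProbabilityMeasure P]
      (V W : ℕ → Ω → ℕ), IsFriendTree P V W →
      (∀ᵐ ω ∂P, Tendsto (fun n : ℕ => Real.log (Xge 2 (fun j => W j ω) n) / Real.log n)
        atTop (𝓝 μ)) ∧
      ∀ k : ℕ, 2 ≤ k → ∀ᵐ ω ∂P, Tendsto (fun n : ℕ =>
        (Xeq k (fun j => W j ω) n : ℝ) / (Xge 2 (fun j => W j ω) n : ℝ)) atTop (𝓝 (p k)) := by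
  obtain ⟨μ, h0, h1, p, ⟨c, C, hc, hp⟩, hmain⟩ := chain_main.{u}
  refine ⟨μ, p, c, C, h0, h1, hc, hp, ?_⟩
  intro Ω _ P _ V W h
  obtain ⟨hA, hB⟩ := hmain Ω P (fun n ω => st (fun j => Wm W j ω) n) (chain_of h)
    (fun ω n hn k => Fk_st_mono hn (Wm_adm W ω (n + 1)) k)
  have hst : ∀ᵐ ω ∂P, ∀ n, st (fun j => Wm W j ω) n = st (fun j => W j ω) n := by
    filter_upwards [Wm_ae h] with ω hω n
    exact st_congr fun j hj _ => hω j hj
  constructor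
  · filter_upwards [hA, hst, h.adm] with ω h2 h3 h4
    refine h2.congr' ?_
    filter_upwards [eventually_ge_atTop 2] with n hn
    rw [h3 n, Xge_eq hn (h4 n) le_rfl, Fk_two]
  · intro k hk
    filter_upwards [hB k hk, hst, h.adm] with ω h2 h3 h4
    refine h2.congr' ?_
    filter_upwards [eventually_ge_atTop 2] with n hn
    rw [h3 n, Xge_eq hn (h4 n) le_rfl, Xeq_eq hn (h4 n) hk, Fk_two]

end RFT
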