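import Pool.Agent.H13.RF.J2a

/-! Module J5: the random friend tree exists (so that the main theorem is not about the empty class). -/

namespace RFT

open Finset RT MeasureTheory ProbabilityTheory Preorder

/-- clamp to `[1, n]` -/
def J5_cl (n m : ℕ) : ℕ := max 1 (min m n)

theorem J5_cl_mem {n : ℕ} (hn : 1 ≤ n) (m : ℕ) : 1 ≤ J5_cl n m ∧ J5_cl n m ≤ n := by
  unfold J5_cl; omega

theorem J5_cl_eq {n m : ℕ} (h1 : 1 ≤ m) (h2 : m ≤ n) : J5_cl n m = m := by
  unfold J5_cl; omega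

/-- the history as a sequence -/
def J5_w {a : ℕ} (h : (i : Iic a) → ℕ × ℕ) (j : ℕ) : ℕ :=
  if hj : j ≤ a then J5_cl j (h ⟨j, by simpa using hj⟩).2 else 1

theorem J5_adm {a : ℕ} (h : (i : Iic a) → ℕ × ℕ) (n : ℕ) : Adm (J5_w h) n := by
  intro j hj _
  unfold J5_w
  split
  · exact J5_cl_mem (by omega) _
  · exact ⟨le_rfl, by omega⟩

/-- the weight of a pair -/
noncomputable def J5_q (w : ℕ → ℕ) (n : ℕ) (p : ℕ × ℕ) : ℝ :=
  {p : ℕ × ℕ | 1 ≤ p.1 ∧ p.1 ≤ n ∧ (tree w n).Adj p.1 p.2}.indicator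
    (fun p => 1 / (n : ℝ) * (1 / (deg w n p.1 : ℝ))) p

theorem J5_q_nonneg (w : ℕ → ℕ) (n : ℕ) (p : ℕ × ℕ) : 0 ≤ J5_q w n p := by
  unfold J5_q
  apply Set.indicator_nonneg
  intro x _
  positivity

theorem J5_tree_congr {w w' : ℕ → ℕ} {n : ℕ} (h : ∀ j, 2 ≤ j → j < n → w j = w' j) :
    tree w n = tree w' n := by
  unfold tree
  congr 1
  funext a b
  apply propext
  constructor
  · rintro (h1 | ⟨j, h2, h3, h4, h5⟩)
    · exact Or.inl h1
    · exact Or.inr ⟨j, h2, h3, by rw [h4, h j h2 h3], h5⟩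
  · rintro (h1 | ⟨j, h2, h3, h4, h5⟩)
    · exact Or.inl h1
    · exact Or.inr ⟨j, h2, h3, by rw [h4, h j h2 h3], h5⟩

theorem J5_q_congr {w w' : ℕ → ℕ} {n : ℕ} (h : ∀ j, 2 ≤ j → j < n → w j = w' j) (p : ℕ × ℕ) :
    J5_q w n p = J5_q w' n p := by
  unfold J5_q deg
  rw [J5_tree_congr h]

/-- total mass one -/
theorem J5_sum {w : ℕ → ℕ} {n : ℕ} (hn : 2 ≤ n) (hw : Adm w n) :
    ∑ v ∈ Icc 1 n, ∑ u ∈ Icc 1 n, J5_q w n (v, u) = 1 := by
  have h := step_law hn hw (fun _ => 1)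
  have h1 : kerT.P (fun _ => 1) (st w n) = n := by
    have h2 := Env.ker_one Env.rt Unit (st w n)
    have h3 : kerT.P (fun _ => 1) (st w n) = kerT.lev (st w n) := h2
    rw [h3, st_lev hn hw]
  rw [h1] at h
  simp only [mul_one] at h
  have hn0 : (n : ℝ) ≠ 0 := by
    have : n ≠ 0 := by omega
    exact_mod_cast this
  have h5 : 1 / (n : ℝ) * (n : ℝ) = 1 := by field_simp
  rw [h5] at h
  exact h

/-- law of `(V_n, W_n)` given the history -/
noncomputable def J5_M (w : ℕ → ℕ) (n : ℕ) : Measure (ℕ × ℕ) :=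
  if 2 ≤ n then ∑ v ∈ Icc 1 n, ∑ u ∈ Icc 1 n,
    ENNReal.ofReal (J5_q w n (v, u)) • Measure.dirac (v, u) else Measure.dirac (1, 1)

theorem J5_M_apply {w : ℕ → ℕ} {n : ℕ} (hn : 2 ≤ n) (B : Set (ℕ × ℕ)) :
    J5_M w n B = ∑ v ∈ Icc 1 n, ∑ u ∈ Icc 1 n,
      ENNReal.ofReal (J5_q w n (v, u)) * B.indicator 1 (v, u) := by
  unfold J5_M
  rw [if_pos hn, Measure.finsetSum_apply]
  apply Finset.sum_congr rfl
  intro v _
  rw [Measure.finsetSum_apply]
  apply Finset.sum_congr rfl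
  intro u _
  rw [Measure.smul_apply, smul_eq_mul, Measure.dirac_apply' _ (Set.to_countable B).measurableSet]

theorem J5_M_prob {w : ℕ → ℕ} {n : ℕ} (hw : Adm w n) : IsProbabilityMeasure (J5_M w n) := by
  by_cases hn : 2 ≤ n
  · constructor
    rw [J5_M_apply hn]
    simp only [Set.indicator_univ, Pi.one_apply, mul_one]
    have h := J5_sum hn hw
    have h2 : ∀ v ∈ Icc 1 n, ∑ u ∈ Icc 1 n, ENNReal.ofReal (J5_q w n (v, u)) =
        ENNReal.ofReal (∑ u ∈ Icc 1 n, J5_q w n (v, u)) := by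
      intro v _
      rw [ENNReal.ofReal_sum_of_nonneg (fun u _ => J5_q_nonneg _ _ _)]
    rw [Finset.sum_congr rfl h2, ← ENNReal.ofReal_sum_of_nonneg
      (fun v _ => Finset.sum_nonneg (fun u _ => J5_q_nonneg _ _ _)), h, ENNReal.ofReal_one]
  · unfold J5_M
    rw [if_neg hn]
    infer_instance

theorem J5_M_pair {w : ℕ → ℕ} {n : ℕ} (hn : 2 ≤ n) (hw : Adm w n) (v u : ℕ) :
    J5_M w n {p : ℕ × ℕ | p.1 = v ∧ J5_cl n p.2 = u} = ENNReal.ofReal (J5_q w n (v, u)) := by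
  rw [J5_M_apply hn]
  have hq : ∀ v u, ¬ (v ∈ Icc 1 n ∧ u ∈ Icc 1 n) → J5_q w n (v, u) = 0 := by
    intro v u h
    unfold J5_q
    apply Set.indicator_of_notMem
    rintro ⟨h1, h2, h3⟩
    apply h
    rw [mem_Icc, mem_Icc]
    exact ⟨⟨h1, h2⟩, tree_adj_le hn hw h3⟩
  by_cases hv : v ∈ Icc 1 n
  · by_cases hu : u ∈ Icc 1 n
    · rw [Finset.sum_eq_single_of_mem v hv, Finset.sum_eq_single_of_mem u hu]
      · rw [Set.indicator_of_mem, Pi.one_apply, mul_one]
        rw [mem_Icc] at hu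
        exact ⟨rfl, J5_cl_eq hu.1 hu.2⟩
      · intro u' hu' hne
        rw [Set.indicator_of_notMem, mul_zero]
        rintro ⟨_, h2⟩
        rw [mem_Icc] at hu'
        rw [J5_cl_eq hu'.1 hu'.2] at h2
        exact hne h2
      · intro v' _ hne
        apply Finset.sum_eq_zero
        intro u' _
        rw [Set.indicator_of_notMem, mul_zero]
        rintro ⟨h1, _⟩
        exact hne h1
    · rw [hq v u (fun h => hu h.2), ENNReal.ofReal_zero]
      apply Finset.sum_eq_zero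
      intro v' _
      apply Finset.sum_eq_zero
      intro u' hu'
      rw [Set.indicator_of_notMem, mul_zero]
      rintro ⟨_, h2⟩
      have h3 := mem_Icc.1 hu'
      have h4 : J5_cl n u' = u := h2
      rw [J5_cl_eq h3.1 h3.2] at h4
      exact hu (h4 ▸ hu')
  · rw [hq v u (fun h => hv h.1), ENNReal.ofReal_zero]
    apply Finset.sum_eq_zero
    intro v' hv'
    apply Finset.sum_eq_zero
    intro u' _
    rw [Set.indicator_of_notMem, mul_zero]
    rintro ⟨h1, _⟩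
    have h4 : v' = v := h1
    exact hv (h4 ▸ hv')

/-- the kernels -/
noncomputable def J5_k (a : ℕ) : Kernel ((i : Iic a) → ℕ × ℕ) (ℕ × ℕ) :=
  Kernel.ofFunOfCountable (fun h => J5_M (J5_w h) (a + 1))

instance (a : ℕ) : IsMarkovKernel (J5_k a) := ⟨fun h => J5_M_prob (J5_adm h (a + 1))⟩

/-- the law of the whole sequence -/
noncomputable def J5_P : Measure (ℕ → ℕ × ℕ) :=
  Kernel.trajMeasure (X := fun _ => ℕ × ℕ) (Measure.dirac (1, 1)) J5_k

instance : IsProbabilityMeasure J5_P := by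
  unfold J5_P; infer_instance

/-- The random friend tree exists. -/
theorem exists_friendTree : ∃ (Ω : Type) (_ : MeasurableSpace Ω) (P : Measure Ω)
    (_ : IsProbabilityMeasure P) (V W : ℕ → Ω → ℕ), IsFriendTree P V W := by
  refine ⟨ℕ → ℕ × ℕ, inferInstance, J5_P, inferInstance, fun n ω => (ω n).1,
    fun n ω => J5_cl n (ω n).2, ?_, ?_, ?_⟩
  · intro n
    exact measurable_fst.comp (measurable_pi_apply n)
  · intro n
    exact (Measurable.of_discrete (f := J5_cl n)).comp (measurable_snd.comp (measurable_pi_apply n))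
  · intro n hn w v u
    obtain ⟨a, rfl⟩ : ∃ a, n = a + 1 := ⟨n - 1, by omega⟩
    set A : Set ((i : Iic a) → ℕ × ℕ) := {h | ∀ j, 2 ≤ j → j < a + 1 → J5_w h j = w j} with hA
    set B : Set (ℕ × ℕ) := {p | p.1 = v ∧ J5_cl (a + 1) p.2 = u} with hB
    have hmA : MeasurableSet A := (Set.to_countable A).measurableSet
    have hmB : MeasurableSet B := (Set.to_countable B).measurableSet
    have hres : ∀ (ω : ℕ → ℕ × ℕ) (j : ℕ), j < a + 1 →
        J5_w (frestrictLe (π := fun _ => ℕ × ℕ) a ω) j = J5_cl j (ω j).2 := by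
      intro ω j hj
      unfold J5_w
      rw [dif_pos (by omega)]
      rfl
    have hE : {ω : ℕ → ℕ × ℕ | ∀ j, 2 ≤ j → j < a + 1 → J5_cl j (ω j).2 = w j} =
        (frestrictLe (π := fun _ => ℕ × ℕ) a) ⁻¹' A := by
      ext ω
      simp only [Set.mem_ofPred_eq, Set.mem_preimage, hA]
      constructor
      · intro h j h1 h2; rw [hres ω j h2]; exact h j h1 h2
      · intro h j h1 h2; rw [← hres ω j h2]; exact h j h1 h2
    have hF : {ω : ℕ → ℕ × ℕ | (∀ j, 2 ≤ j → j < a + 1 → J5_cl j (ω j).2 = w j) ∧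
        (ω (a + 1)).1 = v ∧ J5_cl (a + 1) (ω (a + 1)).2 = u} =
        (fun x : ℕ → ℕ × ℕ => (frestrictLe (π := fun _ => ℕ × ℕ) a x, x (a + 1))) ⁻¹' (A ×ˢ B) := by
      ext ω
      have := Set.ext_iff.1 hE ω
      simp only [Set.mem_ofPred_eq, Set.mem_preimage, Set.mem_prod, hB] at this ⊢
      rw [this]
    have hmeas : Measurable (fun x : ℕ → ℕ × ℕ =>
        (frestrictLe (π := fun _ => ℕ × ℕ) a x, x (a + 1))) := by fun_prop
    have key := Kernel.map_frestrictLe_trajMeasure_compProd_eq_map_trajMeasure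
      (X := fun _ => ℕ × ℕ) (μ₀ := Measure.dirac (1, 1)) (κ := J5_k) (a := a)
    have h1 : J5_P ((fun x : ℕ → ℕ × ℕ => (frestrictLe (π := fun _ => ℕ × ℕ) a x, x (a + 1))) ⁻¹'
        (A ×ˢ B)) = ENNReal.ofReal (J5_q w (a + 1) (v, u)) *
          J5_P ((frestrictLe (π := fun _ => ℕ × ℕ) a) ⁻¹' A) := by
      rw [← Measure.map_apply hmeas (hmA.prod hmB)]
      have key' : (J5_P.map (frestrictLe (π := fun _ => ℕ × ℕ) a)) ⊗ₘ J5_k a =
          J5_P.map (fun x => (frestrictLe (π := fun _ => ℕ × ℕ) a x, x (a + 1))) := key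
      rw [← key', Measure.compProd_apply_prod hmA hmB, setLIntegral_congr_fun hmA
        (g := fun _ => ENNReal.ofReal (J5_q w (a + 1) (v, u))), setLIntegral_const,
        Measure.map_apply (by fun_prop) hmA]
      intro h hh
      show J5_M (J5_w h) (a + 1) B = ENNReal.ofReal (J5_q w (a + 1) (v, u))
      rw [J5_M_pair hn (J5_adm h _), J5_q_congr hh]
    show J5_P.real _ = J5_P.real _ * _
    rw [hF, hE]
    unfold Measure.real
    rw [h1, ENNReal.toReal_mul, ENNReal.toReal_ofReal (J5_q_nonneg _ _ _), mul_comm]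
    rfl

end RFT
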