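import Mathlib

/-!
# Abstract part: positive kernels that raise the level by one

`Ker S`: a positive operator `P` on functions on `S` that reads only values at states whose level is
one more, with total mass `P 1 x ≤ lev x + c`.  The generator is `L u x = P u x - lev x * u x`
(every vertex rings at rate one, so the total rate of events is the level).  Its semigroup has the explicit form

  `sg t f x = exp (- lev x * t) * ∑' j, (1 - exp (-t)) ^ j / j! * (P^[j] f) x`.
-/

namespace RFT

open Finset

/-- A positive operator raising the level by one. -/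
structure Ker (S : Type) where
  /-- the level (number of vertices) -/
  lev : S → ℕ
  /-- the positive operator: sum over the transitions of rate times value at the target -/
  P : (S → ℝ) → S → ℝ
  /-- bound for the extra creation -/
  c : ℕ
  rep : ∀ x, ∃ l : List (ℝ × S), (∀ p ∈ l, 0 ≤ p.1 ∧ lev p.2 = lev x + 1) ∧
    ∀ u : S → ℝ, P u x = (l.map (fun p => p.1 * u p.2)).sum
  tot : ∀ x, P (fun _ => 1) x ≤ lev x + c

namespace Ker

variable {S : Type} (k : Ker S)

/-- The generator. -/
def L (u : S → ℝ) (x : S) : ℝ := k.P u x - k.lev x * u x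

/-- The growth functions: `(a+1)(a+2)⋯(a+p)` with `a = lev x + c`. -/
def V (p : ℕ) (x : S) : ℝ := ((k.lev x + k.c + 1).ascFactorial p : ℕ)

/-- Polynomial growth. -/
def Gr (f : S → ℝ) : Prop := ∃ (C : ℝ) (p : ℕ), ∀ x, |f x| ≤ C * k.V p x

/-- The semigroup. -/
noncomputable def sg (t : ℝ) (f : S → ℝ) (x : S) : ℝ :=
  Real.exp (-((k.lev x : ℝ) * t)) *
    ∑' j : ℕ, (1 - Real.exp (-t)) ^ j / (j.factorial : ℝ) * (k.P^[j] f) x

/-- A set of states that cannot be left. -/
def Closed (D : Set S) : Prop :=
  ∀ x ∈ D, ∀ u : S → ℝ, (∀ y ∈ D, 0 ≤ u y) → 0 ≤ k.P u x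

end Ker

end RFT
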