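import Pool.Agent.H13.RF.Basic

namespace RFT

open Finset RT

theorem msg_eq_add (B : RT Unit) : msg B = add B := by
  cases B; rfl

theorem nk_kid_lt {B : RT Unit} {i : ℕ} (h : (kid B i).nk ≠ 0) : i < B.nk := by
  cases B with
  | node a n K =>
    by_contra hi
    apply h
    simp only [nk_node] at hi
    simp [kid, hi]

theorem nk_repl (B : RT Unit) (i : ℕ) (A : RT Unit) : (repl B i A).nk = B.nk := by
  cases B with
  | node a n K =>
    by_cases h : i < n <;> simp [repl, h]

theorem size_repl {B : RT Unit} {i : ℕ} (hi : i < B.nk) (A : RT Unit) :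
    (repl B i A).size + (kid B i).size = B.size + A.size := by
  cases B with
  | node a n K =>
    simp only [nk_node] at hi
    simp only [repl, kid, hi, dif_pos, size_node]
    have h1 : ∑ j, (Function.update K ⟨i, hi⟩ A j).size =
        ∑ j, Function.update (fun j => (K j).size) ⟨i, hi⟩ A.size j := by
      apply Finset.sum_congr rfl
      intro j _
      by_cases hj : j = ⟨i, hi⟩
      · subst hj; simp
      · simp [Function.update_of_ne hj]
    rw [h1, Finset.sum_update_of_mem (Finset.mem_univ _),
      ← Finset.add_sum_erase _ (fun j => (K j).size) (Finset.mem_univ (⟨i, hi⟩ : Fin n)),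
      Finset.sdiff_singleton_eq_erase]
    ring

theorem size_eq_one_of_nk {α : Type} {B : RT α} (h : B.nk = 0) : B.size = 1 := by
  cases B with
  | node a n K =>
    simp only [nk_node] at h
    subst h
    simp

/-- the operator of the pointed trees: the state `(B, A)` is a whole tree seen from the root `x` of `B`; in
addition to the transitions of the whole tree, a birth (the root of `B` chooses one of its leaf kids)
creates the tree seen from the new non-leaf -/
noncomputable def ptP (u : RT Unit × RT Unit → ℝ) (x : RT Unit × RT Unit) : ℝ :=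
  Env.rt.pairP u x + ∑ i ∈ range x.1.nk,
    if (kid x.1 i).nk = 0 then x.1.upr * u (fresh, repl x.1 i x.2) else 0

/-- pointed trees -/
noncomputable def kerP : Ker (RT Unit × RT Unit) where
  lev x := x.1.size + x.2.size
  P := ptP
  c := 1
  rep x := by
    have h : Rep (fun x : RT Unit × RT Unit => x.1.size + x.2.size) (x.1.size + x.2.size)
        (fun u => ptP u x) := by
      unfold ptP
      refine (pairP_rep Env.rt x).add (Rep.sum _ (fun i hi => ?_))
      by_cases h0 : (kid x.1 i).nk = 0
      · simp only [h0, if_true]
        refine Rep.single _ (upr_nonneg _) _ ?_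
        have h1 := size_repl (mem_range.1 hi) x.2
        have h2 := size_eq_one_of_nk h0
        have h3 : (fresh : RT Unit).size = 2 := by simp [fresh]
        show (fresh : RT Unit).size + (repl x.1 i x.2).size = x.1.size + x.2.size + 1
        omega
      · simp only [h0, if_false]
        exact Rep.zero _ _
    exact h
  tot x := by
    have h1 := Env.ker_one Env.rt Unit x
    have h2 : Env.rt.pairP (fun _ => 1) x = ((x.1.size + x.2.size : ℕ) : ℝ) := h1
    unfold ptP
    rw [h2]
    have h3 : ∑ i ∈ range x.1.nk, (if (kid x.1 i).nk = 0 then x.1.upr * 1 else 0) ≤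
        ∑ i ∈ range x.1.nk, x.1.upr := by
      apply Finset.sum_le_sum
      intro i _
      split
      · simp
      · exact upr_nonneg _
    have h4 : ∑ i ∈ range x.1.nk, x.1.upr ≤ 1 := by
      simp only [sum_const, card_range, nsmul_eq_mul, upr]
      rw [mul_one_div, div_le_one (by positivity)]
      linarith
    push_cast at *
    linarith

/-- The operator of the influence system: `x = ((B, A), σ)`; `u (_, true)`, `u (_, false)` stand for
`V + δ` and `V - δ`, where `δ (B, A) = u (add B, A) - u (B, A)`. -/
noncomputable def inP (u : (RT Unit × RT Unit) × Bool → ℝ) (x : (RT Unit × RT Unit) × Bool) : ℝ :=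
  Env.rt.pairP (fun y => u (y, x.2)) x.1 +
  x.1.1.upr * (1 / ((x.1.1.nk : ℝ) + 2)) *
    (∑ i ∈ range x.1.1.nk, u ((kid x.1.1 i, repl (add x.1.1) i x.1.2), !x.2) +
      u ((x.1.2, add x.1.1), !x.2)) +
  1 / ((x.1.1.nk : ℝ) + 2) * u ((leaf, repl (add x.1.1) x.1.1.nk x.1.2), x.2) +
  1 * u ((add x.1.1, x.1.2), x.2)

theorem kid_add {B : RT Unit} {i : ℕ} (hi : i < B.nk) : kid (add B) i = kid B i := by
  cases B with
  | node a n K =>
    simp only [nk_node] at hi
    have h1 : i < n + 1 := by omega
    simp only [add, kid, hi, h1, dif_pos]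
    have : (⟨i, h1⟩ : Fin (n + 1)) = Fin.castSucc ⟨i, hi⟩ := rfl
    rw [this, Fin.snoc_castSucc]

theorem kid_add_last (B : RT Unit) : kid (add B) B.nk = leaf := by
  cases B with
  | node a n K =>
    have h1 : n < n + 1 := by omega
    show (if h : n < n + 1 then Fin.snoc (α := fun _ => RT Unit) K leaf ⟨n, h⟩ else leaf) = leaf
    rw [dif_pos h1]
    have : (⟨n, h1⟩ : Fin (n + 1)) = Fin.last n := rfl
    rw [this, Fin.snoc_last]

/-- the influence kernel -/
noncomputable def kerI : Ker ((RT Unit × RT Unit) × Bool) where
  lev x := x.1.1.size + x.1.2.size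
  P := inP
  c := 2
  rep x := by
    have h : Rep (fun x : (RT Unit × RT Unit) × Bool => x.1.1.size + x.1.2.size)
        (x.1.1.size + x.1.2.size) (fun u => inP u x) := by
      unfold inP
      refine (((Rep.comp (pairP_rep Env.rt x.1) (fun y => (y, x.2)) ?_).add
        (Rep.smul ((Rep.sum _ (fun i hi => ?_)).add ?_) _ ?_)).add (Rep.single _ ?_ _ ?_)).add
        (Rep.single _ ?_ _ ?_)
      · intro y hy; exact hy
      · have := Rep.single (lev := fun x : (RT Unit × RT Unit) × Bool => x.1.1.size + x.1.2.size)
          (n := x.1.1.size + x.1.2.size) 1 zero_le_one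
          ((kid x.1.1 i, repl (add x.1.1) i x.1.2), !x.2) (by
            have h1 := size_repl (B := add x.1.1) (i := i) (by
              have := mem_range.1 hi
              simp; omega) x.1.2
            rw [kid_add (mem_range.1 hi)] at h1
            simp only [size_add] at h1 ⊢
            omega)
        simpa using this
      · have := Rep.single (lev := fun x : (RT Unit × RT Unit) × Bool => x.1.1.size + x.1.2.size)
          (n := x.1.1.size + x.1.2.size) 1 zero_le_one
          ((x.1.2, add x.1.1), !x.2) (by simp; ring)
        simpa using this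
      · have := upr_nonneg x.1.1; positivity
      · positivity
      · have h1 := size_repl (B := add x.1.1) (i := x.1.1.nk) (by simp) x.1.2
        rw [kid_add_last] at h1
        simp only [size_add, size_leaf] at h1 ⊢
        omega
      · positivity
      · simp only [size_add]; ring
    exact h
  tot x := by
    have h1 := Env.ker_one Env.rt Unit x.1
    have h2 : Env.rt.pairP (fun _ => 1) x.1 = ((x.1.1.size + x.1.2.size : ℕ) : ℝ) := h1
    unfold inP
    rw [h2]
    simp only [sum_const, card_range, nsmul_eq_mul, mul_one, upr]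
    have h3 : (0 : ℝ) ≤ (x.1.1.nk : ℝ) := by positivity
    have h4 : 1 / ((x.1.1.nk : ℝ) + 1) * (1 / ((x.1.1.nk : ℝ) + 2)) * ((x.1.1.nk : ℝ) + 1) =
        1 / ((x.1.1.nk : ℝ) + 2) := by field_simp
    have h5 : 1 / ((x.1.1.nk : ℝ) + 2) ≤ 1 / 2 := by
      apply one_div_le_one_div_of_le <;> linarith
    rw [h4]
    push_cast
    linarith

end RFT
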